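import Mathlib

set_option autoImplicit false

/-!
# Project TW (helper673): the harmonic measure of the Multibrot sets is singular to length

Statements of the lemmas.  Only Mathlib is imported.  `pt r θ = r e^(iθ)` is the same function as
`Pool.Agent.W677.Mar.pt` (`rfl`), and `rj` is `Pool.Agent.Y430.TY.rj` (`rfl`).
-/

open Complex Filter Topology Metric Set MeasureTheory

namespace Pool.Agent.N673.TW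

/-- the point `r e^(iθ)` -/
noncomputable def pt (r θ : ℝ) : ℂ := circleMap 0 r θ

/-- dyadic radii -/
noncomputable def rj (j : ℕ) : ℝ := 1 - 1 / 2 ^ j

/-- the dyadic arcs `[2π i / 2^j, 2π (i+1) / 2^j)` -/
def arc (j i : ℕ) : Set ℝ := Ico (2 * Real.pi * i / 2 ^ j) (2 * Real.pi * (i + 1) / 2 ^ j)

/-- Bloch functions with constant `6` -/
def Bl (H : ℂ → ℂ) : Prop :=
  DifferentiableOn ℂ H (ball 0 1) ∧ ∀ w ∈ ball (0 : ℂ) 1, ‖deriv H w‖ * (1 - ‖w‖) ≤ 6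

/-- univalent functions on the unit disc -/
def Univ (φ : ℂ → ℂ) : Prop := DifferentiableOn ℂ φ (ball 0 1) ∧ InjOn φ (ball 0 1)

/-- `p` is the radial limit of `φ` at the angle `θ` -/
def Lim (φ : ℂ → ℂ) (θ : ℝ) (p : ℂ) : Prop :=
  Tendsto (fun r : ℝ => φ (pt r θ)) (𝓝[<] 1) (𝓝 p)

/-- MEAN: the dyadic martingale of a Bloch function (limits of the means over dyadic arcs along an
ultrafilter of radii) -/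
def S_MEAN : Prop := ∃ C : ℝ, 0 ≤ C ∧ ∀ H : ℂ → ℂ, Bl H → ∃ X : ℕ → ℕ → ℝ,
  (∀ j i : ℕ, X j i = (X (j + 1) (2 * i) + X (j + 1) (2 * i + 1)) / 2) ∧
  ∀ j i : ℕ, i < 2 ^ j → ∀ θ ∈ arc j i, |X j i - (H (pt (rj j) θ)).re| ≤ C

/-- TREE: maximal inequality for nonnegative supermartingales on the dyadic tree -/
def S_TREE : Prop := ∀ Y : ℕ → ℕ → ℝ, (∀ j i : ℕ, i < 2 ^ j → 0 ≤ Y j i) →
  (∀ j i : ℕ, i < 2 ^ j → (Y (j + 1) (2 * i) + Y (j + 1) (2 * i + 1)) / 2 ≤ Y j i) →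
  ∀ (j i : ℕ) (t : ℝ), i < 2 ^ j → 0 < t →
    volume {θ : ℝ | θ ∈ arc j i ∧ ∃ n k : ℕ, j ≤ n ∧ k < 2 ^ n ∧ θ ∈ arc n k ∧ t ≤ Y n k} ≤
      ENNReal.ofReal (2 * Real.pi / 2 ^ j * (Y j i / t))

/-- DICH: a Bloch function is almost everywhere radially bounded below only if it is radially bounded
above (real parts) -/
def S_DICH : Prop := ∀ H : ℂ → ℂ, Bl H → ∀ᵐ θ : ℝ,
  BddBelow (range fun j : ℕ => (H (pt (rj j) θ)).re) →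
  BddAbove (range fun j : ℕ => (H (pt (rj j) θ)).re)

/-- DEV: large deviations of a Bloch function over a dyadic arc -/
def S_DEV : Prop := ∃ C l : ℝ, 0 < C ∧ 0 < l ∧ ∀ H : ℂ → ℂ, Bl H → ∀ j i : ℕ, i < 2 ^ j →
  ∀ K : ℝ, 0 ≤ K →
    volume {θ : ℝ | θ ∈ arc j i ∧ ∃ n : ℕ, j ≤ n ∧
      K + ((n : ℝ) - j) / 4 < |(H (pt (rj n) θ)).re - (H (pt (rj j) θ)).re|} ≤
    ENNReal.ofReal (C * Real.exp (-(l * K)) / 2 ^ j)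

/-- NT: almost every radial lower bound is a nontangential one -/
def S_NT : Prop := ∀ H : ℂ → ℂ, Bl H → ∀ᵐ θ : ℝ, ∀ q : ℝ,
  (∃ r₀ : ℝ, 0 ≤ r₀ ∧ r₀ < 1 ∧ ∀ r : ℝ, r₀ ≤ r → r < 1 → q ≤ (H (pt r θ)).re) →
  ∀ R ε : ℝ, 1 ≤ R → 0 < ε → ∀ᶠ ρ : ℝ in 𝓝[>] 0, ∀ u : ℂ, ‖u‖ ≤ R → 1 / R ≤ u.re →
    q - ε ≤ (H (exp (θ * I - ρ * u))).re

/-- HARN: a function with almost nonnegative real part which is almost zero at one point -/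
def S_HARN : Prop := ∀ A ε : ℝ, 2 ≤ A → 0 < ε → ∃ η : ℝ, 0 < η ∧ ∀ g : ℂ → ℂ,
  DifferentiableOn ℂ g (ball (A : ℂ) (A - 1 / 4)) →
  (∀ u ∈ ball (A : ℂ) (A - 1 / 4), -η ≤ (g u).re) →
  (∃ s : ℝ, 1 ≤ s ∧ s ≤ A ∧ (g s).re ≤ η) →
  ∀ u : ℂ, ‖u - A‖ ≤ A / 2 → ‖g u - g A‖ ≤ ε

/-- RIG: rigidity. If the (rotated) inverse Böttcher map of `z ^ d + c` extends to an entire function
of exponential type in the logarithmic coordinate, then the critical orbit is finite. -/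
def S_RIG : Prop := ∀ (d : ℕ) (c ξ : ℂ) (H : ℂ → ℂ) (C : ℝ), 2 ≤ d → ‖ξ‖ = 1 →
  Differentiable ℂ H → (∀ u : ℂ, ‖H u‖ ≤ Real.exp (C * (1 + ‖u‖))) →
  (∀ (k : ℕ) (u : ℂ), 1 ≤ u.re → |u.im| ≤ u.re / 4 →
    ‖(fun z : ℂ => z ^ d + c)^[k] (H u) - ξ ^ (d ^ k) * exp ((d : ℂ) ^ k * u)‖ ≤ 3) →
  ∃ m n : ℕ, m < n ∧ (fun z : ℂ => z ^ d + c)^[m] 0 = (fun z : ℂ => z ^ d + c)^[n] 0

/-- PK: packing -/
def S_PK : Prop := ∀ K : ℝ, 0 ≤ K → ∃ A : ℝ, 0 < A ∧ ∀ φ : ℂ → ℂ, Univ φ →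
  ∀ (c : ℂ) (R : ℝ), 0 < R →
    volume {θ : ℝ | θ ∈ Ico 0 (2 * Real.pi) ∧
      (∀ r : ℝ, 0 ≤ r → r < 1 → |Real.log ‖deriv φ (pt r θ)‖| ≤ K) ∧
      ∃ p : ℂ, ‖p - c‖ ≤ R ∧ Lim φ θ p} ≤ ENNReal.ofReal (A * R)

/-- L1: most radial limits over a dyadic arc are close to the value at the top -/
def S_L1 : Prop := ∃ C l : ℝ, 0 < C ∧ 0 < l ∧ ∀ φ : ℂ → ℂ, Univ φ → ∀ j i : ℕ, i < 2 ^ j →
  ∀ θ₀ ∈ arc j i, ∀ K : ℝ, 0 ≤ K →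
    volume {θ : ℝ | θ ∈ arc j i ∧ ¬ ∃ p : ℂ, Lim φ θ p ∧
      ‖p - φ (pt (rj j) θ₀)‖ ≤ C * Real.exp K * ‖deriv φ (pt (rj j) θ₀)‖ / 2 ^ j} ≤
    ENNReal.ofReal (C * Real.exp (-(l * K)) / 2 ^ j)

/-- VIT: weak type inequality for the linear densities of a finite measure -/
def S_VIT : Prop := ∀ (μ ω : Measure ℂ) [IsFiniteMeasure μ] [IsFiniteMeasure ω] (A : ℝ), 0 ≤ A →
  (∀ (c : ℂ) (R : ℝ), 0 < R → μ (closedBall c R) ≤ ENNReal.ofReal (A * R)) →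
  ∀ᵐ c ∂μ, ∃ N r₀ : ℝ, 0 < r₀ ∧ ∀ r : ℝ, 0 < r → r < r₀ →
    ω (closedBall c r) ≤ ENNReal.ofReal (N * r)

/-- UP: at almost every angle at which the derivative is radially bounded and bounded away from `0`
the whole image keeps its distance from the radial limit -/
def S_UP : Prop := ∀ φ : ℂ → ℂ, Univ φ → ∀ᵐ θ : ℝ,
  (∃ K : ℝ, ∀ r : ℝ, 0 ≤ r → r < 1 → |Real.log ‖deriv φ (pt r θ)‖| ≤ K) →
  ∃ (p : ℂ) (C : ℝ), 0 < C ∧ Lim φ θ p ∧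
    (∀ r : ℝ, 0 ≤ r → r < 1 → ‖φ (pt r θ) - p‖ ≤ C * (1 - r)) ∧
    ∀ x ∈ ball (0 : ℂ) 1, 1 - ‖x‖ ≤ C * ‖φ x - p‖

/-- MAK: Makarov's theorem on the singularity of the harmonic measure -/
def S_MAK : Prop := ∀ φ : ℂ → ℂ, Univ φ →
  (∀ᵐ θ : ℝ, ¬ BddBelow (range fun j : ℕ => Real.log ‖deriv φ (pt (rj j) θ)‖)) →
  ∃ Z : Set ℝ, (∀ᵐ θ : ℝ, θ ∈ Z) ∧ μH[1] {p : ℂ | ∃ θ ∈ Z, Lim φ θ p} = 0

/-- FAT: Fatou's theorem on derivatives -/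
def S_FAT : Prop := ∀ Φ : ℂ → ℂ, ContinuousOn Φ (closedBall 0 1) →
  DifferentiableOn ℂ Φ (ball 0 1) → ∀ θ : ℝ,
  DifferentiableAt ℝ (fun t : ℝ => Φ (exp (t * I))) θ →
  ∃ K : ℝ, ∀ r : ℝ, 0 ≤ r → r < 1 → ‖deriv Φ (pt r θ)‖ ≤ K

end Pool.Agent.N673.TW
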