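import Pool.Agent.Y430.TY.Lil1
import Pool.Agent.R240.Strip
import Pool.Agent.N673.TW.Stm

set_option autoImplicit false

/-!
# Blow-up at a boundary parameter, part 1: estimates for the critical orbit polynomials in the
exterior of the Multibrot set
-/

open Complex Filter Topology Metric Set MeasureTheory N62a1eb23

namespace Pool.Agent.N673.TW.BL

open Pool.Agent.H712R2 Pool.Agent.H713R2 Pool.Agent.Y272.TY Pool.Agent.W677.Mar

variable {d : ℕ} {β : ℂ → ℂ}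

theorem P_near (hd : 2 ≤ d) (hβ : IsBeta d β) (n : ℕ) {x : ℂ} (hx : x ∈ ball (0 : ℂ) 1)
    (hx0 : x ≠ 0) : ‖P d (n + 1) (cc β x) - (x ^ (d ^ n))⁻¹‖ ≤ 3 := by
  have hN : d ^ n ≤ d ^ (n + 1) - 1 := by
    have h1 : 1 ≤ d ^ n := Nat.one_le_pow _ _ (by omega)
    have h2 : d ^ n * 2 ≤ d ^ (n + 1) := by rw [pow_succ]; gcongr
    omega
  obtain ⟨C, hC⟩ := hβ.order n
  have h1 := Pool.Agent.R240.Strip.schwarz (F := fun x => (BB d β n x - 1) / 3)
    (((BB_diff hβ.diff n).sub_const 1).div_const 3) (N := d ^ (n + 1) - 1) (C := C / 3)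
    (δ := 1 / 2) (fun y hy => by
      rw [norm_div]
      have h2 : ‖BB d β n y - 1‖ ≤ 3 := by
        refine (norm_sub_le _ _).trans ?_
        have := AR.BB_le_two hd hβ n hy
        rw [norm_one]; linarith
      have h3 : ‖(3 : ℂ)‖ = 3 := by norm_num
      rw [h3, div_le_one (by norm_num)]
      exact h2) (by norm_num) (fun y hy => by
      have h3 : ‖(3 : ℂ)‖ = 3 := by norm_num
      rw [norm_div, h3, div_mul_eq_mul_div]
      exact div_le_div_of_nonneg_right (hC y hy) (by norm_num)) hx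
  have h3 : ‖(3 : ℂ)‖ = 3 := by norm_num
  rw [norm_div, h3, div_le_iff₀ (by norm_num)] at h1
  have hxn : 0 < ‖x‖ := norm_pos_iff.2 hx0
  have hx1 : ‖x‖ ≤ 1 := (mem_ball_zero_iff.1 hx).le
  have h4 : ‖BB d β n x - 1‖ ≤ 3 * ‖x‖ ^ (d ^ n) := by
    have := pow_le_pow_of_le_one hxn.le hx1 hN
    linarith
  have h5 : P d (n + 1) (cc β x) - (x ^ (d ^ n))⁻¹ = (x ^ (d ^ n))⁻¹ * (BB d β n x - 1) := by
    rw [BB_eq hd β n x hx0]
    have : x ^ (d ^ n) ≠ 0 := pow_ne_zero _ hx0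
    unfold cc
    field_simp
  rw [h5, norm_mul, norm_inv, norm_pow, inv_mul_le_iff₀ (by positivity)]
  linarith

theorem P_le (hd : 2 ≤ d) (hβ : IsBeta d β) (n : ℕ) {x : ℂ} (hx : x ∈ ball (0 : ℂ) 1)
    (hx0 : x ≠ 0) : ‖P d (n + 1) (cc β x)‖ ≤ 2 * (‖x‖ ^ (d ^ n))⁻¹ := by
  have h1 := AR.BB_le_two hd hβ n hx
  rw [BB_eq hd β n x hx0, norm_mul, norm_pow] at h1
  have hxn : 0 < ‖x‖ ^ (d ^ n) := by have := norm_pos_iff.2 hx0; positivity
  rw [← div_eq_mul_inv, le_div_iff₀ hxn]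
  unfold cc
  linarith

theorem quarter (hd : 2 ≤ d) {c : ℂ} (hc : ‖c‖ ≤ 1 / 4) : c ∈ multibrotSet d := by
  rw [mem_multibrot_iff hd]
  have h : ∀ k, ‖P d k c‖ ≤ 1 / 2 := by
    intro k
    induction k with
    | zero => rw [P_zero, norm_zero]; norm_num
    | succ k ih =>
      rw [P_succ]
      have h1 : ‖P d k c‖ ^ d ≤ (1 / 2) ^ 2 := by
        calc ‖P d k c‖ ^ d ≤ (1 / 2) ^ d := by gcongr
          _ ≤ (1 / 2) ^ 2 := pow_le_pow_of_le_one (by norm_num) (by norm_num) hd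
      calc ‖P d k c ^ d + c‖ ≤ ‖P d k c ^ d‖ + ‖c‖ := norm_add_le _ _
        _ ≤ (1 / 2) ^ 2 + 1 / 4 := by rw [norm_pow]; gcongr
        _ = 1 / 2 := by norm_num
  intro k
  linarith [h k]

theorem cc_low (hd : 2 ≤ d) (hβ : IsBeta d β) {x : ℂ} (hx : x ∈ ball (0 : ℂ) 1)
    (hx0 : x ≠ 0) : 1 / 4 ≤ ‖cc β x‖ := by
  by_contra h
  exact hβ.notMem x hx hx0 (quarter hd (not_le.1 h).le)

theorem β_ne (hd : 2 ≤ d) (hβ : IsBeta d β) {x : ℂ} (hx : x ∈ ball (0 : ℂ) 1) : β x ≠ 0 := by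
  rcases eq_or_ne x 0 with rfl | hx0
  · rw [hβ.zero]; exact one_ne_zero
  · intro h
    have h1 := cc_low hd hβ hx hx0
    unfold cc at h1
    rw [h, mul_zero, norm_zero] at h1
    norm_num at h1

theorem β_low (hd : 2 ≤ d) (hβ : IsBeta d β) {x : ℂ} (hx : x ∈ ball (0 : ℂ) 1) :
    1 / 4 ≤ ‖β x‖ := by
  have hdf : DifferentiableOn ℂ (fun x => (β x)⁻¹) (ball 0 1) :=
    hβ.diff.inv fun x hx => β_ne hd hβ hx
  have h1 := Pool.Agent.R240.Strip.max_le hdf (B := 4) (fun ε hε => by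
    refine ⟨min (1 / 2) (ε / 8), by positivity, fun y hy1 hy2 => ?_⟩
    have hy3 : 1 / 2 < ‖y‖ := by
      have := min_le_left (1 / 2 : ℝ) (ε / 8)
      linarith
    have hy4 : 1 - ε / 8 < ‖y‖ := by
      have := min_le_right (1 / 2 : ℝ) (ε / 8)
      linarith
    have hy0 : y ≠ 0 := by
      intro h; rw [h, norm_zero] at hy3; norm_num at hy3
    have hyb : y ∈ ball (0 : ℂ) 1 := mem_ball_zero_iff.2 hy1
    have h2 := cc_low hd hβ hyb hy0
    unfold cc at h2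
    rw [norm_mul, norm_inv, inv_mul_eq_div, le_div_iff₀ (by linarith)] at h2
    have h3 : 0 < ‖β y‖ := norm_pos_iff.2 (β_ne hd hβ hyb)
    rw [norm_inv, inv_le_comm₀ h3 (by positivity), inv_eq_one_div, div_le_iff₀ (by positivity)]
    nlinarith) hx
  have h3 : 0 < ‖β x‖ := norm_pos_iff.2 (β_ne hd hβ hx)
  rw [norm_inv, inv_le_comm₀ h3 (by norm_num)] at h1
  linarith

/-- the reciprocal of the parameter, as a univalent function in the disc -/
noncomputable def Ff (β : ℂ → ℂ) (x : ℂ) : ℂ := x / β x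

theorem Ff_eq (x : ℂ) : Ff β x = (cc β x)⁻¹ := by
  unfold Ff cc
  rw [mul_inv, inv_inv, div_eq_mul_inv]

theorem Ff_diff (hd : 2 ≤ d) (hβ : IsBeta d β) : DifferentiableOn ℂ (Ff β) (ball 0 1) :=
  differentiableOn_id.div hβ.diff fun _ hx => β_ne hd hβ hx

theorem Ff_univ (hd : 2 ≤ d) (hβ : IsBeta d β) : Univ (Ff β) := by
  refine ⟨Ff_diff hd hβ, fun x hx y hy h => ?_⟩
  rcases eq_or_ne x 0 with rfl | hx0
  · have h1 : Ff β 0 = 0 := by simp [Ff]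
    rw [h1] at h
    by_contra hne
    exact div_ne_zero (Ne.symm hne) (β_ne hd hβ hy) h.symm
  rcases eq_or_ne y 0 with rfl | hy0
  · have h1 : Ff β 0 = 0 := by simp [Ff]
    rw [h1] at h
    exact absurd h (div_ne_zero hx0 (β_ne hd hβ hx))
  rw [Ff_eq, Ff_eq, inv_inj] at h
  exact hβ.inj x hx y hy hx0 hy0 h

theorem Ff_norm (hd : 2 ≤ d) (hβ : IsBeta d β) {x : ℂ} (hx : x ∈ ball (0 : ℂ) 1) :
    ‖x‖ / 2 ≤ ‖Ff β x‖ ∧ ‖Ff β x‖ ≤ 4 * ‖x‖ := by
  have h1 := β_low hd hβ hx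
  have h2 := hβ.bound x hx
  have h3 := norm_nonneg x
  have h4 : 0 < ‖β x‖ := by linarith
  unfold Ff
  rw [norm_div]
  constructor
  · gcongr
  · rw [div_le_iff₀ h4]
    nlinarith

theorem Ff_deriv {H : ℂ → ℂ} (hd : 2 ≤ d) (hβ : IsBeta d β) (S : Sg β H) {x : ℂ}
    (hx : x ∈ ball (0 : ℂ) 1) : deriv (Ff β) x = exp (H x) / β x ^ 2 := by
  have h1 : HasDerivAt (Ff β) ((1 * β x - x * deriv β x) / β x ^ 2) x :=
    (hasDerivAt_id x).div ((hβ.diff.differentiableAt (isOpen_ball.mem_nhds hx)).hasDerivAt)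
      (β_ne hd hβ hx)
  rw [h1.deriv, S.eq x hx, one_mul]

theorem Ff_log {H : ℂ → ℂ} (hd : 2 ≤ d) (hβ : IsBeta d β) (S : Sg β H) {x : ℂ}
    (hx : x ∈ ball (0 : ℂ) 1) :
    Real.log ‖deriv (Ff β) x‖ = (H x).re - 2 * Real.log ‖β x‖ := by
  have h1 : ‖β x‖ ≠ 0 := norm_ne_zero_iff.2 (β_ne hd hβ hx)
  rw [Ff_deriv hd hβ S hx, norm_div, norm_pow, Complex.norm_exp,
    Real.log_div (Real.exp_ne_zero _) (pow_ne_zero _ h1), Real.log_exp, Real.log_pow]
  push_cast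
  ring

theorem abs_log_β (hd : 2 ≤ d) (hβ : IsBeta d β) {x : ℂ} (hx : x ∈ ball (0 : ℂ) 1) :
    |Real.log ‖β x‖| ≤ 2 := by
  have h1 := β_low hd hβ hx
  have h2 := hβ.bound x hx
  have h4 : 0 < ‖β x‖ := by linarith
  have h5 : Real.log 2 < 1 := by linarith [Real.log_two_lt_d9]
  rw [abs_le]
  constructor
  · have h6 : Real.log (1 / 4) ≤ Real.log ‖β x‖ := Real.log_le_log (by norm_num) h1
    have h7 : Real.log (1 / 4) = - (2 * Real.log 2) := by
      rw [one_div, Real.log_inv, show (4 : ℝ) = 2 ^ 2 by norm_num, Real.log_pow]; push_cast; ring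
    linarith
  · have h6 : Real.log ‖β x‖ ≤ Real.log 2 := Real.log_le_log h4 h2
    linarith

/-- the difference between the logarithm of the derivative of the reciprocal and `Re H` is bounded -/
theorem Ff_log_sub {H : ℂ → ℂ} (hd : 2 ≤ d) (hβ : IsBeta d β) (S : Sg β H) {x : ℂ}
    (hx : x ∈ ball (0 : ℂ) 1) : |Real.log ‖deriv (Ff β) x‖ - (H x).re| ≤ 4 := by
  rw [Ff_log hd hβ S hx]
  have := abs_le.1 (abs_log_β hd hβ hx)
  rw [abs_le]
  constructor <;> linarith [this.1, this.2]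

end Pool.Agent.N673.TW.BL
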