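import Pool.Agent.N673.TW.BL1

set_option autoImplicit false

/-!
# Blow-up at a boundary parameter, part 2: growth near a parameter at which the exterior map has a
nonzero derivative
-/

open Complex Filter Topology Metric Set MeasureTheory N62a1eb23

namespace Pool.Agent.N673.TW.BL

open Pool.Agent.H712R2 Pool.Agent.H713R2 Pool.Agent.Y272.TY Pool.Agent.W677.Mar

variable {d : ℕ} {β : ℂ → ℂ}

theorem log_grow (hd : 2 ≤ d) (hβ : IsBeta d β) {p : ℂ} {C : ℝ} (hC : 0 < C) (hp1 : 1 / 2 ≤ ‖p‖)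
    (hp2 : ‖p‖ ≤ 4) (hU : ∀ x ∈ ball (0 : ℂ) 1, 1 - ‖x‖ ≤ C * ‖Ff β x - p‖) {x : ℂ}
    (hx : x ∈ ball (0 : ℂ) 1) (hx0 : x ≠ 0) :
    -Real.log ‖x‖ ≤ (256 * C + 8) * ‖cc β x - p⁻¹‖ := by
  have hp0 : p ≠ 0 := by intro h; rw [h, norm_zero] at hp1; norm_num at hp1
  have hxn : 0 < ‖x‖ := norm_pos_iff.2 hx0
  have hc4 := cc_low hd hβ hx hx0
  have hc0 : cc β x ≠ 0 := by intro h; rw [h, norm_zero] at hc4; norm_num at hc4
  have hn := norm_nonneg (cc β x - p⁻¹)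
  rcases le_or_gt (1 / 16) ‖x‖ with h | h
  · have h1 : -Real.log ‖x‖ ≤ 16 * (1 - ‖x‖) := by
      have h2 := Real.one_sub_inv_le_log_of_pos hxn
      have h3 : ‖x‖⁻¹ ≤ 16 := by
        rw [inv_le_comm₀ hxn (by norm_num)]; linarith
      have h4 : ‖x‖⁻¹ - 1 = ‖x‖⁻¹ * (1 - ‖x‖) := by field_simp
      have h5 : 0 ≤ 1 - ‖x‖ := by linarith [mem_ball_zero_iff.1 hx]
      nlinarith
    have h6 : ‖Ff β x - p‖ ≤ 16 * ‖cc β x - p⁻¹‖ := by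
      have h7 : Ff β x - p = -((cc β x)⁻¹ * p * (cc β x - p⁻¹)) := by
        rw [Ff_eq]; field_simp; ring
      rw [h7, norm_neg, norm_mul, norm_mul, norm_inv]
      have h8 : ‖cc β x‖⁻¹ ≤ 4 := by
        rw [inv_le_comm₀ (by linarith) (by norm_num)]; linarith
      have h9 : ‖cc β x‖⁻¹ * ‖p‖ ≤ 4 * 4 := by gcongr
      calc ‖cc β x‖⁻¹ * ‖p‖ * ‖cc β x - p⁻¹‖ ≤ 4 * 4 * ‖cc β x - p⁻¹‖ := by gcongr
        _ = _ := by ring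
    have h10 := hU x hx
    have h11 : C * ‖Ff β x - p‖ ≤ C * (16 * ‖cc β x - p⁻¹‖) := by gcongr
    nlinarith
  · have h1 : ‖Ff β x‖ ≤ 4 * ‖x‖ := (Ff_norm hd hβ hx).2
    rw [Ff_eq, norm_inv, inv_le_comm₀ (by linarith) (by positivity)] at h1
    have h2 : ‖p⁻¹‖ ≤ 2 := by
      rw [norm_inv, inv_le_comm₀ (by linarith) (by norm_num)]; linarith
    have h3 : ‖cc β x‖ - ‖p⁻¹‖ ≤ ‖cc β x - p⁻¹‖ := norm_sub_norm_le _ _
    have h4 : (4 * ‖x‖)⁻¹ = ‖x‖⁻¹ / 4 := by rw [mul_inv]; ring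
    have h5 : 16 ≤ ‖x‖⁻¹ := by
      rw [le_inv_comm₀ (by norm_num) hxn]; linarith
    have h6 : -Real.log ‖x‖ ≤ ‖x‖⁻¹ := by
      rw [← Real.log_inv]
      have := Real.log_le_sub_one_of_pos (inv_pos.2 hxn)
      linarith
    have h7 : ‖x‖⁻¹ ≤ 8 * ‖cc β x - p⁻¹‖ := by linarith
    nlinarith

theorem P_grow (hd : 2 ≤ d) (hβ : IsBeta d β) {c0 : ℂ} {C : ℝ} (hC : 0 ≤ C)
    (h : ∀ x ∈ ball (0 : ℂ) 1, x ≠ 0 → -Real.log ‖x‖ ≤ C * ‖cc β x - c0‖) (n : ℕ) (c : ℂ) :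
    ‖P d (n + 1) c‖ ≤ 2 * Real.exp (C * ((d : ℝ) ^ n * ‖c - c0‖)) := by
  by_cases hc : c ∈ multibrotSet d
  · have h1 := (mem_multibrot_iff hd c).1 hc (n + 1)
    have h2 : 1 ≤ Real.exp (C * ((d : ℝ) ^ n * ‖c - c0‖)) := Real.one_le_exp (by positivity)
    linarith
  · obtain ⟨x, hx, hx0, hxc⟩ := hβ.surj c hc
    have h1 := P_le hd hβ n hx hx0
    have h2 : cc β x = c := hxc
    rw [h2] at h1
    refine h1.trans ?_
    have hxn : 0 < ‖x‖ := norm_pos_iff.2 hx0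
    have h3 : (‖x‖ ^ d ^ n)⁻¹ = Real.exp ((d : ℝ) ^ n * (-Real.log ‖x‖)) := by
      rw [mul_neg, Real.exp_neg, ← Nat.cast_pow, ← Real.log_pow, Real.exp_log (by positivity)]
    rw [h3]
    have h4 := h x hx hx0
    rw [h2] at h4
    have h5 : (d : ℝ) ^ n * (-Real.log ‖x‖) ≤ C * ((d : ℝ) ^ n * ‖c - c0‖) := by
      calc (d : ℝ) ^ n * (-Real.log ‖x‖) ≤ (d : ℝ) ^ n * (C * ‖c - c0‖) := by gcongr
        _ = _ := by ring
    gcongr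

/-- radial behaviour of the parameter -/
theorem cc_radial (hd : 2 ≤ d) (hβ : IsBeta d β) {p : ℂ} {C θ : ℝ} (hC : 0 < C)
    (hp1 : 1 / 2 ≤ ‖p‖)
    (hU : ∀ r : ℝ, 0 ≤ r → r < 1 → ‖Ff β (pt r θ) - p‖ ≤ C * (1 - r)) {r : ℝ} (hr : 1 / 2 ≤ r)
    (hr1 : r < 1) : ‖cc β (pt r θ) - p⁻¹‖ ≤ 8 * C * (1 - r) := by
  have hp0 : p ≠ 0 := by intro h; rw [h, norm_zero] at hp1; norm_num at hp1
  have hxn : ‖pt r θ‖ = r := by
    have := norm_pt r θ (by linarith : (0:ℝ) ≤ r)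
    exact this
  have hx : pt r θ ∈ ball (0 : ℂ) 1 := by rw [mem_ball_zero_iff, hxn]; exact hr1
  have hx0 : pt r θ ≠ 0 := by
    intro h; rw [h, norm_zero] at hxn; linarith
  have hc4 := cc_low hd hβ hx hx0
  have hc0 : cc β (pt r θ) ≠ 0 := by intro h; rw [h, norm_zero] at hc4; norm_num at hc4
  have h1 := (Ff_norm hd hβ hx).1
  rw [hxn] at h1
  have h7 : cc β (pt r θ) - p⁻¹ = -((Ff β (pt r θ))⁻¹ * p⁻¹ * (Ff β (pt r θ) - p)) := by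
    rw [Ff_eq]; field_simp; ring
  rw [h7, norm_neg, norm_mul, norm_mul, norm_inv, norm_inv]
  have h8 : ‖Ff β (pt r θ)‖⁻¹ ≤ 4 := by
    rw [inv_le_comm₀ (by linarith) (by norm_num)]; linarith
  have h9 : ‖p‖⁻¹ ≤ 2 := by
    rw [inv_le_comm₀ (by linarith) (by norm_num)]; linarith
  have h10 := hU r (by linarith) hr1
  calc ‖Ff β (pt r θ)‖⁻¹ * ‖p‖⁻¹ * ‖Ff β (pt r θ) - p‖ ≤ 4 * 2 * (C * (1 - r)) := by gcongr
    _ = _ := by ring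

/-- the bounds for the radial limit of the reciprocal -/
theorem lim_bounds (hd : 2 ≤ d) (hβ : IsBeta d β) {p : ℂ} {θ : ℝ} (hp : Lim (Ff β) θ p) :
    1 / 2 ≤ ‖p‖ ∧ ‖p‖ ≤ 4 := by
  have h1 : Tendsto (fun r : ℝ => ‖Ff β (pt r θ)‖) (𝓝[<] 1) (𝓝 ‖p‖) := hp.norm
  have hev : ∀ᶠ r : ℝ in 𝓝[<] 1, 0 < r ∧ r < 1 := by
    have h2 : ∀ᶠ r : ℝ in 𝓝 1, 0 < r := lt_mem_nhds one_pos
    filter_upwards [nhdsWithin_le_nhds h2, self_mem_nhdsWithin] with r h3 h4 using ⟨h3, h4⟩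
  have h5 : ∀ᶠ r : ℝ in 𝓝[<] 1, r / 2 ≤ ‖Ff β (pt r θ)‖ ∧ ‖Ff β (pt r θ)‖ ≤ 4 * r := by
    filter_upwards [hev] with r hr
    have hxn : ‖pt r θ‖ = r := norm_pt r θ hr.1.le
    have hx : pt r θ ∈ ball (0 : ℂ) 1 := by rw [mem_ball_zero_iff, hxn]; exact hr.2
    have := Ff_norm hd hβ hx
    rwa [hxn] at this
  have h6 : Tendsto (fun r : ℝ => r / 2) (𝓝[<] 1) (𝓝 (1 / 2)) :=
    (tendsto_id.div_const 2).mono_left nhdsWithin_le_nhds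
  have h7 : Tendsto (fun r : ℝ => 4 * r) (𝓝[<] 1) (𝓝 (4 * 1)) :=
    (tendsto_id.const_mul 4).mono_left nhdsWithin_le_nhds
  constructor
  · exact le_of_tendsto_of_tendsto h6 h1 (h5.mono fun r h => h.1)
  · have := le_of_tendsto_of_tendsto h1 h7 (h5.mono fun r h => h.2)
    linarith

end Pool.Agent.N673.TW.BL
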