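import Pool.Agent.N673.TW.BL2
import Pool.Agent.Helper114.MontelSol

set_option autoImplicit false

/-!
# Blow-up at a boundary parameter, part 3: the limit of the rescaled polynomials
-/

open Complex Filter Topology Metric Set MeasureTheory N62a1eb23

namespace Pool.Agent.N673.TW.BL

open Pool.Agent.H712R2 Pool.Agent.H713R2 Pool.Agent.Y272.TY Pool.Agent.W677.Mar

variable {d : ℕ} {β H : ℂ → ℂ}

theorem cc_hasDeriv (S : Sg β H) {w : ℂ} (hw : w ∈ ball (0:ℂ) 1) (hw0 : w ≠ 0) :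
    HasDerivAt (cc β) (-(w^2)⁻¹ * Complex.exp (H w)) w := by
  have h1 : HasDerivAt (cc β) (-(w^2)⁻¹ * β w + w⁻¹ * deriv β w) w :=
    (hasDerivAt_inv hw0).mul ((S.G.diff.differentiableAt (isOpen_ball.mem_nhds hw)).hasDerivAt)
  have h2 : -(w^2)⁻¹ * β w + w⁻¹ * deriv β w = -(w^2)⁻¹ * Complex.exp (H w) := by
    rw [S.eq w hw]; field_simp; ring
  rwa [h2] at h1

/-- the points of the blow-up -/
noncomputable def xx (θ e : ℝ) (u : ℂ) : ℂ := exp (θ * I - u / e)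

theorem xx_norm {θ e : ℝ} (u : ℂ) : ‖xx θ e u‖ = Real.exp (-(u.re / e)) := by
  unfold xx
  rw [Complex.norm_exp]
  congr 1
  simp [Complex.div_ofReal_re]

theorem xx_mem {θ e : ℝ} (he : 0 < e) {u : ℂ} (hu : 0 < u.re) : xx θ e u ∈ ball (0 : ℂ) 1 := by
  rw [mem_ball_zero_iff, xx_norm]
  rw [Real.exp_lt_one_iff]
  have : 0 < u.re / e := by positivity
  linarith

theorem xx_ne {θ e : ℝ} (u : ℂ) : xx θ e u ≠ 0 := exp_ne_zero _

theorem xx_pt {θ e : ℝ} (s : ℝ) : xx θ e s = pt (Real.exp (-(s / e))) θ := by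
  unfold xx
  have : pt (Real.exp (-(s / e))) θ = ((Real.exp (-(s / e)) : ℝ) : ℂ) * exp (θ * I) := by
    simp only [pt, circleMap, zero_add]
  rw [this, Complex.ofReal_exp, ← Complex.exp_add]
  congr 1
  push_cast
  ring

theorem xx_hasDeriv (θ e : ℝ) (u : ℂ) : HasDerivAt (xx θ e) (-(xx θ e u / e)) u := by
  unfold xx
  have h1 : HasDerivAt (fun u : ℂ => θ * I - u / e) (-(1 / e)) u := by
    have := ((hasDerivAt_id u).div_const (e : ℂ)).const_sub (θ * I)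
    exact this
  refine h1.cexp.congr_deriv ?_
  ring

/-- the rescaled exterior map -/
noncomputable def hh (β : ℂ → ℂ) (c0 : ℂ) (θ e : ℝ) (u : ℂ) : ℂ := e * (cc β (xx θ e u) - c0)

theorem hh_hasDeriv (S : Sg β H) {θ e : ℝ} (he : 0 < e) (c0 : ℂ) {u : ℂ} (hu : 0 < u.re) :
    HasDerivAt (hh β c0 θ e) (exp (-(θ * I) + u / e + H (xx θ e u))) u := by
  have h1 := ((cc_hasDeriv S (xx_mem (θ := θ) he hu) (xx_ne u)).comp u (xx_hasDeriv θ e u))
  have h2 := (h1.sub_const c0).const_mul (e : ℂ)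
  unfold hh
  refine h2.congr_deriv ?_
  have he' : (e : ℂ) ≠ 0 := by exact_mod_cast he.ne'
  have h3 : exp (-(θ * I) + u / e + H (xx θ e u)) = (xx θ e u)⁻¹ * exp (H (xx θ e u)) := by
    rw [Complex.exp_add]
    congr 1
    unfold xx
    rw [← Complex.exp_neg]
    congr 1
    ring
  rw [h3]
  have h4 := xx_ne (θ := θ) (e := e) u
  field_simp

theorem iter_P (c : ℂ) (m k : ℕ) : (fun z : ℂ => z ^ d + c)^[k] (P d m c) = P d (m + k) c := by
  unfold P fc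
  rw [add_comm, Function.iterate_add_apply]

theorem iter_cont (k : ℕ) : Continuous fun q : ℂ × ℂ => (fun z : ℂ => z ^ d + q.1)^[k] q.2 := by
  induction k with
  | zero => exact continuous_snd
  | succ k ih =>
    have : (fun q : ℂ × ℂ => (fun z : ℂ => z ^ d + q.1)^[k + 1] q.2) =
        fun q : ℂ × ℂ => ((fun z : ℂ => z ^ d + q.1)^[k] q.2) ^ d + q.1 := by
      funext q
      rw [Function.iterate_succ_apply']
    rw [this]
    exact (ih.pow d).add continuous_fst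

theorem ultra_lim (𝒰 : Ultrafilter ℕ) {f : ℕ → ℂ} {M : ℝ} (h : ∀ᶠ i in (𝒰 : Filter ℕ), ‖f i‖ ≤ M) :
    ∃ a, Tendsto f 𝒰 (𝓝 a) := by
  have hcomp := isCompact_closedBall (0 : ℂ) M
  have hle : ((𝒰.map f : Ultrafilter ℂ) : Filter ℂ) ≤ 𝓟 (closedBall 0 M) := by
    rw [le_principal_iff, Ultrafilter.coe_map, Filter.mem_map]
    filter_upwards [h] with i hi
    show f i ∈ closedBall 0 M
    rwa [mem_closedBall_zero_iff]
  obtain ⟨v, -, hv⟩ := hcomp.ultrafilter_le_nhds _ hle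
  exact ⟨v, hv⟩

/-- The limit of a sequence of entire functions bounded by `2 exp (C ‖t‖)` along an ultrafilter. -/
theorem entire_lim (𝒰 : Ultrafilter ℕ) {Q : ℕ → ℂ → ℂ} (hQ : ∀ i, Differentiable ℂ (Q i)) {C : ℝ}
    (hC : 0 ≤ C) (hb : ∀ i t, ‖Q i t‖ ≤ 2 * Real.exp (C * ‖t‖)) :
    ∃ Φ : ℂ → ℂ, Differentiable ℂ Φ ∧ (∀ t, ‖Φ t‖ ≤ 2 * Real.exp (C * ‖t‖)) ∧
      ∀ (v : ℕ → ℂ) (w : ℂ), Tendsto v 𝒰 (𝓝 w) → Tendsto (fun i => Q i (v i)) 𝒰 (𝓝 (Φ w)) := by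
  have hM : ∀ (R : ℝ) (n : ℕ), ∀ z ∈ ball (0 : ℂ) R, ‖Q n z‖ ≤ 2 * Real.exp (C * R) := by
    intro R n z hz
    refine (hb n z).trans ?_
    have := (mem_ball_zero_iff.1 hz).le
    gcongr
  have h1 := fun R : ℝ => Pool.Agent.Helper114.Montel.montel (W := ball (0 : ℂ) R) isOpen_ball Q
    (fun n => (hQ n).differentiableOn) (2 * Real.exp (C * R)) (hM R) 𝒰
  choose Φ hΦ1 hΦ2 using h1
  have key : ∀ (R : ℝ) (v : ℕ → ℂ) (w : ℂ), w ∈ ball (0 : ℂ) R → Tendsto v 𝒰 (𝓝 w) →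
      Tendsto (fun i => Q i (v i)) 𝒰 (𝓝 (Φ R w)) := by
    intro R v w hw hv
    refine (hΦ2 R).tendsto_comp ((hΦ1 R).continuousOn w hw) hw ?_
    rw [isOpen_ball.nhdsWithin_eq hw]
    exact hv
  have huniq : ∀ (R R' : ℝ) (w : ℂ), w ∈ ball (0 : ℂ) R → w ∈ ball (0 : ℂ) R' → Φ R w = Φ R' w := by
    intro R R' w h h'
    exact tendsto_nhds_unique (key R (fun _ => w) w h tendsto_const_nhds)
      (key R' (fun _ => w) w h' tendsto_const_nhds)
  have hmem : ∀ w : ℂ, w ∈ ball (0 : ℂ) (‖w‖ + 1) := fun w => by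
    rw [mem_ball_zero_iff]; linarith
  refine ⟨fun w => Φ (‖w‖ + 1) w, ?_, ?_, ?_⟩
  · intro w
    have h2 : DifferentiableAt ℂ (Φ (‖w‖ + 1)) w :=
      (hΦ1 _).differentiableAt (isOpen_ball.mem_nhds (hmem w))
    refine h2.congr_of_eventuallyEq ?_
    filter_upwards [isOpen_ball.mem_nhds (hmem w)] with z hz
    exact huniq _ _ z (hmem z) hz
  · intro t
    have h3 := (key (‖t‖ + 1) (fun _ => t) t (hmem t) tendsto_const_nhds).norm
    exact le_of_tendsto h3 (Eventually.of_forall fun i => hb i t)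
  · intro v w hv
    exact key _ v w (hmem w) hv

end Pool.Agent.N673.TW.BL
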