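import Pool.Agent.N673.TW.BL3

set_option autoImplicit false

/-!
# Blow-up at a boundary parameter, part 4: the blow-up limit
-/

open Complex Filter Topology Metric Set MeasureTheory N62a1eb23

namespace Pool.Agent.N673.TW.BL

open Pool.Agent.H712R2 Pool.Agent.H713R2 Pool.Agent.Y272.TY Pool.Agent.W677.Mar

variable {d : ℕ} {β H : ℂ → ℂ}

theorem mem_disc {A : ℝ} {u : ℂ} (hu : 1 ≤ u.re) (hA : ‖u‖ ^ 2 ≤ A) (hA2 : 2 ≤ A) :
    ‖u - A‖ ≤ A - 1 / 2 := by
  have h1 : ‖u - A‖ ^ 2 = ‖u‖ ^ 2 - 2 * A * u.re + A ^ 2 := by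
    rw [← Complex.normSq_eq_norm_sq, ← Complex.normSq_eq_norm_sq, Complex.normSq_apply,
      Complex.normSq_apply]
    simp only [sub_re, sub_im, ofReal_re, ofReal_im]
    ring
  have h2 : ‖u - A‖ ^ 2 ≤ (A - 1 / 2) ^ 2 := by
    rw [h1]; nlinarith
  exact (abs_le_of_sq_le_sq' h2 (by linarith)).2

theorem re_pos_of_disc {A : ℝ} {w : ℂ} (hw : ‖w - A‖ ≤ A - 1 / 2) : 1 / 2 ≤ w.re := by
  have h1 := Complex.abs_re_le_norm (w - A)
  simp only [sub_re, ofReal_re] at h1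
  have := (abs_le.1 (h1.trans hw)).1
  linarith

theorem mu_le {θ K e : ℝ} (hK : ∀ r : ℝ, 0 ≤ r → r < 1 → (H (pt r θ)).re ≤ K) (he : 0 < e) :
    ‖exp (-(θ * I) + H (xx θ e 1))‖ ≤ Real.exp K := by
  rw [Complex.norm_exp]
  have h1 : (-(θ * I) + H (xx θ e 1)).re = (H (xx θ e 1)).re := by simp
  rw [h1]
  have h2 : xx θ e 1 = pt (Real.exp (-(1 / e))) θ := by
    have := xx_pt (θ := θ) (e := e) 1
    rwa [ofReal_one] at this
  rw [h2]
  have h3 : 0 < 1 / e := by positivity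
  have := hK (Real.exp (-(1 / e))) (Real.exp_pos _).le (Real.exp_lt_one_iff.2 (by linarith))
  gcongr

theorem flat (S : Sg β H) {θ K : ℝ} {c0 : ℂ}
    (hK : ∀ r : ℝ, 0 ≤ r → r < 1 → (H (pt r θ)).re ≤ K) {e : ℕ → ℝ} (he0 : ∀ i, 0 < e i)
    (he : Tendsto e atTop atTop)
    (hflat : ∀ A ε : ℝ, 2 ≤ A → 0 < ε → ∀ᶠ i in atTop, ∀ u : ℂ, ‖u - A‖ ≤ A - 1 / 2 →
      ‖H (xx θ (e i) u) - H (xx θ (e i) 1)‖ ≤ ε) {u : ℂ} (hu : 1 ≤ u.re) :
    Tendsto (fun i => hh β c0 θ (e i) u - (hh β c0 θ (e i) 1 +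
      exp (-(θ * I) + H (xx θ (e i) 1)) * (u - 1))) atTop (𝓝 0) := by
  rw [Metric.tendsto_nhds]
  intro ε hε
  obtain ⟨A, hA⟩ : ∃ A : ℝ, A = max 2 (‖u‖ ^ 2) := ⟨_, rfl⟩
  have hA2 : 2 ≤ A := by rw [hA]; exact le_max_left _ _
  have hAu : ‖u‖ ^ 2 ≤ A := by rw [hA]; exact le_max_right _ _
  obtain ⟨ε', hε'⟩ : ∃ ε' : ℝ, ε' = min (1 / 2) (ε / (8 * Real.exp K * (‖u - 1‖ + 1))) := ⟨_, rfl⟩
  have hε0 : 0 < ε' := by rw [hε']; positivity
  have hε1 : ε' ≤ 1 / 2 := by rw [hε']; exact min_le_left _ _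
  have hε2 : ε' * (8 * Real.exp K * (‖u - 1‖ + 1)) ≤ ε := by
    rw [← le_div_iff₀ (by positivity), hε']; exact min_le_right _ _
  filter_upwards [hflat A ε' hA2 hε0, he.eventually_ge_atTop (2 * A / ε')] with i h1 h2
  have hei := he0 i
  have hsub : ∀ w ∈ closedBall (A : ℂ) (A - 1 / 2),
      ‖exp (-(θ * I) + w / e i + H (xx θ (e i) w)) - exp (-(θ * I) + H (xx θ (e i) 1))‖ ≤
        4 * Real.exp K * ε' := by
    intro w hw
    rw [mem_closedBall, dist_eq_norm] at hw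
    have h3 := h1 w hw
    have h4 : ‖w / (e i : ℂ)‖ ≤ ε' := by
      rw [norm_div, Complex.norm_real, Real.norm_of_nonneg hei.le, div_le_iff₀ hei]
      have h5 : ‖w‖ ≤ 2 * A := by
        calc ‖w‖ = ‖(w - A) + A‖ := by rw [sub_add_cancel]
          _ ≤ ‖w - A‖ + ‖(A : ℂ)‖ := norm_add_le _ _
          _ ≤ (A - 1 / 2) + A := by
              rw [Complex.norm_real, Real.norm_of_nonneg (by linarith)]; gcongr
          _ ≤ 2 * A := by linarith
      rw [div_le_iff₀ hε0] at h2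
      linarith
    have h6 : exp (-(θ * I) + w / e i + H (xx θ (e i) w)) - exp (-(θ * I) + H (xx θ (e i) 1)) =
        exp (-(θ * I) + H (xx θ (e i) 1)) *
          (exp (w / e i + (H (xx θ (e i) w) - H (xx θ (e i) 1))) - 1) := by
      rw [mul_sub, ← Complex.exp_add, mul_one]
      congr 2
      ring
    rw [h6, norm_mul]
    have h7 : ‖w / (e i : ℂ) + (H (xx θ (e i) w) - H (xx θ (e i) 1))‖ ≤ 2 * ε' := by
      refine (norm_add_le _ _).trans ?_
      linarith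
    have h8 := Complex.norm_exp_sub_one_le (h7.trans (by linarith))
    have h9 := mu_le (θ := θ) hK hei
    calc ‖exp (-(θ * I) + H (xx θ (e i) 1))‖ *
          ‖exp (w / e i + (H (xx θ (e i) w) - H (xx θ (e i) 1))) - 1‖
        ≤ Real.exp K * (2 * (2 * ε')) := by
          gcongr
          linarith
      _ = _ := by ring
  have hu' : u ∈ closedBall (A : ℂ) (A - 1 / 2) := by
    rw [mem_closedBall, dist_eq_norm]; exact mem_disc hu hAu hA2
  have h1' : (1 : ℂ) ∈ closedBall (A : ℂ) (A - 1 / 2) := by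
    rw [mem_closedBall, dist_eq_norm]
    exact mem_disc (by simp) (by rw [norm_one]; linarith) hA2
  have h10 := (convex_closedBall (A : ℂ) (A - 1 / 2)).norm_image_sub_le_of_norm_hasDerivWithin_le
    (f := fun w => hh β c0 θ (e i) w - exp (-(θ * I) + H (xx θ (e i) 1)) * w)
    (f' := fun w => exp (-(θ * I) + w / e i + H (xx θ (e i) w)) -
      exp (-(θ * I) + H (xx θ (e i) 1))) (C := 4 * Real.exp K * ε') (x := 1) (y := u)
    (fun w hw => by
      have hw' : 0 < w.re := by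
        have := re_pos_of_disc (A := A) (w := w) (by rwa [mem_closedBall, dist_eq_norm] at hw)
        linarith
      have h11 := (hh_hasDeriv S hei c0 (θ := θ) hw').sub
        ((hasDerivAt_id w).const_mul (exp (-(θ * I) + H (xx θ (e i) 1))))
      rw [mul_one] at h11
      exact h11.hasDerivWithinAt)
    hsub h1' hu'
  rw [dist_zero_right]
  have h12 : hh β c0 θ (e i) u - (hh β c0 θ (e i) 1 +
      exp (-(θ * I) + H (xx θ (e i) 1)) * (u - 1)) =
      (hh β c0 θ (e i) u - exp (-(θ * I) + H (xx θ (e i) 1)) * u) -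
      (hh β c0 θ (e i) 1 - exp (-(θ * I) + H (xx θ (e i) 1)) * 1) := by ring
  rw [h12]
  refine h10.trans_lt ?_
  have h13 : 0 < ε' * (4 * Real.exp K * (‖u - 1‖ + 1)) := by positivity
  have h14 : 4 * Real.exp K * ε' * ‖u - 1‖ ≤ ε' * (4 * Real.exp K * (‖u - 1‖ + 1)) := by
    have : 0 < ε' * (4 * Real.exp K) := by positivity
    nlinarith
  nlinarith

theorem blow (hd : 2 ≤ d) (hβ : IsBeta d β) (S : Sg β H) {θ : ℝ} {c0 : ℂ} {C₁ C₃ K : ℝ}
    (hC3 : 0 ≤ C₃) (hK : ∀ r : ℝ, 0 ≤ r → r < 1 → (H (pt r θ)).re ≤ K)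
    (hc1 : ∀ r : ℝ, 1 / 2 ≤ r → r < 1 → ‖cc β (pt r θ) - c0‖ ≤ C₁ * (1 - r))
    (hP : ∀ (n : ℕ) (c : ℂ), ‖P d (n + 1) c‖ ≤ 2 * Real.exp (C₃ * ((d : ℝ) ^ n * ‖c - c0‖)))
    (n : ℕ → ℕ) (hn : Tendsto n atTop atTop)
    (hflat : ∀ A ε : ℝ, 2 ≤ A → 0 < ε → ∀ᶠ i in atTop, ∀ u : ℂ, ‖u - A‖ ≤ A - 1 / 2 →
      ‖H (xx θ ((d : ℝ) ^ n i) u) - H (xx θ ((d : ℝ) ^ n i) 1)‖ ≤ ε) :
    ∃ (ξ : ℂ) (G : ℂ → ℂ) (C : ℝ), ‖ξ‖ = 1 ∧ Differentiable ℂ G ∧
      (∀ u : ℂ, ‖G u‖ ≤ Real.exp (C * (1 + ‖u‖))) ∧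
      ∀ (k : ℕ) (u : ℂ), 1 ≤ u.re →
        ‖(fun z : ℂ => z ^ d + c0)^[k] (G u) - ξ ^ (d ^ k) * exp ((d : ℂ) ^ k * u)‖ ≤ 3 := by
  have hd1 : (1 : ℝ) < d := by exact_mod_cast (by omega : 1 < d)
  obtain ⟨e, he⟩ : ∃ e : ℕ → ℝ, e = fun i => (d : ℝ) ^ n i := ⟨_, rfl⟩
  have he0 : ∀ i, 0 < e i := fun i => by rw [he]; positivity
  have hei : ∀ i, e i = (d : ℝ) ^ n i := fun i => by rw [he]
  have het : Tendsto e atTop atTop := by
    rw [he]; exact (tendsto_pow_atTop_atTop_of_one_lt hd1).comp hn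
  simp only [← hei] at hflat
  -- the ultrafilter
  have h𝒰 : ((hyperfilter ℕ : Ultrafilter ℕ) : Filter ℕ) ≤ atTop := Nat.hyperfilter_le_atTop
  obtain ⟨𝒰, h𝒰e⟩ : ∃ 𝒰 : Ultrafilter ℕ, 𝒰 = hyperfilter ℕ := ⟨_, rfl⟩
  rw [← h𝒰e] at h𝒰
  obtain ⟨a, ha⟩ : ∃ a, Tendsto (fun i => hh β c0 θ (e i) 1) 𝒰 (𝓝 a) := by
    apply ultra_lim 𝒰 (M := |C₁|)
    apply h𝒰
    filter_upwards [het.eventually_ge_atTop 2] with i hi
    have hx : xx θ (e i) 1 = pt (Real.exp (-(1 / e i))) θ := by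
      have := xx_pt (θ := θ) (e := e i) 1
      rwa [ofReal_one] at this
    have h1 : 1 - 1 / e i ≤ Real.exp (-(1 / e i)) := by
      have := Real.add_one_le_exp (-(1 / e i))
      linarith
    have h2 : 1 / e i ≤ 1 / 2 := one_div_le_one_div_of_le (by norm_num) hi
    have h3 : 0 < 1 / e i := one_div_pos.2 (he0 i)
    have h4 := hc1 (Real.exp (-(1 / e i))) (by linarith) (Real.exp_lt_one_iff.2 (by linarith))
    unfold hh
    rw [hx, norm_mul, Complex.norm_real, Real.norm_of_nonneg (he0 i).le]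
    have h5 : 0 ≤ 1 - Real.exp (-(1 / e i)) := by
      have := Real.exp_lt_one_iff.2 (show -(1 / e i) < 0 by linarith)
      linarith
    calc e i * ‖cc β (pt (Real.exp (-(1 / e i))) θ) - c0‖
        ≤ e i * (C₁ * (1 - Real.exp (-(1 / e i)))) := by
          have := (he0 i).le
          gcongr
      _ ≤ e i * (|C₁| * (1 / e i)) := by
          have := (he0 i).le
          gcongr
          · exact le_abs_self _
          · linarith
      _ = |C₁| := by have := (he0 i).ne'; field_simp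
  obtain ⟨μ, hμ⟩ : ∃ μ, Tendsto (fun i => exp (-(θ * I) + H (xx θ (e i) 1))) 𝒰 (𝓝 μ) :=
    ultra_lim 𝒰 (M := Real.exp K) (Eventually.of_forall fun i => mu_le hK (he0 i))
  have hξn : ∀ i, ‖exp (-(e i * (θ * I)))‖ = 1 := fun i => by
    rw [Complex.norm_exp]; simp
  obtain ⟨ξ, hξ⟩ : ∃ ξ, Tendsto (fun i => exp (-(e i * (θ * I)))) 𝒰 (𝓝 ξ) :=
    ultra_lim 𝒰 (M := 1) (Eventually.of_forall fun i => (hξn i).le)
  have hξ1 : ‖ξ‖ = 1 := by
    have h1 := hξ.norm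
    simp only [hξn] at h1
    exact (tendsto_nhds_unique h1 tendsto_const_nhds)
  -- the rescaled polynomials
  obtain ⟨Q, hQ1, hQ2, hQ3⟩ := entire_lim 𝒰 (Q := fun i t => P d (n i + 1) (c0 + t / e i))
    (fun i => by
      have h1 := differentiable_P d (n i + 1)
      fun_prop) hC3 (fun i t => by
      refine (hP (n i) _).trans_eq ?_
      have h1 : c0 + t / e i - c0 = t / e i := by ring
      rw [h1, norm_div, Complex.norm_real, Real.norm_of_nonneg (he0 i).le, ← hei]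
      have := (he0 i).ne'
      congr 3
      field_simp)
  have hlim : ∀ u : ℂ, 1 ≤ u.re → Tendsto (fun i => hh β c0 θ (e i) u) 𝒰 (𝓝 (a + μ * (u - 1))) := by
    intro u hu
    have h1 := (flat S (c0 := c0) hK he0 het hflat hu).mono_left h𝒰
    have h2 := h1.add (ha.add (hμ.mul_const (u - 1)))
    rw [zero_add] at h2
    refine h2.congr fun i => ?_
    ring
  refine ⟨ξ, fun u => Q (a + μ * (u - 1)), 1 + C₃ * (‖a‖ + ‖μ‖), hξ1, by fun_prop, ?_, ?_⟩
  · intro u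
    refine (hQ2 _).trans ?_
    have h1 : ‖a + μ * (u - 1)‖ ≤ (‖a‖ + ‖μ‖) * (1 + ‖u‖) := by
      calc ‖a + μ * (u - 1)‖ ≤ ‖a‖ + ‖μ‖ * (‖u‖ + 1) := by
            refine (norm_add_le _ _).trans ?_
            rw [norm_mul]
            gcongr
            exact (norm_sub_le _ _).trans_eq (by rw [norm_one])
        _ ≤ _ := by nlinarith [mul_nonneg (norm_nonneg a) (norm_nonneg u)]
    have h2 : (2 : ℝ) ≤ Real.exp (1 + ‖u‖) := by
      have := Real.add_one_le_exp (1 + ‖u‖)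
      linarith [norm_nonneg u]
    calc 2 * Real.exp (C₃ * ‖a + μ * (u - 1)‖)
        ≤ Real.exp (1 + ‖u‖) * Real.exp (C₃ * ((‖a‖ + ‖μ‖) * (1 + ‖u‖))) := by gcongr
      _ = _ := by rw [← Real.exp_add]; congr 1; ring
  · intro k u hu
    have hup : 0 < u.re := by linarith
    -- convergence of the parameters
    have hc : Tendsto (fun i => cc β (xx θ (e i) u)) 𝒰 (𝓝 c0) := by
      have h1 : Tendsto (fun i => ((e i : ℂ))⁻¹) 𝒰 (𝓝 0) := by
        have h2 : Tendsto (fun i => (e i)⁻¹) 𝒰 (𝓝 0) := het.inv_tendsto_atTop.mono_left h𝒰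
        have h3 := (Complex.continuous_ofReal.tendsto 0).comp h2
        rw [ofReal_zero] at h3
        refine h3.congr fun i => ?_
        simp [Function.comp]
      have h4 := (h1.mul (hlim u hu)).const_add c0
      rw [zero_mul, add_zero] at h4
      refine h4.congr fun i => ?_
      have : (e i : ℂ) ≠ 0 := by exact_mod_cast (he0 i).ne'
      unfold hh
      field_simp
      ring
    have hq := hQ3 _ _ (hlim u hu)
    have h5 : ∀ i, c0 + hh β c0 θ (e i) u / e i = cc β (xx θ (e i) u) := by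
      intro i
      have : (e i : ℂ) ≠ 0 := by exact_mod_cast (he0 i).ne'
      unfold hh
      field_simp
      ring
    simp only [h5] at hq
    have h6 : Tendsto (fun i => (fun z : ℂ => z ^ d + cc β (xx θ (e i) u))^[k]
        (P d (n i + 1) (cc β (xx θ (e i) u)))) 𝒰
        (𝓝 ((fun z : ℂ => z ^ d + c0)^[k] (Q (a + μ * (u - 1))))) :=
      ((iter_cont (d := d) k).tendsto (c0, Q (a + μ * (u - 1)))).comp (hc.prodMk_nhds hq)
    have h7 : Tendsto (fun i => exp (-(e i * (θ * I))) ^ (d ^ k) * exp ((d : ℂ) ^ k * u)) 𝒰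
        (𝓝 (ξ ^ (d ^ k) * exp ((d : ℂ) ^ k * u))) := (hξ.pow _).mul_const _
    have h8 := (h6.sub h7).norm
    refine le_of_tendsto h8 (Eventually.of_forall fun i => ?_)
    rw [iter_P]
    have h9 := P_near hd hβ (n i + k) (xx_mem (θ := θ) (he0 i) hup) (xx_ne u)
    have h10 : (xx θ (e i) u ^ (d ^ (n i + k)))⁻¹ =
        exp (-(e i * (θ * I))) ^ (d ^ k) * exp ((d : ℂ) ^ k * u) := by
      unfold xx
      rw [← Complex.exp_nat_mul, ← Complex.exp_nat_mul, ← Complex.exp_neg, ← Complex.exp_add]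
      congr 1
      have h11 : (e i : ℂ) = (d : ℂ) ^ n i := by rw [hei]; push_cast; ring
      have h12 : (d : ℂ) ≠ 0 := by exact_mod_cast (by omega : d ≠ 0)
      rw [h11]
      push_cast
      rw [pow_add]
      field_simp
      ring
    rw [h10] at h9
    have h13 : n i + 1 + k = n i + k + 1 := by ring
    rw [h13]
    exact h9

end Pool.Agent.N673.TW.BL
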