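import Pool.Agent.N673.TW.Stm
import Pool.Agent.W677.Mar1

/-! HARN: a Harnack type lemma on one disc. -/

set_option autoImplicit false

open Complex Filter Topology Metric Set MeasureTheory

namespace Pool.Agent.N673.TW.Harn

/-- the real part at another point, by the Schwarz lemma -/
theorem harnack {G : ℂ → ℂ} {c : ℂ} {R : ℝ} (hG : DifferentiableOn ℂ G (ball c R))
    (hpos : ∀ x ∈ ball c R, 0 < (G x).re) {x : ℂ} (hx : x ∈ ball c R) :
    (G c).re * (R - ‖x - c‖) ≤ (G x).re * (R + ‖x - c‖) := by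
  have hR : 0 < R := pos_of_mem_ball hx
  have hc : c ∈ ball c R := mem_ball_self hR
  have hden : ∀ z ∈ ball c R, G z + (starRingEnd ℂ) (G c) ≠ 0 := by
    intro z hz h0
    have h1 := congrArg Complex.re h0
    rw [Complex.add_re, Complex.conj_re, Complex.zero_re] at h1
    linarith [hpos z hz, hpos c hc]
  have hsq : ∀ z ∈ ball c R, ‖G z - G c‖ < ‖G z + (starRingEnd ℂ) (G c)‖ := by
    intro z hz
    apply lt_of_pow_lt_pow_left₀ 2 (norm_nonneg _)
    rw [Complex.sq_norm, Complex.sq_norm, Complex.normSq_apply, Complex.normSq_apply]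
    simp only [Complex.sub_re, Complex.sub_im, Complex.add_re, Complex.add_im, Complex.conj_re,
      Complex.conj_im]
    nlinarith [mul_pos (hpos z hz) (hpos c hc)]
  obtain ⟨w, hw⟩ : ∃ w : ℂ → ℂ, w = fun z => (G z - G c) / (G z + (starRingEnd ℂ) (G c)) :=
    ⟨_, rfl⟩
  have hwc : w c = 0 := by rw [hw]; simp
  have hd : DifferentiableOn ℂ w (ball c R) := by
    rw [hw]
    exact (hG.sub_const _).div (hG.add_const _) hden
  have hmaps : MapsTo w (ball c R) (ball (w c) 1) := by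
    intro z hz
    rw [hwc, mem_ball_zero_iff, hw]
    simp only
    rw [norm_div, div_lt_one (norm_pos_iff.2 (hden z hz))]
    exact hsq z hz
  have hS := Complex.dist_le_div_mul_dist_of_mapsTo_ball hd
    (fun z hz => ball_subset_closedBall (hmaps hz)) hx
  rw [hwc, dist_zero_right, dist_eq_norm, hw] at hS
  simp only at hS
  rw [norm_div, div_le_iff₀ (norm_pos_iff.2 (hden x hx))] at hS
  obtain ⟨t, ht⟩ : ∃ t, t = 1 / R * ‖x - c‖ := ⟨_, rfl⟩
  rw [← ht] at hS
  have ht0 : 0 ≤ t := by rw [ht]; positivity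
  have ht1 : t < 1 := by
    rw [ht, one_div_mul_eq_div, div_lt_one hR]
    exact mem_ball_iff_norm.1 hx
  have ha := hpos c hc
  have hb := hpos x hx
  have h2 : ((G x).re - (G c).re) ^ 2 ≤ (t * ((G x).re + (G c).re)) ^ 2 := by
    have h3 : ‖G x - G c‖ ^ 2 ≤ (t * ‖G x + (starRingEnd ℂ) (G c)‖) ^ 2 :=
      pow_le_pow_left₀ (norm_nonneg _) hS 2
    rw [mul_pow, Complex.sq_norm, Complex.sq_norm, Complex.normSq_apply, Complex.normSq_apply] at h3
    simp only [Complex.sub_re, Complex.sub_im, Complex.add_re, Complex.add_im, Complex.conj_re,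
      Complex.conj_im] at h3
    have h4 : t ^ 2 ≤ 1 := pow_le_one₀ ht0 ht1.le
    nlinarith [mul_nonneg (sub_nonneg.2 h4) (sq_nonneg ((G x).im - (G c).im))]
  have h3 : (G c).re - (G x).re ≤ t * ((G x).re + (G c).re) := by
    have h4 := abs_le_of_sq_le_sq' h2 (by positivity)
    linarith [h4.1]
  have h5 : t * R = ‖x - c‖ := by rw [ht]; field_simp
  nlinarith

theorem t : Pool.Agent.N673.TW.S_HARN := by
  intro A ε hA hε
  have hA0 : 0 < A := by linarith
  refine ⟨ε / (24 * A), by positivity, ?_⟩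
  intro g hg hre hs u hu
  obtain ⟨s, hs1, hsA, hsη⟩ := hs
  obtain ⟨η, hη⟩ : ∃ η, η = ε / (24 * A) := ⟨_, rfl⟩
  rw [← hη] at hre hsη
  have hη0 : 0 < η := by rw [hη]; positivity
  obtain ⟨G, hG⟩ : ∃ G : ℂ → ℂ, G = fun z => g z + ((2 * η : ℝ) : ℂ) := ⟨_, rfl⟩
  have hGd : DifferentiableOn ℂ G (ball (A : ℂ) (A - 1 / 4)) := by
    rw [hG]
    exact hg.add_const _
  have hGre : ∀ z, (G z).re = (g z).re + 2 * η := by
    intro z
    rw [hG]
    simp only [Complex.add_re, Complex.ofReal_re]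
  have hpos : ∀ x ∈ ball (A : ℂ) (A - 1 / 4), 0 < (G x).re := by
    intro x hx
    rw [hGre]
    linarith [hre x hx]
  have hsm : ‖(s : ℂ) - A‖ = A - s := by
    rw [← Complex.ofReal_sub, Complex.norm_real, Real.norm_eq_abs, abs_of_nonpos (by linarith)]
    ring
  have hsb : (s : ℂ) ∈ ball (A : ℂ) (A - 1 / 4) := by
    rw [mem_ball_iff_norm, hsm]
    linarith
  have h1 := harnack hGd hpos hsb
  rw [hsm, hGre s] at h1
  have ha := hpos (A : ℂ) (mem_ball_self (by linarith))
  have h2 : (G A).re ≤ 8 * A * η := by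
    have h3 : (G A).re * (3 / 4) ≤ (G A).re * (A - 1 / 4 - (A - s)) :=
      mul_le_mul_of_nonneg_left (by linarith) ha.le
    have h4 : ((g s).re + 2 * η) * (A - 1 / 4 + (A - s)) ≤ 3 * η * (2 * A) := by
      have h5 : 0 < (g s).re + 2 * η := by
        have := hpos _ hsb
        rwa [hGre] at this
      apply mul_le_mul (by linarith) (by linarith) (by linarith) (by positivity)
    linarith
  have hub : u ∈ ball (A : ℂ) (A - 1 / 4) := by
    rw [mem_ball_iff_norm]
    linarith
  have h3 := Pool.Agent.W677.Mar.bc hGd hpos hub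
  have h4 : G u - G A = g u - g A := by rw [hG]; ring
  rw [h4] at h3
  refine h3.trans ?_
  have h5 : 0 < A - 1 / 4 - ‖u - A‖ := by linarith
  rw [div_le_iff₀ h5]
  have h6 : 24 * A * η = ε := by rw [hη]; field_simp
  have h7 : 2 * (G A).re * ‖u - A‖ ≤ 2 * (8 * A * η) * (A / 2) :=
    mul_le_mul (by linarith) hu (norm_nonneg _) (by positivity)
  have h8 : 2 * (8 * A * η) * (A / 2) ≤ ε * (A / 2 - 1 / 4) := by
    rw [← h6]
    have : 0 ≤ A * η := by positivity
    nlinarith
  have h9 : ε * (A / 2 - 1 / 4) ≤ ε * (A - 1 / 4 - ‖u - A‖) :=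
    mul_le_mul_of_nonneg_left (by linarith) hε.le
  linarith

end Pool.Agent.N673.TW.Harn
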