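import Pool.Agent.N673.TW.BL4
import Pool.Agent.N673.TW.Harn

set_option autoImplicit false

/-!
# Blow-up at a boundary parameter, part 5: flatness of the logarithm of the derivative at the scales
at which its radial values are near their lower limit
-/

open Complex Filter Topology Metric Set MeasureTheory N62a1eb23

namespace Pool.Agent.N673.TW.BL

open Pool.Agent.H712R2 Pool.Agent.H713R2 Pool.Agent.Y272.TY Pool.Agent.W677.Mar

variable {d : ℕ} {β H : ℂ → ℂ}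

/-- the Harnack type lemma on the larger disc -/
theorem harn2 (A ε : ℝ) (hA : 2 ≤ A) (hε : 0 < ε) : ∃ η : ℝ, 0 < η ∧ ∀ g : ℂ → ℂ,
    DifferentiableOn ℂ g (ball (A : ℂ) (A - 1 / 4)) →
    (∀ u ∈ ball (A : ℂ) (A - 1 / 4), -η ≤ (g u).re) →
    (∃ s : ℝ, 1 ≤ s ∧ s ≤ A ∧ (g s).re ≤ η) →
    ∀ u : ℂ, ‖u - A‖ ≤ A - 1 / 2 → ‖g u - g A‖ ≤ ε := by
  refine ⟨ε / (64 * A ^ 2), by positivity, ?_⟩
  intro g hg hre hs u hu
  obtain ⟨s, hs1, hsA, hsη⟩ := hs
  obtain ⟨η, hη⟩ : ∃ η, η = ε / (64 * A ^ 2) := ⟨_, rfl⟩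
  rw [← hη] at hre hsη
  have hη0 : 0 < η := by rw [hη]; positivity
  obtain ⟨G, hG⟩ : ∃ G : ℂ → ℂ, G = fun z => g z + ((2 * η : ℝ) : ℂ) := ⟨_, rfl⟩
  have hGd : DifferentiableOn ℂ G (ball (A : ℂ) (A - 1 / 4)) := by
    rw [hG]
    exact hg.add_const _
  have hGre : ∀ z, (G z).re = (g z).re + 2 * η := by
    intro z
    rw [hG]
    simp only [Complex.add_re, Complex.ofReal_re]
  have hpos : ∀ x ∈ ball (A : ℂ) (A - 1 / 4), 0 < (G x).re := by
    intro x hx
    rw [hGre]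
    linarith [hre x hx]
  have hsm : ‖(s : ℂ) - A‖ = A - s := by
    rw [← Complex.ofReal_sub, Complex.norm_real, Real.norm_eq_abs, abs_of_nonpos (by linarith)]
    ring
  have hsb : (s : ℂ) ∈ ball (A : ℂ) (A - 1 / 4) := by
    rw [mem_ball_iff_norm, hsm]
    linarith
  have h1 := Pool.Agent.N673.TW.Harn.harnack hGd hpos hsb
  rw [hsm, hGre s] at h1
  have ha := hpos (A : ℂ) (mem_ball_self (by linarith))
  have h2 : (G A).re ≤ 8 * A * η := by
    have h3 : (G A).re * (3 / 4) ≤ (G A).re * (A - 1 / 4 - (A - s)) :=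
      mul_le_mul_of_nonneg_left (by linarith) ha.le
    have h4 : ((g s).re + 2 * η) * (A - 1 / 4 + (A - s)) ≤ 3 * η * (2 * A) := by
      have h5 : 0 < (g s).re + 2 * η := by
        have := hpos _ hsb
        rwa [hGre] at this
      apply mul_le_mul (by linarith) (by linarith) (by linarith) (by positivity)
    linarith
  have hub : u ∈ ball (A : ℂ) (A - 1 / 4) := by
    rw [mem_ball_iff_norm]
    linarith
  have h3 := Pool.Agent.W677.Mar.bc hGd hpos hub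
  have h4 : G u - G A = g u - g A := by rw [hG]; ring
  rw [h4] at h3
  refine h3.trans ?_
  have h5 : 1 / 4 ≤ A - 1 / 4 - ‖u - A‖ := by linarith
  rw [div_le_iff₀ (by linarith)]
  have h6 : 64 * A ^ 2 * η = ε := by rw [hη]; field_simp
  have h7 : 2 * (G A).re * ‖u - A‖ ≤ 2 * (8 * A * η) * A :=
    mul_le_mul (by linarith) (by linarith) (norm_nonneg _) (by positivity)
  have h8 : 2 * (8 * A * η) * A = ε * (1 / 4) := by
    rw [← h6]
    ring
  have h9 : ε * (1 / 4) ≤ ε * (A - 1 / 4 - ‖u - A‖) :=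
    mul_le_mul_of_nonneg_left h5 hε.le
  linarith

/-- the property NT at one angle -/
def NTat (H : ℂ → ℂ) (θ : ℝ) : Prop := ∀ q : ℝ,
  (∃ r₀ : ℝ, 0 ≤ r₀ ∧ r₀ < 1 ∧ ∀ r : ℝ, r₀ ≤ r → r < 1 → q ≤ (H (pt r θ)).re) →
  ∀ R ε : ℝ, 1 ≤ R → 0 < ε → ∀ᶠ ρ : ℝ in 𝓝[>] 0, ∀ u : ℂ, ‖u‖ ≤ R → 1 / R ≤ u.re →
    q - ε ≤ (H (exp (θ * I - ρ * u))).re

theorem near_liminf {f : ℝ → ℝ} {K : ℝ} (hf : ∀ r : ℝ, 0 ≤ r → r < 1 → |f r| ≤ K) :
    ∃ m : ℝ, (∀ η : ℝ, 0 < η → ∃ r₀ : ℝ, 0 ≤ r₀ ∧ r₀ < 1 ∧ ∀ r : ℝ, r₀ ≤ r → r < 1 → m - η ≤ f r) ∧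
      ∀ η a : ℝ, 0 < η → a < 1 → ∃ r : ℝ, 0 < r ∧ a < r ∧ r < 1 ∧ f r < m + η := by
  obtain ⟨S, hS⟩ : ∃ S : Set ℝ, S = {q : ℝ | ∃ r₀ : ℝ, 0 ≤ r₀ ∧ r₀ < 1 ∧
      ∀ r : ℝ, r₀ ≤ r → r < 1 → q ≤ f r} := ⟨_, rfl⟩
  have hne : S.Nonempty := ⟨-K, by
    rw [hS]
    exact ⟨0, le_rfl, one_pos, fun r h1 h2 => (abs_le.1 (hf r h1 h2)).1⟩⟩
  have hbdd : BddAbove S := ⟨K, by
    rw [hS]
    rintro q ⟨r₀, h0, h1, h2⟩
    exact (h2 r₀ le_rfl h1).trans (abs_le.1 (hf r₀ h0 h1)).2⟩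
  refine ⟨sSup S, fun η hη => ?_, fun η a hη ha => ?_⟩
  · obtain ⟨q, hq, hq2⟩ := exists_lt_of_lt_csSup hne (show sSup S - η < sSup S by linarith)
    rw [hS] at hq
    obtain ⟨r₀, h0, h1, h2⟩ := hq
    exact ⟨r₀, h0, h1, fun r h3 h4 => hq2.le.trans (h2 r h3 h4)⟩
  · by_contra hcon
    push Not at hcon
    obtain ⟨b, hb1, hb2⟩ := exists_between (max_lt ha one_pos)
    have h1 : sSup S + η ∈ S := by
      rw [hS]
      refine ⟨b, ((le_max_right _ _).trans hb1.le), hb2, fun r h3 h4 => ?_⟩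
      have h5 : 0 < r := ((le_max_right _ _).trans_lt hb1).trans_le h3
      have h6 : a < r := ((le_max_left _ _).trans_lt hb1).trans_le h3
      have := hcon r h5 h6 h4
      rwa [hS] at this
    have := le_csSup hbdd h1
    linarith

theorem flatness (hd : 2 ≤ d) (S : Sg β H) {θ K : ℝ} (hNT : NTat H θ)
    (hK : ∀ r : ℝ, 0 ≤ r → r < 1 → |(H (pt r θ)).re| ≤ K) :
    ∃ n : ℕ → ℕ, Tendsto n atTop atTop ∧
      ∀ A ε : ℝ, 2 ≤ A → 0 < ε → ∀ᶠ i in atTop, ∀ u : ℂ, ‖u - A‖ ≤ A - 1 / 2 →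
        ‖H (xx θ ((d : ℝ) ^ n i) u) - H (xx θ ((d : ℝ) ^ n i) 1)‖ ≤ ε := by
  have hd1 : (1 : ℝ) < d := by exact_mod_cast (by omega : 1 < d)
  obtain ⟨m, hm1, hm2⟩ := near_liminf (f := fun r => (H (pt r θ)).re) hK
  have h1 : ∀ i : ℕ, ∃ r : ℝ, 0 < r ∧ Real.exp (-(1 / ((i : ℝ) + 1))) < r ∧ r < 1 ∧
      (H (pt r θ)).re < m + 1 / ((i : ℝ) + 1) := by
    intro i
    have h0 : 0 < 1 / ((i : ℝ) + 1) := by positivity
    exact hm2 _ _ h0 (Real.exp_lt_one_iff.2 (by linarith))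
  choose r hr0 hr1 hr2 hr3 using h1
  -- the logarithms of the radii
  have hρ0 : ∀ i, 0 < -Real.log (r i) := fun i => by
    have := Real.log_neg (hr0 i) (hr2 i); linarith
  have hρ1 : ∀ i : ℕ, -Real.log (r i) < 1 / ((i : ℝ) + 1) := fun i => by
    have := Real.log_lt_log (Real.exp_pos _) (hr1 i)
    rw [Real.log_exp] at this
    linarith
  have h2 : ∀ i, ∃ k : ℕ, (d : ℝ) ^ k ≤ (-Real.log (r i))⁻¹ ∧
      (-Real.log (r i))⁻¹ < (d : ℝ) ^ (k + 1) := fun i => by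
    apply exists_nat_pow_near _ hd1
    rw [one_le_inv₀ (hρ0 i)]
    refine (hρ1 i).le.trans ?_
    rw [div_le_one (by positivity)]
    have : (0 : ℝ) ≤ i := by positivity
    linarith
  choose k hk1 hk2 using h2
  refine ⟨fun i => k i + 1, ?_, ?_⟩
  · rw [Filter.tendsto_atTop]
    intro b
    have h3 : ∀ᶠ i : ℕ in atTop, (d : ℝ) ^ b ≤ (i : ℝ) + 1 :=
      (tendsto_atTop_add_const_right atTop (1:ℝ) tendsto_natCast_atTop_atTop).eventually_ge_atTop _
    filter_upwards [h3] with i hi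
    by_contra hcon
    push Not at hcon
    have h4 : (i : ℝ) + 1 < (-Real.log (r i))⁻¹ := by
      rw [lt_inv_comm₀ (by positivity) (hρ0 i)]
      have := hρ1 i
      rwa [one_div] at this
    have h5 : (d : ℝ) ^ (k i + 1) ≤ (d : ℝ) ^ b := pow_le_pow_right₀ hd1.le hcon.le
    linarith [hk2 i]
  · intro A ε hA hε
    obtain ⟨A', hA'⟩ : ∃ A' : ℝ, A' = max A d := ⟨_, rfl⟩
    have hAA : A ≤ A' := by rw [hA']; exact le_max_left _ _
    have hAd : (d : ℝ) ≤ A' := by rw [hA']; exact le_max_right _ _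
    have hA2 : 2 ≤ A' := hA.trans hAA
    obtain ⟨η, hη, hη2⟩ := harn2 A' (ε / 2) hA2 (by linarith)
    have h3 := hNT (m - η / 2) (hm1 (η / 2) (by linarith)) (2 * A') (η / 2) (by linarith)
      (by linarith)
    have h4 : Tendsto (fun i => ((d : ℝ) ^ (k i + 1))⁻¹) atTop (𝓝[>] 0) := by
      rw [tendsto_nhdsWithin_iff]
      refine ⟨?_, Eventually.of_forall fun i => ?_⟩
      · have h5 : Tendsto (fun i : ℕ => 1 / ((i : ℝ) + 1)) atTop (𝓝 0) :=
          tendsto_one_div_add_atTop_nhds_zero_nat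
        refine squeeze_zero (fun i => by positivity) (fun i => ?_) h5
        rw [inv_le_comm₀ (by positivity) (by positivity), one_div, inv_inv]
        have h4 : (i : ℝ) + 1 < (-Real.log (r i))⁻¹ := by
          rw [lt_inv_comm₀ (by positivity) (hρ0 i)]
          have := hρ1 i
          rwa [one_div] at this
        linarith [hk2 i]
      · show (0 : ℝ) < ((d : ℝ) ^ (k i + 1))⁻¹
        positivity
    have h6 : ∀ᶠ i : ℕ in atTop, 1 / ((i : ℝ) + 1) ≤ η :=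
      (tendsto_one_div_add_atTop_nhds_zero_nat (𝕜 := ℝ)).eventually_le_const hη
    filter_upwards [h4.eventually h3, h6] with i h7 h8 u hu
    obtain ⟨e, he⟩ : ∃ e : ℝ, e = (d : ℝ) ^ (k i + 1) := ⟨_, rfl⟩
    have he0 : 0 < e := by rw [he]; positivity
    rw [← he] at h7 ⊢
    have h7' : ∀ w ∈ ball (A' : ℂ) (A' - 1 / 4), m - η ≤ (H (xx θ e w)).re := by
      intro w hw
      rw [mem_ball_iff_norm] at hw
      have h9 : ‖w‖ ≤ 2 * A' := by
        calc ‖w‖ = ‖(w - A') + A'‖ := by rw [sub_add_cancel]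
          _ ≤ ‖w - A'‖ + ‖(A' : ℂ)‖ := norm_add_le _ _
          _ ≤ (A' - 1 / 4) + A' := by
              rw [Complex.norm_real, Real.norm_of_nonneg (by linarith)]; gcongr
          _ ≤ 2 * A' := by linarith
      have h10 : 1 / (2 * A') ≤ w.re := by
        have h11 := Complex.abs_re_le_norm (w - A')
        simp only [sub_re, ofReal_re] at h11
        have h12 := (abs_le.1 (h11.trans hw.le)).1
        have h13 : 1 / (2 * A') ≤ 1 / 4 := one_div_le_one_div_of_le (by norm_num) (by linarith)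
        linarith
      have h14 := h7 w h9 h10
      have h15 : exp (θ * I - ((e⁻¹ : ℝ) : ℂ) * w) = xx θ e w := by
        unfold xx
        congr 1
        push_cast
        ring
      rw [h15] at h14
      linarith
    have hwre : ∀ w ∈ ball (A' : ℂ) (A' - 1 / 4), 0 < w.re := by
      intro w hw
      rw [mem_ball_iff_norm] at hw
      have h11 := Complex.abs_re_le_norm (w - A')
      simp only [sub_re, ofReal_re] at h11
      have h12 := (abs_le.1 (h11.trans hw.le)).1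
      linarith
    have hgd : DifferentiableOn ℂ (fun w => H (xx θ e w) - m) (ball (A' : ℂ) (A' - 1 / 4)) := by
      apply DifferentiableOn.sub_const
      intro w hw
      exact ((S.dH.differentiableAt (isOpen_ball.mem_nhds (xx_mem he0 (hwre w hw)))).comp w
        (xx_hasDeriv θ e w).differentiableAt).differentiableWithinAt
    have hs1 : 1 ≤ -Real.log (r i) * e := by
      have := (hk2 i).le
      rw [← he, inv_le_iff_one_le_mul₀ (hρ0 i)] at this
      linarith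
    have hs2 : -Real.log (r i) * e ≤ A' := by
      have h9 := hk1 i
      rw [le_inv_comm₀ (by positivity) (hρ0 i)] at h9
      calc -Real.log (r i) * e ≤ ((d : ℝ) ^ (k i))⁻¹ * e := by gcongr
        _ = d := by rw [he, pow_succ]; field_simp
        _ ≤ A' := hAd
    have hs3 : xx θ e ((-Real.log (r i) * e : ℝ) : ℂ) = pt (r i) θ := by
      rw [xx_pt]
      congr 1
      rw [mul_div_cancel_right₀ _ he0.ne', neg_neg, Real.exp_log (hr0 i)]
    have h16 := hη2 (fun w => H (xx θ e w) - m) hgd (fun w hw => by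
      have := h7' w hw
      simp only [sub_re, ofReal_re]
      linarith) ⟨-Real.log (r i) * e, hs1, hs2, by
        simp only [sub_re, ofReal_re]
        rw [hs3]
        linarith [hr3 i]⟩
    have h17 : ∀ w : ℂ, ‖w - A‖ ≤ A - 1 / 2 → ‖H (xx θ e w) - H (xx θ e A')‖ ≤ ε / 2 := by
      intro w hw
      have h18 : ‖w - A'‖ ≤ A' - 1 / 2 := by
        calc ‖w - A'‖ = ‖(w - A) + ((A - A' : ℝ) : ℂ)‖ := by congr 1; push_cast; ring
          _ ≤ ‖w - A‖ + ‖((A - A' : ℝ) : ℂ)‖ := norm_add_le _ _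
          _ ≤ (A - 1 / 2) + (A' - A) := by
              rw [Complex.norm_real, Real.norm_eq_abs, abs_of_nonpos (by linarith), neg_sub]
              gcongr
          _ = _ := by ring
      have h19 := h16 w h18
      rwa [sub_sub_sub_cancel_right] at h19
    have h20 := h17 u hu
    have h21 := h17 1 (mem_disc (by simp) (by rw [norm_one]; linarith) hA)
    calc ‖H (xx θ e u) - H (xx θ e 1)‖
        = ‖(H (xx θ e u) - H (xx θ e A')) - (H (xx θ e 1) - H (xx θ e A'))‖ := by congr 1; ring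
      _ ≤ ‖H (xx θ e u) - H (xx θ e A')‖ + ‖H (xx θ e 1) - H (xx θ e A')‖ := norm_sub_le _ _
      _ ≤ ε / 2 + ε / 2 := by gcongr
      _ = ε := by ring

end Pool.Agent.N673.TW.BL
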