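import Pool.Agent.N673.TW.BL5
import Pool.Agent.N673.QC.MakC

set_option autoImplicit false

/-!
# Blow-up at a boundary parameter, part 6: the logarithm of the derivative of the exterior map is
almost everywhere radially unbounded
-/

open Complex Filter Topology Metric Set MeasureTheory N62a1eb23

namespace Pool.Agent.N673.TW.BL

open Pool.Agent.H712R2 Pool.Agent.H713R2 Pool.Agent.Y272.TY Pool.Agent.W677.Mar

variable {d : ℕ} {β H : ℂ → ℂ}

/-- the critical orbit as polynomials in the parameter -/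
noncomputable def PP (d : ℕ) : ℕ → Polynomial ℂ
  | 0 => 0
  | k + 1 => PP d k ^ d + Polynomial.X

theorem PP_eval (d k : ℕ) (c : ℂ) : (PP d k).eval c = P d k c := by
  induction k with
  | zero => simp [PP, P_zero]
  | succ k ih => rw [P_succ, ← ih]; simp [PP]

theorem PP_ne (hd : 2 ≤ d) {m n : ℕ} (hmn : m < n) : PP d m - PP d n ≠ 0 := by
  intro h
  have h1 : P d m 3 = P d n 3 := by
    have := congrArg (Polynomial.eval (3 : ℂ)) h
    rw [Polynomial.eval_sub, PP_eval, PP_eval, Polynomial.eval_zero] at this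
    exact sub_eq_zero.1 this
  have h3 : ‖(3 : ℂ)‖ = 3 := by norm_num
  have h2 : 2 < ‖P d 1 3‖ := by rw [P_one hd, h3]; norm_num
  have h4 : ‖(3 : ℂ)‖ ≤ ‖P d 1 3‖ := by rw [P_one hd]
  rcases Nat.eq_zero_or_pos m with hm | hm
  · subst hm
    have h5 := esc_mono hd h2 h4 (n - 1)
    rw [show 1 + (n - 1) = n by omega, ← h1, P_zero, norm_zero] at h5
    linarith
  · have h5 := esc_mono hd h2 h4 (m - 1)
    rw [show 1 + (m - 1) = m by omega] at h5
    have h6 := esc_step hd (show 2 < ‖P d m 3‖ by linarith) (by linarith)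
    have h7 := esc_mono hd (k := m + 1) (c := 3) (by linarith) (by linarith) (n - (m + 1))
    rw [show m + 1 + (n - (m + 1)) = n by omega, ← h1] at h7
    linarith

/-- reciprocals of the parameters with a finite critical orbit -/
def EE (d : ℕ) : Set ℂ := {p | ∃ m n : ℕ, m < n ∧ P d m p⁻¹ = P d n p⁻¹}

theorem EE_countable (hd : 2 ≤ d) : (EE d).Countable := by
  have h1 : EE d = ⋃ m : ℕ, ⋃ n : ℕ, {p | m < n ∧ P d m p⁻¹ = P d n p⁻¹} := by
    ext p
    simp only [EE, mem_iUnion, mem_ofPred_eq]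
  rw [h1]
  refine countable_iUnion fun m => countable_iUnion fun n => ?_
  by_cases hmn : m < n
  · have h2 : {p | m < n ∧ P d m p⁻¹ = P d n p⁻¹} =
        (fun p : ℂ => p⁻¹) ⁻¹' {c | (PP d m - PP d n).IsRoot c} := by
      ext p
      simp only [mem_ofPred_eq, mem_preimage, Polynomial.IsRoot, Polynomial.eval_sub, PP_eval,
        sub_eq_zero, hmn, true_and]
    rw [h2]
    exact (Polynomial.finite_setOfPred_isRoot (PP_ne hd hmn)).countable.preimage inv_injective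
  · have h2 : {p | m < n ∧ P d m p⁻¹ = P d n p⁻¹} = ∅ := by
      ext p; simp [hmn]
    rw [h2]
    exact countable_empty

theorem radial_bound (S : Sg β H) {θ : ℝ}
    (h1 : BddBelow (range fun j : ℕ => (H (pt (rj j) θ)).re))
    (h2 : BddAbove (range fun j : ℕ => (H (pt (rj j) θ)).re)) :
    ∃ K : ℝ, ∀ r : ℝ, 0 ≤ r → r < 1 → |(H (pt r θ)).re| ≤ K := by
  obtain ⟨a, ha⟩ := h1
  obtain ⟨b, hb⟩ := h2
  refine ⟨|a| + |b| + 12, fun r hr0 hr1 => ?_⟩
  have hr : 0 < 1 - r := by linarith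
  obtain ⟨j, hj1, hj2⟩ := exists_nat_pow_near (x := (1 - r)⁻¹) (y := (2 : ℝ))
    (by rw [one_le_inv₀ hr]; linarith) (by norm_num)
  have hj3 : 1 - r ≤ 1 / 2 ^ j := by
    rw [le_inv_comm₀ (by positivity) hr] at hj1
    rwa [one_div]
  have hj4 : 1 / 2 ^ j ≤ 2 * (1 - r) := by
    rw [inv_lt_comm₀ hr (by positivity), pow_succ, mul_inv] at hj2
    rw [one_div]
    linarith
  have hj0 : 0 ≤ rj j := Pool.Agent.Y430.TY.rj_nonneg j
  have h3 := Pool.Agent.Y430.TY.near S.dH (fun w hw => H_bloch S hw) (ρ := rj j) (r := r) (θ := θ)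
    hj0 (by unfold rj; linarith) hr1
  have h4 : (1 - rj j) / (1 - r) ≤ 2 := by
    rw [div_le_iff₀ hr]; unfold rj; linarith
  have h5 : |(H (pt (rj j) θ)).re - (H (pt r θ)).re| ≤ 12 := by
    have h6 := Complex.abs_re_le_norm (H (pt (rj j) θ) - H (pt r θ))
    rw [sub_re] at h6
    exact h6.trans (h3.trans (by linarith))
  have h6 : a ≤ (H (pt (rj j) θ)).re := ha (mem_range_self j)
  have h7 : (H (pt (rj j) θ)).re ≤ b := hb (mem_range_self j)
  have h8 := abs_le.1 h5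
  rw [abs_le]
  constructor
  · linarith [neg_abs_le a, abs_nonneg b]
  · linarith [le_abs_self b, abs_nonneg a]

theorem bl (hNT : S_NT) (hUP : S_UP) (hRIG : S_RIG) (hd : 2 ≤ d) (hβ : IsBeta d β) (S : Sg β H) :
    ∀ᵐ θ : ℝ, ¬ (BddBelow (range fun j : ℕ => (H (pt (rj j) θ)).re) ∧
      BddAbove (range fun j : ℕ => (H (pt (rj j) θ)).re)) := by
  have hBl : Bl H := ⟨S.dH, fun w hw => H_bloch S hw⟩
  have hU := Ff_univ hd hβ
  filter_upwards [hNT H hBl, hUP (Ff β) hU,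
    Pool.Agent.N673.Mak.makarov hU.1 hU.2 (E := EE d) (by
      rw [(EE_countable hd).dimH_zero]; exact one_pos)] with θ h1 h2 h3
  rintro ⟨hb1, hb2⟩
  obtain ⟨K, hK⟩ := radial_bound S hb1 hb2
  have hptm : ∀ r : ℝ, 0 ≤ r → r < 1 → pt r θ ∈ ball (0 : ℂ) 1 := by
    intro r hr0 hr1
    rw [mem_ball_zero_iff]
    exact (norm_pt r θ hr0).trans_lt hr1
  obtain ⟨p, C, hC, hp, hp1, hp2⟩ := h2 ⟨K + 4, fun r hr0 hr1 => by
    have h4 := Ff_log_sub hd hβ S (hptm r hr0 hr1)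
    have h5 := hK r hr0 hr1
    rw [abs_le] at h4 h5 ⊢
    constructor <;> linarith [h4.1, h4.2, h5.1, h5.2]⟩
  obtain ⟨p', hp'E, hp'⟩ := h3
  have hpp : p' = p := tendsto_nhds_unique hp' hp
  subst hpp
  obtain ⟨hb3, hb4⟩ := lim_bounds hd hβ hp
  obtain ⟨n, hn, hflat⟩ := flatness hd S h1 hK
  obtain ⟨ξ, G, C', hξ, hG, hG1, hG2⟩ := blow hd hβ S (c0 := p'⁻¹) (C₁ := 8 * C)
    (C₃ := 256 * C + 8) (K := K) (θ := θ) (by positivity)
    (fun r hr0 hr1 => (abs_le.1 (hK r hr0 hr1)).2)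
    (fun r hr0 hr1 => cc_radial hd hβ hC hb3 hp1 hr0 hr1)
    (P_grow hd hβ (by positivity) fun x hx hx0 => log_grow hd hβ hC hb3 hb4 hp2 hx hx0)
    n hn hflat
  obtain ⟨m, n', hmn, h6⟩ := hRIG d p'⁻¹ ξ G C' hd hξ hG hG1 (fun k u hu _ => hG2 k u hu)
  exact hp'E ⟨m, n', hmn, h6⟩

end Pool.Agent.N673.TW.BL
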