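import Pool.Agent.N673.TW.Stm

set_option autoImplicit false

/-!
# Project TW (helper673), second part: the two-sided law of the iterated logarithm

Statements of the lemmas.
-/

open Complex Filter Topology Metric Set MeasureTheory

namespace Pool.Agent.N673.TW

/-- the index of the dyadic arc of level `n` which contains the angle `θ` (for `0 ≤ θ < 2π`) -/
noncomputable def idx (n : ℕ) (θ : ℝ) : ℕ := ⌊θ * 2 ^ n / (2 * Real.pi)⌋₊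

/-- dyadic martingales with increments bounded by `B` -/
def DM (B : ℝ) (X : ℕ → ℕ → ℝ) : Prop :=
  (∀ j i : ℕ, X j i = (X (j + 1) (2 * i) + X (j + 1) (2 * i + 1)) / 2) ∧
  ∀ j i : ℕ, i < 2 ^ j → |X (j + 1) (2 * i) - X j i| ≤ B

/-- the accumulated variance along `θ` (the two increments below an arc have the same square, so
this is predictable) -/
noncomputable def VV (X : ℕ → ℕ → ℝ) (n : ℕ) (θ : ℝ) : ℝ :=
  ∑ j ∈ Finset.range n, (X (j + 1) (idx (j + 1) θ) - X j (idx j θ)) ^ 2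

/-- CLU: upper law of the iterated logarithm in the clock `VV` -/
def S_CLU : Prop := ∃ C : ℝ, 0 < C ∧ ∀ (B : ℝ) (X : ℕ → ℕ → ℝ), DM B X →
  ∀ᵐ θ : ℝ ∂(volume.restrict (Ico 0 (2 * Real.pi))), Tendsto (fun n => VV X n θ) atTop atTop →
    ∀ᶠ n : ℕ in atTop, |X n (idx n θ)| ≤ C * √(VV X n θ * Real.log (Real.log (VV X n θ)))

/-- BLK: with a fixed positive probability a dyadic martingale rises by a multiple of `√L` before its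
clock rises by `L` (or the clock never rises by `L`) -/
def S_BLK : Prop := ∃ c p : ℝ, 0 < c ∧ 0 < p ∧ ∀ (B : ℝ) (X : ℕ → ℕ → ℝ), DM B X →
  ∀ L : ℝ, 0 < L → B ^ 2 ≤ L → ∀ j i : ℕ, i < 2 ^ j →
    ENNReal.ofReal (p * (2 * Real.pi / 2 ^ j)) ≤ volume {θ : ℝ | θ ∈ arc j i ∧
      ((∀ n : ℕ, j ≤ n → VV X n θ - VV X j θ < L) ∨
        ∃ n : ℕ, j ≤ n ∧ L ≤ VV X n θ - VV X j θ ∧
          (∀ m : ℕ, j ≤ m → m < n → VV X m θ - VV X j θ < L) ∧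
          c * √L ≤ X n (idx n θ) - X j i)}

/-- LLIL: lower law of the iterated logarithm in the clock `VV` -/
def S_LLIL : Prop := ∃ c : ℝ, 0 < c ∧ ∀ (B : ℝ) (X : ℕ → ℕ → ℝ), DM B X →
  ∀ᵐ θ : ℝ ∂(volume.restrict (Ico 0 (2 * Real.pi))), Tendsto (fun n => VV X n θ) atTop atTop →
    ∃ᶠ n : ℕ in atTop, c * √(VV X n θ * Real.log (Real.log (VV X n θ))) ≤ X n (idx n θ)

/-- SLLN: strong law of large numbers on the dyadic tree -/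
def S_SLLN : Prop := ∀ (q : ℕ) (Y : ℕ → ℕ → ℝ), (∀ m s : ℕ, |Y m s| ≤ 1) →
  ∀ᵐ θ : ℝ ∂(volume.restrict (Ico 0 (2 * Real.pi))), ∀ η : ℝ, 0 < η → ∀ᶠ N : ℕ in atTop,
    |∑ m ∈ Finset.range N, (Y m (idx (m + q) θ) -
      (∑ s ∈ Finset.range (2 ^ q), Y m (2 ^ q * idx m θ + s)) / 2 ^ q)| ≤ η * N

/-- `A` is the boundary primitive of the Bloch function `H` -/
def Prim (C : ℝ) (H : ℂ → ℂ) (A : ℝ → ℂ) : Prop :=
  (∀ r : ℝ, 1 / 2 ≤ r → r < 1 → ∀ a b : ℝ, a ≤ b → b ≤ a + 2 * Real.pi →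
    ‖(∫ t in a..b, H (pt r t)) - (A b - A a)‖ ≤ C * √(1 - r)) ∧
  (∀ a b : ℝ, a < b → b ≤ a + 2 * Real.pi →
    ‖(A b - A a) - ((b - a : ℝ) : ℂ) * H (pt (1 - (b - a) / (2 * Real.pi)) a)‖ ≤ C * (b - a))

/-- PRIM: existence of the boundary primitive -/
def S_PRIM : Prop := ∃ C : ℝ, 0 ≤ C ∧ ∀ H : ℂ → ℂ, Bl H → ∃ A : ℝ → ℂ, Prim C H A

/-- the real parts of the means over the dyadic arcs -/
noncomputable def XX (A : ℝ → ℂ) (j i : ℕ) : ℝ :=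
  (A (2 * Real.pi * (i + 1) / 2 ^ j) - A (2 * Real.pi * i / 2 ^ j)).re * 2 ^ j / (2 * Real.pi)

/-- the function `H` is not `ε`-flat at the level `j` over the angle `θ` -/
def NF (ε : ℝ) (H : ℂ → ℂ) (θ : ℝ) (j : ℕ) : Prop :=
  ∃ r : ℝ, rj j ≤ r ∧ r ≤ rj (j + 1) ∧ ε ≤ ‖deriv H (pt r θ)‖ * (1 - r)

/-- VAR: non flatness gives variance -/
def S_VAR : Prop := ∀ (C ε : ℝ) (q : ℕ), 0 ≤ C → 0 < ε → ∃ (k l : ℕ) (c : ℝ), 0 < c ∧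
  ∀ (H : ℂ → ℂ) (A : ℝ → ℂ), Bl H → Prim C H A → ∀ m i : ℕ, i < 2 ^ m →
    ∀ θ : ℝ, 2 * Real.pi * i / 2 ^ m + 2 * Real.pi / 2 ^ (m + q) ≤ θ →
      θ ≤ 2 * Real.pi * (i + 1) / 2 ^ m - 2 * Real.pi / 2 ^ (m + q) → NF ε H θ (m + k) →
      c ≤ (∑ s ∈ Finset.range (2 ^ l), (XX A (m + l) (2 ^ l * i + s) - XX A m i) ^ 2) / 2 ^ l

/-- UPL: upper law of the iterated logarithm for Bloch functions -/
def S_UPL : Prop := ∀ H : ℂ → ℂ, Bl H → ∀ᵐ θ : ℝ, ∀ᶠ j : ℕ in atTop,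
  ‖H (pt (rj j) θ)‖ ≤ 20 * √(j * Real.log (Real.log j))

/-- number of elements of `S` below `N` -/
noncomputable def cnt (S : Set ℕ) (N : ℕ) : ℕ := (S ∩ Iio N).ncard

/-- LOW: lower law of the iterated logarithm, in all directions, for Bloch functions at the angles
over which the levels without flatness have a positive lower density -/
def S_LOW : Prop := ∀ H : ℂ → ℂ, Bl H → ∀ᵐ θ : ℝ,
  (∃ ε δ : ℝ, 0 < ε ∧ 0 < δ ∧ ∀ᶠ N : ℕ in atTop, δ * N ≤ cnt {j | NF ε H θ j} N) →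
  ∃ c : ℝ, 0 < c ∧ ∀ α : ℝ, ∃ᶠ j : ℕ in atTop,
    c * √(j * Real.log (Real.log j)) ≤ (exp (α * I) * H (pt (rj j) θ)).re

/-- COMB: Pliss times and doubling scales -/
def S_COMB : Prop := ∀ B κ b : ℝ, ∃ δ : ℝ, 0 < δ ∧ ∀ (Λ : ℕ → ℝ) (ν : ℝ → ℝ) (S : Set ℕ),
  (∀ j : ℕ, |Λ (j + 1) - Λ j| ≤ B) → Tendsto (fun j : ℕ => Λ j / j) atTop (𝓝 (-1)) →
  Monotone ν → (∀ s : ℝ, s ≤ 0 → ν s ≤ b) →
  (∀ j : ℕ, (∀ i : ℕ, j ≤ i → Λ i ≤ Λ j - ((i : ℝ) - j) / 2) → -(j : ℝ) - b ≤ ν (Λ j + κ)) →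
  (∀ j : ℕ, j ∉ S → |Λ (j + 1) - Λ j + 1| ≤ 1 / 8) →
  (∃ᶠ N : ℕ in atTop, (cnt S N : ℝ) ≤ δ * N) →
  ∃ᶠ j : ℕ in atTop, j ∉ S ∧ (∀ i : ℕ, j ≤ i → Λ i ≤ Λ j - ((i : ℝ) - j) / 2) ∧
    ν (Λ j + κ + 1) ≤ ν (Λ j + κ) + 11

/-- LRIG: local rigidity -/
def S_LRIG : Prop := ∀ (d : ℕ) (c ξ b : ℂ) (κ r : ℝ) (Q : ℂ → ℂ), 2 ≤ d → ‖ξ‖ = 1 → 0 < κ →
  ‖b‖ < r → DifferentiableOn ℂ Q (ball b r) →
  (∀ (k : ℕ) (u : ℂ), u ∈ ball b r → 0 < u.re →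
    ‖(fun z : ℂ => z ^ d + c)^[k] (Q u) - ξ ^ (d ^ k) * exp ((d : ℂ) ^ k * κ * u)‖ ≤ 3) →
  ∃ m n : ℕ, m < n ∧ (fun z : ℂ => z ^ d + c)^[m] 0 = (fun z : ℂ => z ^ d + c)^[n] 0

end Pool.Agent.N673.TW
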