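import Pool.Agent.N673.TW.BL6
import Pool.Agent.N673.TW.Stm2

set_option autoImplicit false

/-!
# Local blow-up, part 1: scales along a ray
-/

open Complex Filter Topology Metric Set MeasureTheory N62a1eb23

namespace Pool.Agent.N673.TW.BM

open Pool.Agent.H712R2 Pool.Agent.H713R2 Pool.Agent.Y272.TY Pool.Agent.W677.Mar
open Pool.Agent.N673.TW.BL

variable {d : ℕ} {β H : ℂ → ℂ}

/-- the scale of the image at the level `j` -/
noncomputable def lam (H : ℂ → ℂ) (θ : ℝ) (j : ℕ) : ℝ :=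
  Real.exp (H (pt (rj j) θ)).re / 2 ^ j

/-- its logarithm in the base `2` -/
noncomputable def Lm (H : ℂ → ℂ) (θ : ℝ) (j : ℕ) : ℝ :=
  (H (pt (rj j) θ)).re / Real.log 2 - j

theorem log2_pos : 0 < Real.log 2 := Real.log_pos (by norm_num)

theorem lam_pos (H : ℂ → ℂ) (θ : ℝ) (j : ℕ) : 0 < lam H θ j := by
  unfold lam; positivity

theorem two_rpow_Lm (H : ℂ → ℂ) (θ : ℝ) (j : ℕ) : (2 : ℝ) ^ (Lm H θ j) = lam H θ j := by
  unfold Lm lam
  rw [Real.rpow_sub (by norm_num), Real.rpow_natCast]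
  congr 1
  rw [Real.rpow_def_of_pos (by norm_num)]
  congr 1
  have := log2_pos.ne'
  field_simp

theorem rj_pos {j : ℕ} (hj : 1 ≤ j) : 1 / 2 ≤ rj j := by
  unfold rj
  have : 1 / (2 : ℝ) ^ j ≤ 1 / 2 ^ 1 := by
    apply one_div_le_one_div_of_le (by norm_num)
    exact pow_le_pow_right₀ (by norm_num) hj
  linarith

theorem rj_succ (j : ℕ) : rj (j + 1) - rj j = 1 / 2 ^ (j + 1) := by
  unfold rj
  rw [pow_succ]
  field_simp
  ring

theorem one_sub_rj (j : ℕ) : 1 - rj j = 1 / 2 ^ j := by unfold rj; ring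

theorem rj_lt1 (j : ℕ) : rj j < 1 := by
  have := one_sub_rj j
  have h : 0 < 1 / (2 : ℝ) ^ j := by positivity
  linarith

theorem rj_nn (j : ℕ) : 0 ≤ rj j := Pool.Agent.Y430.TY.rj_nonneg j

theorem ptm {r : ℝ} (θ : ℝ) (h0 : 0 ≤ r) (h1 : r < 1) : pt r θ ∈ ball (0 : ℂ) 1 := by
  rw [mem_ball_zero_iff]
  exact (norm_pt r θ h0).trans_lt h1

theorem near' (S : Sg β H) (θ : ℝ) (j : ℕ) {r : ℝ} (h1 : rj j ≤ r) (h2 : r ≤ rj (j + 1)) :
    |(H (pt r θ)).re - (H (pt (rj j) θ)).re| ≤ 12 := by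
  have h3 := Pool.Agent.Y430.TY.near S.dH (fun w hw => H_bloch S hw) (ρ := rj j) (r := r) (θ := θ)
    (rj_nn j) h1 (h2.trans_lt (rj_lt1 _))
  have h4 : (1 - rj j) / (1 - r) ≤ 2 := by
    have h5 : 1 / 2 ^ (j + 1) ≤ 1 - r := by rw [← one_sub_rj (j + 1)]; linarith
    have h6 : (0 : ℝ) < 1 / 2 ^ (j + 1) := by positivity
    rw [div_le_iff₀ (by linarith), one_sub_rj]
    have h7 : (1 : ℝ) / 2 ^ j = 2 * (1 / 2 ^ (j + 1)) := by rw [pow_succ]; field_simp
    linarith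
  have h6 := Complex.abs_re_le_norm (H (pt (rj j) θ) - H (pt r θ))
  rw [sub_re] at h6
  rw [abs_sub_comm]
  exact h6.trans (h3.trans (by linarith))

theorem Lm_step (S : Sg β H) (θ : ℝ) (j : ℕ) :
    |Lm H θ (j + 1) - Lm H θ j| ≤ 12 / Real.log 2 + 1 := by
  have h1 := near' S θ j (r := rj (j + 1)) (by
    have := rj_succ j
    have h : 0 < 1 / (2 : ℝ) ^ (j + 1) := by positivity
    linarith) le_rfl
  have h2 : Lm H θ (j + 1) - Lm H θ j =
      ((H (pt (rj (j + 1)) θ)).re - (H (pt (rj j) θ)).re) / Real.log 2 - 1 := by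
    unfold Lm; push_cast; ring
  rw [h2]
  have h3 : |((H (pt (rj (j + 1)) θ)).re - (H (pt (rj j) θ)).re) / Real.log 2| ≤
      12 / Real.log 2 := by
    rw [abs_div, abs_of_pos log2_pos]
    exact div_le_div_of_nonneg_right h1 log2_pos.le
  rw [abs_le] at h3 ⊢
  constructor <;> linarith [h3.1, h3.2]

/-- at a flat level the derivative is small on the radial segment -/
theorem flat_deriv {ε θ : ℝ} {j : ℕ} (h : ¬ NF ε H θ j) {r : ℝ} (h1 : rj j ≤ r)
    (h2 : r ≤ rj (j + 1)) : ‖deriv H (pt r θ)‖ * (1 - r) ≤ ε := by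
  unfold NF at h
  push Not at h
  exact (h r h1 h2).le

theorem pt_hasDeriv (θ r : ℝ) : HasDerivAt (fun r : ℝ => pt r θ) (exp (θ * I)) r := by
  have : (fun r : ℝ => pt r θ) = fun r : ℝ => (r : ℂ) * exp (θ * I) := by
    funext r; simp [pt, circleMap]
  rw [this]
  have h1 : HasDerivAt (fun r : ℝ => (r : ℂ)) 1 r := Complex.ofRealCLM.hasDerivAt
  simpa using h1.mul_const (exp (θ * I))

theorem flat_diff (S : Sg β H) {ε θ : ℝ} (hε : 0 ≤ ε) {j : ℕ} (h : ¬ NF ε H θ j) {r s : ℝ}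
    (h1 : rj j ≤ r) (h2 : r ≤ rj (j + 1)) (h3 : rj j ≤ s) (h4 : s ≤ rj (j + 1)) :
    ‖H (pt r θ) - H (pt s θ)‖ ≤ ε := by
  have hder : ∀ x ∈ Set.Icc (rj j) (rj (j + 1)), HasDerivWithinAt (fun r : ℝ => H (pt r θ))
      (exp (θ * I) • deriv H (pt x θ)) (Set.Icc (rj j) (rj (j + 1))) x := by
    intro x hx
    have hxm := ptm θ ((rj_nn j).trans hx.1) (hx.2.trans_lt (rj_lt1 _))
    have h5 := ((S.dH.differentiableAt (isOpen_ball.mem_nhds hxm)).hasDerivAt).scomp x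
      (pt_hasDeriv θ x)
    exact h5.hasDerivWithinAt
  have hb : ∀ x ∈ Set.Icc (rj j) (rj (j + 1)), ‖exp (θ * I) • deriv H (pt x θ)‖ ≤
      ε * 2 ^ (j + 1) := by
    intro x hx
    rw [norm_smul, Complex.norm_exp_ofReal_mul_I, one_mul]
    have h5 := flat_deriv h hx.1 hx.2
    have h6 : 1 / 2 ^ (j + 1) ≤ 1 - x := by rw [← one_sub_rj (j + 1)]; linarith [hx.2]
    have h7 : (0 : ℝ) < 1 / 2 ^ (j + 1) := by positivity
    have h8 : ‖deriv H (pt x θ)‖ * (1 / 2 ^ (j + 1)) ≤ ε :=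
      (mul_le_mul_of_nonneg_left h6 (norm_nonneg _)).trans h5
    rw [mul_one_div, div_le_iff₀ (by positivity)] at h8
    exact h8
  have h5 := (convex_Icc (rj j) (rj (j + 1))).norm_image_sub_le_of_norm_hasDerivWithin_le
    hder hb (x := s) (y := r) ⟨h3, h4⟩ ⟨h1, h2⟩
  refine h5.trans ?_
  have h6 : ‖r - s‖ ≤ 1 / 2 ^ (j + 1) := by
    rw [Real.norm_eq_abs, ← rj_succ j, abs_le]
    constructor <;> linarith
  calc ε * 2 ^ (j + 1) * ‖r - s‖ ≤ ε * 2 ^ (j + 1) * (1 / 2 ^ (j + 1)) := by gcongr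
    _ = ε := by field_simp

theorem Lm_flat (S : Sg β H) {ε θ : ℝ} (hε : 0 ≤ ε) (hε1 : ε ≤ 1 / 16) {j : ℕ}
    (h : ¬ NF ε H θ j) : |Lm H θ (j + 1) - Lm H θ j + 1| ≤ 1 / 8 := by
  have hs := rj_succ j
  have hp : 0 < 1 / (2 : ℝ) ^ (j + 1) := by positivity
  have h1 := flat_diff S hε h (r := rj (j + 1)) (s := rj j) (by linarith) le_rfl le_rfl
    (by linarith)
  have h2 : Lm H θ (j + 1) - Lm H θ j + 1 =
      ((H (pt (rj (j + 1)) θ)).re - (H (pt (rj j) θ)).re) / Real.log 2 := by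
    unfold Lm; push_cast; ring
  have h3 := Complex.abs_re_le_norm (H (pt (rj (j + 1)) θ) - H (pt (rj j) θ))
  rw [sub_re] at h3
  rw [h2, abs_div, abs_of_pos log2_pos, div_le_iff₀ log2_pos]
  have h4 : 1 / 2 < Real.log 2 := by linarith [Real.log_two_gt_d9]
  linarith

/-- the constant of the tail estimate -/
noncomputable def K0 : ℝ := 8 * Real.exp 12

theorem K0_large : 8 ≤ K0 := by
  unfold K0
  have : 1 ≤ Real.exp 12 := Real.one_le_exp (by norm_num)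
  linarith

/-- radial variation of the parameter on one level -/
theorem cc_step (S : Sg β H) (θ : ℝ) {j : ℕ} (hj : 1 ≤ j) :
    ‖cc β (pt (rj (j + 1)) θ) - cc β (pt (rj j) θ)‖ ≤ 2 * Real.exp 12 * lam H θ j := by
  have hs := rj_succ j
  have hp : 0 < 1 / (2 : ℝ) ^ (j + 1) := by positivity
  have hne : ∀ x ∈ Set.Icc (rj j) (rj (j + 1)), pt x θ ≠ 0 := by
    intro x hx h0
    have h1 : ‖pt x θ‖ = x := norm_pt x θ ((rj_nn j).trans hx.1)
    rw [h0, norm_zero] at h1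
    linarith [hx.1, rj_pos hj]
  have hder : ∀ x ∈ Set.Icc (rj j) (rj (j + 1)), HasDerivWithinAt (fun r : ℝ => cc β (pt r θ))
      (exp (θ * I) • (-((pt x θ) ^ 2)⁻¹ * exp (H (pt x θ)))) (Set.Icc (rj j) (rj (j + 1))) x := by
    intro x hx
    have hxm := ptm θ ((rj_nn j).trans hx.1) (hx.2.trans_lt (rj_lt1 _))
    exact ((cc_hasDeriv S hxm (hne x hx)).scomp x (pt_hasDeriv θ x)).hasDerivWithinAt
  have hb : ∀ x ∈ Set.Icc (rj j) (rj (j + 1)),
      ‖exp (θ * I) • (-((pt x θ) ^ 2)⁻¹ * exp (H (pt x θ)))‖ ≤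
        4 * (Real.exp 12 * Real.exp (H (pt (rj j) θ)).re) := by
    intro x hx
    have h1 : ‖pt x θ‖ = x := norm_pt x θ ((rj_nn j).trans hx.1)
    have hx2 : 1 / 2 ≤ x := (rj_pos hj).trans hx.1
    rw [norm_smul, Complex.norm_exp_ofReal_mul_I, one_mul, norm_mul, norm_neg, norm_inv, norm_pow,
      h1, Complex.norm_exp]
    have h2 : (x ^ 2)⁻¹ ≤ 4 := by
      rw [inv_le_comm₀ (by positivity) (by norm_num)]; nlinarith
    have h3 : Real.exp (H (pt x θ)).re ≤ Real.exp 12 * Real.exp (H (pt (rj j) θ)).re := by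
      rw [← Real.exp_add]
      have := (abs_le.1 (near' S θ j hx.1 hx.2)).2
      gcongr
      linarith
    gcongr
  have h5 := (convex_Icc (rj j) (rj (j + 1))).norm_image_sub_le_of_norm_hasDerivWithin_le
    hder hb (x := rj j) (y := rj (j + 1)) ⟨le_rfl, by linarith⟩ ⟨by linarith, le_rfl⟩
  refine h5.trans ?_
  rw [Real.norm_eq_abs, hs, abs_of_pos hp]
  unfold lam
  rw [pow_succ]
  apply le_of_eq
  field_simp
  ring

/-- Pliss levels -/
def Pl (H : ℂ → ℂ) (θ : ℝ) (j : ℕ) : Prop :=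
  ∀ i : ℕ, j ≤ i → Lm H θ i ≤ Lm H θ j - ((i : ℝ) - j) / 2

theorem lam_pl {θ : ℝ} {j : ℕ} (h : Pl H θ j) (i : ℕ) :
    lam H θ (j + i) ≤ lam H θ j * (3 / 4) ^ i := by
  rw [← two_rpow_Lm, ← two_rpow_Lm]
  have h1 := h (j + i) (by omega)
  push_cast at h1
  have h2 : (2 : ℝ) ^ (Lm H θ (j + i)) ≤ 2 ^ (Lm H θ j - i / 2) :=
    Real.rpow_le_rpow_of_exponent_le (by norm_num) (by linarith)
  refine h2.trans ?_
  rw [Real.rpow_sub (by norm_num), div_eq_mul_inv]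
  have h3 : ((2 : ℝ) ^ ((i : ℝ) / 2))⁻¹ ≤ (3 / 4) ^ i := by
    have h4 : (2 : ℝ) ^ ((i : ℝ) / 2) = (√2) ^ i := by
      rw [Real.sqrt_eq_rpow, ← Real.rpow_natCast, ← Real.rpow_mul (by norm_num)]
      congr 1
      ring
    rw [h4, ← inv_pow]
    apply pow_le_pow_left₀ (by positivity)
    rw [inv_le_comm₀ (by positivity) (by norm_num)]
    apply Real.le_sqrt_of_sq_le
    norm_num
  gcongr

theorem cc_tail (S : Sg β H) {θ : ℝ} {j : ℕ} (hj : 1 ≤ j) (h : Pl H θ j) {c0 : ℂ}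
    (hc : Tendsto (fun r : ℝ => cc β (pt r θ)) (𝓝[<] 1) (𝓝 c0)) :
    ‖cc β (pt (rj j) θ) - c0‖ ≤ K0 * lam H θ j := by
  have h1 : ∀ i : ℕ, ‖cc β (pt (rj (j + i)) θ) - cc β (pt (rj j) θ)‖ ≤
      K0 * lam H θ j * (1 - (3 / 4) ^ i) := by
    intro i
    induction i with
    | zero => simp
    | succ i ih =>
      have h2 := cc_step S θ (show 1 ≤ j + i by omega)
      have h3 := lam_pl h i
      calc ‖cc β (pt (rj (j + (i + 1))) θ) - cc β (pt (rj j) θ)‖
          = ‖(cc β (pt (rj (j + i + 1)) θ) - cc β (pt (rj (j + i)) θ)) +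
            (cc β (pt (rj (j + i)) θ) - cc β (pt (rj j) θ))‖ := by
            congr 1
            rw [← add_assoc]
            ring
        _ ≤ ‖cc β (pt (rj (j + i + 1)) θ) - cc β (pt (rj (j + i)) θ)‖ +
            ‖cc β (pt (rj (j + i)) θ) - cc β (pt (rj j) θ)‖ := norm_add_le _ _
        _ ≤ 2 * Real.exp 12 * (lam H θ j * (3 / 4) ^ i) +
            K0 * lam H θ j * (1 - (3 / 4) ^ i) := by
            gcongr
            exact h2.trans (by gcongr)
        _ = K0 * lam H θ j * (1 - (3 / 4) ^ (i + 1)) := by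
            unfold K0; rw [pow_succ]; ring
  have h2 : Tendsto (fun i : ℕ => rj (j + i)) atTop (𝓝[<] 1) := by
    rw [tendsto_nhdsWithin_iff]
    refine ⟨?_, Eventually.of_forall fun i => rj_lt1 _⟩
    have h3 : Tendsto (fun n : ℕ => rj n) atTop (𝓝 1) := by
      unfold rj
      have h4 : Tendsto (fun n : ℕ => 1 / (2 : ℝ) ^ n) atTop (𝓝 0) := by
        have := tendsto_pow_atTop_nhds_zero_of_lt_one (r := (1 / 2 : ℝ)) (by norm_num) (by norm_num)
        refine this.congr fun n => ?_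
        rw [one_div_pow]
      have := h4.const_sub 1
      rwa [sub_zero] at this
    have h5 := (tendsto_add_atTop_iff_nat j).2 h3
    refine h5.congr fun n => ?_
    rw [add_comm]
  have h3 : Tendsto (fun i : ℕ => cc β (pt (rj (j + i)) θ)) atTop (𝓝 c0) := hc.comp h2
  have h4 := (h3.sub_const (cc β (pt (rj j) θ))).norm
  rw [norm_sub_rev]
  refine le_of_tendsto h4 (Eventually.of_forall fun i => (h1 i).trans ?_)
  have h5 : 0 ≤ K0 * lam H θ j := by
    have := lam_pos H θ j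
    have := K0_large
    positivity
  have h6 : (0 : ℝ) ≤ (3 / 4) ^ i := by positivity
  nlinarith

end Pool.Agent.N673.TW.BM
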