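import Pool.Agent.N673.TW.BM1

set_option autoImplicit false

/-!
# Local blow-up, part 2: the maximum of the potential over discs
-/

open Complex Filter Topology Metric Set MeasureTheory N62a1eb23

namespace Pool.Agent.N673.TW.BM

open Pool.Agent.H712R2 Pool.Agent.H713R2 Pool.Agent.Y272.TY Pool.Agent.W677.Mar
open Pool.Agent.N673.TW.BL

variable {d : ℕ} {β H : ℂ → ℂ}

/-- the values of the potential of the Multibrot set over a disc -/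
def Gs (β : ℂ → ℂ) (c0 : ℂ) (r : ℝ) : Set ℝ :=
  {g | ∃ x ∈ ball (0 : ℂ) 1, x ≠ 0 ∧ ‖cc β x - c0‖ ≤ r ∧ g = -Real.log ‖x‖}

/-- the maximum of the potential over a disc -/
noncomputable def NN (β : ℂ → ℂ) (c0 : ℂ) (r : ℝ) : ℝ := sSup (Gs β c0 r)

theorem neg_log_pos {x : ℂ} (hx : x ∈ ball (0 : ℂ) 1) (hx0 : x ≠ 0) : 0 < -Real.log ‖x‖ := by
  have := Real.log_neg (norm_pos_iff.2 hx0) (mem_ball_zero_iff.1 hx)
  linarith

theorem neg_log_le (hd : 2 ≤ d) (hβ : IsBeta d β) {x : ℂ} (hx : x ∈ ball (0 : ℂ) 1)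
    (hx0 : x ≠ 0) : -Real.log ‖x‖ ≤ 4 * ‖cc β x‖ := by
  have hxn : 0 < ‖x‖ := norm_pos_iff.2 hx0
  have hc4 := cc_low hd hβ hx hx0
  have h1 := (Ff_norm hd hβ hx).2
  rw [Ff_eq, norm_inv, inv_le_comm₀ (by linarith) (by positivity)] at h1
  have h2 : ‖x‖⁻¹ ≤ 4 * ‖cc β x‖ := by
    rw [mul_inv] at h1
    linarith
  rw [← Real.log_inv]
  have := Real.log_le_sub_one_of_pos (inv_pos.2 hxn)
  linarith

theorem Gs_bdd (hd : 2 ≤ d) (hβ : IsBeta d β) (c0 : ℂ) (r : ℝ) : BddAbove (Gs β c0 r) := by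
  refine ⟨4 * (‖c0‖ + r), ?_⟩
  rintro g ⟨x, hx, hx0, hxr, rfl⟩
  refine (neg_log_le hd hβ hx hx0).trans ?_
  have : ‖cc β x‖ ≤ ‖c0‖ + r := by
    calc ‖cc β x‖ = ‖c0 + (cc β x - c0)‖ := by congr 1; ring
      _ ≤ ‖c0‖ + ‖cc β x - c0‖ := norm_add_le _ _
      _ ≤ ‖c0‖ + r := by gcongr
  linarith

theorem Gs_le (hd : 2 ≤ d) (hβ : IsBeta d β) {c0 : ℂ} {r : ℝ} {x : ℂ} (hx : x ∈ ball (0 : ℂ) 1)
    (hx0 : x ≠ 0) (hr : ‖cc β x - c0‖ ≤ r) : -Real.log ‖x‖ ≤ NN β c0 r :=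
  le_csSup (Gs_bdd hd hβ c0 r) ⟨x, hx, hx0, hr, rfl⟩

theorem Gs_nonempty {θ : ℝ} {c0 : ℂ}
    (hc : Tendsto (fun r : ℝ => cc β (pt r θ)) (𝓝[<] 1) (𝓝 c0)) {r : ℝ} (hr : 0 < r) :
    (Gs β c0 r).Nonempty := by
  have h1 : ∀ᶠ s : ℝ in 𝓝[<] 1, ‖cc β (pt s θ) - c0‖ < r := by
    have := hc (ball_mem_nhds c0 hr)
    filter_upwards [this] with s hs
    rw [← dist_eq_norm]
    exact hs
  have h2 : ∀ᶠ s : ℝ in 𝓝[<] 1, 0 < s ∧ s < 1 := by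
    have h2 : ∀ᶠ r : ℝ in 𝓝 1, 0 < r := lt_mem_nhds one_pos
    filter_upwards [nhdsWithin_le_nhds h2, self_mem_nhdsWithin] with r h3 h4 using ⟨h3, h4⟩
  obtain ⟨s, hs1, hs2⟩ := (h1.and h2).exists
  have hx := ptm θ hs2.1.le hs2.2
  have hx0 : pt s θ ≠ 0 := by
    intro h0
    have h3 : ‖pt s θ‖ = s := norm_pt s θ hs2.1.le
    rw [h0, norm_zero] at h3
    linarith [hs2.1]
  exact ⟨_, pt s θ, hx, hx0, hs1.le, rfl⟩

theorem NN_pos (hd : 2 ≤ d) (hβ : IsBeta d β) {θ : ℝ} {c0 : ℂ}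
    (hc : Tendsto (fun r : ℝ => cc β (pt r θ)) (𝓝[<] 1) (𝓝 c0)) {r : ℝ} (hr : 0 < r) :
    0 < NN β c0 r := by
  obtain ⟨g, x, hx, hx0, hxr, rfl⟩ := Gs_nonempty hc hr
  exact (neg_log_pos hx hx0).trans_le (Gs_le hd hβ hx hx0 hxr)

theorem NN_mono (hd : 2 ≤ d) (hβ : IsBeta d β) {θ : ℝ} {c0 : ℂ}
    (hc : Tendsto (fun r : ℝ => cc β (pt r θ)) (𝓝[<] 1) (𝓝 c0)) {r s : ℝ} (hr : 0 < r)
    (hrs : r ≤ s) : NN β c0 r ≤ NN β c0 s := by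
  refine csSup_le (Gs_nonempty hc hr) ?_
  rintro g ⟨x, hx, hx0, hxr, rfl⟩
  exact Gs_le hd hβ hx hx0 (hxr.trans hrs)

theorem NN_le (hd : 2 ≤ d) (hβ : IsBeta d β) {θ : ℝ} {c0 : ℂ}
    (hc : Tendsto (fun r : ℝ => cc β (pt r θ)) (𝓝[<] 1) (𝓝 c0)) {r : ℝ} (hr : 0 < r) :
    NN β c0 r ≤ 4 * (‖c0‖ + r) := by
  refine csSup_le (Gs_nonempty hc hr) ?_
  rintro g ⟨x, hx, hx0, hxr, rfl⟩
  refine (neg_log_le hd hβ hx hx0).trans ?_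
  have : ‖cc β x‖ ≤ ‖c0‖ + r := by
    calc ‖cc β x‖ = ‖c0 + (cc β x - c0)‖ := by congr 1; ring
      _ ≤ ‖c0‖ + ‖cc β x - c0‖ := norm_add_le _ _
      _ ≤ ‖c0‖ + r := by gcongr
  linarith

/-- the potential is small near a point of the Multibrot set -/
theorem NN_small (hd : 2 ≤ d) (hβ : IsBeta d β) {θ : ℝ} {c0 : ℂ} (hM : ∀ k, ‖P d k c0‖ ≤ 2)
    (hc : Tendsto (fun r : ℝ => cc β (pt r θ)) (𝓝[<] 1) (𝓝 c0)) :
    ∃ r : ℝ, 0 < r ∧ NN β c0 r ≤ 1 := by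
  obtain ⟨n, hn⟩ : ∃ n : ℕ, 4 ≤ d ^ n := ⟨2, by nlinarith⟩
  have h1 : ContinuousAt (fun c => P d (n + 1) c) c0 :=
    (differentiable_P d (n + 1)).continuous.continuousAt
  obtain ⟨r, hr, h2⟩ := Metric.continuousAt_iff.1 h1 1 one_pos
  refine ⟨r / 2, by positivity, csSup_le (Gs_nonempty hc (by positivity)) ?_⟩
  rintro g ⟨x, hx, hx0, hxr, rfl⟩
  have h3 := h2 (x := cc β x) (by rw [dist_eq_norm]; linarith)
  have h4 := P_near hd hβ n hx hx0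
  have hxn : 0 < ‖x‖ := norm_pos_iff.2 hx0
  rw [dist_eq_norm] at h3
  have h5 : ‖(x ^ (d ^ n))⁻¹‖ ≤ 6 := by
    calc ‖(x ^ (d ^ n))⁻¹‖ = ‖P d (n + 1) c0 + (P d (n + 1) (cc β x) - P d (n + 1) c0) -
          (P d (n + 1) (cc β x) - (x ^ (d ^ n))⁻¹)‖ := by congr 1; ring
      _ ≤ ‖P d (n + 1) c0‖ + ‖P d (n + 1) (cc β x) - P d (n + 1) c0‖ +
          ‖P d (n + 1) (cc β x) - (x ^ (d ^ n))⁻¹‖ := by
          refine (norm_sub_le _ _).trans ?_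
          gcongr
          exact norm_add_le _ _
      _ ≤ 2 + 1 + 3 := by gcongr; exact hM _
      _ = 6 := by norm_num
  rw [norm_inv, norm_pow] at h5
  have h6 : Real.log ((‖x‖ ^ (d ^ n))⁻¹) ≤ Real.log 6 :=
    Real.log_le_log (by positivity) h5
  rw [Real.log_inv, Real.log_pow] at h6
  have h7 : Real.log 6 ≤ 3 := by
    have h8 : Real.log 6 ≤ Real.log (2 ^ 3) := Real.log_le_log (by norm_num) (by norm_num)
    rw [Real.log_pow] at h8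
    have := Real.log_two_lt_d9
    push_cast at h8
    linarith
  have h8 := neg_log_pos hx hx0
  have h9 : (4 : ℝ) ≤ ((d ^ n : ℕ) : ℝ) := by exact_mod_cast hn
  nlinarith

/-- the logarithm of the maximum of the potential as a function of the logarithm of the radius -/
noncomputable def nu (β : ℂ → ℂ) (c0 : ℂ) (s : ℝ) : ℝ :=
  Real.log (NN β c0 ((2 : ℝ) ^ s)) / Real.log 2

theorem nu_mono (hd : 2 ≤ d) (hβ : IsBeta d β) {θ : ℝ} {c0 : ℂ}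
    (hc : Tendsto (fun r : ℝ => cc β (pt r θ)) (𝓝[<] 1) (𝓝 c0)) : Monotone (nu β c0) := by
  intro s t hst
  unfold nu
  have h1 : (2 : ℝ) ^ s ≤ 2 ^ t := Real.rpow_le_rpow_of_exponent_le (by norm_num) hst
  have h2 : (0 : ℝ) < 2 ^ s := Real.rpow_pos_of_pos (by norm_num) _
  exact div_le_div_of_nonneg_right (Real.log_le_log (NN_pos hd hβ hc h2)
    (NN_mono hd hβ hc h2 h1)) log2_pos.le

theorem nu_le (hd : 2 ≤ d) (hβ : IsBeta d β) {θ : ℝ} {c0 : ℂ}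
    (hc : Tendsto (fun r : ℝ => cc β (pt r θ)) (𝓝[<] 1) (𝓝 c0)) {s : ℝ} (hs : s ≤ 0) :
    nu β c0 s ≤ nu β c0 0 := nu_mono hd hβ hc hs

/-- lower bound at the Pliss levels -/
theorem nu_low (hd : 2 ≤ d) (hβ : IsBeta d β) (S : Sg β H) {θ : ℝ} {c0 : ℂ}
    (hc : Tendsto (fun r : ℝ => cc β (pt r θ)) (𝓝[<] 1) (𝓝 c0)) {κ : ℝ}
    (hκ : K0 ≤ (2 : ℝ) ^ κ) {j : ℕ} (hj : 1 ≤ j) (h : Pl H θ j) :
    -(j : ℝ) ≤ nu β c0 (Lm H θ j + κ) := by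
  have h1 := cc_tail S hj h hc
  have hr := rj_pos hj
  have hx := ptm θ (rj_nn j) (rj_lt1 j)
  have hxn : ‖pt (rj j) θ‖ = rj j := norm_pt _ θ (rj_nn j)
  have hx0 : pt (rj j) θ ≠ 0 := by
    intro h0; rw [h0, norm_zero] at hxn; linarith
  have h2 : ‖cc β (pt (rj j) θ) - c0‖ ≤ (2 : ℝ) ^ (Lm H θ j + κ) := by
    rw [Real.rpow_add (by norm_num), two_rpow_Lm]
    refine h1.trans ?_
    rw [mul_comm]
    have := lam_pos H θ j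
    gcongr
  have h3 := Gs_le hd hβ hx hx0 h2
  rw [hxn] at h3
  have h4 : 1 / (2 : ℝ) ^ j ≤ -Real.log (rj j) := by
    have := Real.log_le_sub_one_of_pos (show 0 < rj j by linarith)
    have := one_sub_rj j
    linarith
  have h5 : Real.log (1 / (2 : ℝ) ^ j) ≤ Real.log (NN β c0 ((2 : ℝ) ^ (Lm H θ j + κ))) :=
    Real.log_le_log (by positivity) (h4.trans h3)
  rw [one_div, Real.log_inv, Real.log_pow] at h5
  unfold nu
  rw [le_div_iff₀ log2_pos]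
  linarith

end Pool.Agent.N673.TW.BM
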