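import Pool.Agent.N673.TW.BM2

set_option autoImplicit false

/-!
# Local blow-up, part 3: flatness propagates (normal families)
-/

open Complex Filter Topology Metric Set MeasureTheory N62a1eb23

namespace Pool.Agent.N673.TW.BM

open Pool.Agent.H712R2 Pool.Agent.H713R2 Pool.Agent.Y272.TY Pool.Agent.W677.Mar
open Pool.Agent.N673.TW.BL

variable {d : ℕ} {β H : ℂ → ℂ}

/-- the inverse of the logarithmic radius -/
noncomputable def ee (j : ℕ) : ℝ := (-Real.log (rj j))⁻¹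

theorem mlog_pos {j : ℕ} (hj : 1 ≤ j) : 0 < -Real.log (rj j) := by
  have := Real.log_neg (by linarith [rj_pos hj]) (rj_lt1 j)
  linarith

theorem ee_pos {j : ℕ} (hj : 1 ≤ j) : 0 < ee j := inv_pos.2 (mlog_pos hj)

theorem mlog_low {j : ℕ} (hj : 1 ≤ j) : 1 / 2 ^ j ≤ -Real.log (rj j) := by
  have := Real.log_le_sub_one_of_pos (show 0 < rj j by linarith [rj_pos hj])
  have := one_sub_rj j
  linarith

theorem mlog_up {j : ℕ} (hj : 1 ≤ j) : -Real.log (rj j) ≤ 2 * (1 / 2 ^ j) := by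
  have h0 : 0 < rj j := by linarith [rj_pos hj]
  have h1 := Real.one_sub_inv_le_log_of_pos h0
  have h2 : (rj j)⁻¹ ≤ 2 := by
    rw [inv_le_comm₀ h0 (by norm_num)]; linarith [rj_pos hj]
  have h3 : (rj j)⁻¹ - 1 = (rj j)⁻¹ * (1 - rj j) := by field_simp
  have h4 := one_sub_rj j
  have h5 : (0 : ℝ) < 1 / 2 ^ j := by positivity
  rw [h4] at h3
  nlinarith

theorem xx_one_eq {θ : ℝ} {j : ℕ} (hj : 1 ≤ j) : xx θ (ee j) 1 = pt (rj j) θ := by
  have h1 := xx_pt (θ := θ) (e := ee j) 1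
  rw [ofReal_one] at h1
  rw [h1]
  congr 1
  unfold ee
  rw [one_div, inv_inv, neg_neg, Real.exp_log (by linarith [rj_pos hj])]

theorem xx_real {θ : ℝ} (j : ℕ) (s : ℝ) :
    xx θ (ee j) s = pt (Real.exp (s * Real.log (rj j))) θ := by
  rw [xx_pt]
  congr 2
  unfold ee
  rw [div_inv_eq_mul]
  ring

theorem exp_mem {j : ℕ} (hj : 3 ≤ j) {s : ℝ} (hs : 3 / 4 ≤ s) (hs1 : s ≤ 1) :
    rj j ≤ Real.exp (s * Real.log (rj j)) ∧ Real.exp (s * Real.log (rj j)) ≤ rj (j + 1) := by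
  have h0 : 0 < rj j := by linarith [rj_pos (show 1 ≤ j by omega)]
  have h1 := mlog_pos (show 1 ≤ j by omega)
  constructor
  · rw [← Real.log_le_iff_le_exp h0]
    nlinarith
  · have h2 : 0 < rj (j + 1) := by linarith [rj_pos (show 1 ≤ j + 1 by omega)]
    rw [← Real.le_log_iff_exp_le h2]
    have h3 := Real.one_sub_inv_le_log_of_pos h2
    have h4 : (1 : ℝ) / 2 ^ (j + 1) ≤ 1 / 16 := by
      apply one_div_le_one_div_of_le (by norm_num)
      calc (16 : ℝ) = 2 ^ 4 := by norm_num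
        _ ≤ 2 ^ (j + 1) := pow_le_pow_right₀ (by norm_num) (by omega)
    have h5 : rj (j + 1) = 1 - 1 / 2 ^ (j + 1) := rfl
    have h6 : (rj (j + 1))⁻¹ - 1 ≤ 16 / 15 * (1 / 2 ^ (j + 1)) := by
      have h7 : (rj (j + 1))⁻¹ ≤ 16 / 15 := by
        rw [inv_le_comm₀ h2 (by norm_num)]
        linarith
      have h8 : (rj (j + 1))⁻¹ - 1 = (rj (j + 1))⁻¹ * (1 - rj (j + 1)) := by field_simp
      rw [h8, one_sub_rj]
      gcongr
    have h9 := mlog_low (show 1 ≤ j by omega)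
    have h10 : (1 : ℝ) / 2 ^ j = 2 * (1 / 2 ^ (j + 1)) := by rw [pow_succ]; field_simp
    nlinarith

theorem hxx_deriv (S : Sg β H) {θ e : ℝ} (he : 0 < e) {w : ℂ} (hw : 0 < w.re) :
    HasDerivAt (fun w => H (xx θ e w)) (deriv H (xx θ e w) * (-(xx θ e w / e))) w :=
  ((S.dH.differentiableAt (isOpen_ball.mem_nhds (xx_mem he hw))).hasDerivAt).comp w
    (xx_hasDeriv θ e w)

theorem hxx_bound (S : Sg β H) {θ e : ℝ} (he : 0 < e) {w : ℂ} (hw : 0 < w.re) :
    ‖deriv H (xx θ e w) * (-(xx θ e w / e))‖ ≤ 6 / w.re := by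
  have h1 := H_bloch S (xx_mem (θ := θ) he hw)
  rw [norm_mul, norm_neg, norm_div, Complex.norm_real, Real.norm_of_nonneg he.le]
  rw [xx_norm] at h1 ⊢
  obtain ⟨t, ht⟩ : ∃ t : ℝ, t = w.re / e := ⟨_, rfl⟩
  have ht0 : 0 < t := by rw [ht]; positivity
  rw [← ht] at h1 ⊢
  have h2 : Real.exp (-t) * t ≤ 1 - Real.exp (-t) := by
    have h3 := Real.add_one_le_exp t
    have h4 : Real.exp (-t) * Real.exp t = 1 := by rw [← Real.exp_add]; simp
    have h5 := Real.exp_pos (-t)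
    nlinarith
  have h6 : Real.exp (-t) / e = Real.exp (-t) * t / w.re := by rw [ht]; field_simp
  rw [h6, ← mul_div_assoc]
  apply div_le_div_of_nonneg_right _ hw.le
  refine le_trans ?_ h1
  gcongr

/-- exhausting domains of the right half plane -/
def WW (R : ℝ) : Set ℂ := {w | 1 / R < w.re ∧ ‖w‖ < R}

theorem WW_open (R : ℝ) : IsOpen (WW R) :=
  (isOpen_lt continuous_const Complex.continuous_re).inter (isOpen_lt continuous_norm
    continuous_const)

theorem WW_convex (R : ℝ) : Convex ℝ (WW R) := by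
  have h1 : WW R = {w : ℂ | 1 / R < w.re} ∩ ball 0 R := by
    ext w; simp [WW]
  rw [h1]
  exact (convex_halfSpace_re_gt _).inter (convex_ball _ _)

theorem one_mem_WW {R : ℝ} (hR : 2 ≤ R) : (1 : ℂ) ∈ WW R := by
  refine ⟨?_, ?_⟩
  · rw [Complex.one_re, div_lt_one (by linarith)]; linarith
  · rw [norm_one]; linarith

theorem WW_re {R : ℝ} (hR : 2 ≤ R) {w : ℂ} (hw : w ∈ WW R) : 0 < w.re :=
  (show (0 : ℝ) < 1 / R by positivity).trans hw.1

theorem WW_bound (S : Sg β H) {θ e : ℝ} (he : 0 < e) {R : ℝ} (hR : 2 ≤ R) {w : ℂ} (hw : w ∈ WW R) :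
    ‖H (xx θ e w) - H (xx θ e 1)‖ ≤ 6 * R * (R + 1) := by
  have h1 := (WW_convex R).norm_image_sub_le_of_norm_hasDerivWithin_le
    (f := fun w => H (xx θ e w)) (f' := fun w => deriv H (xx θ e w) * (-(xx θ e w / e)))
    (C := 6 * R) (x := 1) (y := w)
    (fun x hx => (hxx_deriv S he (WW_re hR hx)).hasDerivWithinAt)
    (fun x hx => by
      refine (hxx_bound S he (WW_re hR hx)).trans ?_
      rw [div_le_iff₀ (WW_re hR hx)]
      have h2 := hx.1
      rw [div_lt_iff₀ (by linarith)] at h2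
      nlinarith)
    (one_mem_WW hR) hw
  refine h1.trans ?_
  have h2 : ‖w - 1‖ ≤ R + 1 := by
    refine (norm_sub_le _ _).trans ?_
    rw [norm_one]
    linarith [hw.2]
  have : 0 ≤ 6 * R := by linarith
  gcongr

/-- flatness on one radial segment propagates to all compact subsets of the half plane -/
theorem flat_prop (S : Sg β H) {θ : ℝ} {j : ℕ → ℕ} (hj3 : ∀ i, 3 ≤ j i) {ε : ℕ → ℝ}
    (hε : Tendsto ε atTop (𝓝 0)) (hε0 : ∀ i, 0 ≤ ε i) (hflat : ∀ i, ¬ NF (ε i) H θ (j i))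
    (𝒰 : Ultrafilter ℕ) (h𝒰 : (𝒰 : Filter ℕ) ≤ atTop) {R : ℝ} (hR : 2 ≤ R) :
    TendstoLocallyUniformlyOn (fun i w => H (xx θ (ee (j i)) w) - H (xx θ (ee (j i)) 1))
      (fun _ => 0) (𝒰 : Filter ℕ) (WW R) := by
  have he : ∀ i, 0 < ee (j i) := fun i => ee_pos (by have := hj3 i; omega)
  obtain ⟨Φ, hΦ1, hΦ2⟩ := Pool.Agent.Helper114.Montel.montel (WW_open R)
    (fun i w => H (xx θ (ee (j i)) w) - H (xx θ (ee (j i)) 1))
    (fun i w hw => ((hxx_deriv S (he i) (WW_re hR hw)).sub_const _).differentiableAt.differentiableWithinAt)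
    (6 * R * (R + 1)) (fun i w hw => WW_bound S (he i) hR hw) 𝒰
  have hzero : ∀ s : ℝ, 3 / 4 ≤ s → s ≤ 1 → Φ s = 0 := by
    intro s hs hs1
    have hsW : (s : ℂ) ∈ WW R := by
      refine ⟨?_, ?_⟩
      · rw [Complex.ofReal_re]
        have : 1 / R ≤ 1 / 2 := one_div_le_one_div_of_le (by norm_num) hR
        linarith
      · rw [Complex.norm_real, Real.norm_of_nonneg (by linarith)]; linarith
    have h1 : Tendsto (fun i => H (xx θ (ee (j i)) s) - H (xx θ (ee (j i)) 1)) 𝒰 (𝓝 (Φ s)) :=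
      hΦ2.tendsto_at hsW
    have h2 : Tendsto (fun i => H (xx θ (ee (j i)) s) - H (xx θ (ee (j i)) 1)) 𝒰 (𝓝 0) := by
      apply squeeze_zero_norm (a := ε) _ (hε.mono_left h𝒰)
      intro i
      have hi := hj3 i
      rw [xx_real, xx_one_eq (by omega)]
      obtain ⟨h3, h4⟩ := exp_mem hi hs hs1
      have h5 : 0 < 1 / (2 : ℝ) ^ (j i + 1) := by positivity
      exact flat_diff S (hε0 i) (hflat i) h3 h4 le_rfl (by linarith [rj_succ (j i)])
    exact tendsto_nhds_unique h1 h2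
  have hA : AnalyticOnNhd ℂ Φ (WW R) := hΦ1.analyticOnNhd (WW_open R)
  have hfreq : ∃ᶠ z in 𝓝[≠] (1 : ℂ), Φ z = 0 := by
    have h1 : Tendsto (fun n : ℕ => ((1 - 1 / ((n : ℝ) + 5) : ℝ) : ℂ)) atTop (𝓝[≠] 1) := by
      rw [tendsto_nhdsWithin_iff]
      constructor
      · have h2 : Tendsto (fun n : ℕ => 1 / ((n : ℝ) + 5)) atTop (𝓝 0) := by
          have := (tendsto_const_nhds (x := (1 : ℝ))).div_atTop
            (tendsto_atTop_add_const_right atTop (5 : ℝ) tendsto_natCast_atTop_atTop)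
          exact this
        have h3 := (Complex.continuous_ofReal.tendsto _).comp (h2.const_sub 1)
        rw [sub_zero, ofReal_one] at h3
        exact h3
      · refine Eventually.of_forall fun n => ?_
        simp only [mem_compl_iff, mem_singleton_iff]
        intro h
        have h2 : (1 - 1 / ((n : ℝ) + 5) : ℝ) = 1 := by exact_mod_cast h
        have h3 : 0 < 1 / ((n : ℝ) + 5) := by positivity
        linarith
    refine h1.frequently (Eventually.frequently (Eventually.of_forall fun n => ?_))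
    apply hzero
    · have : 1 / ((n : ℝ) + 5) ≤ 1 / 4 := by
        apply one_div_le_one_div_of_le (by norm_num)
        have : (0 : ℝ) ≤ n := by positivity
        linarith
      linarith
    · have h3 : 0 < 1 / ((n : ℝ) + 5) := by positivity
      linarith
  have h3 := hA.eqOn_zero_of_preconnected_of_frequently_eq_zero
    (WW_convex R).isPreconnected (one_mem_WW hR) hfreq
  exact hΦ2.congr_right h3

end Pool.Agent.N673.TW.BM
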