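import Pool.Agent.N673.TW.BM3

set_option autoImplicit false

/-!
# Local blow-up, part 4: the rescaled parameters
-/

open Complex Filter Topology Metric Set MeasureTheory N62a1eb23

namespace Pool.Agent.N673.TW.BM

open Pool.Agent.H712R2 Pool.Agent.H713R2 Pool.Agent.Y272.TY Pool.Agent.W677.Mar
open Pool.Agent.N673.TW.BL

variable {d : ℕ} {β H : ℂ → ℂ}

/-- the complex derivative factor -/
noncomputable def mu (H : ℂ → ℂ) (θ : ℝ) (j : ℕ) : ℂ := exp (-(θ * I) + H (xx θ (ee j) 1))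

theorem mu_ne (H : ℂ → ℂ) (θ : ℝ) (j : ℕ) : mu H θ j ≠ 0 := exp_ne_zero _

theorem mu_norm {θ : ℝ} {j : ℕ} (hj : 1 ≤ j) :
    ‖mu H θ j‖ = Real.exp (H (pt (rj j) θ)).re := by
  unfold mu
  rw [Complex.norm_exp, xx_one_eq hj]
  congr 1
  simp

theorem ee_large {j : ℕ} (hj : 1 ≤ j) : 2 ^ j / 2 ≤ ee j := by
  unfold ee
  rw [le_inv_comm₀ (by positivity) (mlog_pos hj)]
  refine (mlog_up hj).trans (le_of_eq ?_)
  rw [inv_div]
  ring

theorem ee_tendsto {j : ℕ → ℕ} (hj3 : ∀ i, 3 ≤ j i) (hj : Tendsto j atTop atTop) :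
    Tendsto (fun i => ee (j i)) atTop atTop := by
  have h1 : Tendsto (fun i => (2 : ℝ) ^ (j i) / 2) atTop atTop :=
    ((tendsto_pow_atTop_atTop_of_one_lt (by norm_num : (1 : ℝ) < 2)).comp hj).atTop_div_const
      (by norm_num)
  exact tendsto_atTop_mono (fun i => ee_large (by have := hj3 i; omega)) h1

theorem scaled (S : Sg β H) {θ : ℝ} {c0 : ℂ} {j : ℕ → ℕ} (hj3 : ∀ i, 3 ≤ j i)
    (hj : Tendsto j atTop atTop) {ε : ℕ → ℝ}
    (hε : Tendsto ε atTop (𝓝 0)) (hε0 : ∀ i, 0 ≤ ε i) (hflat : ∀ i, ¬ NF (ε i) H θ (j i))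
    (𝒰 : Ultrafilter ℕ) (h𝒰 : (𝒰 : Filter ℕ) ≤ atTop) {u : ℂ} (hu : 0 < u.re) :
    Tendsto (fun i => (hh β c0 θ (ee (j i)) u - hh β c0 θ (ee (j i)) 1) / mu H θ (j i) - (u - 1))
      𝒰 (𝓝 0) := by
  have he : ∀ i, 0 < ee (j i) := fun i => ee_pos (by have := hj3 i; omega)
  obtain ⟨R, hR⟩ : ∃ R : ℝ, R = 2 + ‖u‖ + 1 / u.re := ⟨_, rfl⟩
  have hur : 0 < 1 / u.re := by positivity
  have hR2 : 2 ≤ R := by rw [hR]; linarith [norm_nonneg u]
  have huW : u ∈ WW R := by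
    refine ⟨?_, by rw [hR]; linarith⟩
    rw [div_lt_iff₀ (by linarith), hR]
    have h1 : u.re * (1 / u.re) = 1 := by field_simp
    nlinarith [norm_nonneg u]
  have hseg : segment ℝ (1 : ℂ) u ⊆ WW R := (WW_convex R).segment_subset (one_mem_WW hR2) huW
  have hcomp : IsCompact (segment ℝ (1 : ℂ) u) := by
    rw [← convexHull_pair]
    exact Set.Finite.isCompact_convexHull (𝕜 := ℝ) (Set.toFinite {(1 : ℂ), u})
  have h1 := (tendstoLocallyUniformlyOn_iff_forall_isCompact (WW_open R)).1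
    (flat_prop S hj3 hε hε0 hflat 𝒰 h𝒰 hR2) _ hseg hcomp
  rw [Metric.tendstoUniformlyOn_iff] at h1
  rw [Metric.tendsto_nhds]
  intro δ hδ
  obtain ⟨η, hη⟩ : ∃ η : ℝ, η = min (1 / 2) (δ / (8 * (R + 1))) := ⟨_, rfl⟩
  have hη0 : 0 < η := by rw [hη]; positivity
  have hη1 : η ≤ 1 / 2 := by rw [hη]; exact min_le_left _ _
  have hη2 : η * (8 * (R + 1)) ≤ δ := by
    rw [← le_div_iff₀ (by positivity), hη]; exact min_le_right _ _
  have h2 : ∀ᶠ i in (𝒰 : Filter ℕ), R / η ≤ ee (j i) :=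
    h𝒰 ((ee_tendsto hj3 hj).eventually_ge_atTop _)
  filter_upwards [h1 η hη0, h2] with i h3 h4
  have hmu := mu_ne H θ (j i)
  have hder : ∀ w ∈ segment ℝ (1 : ℂ) u, HasDerivWithinAt
      (fun w => hh β c0 θ (ee (j i)) w / mu H θ (j i) - w)
      (exp (w / ee (j i) + (H (xx θ (ee (j i)) w) - H (xx θ (ee (j i)) 1))) - 1)
      (segment ℝ (1 : ℂ) u) w := by
    intro w hw
    have hwr := WW_re hR2 (hseg hw)
    have h5 := ((hh_hasDeriv S (he i) c0 (θ := θ) hwr).div_const (mu H θ (j i))).sub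
      (hasDerivAt_id w)
    refine (h5.congr_deriv ?_).hasDerivWithinAt
    congr 1
    unfold mu
    rw [← Complex.exp_sub]
    congr 1
    ring
  have hb : ∀ w ∈ segment ℝ (1 : ℂ) u,
      ‖exp (w / ee (j i) + (H (xx θ (ee (j i)) w) - H (xx θ (ee (j i)) 1))) - 1‖ ≤ 4 * η := by
    intro w hw
    have h6 : ‖w / (ee (j i) : ℂ)‖ ≤ η := by
      rw [norm_div, Complex.norm_real, Real.norm_of_nonneg (he i).le, div_le_iff₀ (he i)]
      rw [div_le_iff₀ hη0] at h4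
      have := (hseg hw).2
      linarith
    have h7 := h3 w hw
    rw [dist_zero_left] at h7
    have h8 : ‖w / (ee (j i) : ℂ) + (H (xx θ (ee (j i)) w) - H (xx θ (ee (j i)) 1))‖ ≤ 2 * η := by
      refine (norm_add_le _ _).trans ?_
      linarith
    have h9 := Complex.norm_exp_sub_one_le (h8.trans (by linarith))
    linarith
  have h10 := (convex_segment (1 : ℂ) u).norm_image_sub_le_of_norm_hasDerivWithin_le hder hb
    (left_mem_segment ℝ (1 : ℂ) u) (right_mem_segment ℝ (1 : ℂ) u)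
  rw [dist_zero_right]
  have h11 : (hh β c0 θ (ee (j i)) u - hh β c0 θ (ee (j i)) 1) / mu H θ (j i) - (u - 1) =
      (hh β c0 θ (ee (j i)) u / mu H θ (j i) - u) -
      (hh β c0 θ (ee (j i)) 1 / mu H θ (j i) - 1) := by ring
  rw [h11]
  refine h10.trans_lt ?_
  have h12 : ‖u - 1‖ ≤ R + 1 := by
    refine (norm_sub_le _ _).trans ?_
    rw [norm_one]
    linarith [huW.2]
  have h13 : 4 * η * ‖u - 1‖ ≤ 4 * η * (R + 1) := by gcongr
  nlinarith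

/-- the scale -/
noncomputable def et (H : ℂ → ℂ) (θ : ℝ) (j : ℕ) : ℂ := mu H θ j / (ee j * lam H θ j)

theorem et_norm {θ : ℝ} {j : ℕ} (hj : 1 ≤ j) : 1 ≤ ‖et H θ j‖ ∧ ‖et H θ j‖ ≤ 2 := by
  have h1 : ‖et H θ j‖ = (-Real.log (rj j)) * 2 ^ j := by
    unfold et
    rw [norm_div, norm_mul, mu_norm hj, Complex.norm_real, Complex.norm_real,
      Real.norm_of_nonneg (ee_pos hj).le, Real.norm_of_nonneg (lam_pos H θ j).le]
    unfold ee lam
    have := mlog_pos hj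
    field_simp
  have h2 : (0 : ℝ) < 2 ^ j := by positivity
  have h3 := mlog_low hj
  have h4 := mlog_up hj
  have h5 : 1 / (2 : ℝ) ^ j * 2 ^ j = 1 := by field_simp
  rw [h1]
  constructor <;> nlinarith

/-- the rescaled parameter -/
noncomputable def vv (β H : ℂ → ℂ) (c0 : ℂ) (θ : ℝ) (j : ℕ) (u : ℂ) : ℂ :=
  (cc β (xx θ (ee j) u) - c0) / lam H θ j

theorem vv_eq {θ : ℝ} {c0 : ℂ} {j : ℕ} (hj : 1 ≤ j) (u : ℂ) :
    vv β H c0 θ j u = vv β H c0 θ j 1 +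
      et H θ j * ((hh β c0 θ (ee j) u - hh β c0 θ (ee j) 1) / mu H θ j) := by
  have h1 : (ee j : ℂ) ≠ 0 := by exact_mod_cast (ee_pos hj).ne'
  have h2 : (lam H θ j : ℂ) ≠ 0 := by exact_mod_cast (lam_pos H θ j).ne'
  have h3 := mu_ne H θ j
  unfold vv et BL.hh
  field_simp
  ring

theorem vv_one (S : Sg β H) {θ : ℝ} {c0 : ℂ} {j : ℕ} (hj : 1 ≤ j) (h : Pl H θ j)
    (hc : Tendsto (fun r : ℝ => cc β (pt r θ)) (𝓝[<] 1) (𝓝 c0)) :
    ‖vv β H c0 θ j 1‖ ≤ K0 := by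
  have h1 := cc_tail S hj h hc
  unfold vv
  rw [norm_div, Complex.norm_real, Real.norm_of_nonneg (lam_pos H θ j).le,
    div_le_iff₀ (lam_pos H θ j), xx_one_eq hj]
  exact h1

theorem vv_lim (S : Sg β H) {θ : ℝ} {c0 : ℂ} {j : ℕ → ℕ} (hj3 : ∀ i, 3 ≤ j i)
    (hj : Tendsto j atTop atTop) {ε : ℕ → ℝ}
    (hε : Tendsto ε atTop (𝓝 0)) (hε0 : ∀ i, 0 ≤ ε i) (hflat : ∀ i, ¬ NF (ε i) H θ (j i))
    (𝒰 : Ultrafilter ℕ) (h𝒰 : (𝒰 : Filter ℕ) ≤ atTop) {a η : ℂ}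
    (ha : Tendsto (fun i => vv β H c0 θ (j i) 1) 𝒰 (𝓝 a))
    (hη : Tendsto (fun i => et H θ (j i)) 𝒰 (𝓝 η)) {u : ℂ} (hu : 0 < u.re) :
    Tendsto (fun i => vv β H c0 θ (j i) u) 𝒰 (𝓝 (a + η * (u - 1))) := by
  have h1 := scaled S (c0 := c0) hj3 hj hε hε0 hflat 𝒰 h𝒰 hu
  have h2 := h1.add_const (u - 1)
  rw [zero_add] at h2
  simp only [sub_add_cancel] at h2
  have h3 := ha.add (hη.mul h2)
  refine h3.congr fun i => ?_
  exact (vv_eq (by have := hj3 i; omega) u).symm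

end Pool.Agent.N673.TW.BM
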