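import Pool.Agent.N673.TW.BM4

set_option autoImplicit false

/-!
# Local blow-up, part 5: the contradiction at doubling flat levels
-/

open Complex Filter Topology Metric Set MeasureTheory N62a1eb23

namespace Pool.Agent.N673.TW.BM

open Pool.Agent.H712R2 Pool.Agent.H713R2 Pool.Agent.Y272.TY Pool.Agent.W677.Mar
open Pool.Agent.N673.TW.BL

variable {d : ℕ} {β H : ℂ → ℂ}

/-- bound of the critical orbit polynomial over a disc -/
theorem P_disc (hd : 2 ≤ d) (hβ : IsBeta d β) {c0 : ℂ} {r : ℝ} {n : ℕ}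
    (hn : (d : ℝ) ^ n * NN β c0 r ≤ 1) {c : ℂ} (hc : ‖c - c0‖ ≤ r) :
    ‖P d (n + 1) c‖ ≤ 2 * Real.exp 1 := by
  by_cases hcM : c ∈ multibrotSet d
  · have h1 := (mem_multibrot_iff hd c).1 hcM (n + 1)
    have h2 : 1 ≤ Real.exp 1 := Real.one_le_exp (by norm_num)
    linarith
  · obtain ⟨x, hx, hx0, hxc⟩ := hβ.surj c hcM
    have h1 := P_le hd hβ n hx hx0
    have h2 : cc β x = c := hxc
    have h3 := Gs_le hd hβ (c0 := c0) (r := r) hx hx0 (by rw [h2]; exact hc)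
    rw [h2] at h1
    refine h1.trans ?_
    have hxn : 0 < ‖x‖ := norm_pos_iff.2 hx0
    have h4 : (‖x‖ ^ d ^ n)⁻¹ = Real.exp ((d : ℝ) ^ n * (-Real.log ‖x‖)) := by
      rw [mul_neg, Real.exp_neg, ← Nat.cast_pow, ← Real.log_pow, Real.exp_log (by positivity)]
    rw [h4]
    have h5 : (d : ℝ) ^ n * (-Real.log ‖x‖) ≤ 1 := by
      refine le_trans ?_ hn
      gcongr
    gcongr

/-- large values of the critical orbit polynomials at a point with a large potential -/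
theorem P_large (hd : 2 ≤ d) (hβ : IsBeta d β) {x : ℂ} (hx : x ∈ ball (0 : ℂ) 1) (hx0 : x ≠ 0)
    {n k : ℕ} (h : 2 ≤ (d : ℝ) ^ (n + k) * (-Real.log ‖x‖)) :
    3 ≤ ‖P d (n + k + 1) (cc β x)‖ := by
  have h1 := P_near hd hβ (n + k) hx hx0
  have hxn : 0 < ‖x‖ := norm_pos_iff.2 hx0
  have h4 : ‖(x ^ d ^ (n + k))⁻¹‖ = Real.exp ((d : ℝ) ^ (n + k) * (-Real.log ‖x‖)) := by
    rw [norm_inv, norm_pow, mul_neg, Real.exp_neg, ← Nat.cast_pow, ← Real.log_pow,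
      Real.exp_log (by positivity)]
  have h5 : 6 ≤ Real.exp ((d : ℝ) ^ (n + k) * (-Real.log ‖x‖)) := by
    have h6 : Real.exp 2 ≤ Real.exp ((d : ℝ) ^ (n + k) * (-Real.log ‖x‖)) := Real.exp_le_exp.2 h
    have h7 : Real.exp 2 = Real.exp 1 * Real.exp 1 := by rw [← Real.exp_add]; norm_num
    have h8 := Real.exp_one_gt_d9
    nlinarith
  have h6 : ‖(x ^ d ^ (n + k))⁻¹‖ ≤ ‖P d (n + k + 1) (cc β x)‖ +
      ‖P d (n + k + 1) (cc β x) - (x ^ d ^ (n + k))⁻¹‖ := by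
    calc ‖(x ^ d ^ (n + k))⁻¹‖ = ‖P d (n + k + 1) (cc β x) -
          (P d (n + k + 1) (cc β x) - (x ^ d ^ (n + k))⁻¹)‖ := by congr 1; ring
      _ ≤ _ := norm_sub_le _ _
  rw [h4] at h6
  linarith

theorem local_blow (hL : S_LRIG) (hd : 2 ≤ d) (hβ : IsBeta d β) (S : Sg β H) {θ : ℝ} {c0 : ℂ}
    (hM : ∀ k, ‖P d k c0‖ ≤ 2)
    (hint : interior {z : ℂ | ∃ B : ℝ, ∀ k, ‖(fun z : ℂ => z ^ d + c0)^[k] z‖ ≤ B} = ∅)
    (hpre : ∀ m n : ℕ, m < n → P d m c0 ≠ P d n c0)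
    (hc : Tendsto (fun r : ℝ => cc β (pt r θ)) (𝓝[<] 1) (𝓝 c0))
    {j : ℕ → ℕ} (hj3 : ∀ i, 3 ≤ j i) (hj : Tendsto j atTop atTop) {ε : ℕ → ℝ}
    (hε : Tendsto ε atTop (𝓝 0)) (hε0 : ∀ i, 0 ≤ ε i) (hflat : ∀ i, ¬ NF (ε i) H θ (j i))
    (hpl : ∀ i, Pl H θ (j i))
    (hdb : ∀ i, NN β c0 (4 * K0 * lam H θ (j i)) ≤ 2 ^ 11 * NN β c0 (2 * K0 * lam H θ (j i)))
    (hsm : ∀ i, NN β c0 (4 * K0 * lam H θ (j i)) ≤ 1)
    (hlam : Tendsto (fun i => lam H θ (j i)) atTop (𝓝 0)) : False := by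
  have hK0 := K0_large
  have hj1 : ∀ i, 1 ≤ j i := fun i => by have := hj3 i; omega
  have hd1 : (1 : ℝ) < d := by exact_mod_cast (by omega : 1 < d)
  have hd0 : (0 : ℝ) < d := by linarith
  have h𝒰 : ((hyperfilter ℕ : Ultrafilter ℕ) : Filter ℕ) ≤ atTop := Nat.hyperfilter_le_atTop
  obtain ⟨𝒰, h𝒰e⟩ : ∃ 𝒰 : Ultrafilter ℕ, 𝒰 = hyperfilter ℕ := ⟨_, rfl⟩
  rw [← h𝒰e] at h𝒰
  obtain ⟨σ, hσ⟩ : ∃ σ : ℕ → ℝ, σ = fun i => lam H θ (j i) := ⟨_, rfl⟩
  have hσi : ∀ i, lam H θ (j i) = σ i := fun i => by rw [hσ]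
  have hσ0 : ∀ i, 0 < σ i := fun i => by rw [← hσi]; exact lam_pos _ _ _
  have hσ0' : ∀ i, (σ i : ℂ) ≠ 0 := fun i => by exact_mod_cast (hσ0 i).ne'
  simp only [hσi] at hdb hsm hlam
  have hNpos : ∀ i, 0 < NN β c0 (4 * K0 * σ i) := fun i =>
    NN_pos hd hβ hc (by have := hσ0 i; positivity)
  -- the iterates
  have hn : ∀ i, ∃ n : ℕ, (d : ℝ) ^ n * NN β c0 (4 * K0 * σ i) ≤ 1 ∧
      1 < (d : ℝ) ^ (n + 1) * NN β c0 (4 * K0 * σ i) := fun i => by
    obtain ⟨n, h1, h2⟩ := exists_nat_pow_near (x := (NN β c0 (4 * K0 * σ i))⁻¹) (y := (d : ℝ))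
      (by rw [one_le_inv₀ (hNpos i)]; exact hsm i) hd1
    refine ⟨n, ?_, ?_⟩
    · rw [le_inv_comm₀ (by positivity) (hNpos i)] at h1
      calc (d : ℝ) ^ n * NN β c0 (4 * K0 * σ i) ≤ (d : ℝ) ^ n * ((d : ℝ) ^ n)⁻¹ := by gcongr
        _ = 1 := by field_simp
    · rwa [inv_lt_iff_one_lt_mul₀' (hNpos i), mul_comm] at h2
  choose n hn1 hn2 using hn
  -- limits of the scales
  obtain ⟨a, ha⟩ : ∃ a, Tendsto (fun i => vv β H c0 θ (j i) 1) 𝒰 (𝓝 a) :=
    ultra_lim 𝒰 (M := K0) (Eventually.of_forall fun i => vv_one S (hj1 i) (hpl i) hc)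
  have ha' : ‖a‖ ≤ K0 := le_of_tendsto ha.norm
    (Eventually.of_forall fun i => vv_one S (hj1 i) (hpl i) hc)
  obtain ⟨η, hη⟩ : ∃ η, Tendsto (fun i => et H θ (j i)) 𝒰 (𝓝 η) :=
    ultra_lim 𝒰 (M := 2) (Eventually.of_forall fun i => (et_norm (hj1 i)).2)
  have hη2 : ‖η‖ ≤ 2 := le_of_tendsto hη.norm
    (Eventually.of_forall fun i => (et_norm (hj1 i)).2)
  have hη1 : 1 ≤ ‖η‖ := ge_of_tendsto hη.norm
    (Eventually.of_forall fun i => (et_norm (hj1 i)).1)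
  have hη0 : η ≠ 0 := by intro h; rw [h, norm_zero] at hη1; linarith
  have hξn : ∀ i, ‖exp (-((d : ℂ) ^ n i * (θ * I)))‖ = 1 := fun i => by
    have h1 : -((d : ℂ) ^ n i * (θ * I)) = ((-((d : ℝ) ^ n i * θ) : ℝ) : ℂ) * I := by
      push_cast; ring
    rw [h1, Complex.norm_exp_ofReal_mul_I]
  obtain ⟨ξ, hξ⟩ : ∃ ξ, Tendsto (fun i => exp (-((d : ℂ) ^ n i * (θ * I)))) 𝒰 (𝓝 ξ) :=
    ultra_lim 𝒰 (M := 1) (Eventually.of_forall fun i => (hξn i).le)
  have hξ1 : ‖ξ‖ = 1 := by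
    have h1 := hξ.norm
    simp only [hξn] at h1
    exact (tendsto_nhds_unique h1 tendsto_const_nhds)
  -- the numbers `κ`
  have hk0 : ∀ i, 0 < (d : ℝ) ^ n i * (-Real.log (rj (j i))) := fun i => by
    have := mlog_pos (hj1 i); positivity
  have hk1 : ∀ i, (d : ℝ) ^ n i * (-Real.log (rj (j i))) ≤ 1 := fun i => by
    refine le_trans ?_ (hn1 i)
    have h1 := ptm θ (rj_nn (j i)) (rj_lt1 (j i))
    have hxn : ‖pt (rj (j i)) θ‖ = rj (j i) := norm_pt _ θ (rj_nn (j i))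
    have hx0 : pt (rj (j i)) θ ≠ 0 := by
      intro h0; rw [h0, norm_zero] at hxn; linarith [rj_pos (hj1 i)]
    have h2 := Gs_le hd hβ (c0 := c0) (r := 4 * K0 * σ i) h1 hx0 (by
      refine (cc_tail S (hj1 i) (hpl i) hc).trans ?_
      rw [hσi]
      have := hσ0 i
      nlinarith)
    rw [hxn] at h2
    gcongr
  obtain ⟨κ', hκ'⟩ : ∃ κ' : ℂ, Tendsto (fun i =>
      (((d : ℝ) ^ n i * (-Real.log (rj (j i))) : ℝ) : ℂ)) 𝒰 (𝓝 κ') :=
    ultra_lim 𝒰 (M := 1) (Eventually.of_forall fun i => by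
      rw [Complex.norm_real, Real.norm_of_nonneg (hk0 i).le]; exact hk1 i)
  obtain ⟨κ, hκ⟩ : ∃ κ : ℝ, κ = κ'.re := ⟨_, rfl⟩
  have hκt : Tendsto (fun i => (d : ℝ) ^ n i * (-Real.log (rj (j i)))) 𝒰 (𝓝 κ) := by
    have h1 := (Complex.continuous_re.tendsto κ').comp hκ'
    rw [hκ]
    refine h1.congr fun i => ?_
    simp only [Function.comp, ofReal_re]
  have hκ0 : 0 ≤ κ := ge_of_tendsto hκt (Eventually.of_forall fun i => (hk0 i).le)
  -- the limit of the polynomials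
  have hbd : ∀ i, ∀ t ∈ ball (0 : ℂ) (4 * K0), ‖P d (n i + 1) (c0 + σ i * t)‖ ≤ 2 * Real.exp 1 := by
    intro i t ht
    apply P_disc hd hβ (hn1 i)
    have h1 : c0 + σ i * t - c0 = σ i * t := by ring
    rw [h1, norm_mul, Complex.norm_real, Real.norm_of_nonneg (hσ0 i).le]
    have h2 := (mem_ball_zero_iff.1 ht).le
    have h3 := (hσ0 i).le
    nlinarith
  obtain ⟨Q, hQ1, hQ2⟩ := Pool.Agent.Helper114.Montel.montel (isOpen_ball (x := (0 : ℂ)) (ε := 4 * K0))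
    (fun i t => P d (n i + 1) (c0 + σ i * t)) (fun i => by
      have h1 := differentiable_P d (n i + 1)
      exact (h1.comp (by fun_prop : Differentiable ℂ fun t : ℂ => c0 + σ i * t)).differentiableOn)
    (2 * Real.exp 1) hbd 𝒰
  have hQ3 : ∀ (v : ℕ → ℂ) (w : ℂ), w ∈ ball (0 : ℂ) (4 * K0) → Tendsto v 𝒰 (𝓝 w) →
      Tendsto (fun i => P d (n i + 1) (c0 + σ i * v i)) 𝒰 (𝓝 (Q w)) := by
    intro v w hw hv
    refine hQ2.tendsto_comp (hQ1.continuousOn w hw) hw ?_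
    rw [isOpen_ball.nhdsWithin_eq hw]
    exact hv
  have hQ4 : ∀ (k : ℕ) (v : ℕ → ℂ) (w : ℂ), w ∈ ball (0 : ℂ) (4 * K0) → Tendsto v 𝒰 (𝓝 w) →
      Tendsto (fun i => P d (n i + k + 1) (c0 + σ i * v i)) 𝒰
        (𝓝 ((fun z : ℂ => z ^ d + c0)^[k] (Q w))) := by
    intro k v w hw hv
    have h1 := hQ3 v w hw hv
    have h2 : Tendsto (fun i => c0 + σ i * v i) 𝒰 (𝓝 c0) := by
      have h3 : Tendsto (fun i => (σ i : ℂ)) 𝒰 (𝓝 0) := by
        have h4 := (Complex.continuous_ofReal.tendsto 0).comp (hlam.mono_left h𝒰)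
        rw [ofReal_zero] at h4
        exact h4
      have h5 := (h3.mul hv).const_add c0
      rwa [zero_mul, add_zero] at h5
    have h6 : Tendsto (fun i => (fun z : ℂ => z ^ d + (c0 + σ i * v i))^[k]
        (P d (n i + 1) (c0 + σ i * v i))) 𝒰 (𝓝 ((fun z : ℂ => z ^ d + c0)^[k] (Q w))) :=
      ((iter_cont (d := d) k).tendsto (c0, Q w)).comp (h2.prodMk_nhds h1)
    refine h6.congr fun i => ?_
    rw [iter_P]
    congr 1
    ring
  -- `Q` is not constant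
  have hnc : ¬ ∃ q, ∀ z ∈ ball (0 : ℂ) (4 * K0), Q z = q := by
    rintro ⟨q, hq⟩
    have h1 : ∀ i, ∃ x ∈ ball (0 : ℂ) 1, x ≠ 0 ∧ ‖cc β x - c0‖ ≤ 2 * K0 * σ i ∧
        NN β c0 (2 * K0 * σ i) / 2 < -Real.log ‖x‖ := by
      intro i
      have hpos := NN_pos hd hβ hc (show 0 < 2 * K0 * σ i by have := hσ0 i; positivity)
      obtain ⟨g, ⟨x, hx, hx0, hxr, rfl⟩, hg⟩ := exists_lt_of_lt_csSup
        (Gs_nonempty hc (show 0 < 2 * K0 * σ i by have := hσ0 i; positivity))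
        (show NN β c0 (2 * K0 * σ i) / 2 < sSup (Gs β c0 (2 * K0 * σ i)) by
          show NN β c0 (2 * K0 * σ i) / 2 < NN β c0 (2 * K0 * σ i)
          linarith)
      exact ⟨x, hx, hx0, hxr, hg⟩
    choose x hx hx0 hxr hxg using h1
    have h2 : ∀ i, ‖(cc β (x i) - c0) / σ i‖ ≤ 2 * K0 := fun i => by
      rw [norm_div, Complex.norm_real, Real.norm_of_nonneg (hσ0 i).le, div_le_iff₀ (hσ0 i)]
      exact hxr i
    obtain ⟨t, ht⟩ : ∃ t, Tendsto (fun i => (cc β (x i) - c0) / σ i) 𝒰 (𝓝 t) :=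
      ultra_lim 𝒰 (M := 2 * K0) (Eventually.of_forall h2)
    have ht' : ‖t‖ ≤ 2 * K0 := le_of_tendsto ht.norm (Eventually.of_forall h2)
    have htb : t ∈ ball (0 : ℂ) (4 * K0) := by rw [mem_ball_zero_iff]; linarith
    have h0b : (0 : ℂ) ∈ ball (0 : ℂ) (4 * K0) := mem_ball_self (by linarith)
    have h3 := (hQ4 14 _ t htb ht).norm
    have h4 : 3 ≤ ‖(fun z : ℂ => z ^ d + c0)^[14] (Q t)‖ := by
      refine ge_of_tendsto h3 (Eventually.of_forall fun i => ?_)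
      have h5 : c0 + σ i * ((cc β (x i) - c0) / σ i) = cc β (x i) := by
        have := hσ0' i
        field_simp
        ring
      rw [h5]
      apply P_large hd hβ (hx i) (hx0 i)
      have h6 := hn2 i
      have h7 := hdb i
      have h8 := hxg i
      have h9 : (2 : ℝ) ^ 13 ≤ (d : ℝ) ^ 13 := by
        apply pow_le_pow_left₀ (by norm_num)
        exact_mod_cast hd
      have h10 : (d : ℝ) ^ (n i + 14) = (d : ℝ) ^ (n i + 1) * (d : ℝ) ^ 13 := by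
        rw [← pow_add]
      rw [h10]
      have h11 : (d : ℝ) ^ (n i + 1) * NN β c0 (4 * K0 * σ i) ≤
          (d : ℝ) ^ (n i + 1) * (2 ^ 12 * (-Real.log ‖x i‖)) := by
        have : NN β c0 (4 * K0 * σ i) ≤ 2 ^ 12 * (-Real.log ‖x i‖) := by
          linarith
        gcongr
      have h12 : 1 < (d : ℝ) ^ (n i + 1) * (2 ^ 12 * (-Real.log ‖x i‖)) := h6.trans_le h11
      have h13 : 0 < (d : ℝ) ^ (n i + 1) * (-Real.log ‖x i‖) := by
        have := neg_log_pos (hx i) (hx0 i)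
        positivity
      have h14 : (d : ℝ) ^ (n i + 1) * (-Real.log ‖x i‖) * 2 ^ 13 ≤
          (d : ℝ) ^ (n i + 1) * (-Real.log ‖x i‖) * (d : ℝ) ^ 13 := by gcongr
      linarith
    have h5 := (hQ4 14 (fun _ => 0) 0 h0b tendsto_const_nhds).norm
    have h6 : ‖(fun z : ℂ => z ^ d + c0)^[14] (Q 0)‖ ≤ 2 := by
      refine le_of_tendsto h5 (Eventually.of_forall fun i => ?_)
      rw [mul_zero, add_zero]
      exact hM _
    rw [hq 0 h0b] at h6
    rw [hq t htb] at h4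
    linarith
  -- the limit of the parameters in the right half plane
  have hV : ∀ u : ℂ, u ∈ ball (1 : ℂ) K0 → a + η * (u - 1) ∈ ball (0 : ℂ) (4 * K0) := by
    intro u hu
    rw [mem_ball, dist_eq_norm] at hu
    rw [mem_ball_zero_iff]
    calc ‖a + η * (u - 1)‖ ≤ ‖a‖ + ‖η‖ * ‖u - 1‖ := by
          refine (norm_add_le _ _).trans ?_
          rw [norm_mul]
      _ ≤ K0 + 2 * K0 := by
          have := norm_nonneg (u - 1)
          gcongr
      _ < 4 * K0 := by linarith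
  have hfe : ∀ (k : ℕ) (u : ℂ), u ∈ ball (1 : ℂ) K0 → 0 < u.re →
      ‖(fun z : ℂ => z ^ d + c0)^[k] (Q (a + η * (u - 1))) -
        ξ ^ (d ^ k) * exp ((d : ℂ) ^ k * κ * u)‖ ≤ 3 := by
    intro k u hu hur
    have h1 := vv_lim S (c0 := c0) hj3 hj hε hε0 hflat 𝒰 h𝒰 ha hη hur
    have h2 := hQ4 k _ _ (hV u hu) h1
    have h3 : Tendsto (fun i => exp (-((d : ℂ) ^ n i * (θ * I))) ^ (d ^ k) *
        exp ((d : ℂ) ^ k * (((d : ℝ) ^ n i * (-Real.log (rj (j i))) : ℝ) : ℂ) * u)) 𝒰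
        (𝓝 (ξ ^ (d ^ k) * exp ((d : ℂ) ^ k * κ * u))) := by
      have h4 : Tendsto (fun i => (((d : ℝ) ^ n i * (-Real.log (rj (j i))) : ℝ) : ℂ)) 𝒰
          (𝓝 (κ : ℂ)) := (Complex.continuous_ofReal.tendsto κ).comp hκt
      exact (hξ.pow _).mul ((((h4.const_mul _).mul_const u)).cexp)
    have h4 := (h2.sub h3).norm
    refine le_of_tendsto h4 (Eventually.of_forall fun i => ?_)
    have h5 : c0 + σ i * vv β H c0 θ (j i) u = cc β (xx θ (ee (j i)) u) := by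
      have := hσ0' i
      unfold vv
      rw [hσi]
      field_simp
      ring
    rw [h5]
    have h6 := P_near hd hβ (n i + k) (xx_mem (θ := θ) (ee_pos (hj1 i)) hur) (xx_ne u)
    have h7 : (xx θ (ee (j i)) u ^ (d ^ (n i + k)))⁻¹ =
        exp (-((d : ℂ) ^ n i * (θ * I))) ^ (d ^ k) *
        exp ((d : ℂ) ^ k * (((d : ℝ) ^ n i * (-Real.log (rj (j i))) : ℝ) : ℂ) * u) := by
      unfold xx
      rw [← Complex.exp_nat_mul, ← Complex.exp_nat_mul, ← Complex.exp_neg, ← Complex.exp_add]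
      congr 1
      have h8 : u / (ee (j i) : ℂ) = ((-Real.log (rj (j i)) : ℝ) : ℂ) * u := by
        unfold ee
        rw [Complex.ofReal_inv, div_inv_eq_mul, mul_comm]
      rw [h8]
      push_cast
      rw [pow_add]
      ring
    rw [h7] at h6
    exact h6
  -- the case `κ = 0`
  have hκpos : 0 < κ := by
    rcases hκ0.lt_or_eq with h | h
    · exact h
    exfalso
    have hA : AnalyticOnNhd ℂ Q (ball (0 : ℂ) (4 * K0)) := hQ1.analyticOnNhd isOpen_ball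
    rcases hA.is_constant_or_isOpen (convex_ball _ _).isPreconnected with h1 | h1
    · exact hnc h1
    · obtain ⟨V, hVe⟩ : ∃ V : Set ℂ, V = {t : ℂ | 1 + (t - a) / η ∈ ball (1 : ℂ) K0 ∧
          0 < (1 + (t - a) / η).re} := ⟨_, rfl⟩
      have hcont : Continuous fun t : ℂ => 1 + (t - a) / η := by fun_prop
      have hVo : IsOpen V := by
        rw [hVe]
        exact (isOpen_ball.preimage hcont).inter
          (isOpen_lt continuous_const (Complex.continuous_re.comp hcont))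
      have haV : a ∈ V := by
        rw [hVe]
        constructor
        · rw [sub_self, zero_div, add_zero]; exact mem_ball_self (by linarith)
        · rw [sub_self, zero_div, add_zero]; simp
      have hVs : V ⊆ ball (0 : ℂ) (4 * K0) := by
        intro t ht
        rw [hVe] at ht
        have := hV _ ht.1
        have h2 : a + η * (1 + (t - a) / η - 1) = t := by field_simp; ring
        rwa [h2] at this
      have h2 : Q '' V ⊆ {z : ℂ | ∃ B : ℝ, ∀ k, ‖(fun z : ℂ => z ^ d + c0)^[k] z‖ ≤ B} := by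
        rintro _ ⟨t, ht, rfl⟩
        refine ⟨4, fun k => ?_⟩
        rw [hVe] at ht
        have h3 := hfe k _ ht.1 ht.2
        have h4 : a + η * (1 + (t - a) / η - 1) = t := by field_simp; ring
        rw [h4, ← h, ofReal_zero, mul_zero, zero_mul, Complex.exp_zero, mul_one] at h3
        calc ‖(fun z : ℂ => z ^ d + c0)^[k] (Q t)‖ =
              ‖((fun z : ℂ => z ^ d + c0)^[k] (Q t) - ξ ^ (d ^ k)) + ξ ^ (d ^ k)‖ := by
              congr 1; ring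
          _ ≤ 3 + 1 := by
              refine (norm_add_le _ _).trans ?_
              rw [norm_pow, hξ1, one_pow]
              gcongr
          _ = 4 := by norm_num
      have h3 := interior_maximal h2 (h1 V hVs hVo)
      rw [hint] at h3
      exact h3 ⟨a, haV, rfl⟩
  -- rigidity
  have hQd : DifferentiableOn ℂ (fun u => Q (a + η * (u - 1))) (ball (1 : ℂ) K0) :=
    hQ1.comp (by fun_prop) fun u hu => hV u hu
  obtain ⟨m, n', hmn, h⟩ := hL d c0 ξ 1 κ K0 (fun u => Q (a + η * (u - 1))) hd hξ1 hκpos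
    (by rw [norm_one]; linarith) hQd hfe
  exact hpre m n' hmn h

end Pool.Agent.N673.TW.BM
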