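import Pool.Agent.N673.TW.Stm2

set_option autoImplicit false

/-!
# COMB: Pliss times and doubling scales (helper401)
-/

open Filter Topology Set

namespace Pool.Agent.N673.TW.Comb

/-- Pliss times -/
def Pl (Λ : ℕ → ℝ) (j : ℕ) : Prop := ∀ i : ℕ, j ≤ i → Λ i ≤ Λ j - ((i : ℝ) - j) / 2

/-- the growth of `ν` along separated Pliss times -/
theorem growth {κ b : ℝ} {Λ : ℕ → ℝ} {ν : ℝ → ℝ} {T : ℕ → Prop} [DecidablePred T]
    (h3 : Monotone ν) (h4 : ∀ s : ℝ, s ≤ 0 → ν s ≤ b) (hP : ∀ j, T j → Pl Λ j)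
    (h0 : ∀ j, T j → Λ j + κ + 1 ≤ 0) (hsep : ∀ j j', T j → T j' → j < j' → j + 2 ≤ j')
    (hν : ∀ j, T j → ν (Λ j + κ) + 11 ≤ ν (Λ j + κ + 1)) (N : ℕ) :
    ∀ s : ℝ, s ≤ 0 → (∀ j, j < N → T j → s ≤ Λ j + κ) →
      ν s ≤ b - 11 * ((Finset.range N).filter T).card := by
  induction N with
  | zero =>
    intro s hs _
    simpa using h4 s hs
  | succ N ih =>
    intro s hs hle
    rw [Finset.range_add_one, Finset.filter_insert]
    by_cases hT : T N
    · rw [if_pos hT, Finset.card_insert_of_notMem (by simp)]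
      have h1 := ih (Λ N + κ + 1) (h0 N hT) (by
        intro j hj hTj
        have h2 := hsep j N hTj hT hj
        have h3 := hP j hTj N hj.le
        have h4 : (j : ℝ) + 2 ≤ N := by exact_mod_cast h2
        linarith)
      have h2 := hν N hT
      have h5 := h3 (hle N (Nat.lt_succ_self N) hT)
      push_cast
      linarith
    · rw [if_neg hT]
      exact ih s hs fun j hj hTj => hle j (by omega) hTj

theorem count {κ b : ℝ} {Λ : ℕ → ℝ} {ν : ℝ → ℝ} {T : ℕ → Prop} [DecidablePred T]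
    (h3 : Monotone ν) (h4 : ∀ s : ℝ, s ≤ 0 → ν s ≤ b) (hP : ∀ j, T j → Pl Λ j)
    (h0 : ∀ j, T j → Λ j + κ + 1 ≤ 0) (hsep : ∀ j j', T j → T j' → j < j' → j + 2 ≤ j')
    (hν : ∀ j, T j → ν (Λ j + κ) + 11 ≤ ν (Λ j + κ + 1))
    (h5 : ∀ j, T j → -(j : ℝ) - b ≤ ν (Λ j + κ)) (N : ℕ) :
    11 * (((Finset.range N).filter T).card : ℝ) ≤ N + 2 * |b| := by
  rcases ((Finset.range N).filter T).eq_empty_or_nonempty with h | h
  · rw [h, Finset.card_empty]
    have := abs_nonneg b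
    have h1 : (0 : ℝ) ≤ N := Nat.cast_nonneg _
    push_cast
    linarith
  · obtain ⟨j, hj, hmax⟩ := ((Finset.range N).filter T).exists_max_image (fun j => j) h
    rw [Finset.mem_filter, Finset.mem_range] at hj
    have h1 := growth h3 h4 hP h0 hsep hν N (Λ j + κ) (by linarith [h0 j hj.2]) (by
      intro i hi hTi
      have h2 := hmax i (Finset.mem_filter.2 ⟨Finset.mem_range.2 hi, hTi⟩)
      have h3 := hP i hTi j h2
      have h4 : (i : ℝ) ≤ j := by exact_mod_cast h2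
      linarith)
    have h2 := h5 j hj.2
    have h6 : (j : ℝ) ≤ N := by exact_mod_cast hj.1.le
    have h7 := le_abs_self b
    linarith

theorem t : Pool.Agent.N673.TW.S_COMB := by
  classical
  intro B κ b
  refine ⟨1 / (100 * (|B| + 1)), by positivity, ?_⟩
  intro Λ ν S h1 h2 h3 h4 h5 h6 h7
  have hB : 0 ≤ B := (abs_nonneg _).trans (h1 0)
  by_contra hcon
  rw [not_frequently, eventually_atTop] at hcon
  obtain ⟨j1, hj1⟩ := hcon
  -- the decay of `Λ`
  obtain ⟨J, hJ⟩ : ∃ J : ℕ, ∀ j : ℕ, J ≤ j → Λ j ≤ -(99 / 100) * j := by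
    have h8 : ∀ᶠ j : ℕ in atTop, Λ j / j < -(99 / 100) :=
      h2.eventually_lt_const (by norm_num)
    obtain ⟨J, hJ⟩ := eventually_atTop.1 (h8.and (eventually_gt_atTop 0))
    refine ⟨J, fun j hj => ?_⟩
    obtain ⟨h9, h10⟩ := hJ j hj
    have h11 : (0 : ℝ) < j := by exact_mod_cast h10
    rw [div_lt_iff₀ h11] at h9
    exact h9.le
  obtain ⟨a, ha⟩ : ∃ a : ℕ → ℝ, ∀ j, a j = Λ j + (j : ℝ) / 2 := ⟨_, fun _ => rfl⟩
  have haJ : ∀ j : ℕ, J ≤ j → a j ≤ -(49 / 100) * j := by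
    intro j hj
    rw [ha]
    linarith [hJ j hj]
  have hPa : ∀ j, Pl Λ j ↔ ∀ i, j ≤ i → a i ≤ a j := by
    intro j
    refine forall_congr' fun i => forall_congr' fun hi => ?_
    rw [ha, ha]
    constructor <;> intro h <;> linarith
  have hbd : ∃ M : ℝ, ∀ i, a i ≤ M := by
    refine ⟨∑ i ∈ Finset.range J, |a i|, fun i => ?_⟩
    by_cases hi : i < J
    · exact (le_abs_self _).trans (Finset.single_le_sum (f := fun i => |a i|)
        (fun _ _ => abs_nonneg _) (Finset.mem_range.2 hi))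
    · have h8 := haJ i (not_lt.1 hi)
      have h9 : (0 : ℝ) ≤ i := Nat.cast_nonneg _
      have h10 : 0 ≤ ∑ i ∈ Finset.range J, |a i| := Finset.sum_nonneg fun _ _ => abs_nonneg _
      linarith
  obtain ⟨M, hM⟩ := hbd
  obtain ⟨A, hA⟩ : ∃ A : ℕ → ℝ, ∀ j, A j = ⨆ i : ℕ, a (j + i) := ⟨_, fun _ => rfl⟩
  have hA1 : ∀ j i, j ≤ i → a i ≤ A j := by
    intro j i hi
    obtain ⟨k, rfl⟩ := Nat.exists_eq_add_of_le hi
    rw [hA]
    exact le_ciSup (f := fun i : ℕ => a (j + i)) ⟨M, by rintro _ ⟨i, rfl⟩; exact hM _⟩ k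
  have hA2 : ∀ j c, (∀ i, j ≤ i → a i ≤ c) → A j ≤ c := by
    intro j c h
    rw [hA]
    exact ciSup_le fun i => h _ (Nat.le_add_right _ _)
  -- the increments of `A`
  have hinc : ∀ j, A j - A (j + 1) ≤ 5 / 8 * (if Pl Λ j ∧ j ∉ S then 1 else 0) +
      B * (if j ∈ S then 1 else 0) := by
    intro j
    by_cases hP : Pl Λ j
    · have h8 : A j ≤ a j := hA2 j _ ((hPa j).1 hP)
      have h9 : a (j + 1) ≤ A (j + 1) := hA1 _ _ le_rfl
      have h10 : a j - a (j + 1) = Λ j - Λ (j + 1) - 1 / 2 := by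
        rw [ha, ha]; push_cast; ring
      by_cases hS : j ∈ S
      · rw [if_neg (fun h => h.2 hS), if_pos hS]
        have := (abs_le.1 (h1 j)).1
        linarith
      · rw [if_pos ⟨hP, hS⟩, if_neg hS]
        have := (abs_le.1 (h6 j hS)).1
        linarith
    · have h8 : A j ≤ A (j + 1) := by
        rw [hPa] at hP
        push Not at hP
        obtain ⟨i, hi, hlt⟩ := hP
        have hij : j + 1 ≤ i := by
          rcases hi.eq_or_lt with h | h
          · subst h; exact absurd hlt (lt_irrefl _)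
          · exact h
        apply hA2
        intro i' hi'
        rcases hi'.eq_or_lt with h | h
        · subst h; exact hlt.le.trans (hA1 _ _ hij)
        · exact hA1 _ _ h
      rw [if_neg fun h => hP h.1]
      have h9 : 0 ≤ B * (if j ∈ S then (1 : ℝ) else 0) :=
        mul_nonneg hB (by split_ifs <;> norm_num)
      linarith
  have hsum : ∀ N : ℕ, A 0 - A N ≤ 5 / 8 * (((Finset.range N).filter
      fun j => Pl Λ j ∧ j ∉ S).card : ℝ) + B * (cnt S N : ℝ) := by
    intro N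
    have h8 : (cnt S N : ℝ) = ∑ j ∈ Finset.range N, if j ∈ S then (1 : ℝ) else 0 := by
      rw [← Finset.sum_filter, Finset.sum_const, nsmul_eq_mul, mul_one]
      congr 1
      unfold cnt
      rw [← Set.ncard_coe_finset]
      congr 1
      ext j
      simp [and_comm]
    have h9 : ((((Finset.range N).filter fun j => Pl Λ j ∧ j ∉ S).card : ℕ) : ℝ) =
        ∑ j ∈ Finset.range N, if Pl Λ j ∧ j ∉ S then (1 : ℝ) else 0 := by
      rw [← Finset.sum_filter, Finset.sum_const, nsmul_eq_mul, mul_one]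
    rw [h8, h9, Finset.mul_sum, Finset.mul_sum, ← Finset.sum_add_distrib,
      ← Finset.sum_range_sub']
    exact Finset.sum_le_sum fun j _ => hinc j
  -- the bound from the growth of `ν`
  obtain ⟨j0, hj0, hj01⟩ : ∃ j0 : ℕ, (∀ j, j0 ≤ j → Λ j + κ + 1 ≤ 0) ∧ j1 ≤ j0 := by
    obtain ⟨K, hK⟩ := exists_nat_gt (2 * (|κ| + 1))
    refine ⟨max J (max K j1), fun j hj => ?_, (le_max_right _ _).trans (le_max_right _ _)⟩
    have h8 := hJ j ((le_max_left _ _).trans hj)
    have h9 : (K : ℝ) ≤ j := by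
      exact_mod_cast ((le_max_left _ _).trans (le_max_right _ _)).trans hj
    have h10 := le_abs_self κ
    have h11 := abs_nonneg κ
    linarith
  have hcl : ∀ (e N : ℕ), 11 * (((Finset.range N).filter
      fun j => j0 ≤ j ∧ j % 2 = e ∧ Pl Λ j ∧ j ∉ S).card : ℝ) ≤ N + 2 * |b| := by
    intro e N
    refine count (κ := κ) (Λ := Λ) h3 h4 (fun j hj => hj.2.2.1) (fun j hj => hj0 j hj.1) ?_ ?_
      (fun j hj => h5 j hj.2.2.1) N
    · rintro j j' ⟨_, h8, _⟩ ⟨_, h9, _⟩ h10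
      omega
    · rintro j ⟨h8, _, h9, h10⟩
      have h11 := hj1 j (hj01.trans h8)
      by_contra h12
      exact h11 ⟨h10, h9, (not_le.1 h12).le⟩
  have hPl : ∀ N : ℕ, (((Finset.range N).filter fun j => Pl Λ j ∧ j ∉ S).card : ℝ) ≤
      j0 + 2 * ((N + 2 * |b|) / 11) := by
    intro N
    have hsub : ((Finset.range N).filter fun j => Pl Λ j ∧ j ∉ S) ⊆
        Finset.range j0 ∪ (((Finset.range N).filter
          fun j => j0 ≤ j ∧ j % 2 = 0 ∧ Pl Λ j ∧ j ∉ S) ∪ ((Finset.range N).filter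
          fun j => j0 ≤ j ∧ j % 2 = 1 ∧ Pl Λ j ∧ j ∉ S)) := by
      intro j hj
      rw [Finset.mem_filter] at hj
      rw [Finset.mem_union, Finset.mem_union, Finset.mem_range, Finset.mem_filter,
        Finset.mem_filter]
      by_cases h8 : j < j0
      · exact Or.inl h8
      · right
        rcases Nat.mod_two_eq_zero_or_one j with h9 | h9
        · exact Or.inl ⟨hj.1, not_lt.1 h8, h9, hj.2⟩
        · exact Or.inr ⟨hj.1, not_lt.1 h8, h9, hj.2⟩
    have h8 := (Finset.card_le_card hsub).trans ((Finset.card_union_le _ _).trans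
      (Nat.add_le_add_left (Finset.card_union_le _ _) _))
    rw [Finset.card_range] at h8
    have h9 : (((Finset.range N).filter fun j => Pl Λ j ∧ j ∉ S).card : ℝ) ≤
        (j0 : ℝ) + ((((Finset.range N).filter
          fun j => j0 ≤ j ∧ j % 2 = 0 ∧ Pl Λ j ∧ j ∉ S).card : ℝ) + (((Finset.range N).filter
          fun j => j0 ≤ j ∧ j % 2 = 1 ∧ Pl Λ j ∧ j ∉ S).card : ℝ)) := by exact_mod_cast h8
    have h10 := hcl 0 N
    have h11 := hcl 1 N
    linarith
  -- the end
  obtain ⟨N0, hN0⟩ := exists_nat_gt (10 * ((j0 : ℝ) + |b| + |Λ 0|))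
  obtain ⟨N, hN, hNc⟩ := (h7.and_eventually (eventually_ge_atTop (max J N0))).exists
  have hNJ : J ≤ N := (le_max_left _ _).trans hNc
  have hNN : (N0 : ℝ) ≤ N := by exact_mod_cast (le_max_right _ _).trans hNc
  have h8 := hsum N
  have h9 : A N ≤ -(49 / 100) * N := by
    apply hA2
    intro i hi
    have h10 := haJ i (hNJ.trans hi)
    have h11 : (N : ℝ) ≤ i := by exact_mod_cast hi
    linarith
  have h10 : Λ 0 ≤ A 0 := by
    have := hA1 0 0 le_rfl
    rw [ha] at this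
    simpa using this
  have h11 := hPl N
  have h12 : B * (cnt S N : ℝ) ≤ N / 100 := by
    have h13 : B * (cnt S N : ℝ) ≤ B * (1 / (100 * (|B| + 1)) * N) :=
      mul_le_mul_of_nonneg_left hN hB
    have h14 : B * (1 / (100 * (|B| + 1)) * N) = B / (|B| + 1) * (N / 100) := by
      field_simp
    have h15 : B / (|B| + 1) ≤ 1 := by
      rw [div_le_one (by positivity)]
      linarith [le_abs_self B]
    have h16 : (0 : ℝ) ≤ N / 100 := by positivity
    nlinarith
  have h13 := neg_abs_le (Λ 0)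
  have h14 := abs_nonneg b
  have h15 : (0 : ℝ) ≤ j0 := Nat.cast_nonneg _
  have h16 := abs_nonneg (Λ 0)
  linarith

end Pool.Agent.N673.TW.Comb
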