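import Pool.Agent.N673.TW.Stm

set_option autoImplicit false

/-!
# Project TW (helper673), task RIG (helper760): the rigidity lemma
-/

open Complex Filter Topology Metric Set

namespace Pool.Agent.N673.TW.Rig

/-! ### Expansion near infinity -/

theorem pow_sub_one (e : ℂ) (j : ℕ) : ‖(1 + e) ^ j - 1‖ ≤ (1 + ‖e‖) ^ j - 1 := by
  induction j with
  | zero => simp
  | succ j ih =>
    have h1 : (1 + e) ^ (j + 1) - 1 = (1 + e) * ((1 + e) ^ j - 1) + e := by ring
    have h2 : ‖1 + e‖ ≤ 1 + ‖e‖ := (norm_add_le _ _).trans (by simp)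
    rw [h1]
    calc ‖(1 + e) * ((1 + e) ^ j - 1) + e‖ ≤ ‖(1 + e) * ((1 + e) ^ j - 1)‖ + ‖e‖ :=
          norm_add_le _ _
      _ ≤ (1 + ‖e‖) * ((1 + ‖e‖) ^ j - 1) + ‖e‖ := by
        rw [norm_mul]
        gcongr
      _ = (1 + ‖e‖) ^ (j + 1) - 1 := by ring

theorem expand (d : ℕ) (hd : 2 ≤ d) (a b : ℂ) (hab : ‖a - b‖ ≤ 6) (ha : 100 * (d : ℝ) ≤ ‖a‖) :
    2 * ‖a - b‖ ≤ ‖a ^ d - b ^ d‖ := by
  have hd2 : (2 : ℝ) ≤ d := by exact_mod_cast hd
  have ha0 : 0 < ‖a‖ := by linarith
  have ha1 : a ≠ 0 := norm_pos_iff.1 ha0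
  set e : ℂ := (b - a) / a with he
  have hb : b = a * (1 + e) := by
    rw [he]
    field_simp
    ring
  have hen : ‖e‖ * ‖a‖ = ‖a - b‖ := by
    rw [he, norm_div, norm_sub_rev]
    field_simp
  have hed : ‖e‖ * d ≤ 6 / 100 := by
    have h1 : ‖e‖ * (100 * d) ≤ ‖e‖ * ‖a‖ := mul_le_mul_of_nonneg_left ha (norm_nonneg _)
    rw [hen] at h1
    linarith
  have hterm : ∀ i ∈ Finset.range d, ‖(1 + e) ^ i - 1‖ ≤ 1 / 2 := by
    intro i hi
    rw [Finset.mem_range] at hi
    refine (pow_sub_one e i).trans ?_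
    have h1 : (1 + ‖e‖) ^ i ≤ Real.exp (i * ‖e‖) := by
      rw [Real.exp_nat_mul]
      apply pow_le_pow_left₀ (by positivity)
      linarith [Real.add_one_le_exp ‖e‖]
    have h2 : (i : ℝ) * ‖e‖ ≤ 6 / 100 := by
      have : (i : ℝ) ≤ d := by exact_mod_cast hi.le
      calc (i : ℝ) * ‖e‖ ≤ d * ‖e‖ := mul_le_mul_of_nonneg_right this (norm_nonneg _)
        _ = ‖e‖ * d := mul_comm _ _
        _ ≤ _ := hed
    have h3 : Real.exp (i * ‖e‖) ≤ 3 / 2 := by
      have h4 : Real.exp (i * ‖e‖) ≤ Real.exp (6 / 100) := Real.exp_le_exp.2 h2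
      have h5 : 1 - 6 / 100 ≤ Real.exp (-(6 / 100)) := Real.one_sub_le_exp_neg _
      have h6 : Real.exp (6 / 100) * Real.exp (-(6 / 100)) = 1 := by
        rw [← Real.exp_add]
        simp
      nlinarith [Real.exp_pos (6 / 100)]
    linarith
  have hsum : (d : ℝ) / 2 ≤ ‖∑ i ∈ Finset.range d, (1 + e) ^ i‖ := by
    have h1 : ∑ i ∈ Finset.range d, (1 + e) ^ i =
        (d : ℂ) + ∑ i ∈ Finset.range d, ((1 + e) ^ i - 1) := by
      rw [Finset.sum_sub_distrib]
      simp
    have h2 : ‖∑ i ∈ Finset.range d, ((1 + e) ^ i - 1)‖ ≤ d / 2 := by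
      refine (norm_sum_le _ _).trans ((Finset.sum_le_sum hterm).trans ?_)
      simp
      linarith
    have h3 : ‖(d : ℂ)‖ = d := by simp
    have h4 : ‖(d : ℂ)‖ ≤ ‖∑ i ∈ Finset.range d, (1 + e) ^ i‖ +
        ‖∑ i ∈ Finset.range d, ((1 + e) ^ i - 1)‖ := by
      have : (d : ℂ) = ∑ i ∈ Finset.range d, (1 + e) ^ i -
          ∑ i ∈ Finset.range d, ((1 + e) ^ i - 1) := by
        rw [h1]
        ring
      rw [this]
      simpa using norm_sub_le (∑ i ∈ Finset.range d, (1 + e) ^ i)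
        (∑ i ∈ Finset.range d, ((1 + e) ^ i - 1))
    linarith
  have hg := geom_sum_mul (1 + e) d
  have h1 : a ^ d - b ^ d = -(a ^ d * ((∑ i ∈ Finset.range d, (1 + e) ^ i) * e)) := by
    have h2 : (1 + e) - 1 = e := by ring
    rw [h2] at hg
    rw [hg, hb, mul_pow]
    ring
  have h2 : ‖a‖ ^ d = ‖a‖ ^ (d - 1) * ‖a‖ := by
    rw [← pow_succ]
    congr 1
    omega
  have h3 : ‖a‖ ≤ ‖a‖ ^ (d - 1) := by
    apply le_self_pow₀ (by linarith) (by omega)
  rw [h1, norm_neg, norm_mul, norm_mul, norm_pow, h2]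
  have h4 : ‖a‖ ^ (d - 1) * ‖a‖ * (‖∑ i ∈ Finset.range d, (1 + e) ^ i‖ * ‖e‖) =
      (‖a‖ ^ (d - 1) * ‖∑ i ∈ Finset.range d, (1 + e) ^ i‖) * ‖a - b‖ := by
    rw [← hen]
    ring
  rw [h4]
  apply mul_le_mul_of_nonneg_right _ (norm_nonneg _)
  calc (2 : ℝ) = 2 * 1 := by norm_num
    _ ≤ ‖a‖ ^ (d - 1) * ‖∑ i ∈ Finset.range d, (1 + e) ^ i‖ := by
      apply mul_le_mul _ _ (by norm_num) (by positivity)
      · linarith
      · linarith

theorem uniq (d : ℕ) (hd : 2 ≤ d) (c z z' : ℂ)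
    (h : ∀ k : ℕ, ‖(fun z : ℂ => z ^ d + c)^[k] z - (fun z : ℂ => z ^ d + c)^[k] z'‖ ≤ 6)
    (h' : ∀ k : ℕ, 100 * (d : ℝ) ≤ ‖(fun z : ℂ => z ^ d + c)^[k] z‖) : z = z' := by
  have key : ∀ k : ℕ, 2 ^ k * ‖z - z'‖ ≤
      ‖(fun z : ℂ => z ^ d + c)^[k] z - (fun z : ℂ => z ^ d + c)^[k] z'‖ := by
    intro k
    induction k with
    | zero => simp
    | succ k ih =>
      rw [Function.iterate_succ_apply', Function.iterate_succ_apply']
      have h1 := expand d hd _ _ (h k) (h' k)
      have h2 : ((fun z : ℂ => z ^ d + c)^[k] z) ^ d + c -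
          (((fun z : ℂ => z ^ d + c)^[k] z') ^ d + c) =
          ((fun z : ℂ => z ^ d + c)^[k] z) ^ d - ((fun z : ℂ => z ^ d + c)^[k] z') ^ d := by ring
      rw [h2, pow_succ]
      linarith
  by_contra hne
  have hpos : 0 < ‖z - z'‖ := norm_pos_iff.2 (sub_ne_zero.2 hne)
  obtain ⟨k, hk⟩ := pow_unbounded_of_one_lt (6 / ‖z - z'‖) (one_lt_two : (1 : ℝ) < 2)
  rw [div_lt_iff₀ hpos] at hk
  linarith [key k, h k]

/-! ### The identity theorem -/

theorem ident (F G : ℂ → ℂ) (hF : Differentiable ℂ F) (hG : Differentiable ℂ G) (R : ℝ)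
    (h : ∀ u : ℂ, R ≤ u.re → |u.im| ≤ 1 → F u = G u) : F = G := by
  have hF' : AnalyticOnNhd ℂ F univ := fun z _ => hF.analyticAt z
  have hG' : AnalyticOnNhd ℂ G univ := fun z _ => hG.analyticAt z
  refine hF'.eq_of_eventuallyEq hG' (z₀ := ((R + 1 : ℝ) : ℂ)) ?_
  have h1 : ∀ᶠ u : ℂ in 𝓝 ((R + 1 : ℝ) : ℂ), R < u.re := by
    apply (Complex.continuous_re.tendsto _).eventually_const_lt
    simp
  have h2 : ∀ᶠ u : ℂ in 𝓝 ((R + 1 : ℝ) : ℂ), |u.im| < 1 := by
    apply ((continuous_abs.comp Complex.continuous_im).tendsto _).eventually_lt_const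
    simp
  filter_upwards [h1, h2] with u hu1 hu2
  exact h u hu1.le hu2.le

/-! ### The main argument in the coordinate without rotation -/

section core

variable (d : ℕ) (hd : 2 ≤ d) (c : ℂ) (K : ℂ → ℂ) (C : ℝ) (hC : 0 ≤ C) (hK : Differentiable ℂ K)
  (hb : ∀ u : ℂ, ‖K u‖ ≤ Real.exp (C * (1 + ‖u‖)))
  (hP : ∀ (k : ℕ) (u : ℂ), 100 ≤ u.re → |u.im| ≤ u.re / 8 →
    ‖(fun z : ℂ => z ^ d + c)^[k] (K u) - exp ((d : ℂ) ^ k * u)‖ ≤ 3)

theorem re_pow_mul (d k : ℕ) (u : ℂ) : ((d : ℂ) ^ k * u).re = (d : ℝ) ^ k * u.re := by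
  have : ((d : ℂ) ^ k) = (((d : ℝ) ^ k : ℝ) : ℂ) := by push_cast; rfl
  rw [this, Complex.re_ofReal_mul]

theorem im_mul' (d : ℕ) (u : ℂ) : ((d : ℂ) * u).im = (d : ℝ) * u.im := by
  have : ((d : ℂ)) = (((d : ℝ) : ℝ) : ℂ) := by push_cast; rfl
  rw [this, Complex.im_ofReal_mul]

theorem re_mul' (d : ℕ) (u : ℂ) : ((d : ℂ) * u).re = (d : ℝ) * u.re := by
  have h : ((d : ℂ)) = (((d : ℝ) : ℝ) : ℂ) := by push_cast; rfl
  rw [h, Complex.re_ofReal_mul]

include hd in
theorem big (k : ℕ) (u : ℂ) (hu : 200 * (d : ℝ) ≤ u.re) :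
    200 * (d : ℝ) ≤ ‖exp ((d : ℂ) ^ k * u)‖ := by
  have hd2 : (2 : ℝ) ≤ d := by exact_mod_cast hd
  rw [Complex.norm_exp, re_pow_mul]
  have h1 : u.re ≤ (d : ℝ) ^ k * u.re := by
    have : (1 : ℝ) ≤ (d : ℝ) ^ k := one_le_pow₀ (by linarith)
    have hu0 : 0 ≤ u.re := by linarith
    nlinarith
  linarith [Real.add_one_le_exp ((d : ℝ) ^ k * u.re)]

include hd hP in
theorem lower (k : ℕ) (u : ℂ) (hu : 200 * (d : ℝ) ≤ u.re) (hi : |u.im| ≤ u.re / 8) :
    100 * (d : ℝ) ≤ ‖(fun z : ℂ => z ^ d + c)^[k] (K u)‖ := by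
  have hd2 : (2 : ℝ) ≤ d := by exact_mod_cast hd
  have h1 := big d hd k u hu
  have h2 := hP k u (by linarith) hi
  have h3 : ‖exp ((d : ℂ) ^ k * u)‖ ≤ ‖(fun z : ℂ => z ^ d + c)^[k] (K u)‖ +
      ‖(fun z : ℂ => z ^ d + c)^[k] (K u) - exp ((d : ℂ) ^ k * u)‖ := by
    have := norm_sub_le ((fun z : ℂ => z ^ d + c)^[k] (K u))
      ((fun z : ℂ => z ^ d + c)^[k] (K u) - exp ((d : ℂ) ^ k * u))
    simpa using this
  linarith

include hd hK hP in
theorem per : Function.Periodic K (2 * Real.pi * I) := by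
  have hd2 : (2 : ℝ) ≤ d := by exact_mod_cast hd
  have h := ident (fun u => K (u + 2 * Real.pi * I)) K (by fun_prop) hK (200 * d) (by
    intro u hu hi
    have hre : (u + 2 * Real.pi * I).re = u.re := by simp
    have him : (u + 2 * Real.pi * I).im = u.im + 2 * Real.pi := by simp
    have hpi := Real.pi_lt_four
    have hpi0 := Real.pi_pos
    have hi1 : |(u + 2 * Real.pi * I).im| ≤ (u + 2 * Real.pi * I).re / 8 := by
      rw [hre, him, abs_le] at *
      constructor <;> linarith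
    have hi2 : |u.im| ≤ u.re / 8 := by linarith
    apply uniq d hd c
    · intro k
      have h1 := hP k (u + 2 * Real.pi * I) (by rw [hre]; linarith) hi1
      have h2 := hP k u (by linarith) hi2
      have h3 : exp ((d : ℂ) ^ k * (u + 2 * Real.pi * I)) = exp ((d : ℂ) ^ k * u) := by
        rw [Complex.exp_eq_exp_iff_exists_int]
        refine ⟨((d ^ k : ℕ) : ℤ), ?_⟩
        push_cast
        ring
      rw [h3] at h1
      have h4 : (fun z : ℂ => z ^ d + c)^[k] (K (u + 2 * Real.pi * I)) -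
          (fun z : ℂ => z ^ d + c)^[k] (K u) =
          ((fun z : ℂ => z ^ d + c)^[k] (K (u + 2 * Real.pi * I)) - exp ((d : ℂ) ^ k * u)) -
          ((fun z : ℂ => z ^ d + c)^[k] (K u) - exp ((d : ℂ) ^ k * u)) := by ring
      rw [h4]
      refine (norm_sub_le _ _).trans ?_
      linarith
    · intro k
      exact lower d hd c K hP k _ (by rw [hre]; exact hu) hi1)
  intro u
  exact congrFun h u

include hd hK hP in
theorem fe (u : ℂ) : K (d * u) = K u ^ d + c := by
  have hd2 : (2 : ℝ) ≤ d := by exact_mod_cast hd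
  have h := ident (fun u => K (d * u)) (fun u => K u ^ d + c) (by fun_prop) (by fun_prop)
    (200 * d) (by
    intro u hu hi
    have hi1 : |((d : ℂ) * u).im| ≤ ((d : ℂ) * u).re / 8 := by
      rw [im_mul', re_mul', abs_mul, abs_of_nonneg (by linarith : (0 : ℝ) ≤ d)]
      nlinarith
    have hre : 200 * (d : ℝ) ≤ ((d : ℂ) * u).re := by
      rw [re_mul']
      nlinarith
    have hi2 : |u.im| ≤ u.re / 8 := by linarith
    apply uniq d hd c
    · intro k
      have h1 := hP k ((d : ℂ) * u) (by linarith) hi1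
      have h2 := hP (k + 1) u (by linarith) hi2
      rw [Function.iterate_succ_apply] at h2
      have h3 : (d : ℂ) ^ (k + 1) * u = (d : ℂ) ^ k * ((d : ℂ) * u) := by ring
      rw [h3] at h2
      have h4 : (fun z : ℂ => z ^ d + c)^[k] (K ((d : ℂ) * u)) -
          (fun z : ℂ => z ^ d + c)^[k] (K u ^ d + c) =
          ((fun z : ℂ => z ^ d + c)^[k] (K ((d : ℂ) * u)) - exp ((d : ℂ) ^ k * ((d : ℂ) * u))) -
          ((fun z : ℂ => z ^ d + c)^[k] (K u ^ d + c) -
            exp ((d : ℂ) ^ k * ((d : ℂ) * u))) := by ring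
      rw [h4]
      refine (norm_sub_le _ _).trans ?_
      linarith
    · intro k
      exact lower d hd c K hP k _ hre hi1)
  exact congrFun h u

include hd hK hP in
theorem iter (n : ℕ) (u : ℂ) : K ((d : ℂ) ^ n * u) = (fun z : ℂ => z ^ d + c)^[n] (K u) := by
  induction n with
  | zero => simp
  | succ n ih =>
    rw [Function.iterate_succ_apply', ← ih, pow_succ']
    have := fe d hd c K hK hP ((d : ℂ) ^ n * u)
    rw [← this]
    ring_nf

include hd hK hP in
theorem KK (a b : ℂ) (h : exp a = exp b) : K a = K b := by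
  obtain ⟨n, hn⟩ := Complex.exp_eq_exp_iff_exists_int.1 h
  rw [hn]
  exact (per d hd c K hK hP).int_mul n b

include hd hK hP in
theorem KL (u : ℂ) : K (log (exp u)) = K u :=
  KK d hd c K hK hP _ _ (Complex.exp_log (Complex.exp_ne_zero u))

include hd hK hP in
theorem near (u : ℂ) (hu : 100 ≤ u.re) : ‖K u - exp u‖ ≤ 3 := by
  have h1 : exp (log (exp u)) = exp u := Complex.exp_log (Complex.exp_ne_zero u)
  have h2 : (log (exp u)).re = u.re := by
    rw [Complex.log_re, Complex.norm_exp, Real.log_exp]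
  have h3 : |(log (exp u)).im| ≤ Real.pi := by
    rw [Complex.log_im]
    exact Complex.abs_arg_le_pi _
  have h4 := hP 0 (log (exp u)) (by rw [h2]; exact hu) (by
    rw [h2]
    linarith [Real.pi_lt_four])
  simp only [Function.iterate_zero, id_eq, pow_zero, one_mul] at h4
  rw [h1, KL d hd c K hK hP] at h4
  exact h4

/-- the exponent -/
noncomputable def NN (C : ℝ) : ℕ := ⌈C⌉₊ + 1

/-- the function `L` -/
noncomputable def LL (K : ℂ → ℂ) (W : ℂ) : ℂ := K (log W)

/-- the function `p` -/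
noncomputable def pp (K : ℂ → ℂ) (C : ℝ) (W : ℂ) : ℂ := W ^ NN C * LL K W

include hd hK hP in
theorem LL_exp (u : ℂ) : LL K (exp u) = K u := KL d hd c K hK hP u

include hd hK hP in
theorem LL_diff (W : ℂ) (hW : W ≠ 0) : DifferentiableAt ℂ (LL K) W := by
  by_cases hs : W ∈ slitPlane
  · have h1 : DifferentiableAt ℂ Complex.log W := Complex.differentiableAt_log hs
    exact (hK (log W)).comp W h1
  · have hs' : -W ∈ slitPlane := by
      rw [Complex.mem_slitPlane_iff] at hs ⊢
      push Not at hs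
      left
      have h1 : W.re ≠ 0 := by
        intro h0
        apply hW
        apply Complex.ext
        · simpa using h0
        · simpa using hs.2
      simp only [Complex.neg_re]
      have := lt_of_le_of_ne hs.1 h1
      linarith
    have h1 : DifferentiableAt ℂ (fun V => K (log (-V) + Real.pi * I)) W := by
      have h2 : DifferentiableAt ℂ (fun V => log (-V) + Real.pi * I) W := by
        have h3 : DifferentiableAt ℂ (fun V : ℂ => -V) W := by fun_prop
        exact ((Complex.differentiableAt_log hs').comp W h3).add_const _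
      exact (hK _).comp W h2
    apply h1.congr_of_eventuallyEq
    filter_upwards [isOpen_ne.mem_nhds hW] with V hV
    have hV' : V ≠ 0 := hV
    apply KK d hd c K hK hP
    rw [Complex.exp_log hV', Complex.exp_add, Complex.exp_log (neg_ne_zero.2 hV'),
      Complex.exp_pi_mul_I]
    ring

include hC hb in
theorem pp_small (W : ℂ) (hW : ‖W‖ < 1) :
    ‖pp K C W‖ ≤ Real.exp (C * (1 + Real.pi)) * ‖W‖ := by
  by_cases h0 : W = 0
  · rw [h0, pp, NN]
    simp
  have hn : 0 < ‖W‖ := norm_pos_iff.2 h0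
  have hl : Real.log ‖W‖ < 0 := Real.log_neg hn hW
  have h1 : ‖log W‖ ≤ -Real.log ‖W‖ + Real.pi := by
    have h2 : ‖log W‖ ≤ |(log W).re| + |(log W).im| := Complex.norm_le_abs_re_add_abs_im _
    rw [Complex.log_re, Complex.log_im, abs_of_neg hl] at h2
    linarith [Complex.abs_arg_le_pi W]
  have h2 : ‖LL K W‖ ≤ Real.exp (C * (1 + Real.pi) - C * Real.log ‖W‖) := by
    refine (hb _).trans (Real.exp_le_exp.2 ?_)
    nlinarith
  have h3 : ‖W‖ ^ NN C = Real.exp (NN C * Real.log ‖W‖) := by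
    rw [Real.exp_nat_mul, Real.exp_log hn]
  have h4 : (C + 1 : ℝ) ≤ NN C := by
    rw [NN]
    push_cast
    linarith [Nat.le_ceil C]
  rw [pp, norm_mul, norm_pow, h3]
  calc Real.exp (NN C * Real.log ‖W‖) * ‖LL K W‖ ≤ Real.exp (NN C * Real.log ‖W‖) *
        Real.exp (C * (1 + Real.pi) - C * Real.log ‖W‖) :=
        mul_le_mul_of_nonneg_left h2 (Real.exp_pos _).le
    _ = Real.exp (C * (1 + Real.pi) + (NN C - C) * Real.log ‖W‖) := by
      rw [← Real.exp_add]
      congr 1
      ring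
    _ ≤ Real.exp (C * (1 + Real.pi) + Real.log ‖W‖) := by
      apply Real.exp_le_exp.2
      nlinarith
    _ = Real.exp (C * (1 + Real.pi)) * ‖W‖ := by rw [Real.exp_add, Real.exp_log hn]

include hd hC hK hb hP in
theorem pp_diff : Differentiable ℂ (pp K C) := by
  have hne : ∀ W : ℂ, W ≠ 0 → DifferentiableAt ℂ (pp K C) W := by
    intro W hW
    have := LL_diff d hd c K hK hP W hW
    unfold pp
    fun_prop
  intro W
  by_cases hW : W = 0
  · rw [hW]
    apply AnalyticAt.differentiableAt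
    apply analyticAt_of_differentiable_on_punctured_nhds_of_continuousAt
    · filter_upwards [self_mem_nhdsWithin] with V hV
      exact hne V hV
    · have h0 : pp K C 0 = 0 := by simp [pp, NN]
      rw [ContinuousAt, h0]
      have h1 : Tendsto (fun W : ℂ => Real.exp (C * (1 + Real.pi)) * ‖W‖) (𝓝 0) (𝓝 0) := by
        have h2 : Continuous (fun W : ℂ => Real.exp (C * (1 + Real.pi)) * ‖W‖) := by fun_prop
        have := h2.tendsto 0
        simpa using this
      refine squeeze_zero_norm' ?_ h1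
      have h3 : ∀ᶠ W : ℂ in 𝓝 0, ‖W‖ < 1 := by
        have := ball_mem_nhds (0 : ℂ) one_pos
        filter_upwards [this] with V hV
        simpa using hV
      filter_upwards [h3] with V hV
      exact pp_small K C hC hb V hV
  · exact hne W hW

include hd hK hP in
theorem pp_exp (u : ℂ) : pp K C (exp u) = exp (NN C * u) * K u := by
  rw [pp, LL_exp d hd c K hK hP, Complex.exp_nat_mul]

/-- the function `M` -/
noncomputable def MM (K : ℂ → ℂ) (C : ℝ) (W : ℂ) : ℂ := W * deriv (pp K C) W - NN C * pp K C W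

include hd hC hK hb hP in
theorem MM_exp (u : ℂ) : MM K C (exp u) = exp (NN C * u) * deriv K u := by
  have hp := pp_diff d hd c K C hC hK hb hP
  have h1 : HasDerivAt (fun u => pp K C (exp u)) (deriv (pp K C) (exp u) * exp u) u :=
    (hp (exp u)).hasDerivAt.comp u (Complex.hasDerivAt_exp u)
  have h2 : HasDerivAt (fun u => exp (NN C * u) * K u)
      (exp (NN C * u) * NN C * K u + exp (NN C * u) * deriv K u) u := by
    have h3 : HasDerivAt (fun u : ℂ => exp (NN C * u)) (exp (NN C * u) * NN C) u := by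
      have h4 : HasDerivAt (fun u : ℂ => (NN C : ℂ) * u) (NN C) u := by
        simpa using (hasDerivAt_id u).const_mul (NN C : ℂ)
      exact h4.cexp
    exact h3.mul (hK u).hasDerivAt
  have h3 : (fun u => pp K C (exp u)) = fun u => exp (NN C * u) * K u := by
    funext u
    exact pp_exp d hd c K C hK hP u
  rw [h3] at h1
  have h4 := h1.unique h2
  rw [MM, pp_exp d hd c K C hK hP u]
  linear_combination h4

include hd hC hK hb hP in
theorem MM_an : AnalyticOnNhd ℂ (MM K C) univ := by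
  intro W _
  have hp := pp_diff d hd c K C hC hK hb hP
  have h1 : AnalyticAt ℂ (pp K C) W := hp.analyticAt W
  have h2 : AnalyticAt ℂ (deriv (pp K C)) W := h1.deriv
  have h3 : AnalyticAt ℂ (fun W : ℂ => W) W := analyticAt_id
  exact (h3.mul h2).sub (analyticAt_const.mul h1)

include hd hK hP in
theorem deriv_ne (u : ℂ) (hu : 101 ≤ u.re) : deriv K u ≠ 0 := by
  have h1 : ‖deriv (fun z => K z - exp z) u‖ ≤ 3 / 1 := by
    apply Complex.norm_deriv_le_of_forall_mem_sphere_norm_le one_pos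
    · have : Differentiable ℂ (fun z => K z - exp z) := hK.sub Complex.differentiable_exp
      exact this.diffContOnCl
    · intro z hz
      apply near d hd c K hK hP
      have h2 : ‖z - u‖ = 1 := by simpa [dist_eq_norm] using hz
      have h3 : |(z - u).re| ≤ ‖z - u‖ := Complex.abs_re_le_norm _
      rw [h2, abs_le, Complex.sub_re] at h3
      linarith [h3.1]
  have h2 : deriv (fun z => K z - exp z) u = deriv K u - exp u := by
    rw [deriv_fun_sub (hK u) Complex.differentiable_exp.differentiableAt, Complex.deriv_exp]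
  intro h0
  rw [h2, h0, zero_sub, norm_neg, Complex.norm_exp] at h1
  linarith [Real.add_one_le_exp u.re]

include hd hC hK hb hP in
theorem MM_ne (W : ℂ) (hW : Real.exp 101 ≤ ‖W‖) : MM K C W ≠ 0 := by
  have h0 : W ≠ 0 := by
    intro h
    rw [h, norm_zero] at hW
    linarith [Real.exp_pos 101]
  have h1 : exp (log W) = W := Complex.exp_log h0
  rw [← h1, MM_exp d hd c K C hC hK hb hP]
  apply mul_ne_zero (Complex.exp_ne_zero _)
  apply deriv_ne d hd c K hK hP
  rw [Complex.log_re, ← Real.log_exp 101]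
  exact Real.log_le_log (Real.exp_pos _) hW

include hd hK hP in
theorem deriv_zero (v : ℂ) (hv : K v = 0) (n : ℕ) : deriv K ((d : ℂ) ^ (n + 1) * v) = 0 := by
  have hd0 : (d : ℂ) ≠ 0 := by
    have : d ≠ 0 := by omega
    exact_mod_cast this
  have key : ∀ u : ℂ, deriv K (d * u) = K u ^ (d - 1) * deriv K u := by
    intro u
    have h1 : HasDerivAt (fun u : ℂ => K (d * u)) (deriv K (d * u) * d) u := by
      have h4 : HasDerivAt (fun u : ℂ => (d : ℂ) * u) d u := by
        simpa using (hasDerivAt_id u).const_mul (d : ℂ)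
      exact (hK (d * u)).hasDerivAt.comp u h4
    have h2 : HasDerivAt (fun u : ℂ => K u ^ d + c) (d * K u ^ (d - 1) * deriv K u) u :=
      ((hK u).hasDerivAt.pow d).add_const c
    have h3 : (fun u : ℂ => K (d * u)) = fun u : ℂ => K u ^ d + c := by
      funext u
      exact fe d hd c K hK hP u
    rw [h3] at h1
    have h4 := h1.unique h2
    apply mul_right_cancel₀ hd0
    linear_combination h4
  induction n with
  | zero =>
    rw [zero_add, pow_one, key, hv, zero_pow (by omega), zero_mul]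
  | succ n ih =>
    rw [pow_succ', mul_assoc, key, ih, mul_zero]

include hd hC hK hb hP in
theorem of_zero (v : ℂ) (hv : K v = 0) :
    ∃ m n : ℕ, m < n ∧ (fun z : ℂ => z ^ d + c)^[m] 0 = (fun z : ℂ => z ^ d + c)^[n] 0 := by
  set w : ℕ → ℂ := fun n => exp ((d : ℂ) ^ (n + 1) * v) with hw
  have hz : ∀ n, MM K C (w n) = 0 := by
    intro n
    rw [hw]
    simp only
    rw [MM_exp d hd c K C hC hK hb hP, deriv_zero d hd c K hK hP v hv n, mul_zero]
  have hin : ¬ Function.Injective w := by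
    intro hinj
    have h1 : (Set.range w).Infinite := Set.infinite_range_of_injective hinj
    have h2 : Set.range w ⊆ closedBall (0 : ℂ) (Real.exp 101) := by
      rintro _ ⟨n, rfl⟩
      rw [mem_closedBall, dist_zero_right]
      by_contra hcon
      push Not at hcon
      exact MM_ne d hd c K C hC hK hb hP (w n) hcon.le (hz n)
    obtain ⟨x, -, hx⟩ := h1.exists_accPt_of_subset_isCompact (isCompact_closedBall _ _) h2
    have h3 : ∃ᶠ z in 𝓝[≠] x, MM K C z = (fun _ : ℂ => (0 : ℂ)) z := by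
      have h4 := accPt_iff_frequently_nhdsNE.1 hx
      refine h4.mono ?_
      rintro _ ⟨n, rfl⟩
      exact hz n
    have h5 := (MM_an d hd c K C hC hK hb hP).eq_of_frequently_eq
      (fun z _ => analyticAt_const) h3
    have h6 := congrFun h5 ((Real.exp 101 : ℝ) : ℂ)
    refine MM_ne d hd c K C hC hK hb hP _ ?_ h6
    rw [Complex.norm_real, Real.norm_eq_abs, abs_of_pos (Real.exp_pos _)]
  have hex : ∃ m n : ℕ, m < n ∧ w m = w n := by
    rw [Function.Injective] at hin
    push Not at hin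
    obtain ⟨m, n, h1, h2⟩ := hin
    rcases lt_or_gt_of_ne h2 with h | h
    · exact ⟨m, n, h, h1⟩
    · exact ⟨n, m, h, h1.symm⟩
  obtain ⟨m, n, hmn, h⟩ := hex
  refine ⟨m + 1, n + 1, by omega, ?_⟩
  have h1 := KK d hd c K hK hP _ _ h
  rw [iter d hd c K hK hP, iter d hd c K hK hP, hv] at h1
  exact h1

include hd hC hK hb hP in
/-- if there are no zeros then `c = 0` -/
theorem of_no_zero (hz : ∀ v, K v ≠ 0) : c = 0 := by
  have hp := pp_diff d hd c K C hC hK hb hP
  have hpn : ∀ W : ℂ, W ≠ 0 → pp K C W ≠ 0 := fun W hW =>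
    mul_ne_zero (pow_ne_zero _ hW) (hz _)
  have hnz : ¬ ∀ᶠ z in 𝓝 (0 : ℂ), pp K C z = 0 := by
    intro h
    have h1 : ∀ᶠ z in 𝓝[≠] (0 : ℂ), pp K C z = 0 := h.filter_mono nhdsWithin_le_nhds
    have h2 : ∀ᶠ z in 𝓝[≠] (0 : ℂ), z ≠ 0 := self_mem_nhdsWithin
    obtain ⟨z, hz1, hz2⟩ := (h1.and h2).exists
    exact hpn z hz2 hz1
  obtain ⟨j, g, hg, hg0, hgp⟩ :=
    (hp.analyticAt 0).exists_eventuallyEq_pow_smul_nonzero_iff.2 hnz
  set q : ℂ → ℂ := fun W => if W = 0 then g 0 else pp K C W / W ^ j with hq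
  have hqn : ∀ W, q W ≠ 0 := by
    intro W
    rw [hq]
    simp only
    split_ifs with h
    · exact hg0
    · exact div_ne_zero (hpn W h) (pow_ne_zero _ h)
  have hqd : Differentiable ℂ q := by
    intro W
    by_cases hW : W = 0
    · rw [hW]
      apply hg.differentiableAt.congr_of_eventuallyEq
      filter_upwards [hgp] with V hV
      rw [hq]
      simp only
      split_ifs with h
      · rw [h]
      · rw [hV, sub_zero, smul_eq_mul, mul_div_cancel_left₀ _ (pow_ne_zero _ h)]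
    · have h1 : DifferentiableAt ℂ (fun V => pp K C V / V ^ j) W := by
        have := hp W
        exact this.div (by fun_prop) (pow_ne_zero _ hW)
      apply h1.congr_of_eventuallyEq
      filter_upwards [isOpen_ne.mem_nhds hW] with V hV
      rw [hq]
      simp only
      rw [if_neg hV]
  -- behaviour at infinity
  have hfar : ∀ W : ℂ, Real.exp 100 ≤ ‖W‖ → ‖LL K W - W‖ ≤ 3 := by
    intro W hW
    have h0 : W ≠ 0 := by
      intro h
      rw [h, norm_zero] at hW
      linarith [Real.exp_pos 100]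
    have h1 := near d hd c K hK hP (log W) (by
      rw [Complex.log_re, ← Real.log_exp 100]
      exact Real.log_le_log (Real.exp_pos _) hW)
    rw [Complex.exp_log h0] at h1
    exact h1
  have hfar' : ∀ᶠ W : ℂ in cocompact ℂ, Real.exp 100 ≤ ‖W‖ :=
    (tendsto_norm_cocompact_atTop (E := ℂ)).eventually_ge_atTop _
  have hinv : Tendsto (fun W : ℂ => 3 / ‖W‖) (cocompact ℂ) (𝓝 0) :=
    (tendsto_norm_cocompact_atTop (E := ℂ)).const_div_atTop 3
  have hL1 : Tendsto (fun W : ℂ => LL K W / W) (cocompact ℂ) (𝓝 1) := by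
    rw [tendsto_iff_norm_sub_tendsto_zero]
    refine squeeze_zero' (Eventually.of_forall fun _ => norm_nonneg _) ?_ hinv
    filter_upwards [hfar'] with W hW
    have hW0 : 0 < ‖W‖ := lt_of_lt_of_le (Real.exp_pos 100) hW
    have h0 : W ≠ 0 := norm_pos_iff.1 hW0
    have h1 : LL K W / W - 1 = (LL K W - W) / W := by
      field_simp
    rw [h1, norm_div]
    exact div_le_div_of_nonneg_right (hfar W hW) hW0.le
  have hWinv : Tendsto (fun W : ℂ => W⁻¹) (cocompact ℂ) (𝓝 0) := by
    rw [← Metric.cobounded_eq_cocompact]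
    exact tendsto_inv₀_cobounded
  rcases lt_trichotomy j (NN C + 1) with hj | hj | hj
  · -- `1 / q` tends to zero
    exfalso
    obtain ⟨i, hi⟩ : ∃ i, NN C = j + i := ⟨NN C - j, by omega⟩
    have h1 : Tendsto (fun W => (q W)⁻¹) (cocompact ℂ) (𝓝 0) := by
      have h2 : Tendsto (fun W : ℂ => (LL K W / W)⁻¹ * ((W⁻¹) ^ i * W⁻¹)) (cocompact ℂ)
          (𝓝 ((1 : ℂ)⁻¹ * (0 ^ i * 0))) :=
        (hL1.inv₀ one_ne_zero).mul ((hWinv.pow i).mul hWinv)
      rw [mul_zero, mul_zero] at h2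
      refine h2.congr' ?_
      filter_upwards [hfar'] with W hW
      have hW0 : 0 < ‖W‖ := lt_of_lt_of_le (Real.exp_pos 100) hW
      have h0 : W ≠ 0 := norm_pos_iff.1 hW0
      have hL0 : LL K W ≠ 0 := hz _
      rw [hq]
      simp only
      rw [if_neg h0, pp, hi, pow_add, inv_pow]
      field_simp
    have h2 := (hqd.inv hqn).apply_eq_of_tendsto_cocompact 0 h1
    exact inv_ne_zero (hqn 0) h2
  · -- `q` tends to one
    have h1 : Tendsto q (cocompact ℂ) (𝓝 1) := by
      refine hL1.congr' ?_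
      filter_upwards [hfar'] with W hW
      have hW0 : 0 < ‖W‖ := lt_of_lt_of_le (Real.exp_pos 100) hW
      have h0 : W ≠ 0 := norm_pos_iff.1 hW0
      rw [hq]
      simp only
      rw [if_neg h0, pp, hj, pow_succ]
      field_simp
    have h2 : ∀ W, q W = 1 := fun W => hqd.apply_eq_of_tendsto_cocompact W h1
    have h3 : ∀ u : ℂ, K u = exp u := by
      intro u
      have h4 := h2 (exp u)
      have h0 := Complex.exp_ne_zero u
      rw [hq] at h4
      simp only at h4
      rw [if_neg h0, pp, LL_exp d hd c K hK hP, hj, pow_succ, div_eq_one_iff_eq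
        (mul_ne_zero (pow_ne_zero _ h0) h0)] at h4
      exact mul_left_cancel₀ (pow_ne_zero _ h0) h4
    have h4 := fe d hd c K hK hP 0
    rw [h3, h3, mul_zero, Complex.exp_zero, one_pow] at h4
    linear_combination -h4
  · -- `q` tends to zero
    exfalso
    obtain ⟨i, hi⟩ : ∃ i, j = NN C + 1 + (i + 1) := ⟨j - (NN C + 1) - 1, by omega⟩
    have h1 : Tendsto q (cocompact ℂ) (𝓝 0) := by
      have h2 : Tendsto (fun W : ℂ => (LL K W / W) * ((W⁻¹) ^ i * W⁻¹)) (cocompact ℂ)
          (𝓝 (1 * (0 ^ i * 0))) :=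
        hL1.mul ((hWinv.pow i).mul hWinv)
      rw [mul_zero, mul_zero] at h2
      refine h2.congr' ?_
      filter_upwards [hfar'] with W hW
      have hW0 : 0 < ‖W‖ := lt_of_lt_of_le (Real.exp_pos 100) hW
      have h0 : W ≠ 0 := norm_pos_iff.1 hW0
      rw [hq]
      simp only
      rw [if_neg h0, pp, hi, pow_add, pow_succ, pow_succ, inv_pow]
      field_simp
    have h2 := hqd.apply_eq_of_tendsto_cocompact 0 h1
    exact hqn 0 h2

include hd hC hK hb hP in
theorem core :
    ∃ m n : ℕ, m < n ∧ (fun z : ℂ => z ^ d + c)^[m] 0 = (fun z : ℂ => z ^ d + c)^[n] 0 := by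
  by_cases h : ∃ v, K v = 0
  · obtain ⟨v, hv⟩ := h
    exact of_zero d hd c K C hC hK hb hP v hv
  · push Not at h
    have hc := of_no_zero d hd c K C hC hK hb hP h
    refine ⟨0, 1, one_pos, ?_⟩
    have hd0 : d ≠ 0 := by omega
    simp [hc, zero_pow hd0]

end core

theorem t : Pool.Agent.N673.TW.S_RIG := by
  intro d c ξ H C hd hξ hH hb hP
  set α : ℝ := arg ξ with hα
  have hexp : exp (α * I) = ξ := by
    have := Complex.norm_mul_exp_arg_mul_I ξ
    rw [hξ] at this
    simpa using this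
  have hα1 : |α| ≤ Real.pi := Complex.abs_arg_le_pi ξ
  have hpi := Real.pi_lt_four
  refine core d hd c (fun u => H (u - α * I)) (5 * |C|) (by positivity) (by fun_prop) ?_ ?_
  · intro u
    refine (hb _).trans (Real.exp_le_exp.2 ?_)
    have h1 : ‖u - α * I‖ ≤ ‖u‖ + 4 := by
      refine (norm_sub_le _ _).trans ?_
      have : ‖(α : ℂ) * I‖ = |α| := by simp
      rw [this]
      linarith
    have h2 : C ≤ |C| := le_abs_self C
    have h3 : 0 ≤ |C| := abs_nonneg C
    have h4 : 0 ≤ ‖u‖ := norm_nonneg _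
    have h5 : 0 ≤ 1 + ‖u - α * I‖ := by positivity
    calc C * (1 + ‖u - α * I‖) ≤ |C| * (1 + ‖u - α * I‖) := mul_le_mul_of_nonneg_right h2 h5
      _ ≤ |C| * (5 * (1 + ‖u‖)) := by
        apply mul_le_mul_of_nonneg_left _ h3
        linarith
      _ = 5 * |C| * (1 + ‖u‖) := by ring
  · intro k u hu hi
    have hre : (u - α * I).re = u.re := by simp
    have him : (u - α * I).im = u.im - α := by simp
    have h1 := hP k (u - α * I) (by rw [hre]; linarith) (by
      rw [hre, him]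
      rw [abs_le] at *
      constructor <;> linarith)
    have h2 : ξ ^ (d ^ k) * exp ((d : ℂ) ^ k * (u - α * I)) = exp ((d : ℂ) ^ k * u) := by
      rw [← hexp, ← Complex.exp_nat_mul, ← Complex.exp_add]
      congr 1
      push_cast
      ring
    rw [h2] at h1
    exact h1

end Pool.Agent.N673.TW.Rig
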