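import Pool.Agent.N673.TW.Stm2
import Pool.Agent.N673.TW.Rig

set_option autoImplicit false

/-!
# Project TW (helper673), task LRIG (helper169): local rigidity
-/

open Complex Filter Topology Metric Set

namespace Pool.Agent.N673.TW.Lrig

open Pool.Agent.N673.TW

/-- `K` is an inverse Böttcher map in the logarithmic coordinate in the disc of radius `R` -/
def Pr (d : ℕ) (c : ℂ) (R : ℝ) (K : ℂ → ℂ) : Prop :=
  DifferentiableOn ℂ K (ball 0 R) ∧ ∀ (k : ℕ) (U : ℂ), U ∈ ball (0 : ℂ) R → 0 < U.re →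
    ‖(fun z : ℂ => z ^ d + c)^[k] (K U) - exp ((d : ℂ) ^ k * U)‖ ≤ 3

theorem exists_K {d : ℕ} {c ξ b : ℂ} {κ r : ℝ} {Q : ℂ → ℂ} (hd : 2 ≤ d) (hξ : ‖ξ‖ = 1)
    (hκ : 0 < κ) (hb : ‖b‖ < r) (hQ : DifferentiableOn ℂ Q (ball b r))
    (hP : ∀ (k : ℕ) (u : ℂ), u ∈ ball b r → 0 < u.re →
      ‖(fun z : ℂ => z ^ d + c)^[k] (Q u) - ξ ^ (d ^ k) * exp ((d : ℂ) ^ k * κ * u)‖ ≤ 3)
    (R : ℝ) : ∃ K, Pr d c R K := by
  have hd1 : (1 : ℝ) < d := by exact_mod_cast (by omega : 1 < d)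
  have hd0 : (0 : ℝ) < d := by linarith
  have hs : 0 < r - ‖b‖ := by linarith
  obtain ⟨m, hm⟩ := pow_unbounded_of_one_lt ((R + 4) / (κ * (r - ‖b‖))) hd1
  rw [div_lt_iff₀ (mul_pos hκ hs)] at hm
  obtain ⟨κ', hκ'⟩ : ∃ κ' : ℝ, κ' = κ * (d : ℝ) ^ m := ⟨_, rfl⟩
  have hκ'0 : 0 < κ' := by
    rw [hκ']
    positivity
  obtain ⟨α, hα⟩ : ∃ α : ℝ, α = arg (ξ ^ (d ^ m)) := ⟨_, rfl⟩
  have hexp : exp (α * I) = ξ ^ (d ^ m) := by
    have h := Complex.norm_mul_exp_arg_mul_I (ξ ^ (d ^ m))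
    rw [norm_pow, hξ, one_pow, ← hα] at h
    simpa using h
  have hα1 : |α| ≤ Real.pi := by
    rw [hα]
    exact Complex.abs_arg_le_pi _
  have hpi := Real.pi_lt_four
  have hmem : ∀ U ∈ ball (0 : ℂ) R, (U - α * I) / κ' ∈ ball b r := by
    intro U hU
    rw [mem_ball_zero_iff] at hU
    rw [mem_ball, dist_eq_norm]
    have h1 : ‖(U - α * I) / (κ' : ℂ)‖ < r - ‖b‖ := by
      rw [norm_div, Complex.norm_real, Real.norm_of_nonneg hκ'0.le, div_lt_iff₀ hκ'0]
      have h2 : ‖U - α * I‖ ≤ ‖U‖ + |α| := by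
        refine (norm_sub_le _ _).trans ?_
        have : ‖(α : ℂ) * I‖ = |α| := by simp
        rw [this]
      have h3 : (r - ‖b‖) * κ' = (d : ℝ) ^ m * (κ * (r - ‖b‖)) := by
        rw [hκ']
        ring
      linarith
    have h2 := norm_sub_le ((U - α * I) / (κ' : ℂ)) b
    linarith
  refine ⟨fun U => (fun z : ℂ => z ^ d + c)^[m] (Q ((U - α * I) / κ')), ?_, ?_⟩
  · have hf : Differentiable ℂ (fun z : ℂ => z ^ d + c) := by fun_prop
    have h0 : DifferentiableOn ℂ (fun U : ℂ => (U - α * I) / κ') (ball 0 R) := by fun_prop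
    have h1 : DifferentiableOn ℂ (fun U : ℂ => Q ((U - α * I) / κ')) (ball 0 R) :=
      hQ.comp h0 hmem
    exact (hf.iterate m).comp_differentiableOn h1
  · intro k U hU hre
    obtain ⟨v, hv⟩ : ∃ v : ℂ, v = (U - α * I) / κ' := ⟨_, rfl⟩
    have hκc : (κ' : ℂ) ≠ 0 := by exact_mod_cast hκ'0.ne'
    have hvre : 0 < v.re := by
      have h1 : v.re = U.re / κ' := by
        rw [hv, Complex.div_ofReal_re]
        simp
      rw [h1]
      positivity
    have h1 := hP (k + m) v (by rw [hv]; exact hmem U hU) hvre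
    rw [Function.iterate_add_apply] at h1
    have h2 : ξ ^ (d ^ (k + m)) * exp ((d : ℂ) ^ (k + m) * κ * v) = exp ((d : ℂ) ^ k * U) := by
      have e1 : ξ ^ (d ^ (k + m)) = exp ((d : ℂ) ^ k * (α * I)) := by
        rw [pow_add d k m, mul_comm, pow_mul, ← hexp, ← Complex.exp_nat_mul]
        push_cast
        rfl
      have e2 : (d : ℂ) ^ (k + m) * κ * v = (d : ℂ) ^ k * (U - α * I) := by
        have h3 : (κ' : ℂ) * v = U - α * I := by
          rw [hv]
          field_simp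
        rw [← h3, hκ']
        push_cast
        ring
      rw [e1, e2, ← Complex.exp_add]
      congr 1
      ring
    rw [h2, hv] at h1
    exact h1

theorem consist {d : ℕ} {c : ℂ} (hd : 2 ≤ d) {R R' : ℝ} {K K' : ℂ → ℂ} (h : Pr d c R K)
    (h' : Pr d c R' K') (hR : 200 * (d : ℝ) + 10 ≤ R) (hR' : 200 * (d : ℝ) + 10 ≤ R') (U : ℂ)
    (hU : ‖U‖ < R) (hU' : ‖U‖ < R') : K U = K' U := by
  have hd2 : (2 : ℝ) ≤ d := by exact_mod_cast hd
  have hsub : ball (0 : ℂ) (min R R') ⊆ ball 0 R := ball_subset_ball (min_le_left _ _)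
  have hsub' : ball (0 : ℂ) (min R R') ⊆ ball 0 R' := ball_subset_ball (min_le_right _ _)
  have hA : AnalyticOnNhd ℂ K (ball 0 (min R R')) := (h.1.mono hsub).analyticOnNhd isOpen_ball
  have hA' : AnalyticOnNhd ℂ K' (ball 0 (min R R')) :=
    (h'.1.mono hsub').analyticOnNhd isOpen_ball
  have hz : ((200 * (d : ℝ) + 5 : ℝ) : ℂ) ∈ ball (0 : ℂ) (min R R') := by
    rw [mem_ball_zero_iff, Complex.norm_real, Real.norm_of_nonneg (by positivity)]
    exact lt_min (by linarith) (by linarith)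
  have hev : K =ᶠ[𝓝 ((200 * (d : ℝ) + 5 : ℝ) : ℂ)] K' := by
    have h1 : ∀ᶠ u : ℂ in 𝓝 ((200 * (d : ℝ) + 5 : ℝ) : ℂ), 200 * (d : ℝ) < u.re := by
      apply (Complex.continuous_re.tendsto _).eventually_const_lt
      rw [Complex.ofReal_re]
      linarith
    filter_upwards [h1, isOpen_ball.mem_nhds hz] with u hu hub
    apply Rig.uniq d hd c
    · intro k
      have a1 := h.2 k u (hsub hub) (by linarith)
      have a2 := h'.2 k u (hsub' hub) (by linarith)
      have a3 := norm_sub_le ((fun z : ℂ => z ^ d + c)^[k] (K u) - exp ((d : ℂ) ^ k * u))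
        ((fun z : ℂ => z ^ d + c)^[k] (K' u) - exp ((d : ℂ) ^ k * u))
      rw [sub_sub_sub_cancel_right] at a3
      linarith
    · intro k
      have a1 := h.2 k u (hsub hub) (by linarith)
      have a3 := Rig.big d hd k u hu.le
      have a4 := norm_sub_le ((fun z : ℂ => z ^ d + c)^[k] (K u))
        ((fun z : ℂ => z ^ d + c)^[k] (K u) - exp ((d : ℂ) ^ k * u))
      rw [sub_sub_cancel] at a4
      linarith
  refine hA.eqOn_of_preconnected_of_eventuallyEq hA' (convex_ball _ _).isPreconnected hz hev ?_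
  rw [mem_ball_zero_iff]
  exact lt_min hU hU'

theorem growth {d : ℕ} (hd : 2 ≤ d) {c : ℂ} {K : ℂ → ℂ} (hK : Continuous K)
    (hfe : ∀ u, K (d * u) = K u ^ d + c) :
    ∃ C : ℝ, ∀ u : ℂ, ‖K u‖ ≤ Real.exp (C * (1 + ‖u‖)) := by
  have hd2 : (2 : ℝ) ≤ d := by exact_mod_cast hd
  have hd0 : (0 : ℝ) < d := by linarith
  have hdc : (d : ℂ) ≠ 0 := by
    have : d ≠ 0 := by omega
    exact_mod_cast this
  obtain ⟨M, hM⟩ := (isCompact_closedBall (0 : ℂ) 1).exists_bound_of_continuousOn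
    hK.continuousOn
  obtain ⟨a, ha⟩ : ∃ a : ℝ, a = 1 + ‖c‖ := ⟨_, rfl⟩
  have hc0 : 0 ≤ ‖c‖ := norm_nonneg c
  have ha1 : 1 ≤ a := by linarith
  obtain ⟨Z, hZ⟩ : ∃ Z : ℝ, Z = a * max M 1 := ⟨_, rfl⟩
  have hZa : a ≤ Z := by
    rw [hZ]
    exact le_mul_of_one_le_right (by linarith) (le_max_right _ _)
  have hZ1 : 1 ≤ Z := ha1.trans hZa
  have key : ∀ (n : ℕ) (u : ℂ), ‖u‖ ≤ (d : ℝ) ^ n → a * ‖K u‖ ≤ Z ^ (d ^ n) := by
    intro n
    induction n with
    | zero =>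
      intro u hu
      rw [pow_zero] at hu
      rw [pow_zero, pow_one, hZ]
      exact mul_le_mul_of_nonneg_left ((hM u (by rw [mem_closedBall_zero_iff]; exact hu)).trans
        (le_max_left _ _)) (by linarith)
    | succ n ih =>
      intro u hu
      have h1 : ‖u / d‖ ≤ (d : ℝ) ^ n := by
        rw [norm_div, Complex.norm_natCast, div_le_iff₀ hd0, ← pow_succ]
        exact hu
      have h2 := ih (u / d) h1
      obtain ⟨W, hW⟩ : ∃ W : ℝ, W = Z ^ (d ^ n) := ⟨_, rfl⟩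
      rw [← hW] at h2
      have hWa : a ≤ W := by
        rw [hW]
        exact hZa.trans (le_self_pow₀ hZ1 (pow_ne_zero _ (by omega)))
      have h3 : K u = K (u / d) ^ d + c := by
        have := hfe (u / d)
        rwa [mul_div_cancel₀ _ hdc] at this
      have h4 : ‖K u‖ ≤ ‖K (u / d)‖ ^ d + ‖c‖ := by
        rw [h3]
        refine (norm_add_le _ _).trans ?_
        rw [norm_pow]
      have h5 : a * ‖K (u / d)‖ ^ d ≤ W ^ d := by
        have e1 : (a * ‖K (u / d)‖) ^ d ≤ W ^ d :=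
          pow_le_pow_left₀ (by positivity) h2 d
        rw [mul_pow] at e1
        have e2 : a ≤ a ^ d := le_self_pow₀ ha1 (by omega)
        exact (mul_le_mul_of_nonneg_right e2 (by positivity)).trans e1
      obtain ⟨x, hx⟩ : ∃ x : ℝ, x = ‖K (u / d)‖ := ⟨_, rfl⟩
      have hx0 : 0 ≤ x := by
        rw [hx]
        exact norm_nonneg _
      rw [← hx] at h2 h4
      have h6 : a ^ d * x ^ d ≤ W ^ d := by
        rw [← mul_pow]
        exact pow_le_pow_left₀ (by positivity) h2 d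
      have h7 : a ^ d ≤ W ^ d := pow_le_pow_left₀ (by linarith) hWa d
      have h8 : a ^ 2 ≤ a ^ d := pow_le_pow_right₀ ha1 hd
      -- `a (x ^ d + ‖c‖) ≤ W ^ d`
      rw [pow_succ, pow_mul, ← hW]
      have h9 : a * (x ^ d + ‖c‖) ≤ W ^ d := by
        have e0 : ‖c‖ = a - 1 := by linarith
        rw [e0]
        have hp : 0 ≤ x ^ d := by positivity
        have ea : a * x ^ d ≤ a ^ 2 * (x ^ d) / a := by
          rw [le_div_iff₀ (by linarith)]
          nlinarith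
        have eb : a ^ 2 * x ^ d ≤ W ^ d := (mul_le_mul_of_nonneg_right h8 hp).trans h6
        have ec : a ^ 2 ≤ W ^ d := h8.trans h7
        -- a x^d + a (a-1) ≤ W^d / a + W^d (a-1)/a = W^d
        have ed : a * (a * (x ^ d + (a - 1))) ≤ a * W ^ d := by
          have : a * (a * (x ^ d + (a - 1))) = a ^ 2 * x ^ d + (a - 1) * a ^ 2 := by ring
          rw [this]
          have h10 : (a - 1) * a ^ 2 ≤ (a - 1) * W ^ d :=
            mul_le_mul_of_nonneg_left ec (by linarith)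
          linarith
        exact le_of_mul_le_mul_left ed (by linarith)
      exact (mul_le_mul_of_nonneg_left h4 (by linarith)).trans h9
  refine ⟨d * Real.log Z, fun u => ?_⟩
  obtain ⟨n, hn1, hn2⟩ := exists_nat_pow_near (x := 1 + ‖u‖) (y := (d : ℝ))
    (by linarith [norm_nonneg u]) (by linarith)
  have h1 := key (n + 1) u (by linarith)
  have h2 : ‖K u‖ ≤ a * ‖K u‖ := le_mul_of_one_le_left (norm_nonneg _) ha1
  have hlog : 0 ≤ Real.log Z := Real.log_nonneg hZ1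
  have h3 : Z ^ (d ^ (n + 1)) = Real.exp (((d : ℝ) ^ (n + 1)) * Real.log Z) := by
    have : ((d : ℝ) ^ (n + 1)) = ((d ^ (n + 1) : ℕ) : ℝ) := by push_cast; rfl
    rw [this, Real.exp_nat_mul, Real.exp_log (by linarith)]
  rw [h3] at h1
  refine h2.trans (h1.trans (Real.exp_le_exp.2 ?_))
  have h4 : (d : ℝ) ^ (n + 1) ≤ d * (1 + ‖u‖) := by
    rw [pow_succ']
    exact mul_le_mul_of_nonneg_left hn1 hd0.le
  calc (d : ℝ) ^ (n + 1) * Real.log Z ≤ d * (1 + ‖u‖) * Real.log Z :=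
        mul_le_mul_of_nonneg_right h4 hlog
    _ = d * Real.log Z * (1 + ‖u‖) := by ring

theorem t : Pool.Agent.N673.TW.S_LRIG := by
  intro d c ξ b κ r Q hd hξ hκ hb hQ hP
  have hd2 : (2 : ℝ) ≤ d := by exact_mod_cast hd
  have hex : ∀ R : ℝ, ∃ K, Pr d c R K := exists_K hd hξ hκ hb hQ hP
  choose KK hKK using hex
  obtain ⟨R0, hR0⟩ : ∃ R0 : ℝ, R0 = 200 * (d : ℝ) + 10 := ⟨_, rfl⟩
  obtain ⟨E, hE⟩ : ∃ E : ℂ → ℂ, E = fun U => KK (R0 + ‖U‖ + 1) U := ⟨_, rfl⟩
  have hR0p : 0 < R0 := by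
    rw [hR0]
    positivity
  have hEd : Differentiable ℂ E := by
    intro U0
    have h1 : DifferentiableAt ℂ (KK (R0 + ‖U0‖ + 3)) U0 :=
      (hKK (R0 + ‖U0‖ + 3)).1.differentiableAt (isOpen_ball.mem_nhds (by
        rw [mem_ball_zero_iff]
        linarith))
    refine h1.congr_of_eventuallyEq ?_
    filter_upwards [ball_mem_nhds U0 one_pos] with U hU
    rw [mem_ball, dist_eq_norm] at hU
    have h2 : ‖U‖ < ‖U0‖ + 1 := by
      have h3 := norm_sub_norm_le U U0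
      linarith
    have hn := norm_nonneg U
    have hn0 := norm_nonneg U0
    rw [hE]
    exact consist hd (hKK _) (hKK _) (by linarith) (by linarith) U (by linarith) (by linarith)
  have hEp : ∀ (k : ℕ) (U : ℂ), 0 < U.re →
      ‖(fun z : ℂ => z ^ d + c)^[k] (E U) - exp ((d : ℂ) ^ k * U)‖ ≤ 3 := by
    intro k U hU
    rw [hE]
    exact (hKK (R0 + ‖U‖ + 1)).2 k U (by rw [mem_ball_zero_iff]; linarith) hU
  have hfe : ∀ u : ℂ, E (d * u) = E u ^ d + c :=
    Rig.fe d hd c E hEd (fun k u hu _ => hEp k u (by linarith))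
  obtain ⟨C, hC⟩ := growth hd hEd.continuous hfe
  refine Rig.t d c 1 E C hd (by simp) hEd hC ?_
  intro k u hu _
  rw [one_pow, one_mul]
  exact hEp k u (by linarith)

end Pool.Agent.N673.TW.Lrig
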