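import Pool.Agent.N673.TW.Stm2
import Pool.Agent.Y272.TY.LilB
import Pool.Agent.Y287.TY.Arc

set_option autoImplicit false
set_option maxHeartbeats 400000

/-!
# TW/UPL: the upper law of the iterated logarithm for Bloch functions (helper322)
-/

open Complex Filter Topology Metric Set MeasureTheory

namespace Pool.Agent.N673.TW.Upl

open Pool.Agent.Y430.TY (lm)

/-- the asymptotic comparison -/
theorem lm_asymp : ∀ᶠ j : ℕ in atTop,
    lm (Nat.clog 2 j) ≤ 19 * √(j * Real.log (Real.log j)) := by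
  have hlog2' : 1 / 2 < Real.log 2 := by have := Real.log_two_gt_d9; linarith
  have hlog2'' : Real.log 2 < 7 / 10 := by have := Real.log_two_lt_d9; linarith
  have t1 : Tendsto (fun l : ℕ => Real.log (l : ℝ)) atTop atTop :=
    Real.tendsto_log_atTop.comp tendsto_natCast_atTop_atTop
  have t2 : Tendsto (fun l : ℕ => Real.log (Real.log (l : ℝ))) atTop atTop :=
    Real.tendsto_log_atTop.comp t1
  filter_upwards [eventually_ge_atTop 4, t1.eventually_ge_atTop 1,
    t2.eventually_ge_atTop (2 * Real.log 4)] with j hj hl1 hl2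
  have hlog4 : 0 < Real.log 4 := Real.log_pos (by norm_num)
  have hj0 : (0 : ℝ) < j := by exact_mod_cast (by omega : 0 < j)
  obtain ⟨k, hk⟩ : ∃ k, k = Nat.clog 2 j := ⟨_, rfl⟩
  rw [← hk]
  have hk1 : 1 ≤ k := by rw [hk]; exact Nat.clog_pos (by norm_num) (by omega)
  have c1 : (2 : ℝ) ^ k ≤ 2 * j := by
    have h2 := Nat.pow_pred_clog_lt_self (b := 2) (by norm_num) (by omega : 1 < j)
    rw [← hk] at h2
    have h4 : 2 ^ k = 2 * 2 ^ k.pred := by
      rw [← pow_succ']
      congr 1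
      exact (Nat.succ_pred_eq_of_pos hk1).symm
    have h5 : 2 ^ k ≤ 2 * j := by omega
    exact_mod_cast h5
  have c3 : (k : ℝ) ≤ 4 * Real.log j := by
    have h1 := Real.log_le_log (by positivity) c1
    rw [Real.log_pow, Real.log_mul (by norm_num) hj0.ne'] at h1
    have h4 : (k : ℝ) * (1 / 2) ≤ (k : ℝ) * Real.log 2 := by gcongr
    linarith
  have c4 : Real.log k ≤ 3 / 2 * Real.log (Real.log j) := by
    have hk0 : (0 : ℝ) < k := by exact_mod_cast hk1
    have h1 := Real.log_le_log hk0 c3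
    rw [Real.log_mul (by positivity) (by positivity)] at h1
    linarith
  have hll : 0 ≤ Real.log (Real.log j) := by linarith
  have hlk : 0 ≤ Real.log k := Real.log_nonneg (by exact_mod_cast hk1)
  have e : 19 * √(j * Real.log (Real.log j)) = √(361 * (j * Real.log (Real.log j))) := by
    rw [Real.sqrt_mul (by norm_num : (0 : ℝ) ≤ 361), show (361 : ℝ) = 19 ^ 2 by norm_num,
      Real.sqrt_sq (by norm_num)]
  rw [e]
  unfold lm
  apply Real.sqrt_le_sqrt
  calc 160 * 2 ^ k * Real.log 2 * Real.log k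
      ≤ 160 * (2 * j) * (7 / 10) * (3 / 2 * Real.log (Real.log j)) := by gcongr
    _ = 336 * (j * Real.log (Real.log j)) := by ring
    _ ≤ 361 * (j * Real.log (Real.log j)) := by
      have : 0 ≤ j * Real.log (Real.log j) := by positivity
      linarith

theorem const_asymp (C : ℝ) : ∀ᶠ j : ℕ in atTop, C ≤ √(j * Real.log (Real.log j)) := by
  have t0 : Tendsto (fun l : ℕ => (l : ℝ)) atTop atTop := tendsto_natCast_atTop_atTop
  have t1 : Tendsto (fun l : ℕ => Real.log (l : ℝ)) atTop atTop :=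
    Real.tendsto_log_atTop.comp tendsto_natCast_atTop_atTop
  have t2 : Tendsto (fun l : ℕ => Real.log (Real.log (l : ℝ))) atTop atTop :=
    Real.tendsto_log_atTop.comp t1
  filter_upwards [t0.eventually_ge_atTop (C ^ 2), t2.eventually_ge_atTop 1] with l hl hl2
  have h1 : C ^ 2 ≤ l * Real.log (Real.log l) := by
    have h2 : (0 : ℝ) ≤ l := Nat.cast_nonneg l
    calc C ^ 2 ≤ l * 1 := by linarith
      _ ≤ l * Real.log (Real.log l) := by gcongr
  have h2 : |C| ≤ √(l * Real.log (Real.log l)) := Real.abs_le_sqrt h1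
  exact (le_abs_self C).trans h2

theorem clog_tendsto (K : ℕ) : ∀ᶠ j : ℕ in atTop, K ≤ Nat.clog 2 j := by
  filter_upwards [eventually_ge_atTop (2 ^ K)] with j hj
  have h4 := Nat.le_pow_clog (b := 2) (by norm_num) j
  have h5 : 2 ^ K ≤ 2 ^ Nat.clog 2 j := hj.trans h4
  exact (Nat.pow_le_pow_iff_right (by norm_num)).1 h5

theorem t : Pool.Agent.N673.TW.S_UPL := by
  intro H hB
  obtain ⟨C, hC0, hArc⟩ := Pool.Agent.Y287.TY.Arc.t
  set G : ℂ → ℂ := fun w => H w - H 0 with hG
  have hGd : DifferentiableOn ℂ G (ball 0 1) := hB.1.sub_const _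
  have hGB : ∀ w ∈ ball (0 : ℂ) 1, ‖deriv G w‖ * (1 - ‖w‖) ≤ 6 := by
    intro w hw
    have : deriv G w = deriv H w := by
      rw [hG]
      exact deriv_sub_const _
    rw [this]
    exact hB.2 w hw
  have hg := Pool.Agent.Y272.TY.LilB.ae_good Pool.Agent.Y941.TY.dyad2 (hArc G hGd hGB) hGd
    (by simp [hG]) hGB
  filter_upwards [hg] with θ hθ
  obtain ⟨K, hK⟩ := hθ
  filter_upwards [lm_asymp, const_asymp (C + ‖H 0‖), clog_tendsto K] with j h1 h2 h3
  have h4 := hK _ h3 j (Nat.le_pow_clog (by norm_num) _)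
  have h5 : ‖H (pt (rj j) θ)‖ ≤ ‖G (pt (rj j) θ)‖ + ‖H 0‖ := by
    have : H (pt (rj j) θ) = G (pt (rj j) θ) + H 0 := by rw [hG]; ring
    rw [this]
    exact norm_add_le _ _
  have h6 : ‖G (pt (rj j) θ)‖ ≤ lm (Nat.clog 2 j) + C := h4
  linarith

end Pool.Agent.N673.TW.Upl
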