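import Pool.Agent.N673.TW.BM5
import Pool.Agent.N673.TW.Comb
import Pool.Agent.N673.TW.Lrig
import Pool.Agent.N673.TW.Upl

set_option autoImplicit false

/-!
# Local blow-up, part 6: the levels without flatness have a positive lower density
-/

open Complex Filter Topology Metric Set MeasureTheory N62a1eb23

namespace Pool.Agent.N673.TW.BM

open Pool.Agent.H712R2 Pool.Agent.H713R2 Pool.Agent.Y272.TY Pool.Agent.W677.Mar
open Pool.Agent.N673.TW.BL

variable {d : ℕ} {β H : ℂ → ℂ}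

theorem loglog_small : Tendsto (fun j : ℕ => √((j : ℝ) * Real.log (Real.log j)) / j) atTop (𝓝 0) := by
  have h1 : Tendsto (fun x : ℝ => Real.log (Real.log x) / x) atTop (𝓝 0) := by
    have h2 : Tendsto (fun x : ℝ => Real.log x / x) atTop (𝓝 0) := by
      simpa using Real.isLittleO_log_id_atTop.tendsto_div_nhds_zero
    refine squeeze_zero' (g := fun x : ℝ => Real.log x / x) ?_ ?_ h2
    · filter_upwards [eventually_ge_atTop (Real.exp 1)] with x hx
      have hx0 : 0 < x := (Real.exp_pos 1).trans_le hx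
      have h3 : 1 ≤ Real.log x := by rwa [Real.le_log_iff_exp_le hx0]
      have h4 : 0 ≤ Real.log (Real.log x) := Real.log_nonneg h3
      positivity
    · filter_upwards [eventually_ge_atTop (Real.exp 1)] with x hx
      have hx0 : 0 < x := (Real.exp_pos 1).trans_le hx
      have h3 : 1 ≤ Real.log x := by rwa [Real.le_log_iff_exp_le hx0]
      have h4 := Real.log_le_sub_one_of_pos (show 0 < Real.log x by linarith)
      apply div_le_div_of_nonneg_right _ hx0.le
      linarith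
  have h5 : Tendsto (fun j : ℕ => √(Real.log (Real.log (j : ℝ)) / (j : ℝ))) atTop (𝓝 0) := by
    have h6 := (Real.continuous_sqrt.tendsto 0).comp (h1.comp tendsto_natCast_atTop_atTop)
    rw [Real.sqrt_zero] at h6
    exact h6
  refine h5.congr' ?_
  filter_upwards [eventually_ge_atTop 1] with j hj
  have hj0 : (0 : ℝ) < j := by exact_mod_cast hj
  have h7 : Real.log (Real.log (j : ℝ)) / (j : ℝ) =
      ((j : ℝ) * Real.log (Real.log j)) / (j : ℝ) ^ 2 := by field_simp
  rw [h7, Real.sqrt_div' _ (by positivity), Real.sqrt_sq hj0.le]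

theorem Lm_tendsto {θ : ℝ} (h : ∀ᶠ j : ℕ in atTop,
    ‖H (pt (rj j) θ)‖ ≤ 20 * √(j * Real.log (Real.log j))) :
    Tendsto (fun j : ℕ => Lm H θ j / j) atTop (𝓝 (-1)) := by
  have h1 : Tendsto (fun j : ℕ => (H (pt (rj j) θ)).re / Real.log 2 / j) atTop (𝓝 0) := by
    have h2 := loglog_small.const_mul (20 / Real.log 2)
    rw [mul_zero] at h2
    apply squeeze_zero_norm' _ h2
    filter_upwards [h, eventually_ge_atTop 1] with j hj hj1
    have hj0 : (0 : ℝ) < j := by exact_mod_cast hj1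
    rw [norm_div, norm_div, Real.norm_eq_abs, Real.norm_of_nonneg log2_pos.le,
      Real.norm_of_nonneg hj0.le]
    have h3 := (Complex.abs_re_le_norm _).trans hj
    have h4 := log2_pos
    calc |(H (pt (rj j) θ)).re| / Real.log 2 / j
        ≤ (20 * √(j * Real.log (Real.log j))) / Real.log 2 / j := by gcongr
      _ = 20 / Real.log 2 * (√(j * Real.log (Real.log j)) / j) := by ring
  have h2 := h1.sub_const 1
  rw [zero_sub] at h2
  refine h2.congr' ?_
  filter_upwards [eventually_ge_atTop 1] with j hj1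
  have hj0 : (0 : ℝ) < j := by exact_mod_cast hj1
  unfold Lm
  field_simp

theorem lam_tendsto {θ : ℝ} (h : Tendsto (fun j : ℕ => Lm H θ j / j) atTop (𝓝 (-1))) :
    Tendsto (fun j : ℕ => lam H θ j) atTop (𝓝 0) := by
  have h1 : ∀ᶠ j : ℕ in atTop, lam H θ j ≤ (3 / 4 : ℝ) ^ j := by
    filter_upwards [h.eventually_le_const (show (-1 : ℝ) < -1 / 2 by norm_num),
      eventually_ge_atTop 1] with j hj hj1
    have hj0 : (0 : ℝ) < j := by exact_mod_cast hj1
    rw [div_le_iff₀ hj0] at hj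
    rw [← two_rpow_Lm]
    have h2 : (2 : ℝ) ^ (Lm H θ j) ≤ 2 ^ (-1 / 2 * (j : ℝ)) :=
      Real.rpow_le_rpow_of_exponent_le (by norm_num) hj
    refine h2.trans ?_
    rw [Real.rpow_mul (by norm_num), Real.rpow_natCast]
    apply pow_le_pow_left₀ (by positivity)
    rw [show (-1 / 2 : ℝ) = -(1 / 2) by ring, Real.rpow_neg (by norm_num), ← Real.sqrt_eq_rpow]
    rw [inv_le_comm₀ (by positivity) (by norm_num)]
    apply Real.le_sqrt_of_sq_le
    norm_num
  exact squeeze_zero' (Eventually.of_forall fun j => (lam_pos H θ j).le) h1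
    (tendsto_pow_atTop_nhds_zero_of_lt_one (by norm_num) (by norm_num))

/-- the levels without flatness have a positive lower density, at a single angle -/
theorem nf_density_at (hd : 2 ≤ d) (hβ : IsBeta d β) (S : Sg β H) {θ : ℝ} {c0 : ℂ}
    (hM : ∀ k, ‖P d k c0‖ ≤ 2)
    (hint : interior {z : ℂ | ∃ B : ℝ, ∀ k, ‖(fun z : ℂ => z ^ d + c0)^[k] z‖ ≤ B} = ∅)
    (hpre : ∀ m n : ℕ, m < n → P d m c0 ≠ P d n c0)
    (hc : Tendsto (fun r : ℝ => cc β (pt r θ)) (𝓝[<] 1) (𝓝 c0))
    (hLm : Tendsto (fun j : ℕ => Lm H θ j / j) atTop (𝓝 (-1))) :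
    ∃ ε δ : ℝ, 0 < ε ∧ 0 < δ ∧ ∀ᶠ N : ℕ in atTop, δ * N ≤ cnt {j | NF ε H θ j} N := by
  by_contra hcon
  push Not at hcon
  have hK0 := K0_large
  obtain ⟨κ, hκ⟩ : ∃ κ : ℝ, κ = Real.logb 2 (2 * K0) := ⟨_, rfl⟩
  have hκ2 : (2 : ℝ) ^ κ = 2 * K0 := by
    rw [hκ]; exact Real.rpow_logb (by norm_num) (by norm_num) (by linarith)
  obtain ⟨b, hb⟩ : ∃ b : ℝ, b = max (max (nu β c0 0) 0) (-nu β c0 (Lm H θ 0 + κ)) := ⟨_, rfl⟩
  have hb1 : nu β c0 0 ≤ b := by rw [hb]; exact (le_max_left _ _).trans (le_max_left _ _)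
  have hb2 : 0 ≤ b := by rw [hb]; exact (le_max_right _ _).trans (le_max_left _ _)
  have hb3 : -b ≤ nu β c0 (Lm H θ 0 + κ) := by
    have : -nu β c0 (Lm H θ 0 + κ) ≤ b := by rw [hb]; exact le_max_right _ _
    linarith
  obtain ⟨δ, hδ, hcomb⟩ := Pool.Agent.N673.TW.Comb.t (12 / Real.log 2 + 1) κ b
  obtain ⟨r0, hr0, hsm⟩ := NN_small hd hβ hM hc
  have hlam := lam_tendsto hLm
  have hev : ∀ᶠ j : ℕ in atTop, NN β c0 (4 * K0 * lam H θ j) ≤ 1 := by
    have h1 := (hlam.const_mul (4 * K0)).eventually_le_const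
      (show 4 * K0 * 0 < r0 by rw [mul_zero]; exact hr0)
    filter_upwards [h1] with j hj
    have := lam_pos H θ j
    exact (NN_mono hd hβ hc (by positivity) hj).trans hsm
  have key : ∀ i : ℕ, ∃ j : ℕ, i + 3 ≤ j ∧ ¬ NF (1 / ((i : ℝ) + 16)) H θ j ∧ Pl H θ j ∧
      NN β c0 (4 * K0 * lam H θ j) ≤ 2 ^ 11 * NN β c0 (2 * K0 * lam H θ j) ∧
      NN β c0 (4 * K0 * lam H θ j) ≤ 1 := by
    intro i
    have hε : 0 < 1 / ((i : ℝ) + 16) := by positivity
    have hε1 : 1 / ((i : ℝ) + 16) ≤ 1 / 16 := by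
      apply one_div_le_one_div_of_le (by norm_num)
      have : (0 : ℝ) ≤ i := by positivity
      linarith
    have h1 := hcomb (Lm H θ) (nu β c0) {j | NF (1 / ((i : ℝ) + 16)) H θ j}
      (fun j => Lm_step S θ j) hLm (nu_mono hd hβ hc)
      (fun s hs => (nu_le hd hβ hc hs).trans hb1)
      (fun j hj => by
        rcases Nat.eq_zero_or_pos j with h0 | h0
        · subst h0
          push_cast
          linarith
        · have := nu_low hd hβ S hc (κ := κ) (by rw [hκ2]; linarith) h0 hj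
          linarith)
      (fun j hj => Lm_flat S hε.le hε1 hj)
      (by
        have h2 := hcon _ δ hε hδ
        exact h2.mono fun N hN => hN.le)
    obtain ⟨j, ⟨h2, h3, h4⟩, h5, h6⟩ := (h1.and_eventually (hev.and
      (eventually_ge_atTop (i + 3)))).exists
    refine ⟨j, h6, h2, h3, ?_, h5⟩
    have hl := lam_pos H θ j
    have e1 : (2 : ℝ) ^ (Lm H θ j + κ) = 2 * K0 * lam H θ j := by
      rw [Real.rpow_add (by norm_num), two_rpow_Lm, hκ2]; ring
    have e2 : (2 : ℝ) ^ (Lm H θ j + κ + 1) = 4 * K0 * lam H θ j := by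
      rw [Real.rpow_add (by norm_num), e1, Real.rpow_one]; ring
    unfold nu at h4
    rw [e1, e2, div_le_iff₀ log2_pos, add_mul, div_mul_cancel₀ _ log2_pos.ne'] at h4
    have hN1 : 0 < NN β c0 (4 * K0 * lam H θ j) := NN_pos hd hβ hc (by positivity)
    have hN2 : 0 < NN β c0 (2 * K0 * lam H θ j) := NN_pos hd hβ hc (by positivity)
    rw [← Real.log_le_log_iff hN1 (by positivity), Real.log_mul (by positivity) hN2.ne',
      Real.log_pow]
    push_cast
    linarith
  choose j hj1 hj2 hj3 hj4 hj5 using key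
  have hjt : Tendsto j atTop atTop := tendsto_atTop_mono (fun i => (Nat.le_add_right i 3).trans (hj1 i))
    tendsto_id
  exact local_blow Pool.Agent.N673.TW.Lrig.t hd hβ S hM hint hpre hc (j := j)
    (fun i => by have := hj1 i; omega) hjt (ε := fun i => 1 / ((i : ℝ) + 16))
    ((tendsto_const_nhds (x := (1 : ℝ))).div_atTop
      (tendsto_atTop_add_const_right atTop (16 : ℝ) tendsto_natCast_atTop_atTop))
    (fun i => by positivity) hj2 hj3 hj4 hj5 (hlam.comp hjt)

end Pool.Agent.N673.TW.BM
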