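import Pool.Agent.N673.TW.Stm2

set_option autoImplicit false

/-!
# TW/BLK: Paley-Zygmund block lemma for dyadic martingales (helper136)
-/

open Complex Filter Topology Metric Set MeasureTheory

namespace Pool.Agent.N673.TW.Blk

/-! ### The polynomial inequality -/

theorem poly_neg {x : ℝ} (h : x < 1 / 16) : -(31 / 10) + 48 * x + 24 * x ^ 2 - x ^ 4 ≤ 0 := by
  rcases le_or_gt x 0 with h0 | h0
  · obtain ⟨t, ht⟩ : ∃ t, t = -x := ⟨_, rfl⟩
    have hx : x = -t := by rw [ht]; ring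
    have ht0 : 0 ≤ t := by linarith
    have h1 : 0 ≤ (t - 283 / 100) ^ 2 * (t + 566 / 100) := by positivity
    have h2 : 0 ≤ t ^ 3 - 24 * t + 48 := by nlinarith
    have h3 : 0 ≤ t * (t ^ 3 - 24 * t + 48) := mul_nonneg ht0 h2
    rw [hx]
    nlinarith
  · have h1 : x ^ 2 ≤ 1 / 256 := by nlinarith
    have h2 : 0 ≤ x ^ 4 := by positivity
    linarith

theorem poly_le (x : ℝ) : -(31 / 10) + 48 * x + 24 * x ^ 2 - x ^ 4 ≤ 330 := by
  nlinarith [sq_nonneg (x ^ 2 - 15), sq_nonneg (x - 4)]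

/-- the same with a scale -/
theorem poly_scaled {r s : ℝ} (hr : 0 < r) :
    -(31 / 10) * r ^ 4 + 48 * r ^ 3 * s + 24 * r ^ 2 * s ^ 2 - s ^ 4 ≤
      if 1 / 16 * r ≤ s then 330 * r ^ 4 else 0 := by
  obtain ⟨x, hx⟩ : ∃ x, x = s / r := ⟨_, rfl⟩
  have hs : s = r * x := by rw [hx]; field_simp
  have hr4 : 0 < r ^ 4 := by positivity
  have e : -(31 / 10) * r ^ 4 + 48 * r ^ 3 * s + 24 * r ^ 2 * s ^ 2 - s ^ 4 =
      r ^ 4 * (-(31 / 10) + 48 * x + 24 * x ^ 2 - x ^ 4) := by rw [hs]; ring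
  rw [e]
  split_ifs with h
  · have := mul_le_mul_of_nonneg_left (poly_le x) hr4.le
    linarith
  · have h2 : x < 1 / 16 := by
      push Not at h
      rw [hs] at h
      by_contra h3
      push Not at h3
      nlinarith
    exact mul_nonpos_of_nonneg_of_nonpos hr4.le (poly_neg h2)

/-! ### The stopped process on the tree -/

/-- the stopped martingale and the stopped clock at the node `k` of level `m` below the arc `(j, i)` -/
noncomputable def sw (X : ℕ → ℕ → ℝ) (L : ℝ) (j i : ℕ) : ℕ → ℕ → ℝ × ℝ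
  | 0, _ => (0, 0)
  | m + 1, k => if (sw X L j i m (k / 2)).2 < L then
      ((sw X L j i m (k / 2)).1 + (X (j + m + 1) (i * 2 ^ (m + 1) + k) - X (j + m) (i * 2 ^ m + k / 2)),
        (sw X L j i m (k / 2)).2 +
          (X (j + m + 1) (i * 2 ^ (m + 1) + k) - X (j + m) (i * 2 ^ m + k / 2)) ^ 2)
      else sw X L j i m (k / 2)

theorem sum_double (n : ℕ) (g : ℕ → ℝ) :
    ∑ k ∈ Finset.range (2 * n), g k = ∑ k ∈ Finset.range n, (g (2 * k) + g (2 * k + 1)) := by
  induction n with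
  | zero => simp
  | succ n ih =>
    rw [show 2 * (n + 1) = 2 * n + 1 + 1 by ring, Finset.sum_range_succ, Finset.sum_range_succ, ih,
      Finset.sum_range_succ]
    ring

/-- the children of a node: the increment `d` -/
theorem sw_step {B : ℝ} {X : ℕ → ℕ → ℝ} (hX : DM B X) (L : ℝ) {j i : ℕ} (hi : i < 2 ^ j) (m k : ℕ)
    (hk : k < 2 ^ m) : ∃ d : ℝ, |d| ≤ B ∧
      (sw X L j i (m + 1) (2 * k) = if (sw X L j i m k).2 < L then
        ((sw X L j i m k).1 + d, (sw X L j i m k).2 + d ^ 2) else sw X L j i m k) ∧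
      (sw X L j i (m + 1) (2 * k + 1) = if (sw X L j i m k).2 < L then
        ((sw X L j i m k).1 - d, (sw X L j i m k).2 + d ^ 2) else sw X L j i m k) := by
  refine ⟨X (j + m + 1) (2 * (i * 2 ^ m + k)) - X (j + m) (i * 2 ^ m + k), ?_, ?_, ?_⟩
  · apply hX.2
    have h1 : i + 1 ≤ 2 ^ j := hi
    have h2 : (i + 1) * 2 ^ m ≤ 2 ^ j * 2 ^ m := Nat.mul_le_mul_right _ h1
    rw [pow_add]
    rw [add_mul, one_mul] at h2
    omega
  · have e1 : 2 * k / 2 = k := by omega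
    have e2 : i * 2 ^ (m + 1) + 2 * k = 2 * (i * 2 ^ m + k) := by rw [pow_succ]; ring
    rw [sw, e1, e2]
  · have e1 : (2 * k + 1) / 2 = k := by omega
    have e2 : i * 2 ^ (m + 1) + (2 * k + 1) = 2 * (i * 2 ^ m + k) + 1 := by rw [pow_succ]; ring
    have e3 := hX.1 (j + m) (i * 2 ^ m + k)
    have e4 : X (j + m + 1) (2 * (i * 2 ^ m + k) + 1) - X (j + m) (i * 2 ^ m + k) =
        -(X (j + m + 1) (2 * (i * 2 ^ m + k)) - X (j + m) (i * 2 ^ m + k)) := by linarith
    rw [sw, e1, e2, e4, neg_sq, ← sub_eq_add_neg]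

theorem sw_bd {B : ℝ} {X : ℕ → ℕ → ℝ} (hX : DM B X) {L : ℝ} (hL : 0 < L) (hB : B ^ 2 ≤ L) {j i : ℕ}
    (hi : i < 2 ^ j) (m : ℕ) : ∀ k < 2 ^ m, 0 ≤ (sw X L j i m k).2 ∧ (sw X L j i m k).2 ≤ 2 * L := by
  induction m with
  | zero =>
    intro k _
    rw [sw]
    exact ⟨le_rfl, by positivity⟩
  | succ m ih =>
    intro k hk
    have hk2 : k / 2 < 2 ^ m := by rw [pow_succ] at hk; omega
    obtain ⟨h1, h2⟩ := ih (k / 2) hk2
    obtain ⟨d, hd, e1, e2⟩ := sw_step hX L hi m (k / 2) hk2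
    have hd2 : d ^ 2 ≤ L := by
      have : d ^ 2 ≤ B ^ 2 := sq_le_sq' (by linarith [neg_abs_le d]) (by linarith [le_abs_self d])
      linarith
    have hd0 : 0 ≤ d ^ 2 := sq_nonneg d
    rcases Nat.even_or_odd' k with ⟨c, hc | hc⟩
    · have e3 : k / 2 = c := by omega
      rw [e3] at e1 h1 h2
      rw [hc, e1]
      split_ifs with h
      · exact ⟨by simp only; linarith, by simp only; linarith⟩
      · exact ⟨h1, h2⟩
    · have e3 : k / 2 = c := by omega
      rw [e3] at e2 h1 h2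
      rw [hc, e2]
      split_ifs with h
      · exact ⟨by simp only; linarith, by simp only; linarith⟩
      · exact ⟨h1, h2⟩

/-- the three moments -/
theorem moments {B : ℝ} {X : ℕ → ℕ → ℝ} (hX : DM B X) (L : ℝ) {j i : ℕ} (hi : i < 2 ^ j) (m : ℕ) :
    ∑ k ∈ Finset.range (2 ^ m), (sw X L j i m k).1 = 0 ∧
    ∑ k ∈ Finset.range (2 ^ m), ((sw X L j i m k).1 ^ 2 - (sw X L j i m k).2) = 0 ∧
    ∑ k ∈ Finset.range (2 ^ m), ((sw X L j i m k).1 ^ 4 -
      6 * (sw X L j i m k).1 ^ 2 * (sw X L j i m k).2 + 3 * (sw X L j i m k).2 ^ 2) ≤ 0 := by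
  induction m with
  | zero =>
    simp [sw]
  | succ m ih =>
    obtain ⟨i1, i2, i3⟩ := ih
    rw [pow_succ, mul_comm, sum_double, sum_double, sum_double]
    refine ⟨?_, ?_, ?_⟩
    · have h : ∀ k ∈ Finset.range (2 ^ m), (sw X L j i (m + 1) (2 * k)).1 +
          (sw X L j i (m + 1) (2 * k + 1)).1 = 2 * (sw X L j i m k).1 := by
        intro k hk
        obtain ⟨d, -, e1, e2⟩ := sw_step hX L hi m k (Finset.mem_range.1 hk)
        rw [e1, e2]
        split_ifs with h0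
        · simp only; ring
        · ring
      rw [Finset.sum_congr rfl h, ← Finset.mul_sum, i1, mul_zero]
    · have h : ∀ k ∈ Finset.range (2 ^ m), ((sw X L j i (m + 1) (2 * k)).1 ^ 2 -
          (sw X L j i (m + 1) (2 * k)).2) + ((sw X L j i (m + 1) (2 * k + 1)).1 ^ 2 -
          (sw X L j i (m + 1) (2 * k + 1)).2) =
          2 * ((sw X L j i m k).1 ^ 2 - (sw X L j i m k).2) := by
        intro k hk
        obtain ⟨d, -, e1, e2⟩ := sw_step hX L hi m k (Finset.mem_range.1 hk)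
        rw [e1, e2]
        split_ifs with h0
        · simp only; ring
        · ring
      rw [Finset.sum_congr rfl h, ← Finset.mul_sum, i2, mul_zero]
    · refine le_trans (Finset.sum_le_sum (g := fun k => 2 * ((sw X L j i m k).1 ^ 4 -
        6 * (sw X L j i m k).1 ^ 2 * (sw X L j i m k).2 + 3 * (sw X L j i m k).2 ^ 2)) ?_) ?_
      · intro k hk
        obtain ⟨d, -, e1, e2⟩ := sw_step hX L hi m k (Finset.mem_range.1 hk)
        rw [e1, e2]
        split_ifs with h0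
        · simp only
          obtain ⟨s, hs⟩ : ∃ s, s = (sw X L j i m k).1 := ⟨_, rfl⟩
          obtain ⟨w, hw⟩ : ∃ w, w = (sw X L j i m k).2 := ⟨_, rfl⟩
          rw [← hs, ← hw]
          have h4 : 0 ≤ d ^ 4 := by positivity
          have e : (s + d) ^ 4 - 6 * (s + d) ^ 2 * (w + d ^ 2) + 3 * (w + d ^ 2) ^ 2 +
              ((s - d) ^ 4 - 6 * (s - d) ^ 2 * (w + d ^ 2) + 3 * (w + d ^ 2) ^ 2) =
              2 * (s ^ 4 - 6 * s ^ 2 * w + 3 * w ^ 2) - 4 * d ^ 4 := by ring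
          linarith
        · linarith
      · rw [← Finset.mul_sum]
        linarith

open Classical in
/-- the count of the good nodes -/
theorem count {B : ℝ} {X : ℕ → ℕ → ℝ} (hX : DM B X) {L : ℝ} (hL : 0 < L) (hB : B ^ 2 ≤ L) {j i : ℕ}
    (hi : i < 2 ^ j) (m : ℕ) : (1 / 200 : ℝ) * 2 ^ m ≤
      (((Finset.range (2 ^ m)).filter fun k => (sw X L j i m k).2 < L ∨
        1 / 16 * √L ≤ (sw X L j i m k).1).card : ℝ) := by
  obtain ⟨i1, i2, i3⟩ := moments hX L hi m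
  have hbd := sw_bd hX hL hB hi m
  obtain ⟨r, hr⟩ : ∃ r, r = √L := ⟨_, rfl⟩
  have hr0 : 0 < r := by rw [hr]; exact Real.sqrt_pos.2 hL
  have hr2 : r ^ 2 = L := by rw [hr]; exact Real.sq_sqrt hL.le
  obtain ⟨s, hs⟩ : ∃ s : ℕ → ℝ, s = fun k => (sw X L j i m k).1 := ⟨_, rfl⟩
  obtain ⟨w, hw⟩ : ∃ w : ℕ → ℝ, w = fun k => (sw X L j i m k).2 := ⟨_, rfl⟩
  have es : ∀ k, (sw X L j i m k).1 = s k := fun k => by rw [hs]
  have ew : ∀ k, (sw X L j i m k).2 = w k := fun k => by rw [hw]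
  simp only [es, ew] at i1 i2 i3 hbd
  simp only [es, ew]
  rw [← hr]
  set R := Finset.range (2 ^ m) with hR
  have hcR : (R.card : ℝ) = 2 ^ m := by rw [hR, Finset.card_range]; push_cast; rfl
  -- the three families
  set F := R.filter fun k => w k < L ∨ 1 / 16 * r ≤ s k with hF
  set F1 := R.filter fun k => w k < L with hF1
  set F2 := R.filter fun k => 1 / 16 * r ≤ s k with hF2
  have h1 : (F1.card : ℝ) ≤ F.card := by
    have : F1.card ≤ F.card := Finset.card_le_card (by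
      intro k hk
      rw [hF1, Finset.mem_filter] at hk
      rw [hF, Finset.mem_filter]
      exact ⟨hk.1, Or.inl hk.2⟩)
    exact_mod_cast this
  have h2 : (F2.card : ℝ) ≤ F.card := by
    have : F2.card ≤ F.card := Finset.card_le_card (by
      intro k hk
      rw [hF2, Finset.mem_filter] at hk
      rw [hF, Finset.mem_filter]
      exact ⟨hk.1, Or.inr hk.2⟩)
    exact_mod_cast this
  have h3 : (R.card : ℝ) = F1.card + (R.filter fun k => ¬ w k < L).card := by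
    rw [hF1]
    exact_mod_cast (Finset.card_filter_add_card_filter_not (s := R) (p := fun k => w k < L)).symm
  -- the sum of the clock
  have h4 : L * ((R.filter fun k => ¬ w k < L).card : ℝ) ≤ ∑ k ∈ R, w k := by
    calc L * ((R.filter fun k => ¬ w k < L).card : ℝ) =
        ∑ k ∈ R.filter (fun k => ¬ w k < L), L := by
          rw [Finset.sum_const, nsmul_eq_mul, mul_comm]
      _ ≤ ∑ k ∈ R.filter (fun k => ¬ w k < L), w k := by
          apply Finset.sum_le_sum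
          intro k hk
          rw [Finset.mem_filter] at hk
          exact not_lt.1 hk.2
      _ ≤ ∑ k ∈ R, w k := by
          apply Finset.sum_le_sum_of_subset_of_nonneg (Finset.filter_subset _ _)
          intro k hk _
          exact (hbd k (by rw [hR, Finset.mem_range] at hk; exact hk)).1
  rw [Finset.sum_sub_distrib] at i2
  -- fourth moment
  have h5 : ∑ k ∈ R, s k ^ 4 ≤ 12 * L * ∑ k ∈ R, s k ^ 2 := by
    have h6 : ∑ k ∈ R, (s k ^ 4 - 12 * L * s k ^ 2) ≤ ∑ k ∈ R, (s k ^ 4 - 6 * s k ^ 2 * w k +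
        3 * w k ^ 2) := by
      apply Finset.sum_le_sum
      intro k hk
      have h7 := hbd k (by rw [hR, Finset.mem_range] at hk; exact hk)
      have h8 : s k ^ 2 * w k ≤ s k ^ 2 * (2 * L) := mul_le_mul_of_nonneg_left h7.2 (sq_nonneg _)
      have h9 : 0 ≤ w k ^ 2 := sq_nonneg _
      linarith
    rw [Finset.sum_sub_distrib, ← Finset.mul_sum] at h6
    linarith
  -- the polynomial
  have h6 : ∑ k ∈ R, (-(31 / 10) * r ^ 4 + 48 * r ^ 3 * s k + 24 * r ^ 2 * s k ^ 2 - s k ^ 4) ≤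
      330 * r ^ 4 * F2.card := by
    calc ∑ k ∈ R, (-(31 / 10) * r ^ 4 + 48 * r ^ 3 * s k + 24 * r ^ 2 * s k ^ 2 - s k ^ 4) ≤
        ∑ k ∈ R, (if 1 / 16 * r ≤ s k then 330 * r ^ 4 else 0) :=
          Finset.sum_le_sum fun k _ => poly_scaled hr0
      _ = 330 * r ^ 4 * F2.card := by
          rw [← Finset.sum_filter, Finset.sum_const, nsmul_eq_mul, mul_comm]
  rw [Finset.sum_sub_distrib, Finset.sum_add_distrib, Finset.sum_add_distrib, Finset.sum_const,
    nsmul_eq_mul, ← Finset.mul_sum, ← Finset.mul_sum, i1, hcR] at h6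
  rw [hcR] at h3
  obtain ⟨W, hW⟩ : ∃ W, W = ∑ k ∈ R, w k := ⟨_, rfl⟩
  obtain ⟨S2, hS2⟩ : ∃ S2, S2 = ∑ k ∈ R, s k ^ 2 := ⟨_, rfl⟩
  obtain ⟨S4, hS4⟩ : ∃ S4, S4 = ∑ k ∈ R, s k ^ 4 := ⟨_, rfl⟩
  obtain ⟨q, hq⟩ : ∃ q : ℝ, q = ((R.filter fun k => ¬ w k < L).card : ℝ) := ⟨_, rfl⟩
  rw [← hW] at h4 i2
  rw [← hS2] at h5 h6 i2
  rw [← hS4] at h5 h6
  rw [← hq] at h3 h4
  rw [hr2] at h6
  have hr4 : r ^ 4 = L ^ 2 := by rw [← hr2]; ring
  rw [hr4] at h6
  have hL2 : 0 < L ^ 2 := by positivity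
  -- `330 |F2| ≥ 12 q - 3.1 2^m`
  have h7 : L ^ 2 * (12 * q - 31 / 10 * 2 ^ m) ≤ L ^ 2 * (330 * F2.card) := by
    have h8 : L * (L * q) ≤ L * W := mul_le_mul_of_nonneg_left h4 hL.le
    have h9 : S2 = W := by linarith
    rw [h9] at h5 h6
    nlinarith
  have h8 := le_of_mul_le_mul_left h7 hL2
  have h2m : (0 : ℝ) < 2 ^ m := by positivity
  by_contra hcon
  push Not at hcon
  linarith

/-! ### Angles -/

theorem mem_arc_iff {n a : ℕ} {θ : ℝ} : θ ∈ arc n a ↔ 0 ≤ θ ∧ idx n θ = a := by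
  have hpi := Real.pi_pos
  have h2 : (0 : ℝ) < 2 ^ n := by positivity
  unfold arc idx
  rw [mem_Ico, div_le_iff₀ h2, lt_div_iff₀ h2]
  constructor
  · rintro ⟨h1, h3⟩
    have h0 : 0 ≤ θ := by
      by_contra hc
      push Not at hc
      have : θ * 2 ^ n < 0 := mul_neg_of_neg_of_pos hc h2
      have : (0 : ℝ) ≤ 2 * Real.pi * a := by positivity
      linarith
    refine ⟨h0, ?_⟩
    rw [Nat.floor_eq_iff (by positivity), le_div_iff₀ (by positivity), div_lt_iff₀ (by positivity)]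
    constructor <;> linarith
  · rintro ⟨h0, h1⟩
    rw [Nat.floor_eq_iff (by positivity), le_div_iff₀ (by positivity),
      div_lt_iff₀ (by positivity)] at h1
    constructor <;> linarith [h1.1, h1.2]

theorem idx_half (n : ℕ) (θ : ℝ) : idx (n + 1) θ / 2 = idx n θ := by
  unfold idx
  have h := Nat.floor_div_natCast (θ * 2 ^ (n + 1) / (2 * Real.pi)) 2
  rw [← h]
  congr 1
  rw [pow_succ]
  push_cast
  ring

theorem vol_arc (j i : ℕ) : volume (arc j i) = ENNReal.ofReal (2 * Real.pi / 2 ^ j) := by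
  unfold arc
  rw [Real.volume_Ico]
  congr 1
  have h2 : (0 : ℝ) < 2 ^ j := by positivity
  field_simp
  ring

/-- the position of `θ` below the arc `(j, i)` -/
noncomputable def ks (j i m : ℕ) (θ : ℝ) : ℕ := idx (j + m) θ - i * 2 ^ m

theorem ks_facts {j i : ℕ} {θ : ℝ} (h : idx j θ = i) (m : ℕ) :
    i * 2 ^ m ≤ idx (j + m) θ ∧ idx (j + m) θ < (i + 1) * 2 ^ m := by
  induction m with
  | zero => simp [h]
  | succ m ih =>
    have h1 := idx_half (j + m) θ
    have e : j + (m + 1) = j + m + 1 := rfl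
    rw [e]
    obtain ⟨a, b⟩ := ih
    rw [add_mul, one_mul] at b ⊢
    rw [pow_succ, ← mul_assoc]
    omega

theorem ks_lt {j i : ℕ} {θ : ℝ} (h : idx j θ = i) (m : ℕ) : ks j i m θ < 2 ^ m := by
  obtain ⟨a, b⟩ := ks_facts h m
  unfold ks
  rw [add_mul, one_mul] at b
  omega

theorem ks_add {j i : ℕ} {θ : ℝ} (h : idx j θ = i) (m : ℕ) :
    i * 2 ^ m + ks j i m θ = idx (j + m) θ := by
  obtain ⟨a, b⟩ := ks_facts h m
  unfold ks
  omega

theorem ks_half {j i : ℕ} {θ : ℝ} (h : idx j θ = i) (m : ℕ) :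
    ks j i (m + 1) θ / 2 = ks j i m θ := by
  have h1 := idx_half (j + m) θ
  obtain ⟨a, b⟩ := ks_facts h m
  obtain ⟨a', b'⟩ := ks_facts h (m + 1)
  unfold ks
  have e : j + (m + 1) = j + m + 1 := rfl
  rw [e] at a' b' ⊢
  rw [pow_succ, ← mul_assoc] at a' ⊢
  omega

/-- the stopped process along `θ` -/
noncomputable def st (X : ℕ → ℕ → ℝ) (L : ℝ) (j i m : ℕ) (θ : ℝ) : ℝ × ℝ :=
  sw X L j i m (ks j i m θ)

theorem st_succ (X : ℕ → ℕ → ℝ) (L : ℝ) {j i : ℕ} {θ : ℝ} (h : idx j θ = i) (m : ℕ) :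
    st X L j i (m + 1) θ = if (st X L j i m θ).2 < L then
      ((st X L j i m θ).1 + (X (j + m + 1) (idx (j + m + 1) θ) - X (j + m) (idx (j + m) θ)),
        (st X L j i m θ).2 + (X (j + m + 1) (idx (j + m + 1) θ) - X (j + m) (idx (j + m) θ)) ^ 2)
      else st X L j i m θ := by
  unfold st
  rw [sw, ks_half h m, ks_add h m, ks_add h (m + 1)]
  rfl

theorem VV_succ (X : ℕ → ℕ → ℝ) (n : ℕ) (θ : ℝ) :
    VV X (n + 1) θ = VV X n θ + (X (n + 1) (idx (n + 1) θ) - X n (idx n θ)) ^ 2 := by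
  unfold VV
  rw [Finset.sum_range_succ]

/-- before the clock has risen by `L` the process is not stopped -/
theorem st_eq (X : ℕ → ℕ → ℝ) (L : ℝ) {j i : ℕ} {θ : ℝ} (h : idx j θ = i) (m : ℕ)
    (hm : ∀ l < m, VV X (j + l) θ - VV X j θ < L) :
    st X L j i m θ = (X (j + m) (idx (j + m) θ) - X j i, VV X (j + m) θ - VV X j θ) := by
  induction m with
  | zero =>
    unfold st
    rw [sw, add_zero, h]
    simp
  | succ m ih =>
    have ih' := ih fun l hl => hm l (by omega)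
    have h1 := hm m (by omega)
    rw [st_succ X L h m, ih', if_pos h1]
    have e : j + (m + 1) = j + m + 1 := rfl
    rw [e, VV_succ]
    ext
    · simp only; ring
    · simp only; ring

/-- the good sets -/
def GG (X : ℕ → ℕ → ℝ) (L : ℝ) (j i m : ℕ) : Set ℝ :=
  {θ | θ ∈ arc j i ∧ ((st X L j i m θ).2 < L ∨ 1 / 16 * √L ≤ (st X L j i m θ).1)}

theorem GG_succ (X : ℕ → ℕ → ℝ) (L : ℝ) (j i m : ℕ) : GG X L j i (m + 1) ⊆ GG X L j i m := by
  rintro θ ⟨h1, h2⟩
  refine ⟨h1, ?_⟩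
  by_cases h3 : (st X L j i m θ).2 < L
  · exact Or.inl h3
  · rw [st_succ X L (mem_arc_iff.1 h1).2 m, if_neg h3] at h2
    exact h2

open Classical in
theorem GG_eq (X : ℕ → ℕ → ℝ) (L : ℝ) (j i m : ℕ) : GG X L j i m =
    ⋃ k ∈ (Finset.range (2 ^ m)).filter fun k => (sw X L j i m k).2 < L ∨
        1 / 16 * √L ≤ (sw X L j i m k).1, arc (j + m) (i * 2 ^ m + k) := by
  ext θ
  simp only [mem_iUnion, exists_prop, Finset.mem_filter, Finset.mem_range]
  constructor
  · rintro ⟨h1, h2⟩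
    have h3 := mem_arc_iff.1 h1
    refine ⟨ks j i m θ, ⟨ks_lt h3.2 m, h2⟩, ?_⟩
    rw [mem_arc_iff, ks_add h3.2 m]
    exact ⟨h3.1, rfl⟩
  · rintro ⟨k, ⟨hk, h2⟩, h1⟩
    have h3 := mem_arc_iff.1 h1
    have h4 : ∀ l : ℕ, idx j θ = idx (j + l) θ / 2 ^ l := by
      intro l
      induction l with
      | zero => simp
      | succ l ih =>
        rw [ih, ← idx_half (j + l) θ, Nat.div_div_eq_div_mul, pow_succ, mul_comm (2 ^ l) 2]
        rfl
    have h5 : idx j θ = i := by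
      rw [h4 m, h3.2]
      have h2m : 0 < 2 ^ m := by positivity
      rw [mul_comm i, Nat.mul_add_div h2m, Nat.div_eq_of_lt hk, add_zero]
    refine ⟨mem_arc_iff.2 ⟨h3.1, h5⟩, ?_⟩
    have h6 : ks j i m θ = k := by
      unfold ks
      rw [h3.2]
      omega
    unfold st
    rw [h6]
    exact h2

theorem arc_disj {n a b : ℕ} (h : a ≠ b) : Disjoint (arc n a) (arc n b) := by
  rw [Set.disjoint_left]
  intro θ h1 h2
  exact h ((mem_arc_iff.1 h1).2.symm.trans (mem_arc_iff.1 h2).2)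

theorem arc_meas (n a : ℕ) : MeasurableSet (arc n a) := by
  unfold arc
  exact measurableSet_Ico

theorem GG_meas (X : ℕ → ℕ → ℝ) (L : ℝ) (j i m : ℕ) : MeasurableSet (GG X L j i m) := by
  rw [GG_eq]
  exact Finset.measurableSet_biUnion _ fun k _ => arc_meas _ _

theorem GG_vol {B : ℝ} {X : ℕ → ℕ → ℝ} (hX : DM B X) {L : ℝ} (hL : 0 < L) (hB : B ^ 2 ≤ L) {j i : ℕ}
    (hi : i < 2 ^ j) (m : ℕ) :
    ENNReal.ofReal (1 / 200 * (2 * Real.pi / 2 ^ j)) ≤ volume (GG X L j i m) := by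
  classical
  have hpi := Real.pi_pos
  have hc := count hX hL hB hi m
  rw [GG_eq, measure_biUnion_finset (fun a _ b _ hab => arc_disj (by omega))
    (fun k _ => arc_meas _ _)]
  simp only [vol_arc, Finset.sum_const, nsmul_eq_mul]
  rw [← ENNReal.ofReal_natCast, ← ENNReal.ofReal_mul (by positivity)]
  apply ENNReal.ofReal_le_ofReal
  calc 1 / 200 * (2 * Real.pi / 2 ^ j) = (1 / 200 * 2 ^ m) * (2 * Real.pi / 2 ^ (j + m)) := by
        rw [pow_add]; field_simp
    _ ≤ _ := by gcongr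

/-- **BLK.** -/
theorem t : Pool.Agent.N673.TW.S_BLK := by
  refine ⟨1 / 16, 1 / 200, by norm_num, by norm_num, ?_⟩
  intro B X hX L hL hB j i hi
  have hanti : Antitone fun m : ℕ => GG X L j i m := antitone_nat_of_succ_le fun m => GG_succ X L j i m
  have h1 : ENNReal.ofReal (1 / 200 * (2 * Real.pi / 2 ^ j)) ≤ volume (⋂ m : ℕ, GG X L j i m) := by
    rw [hanti.measure_iInter (fun m => (GG_meas X L j i m).nullMeasurableSet) ⟨0, ?_⟩]
    · exact le_iInf fun m => GG_vol hX hL hB hi m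
    · refine ne_top_of_le_ne_top ?_ (measure_mono fun θ hθ => hθ.1)
      rw [vol_arc]
      exact ENNReal.ofReal_ne_top
  refine h1.trans (measure_mono ?_)
  intro θ hθ
  rw [mem_iInter] at hθ
  have h2 : θ ∈ arc j i := (hθ 0).1
  have h3 := (mem_arc_iff.1 h2).2
  refine ⟨h2, ?_⟩
  by_cases hall : ∀ n : ℕ, j ≤ n → VV X n θ - VV X j θ < L
  · exact Or.inl hall
  · right
    push Not at hall
    classical
    have hex : ∃ n : ℕ, j ≤ n ∧ L ≤ VV X n θ - VV X j θ := hall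
    obtain ⟨h4, h5⟩ := Nat.find_spec hex
    have h6 : ∀ m : ℕ, j ≤ m → m < Nat.find hex → VV X m θ - VV X j θ < L := by
      intro m hm hlt
      have := Nat.find_min hex hlt
      push Not at this
      exact this hm
    refine ⟨Nat.find hex, h4, h5, h6, ?_⟩
    obtain ⟨m, hm⟩ : ∃ m, Nat.find hex = j + m := ⟨Nat.find hex - j, by omega⟩
    rw [hm] at h5 h6 ⊢
    have h7 := st_eq X L h3 m fun l hl => h6 (j + l) (by omega) (by omega)
    have h8 := (hθ m).2
    rw [h7] at h8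
    rcases h8 with h8 | h8
    · simp only at h8
      linarith
    · exact h8

end Pool.Agent.N673.TW.Blk
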