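import Pool.Agent.N673.TW.Stm

set_option autoImplicit false

/-!
# TW/TREE: Ville's maximal inequality on the dyadic tree (helper572)
-/

open Complex Filter Topology Metric Set MeasureTheory

namespace Pool.Agent.N673.TW.Tree

theorem arc_split {j i : ℕ} {θ : ℝ} (h : θ ∈ arc j i) :
    θ ∈ arc (j + 1) (2 * i) ∨ θ ∈ arc (j + 1) (2 * i + 1) := by
  unfold arc at *
  have h2 : (0 : ℝ) < 2 ^ j := by positivity
  have e1 : 2 * Real.pi * ((2 * i : ℕ) : ℝ) / 2 ^ (j + 1) = 2 * Real.pi * i / 2 ^ j := by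
    rw [pow_succ]; push_cast; field_simp
  have e2 : 2 * Real.pi * (((2 * i + 1 : ℕ) : ℝ) + 1) / 2 ^ (j + 1) =
      2 * Real.pi * (i + 1) / 2 ^ j := by
    rw [pow_succ]; push_cast; field_simp; ring
  have e3 : ((2 * i + 1 : ℕ) : ℝ) = ((2 * i : ℕ) : ℝ) + 1 := by push_cast; ring
  rcases lt_or_ge θ (2 * Real.pi * (((2 * i : ℕ) : ℝ) + 1) / 2 ^ (j + 1)) with h3 | h3
  · left
    exact ⟨by rw [e1]; exact h.1, h3⟩
  · right
    exact ⟨by rw [e3]; exact h3, by rw [e2]; exact h.2⟩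

theorem arc_unique {j i k : ℕ} {θ : ℝ} (h : θ ∈ arc j i) (h' : θ ∈ arc j k) : i = k := by
  unfold arc at *
  have h2 : (0 : ℝ) < 2 ^ j := by positivity
  have hpi := Real.pi_pos
  have key : ∀ a b : ℕ, θ ∈ Ico (2 * Real.pi * a / 2 ^ j) (2 * Real.pi * (a + 1) / 2 ^ j) →
      θ ∈ Ico (2 * Real.pi * b / 2 ^ j) (2 * Real.pi * (b + 1) / 2 ^ j) → a ≤ b := by
    intro a b ha hb
    have h3 : 2 * Real.pi * a / 2 ^ j < 2 * Real.pi * (b + 1) / 2 ^ j := lt_of_le_of_lt ha.1 hb.2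
    rw [div_lt_div_iff_of_pos_right h2, mul_lt_mul_iff_right₀ (by positivity)] at h3
    have : a < b + 1 := by exact_mod_cast h3
    omega
  exact le_antisymm (key _ _ h h') (key _ _ h' h)

theorem vol_arc (j i : ℕ) : volume (arc j i) = ENNReal.ofReal (2 * Real.pi / 2 ^ j) := by
  unfold arc
  rw [Real.volume_Ico]
  congr 1
  have h2 : (0 : ℝ) < 2 ^ j := by positivity
  field_simp
  ring

/-- the finite stages -/
def B (Y : ℕ → ℕ → ℝ) (t : ℝ) (m j i : ℕ) : Set ℝ :=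
  {θ : ℝ | θ ∈ arc j i ∧ ∃ n k : ℕ, j ≤ n ∧ n ≤ j + m ∧ k < 2 ^ n ∧ θ ∈ arc n k ∧ t ≤ Y n k}

theorem stage (Y : ℕ → ℕ → ℝ) (h0 : ∀ j i : ℕ, i < 2 ^ j → 0 ≤ Y j i)
    (h1 : ∀ j i : ℕ, i < 2 ^ j → (Y (j + 1) (2 * i) + Y (j + 1) (2 * i + 1)) / 2 ≤ Y j i)
    {t : ℝ} (ht : 0 < t) (m : ℕ) : ∀ j i : ℕ, i < 2 ^ j →
    volume (B Y t m j i) ≤ ENNReal.ofReal (2 * Real.pi / 2 ^ j * (Y j i / t)) := by
  have hpi := Real.pi_pos
  have big : ∀ m j i : ℕ, i < 2 ^ j → t ≤ Y j i →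
      volume (B Y t m j i) ≤ ENNReal.ofReal (2 * Real.pi / 2 ^ j * (Y j i / t)) := by
    intro m j i _ hY
    refine (measure_mono (fun θ hθ => hθ.1)).trans ?_
    rw [vol_arc]
    apply ENNReal.ofReal_le_ofReal
    have h3 : 1 ≤ Y j i / t := by rw [le_div_iff₀ ht]; linarith
    have h4 : 0 < 2 * Real.pi / 2 ^ j := by positivity
    nlinarith
  induction m with
  | zero =>
    intro j i hi
    by_cases hY : t ≤ Y j i
    · exact big 0 j i hi hY
    · have : B Y t 0 j i = ∅ := by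
        rw [Set.eq_empty_iff_forall_notMem]
        rintro θ ⟨h2, n, k, h3, h4, _, h6, h7⟩
        have h8 : n = j := by omega
        subst h8
        have h9 := arc_unique h2 h6
        subst h9
        exact hY h7
      rw [this, measure_empty]
      exact bot_le
  | succ m ih =>
    intro j i hi
    by_cases hY : t ≤ Y j i
    · exact big (m + 1) j i hi hY
    · have hsub : B Y t (m + 1) j i ⊆ B Y t m (j + 1) (2 * i) ∪ B Y t m (j + 1) (2 * i + 1) := by
        rintro θ ⟨h2, n, k, h3, h4, h5, h6, h7⟩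
        have h8 : j + 1 ≤ n := by
          by_contra hc
          have h8 : n = j := by omega
          subst h8
          have h9 := arc_unique h2 h6
          subst h9
          exact hY h7
        rcases arc_split h2 with h9 | h9
        · exact Or.inl ⟨h9, n, k, h8, by omega, h5, h6, h7⟩
        · exact Or.inr ⟨h9, n, k, h8, by omega, h5, h6, h7⟩
      have hp : 2 ^ (j + 1) = 2 * 2 ^ j := by rw [pow_succ]; ring
      have i1 := ih (j + 1) (2 * i) (by omega)
      have i2 := ih (j + 1) (2 * i + 1) (by omega)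
      have n1 := h0 (j + 1) (2 * i) (by omega)
      have n2 := h0 (j + 1) (2 * i + 1) (by omega)
      refine (measure_mono hsub).trans ((measure_union_le _ _).trans ?_)
      refine (add_le_add i1 i2).trans ?_
      rw [← ENNReal.ofReal_add (by positivity) (by positivity)]
      apply ENNReal.ofReal_le_ofReal
      have h3 := h1 j i hi
      have h4 : 2 * Real.pi / 2 ^ (j + 1) * (Y (j + 1) (2 * i) / t) +
          2 * Real.pi / 2 ^ (j + 1) * (Y (j + 1) (2 * i + 1) / t) =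
          2 * Real.pi / 2 ^ j * (((Y (j + 1) (2 * i) + Y (j + 1) (2 * i + 1)) / 2) / t) := by
        rw [pow_succ]; field_simp
      rw [h4]
      gcongr

/-- TREE -/
theorem t : Pool.Agent.N673.TW.S_TREE := by
  intro Y h0 h1 j i t hi ht
  have hU : {θ : ℝ | θ ∈ arc j i ∧ ∃ n k : ℕ, j ≤ n ∧ k < 2 ^ n ∧ θ ∈ arc n k ∧ t ≤ Y n k} =
      ⋃ m : ℕ, B Y t m j i := by
    ext θ
    rw [mem_iUnion]
    constructor
    · rintro ⟨h2, n, k, h3, h5, h6, h7⟩
      exact ⟨n - j, h2, n, k, h3, by omega, h5, h6, h7⟩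
    · rintro ⟨m, h2, n, k, h3, _, h5, h6, h7⟩
      exact ⟨h2, n, k, h3, h5, h6, h7⟩
  have hmono : Monotone fun m : ℕ => B Y t m j i := by
    rintro a b hab θ ⟨h2, n, k, h3, h4, h5, h6, h7⟩
    exact ⟨h2, n, k, h3, h4.trans (by omega), h5, h6, h7⟩
  rw [hU, hmono.measure_iUnion]
  exact iSup_le fun m => stage Y h0 h1 ht m j i hi

end Pool.Agent.N673.TW.Tree
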