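import Pool.Agent.N673.TW.Stm2
import Pool.Agent.N673.TW.Tree

set_option autoImplicit false

/-!
# TW/CLU: the upper law of the iterated logarithm in the clock of a dyadic martingale (helper691)
-/

open Complex Filter Topology Metric Set MeasureTheory

namespace Pool.Agent.N673.TW.Clu

/-- the accumulated variance of an arc -/
noncomputable def Vd (X : ℕ → ℕ → ℝ) : ℕ → ℕ → ℝ
  | 0, _ => 0
  | j + 1, i => Vd X j (i / 2) + (X (j + 1) i - X j (i / 2)) ^ 2

theorem idx_half (n : ℕ) (θ : ℝ) : idx (n + 1) θ / 2 = idx n θ := by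
  unfold idx
  have h := Nat.floor_div_natCast (θ * 2 ^ (n + 1) / (2 * Real.pi)) 2
  rw [← h]
  congr 1
  push_cast
  rw [pow_succ]
  field_simp

theorem VV_eq (X : ℕ → ℕ → ℝ) (n : ℕ) (θ : ℝ) : VV X n θ = Vd X n (idx n θ) := by
  induction n with
  | zero => simp [VV, Vd]
  | succ n ih =>
    unfold VV at ih ⊢
    rw [Finset.sum_range_succ, ih]
    simp only [Vd, idx_half]

theorem idx_lt (n : ℕ) (θ : ℝ) (hθ : θ ∈ Ico 0 (2 * Real.pi)) : idx n θ < 2 ^ n := by
  unfold idx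
  have h1 : 0 ≤ θ * 2 ^ n / (2 * Real.pi) := by
    have := hθ.1
    have := Real.pi_pos
    positivity
  rw [Nat.floor_lt h1, div_lt_iff₀ (by have := Real.pi_pos; positivity)]
  push_cast
  rw [mul_comm]
  exact mul_lt_mul_of_pos_left hθ.2 (by positivity)

theorem mem_arc (n : ℕ) (θ : ℝ) (hθ : θ ∈ Ico 0 (2 * Real.pi)) : θ ∈ arc n (idx n θ) := by
  have hpi := Real.pi_pos
  have h1 : 0 ≤ θ * 2 ^ n / (2 * Real.pi) := by
    have := hθ.1
    positivity
  have h2 : (idx n θ : ℝ) ≤ θ * 2 ^ n / (2 * Real.pi) := Nat.floor_le h1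
  have h3 : θ * 2 ^ n / (2 * Real.pi) < idx n θ + 1 := Nat.lt_floor_add_one _
  have hp : (0 : ℝ) < 2 ^ n := by positivity
  unfold arc
  constructor
  · rw [div_le_iff₀ hp]
    rw [le_div_iff₀ (by positivity)] at h2
    linarith
  · rw [lt_div_iff₀ hp]
    rw [div_lt_iff₀ (by positivity)] at h3
    linarith

/-- the exponential supermartingale -/
noncomputable def Y (X : ℕ → ℕ → ℝ) (lam : ℝ) (j i : ℕ) : ℝ :=
  Real.exp (lam * (X j i - X 0 0) - lam ^ 2 / 2 * Vd X j i)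

theorem Y_super (X : ℕ → ℕ → ℝ)
    (hX : ∀ j i : ℕ, X j i = (X (j + 1) (2 * i) + X (j + 1) (2 * i + 1)) / 2) (lam : ℝ) (j i : ℕ) :
    (Y X lam (j + 1) (2 * i) + Y X lam (j + 1) (2 * i + 1)) / 2 ≤ Y X lam j i := by
  have h0 : 2 * i / 2 = i := by omega
  have h1 : (2 * i + 1) / 2 = i := by omega
  set D : ℝ := X (j + 1) (2 * i) - X j i with hD
  have hD1 : X (j + 1) (2 * i) = X j i + D := by rw [hD]; ring
  have hD2 : X (j + 1) (2 * i + 1) = X j i - D := by
    have := hX j i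
    rw [hD]; linarith
  have e1 : Y X lam (j + 1) (2 * i) = Y X lam j i * (Real.exp (lam * D) *
      Real.exp (-((lam * D) ^ 2 / 2))) := by
    unfold Y
    rw [← Real.exp_add, ← Real.exp_add]
    congr 1
    simp only [Vd, h0]
    rw [hD1]
    ring
  have e2 : Y X lam (j + 1) (2 * i + 1) = Y X lam j i * (Real.exp (-(lam * D)) *
      Real.exp (-((lam * D) ^ 2 / 2))) := by
    unfold Y
    rw [← Real.exp_add, ← Real.exp_add]
    congr 1
    simp only [Vd, h1]
    rw [hD2]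
    ring
  have e3 : Real.cosh (lam * D) * Real.exp (-((lam * D) ^ 2 / 2)) ≤ 1 := by
    have h2 := Real.cosh_le_exp_half_sq (lam * D)
    calc Real.cosh (lam * D) * Real.exp (-((lam * D) ^ 2 / 2)) ≤
        Real.exp ((lam * D) ^ 2 / 2) * Real.exp (-((lam * D) ^ 2 / 2)) :=
          mul_le_mul_of_nonneg_right h2 (Real.exp_pos _).le
      _ = 1 := by rw [← Real.exp_add, add_neg_cancel, Real.exp_zero]
  have e4 : (Y X lam (j + 1) (2 * i) + Y X lam (j + 1) (2 * i + 1)) / 2 =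
      Y X lam j i * (Real.cosh (lam * D) * Real.exp (-((lam * D) ^ 2 / 2))) := by
    rw [e1, e2, Real.cosh_eq]
    ring
  rw [e4]
  have h5 : 0 ≤ Y X lam j i := (Real.exp_pos _).le
  calc Y X lam j i * (Real.cosh (lam * D) * Real.exp (-((lam * D) ^ 2 / 2))) ≤ Y X lam j i * 1 :=
        mul_le_mul_of_nonneg_left e3 h5
    _ = _ := mul_one _

/-- the exceptional sets -/
def Ex (X : ℕ → ℕ → ℝ) (lam s : ℝ) : Set ℝ :=
  {θ : ℝ | θ ∈ arc 0 0 ∧ ∃ n k : ℕ, 0 ≤ n ∧ k < 2 ^ n ∧ θ ∈ arc n k ∧ s ≤ Y X lam n k}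

theorem Ex_vol (X : ℕ → ℕ → ℝ)
    (hX : ∀ j i : ℕ, X j i = (X (j + 1) (2 * i) + X (j + 1) (2 * i + 1)) / 2) (lam s : ℝ)
    (hs : 0 < s) : volume (Ex X lam s) ≤ ENNReal.ofReal (2 * Real.pi / s) := by
  have h := Tree.t (Y X lam) (fun j i _ => (Real.exp_pos _).le) (fun j i _ => Y_super X hX lam j i)
    0 0 s (by norm_num) hs
  refine h.trans (ENNReal.ofReal_le_ofReal (le_of_eq ?_))
  have h1 : Y X lam 0 0 = 1 := by simp [Y, Vd]
  rw [h1, pow_zero]
  ring

theorem not_Ex (X : ℕ → ℕ → ℝ) (lam s : ℝ) (hs : 0 < s) (θ : ℝ) (hθ : θ ∈ Ico 0 (2 * Real.pi))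
    (h : θ ∉ Ex X lam s) (n : ℕ) :
    lam * (X n (idx n θ) - X 0 0) - lam ^ 2 / 2 * VV X n θ < Real.log s := by
  by_contra hc
  push Not at hc
  apply h
  refine ⟨?_, n, idx n θ, Nat.zero_le _, idx_lt n θ hθ, mem_arc n θ hθ, ?_⟩
  · have := mem_arc 0 θ hθ
    have h0 : idx 0 θ = 0 := by
      have := idx_lt 0 θ hθ
      rw [pow_zero] at this
      omega
    rwa [h0] at this
  · unfold Y
    rw [← VV_eq]
    exact (Real.log_le_iff_le_exp hs).1 hc

theorem key_alg (V L P lam x : ℝ) (hL : 0 < L) (hP : 0 < P) (hV : V ≤ P)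
    (hlam : lam = √(L / P)) (h : lam * x - lam ^ 2 / 2 * V < 2 * L) : x ≤ 5 / 2 * √(P * L) := by
  have h1 : 0 < lam := by rw [hlam]; positivity
  have h2 : lam ^ 2 = L / P := by rw [hlam]; exact Real.sq_sqrt (by positivity)
  have h3 : lam * √(P * L) = L := by
    rw [hlam, ← Real.sqrt_mul (by positivity)]
    have : L / P * (P * L) = L ^ 2 := by field_simp
    rw [this, Real.sqrt_sq hL.le]
  have h4 : lam ^ 2 / 2 * V ≤ L / 2 := by
    rw [h2]
    calc L / P / 2 * V ≤ L / P / 2 * P := by gcongr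
      _ = L / 2 := by field_simp
  have h5 : lam * x ≤ lam * (5 / 2 * √(P * L)) := by
    have h6 : lam * (5 / 2 * √(P * L)) = 5 / 2 * (lam * √(P * L)) := by ring
    rw [h6, h3]
    linarith
  exact le_of_mul_le_mul_left h5 h1

theorem one_side (X : ℕ → ℕ → ℝ)
    (hX : ∀ j i : ℕ, X j i = (X (j + 1) (2 * i) + X (j + 1) (2 * i + 1)) / 2) :
    ∀ᵐ θ : ℝ ∂(volume.restrict (Ico 0 (2 * Real.pi))), Tendsto (fun n => VV X n θ) atTop atTop →
    ∀ᶠ n : ℕ in atTop, X n (idx n θ) ≤ 6 * √(VV X n θ * Real.log (Real.log (VV X n θ))) := by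
  let lam : ℕ → ℝ := fun k => √(Real.log (k + 2) / 2 ^ k)
  have h1 : (∑' k : ℕ, volume (Ex X (lam k) (((k : ℝ) + 2) ^ 2))) ≠ ⊤ := by
    have h2 : Summable fun k : ℕ => 2 * Real.pi / ((k : ℝ) + 2) ^ 2 := by
      have h3 : Summable fun k : ℕ => 1 / ((k : ℝ)) ^ 2 := Real.summable_one_div_nat_pow.2 (by norm_num)
      have h4 := (summable_nat_add_iff 2).2 h3
      have h5 := h4.mul_left (2 * Real.pi)
      refine h5.congr fun k => ?_
      push_cast
      ring
    refine ne_top_of_le_ne_top h2.tsum_ofReal_ne_top (ENNReal.tsum_le_tsum fun k => ?_)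
    exact Ex_vol X hX (lam k) _ (by positivity)
  have h2 := ae_eventually_notMem h1
  have h3 : ∀ᵐ θ : ℝ ∂(volume.restrict (Ico 0 (2 * Real.pi))),
      ∀ᶠ k : ℕ in atTop, θ ∉ Ex X (lam k) (((k : ℝ) + 2) ^ 2) := ae_restrict_of_ae h2
  filter_upwards [h3, ae_restrict_mem measurableSet_Ico] with θ hθ hθI hV
  rw [eventually_atTop] at hθ
  obtain ⟨K0, hK0⟩ := hθ
  have hV1 := hV.eventually_ge_atTop (2 ^ K0 : ℝ)
  have hV2 := hV.eventually_ge_atTop (Real.exp 3)
  have hV3 := hV.eventually_ge_atTop ((X 0 0) ^ 2)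
  filter_upwards [hV1, hV2, hV3] with n hn1 hn2 hn3
  set V : ℝ := VV X n θ with hVdef
  have hVpos : 0 < V := lt_of_lt_of_le (Real.exp_pos _) hn2
  have hV1 : 1 ≤ V := by
    have : (1 : ℝ) ≤ Real.exp 3 := Real.one_le_exp (by norm_num)
    linarith
  have hlogV : 3 ≤ Real.log V := by
    rw [Real.le_log_iff_exp_le hVpos]; exact hn2
  obtain ⟨k', hk1, hk2⟩ := exists_nat_pow_near hV1 (by norm_num : (1 : ℝ) < 2)
  -- `k = k' + 1`
  have hkK : K0 ≤ k' + 1 := by
    by_contra hc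
    push Not at hc
    have : (2 : ℝ) ^ (k' + 1) ≤ 2 ^ K0 := pow_le_pow_right₀ (by norm_num) hc.le
    linarith
  have hne := not_Ex X (lam (k' + 1)) ((((k' + 1 : ℕ) : ℝ) + 2) ^ 2) (by positivity) θ hθI
    (hK0 (k' + 1) hkK) n
  set L : ℝ := Real.log (((k' + 1 : ℕ) : ℝ) + 2) with hLdef
  have hLpos : 0 < L := Real.log_pos (by push_cast; linarith [(Nat.cast_nonneg k' : (0 : ℝ) ≤ k')])
  rw [Real.log_pow, ← hVdef] at hne
  have hx := key_alg V L (2 ^ (k' + 1)) (lam (k' + 1)) (X n (idx n θ) - X 0 0) hLpos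
    (by positivity) hk2.le rfl (by rw [hLdef]; push_cast at hne ⊢; exact hne)
  have hP : (2 : ℝ) ^ (k' + 1) ≤ 2 * V := by rw [pow_succ]; linarith
  have hL2 : L ≤ 2 * Real.log (Real.log V) := by
    have e1 : (k' : ℝ) * Real.log 2 ≤ Real.log V := by
      rw [← Real.log_pow]
      exact Real.log_le_log (by positivity) hk1
    have e2 : (0.69 : ℝ) ≤ Real.log 2 := by linarith [Real.log_two_gt_d9]
    have e3 : (k' : ℝ) ≤ 3 / 2 * Real.log V := by
      have : (k' : ℝ) * 0.69 ≤ Real.log V := by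
        have h6 : (0 : ℝ) ≤ k' := Nat.cast_nonneg _
        nlinarith
      linarith
    have e4 : ((k' + 1 : ℕ) : ℝ) + 2 ≤ (Real.log V) ^ 2 := by
      push_cast
      nlinarith
    have e5 : Real.log ((Real.log V) ^ 2) = 2 * Real.log (Real.log V) := by
      rw [Real.log_pow]; norm_num
    rw [← e5, hLdef]
    exact Real.log_le_log (by positivity) e4
  have hLL : 1 ≤ Real.log (Real.log V) := by
    rw [Real.le_log_iff_exp_le (by linarith)]
    linarith [Real.exp_one_lt_d9]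
  have hS : √(2 ^ (k' + 1) * L) ≤ 2 * √(V * Real.log (Real.log V)) := by
    have e1 : (2 : ℝ) ^ (k' + 1) * L ≤ 2 ^ 2 * (V * Real.log (Real.log V)) := by
      calc (2 : ℝ) ^ (k' + 1) * L ≤ (2 * V) * (2 * Real.log (Real.log V)) := by
            apply mul_le_mul hP hL2 hLpos.le (by positivity)
        _ = _ := by ring
    refine (Real.sqrt_le_sqrt e1).trans (le_of_eq ?_)
    rw [Real.sqrt_mul (by positivity), Real.sqrt_sq (by norm_num)]
  have hX0 : X 0 0 ≤ √(V * Real.log (Real.log V)) := by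
    refine (le_abs_self _).trans ?_
    rw [← Real.sqrt_sq_eq_abs]
    apply Real.sqrt_le_sqrt
    nlinarith
  linarith

theorem VV_neg (X : ℕ → ℕ → ℝ) (n : ℕ) (θ : ℝ) : VV (fun j i => -X j i) n θ = VV X n θ := by
  unfold VV
  apply Finset.sum_congr rfl
  intro j _
  ring

/-- CLU -/
theorem t : Pool.Agent.N673.TW.S_CLU := by
  refine ⟨6, by norm_num, fun B X hX => ?_⟩
  have h1 := one_side X hX.1
  have h2 := one_side (fun j i => -X j i) (fun j i => by rw [hX.1 j i]; ring)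
  filter_upwards [h1, h2] with θ h1 h2 hV
  have h3 : Tendsto (fun n => VV (fun j i => -X j i) n θ) atTop atTop := by
    simp only [VV_neg]; exact hV
  filter_upwards [h1 hV, h2 h3] with n h4 h5
  rw [VV_neg] at h5
  rw [abs_le]
  constructor <;> linarith

end Pool.Agent.N673.TW.Clu
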