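import Pool.Agent.N673.TW.Stm4
import Pool.Agent.N253.LC.Fin
import Pool.Agent.N253.LC.Koe

set_option autoImplicit false

/-!
# Project TW: the exterior map near a ray which lands
-/

open Complex Filter Topology Metric Set MeasureTheory

namespace Pool.Agent.N673.TW.Cor

open Pool.Agent.H713R2 (IsExteriorMap)
open Pool.Agent.N253.LC (nexp nexp_gt polar isOpen_ext)

variable {M : Set ℂ} {ψ : ℂ → ℂ} {c0 : ℂ}

theorem cont (h : IsExteriorMap M ψ) {u : ℂ} (hu : ‖u‖ = 1) {a b : ℝ} (ha : 0 < a) :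
    ContinuousOn (fun t : ℝ => ‖ψ (Real.exp t * u) - c0‖) (Icc a b) := by
  have h1 : ContinuousOn (fun t : ℝ => ψ (Real.exp t * u)) (Icc a b) := by
    refine h.diff.continuousOn.comp (by fun_prop) ?_
    intro t ht
    exact nexp_gt (lt_of_lt_of_le ha ht.1) hu
  exact (h1.sub continuousOn_const).norm

/-- A point of the ray where the distance from `c0` is `R`. -/
theorem ivt (h : IsExteriorMap M ψ) {u : ℂ} (hu : ‖u‖ = 1) {a b R : ℝ} (ha : 0 < a) (hb : 0 < b)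
    (h1 : ‖ψ (Real.exp a * u) - c0‖ ≤ R) (h2 : R ≤ ‖ψ (Real.exp b * u) - c0‖) :
    ∃ t, min a b ≤ t ∧ t ≤ max a b ∧ ‖ψ (Real.exp t * u) - c0‖ = R := by
  rcases le_total a b with hab | hab
  · have h3 := intermediate_value_Icc hab (cont (c0 := c0) h hu (b := b) ha)
    obtain ⟨t, ht, h4⟩ := h3 ⟨h1, h2⟩
    refine ⟨t, ?_, ?_, h4⟩
    · rw [min_eq_left hab]; exact ht.1
    · rw [max_eq_right hab]; exact ht.2
  · have h3 := intermediate_value_Icc' hab (cont (c0 := c0) h hu (b := a) hb)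
    obtain ⟨t, ht, h4⟩ := h3 ⟨h1, h2⟩
    refine ⟨t, ?_, ?_, h4⟩
    · rw [min_eq_right hab]; exact ht.1
    · rw [max_eq_left hab]; exact ht.2

/-- A ray cannot go from the disc of radius `R / 2` to the circle of radius `R` at low levels. -/
theorem climb {d : ℕ} {N : ℝ → ℕ} {R₀ B D C : ℝ} (h : Hy M ψ c0 d N R₀ B D C) {R : ℝ} (hR : 0 < R)
    (hRR : R ≤ R₀) {u : ℂ} (hu : ‖u‖ = 1) {a b s : ℝ} (ha : 0 < a) (hb : 0 < b) (has : a ≤ s)
    (hbs : b ≤ s) (hs : s * ((d : ℝ) ^ N R * ((N R : ℝ) + 2) ^ B) < 1)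
    (h1 : ‖ψ (Real.exp a * u) - c0‖ ≤ R / 2) : ‖ψ (Real.exp b * u) - c0‖ ≤ R := by
  by_contra hcon
  push Not at hcon
  obtain ⟨x, hx1, hx2, hx3⟩ := ivt h.ext hu ha hb (h1.trans (by linarith : R / 2 ≤ R)) hcon.le
  have hx0 : 0 < x := lt_of_lt_of_le (lt_min ha hb) hx1
  have hxs : x ≤ s := hx2.trans (max_le has hbs)
  have h2 := h.two R hR hRR u hu x a hx0 ha hx3.le (h1.trans (by linarith)) (by
    have h3 : ‖ψ (Real.exp x * u) - c0‖ ≤ ‖ψ (Real.exp x * u) - ψ (Real.exp a * u)‖ +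
        ‖ψ (Real.exp a * u) - c0‖ := by
      have := norm_add_le (ψ (Real.exp x * u) - ψ (Real.exp a * u)) (ψ (Real.exp a * u) - c0)
      rwa [sub_add_sub_cancel] at this
    linarith)
  have h4 : 0 ≤ (d : ℝ) ^ N R * ((N R : ℝ) + 2) ^ B := by positivity
  have h5 : max x a * ((d : ℝ) ^ N R * ((N R : ℝ) + 2) ^ B) ≤
      s * ((d : ℝ) ^ N R * ((N R : ℝ) + 2) ^ B) := by
    gcongr
    exact max_le hxs has
  linarith

theorem t : S_COR := by
  intro M ψ c0 d N R₀ B D C h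
  obtain ⟨K0, hK0, HK⟩ := Pool.Agent.N253.LC.t_KOE
  have hR0 := h.R0
  have hd2 := h.d2
  have hB0 := h.B0
  refine ⟨2 * (1 + K0), R₀ / (2 * (1 + K0)), by linarith, by positivity,
    div_le_self hR0.le (by linarith), ?_⟩
  intro ζ hζ hland R hR hRR w hw hw8 hlt
  obtain ⟨s, hsw⟩ : ∃ s : ℝ, s = ‖w - ζ‖ := ⟨_, rfl⟩
  rw [← hsw] at hw8 hlt
  have hs0 : 0 < s := by
    rw [hsw, norm_pos_iff, sub_ne_zero]
    rintro rfl
    linarith
  have hKR : 2 * (1 + K0) * R ≤ R₀ := by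
    rw [le_div_iff₀ (by positivity)] at hRR
    linarith
  have hR1 : R ≤ R₀ := by nlinarith
  -- the ray which lands
  have hb1 : ‖ψ (Real.exp s * ζ) - c0‖ ≤ R := by
    have h1 : ∀ᶠ a in 𝓝[>] (0 : ℝ), ‖ψ (Real.exp a * ζ) - c0‖ ≤ R / 2 := by
      have h2 := hland (closedBall_mem_nhds c0 (by positivity : 0 < R / 2))
      filter_upwards [h2] with a ha
      have ha : ψ (Real.exp a * ζ) ∈ closedBall c0 (R / 2) := ha
      rwa [mem_closedBall, dist_eq_norm] at ha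
    have h3 : ∀ᶠ a in 𝓝[>] (0 : ℝ), a ≤ s := nhdsWithin_le_nhds (Iic_mem_nhds hs0)
    obtain ⟨a, ha1, ha2, ha3⟩ := (h1.and (h3.and self_mem_nhdsWithin)).exists
    have ha3 : 0 < a := ha3
    exact climb h hR hR1 hζ ha3 hs0 ha2 le_rfl hlt ha1
  obtain ⟨b, u, hb, hu, hb', hu', hwu⟩ := polar hw
  have hw1 : ‖w‖ ≤ 1 + s := by
    have := norm_add_le (w - ζ) ζ
    rw [sub_add_cancel, ← hsw, hζ] at this
    linarith
  have hbs : b ≤ s := by
    rw [hb']
    have := Real.log_le_sub_one_of_pos (by linarith : 0 < ‖w‖)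
    linarith
  have hes : Real.exp s ≤ 2 := by
    have h7 : Real.exp s ≤ Real.exp (1 / 8) := Real.exp_le_exp.mpr hw8
    have h8 : Real.exp (1 / 8 : ℝ) ^ 8 = Real.exp 1 := by
      rw [← Real.exp_nat_mul]; norm_num
    have h9 : Real.exp (1 / 8 : ℝ) ≤ 2 := by
      by_contra hcon
      push Not at hcon
      have : (2 : ℝ) ^ 8 < Real.exp (1 / 8 : ℝ) ^ 8 :=
        pow_lt_pow_left₀ hcon (by norm_num) (by norm_num)
      rw [h8] at this
      nlinarith [Real.exp_one_lt_d9]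
    linarith
  have huw : ‖ζ - u‖ ≤ 2 * s := by
    have e1 : ‖w - u‖ = ‖w‖ - 1 := by
      have e2 : w - u = ((‖w‖ - 1 : ℝ) : ℂ) * u := by
        have e3 : w = (‖w‖ : ℂ) * u := by
          rw [hu']
          have : (‖w‖ : ℂ) ≠ 0 := by
            have : ‖w‖ ≠ 0 := by linarith
            exact_mod_cast this
          field_simp
        calc w - u = (‖w‖ : ℂ) * u - u := by rw [← e3]
          _ = _ := by push_cast; ring
      rw [e2, norm_mul, hu, mul_one, Complex.norm_real, Real.norm_of_nonneg (by linarith)]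
    have e4 := norm_add_le (ζ - w) (w - u)
    rw [sub_add_sub_cancel, e1, norm_sub_rev ζ w, ← hsw] at e4
    linarith
  have h7 := HK ψ h.ext.diff h.ext.inj s ((Real.exp s : ℂ) * ζ) ((Real.exp s : ℂ) * u) c0 hs0 hw8
    (by rw [nexp s hζ]; linarith [Real.add_one_le_exp s])
    (by rw [nexp s hu]; linarith [Real.add_one_le_exp s])
    (by
      rw [← mul_sub, norm_mul, Complex.norm_real, Real.norm_of_nonneg (Real.exp_pos _).le]
      calc Real.exp s * ‖ζ - u‖ ≤ 2 * (2 * s) := by gcongr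
        _ = 4 * s := by ring)
    (by
      rw [h.ext.image]
      exact fun hh => hh h.mem)
  have h8 : ‖ψ (Real.exp s * u) - c0‖ ≤ 2 * (1 + K0) * R / 2 := by
    have e1 := norm_sub_le (ψ (Real.exp s * ζ) - c0) (ψ (Real.exp s * ζ) - ψ (Real.exp s * u))
    rw [sub_sub_sub_cancel_left] at e1
    have e2 : K0 * ‖ψ (Real.exp s * ζ) - c0‖ ≤ K0 * R := by gcongr
    linarith
  have hN : N (2 * (1 + K0) * R) ≤ N R := h.anti R (2 * (1 + K0) * R) hR (by nlinarith) hKR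
  have h9 := climb h (by positivity : 0 < 2 * (1 + K0) * R) hKR hu hs0 hb le_rfl hbs (by
    refine lt_of_le_of_lt ?_ hlt
    have h10 : (d : ℝ) ^ N (2 * (1 + K0) * R) ≤ (d : ℝ) ^ N R :=
      pow_le_pow_right₀ (by exact_mod_cast (by omega : 1 ≤ d)) hN
    have h11 : ((N (2 * (1 + K0) * R) : ℝ) + 2) ^ B ≤ ((N R : ℝ) + 2) ^ B := by
      have : (N (2 * (1 + K0) * R) : ℝ) ≤ N R := by exact_mod_cast hN
      gcongr
    gcongr) h8
  rw [← hwu] at h9
  exact h9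

end Pool.Agent.N673.TW.Cor
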