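import Pool.Agent.N673.TW.Stm
import Pool.Agent.N673.TW.Tree

set_option autoImplicit false

/-!
# TW/DEV: exponential large deviation bound for Bloch functions over dyadic arcs (helper572)
-/

open Complex Filter Topology Metric Set MeasureTheory

namespace Pool.Agent.N673.TW.Dev

open Pool.Agent.N673.TW.Tree

theorem norm_pt {r : ℝ} (θ : ℝ) (hr : 0 ≤ r) : ‖pt r θ‖ = r := by
  unfold pt
  rw [norm_circleMap_zero, abs_of_nonneg hr]

theorem norm_pt_sub (r s θ : ℝ) : ‖pt r θ - pt s θ‖ = |r - s| := by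
  unfold pt circleMap
  have h : (0 + (r : ℂ) * exp (θ * I)) - (0 + (s : ℂ) * exp (θ * I)) =
      ((r - s : ℝ) : ℂ) * exp (θ * I) := by
    push_cast; ring
  rw [h, norm_mul, norm_exp_ofReal_mul_I, mul_one, Complex.norm_real, Real.norm_eq_abs]

theorem near {H : ℂ → ℂ} (hB : Bl H) {ρ r θ : ℝ} (h0 : 0 ≤ ρ)
    (h1 : ρ ≤ r) (h2 : r < 1) :
    ‖H (pt ρ θ) - H (pt r θ)‖ ≤ 6 * ((1 - ρ) / (1 - r)) := by
  have hr0 : 0 ≤ r := h0.trans h1
  have hr1 : 0 < 1 - r := by linarith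
  have hsub : closedBall (0:ℂ) r ⊆ ball 0 1 := closedBall_subset_ball h2
  have hb : ∀ x ∈ closedBall (0:ℂ) r, ‖deriv H x‖ ≤ 6 / (1 - r) := by
    intro x hx
    have hx' : ‖x‖ ≤ r := mem_closedBall_zero_iff.1 hx
    rw [le_div_iff₀ hr1]
    refine le_trans ?_ (hB.2 x (hsub hx))
    gcongr
  have h3 := (convex_closedBall (0:ℂ) r).norm_image_sub_le_of_norm_deriv_le (f := H)
    (fun x hx => hB.1.differentiableAt (isOpen_ball.mem_nhds (hsub hx))) hb
    (x := pt r θ) (y := pt ρ θ) (mem_closedBall_zero_iff.2 (norm_pt θ hr0).le)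
    (mem_closedBall_zero_iff.2 ((norm_pt θ h0).le.trans h1))
  refine h3.trans ?_
  rw [norm_pt_sub, abs_of_nonpos (by linarith), div_mul_eq_mul_div, mul_div_assoc]
  gcongr
  linarith

theorem rj_nonneg (j : ℕ) : 0 ≤ rj j := by
  unfold rj
  have h1 : (1 : ℝ) ≤ 2 ^ j := one_le_pow₀ (by norm_num)
  have : 1 / (2 : ℝ) ^ j ≤ 1 := by rw [div_le_one (by positivity)]; exact h1
  linarith

theorem rj_lt (j : ℕ) : rj j < 1 := by
  unfold rj
  have : 0 < 1 / (2 : ℝ) ^ j := by positivity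
  linarith

theorem near12 {H : ℂ → ℂ} (hB : Bl H) (j : ℕ) (θ : ℝ) :
    |(H (pt (rj (j + 1)) θ)).re - (H (pt (rj j) θ)).re| ≤ 12 := by
  have h1 : rj j ≤ rj (j + 1) := by
    unfold rj
    have : 1 / (2 : ℝ) ^ (j + 1) ≤ 1 / 2 ^ j := by
      apply one_div_le_one_div_of_le (by positivity)
      exact pow_le_pow_right₀ (by norm_num) (Nat.le_succ j)
    linarith
  have h2 := near hB (θ := θ) (rj_nonneg j) h1 (rj_lt (j + 1))
  have h3 : (1 - rj j) / (1 - rj (j + 1)) = 2 := by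
    unfold rj
    rw [pow_succ]
    field_simp
    ring
  rw [h3] at h2
  have h4 := abs_re_le_norm (H (pt (rj j) θ) - H (pt (rj (j + 1)) θ))
  rw [sub_re] at h4
  rw [abs_sub_comm]
  linarith

/-- left endpoints -/
theorem left_mem (j i : ℕ) : 2 * Real.pi * i / 2 ^ j ∈ arc j i := by
  unfold arc
  have hpi := Real.pi_pos
  refine ⟨le_rfl, ?_⟩
  gcongr
  linarith

theorem arc_sub_left (j i : ℕ) : arc (j + 1) (2 * i) ⊆ arc j i := by
  unfold arc
  have hpi := Real.pi_pos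
  have e1 : 2 * Real.pi * ((2 * i : ℕ) : ℝ) / 2 ^ (j + 1) = 2 * Real.pi * i / 2 ^ j := by
    rw [pow_succ]; push_cast; field_simp
  have e2 : 2 * Real.pi * (((2 * i : ℕ) : ℝ) + 1) / 2 ^ (j + 1) ≤
      2 * Real.pi * (i + 1) / 2 ^ j := by
    rw [pow_succ, div_le_div_iff₀ (by positivity) (by positivity)]
    push_cast
    have : (0 : ℝ) < 2 ^ j := by positivity
    nlinarith [mul_pos hpi this]
  exact Ico_subset_Ico e1.ge e2

theorem arc_sub_right (j i : ℕ) : arc (j + 1) (2 * i + 1) ⊆ arc j i := by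
  unfold arc
  have hpi := Real.pi_pos
  have e1 : 2 * Real.pi * i / 2 ^ j ≤ 2 * Real.pi * ((2 * i + 1 : ℕ) : ℝ) / 2 ^ (j + 1) := by
    rw [pow_succ, div_le_div_iff₀ (by positivity) (by positivity)]
    push_cast
    have : (0 : ℝ) < 2 ^ j := by positivity
    nlinarith [mul_pos hpi this]
  have e2 : 2 * Real.pi * (((2 * i + 1 : ℕ) : ℝ) + 1) / 2 ^ (j + 1) =
      2 * Real.pi * (i + 1) / 2 ^ j := by
    rw [pow_succ]; push_cast; field_simp; ring
  exact Ico_subset_Ico e1 e2.le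

theorem exists_arc {j i : ℕ} {θ : ℝ} (hi : i < 2 ^ j) (h : θ ∈ arc j i) (m : ℕ) :
    ∃ k, k < 2 ^ (j + m) ∧ θ ∈ arc (j + m) k := by
  induction m with
  | zero => exact ⟨i, hi, h⟩
  | succ m ih =>
    obtain ⟨k, hk, hk2⟩ := ih
    have hp : 2 ^ (j + (m + 1)) = 2 * 2 ^ (j + m) := by rw [← add_assoc, pow_succ]; ring
    rcases arc_split hk2 with h3 | h3
    · exact ⟨2 * k, by omega, h3⟩
    · exact ⟨2 * k + 1, by omega, h3⟩

/-- the increments of the martingale are bounded -/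
theorem incr {H : ℂ → ℂ} (hB : Bl H) {C : ℝ} {X : ℕ → ℕ → ℝ}
    (hX : ∀ j i : ℕ, i < 2 ^ j → ∀ θ ∈ arc j i, |X j i - (H (pt (rj j) θ)).re| ≤ C)
    {j i : ℕ} (hi : i < 2 ^ j) : |X (j + 1) (2 * i) - X j i| ≤ 2 * C + 12 := by
  have hp : 2 ^ (j + 1) = 2 * 2 ^ j := by rw [pow_succ]; ring
  have h1 := hX (j + 1) (2 * i) (by omega) _ (left_mem _ _)
  have h2 := hX j i hi _ (arc_sub_left j i (left_mem _ _))
  have h3 := near12 hB j (2 * Real.pi * ((2 * i : ℕ) : ℝ) / 2 ^ (j + 1))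
  rw [abs_le] at *
  constructor <;> linarith [h1.1, h1.2, h2.1, h2.2, h3.1, h3.2]

/-- the exponential supermartingale -/
theorem expo {X : ℕ → ℕ → ℝ} {R l s x0 : ℝ} {j0 : ℕ} (hs : s ^ 2 = 1) (hl : 0 < l)
    (hlR : l * R ^ 2 ≤ 1 / 4)
    (hadd : ∀ j i : ℕ, X j i = (X (j + 1) (2 * i) + X (j + 1) (2 * i + 1)) / 2)
    (hinc : ∀ j i : ℕ, i < 2 ^ j → |X (j + 1) (2 * i) - X j i| ≤ R) (n k : ℕ) (hk : k < 2 ^ n) :
    (Real.exp (s * l * (X (n + 1) (2 * k) - x0) - l * (((n + 1 : ℕ) : ℝ) - j0) / 8) +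
      Real.exp (s * l * (X (n + 1) (2 * k + 1) - x0) - l * (((n + 1 : ℕ) : ℝ) - j0) / 8)) / 2 ≤
      Real.exp (s * l * (X n k - x0) - l * ((n : ℝ) - j0) / 8) := by
  set a := X (n + 1) (2 * k) - X n k with ha
  have h1 := hadd n k
  have h2 : X (n + 1) (2 * k + 1) - X n k = -a := by rw [ha]; linarith
  have h3 := hinc n k hk
  have e1 : s * l * (X (n + 1) (2 * k) - x0) - l * (((n + 1 : ℕ) : ℝ) - j0) / 8 =
      (s * l * (X n k - x0) - l * ((n : ℝ) - j0) / 8) + (-(l / 8)) + s * l * a := by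
    rw [ha]; push_cast; ring
  have e2 : s * l * (X (n + 1) (2 * k + 1) - x0) - l * (((n + 1 : ℕ) : ℝ) - j0) / 8 =
      (s * l * (X n k - x0) - l * ((n : ℝ) - j0) / 8) + (-(l / 8)) + -(s * l * a) := by
    have : X (n + 1) (2 * k + 1) = X n k - a := by linarith
    rw [this]; push_cast; ring
  rw [e1, e2, Real.exp_add _ (s * l * a), Real.exp_add _ (-(s * l * a)), ← mul_add, mul_div_assoc,
    ← Real.cosh_eq, Real.exp_add]
  have h4 : Real.cosh (s * l * a) ≤ Real.exp (l / 8) := by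
    refine (Real.cosh_le_exp_half_sq _).trans (Real.exp_le_exp.mpr ?_)
    have h5 : a ^ 2 ≤ R ^ 2 := by
      rw [← sq_abs a]
      exact pow_le_pow_left₀ (abs_nonneg _) h3 2
    have h6 : (s * l * a) ^ 2 = l * (l * a ^ 2) := by
      have : (s * l * a) ^ 2 = s ^ 2 * (l * (l * a ^ 2)) := by ring
      rw [this, hs, one_mul]
    rw [h6]
    have h7 : l * a ^ 2 ≤ 1 / 4 := (mul_le_mul_of_nonneg_left h5 hl.le).trans hlR
    nlinarith
  have h8 : Real.exp (-(l / 8)) * Real.exp (l / 8) = 1 := by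
    rw [← Real.exp_add, neg_add_cancel, Real.exp_zero]
  calc Real.exp (s * l * (X n k - x0) - l * ((n : ℝ) - j0) / 8) * Real.exp (-(l / 8)) *
        Real.cosh (s * l * a)
      ≤ Real.exp (s * l * (X n k - x0) - l * ((n : ℝ) - j0) / 8) * Real.exp (-(l / 8)) *
        Real.exp (l / 8) := by
        apply mul_le_mul_of_nonneg_left h4 (by positivity)
    _ = Real.exp (s * l * (X n k - x0) - l * ((n : ℝ) - j0) / 8) := by
        rw [mul_assoc, h8, mul_one]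

/-- DEV -/
theorem t (hM : Pool.Agent.N673.TW.S_MEAN) (hT : Pool.Agent.N673.TW.S_TREE) :
    Pool.Agent.N673.TW.S_DEV := by
  obtain ⟨C, hC, hM⟩ := hM
  set R : ℝ := 2 * C + 12 with hR
  set l : ℝ := 1 / (4 * R ^ 2 + 4) with hl
  have hl0 : 0 < l := by positivity
  have hlR : l * R ^ 2 ≤ 1 / 4 := by
    rw [hl, one_div_mul_eq_div, div_le_iff₀ (by positivity)]
    linarith [sq_nonneg R]
  have hpi := Real.pi_pos
  refine ⟨4 * Real.pi * Real.exp (2 * C * l), l, by positivity, hl0, ?_⟩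
  intro H hB j i hi K _
  obtain ⟨X, hadd, hX⟩ := hM H hB
  have hinc : ∀ j i : ℕ, i < 2 ^ j → |X (j + 1) (2 * i) - X j i| ≤ R :=
    fun j i hi => incr hB hX hi
  have key : ∀ s : ℝ, s ^ 2 = 1 →
      volume {θ : ℝ | θ ∈ arc j i ∧ ∃ n k : ℕ, j ≤ n ∧ k < 2 ^ n ∧ θ ∈ arc n k ∧
        Real.exp (l * (K - 2 * C)) ≤
          Real.exp (s * l * (X n k - X j i) - l * ((n : ℝ) - j) / 8)} ≤
      ENNReal.ofReal (2 * Real.pi / 2 ^ j * (1 / Real.exp (l * (K - 2 * C)))) := by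
    intro s hs
    have h1 := hT (fun n k => Real.exp (s * l * (X n k - X j i) - l * ((n : ℝ) - j) / 8))
      (fun _ _ _ => (Real.exp_pos _).le)
      (fun n k hk => expo hs hl0 hlR hadd hinc n k hk) j i (Real.exp (l * (K - 2 * C))) hi
      (Real.exp_pos _)
    simp only [sub_self, mul_zero, zero_div, Real.exp_zero] at h1
    exact h1
  have hsub : {θ : ℝ | θ ∈ arc j i ∧ ∃ n : ℕ, j ≤ n ∧
      K + ((n : ℝ) - j) / 4 < |(H (pt (rj n) θ)).re - (H (pt (rj j) θ)).re|} ⊆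
      {θ : ℝ | θ ∈ arc j i ∧ ∃ n k : ℕ, j ≤ n ∧ k < 2 ^ n ∧ θ ∈ arc n k ∧
        Real.exp (l * (K - 2 * C)) ≤
          Real.exp (1 * l * (X n k - X j i) - l * ((n : ℝ) - j) / 8)} ∪
      {θ : ℝ | θ ∈ arc j i ∧ ∃ n k : ℕ, j ≤ n ∧ k < 2 ^ n ∧ θ ∈ arc n k ∧
        Real.exp (l * (K - 2 * C)) ≤
          Real.exp ((-1) * l * (X n k - X j i) - l * ((n : ℝ) - j) / 8)} := by
    rintro θ ⟨hθ, n, hn, hbig⟩
    obtain ⟨k, hk, hk2⟩ := exists_arc hi hθ (n - j)
    rw [Nat.add_sub_cancel' hn] at hk hk2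
    have h1 := hX n k hk θ hk2
    have h2 := hX j i hi θ hθ
    have hnj : (0 : ℝ) ≤ (n : ℝ) - j := by
      have : (j : ℝ) ≤ n := by exact_mod_cast hn
      linarith
    rw [abs_le] at h1 h2
    rcases le_total 0 ((H (pt (rj n) θ)).re - (H (pt (rj j) θ)).re) with h3 | h3
    · left
      refine ⟨hθ, n, k, hn, hk, hk2, Real.exp_le_exp.mpr ?_⟩
      rw [abs_of_nonneg h3] at hbig
      have h4 : K - 2 * C + ((n : ℝ) - j) / 8 ≤ X n k - X j i := by
        linarith [h1.1, h1.2, h2.1, h2.2]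
      have := mul_le_mul_of_nonneg_left h4 hl0.le
      linarith
    · right
      refine ⟨hθ, n, k, hn, hk, hk2, Real.exp_le_exp.mpr ?_⟩
      rw [abs_of_nonpos h3] at hbig
      have h4 : K - 2 * C + ((n : ℝ) - j) / 8 ≤ -(X n k - X j i) := by
        linarith [h1.1, h1.2, h2.1, h2.2]
      have := mul_le_mul_of_nonneg_left h4 hl0.le
      linarith
  refine (measure_mono hsub).trans ((measure_union_le _ _).trans ?_)
  refine (add_le_add (key 1 (by norm_num)) (key (-1) (by norm_num))).trans ?_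
  rw [← ENNReal.ofReal_add (by positivity) (by positivity)]
  apply ENNReal.ofReal_le_ofReal
  have h1 : 1 / Real.exp (l * (K - 2 * C)) = Real.exp (2 * C * l) * Real.exp (-(l * K)) := by
    rw [one_div, ← Real.exp_neg, ← Real.exp_add]
    congr 1
    ring
  rw [h1]
  apply le_of_eq
  ring

end Pool.Agent.N673.TW.Dev
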