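import Pool.Agent.N673.TW.Stm

/-!
# TW/DICH: almost everywhere, radially bounded below implies radially bounded above
-/

set_option autoImplicit false

open Complex Filter Topology Metric Set MeasureTheory

namespace Pool.Agent.N673.TW.Dich

open Pool.Agent.N673.TW

/-! ### elementary facts about the disc -/

theorem norm_pt {r : ℝ} (hr : 0 ≤ r) (θ : ℝ) : ‖pt r θ‖ = r := by
  unfold pt
  rw [norm_circleMap_zero, abs_of_nonneg hr]

theorem norm_pt_sub (ρ r θ : ℝ) : ‖pt ρ θ - pt r θ‖ = |ρ - r| := by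
  unfold pt circleMap
  rw [zero_add, zero_add, ← sub_mul, norm_mul, norm_exp_ofReal_mul_I, mul_one, ← ofReal_sub,
    norm_real, Real.norm_eq_abs]

theorem pt_add_int (r θ : ℝ) (n : ℤ) : pt r (θ + n * (2 * Real.pi)) = pt r θ :=
  (periodic_circleMap 0 r).int_mul n θ

theorem near {H : ℂ → ℂ} (h : Bl H) {ρ r θ : ℝ} (h0 : 0 ≤ ρ) (h1 : ρ ≤ r) (h2 : r < 1) :
    ‖H (pt ρ θ) - H (pt r θ)‖ ≤ 6 * ((1 - ρ) / (1 - r)) := by
  have hr0 : 0 ≤ r := h0.trans h1
  have hr1 : 0 < 1 - r := by linarith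
  have hsub : closedBall (0:ℂ) r ⊆ ball 0 1 := closedBall_subset_ball h2
  have hb : ∀ x ∈ closedBall (0:ℂ) r, ‖deriv H x‖ ≤ 6 / (1 - r) := by
    intro x hx
    have hx' : ‖x‖ ≤ r := mem_closedBall_zero_iff.1 hx
    rw [le_div_iff₀ hr1]
    refine le_trans ?_ (h.2 x (hsub hx))
    gcongr
  have h3 := (convex_closedBall (0:ℂ) r).norm_image_sub_le_of_norm_deriv_le (f := H)
    (fun x hx => h.1.differentiableAt (isOpen_ball.mem_nhds (hsub hx))) hb
    (x := pt r θ) (y := pt ρ θ) (mem_closedBall_zero_iff.2 (norm_pt hr0 θ).le)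
    (mem_closedBall_zero_iff.2 ((norm_pt h0 θ).le.trans h1))
  refine h3.trans ?_
  rw [norm_pt_sub, abs_of_nonpos (by linarith), div_mul_eq_mul_div, ← mul_div_assoc]
  gcongr
  linarith

theorem rj_nonneg (j : ℕ) : 0 ≤ rj j := by
  unfold rj
  have : (1 : ℝ) / 2 ^ j ≤ 1 := by
    rw [div_le_one (by positivity)]
    exact one_le_pow₀ (by norm_num)
  linarith

theorem rj_lt (j : ℕ) : rj j < 1 := by
  unfold rj
  have : (0 : ℝ) < 1 / 2 ^ j := by positivity
  linarith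

theorem one_sub_rj (j : ℕ) : 1 - rj j = 1 / 2 ^ j := by
  unfold rj
  ring

theorem rj_succ (j : ℕ) : rj j ≤ rj (j + 1) := by
  have h1 := one_sub_rj j
  have h2 := one_sub_rj (j + 1)
  have h3 : (1 : ℝ) / 2 ^ (j + 1) ≤ 1 / 2 ^ j := by
    rw [pow_succ]
    have : (0 : ℝ) < 2 ^ j := by positivity
    gcongr
    linarith
  linarith

/-- from one period to the line -/
theorem ae_of_period {p : ℝ → Prop} (hp : ∀ (θ : ℝ) (n : ℤ), p (θ + n * (2 * Real.pi)) → p θ)
    (h : ∀ᵐ θ : ℝ, θ ∈ Ico 0 (2 * Real.pi) → p θ) : ∀ᵐ θ : ℝ, p θ := by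
  have hpi := Real.pi_pos
  have h1 : ∀ᵐ θ : ℝ, ∀ n : ℤ, (θ + n * (2 * Real.pi) ∈ Ico 0 (2 * Real.pi) →
      p (θ + n * (2 * Real.pi))) := by
    rw [ae_all_iff]
    intro n
    exact (measurePreserving_add_right volume ((n : ℝ) * (2 * Real.pi))).quasiMeasurePreserving.ae h
  filter_upwards [h1] with θ hθ
  set m : ℤ := ⌊θ / (2 * Real.pi)⌋ with hm
  have h2 : (m : ℝ) ≤ θ / (2 * Real.pi) := Int.floor_le _
  have h3 : θ / (2 * Real.pi) < m + 1 := Int.lt_floor_add_one _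
  rw [le_div_iff₀ (by positivity)] at h2
  rw [div_lt_iff₀ (by positivity)] at h3
  refine hp θ (-m) (hθ (-m) ⟨?_, ?_⟩)
  · push_cast; linarith
  · push_cast; linarith

/-! ### dyadic arcs -/

/-- the index of the arc of generation `n` which contains `θ` -/
noncomputable def ix (n : ℕ) (θ : ℝ) : ℕ := ⌊θ * 2 ^ n / (2 * Real.pi)⌋₊

theorem ix_mem {θ : ℝ} (h : 0 ≤ θ) (n : ℕ) : θ ∈ arc n (ix n θ) := by
  have hpi := Real.pi_pos
  have h1 : (ix n θ : ℝ) ≤ θ * 2 ^ n / (2 * Real.pi) := Nat.floor_le (by positivity)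
  have h2 : θ * 2 ^ n / (2 * Real.pi) < ix n θ + 1 := Nat.lt_floor_add_one _
  rw [le_div_iff₀ (by positivity)] at h1
  rw [div_lt_iff₀ (by positivity)] at h2
  constructor
  · rw [div_le_iff₀ (by positivity)]
    linarith
  · rw [lt_div_iff₀ (by positivity)]
    linarith

theorem ix_lt {θ : ℝ} (h0 : 0 ≤ θ) (h : θ < 2 * Real.pi) (n : ℕ) : ix n θ < 2 ^ n := by
  have hpi := Real.pi_pos
  unfold ix
  rw [Nat.floor_lt (by positivity), div_lt_iff₀ (by positivity)]
  push_cast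
  have : (0 : ℝ) < 2 ^ n := by positivity
  nlinarith

theorem ix_succ (n : ℕ) (θ : ℝ) : ix (n + 1) θ / 2 = ix n θ := by
  unfold ix
  rw [← Nat.floor_div_natCast]
  congr 1
  rw [pow_succ]
  push_cast
  ring

/-! ### the stopped process -/

section Stop
variable (X : ℕ → ℕ → ℝ) (A R : ℝ)

/-- stopped vertices -/
def St : ℕ → ℕ → Prop
  | 0, i => X 0 i ≤ -A
  | j + 1, i => St j (i / 2) ∨ X (j + 1) i ≤ -A

open Classical in
/-- the stopped process -/
noncomputable def Y : ℕ → ℕ → ℝ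
  | 0, i => if X 0 i ≤ -A then 0 else X 0 i + A + R
  | j + 1, i => if St X A j (i / 2) then Y j (i / 2) else X (j + 1) i + A + R

theorem Y_pos {j i : ℕ} (h : St X A j (i / 2)) : Y X A R (j + 1) i = Y X A R j (i / 2) := by
  conv_lhs => unfold Y
  exact if_pos h

theorem Y_neg {j i : ℕ} (h : ¬ St X A j (i / 2)) : Y X A R (j + 1) i = X (j + 1) i + A + R := by
  conv_lhs => unfold Y
  exact if_neg h

theorem lt_of_not_St {j i : ℕ} (h : ¬ St X A j i) : -A < X j i := by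
  cases j with
  | zero => exact not_le.1 h
  | succ j =>
    unfold St at h
    push Not at h
    exact h.2

theorem Y_of_not_St {j i : ℕ} (h : ¬ St X A j i) : Y X A R j i = X j i + A + R := by
  cases j with
  | zero =>
    unfold Y
    exact if_neg h
  | succ j =>
    unfold St at h
    unfold Y
    exact if_neg fun h' => h (Or.inl h')

variable {X A R}

theorem Y_nonneg (hR : 0 ≤ R)
    (hX : ∀ j i, i < 2 ^ (j + 1) → |X (j + 1) i - X j (i / 2)| ≤ R) :
    ∀ j i, i < 2 ^ j → 0 ≤ Y X A R j i := by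
  intro j
  induction j with
  | zero =>
    intro i _
    unfold Y
    split_ifs with h
    · exact le_rfl
    · push Not at h
      linarith
  | succ j ih =>
    intro i hi
    have hi2 : i / 2 < 2 ^ j := by
      rw [pow_succ] at hi
      omega
    unfold Y
    split_ifs with h
    · exact ih _ hi2
    · have h1 := lt_of_not_St X A h
      have h2 := (abs_le.1 (hX j i hi)).1
      linarith

theorem Y_super (hX : ∀ j i : ℕ, X j i = (X (j + 1) (2 * i) + X (j + 1) (2 * i + 1)) / 2)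
    (j i : ℕ) : (Y X A R (j + 1) (2 * i) + Y X A R (j + 1) (2 * i + 1)) / 2 ≤ Y X A R j i := by
  have h1 : 2 * i / 2 = i := by omega
  have h2 : (2 * i + 1) / 2 = i := by omega
  by_cases h : St X A j i
  · rw [Y_pos X A R (by rwa [h1]), Y_pos X A R (by rwa [h2]), h1, h2]
    linarith
  · rw [Y_neg X A R (by rwa [h1]), Y_neg X A R (by rwa [h2]), Y_of_not_St X A R h, hX j i]
    linarith

theorem not_St {θ : ℝ} (h : ∀ n, -A < X n (ix n θ)) (n : ℕ) : ¬ St X A n (ix n θ) := by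
  induction n with
  | zero => exact not_le.2 (h 0)
  | succ n ih =>
    unfold St
    rw [ix_succ]
    push Not
    exact ⟨ih, h (n + 1)⟩

end Stop

theorem null (hT : S_TREE) (X : ℕ → ℕ → ℝ) (A R : ℝ) (hR : 0 ≤ R)
    (hX : ∀ j i : ℕ, X j i = (X (j + 1) (2 * i) + X (j + 1) (2 * i + 1)) / 2)
    (hX' : ∀ j i, i < 2 ^ (j + 1) → |X (j + 1) i - X j (i / 2)| ≤ R) :
    volume {θ : ℝ | θ ∈ Ico 0 (2 * Real.pi) ∧ (∀ n, -A < X n (ix n θ)) ∧
      ¬ BddAbove (range fun n => X n (ix n θ))} = 0 := by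
  set S := {θ : ℝ | θ ∈ Ico 0 (2 * Real.pi) ∧ (∀ n, -A < X n (ix n θ)) ∧
      ¬ BddAbove (range fun n => X n (ix n θ))} with hS
  have h1 : ∀ m : ℕ, volume S ≤ ENNReal.ofReal (2 * Real.pi * Y X A R 0 0 * (1 / ((m : ℝ) + 1))) := by
    intro m
    have hm : (0 : ℝ) < (m : ℝ) + 1 := by positivity
    have h2 := hT (Y X A R) (Y_nonneg hR hX') (fun j i _ => Y_super hX j i) 0 0 ((m : ℝ) + 1)
      (by norm_num) hm
    have e : 2 * Real.pi / 2 ^ 0 * (Y X A R 0 0 / ((m : ℝ) + 1)) =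
        2 * Real.pi * Y X A R 0 0 * (1 / ((m : ℝ) + 1)) := by
      rw [pow_zero]
      ring
    rw [e] at h2
    refine le_trans (measure_mono fun θ hθ => ?_) h2
    obtain ⟨h3, h4, h5⟩ := hθ
    have h6 : θ ∈ arc 0 0 := by
      unfold arc
      constructor
      · simpa using h3.1
      · simpa using h3.2
    refine ⟨h6, ?_⟩
    have h7 : ∃ n, (m : ℝ) + 1 - A - R ≤ X n (ix n θ) := by
      by_contra hcon
      push Not at hcon
      exact h5 ⟨(m : ℝ) + 1 - A - R, by rintro _ ⟨n, rfl⟩; exact (hcon n).le⟩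
    obtain ⟨n, hn⟩ := h7
    refine ⟨n, ix n θ, Nat.zero_le _, ix_lt h3.1 h3.2 n, ix_mem h3.1 n, ?_⟩
    rw [Y_of_not_St X A R (not_St h4 n)]
    linarith
  have h2 : Tendsto (fun m : ℕ => ENNReal.ofReal (2 * Real.pi * Y X A R 0 0 *
      (1 / ((m : ℝ) + 1)))) atTop (𝓝 0) := by
    have h3 := (tendsto_one_div_add_atTop_nhds_zero_nat (𝕜 := ℝ)).const_mul
      (2 * Real.pi * Y X A R 0 0)
    rw [mul_zero] at h3
    have h4 := ENNReal.tendsto_ofReal h3
    rwa [ENNReal.ofReal_zero] at h4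
  exact le_antisymm (ge_of_tendsto' h2 h1) zero_le

theorem t (hM : S_MEAN) (hT : S_TREE) : S_DICH := by
  intro H hH
  obtain ⟨C, hC, hM⟩ := hM
  obtain ⟨X, hX, hXH⟩ := hM H hH
  apply ae_of_period
  · intro θ n h
    simp only [pt_add_int] at h
    exact h
  have hpi := Real.pi_pos
  have hinc : ∀ j i, i < 2 ^ (j + 1) → |X (j + 1) i - X j (i / 2)| ≤ 2 * C + 12 := by
    intro j i hi
    have hi2 : i / 2 < 2 ^ j := by
      rw [pow_succ] at hi
      omega
    set θ : ℝ := 2 * Real.pi * i / 2 ^ (j + 1) with hθ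
    have h1 : θ ∈ arc (j + 1) i := by
      refine ⟨le_rfl, ?_⟩
      rw [hθ]
      gcongr
      linarith
    have h2 : θ ∈ arc j (i / 2) := by
      have e : θ = 2 * Real.pi * ((i : ℝ) / 2) / 2 ^ j := by
        rw [hθ, pow_succ]
        field_simp
      have h3 : ((i / 2 : ℕ) : ℝ) ≤ (i : ℝ) / 2 := Nat.cast_div_le
      have h4 : (i : ℝ) / 2 < ((i / 2 : ℕ) : ℝ) + 1 := by
        have : i < 2 * (i / 2 + 1) := by omega
        have h5 : (i : ℝ) < ((2 * (i / 2 + 1) : ℕ) : ℝ) := by exact_mod_cast this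
        push_cast at h5
        linarith
      rw [e]
      constructor
      · gcongr
      · gcongr
    have h3 := hXH (j + 1) i hi θ h1
    have h4 := hXH j (i / 2) hi2 θ h2
    have h5 := near hH (θ := θ) (rj_nonneg j) (rj_succ j) (rj_lt (j + 1))
    rw [one_sub_rj, one_sub_rj] at h5
    have e2 : (6 : ℝ) * (1 / 2 ^ j / (1 / 2 ^ (j + 1))) = 12 := by
      rw [pow_succ]
      field_simp
      norm_num
    rw [e2] at h5
    have h6 := (abs_re_le_norm (H (pt (rj j) θ) - H (pt (rj (j + 1)) θ))).trans h5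
    rw [sub_re] at h6
    rw [abs_le] at h3 h4 h6 ⊢
    constructor <;> linarith [h3.1, h3.2, h4.1, h4.2, h6.1, h6.2]
  have hall : ∀ᵐ θ : ℝ, ∀ A : ℕ, ¬ (θ ∈ Ico 0 (2 * Real.pi) ∧ (∀ n, -(A : ℝ) < X n (ix n θ)) ∧
      ¬ BddAbove (range fun n => X n (ix n θ))) := by
    rw [ae_all_iff]
    intro A
    rw [ae_iff]
    simp only [not_not]
    exact null hT X A (2 * C + 12) (by positivity) hX hinc
  filter_upwards [hall] with θ hθ hθ0 hbd
  obtain ⟨q, hq⟩ := hbd
  have hclose : ∀ n, |X n (ix n θ) - (H (pt (rj n) θ)).re| ≤ C := fun n =>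
    hXH n (ix n θ) (ix_lt hθ0.1 hθ0.2 n) θ (ix_mem hθ0.1 n)
  obtain ⟨A, hA⟩ := exists_nat_gt (C - q)
  have h1 := hθ A
  push Not at h1
  have h2 := h1 hθ0 (fun n => by
    have h3 : q ≤ (H (pt (rj n) θ)).re := hq ⟨n, rfl⟩
    have h4 := (abs_le.1 (hclose n)).1
    linarith)
  obtain ⟨b, hb⟩ := h2
  refine ⟨b + C, ?_⟩
  rintro _ ⟨n, rfl⟩
  have h3 : X n (ix n θ) ≤ b := hb ⟨n, rfl⟩
  have h4 := (abs_le.1 (hclose n)).1
  show (H (pt (rj n) θ)).re ≤ b + C
  linarith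

end Pool.Agent.N673.TW.Dich
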