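import Pool.Agent.N673.TW.Stm

/-!
Project TW (helper673), leaf FAT: Fatou's theorem on derivatives, by the maximum principle.
-/

set_option autoImplicit false

open Complex Filter Topology Metric Set MeasureTheory

namespace Pool.Agent.N673.TW.Fat

/-- a linear bound at a boundary point extends to the disc -/
theorem extend {G : ℂ → ℂ} (hG : ContinuousOn G (closedBall 0 1))
    (hG' : DifferentiableOn ℂ G (ball 0 1)) {a : ℂ} (ha : ‖a‖ = 1) {L : ℝ} (hL : 0 ≤ L)
    (hb : ∀ ζ : ℂ, ‖ζ‖ = 1 → ‖G ζ‖ ≤ L * ‖ζ - a‖) {z : ℂ} (hz : z ∈ ball (0 : ℂ) 1) :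
    ‖G z‖ ≤ 2 * L * ‖z - a‖ := by
  have key : ∀ ε : ℝ, 0 < ε → ‖G z‖ ≤ 2 * L * ‖z - (1 + ε) * a‖ := by
    intro ε hε
    have hbn : ‖((1 : ℂ) + ε) * a‖ = 1 + ε := by
      rw [norm_mul, ha, mul_one]
      have : ((1 : ℂ) + ε) = ((1 + ε : ℝ) : ℂ) := by push_cast; ring
      rw [this, Complex.norm_real, Real.norm_of_nonneg (by linarith)]
    have hne : ∀ w ∈ closedBall (0 : ℂ) 1, w - (1 + ε) * a ≠ 0 := by
      intro w hw h
      rw [mem_closedBall_zero_iff] at hw
      have h1 : w = (1 + ε) * a := by linear_combination h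
      rw [h1, hbn] at hw
      linarith
    have hcl : closure (ball (0 : ℂ) 1) = closedBall 0 1 := closure_ball 0 one_ne_zero
    have hd : DiffContOnCl ℂ (fun w => G w / (w - (1 + ε) * a)) (ball 0 1) := by
      refine ⟨?_, ?_⟩
      · exact hG'.div (differentiableOn_id.sub_const _)
          (fun w hw => hne w (ball_subset_closedBall hw))
      · rw [hcl]
        exact hG.div (continuousOn_id.sub continuousOn_const) hne
    have h1 := Complex.norm_le_of_forall_mem_frontier_norm_le isBounded_ball hd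
      (C := 2 * L) (by
        intro w hw
        rw [frontier_ball 0 one_ne_zero, mem_sphere_zero_iff_norm] at hw
        have hwb : w ∈ closedBall (0 : ℂ) 1 := by
          rw [mem_closedBall_zero_iff, hw]
        have hpos : 0 < ‖w - (1 + ε) * a‖ := norm_pos_iff.2 (hne w hwb)
        rw [norm_div, div_le_iff₀ hpos]
        have h2 : ε ≤ ‖w - (1 + ε) * a‖ := by
          have h3 := norm_sub_norm_le ((1 + ε) * a) w
          rw [hbn, hw] at h3
          rw [norm_sub_rev]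
          linarith
        have h4 : ‖w - a‖ ≤ ‖w - (1 + ε) * a‖ + ε := by
          have e : w - a = (w - (1 + ε) * a) + ε * a := by ring
          rw [e]
          refine (norm_add_le _ _).trans ?_
          rw [norm_mul (ε : ℂ) a, ha, mul_one, Complex.norm_real, Real.norm_of_nonneg hε.le]
        calc ‖G w‖ ≤ L * ‖w - a‖ := hb w hw
          _ ≤ L * (2 * ‖w - (1 + ε) * a‖) := mul_le_mul_of_nonneg_left (by linarith) hL
          _ = 2 * L * ‖w - (1 + ε) * a‖ := by ring) (subset_closure hz)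
    have hpos : 0 < ‖z - (1 + ε) * a‖ := norm_pos_iff.2 (hne z (ball_subset_closedBall hz))
    rw [norm_div, div_le_iff₀ hpos] at h1
    exact h1
  apply le_of_forall_pos_le_add
  intro δ hδ
  have hε : 0 < δ / (2 * L + 1) := by positivity
  refine (key _ hε).trans ?_
  have h5 : ‖z - (1 + ((δ / (2 * L + 1) : ℝ) : ℂ)) * a‖ ≤ ‖z - a‖ + δ / (2 * L + 1) := by
    have e : z - (1 + ((δ / (2 * L + 1) : ℝ) : ℂ)) * a =
        (z - a) - ((δ / (2 * L + 1) : ℝ) : ℂ) * a := by ring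
    rw [e]
    refine (norm_sub_le _ _).trans ?_
    rw [norm_mul _ a, ha, mul_one, Complex.norm_real, Real.norm_of_nonneg hε.le]
  have h6 : 2 * L * (δ / (2 * L + 1)) ≤ δ := by
    rw [mul_div_assoc', div_le_iff₀ (by linarith)]
    nlinarith
  calc 2 * L * ‖z - (1 + ((δ / (2 * L + 1) : ℝ) : ℂ)) * a‖
      ≤ 2 * L * (‖z - a‖ + δ / (2 * L + 1)) := mul_le_mul_of_nonneg_left h5 (by linarith)
    _ = 2 * L * ‖z - a‖ + 2 * L * (δ / (2 * L + 1)) := by ring
    _ ≤ 2 * L * ‖z - a‖ + δ := by linarith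

/-- the linear bound on the circle -/
theorem circle_bound {Φ : ℂ → ℂ} (hΦ : ContinuousOn Φ (closedBall 0 1)) {θ : ℝ}
    (hd : DifferentiableAt ℝ (fun t : ℝ => Φ (exp (t * I))) θ) :
    ∃ L : ℝ, 0 ≤ L ∧ ∀ ζ : ℂ, ‖ζ‖ = 1 → ‖Φ ζ - Φ (exp (θ * I))‖ ≤ L * ‖ζ - exp (θ * I)‖ := by
  obtain ⟨M, hM⟩ := (isCompact_closedBall (0 : ℂ) 1).exists_bound_of_continuousOn hΦ
  obtain ⟨K, hK⟩ := hd.isBigO_sub.bound
  rw [Metric.eventually_nhds_iff] at hK
  obtain ⟨δ, hδ, hK⟩ := hK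
  have hM0 : 0 ≤ M := (norm_nonneg _).trans (hM 0 (mem_closedBall_self zero_le_one))
  have ha : ‖exp (θ * I)‖ = 1 := Complex.norm_exp_ofReal_mul_I θ
  have hane : exp (θ * I) ≠ 0 := Complex.exp_ne_zero _
  refine ⟨max 0 K * (Real.pi / 2) + 2 * M * (Real.pi / (2 * δ)), by positivity, ?_⟩
  intro ζ hζ
  have hζne : ζ ≠ 0 := by
    intro h
    rw [h, norm_zero] at hζ
    exact zero_ne_one hζ
  obtain ⟨u, hu⟩ : ∃ u, u = (ζ / exp (θ * I)).arg := ⟨_, rfl⟩
  have h1 : exp ((θ + u : ℝ) * I) = ζ := by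
    have h2 : (‖ζ / exp (θ * I)‖ : ℂ) * exp (u * I) = ζ / exp (θ * I) := by
      rw [hu]
      exact Complex.norm_mul_exp_arg_mul_I _
    rw [norm_div, hζ, ha, div_one, Complex.ofReal_one, one_mul] at h2
    push_cast
    rw [add_mul, Complex.exp_add, h2]
    field_simp
  have h2 : 2 / Real.pi * |u| ≤ ‖ζ - exp (θ * I)‖ := by
    have h3 := Complex.mul_angle_le_norm_sub hζ ha
    rw [Complex.angle_eq_abs_arg hζne hane, ← hu] at h3
    exact h3
  have hpi := Real.pi_pos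
  have h3 : |u| ≤ Real.pi / 2 * ‖ζ - exp (θ * I)‖ := by
    have h4 : Real.pi / 2 * (2 / Real.pi * |u|) ≤ Real.pi / 2 * ‖ζ - exp (θ * I)‖ :=
      mul_le_mul_of_nonneg_left h2 (by positivity)
    have e : Real.pi / 2 * (2 / Real.pi * |u|) = |u| := by field_simp
    rwa [e] at h4
  have hnn := norm_nonneg (ζ - exp (θ * I))
  by_cases hu' : |u| < δ
  · have h4 := hK (y := θ + u) (by rw [Real.dist_eq]; simpa using hu')
    have e : θ + u - θ = u := by ring
    rw [h1, e, Real.norm_eq_abs] at h4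
    calc ‖Φ ζ - Φ (exp (θ * I))‖ ≤ K * |u| := h4
      _ ≤ max 0 K * |u| := mul_le_mul_of_nonneg_right (le_max_right _ _) (abs_nonneg _)
      _ ≤ max 0 K * (Real.pi / 2 * ‖ζ - exp (θ * I)‖) :=
        mul_le_mul_of_nonneg_left h3 (le_max_left _ _)
      _ ≤ max 0 K * (Real.pi / 2 * ‖ζ - exp (θ * I)‖) +
          2 * M * (Real.pi / (2 * δ)) * ‖ζ - exp (θ * I)‖ := by
        have : 0 ≤ 2 * M * (Real.pi / (2 * δ)) * ‖ζ - exp (θ * I)‖ := by positivity
        linarith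
      _ = _ := by ring
  · have h4 : δ ≤ Real.pi / 2 * ‖ζ - exp (θ * I)‖ := (not_lt.1 hu').trans h3
    have h5 : 1 ≤ Real.pi / (2 * δ) * ‖ζ - exp (θ * I)‖ := by
      have e : Real.pi / (2 * δ) * ‖ζ - exp (θ * I)‖ =
          (Real.pi / 2 * ‖ζ - exp (θ * I)‖) / δ := by
        field_simp
      rw [e, one_le_div hδ]
      exact h4
    have h6 : ‖Φ ζ - Φ (exp (θ * I))‖ ≤ 2 * M := by
      refine (norm_sub_le _ _).trans ?_
      have b1 := hM ζ (by rw [mem_closedBall_zero_iff, hζ])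
      have b2 := hM (exp (θ * I)) (by rw [mem_closedBall_zero_iff, ha])
      linarith
    calc ‖Φ ζ - Φ (exp (θ * I))‖ ≤ 2 * M * 1 := by linarith
      _ ≤ 2 * M * (Real.pi / (2 * δ) * ‖ζ - exp (θ * I)‖) :=
        mul_le_mul_of_nonneg_left h5 (by linarith)
      _ ≤ max 0 K * (Real.pi / 2) * ‖ζ - exp (θ * I)‖ +
          2 * M * (Real.pi / (2 * δ) * ‖ζ - exp (θ * I)‖) := by
        have : 0 ≤ max 0 K * (Real.pi / 2) * ‖ζ - exp (θ * I)‖ := by positivity
        linarith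
      _ = _ := by ring

/-- FAT -/
theorem t : Pool.Agent.N673.TW.S_FAT := by
  intro Φ hΦ hΦ' θ hd
  obtain ⟨L, hL, hb⟩ := circle_bound hΦ hd
  have ha : ‖exp (θ * I)‖ = 1 := Complex.norm_exp_ofReal_mul_I θ
  have hin : ∀ z ∈ ball (0 : ℂ) 1, ‖Φ z - Φ (exp (θ * I))‖ ≤ 2 * L * ‖z - exp (θ * I)‖ := by
    intro z hz
    exact extend (G := fun w => Φ w - Φ (exp (θ * I))) (hΦ.sub continuousOn_const)
      (hΦ'.sub_const _) ha hL hb hz
  refine ⟨6 * L, fun r hr0 hr1 => ?_⟩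
  have hpt : pt r θ = r * exp (θ * I) := by
    unfold pt circleMap
    rw [zero_add]
  obtain ⟨ρ, hρ⟩ : ∃ ρ, ρ = (1 - r) / 2 := ⟨_, rfl⟩
  have hρ0 : 0 < ρ := by rw [hρ]; linarith
  have hnp : ‖pt r θ‖ = r := by
    rw [hpt, norm_mul, ha, mul_one, Complex.norm_real, Real.norm_of_nonneg hr0]
  have hsub : closedBall (pt r θ) ρ ⊆ ball (0 : ℂ) 1 := by
    intro w hw
    rw [mem_closedBall, dist_eq_norm] at hw
    rw [mem_ball_zero_iff]
    have h1 : ‖w‖ ≤ ‖w - pt r θ‖ + ‖pt r θ‖ := by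
      have := norm_add_le (w - pt r θ) (pt r θ)
      rwa [sub_add_cancel] at this
    rw [hnp] at h1
    linarith
  have hdc : DiffContOnCl ℂ (fun w => Φ w - Φ (exp (θ * I))) (ball (pt r θ) ρ) := by
    apply DifferentiableOn.diffContOnCl
    rw [closure_ball _ hρ0.ne']
    exact (hΦ'.mono hsub).sub_const _
  have h1 := Complex.norm_deriv_le_of_forall_mem_sphere_norm_le hρ0 hdc (C := 6 * L * ρ) (by
    intro w hw
    have hwb := hsub (sphere_subset_closedBall hw)
    rw [mem_sphere, dist_eq_norm] at hw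
    refine (hin w hwb).trans ?_
    have h2 : ‖w - exp (θ * I)‖ ≤ 3 * ρ := by
      have e : w - exp (θ * I) = (w - pt r θ) + (pt r θ - exp (θ * I)) := by ring
      rw [e]
      refine (norm_add_le _ _).trans ?_
      rw [hw]
      have h3 : ‖pt r θ - exp (θ * I)‖ = 1 - r := by
        have e2 : pt r θ - exp (θ * I) = ((r - 1 : ℝ) : ℂ) * exp (θ * I) := by
          rw [hpt]; push_cast; ring
        rw [e2, norm_mul, ha, mul_one, Complex.norm_real, Real.norm_of_nonpos (by linarith)]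
        ring
      rw [h3]
      linarith
    calc 2 * L * ‖w - exp (θ * I)‖ ≤ 2 * L * (3 * ρ) :=
          mul_le_mul_of_nonneg_left h2 (by linarith)
      _ = 6 * L * ρ := by ring)
  rw [mul_div_assoc, div_self hρ0.ne', mul_one] at h1
  have h4 : deriv (fun w => Φ w - Φ (exp (θ * I))) (pt r θ) = deriv Φ (pt r θ) := by
    rw [deriv_sub_const]
  rwa [h4] at h1

end Pool.Agent.N673.TW.Fat
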