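import Pool.Agent.N673.TW.Stm
import Pool.Agent.N673.QC.MakA

set_option autoImplicit false

/-!
# Project TW (helper673), L1 (helper327): most radial limits over a dyadic arc are close to the value at the top
-/

open Complex Filter Topology Metric Set MeasureTheory

namespace Pool.Agent.N673.TW.L1

open Pool.Agent.N673.TW

theorem norm_pt (r θ : ℝ) (hr : 0 ≤ r) : ‖pt r θ‖ = r := Pool.Agent.W677.Mar.norm_pt r θ hr

theorem norm_pt_sub (r s θ : ℝ) : ‖pt r θ - pt s θ‖ = |r - s| := Pool.Agent.W677.Mar.norm_pt_sub r s θ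

theorem norm_pt_sub_angle (r θ φ : ℝ) (hr : 0 ≤ r) : ‖pt r θ - pt r φ‖ ≤ r * |θ - φ| :=
  Pool.Agent.W677.Mar.norm_pt_sub_angle r θ φ hr

theorem rj_nonneg (j : ℕ) : 0 ≤ rj j := by
  unfold rj
  have : (1 : ℝ) / 2 ^ j ≤ 1 := by
    rw [div_le_one (by positivity)]
    exact one_le_pow₀ (by norm_num)
  linarith

theorem rj_lt (j : ℕ) : rj j < 1 := by
  unfold rj
  have : (0 : ℝ) < 1 / 2 ^ j := by positivity
  linarith

theorem one_sub_rj (j : ℕ) : 1 - rj j = 1 / 2 ^ j := by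
  unfold rj; ring

theorem rj_mono {i j : ℕ} (h : i ≤ j) : rj i ≤ rj j := by
  unfold rj
  have : (1 : ℝ) / 2 ^ j ≤ 1 / 2 ^ i :=
    one_div_le_one_div_of_le (by positivity) (pow_le_pow_right₀ (by norm_num) h)
  linarith

theorem exists_scale {j : ℕ} {r : ℝ} (h1 : rj j ≤ r) (h2 : r < 1) :
    ∃ k : ℕ, rj (j + k) ≤ r ∧ r < rj (j + k + 1) := by
  have hex : ∃ k : ℕ, r < rj (j + k + 1) := by
    obtain ⟨n, hn⟩ := exists_pow_lt_of_lt_one (sub_pos.2 h2) (by norm_num : (1 / 2 : ℝ) < 1)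
    refine ⟨n, ?_⟩
    have h3 : (1 / 2 : ℝ) ^ (j + n + 1) ≤ (1 / 2) ^ n :=
      pow_le_pow_of_le_one (by norm_num) (by norm_num) (by omega)
    rw [one_div_pow] at h3
    unfold rj
    linarith
  classical
  refine ⟨Nat.find hex, ?_, Nat.find_spec hex⟩
  rcases Nat.eq_zero_or_pos (Nat.find hex) with h | h
  · rw [h, add_zero]; exact h1
  · have h3 := Nat.find_min hex (m := Nat.find hex - 1) (by omega)
    rw [not_lt] at h3
    have h4 : j + (Nat.find hex - 1) + 1 = j + Nat.find hex := by omega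
    rw [h4] at h3
    exact h3

/-- comparison on one scale -/
theorem near {H : ℂ → ℂ} (hH : Bl H) {ρ r θ : ℝ} (h0 : 0 ≤ ρ)
    (h1 : ρ ≤ r) (h2 : r < 1) :
    ‖H (pt ρ θ) - H (pt r θ)‖ ≤ 6 * ((1 - ρ) / (1 - r)) := by
  have hr0 : 0 ≤ r := h0.trans h1
  have hr1 : 0 < 1 - r := by linarith
  have hsub : closedBall (0:ℂ) r ⊆ ball 0 1 := closedBall_subset_ball h2
  have hb : ∀ x ∈ closedBall (0:ℂ) r, ‖deriv H x‖ ≤ 6 / (1 - r) := by
    intro x hx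
    have hx' : ‖x‖ ≤ r := mem_closedBall_zero_iff.1 hx
    rw [le_div_iff₀ hr1]
    refine le_trans ?_ (hH.2 x (hsub hx))
    gcongr
  have h3 := (convex_closedBall (0:ℂ) r).norm_image_sub_le_of_norm_deriv_le (f := H)
    (fun x hx => hH.1.differentiableAt (isOpen_ball.mem_nhds (hsub hx))) hb
    (x := pt r θ) (y := pt ρ θ) (mem_closedBall_zero_iff.2 (norm_pt r θ hr0).le)
    (mem_closedBall_zero_iff.2 ((norm_pt ρ θ h0).le.trans h1))
  refine h3.trans ?_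
  rw [norm_pt_sub, abs_of_nonpos (by linarith), div_mul_eq_mul_div, mul_div_assoc]
  gcongr
  linarith

theorem hasDerivAt_rad {φ : ℂ → ℂ} (hφ : DifferentiableOn ℂ φ (ball 0 1)) {r : ℝ} (h0 : 0 ≤ r) (h1 : r < 1)
    (θ : ℝ) : HasDerivAt (fun s : ℝ => φ (pt s θ)) (deriv φ (pt r θ) * exp (θ * I)) r := by
  have hw : pt r θ ∈ ball (0 : ℂ) 1 := by
    rw [mem_ball_zero_iff, norm_pt r θ h0]; exact h1
  have h2 : HasDerivAt (fun s : ℝ => pt s θ) (exp (θ * I)) r := by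
    have h3 : (fun s : ℝ => pt s θ) = fun s : ℝ => (s : ℂ) * exp (θ * I) := by
      funext s; unfold pt circleMap; rw [zero_add]
    rw [h3]
    simpa using (ofRealCLM.hasDerivAt (x := r)).mul_const (exp (θ * I))
  exact (hφ.differentiableAt (isOpen_ball.mem_nhds hw)).hasDerivAt.comp_of_eq r h2 rfl

/-- length of radial segments -/
theorem length_le {φ : ℂ → ℂ} (hφ : DifferentiableOn ℂ φ (ball 0 1)) {θ r₀ M : ℝ} (h0 : 0 ≤ r₀)
    (hM : ∀ r : ℝ, r₀ ≤ r → r < 1 → ‖deriv φ (pt r θ)‖ ≤ M / √(1 - r)) {r s : ℝ} (hr : r₀ ≤ r)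
    (hrs : r ≤ s) (hs : s < 1) :
    ‖φ (pt s θ) - φ (pt r θ)‖ ≤ 2 * M * √(1 - r) := by
  have hM0 : 0 ≤ M := by
    have h1 := (norm_nonneg _).trans (hM r hr (by linarith))
    have h2 : 0 < √(1 - r) := Real.sqrt_pos.2 (by linarith)
    rw [le_div_iff₀ h2, zero_mul] at h1
    exact h1
  have hb := image_norm_le_of_norm_deriv_right_le_deriv_boundary'
    (f := fun x : ℝ => φ (pt x θ) - φ (pt r θ)) (f' := fun x => deriv φ (pt x θ) * exp (θ * I))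
    (a := r) (b := s)
    (B := fun x => 2 * M * (√(1 - r) - √(1 - x)))
    (B' := fun x => M / √(1 - x)) ?_ ?_ ?_ ?_ ?_ ?_ (x := s) ⟨hrs, le_rfl⟩
  · refine hb.trans ?_
    have h1 : 0 ≤ √(1 - s) := Real.sqrt_nonneg _
    nlinarith
  · intro x hx
    exact ((hasDerivAt_rad hφ (by linarith [hx.1]) (by linarith [hx.2]) θ).sub_const
      _).continuousAt.continuousWithinAt
  · intro x hx
    exact ((hasDerivAt_rad hφ (by linarith [hx.1]) (by linarith [hx.2]) θ).sub_const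
      _).hasDerivWithinAt
  · simp
  · apply Continuous.continuousOn
    fun_prop
  · intro x hx
    have hx1 : x < 1 := by linarith [hx.2]
    have h1 : HasDerivAt (fun x : ℝ => 1 - x) (-1) x := by
      simpa using (hasDerivAt_id x).const_sub 1
    have h2 := ((h1.sqrt (by linarith)).const_sub (√(1 - r))).const_mul (2 * M)
    refine (h2.congr_deriv ?_).hasDerivWithinAt
    have : √(1 - x) ≠ 0 := (Real.sqrt_pos.2 (by linarith)).ne'
    field_simp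
  · intro x hx
    have h1 := hM x (by linarith [hx.1]) (by linarith [hx.2])
    rw [norm_mul, norm_exp_ofReal_mul_I, mul_one]
    exact h1

/-- the radial limit -/
theorem exists_limit {φ : ℂ → ℂ} (hφ : DifferentiableOn ℂ φ (ball 0 1)) {θ r₀ M : ℝ} (h0 : 0 ≤ r₀) (h1 : r₀ < 1)
    (hM : ∀ r : ℝ, r₀ ≤ r → r < 1 → ‖deriv φ (pt r θ)‖ ≤ M / √(1 - r)) :
    ∃ p : ℂ, Lim φ θ p ∧ ‖p - φ (pt r₀ θ)‖ ≤ 2 * M * √(1 - r₀) := by
  have hex : ∃ p : ℂ, Lim φ θ p := by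
    apply cauchy_map_iff_exists_tendsto.1
    rw [Metric.cauchy_iff]
    refine ⟨inferInstance, fun δ hδ => ?_⟩
    have h1' : Tendsto (fun r : ℝ => 2 * M * √(1 - r)) (𝓝[<] 1) (𝓝 0) := by
      have : Tendsto (fun r : ℝ => 2 * M * √(1 - r)) (𝓝 1) (𝓝 (2 * M * √(1 - 1))) := by
        apply Continuous.tendsto
        fun_prop
      rw [sub_self, Real.sqrt_zero, mul_zero] at this
      exact this.mono_left nhdsWithin_le_nhds
    have h2 : ∀ᶠ r : ℝ in 𝓝[<] 1, 2 * M * √(1 - r) < δ / 2 :=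
      h1'.eventually (gt_mem_nhds (by linarith))
    have h3 : ∀ᶠ r : ℝ in 𝓝[<] 1, r ∈ Ioo r₀ 1 := Ioo_mem_nhdsLT h1
    obtain ⟨r, h4, h5⟩ := (h2.and h3).exists
    refine ⟨(fun r : ℝ => φ (pt r θ)) '' Ico r 1, image_mem_map (Ico_mem_nhdsLT h5.2), ?_⟩
    rintro _ ⟨x, hx, rfl⟩ _ ⟨y, hy, rfl⟩
    have h6 := length_le hφ h0 hM h5.1.le hx.1 hx.2
    have h7 := length_le hφ h0 hM h5.1.le hy.1 hy.2
    rw [← dist_eq_norm] at h6 h7
    calc dist (φ (pt x θ)) (φ (pt y θ)) ≤ dist (φ (pt x θ)) (φ (pt r θ)) +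
        dist (φ (pt y θ)) (φ (pt r θ)) := dist_triangle_right _ _ _
      _ < δ := by linarith
  obtain ⟨p, hp⟩ := hex
  refine ⟨p, hp, ?_⟩
  refine le_of_tendsto (Filter.Tendsto.norm (Filter.Tendsto.sub_const hp (φ (pt r₀ θ)))) ?_
  filter_upwards [Ico_mem_nhdsLT h1] with s hs
  exact length_le hφ h0 hM le_rfl hs.1 hs.2

theorem exp_half_le : Real.exp (1 / 2) ≤ 2 := by
  have h1 : Real.exp (1 / 2) ^ 2 = Real.exp 1 := by
    rw [← Real.exp_nat_mul]; norm_num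
  have h2 := Real.exp_one_lt_d9
  nlinarith [Real.exp_pos (1 / 2)]

/-- the bound along the radius -/
theorem deriv_bound {φ g : ℂ → ℂ} (hg : Bl g)
    (hexp : ∀ w ∈ ball (0 : ℂ) 1, deriv φ w = deriv φ 0 * exp (g w)) {j : ℕ} {θ K : ℝ}
    (hdev : ∀ n : ℕ, j ≤ n → |(g (pt (rj n) θ)).re - (g (pt (rj j) θ)).re| ≤ K + ((n : ℝ) - j) / 4)
    (r : ℝ) (h1 : rj j ≤ r) (h2 : r < 1) :
    ‖deriv φ (pt r θ)‖ ≤ ‖deriv φ (pt (rj j) θ)‖ * Real.exp (K + 12) * √(1 / 2 ^ j) / √(1 - r) := by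
  obtain ⟨k, hk1, hk2⟩ := exists_scale h1 h2
  have hj0 := rj_nonneg j
  have hr1 : 0 < 1 - r := by linarith
  have hsq : 0 < √(1 - r) := Real.sqrt_pos.2 hr1
  have hn := near hg (θ := θ) (rj_nonneg (j + k)) hk1 h2
  have hlow : 1 / 2 ^ (j + k + 1) ≤ 1 - r := by
    have := one_sub_rj (j + k + 1)
    linarith
  have hup : 1 - r ≤ 1 / 2 ^ (j + k) := by
    have := one_sub_rj (j + k)
    linarith
  have hn2 : ‖g (pt (rj (j + k)) θ) - g (pt r θ)‖ ≤ 12 := by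
    refine hn.trans ?_
    rw [one_sub_rj, ← mul_div_assoc, div_le_iff₀ hr1]
    have : (1 : ℝ) / 2 ^ (j + k + 1) = (1 / 2 ^ (j + k)) / 2 := by
      rw [pow_succ]; field_simp
    rw [this] at hlow
    linarith
  have hre := (abs_le.1 ((abs_re_le_norm _).trans hn2)).1
  rw [sub_re] at hre
  have hd := (abs_le.1 (hdev (j + k) (by omega))).2
  push_cast at hd
  have hmain : (g (pt r θ)).re - (g (pt (rj j) θ)).re ≤ (K + 12) + (k : ℝ) / 4 := by linarith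
  have hw : pt r θ ∈ ball (0 : ℂ) 1 := by
    rw [mem_ball_zero_iff, norm_pt r θ (hj0.trans h1)]; exact h2
  have hw0 : pt (rj j) θ ∈ ball (0 : ℂ) 1 := by
    rw [mem_ball_zero_iff, norm_pt _ θ hj0]; exact rj_lt j
  have e1 : ‖deriv φ (pt r θ)‖ = ‖deriv φ (pt (rj j) θ)‖ *
      Real.exp ((g (pt r θ)).re - (g (pt (rj j) θ)).re) := by
    rw [hexp _ hw, hexp _ hw0, norm_mul, norm_mul, norm_exp, norm_exp, Real.exp_sub]
    have := (Real.exp_pos (g (pt (rj j) θ)).re).ne'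
    field_simp
  have hk : Real.exp ((k : ℝ) / 4) * √(1 - r) ≤ √(1 / 2 ^ j) := by
    apply Real.le_sqrt_of_sq_le
    rw [mul_pow, Real.sq_sqrt hr1.le]
    have e2 : Real.exp ((k : ℝ) / 4) ^ 2 = Real.exp (1 / 2) ^ k := by
      rw [← Real.exp_nat_mul, ← Real.exp_nat_mul]
      congr 1
      push_cast
      ring
    rw [e2]
    calc Real.exp (1 / 2) ^ k * (1 - r) ≤ 2 ^ k * (1 / 2 ^ (j + k)) := by
          apply mul_le_mul (pow_le_pow_left₀ (Real.exp_pos _).le exp_half_le k) hup hr1.le (by positivity)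
      _ = 1 / 2 ^ j := by
          rw [pow_add]; field_simp
  rw [e1, le_div_iff₀ hsq]
  calc ‖deriv φ (pt (rj j) θ)‖ * Real.exp ((g (pt r θ)).re - (g (pt (rj j) θ)).re) * √(1 - r)
      ≤ ‖deriv φ (pt (rj j) θ)‖ * Real.exp ((K + 12) + (k : ℝ) / 4) * √(1 - r) := by
        gcongr
    _ = ‖deriv φ (pt (rj j) θ)‖ * Real.exp (K + 12) * (Real.exp ((k : ℝ) / 4) * √(1 - r)) := by
        rw [Real.exp_add (K + 12)]; ring
    _ ≤ ‖deriv φ (pt (rj j) θ)‖ * Real.exp (K + 12) * √(1 / 2 ^ j) := by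
        gcongr

/-- the oscillation on the top circle -/
theorem top_osc {g : ℂ → ℂ} (hg : DifferentiableOn ℂ g (ball 0 1))
    (hB : ∀ w ∈ ball (0 : ℂ) 1, ‖deriv g w‖ * (1 - ‖w‖) ≤ 4) {j : ℕ} {x y : ℂ}
    (hx : x ∈ closedBall (0 : ℂ) (rj j)) (hy : y ∈ closedBall (0 : ℂ) (rj j)) :
    ‖g y - g x‖ ≤ 4 * 2 ^ j * ‖y - x‖ := by
  have hsub : closedBall (0:ℂ) (rj j) ⊆ ball 0 1 := closedBall_subset_ball (rj_lt j)
  refine (convex_closedBall (0:ℂ) (rj j)).norm_image_sub_le_of_norm_deriv_le (f := g)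
    (fun z hz => hg.differentiableAt (isOpen_ball.mem_nhds (hsub hz))) ?_ hx hy
  intro z hz
  have hz' : ‖z‖ ≤ rj j := mem_closedBall_zero_iff.1 hz
  have h1 := hB z (hsub hz)
  have h2 : (1 : ℝ) / 2 ^ j ≤ 1 - ‖z‖ := by
    have := one_sub_rj j
    linarith
  have h3 : ‖deriv g z‖ * (1 / 2 ^ j) ≤ 4 := (mul_le_mul_of_nonneg_left h2 (norm_nonneg _)).trans h1
  have h4 : (0 : ℝ) < 2 ^ j := by positivity
  rw [mul_one_div, div_le_iff₀ h4] at h3
  exact h3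

theorem arc_dist {j i : ℕ} {θ θ₀ : ℝ} (h : θ ∈ arc j i) (h₀ : θ₀ ∈ arc j i) :
    |θ - θ₀| ≤ 2 * Real.pi / 2 ^ j := by
  unfold arc at h h₀
  rw [mem_Ico] at h h₀
  have e : 2 * Real.pi * (i + 1) / 2 ^ j = 2 * Real.pi * i / 2 ^ j + 2 * Real.pi / 2 ^ j := by ring
  rw [e] at h h₀
  rw [abs_le]
  constructor <;> linarith [h.1, h.2, h₀.1, h₀.2]

theorem t (hD : S_DEV) : S_L1 := by
  obtain ⟨C1, l, hC1, hl, hD⟩ := hD
  set C2 : ℝ := Real.exp (8 * Real.pi) * (2 * Real.exp 12 + 2 * Real.pi) with hC2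
  have hpi := Real.pi_pos
  refine ⟨C1 + C2, l, by positivity, hl, ?_⟩
  intro φ hφ j i hi θ₀ hθ₀ K hK
  obtain ⟨g, hg, hg0, hB, hne, hexp⟩ := Pool.Agent.N673.Mak.exists_log hφ.1 hφ.2
  have hBl : Bl g := ⟨hg, fun w hw => (hB w hw).trans (by norm_num)⟩
  have hmeas := hD g hBl j i hi K hK
  refine (measure_mono ?_).trans (hmeas.trans ?_)
  swap
  · apply ENNReal.ofReal_le_ofReal
    have h2 : 0 ≤ C2 * Real.exp (-(l * K)) / 2 ^ j := by positivity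
    have h3 : (C1 + C2) * Real.exp (-(l * K)) / 2 ^ j = C1 * Real.exp (-(l * K)) / 2 ^ j +
      C2 * Real.exp (-(l * K)) / 2 ^ j := by ring
    rw [h3]
    linarith
  rintro θ ⟨hθ, hno⟩
  refine ⟨hθ, ?_⟩
  by_contra hdev
  push Not at hdev
  apply hno
  have hj0 := rj_nonneg j
  have hj1 := rj_lt j
  have h2j : (0 : ℝ) < 2 ^ j := by positivity
  obtain ⟨p, hp, hp1⟩ := exists_limit hφ.1 hj0 hj1
    (fun r h1 h2 => deriv_bound (φ := φ) hBl hexp hdev r h1 h2)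
  refine ⟨p, hp, ?_⟩
  rw [one_sub_rj] at hp1
  have e1 : 2 * (‖deriv φ (pt (rj j) θ)‖ * Real.exp (K + 12) * √(1 / 2 ^ j)) * √(1 / 2 ^ j) =
      2 * ‖deriv φ (pt (rj j) θ)‖ * Real.exp (K + 12) * (1 / 2 ^ j) := by
    have : √((1 : ℝ) / 2 ^ j) * √(1 / 2 ^ j) = 1 / 2 ^ j := Real.mul_self_sqrt (by positivity)
    linear_combination (2 * ‖deriv φ (pt (rj j) θ)‖ * Real.exp (K + 12)) * this
  rw [e1] at hp1
  -- comparison of `θ` and `θ₀`
  have hdist : ‖pt (rj j) θ - pt (rj j) θ₀‖ ≤ 2 * Real.pi / 2 ^ j := by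
    refine (norm_pt_sub_angle _ _ _ hj0).trans ?_
    have h1 := arc_dist hθ hθ₀
    calc rj j * |θ - θ₀| ≤ 1 * |θ - θ₀| := by gcongr
      _ ≤ _ := by linarith
  have hm : pt (rj j) θ ∈ closedBall (0 : ℂ) (rj j) := by
    rw [mem_closedBall_zero_iff, norm_pt _ _ hj0]
  have hm₀ : pt (rj j) θ₀ ∈ closedBall (0 : ℂ) (rj j) := by
    rw [mem_closedBall_zero_iff, norm_pt _ _ hj0]
  have hsub : closedBall (0:ℂ) (rj j) ⊆ ball 0 1 := closedBall_subset_ball hj1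
  have hder : ∀ x ∈ closedBall (0 : ℂ) (rj j) ∩ closedBall (pt (rj j) θ₀) (2 * Real.pi / 2 ^ j),
      ‖deriv φ x‖ ≤ ‖deriv φ (pt (rj j) θ₀)‖ * Real.exp (8 * Real.pi) := by
    rintro x ⟨hx1, hx2⟩
    rw [mem_closedBall_iff_norm] at hx2
    have h1 := top_osc hg hB hm₀ hx1
    have h2 : ‖g x - g (pt (rj j) θ₀)‖ ≤ 8 * Real.pi := by
      refine h1.trans ?_
      calc 4 * 2 ^ j * ‖x - pt (rj j) θ₀‖ ≤ 4 * 2 ^ j * (2 * Real.pi / 2 ^ j) := by gcongr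
        _ = 8 * Real.pi := by field_simp; ring
    have h3 := (abs_le.1 ((abs_re_le_norm _).trans h2)).2
    rw [sub_re] at h3
    rw [hexp _ (hsub hx1), hexp _ (hsub hm₀), norm_mul, norm_mul, norm_exp, norm_exp, mul_assoc,
      ← Real.exp_add]
    gcongr
    linarith
  have hθm : pt (rj j) θ ∈ closedBall (0 : ℂ) (rj j) ∩ closedBall (pt (rj j) θ₀) (2 * Real.pi / 2 ^ j) :=
    ⟨hm, by rw [mem_closedBall_iff_norm]; exact hdist⟩
  have hθ₀m : pt (rj j) θ₀ ∈ closedBall (0 : ℂ) (rj j) ∩ closedBall (pt (rj j) θ₀) (2 * Real.pi / 2 ^ j) :=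
    ⟨hm₀, by rw [mem_closedBall_iff_norm, sub_self, norm_zero]; positivity⟩
  have hφd := ((convex_closedBall (0:ℂ) (rj j)).inter
    (convex_closedBall (pt (rj j) θ₀) (2 * Real.pi / 2 ^ j))).norm_image_sub_le_of_norm_deriv_le (f := φ)
    (fun z hz => hφ.1.differentiableAt (isOpen_ball.mem_nhds (hsub hz.1))) hder hθ₀m hθm
  have hD1 := hder _ hθm
  set D₀ := ‖deriv φ (pt (rj j) θ₀)‖ with hD₀
  have hD₀0 : 0 ≤ D₀ := norm_nonneg _
  have hK1 : 1 ≤ Real.exp K := Real.one_le_exp hK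
  calc ‖p - φ (pt (rj j) θ₀)‖ = ‖(p - φ (pt (rj j) θ)) + (φ (pt (rj j) θ) - φ (pt (rj j) θ₀))‖ := by
        rw [sub_add_sub_cancel]
    _ ≤ ‖p - φ (pt (rj j) θ)‖ + ‖φ (pt (rj j) θ) - φ (pt (rj j) θ₀)‖ := norm_add_le _ _
    _ ≤ 2 * (D₀ * Real.exp (8 * Real.pi)) * Real.exp (K + 12) * (1 / 2 ^ j) +
        D₀ * Real.exp (8 * Real.pi) * (2 * Real.pi / 2 ^ j) := by
        apply add_le_add
        · refine hp1.trans ?_
          gcongr
        · refine hφd.trans ?_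
          gcongr
    _ ≤ 2 * (D₀ * Real.exp (8 * Real.pi)) * Real.exp (K + 12) * (1 / 2 ^ j) +
        D₀ * Real.exp (8 * Real.pi) * (2 * Real.pi / 2 ^ j) * Real.exp K := by
        have : 0 ≤ D₀ * Real.exp (8 * Real.pi) * (2 * Real.pi / 2 ^ j) := by positivity
        nlinarith
    _ = C2 * Real.exp K * D₀ / 2 ^ j := by
        rw [hC2, Real.exp_add]
        ring
    _ ≤ (C1 + C2) * Real.exp K * D₀ / 2 ^ j := by
        gcongr
        linarith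

end Pool.Agent.N673.TW.L1
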