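import Pool.Agent.N673.TW.Stm

set_option autoImplicit false

/-!
# Project TW: Makarov's theorem on the singularity of the harmonic measure
-/

open Complex Filter Topology Metric Set MeasureTheory
open scoped ENNReal

namespace Pool.Agent.N673.TW.MakS

noncomputable section

/-- log of the modulus of the derivative -/
def bj (φ : ℂ → ℂ) (j : ℕ) (θ : ℝ) : ℝ := Real.log ‖deriv φ (pt (rj j) θ)‖

/-- arcs with a point where the derivative is small -/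
def FQ (φ : ℂ → ℂ) (Q j i : ℕ) : Prop := ∃ θ₀ ∈ arc j i, bj φ j θ₀ ≤ -(Q : ℝ)

/-- maximal arcs -/
def Sel (φ : ℂ → ℂ) (Q : ℕ) (z : ℕ × ℕ) : Prop :=
  z.2 < 2 ^ z.1 ∧ Q ≤ z.1 ∧ FQ φ Q z.1 z.2 ∧
    ∀ m k, Q ≤ m → m < z.1 → arc z.1 z.2 ⊆ arc m k → ¬ FQ φ Q m k

lemma mem_arc {j i : ℕ} {θ : ℝ} : θ ∈ arc j i ↔
    (i : ℝ) ≤ θ * 2 ^ j / (2 * Real.pi) ∧ θ * 2 ^ j / (2 * Real.pi) < (i : ℝ) + 1 := by
  have hpi : (0:ℝ) < 2 * Real.pi := by positivity
  have h2 : (0:ℝ) < 2 ^ j := by positivity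
  unfold arc
  rw [mem_Ico, div_le_iff₀ h2, lt_div_iff₀ h2, le_div_iff₀ hpi, div_lt_iff₀ hpi, mul_comm (i:ℝ),
    mul_comm ((i:ℝ) + 1)]

lemma nest {j i j' i' : ℕ} (hj : j ≤ j') {θ : ℝ} (h : θ ∈ arc j i) (h' : θ ∈ arc j' i') :
    arc j' i' ⊆ arc j i := by
  have hpi : (0:ℝ) < 2 * Real.pi := by positivity
  obtain ⟨d, rfl⟩ := Nat.exists_eq_add_of_le hj
  have e : ∀ x : ℝ, x * 2 ^ (j + d) / (2 * Real.pi) = x * 2 ^ j / (2 * Real.pi) * 2 ^ d := by
    intro x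
    rw [pow_add]
    ring
  have hd : (0:ℝ) < 2 ^ d := by positivity
  rw [mem_arc] at h
  rw [mem_arc, e] at h'
  have a1 : (i' : ℝ) < ((i : ℝ) + 1) * 2 ^ d :=
    lt_of_le_of_lt h'.1 (mul_lt_mul_of_pos_right h.2 hd)
  have a2 : (i : ℝ) * 2 ^ d < (i' : ℝ) + 1 :=
    lt_of_le_of_lt (mul_le_mul_of_nonneg_right h.1 hd.le) h'.2
  have b1 : i' < (i + 1) * 2 ^ d := by exact_mod_cast a1
  have b2 : i * 2 ^ d < i' + 1 := by exact_mod_cast a2
  have c1 : ((i' : ℝ) + 1) ≤ ((i : ℝ) + 1) * 2 ^ d := by exact_mod_cast b1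
  have c2 : (i : ℝ) * 2 ^ d ≤ i' := by exact_mod_cast (Nat.lt_succ_iff.1 b2)
  intro x hx
  rw [mem_arc, e] at hx
  rw [mem_arc]
  constructor
  · have : (i : ℝ) * 2 ^ d ≤ x * 2 ^ j / (2 * Real.pi) * 2 ^ d := c2.trans hx.1
    exact le_of_mul_le_mul_right this hd
  · have : x * 2 ^ j / (2 * Real.pi) * 2 ^ d < ((i : ℝ) + 1) * 2 ^ d := lt_of_lt_of_le hx.2 c1
    exact lt_of_mul_lt_mul_right this hd.le

lemma exists_arc (j : ℕ) {θ : ℝ} (h : 0 ≤ θ) : ∃ i, θ ∈ arc j i := by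
  have h0 : 0 ≤ θ * 2 ^ j / (2 * Real.pi) := by positivity
  refine ⟨⌊θ * 2 ^ j / (2 * Real.pi)⌋₊, mem_arc.2 ⟨Nat.floor_le h0, Nat.lt_floor_add_one _⟩⟩

lemma lt_of_mem {j i : ℕ} {θ : ℝ} (h : θ < 2 * Real.pi) (hi : θ ∈ arc j i) : i < 2 ^ j := by
  have hpi : (0:ℝ) < 2 * Real.pi := by positivity
  rw [mem_arc] at hi
  have h1 : θ * 2 ^ j / (2 * Real.pi) < 2 ^ j := by
    rw [div_lt_iff₀ hpi]
    have : (0:ℝ) < 2 ^ j := by positivity
    nlinarith
  have h2 : (i : ℝ) < 2 ^ j := lt_of_le_of_lt hi.1 h1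
  exact_mod_cast h2

lemma arc_sub {j i : ℕ} (h : i < 2 ^ j) : arc j i ⊆ Ico 0 (2 * Real.pi) := by
  have hpi : (0:ℝ) < 2 * Real.pi := by positivity
  intro θ hθ
  rw [mem_arc] at hθ
  have h2 : (0:ℝ) < 2 ^ j := by positivity
  have h1 : ((i : ℝ) + 1) ≤ 2 ^ j := by exact_mod_cast h
  constructor
  · have h3 : 0 ≤ θ * 2 ^ j / (2 * Real.pi) := (Nat.cast_nonneg i).trans hθ.1
    by_contra hneg
    have : θ * 2 ^ j / (2 * Real.pi) < 0 :=
      div_neg_of_neg_of_pos (mul_neg_of_neg_of_pos (not_le.1 hneg) h2) hpi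
    linarith
  · have h3 : θ * 2 ^ j / (2 * Real.pi) < 2 ^ j := lt_of_lt_of_le hθ.2 h1
    rw [div_lt_iff₀ hpi, mul_comm ((2:ℝ) ^ j)] at h3
    exact lt_of_mul_lt_mul_right h3 h2.le

lemma vol_arc (j i : ℕ) : volume (arc j i) = ENNReal.ofReal (2 * Real.pi) *
    ENNReal.ofReal (1 / 2 ^ j) := by
  unfold arc
  rw [Real.volume_Ico, ← ENNReal.ofReal_mul (by positivity)]
  congr 1
  ring

/-- different maximal arcs are disjoint -/
lemma sel_disj {φ : ℂ → ℂ} {Q : ℕ} {z z' : ℕ × ℕ} (h : Sel φ Q z) (h' : Sel φ Q z') (hne : z ≠ z') :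
    Disjoint (arc z.1 z.2) (arc z'.1 z'.2) := by
  rw [Set.disjoint_left]
  intro θ h1 h2
  rcases lt_trichotomy z.1 z'.1 with hlt | heq | hlt
  · exact h'.2.2.2 z.1 z.2 h.2.1 hlt (nest hlt.le h1 h2) h.2.2.1
  · apply hne
    rw [← heq] at h2
    rw [mem_arc] at h1 h2
    have a1 : (z.2 : ℝ) < (z'.2 : ℝ) + 1 := lt_of_le_of_lt h1.1 h2.2
    have a2 : (z'.2 : ℝ) < (z.2 : ℝ) + 1 := lt_of_le_of_lt h2.1 h1.2
    have b1 : z.2 < z'.2 + 1 := by exact_mod_cast a1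
    have b2 : z'.2 < z.2 + 1 := by exact_mod_cast a2
    exact Prod.ext heq (by omega)
  · exact h.2.2.2 z'.1 z'.2 h'.2.1 hlt (nest hlt.le h2 h1) h'.2.2.1

/-- maximal arcs cover -/
lemma sel_cover {φ : ℂ → ℂ} {Q : ℕ} {θ : ℝ} (h0 : θ ∈ Ico 0 (2 * Real.pi))
    (hb : ¬ BddBelow (range fun j : ℕ => bj φ j θ)) : ∃ z, Sel φ Q z ∧ θ ∈ arc z.1 z.2 := by
  classical
  have hex : ∃ j, Q ≤ j ∧ ∃ i, θ ∈ arc j i ∧ FQ φ Q j i := by
    by_contra hcon
    push Not at hcon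
    apply hb
    obtain ⟨M, hM⟩ := ((Set.finite_lt_nat Q).image fun j => bj φ j θ).bddBelow
    refine ⟨min M (-(Q : ℝ)), ?_⟩
    rintro _ ⟨j, rfl⟩
    by_cases hj : j < Q
    · exact (min_le_left _ _).trans (hM ⟨j, hj, rfl⟩)
    · obtain ⟨i, hi⟩ := exists_arc j h0.1
      have := hcon j (not_lt.1 hj) i hi
      unfold FQ at this
      push Not at this
      exact (min_le_right _ _).trans (this θ hi).le
  obtain ⟨hQ, i, hi, hF⟩ := Nat.find_spec hex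
  refine ⟨(Nat.find hex, i), ⟨lt_of_mem h0.2 hi, hQ, hF, ?_⟩, hi⟩
  intro m k hm hlt hsub hFm
  exact Nat.find_min hex hlt ⟨hm, k, hsub hi, hFm⟩

open Classical in
/-- the total length of the maximal arcs -/
lemma sel_sum (φ : ℂ → ℂ) (Q : ℕ) :
    ∑' z : ℕ × ℕ, (if Sel φ Q z then ENNReal.ofReal (1 / 2 ^ z.1) else 0) ≤ 1 := by
  have hpi : (0:ℝ) < 2 * Real.pi := by positivity
  let A : ℕ × ℕ → Set ℝ := fun z => if Sel φ Q z then arc z.1 z.2 else ∅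
  have hA : ∀ z, A z = if Sel φ Q z then arc z.1 z.2 else ∅ := fun z => rfl
  have hm : ∀ z, MeasurableSet (A z) := by
    intro z
    rw [hA]
    split_ifs
    · exact measurableSet_Ico
    · exact MeasurableSet.empty
  have hd : Pairwise (Function.onFun Disjoint A) := by
    intro z z' hne
    show Disjoint (A z) (A z')
    rw [hA, hA]
    split_ifs with h h'
    · exact sel_disj h h' hne
    · exact disjoint_bot_right
    · exact disjoint_bot_left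
    · exact disjoint_bot_left
  have h1 := measure_iUnion (μ := volume) hd hm
  have h2 : volume (⋃ z, A z) ≤ ENNReal.ofReal (2 * Real.pi) := by
    have h3 : (⋃ z, A z) ⊆ Ico 0 (2 * Real.pi) := by
      refine iUnion_subset fun z => ?_
      rw [hA]
      split_ifs with h
      · exact arc_sub h.1
      · exact empty_subset _
    refine (measure_mono h3).trans ?_
    rw [Real.volume_Ico, sub_zero]
  have h4 : ∀ z, volume (A z) = ENNReal.ofReal (2 * Real.pi) *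
      (if Sel φ Q z then ENNReal.ofReal (1 / 2 ^ z.1) else 0) := by
    intro z
    rw [hA]
    split_ifs with h
    · exact vol_arc _ _
    · rw [measure_empty, mul_zero]
  rw [h1] at h2
  simp only [h4] at h2
  rw [ENNReal.tsum_mul_left] at h2
  have hne : ENNReal.ofReal (2 * Real.pi) ≠ 0 := by simpa using hpi
  by_contra hcon
  rw [not_le] at hcon
  have h5 : ENNReal.ofReal (2 * Real.pi) * 1 < ENNReal.ofReal (2 * Real.pi) *
      ∑' z : ℕ × ℕ, (if Sel φ Q z then ENNReal.ofReal (1 / 2 ^ z.1) else 0) :=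
    (ENNReal.mul_lt_mul_iff_right hne ENNReal.ofReal_ne_top).2 hcon
  rw [mul_one] at h5
  exact absurd h2 (not_le.2 h5)

/-- the good angles -/
def WQ (φ : ℂ → ℂ) (C : ℝ) (c : ℕ → ℕ × ℕ → ℂ) (Q : ℕ) : Set ℝ :=
  {θ | ∃ z, Sel φ Q z ∧ θ ∈ arc z.1 z.2 ∧ ∃ p, Lim φ θ p ∧
    ‖p - c Q z‖ ≤ C * Real.exp (-((Q : ℝ) / 2)) / 2 ^ z.1}

lemma pt_add (r θ : ℝ) (n : ℤ) : pt r (θ + n * (2 * Real.pi)) = pt r θ := by
  unfold pt
  exact (periodic_circleMap 0 r).int_mul n θ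

lemma Lim_add {φ : ℂ → ℂ} {θ : ℝ} {p : ℂ} (n : ℤ) (h : Lim φ (θ + n * (2 * Real.pi)) p) :
    Lim φ θ p := by
  unfold Lim at h ⊢
  simpa only [pt_add] using h

lemma Lim_uniq {φ : ℂ → ℂ} {θ : ℝ} {p p' : ℂ} (h : Lim φ θ p) (h' : Lim φ θ p') : p = p' :=
  tendsto_nhds_unique h h'

theorem t (hL : S_L1) : S_MAK := by
  classical
  obtain ⟨C, l, hC, hl, hL⟩ := hL
  intro φ hφ hb
  have hpi : (0:ℝ) < 2 * Real.pi := by positivity
  -- centres
  have hc : ∀ (Q : ℕ) (z : ℕ × ℕ), ∃ θ₀ : ℝ, Sel φ Q z → θ₀ ∈ arc z.1 z.2 ∧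
      bj φ z.1 θ₀ ≤ -(Q : ℝ) := by
    intro Q z
    by_cases h : Sel φ Q z
    · obtain ⟨θ₀, h1, h2⟩ := h.2.2.1
      exact ⟨θ₀, fun _ => ⟨h1, h2⟩⟩
    · exact ⟨0, fun h' => absurd h' h⟩
  choose t₀ ht₀ using hc
  obtain ⟨c, hcdef⟩ : ∃ c : ℕ → ℕ × ℕ → ℂ, c = fun Q z => φ (pt (rj z.1) (t₀ Q z)) := ⟨_, rfl⟩
  -- bound of the derivative
  have hder : ∀ (Q : ℕ) (z : ℕ × ℕ), 1 ≤ Q → Sel φ Q z →
      ‖deriv φ (pt (rj z.1) (t₀ Q z))‖ ≤ Real.exp (-(Q : ℝ)) := by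
    intro Q z hQ h
    have h1 := (ht₀ Q z h).2
    unfold bj at h1
    rcases (norm_nonneg (deriv φ (pt (rj z.1) (t₀ Q z)))).eq_or_lt with h2 | h2
    · rw [← h2]
      exact (Real.exp_pos _).le
    · rw [← Real.exp_log h2]
      exact Real.exp_le_exp.2 h1
  -- the measure of the bad angles
  have hbad : ∀ Q : ℕ, 1 ≤ Q → volume (Ico 0 (2 * Real.pi) \ WQ φ C c Q) ≤
      ENNReal.ofReal (C * Real.exp (-(l * ((Q : ℝ) / 2)))) := by
    intro Q hQ
    obtain ⟨B, hB⟩ : ∃ B : ℕ × ℕ → Set ℝ, B = fun z => {θ : ℝ | θ ∈ arc z.1 z.2 ∧ ¬ ∃ p : ℂ,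
      Lim φ θ p ∧ ‖p - φ (pt (rj z.1) (t₀ Q z))‖ ≤ C * Real.exp ((Q : ℝ) / 2) *
        ‖deriv φ (pt (rj z.1) (t₀ Q z))‖ / 2 ^ z.1} := ⟨_, rfl⟩
    have h1 : Ico 0 (2 * Real.pi) \ WQ φ C c Q ⊆
        {θ | BddBelow (range fun j : ℕ => bj φ j θ)} ∪ ⋃ z, if Sel φ Q z then B z else ∅ := by
      rintro θ ⟨hθ, hW⟩
      by_cases hbb : BddBelow (range fun j : ℕ => bj φ j θ)
      · exact Or.inl hbb
      · right
        obtain ⟨z, hz, hθz⟩ := sel_cover (Q := Q) hθ hbb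
        refine mem_iUnion.2 ⟨z, ?_⟩
        rw [if_pos hz, hB]
        refine ⟨hθz, ?_⟩
        rintro ⟨p, hp, hpc⟩
        apply hW
        refine ⟨z, hz, hθz, p, hp, ?_⟩
        rw [hcdef]
        refine hpc.trans ?_
        refine div_le_div_of_nonneg_right ?_ (by positivity)
        rw [mul_assoc]
        refine mul_le_mul_of_nonneg_left ?_ hC.le
        calc Real.exp ((Q : ℝ) / 2) * ‖deriv φ (pt (rj z.1) (t₀ Q z))‖
            ≤ Real.exp ((Q : ℝ) / 2) * Real.exp (-(Q : ℝ)) :=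
              mul_le_mul_of_nonneg_left (hder Q z hQ hz) (Real.exp_pos _).le
          _ = Real.exp (-((Q : ℝ) / 2)) := by
              rw [← Real.exp_add]
              congr 1
              ring
    have h2 : volume {θ : ℝ | BddBelow (range fun j : ℕ => bj φ j θ)} = 0 := by
      have := hb
      rw [ae_iff] at this
      simp only [not_not] at this
      exact this
    calc volume (Ico 0 (2 * Real.pi) \ WQ φ C c Q)
        ≤ volume {θ : ℝ | BddBelow (range fun j : ℕ => bj φ j θ)} +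
          volume (⋃ z, if Sel φ Q z then B z else ∅) := (measure_mono h1).trans (measure_union_le _ _)
      _ = volume (⋃ z, if Sel φ Q z then B z else ∅) := by rw [h2, zero_add]
      _ ≤ ∑' z, volume (if Sel φ Q z then B z else ∅) := measure_iUnion_le _
      _ ≤ ∑' z : ℕ × ℕ, ENNReal.ofReal (C * Real.exp (-(l * ((Q : ℝ) / 2)))) *
            (if Sel φ Q z then ENNReal.ofReal (1 / 2 ^ z.1) else 0) := by
          refine ENNReal.tsum_le_tsum fun z => ?_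
          split_ifs with h
          · rw [hB, ← ENNReal.ofReal_mul (by positivity), mul_one_div]
            exact hL φ hφ z.1 z.2 h.1 (t₀ Q z) (ht₀ Q z h).1 ((Q : ℝ) / 2) (by positivity)
          · rw [measure_empty]
            exact zero_le
      _ = ENNReal.ofReal (C * Real.exp (-(l * ((Q : ℝ) / 2)))) *
            ∑' z : ℕ × ℕ, (if Sel φ Q z then ENNReal.ofReal (1 / 2 ^ z.1) else 0) :=
          ENNReal.tsum_mul_left
      _ ≤ ENNReal.ofReal (C * Real.exp (-(l * ((Q : ℝ) / 2)))) * 1 :=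
          mul_le_mul_right (sel_sum φ Q) _
      _ = _ := mul_one _
  -- Borel-Cantelli
  have hBC : ∀ᵐ θ : ℝ, θ ∈ Ico 0 (2 * Real.pi) → ∃ Q₀ : ℕ, ∀ Q, Q₀ ≤ Q → θ ∈ WQ φ C c Q := by
    have hsum : ∑' Q : ℕ, volume (Ico 0 (2 * Real.pi) \ WQ φ C c (Q + 1)) ≠ ∞ := by
      have hs : Summable fun Q : ℕ => C * Real.exp (-(l * (((Q + 1 : ℕ) : ℝ) / 2))) := by
        refine Summable.mul_left C ?_
        have h1 : Summable fun Q : ℕ => Real.exp (-(l / 2)) ^ (Q + 1) :=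
          (summable_nat_add_iff 1).2 (summable_geometric_of_lt_one (Real.exp_pos _).le
            (Real.exp_lt_one_iff.2 (by linarith)))
        refine h1.congr fun Q => ?_
        rw [← Real.exp_nat_mul]
        congr 1
        push_cast
        ring
      refine ne_top_of_le_ne_top ?_ (ENNReal.tsum_le_tsum fun Q => hbad (Q + 1) (by omega))
      rw [← ENNReal.ofReal_tsum_of_nonneg (fun Q => by positivity) hs]
      exact ENNReal.ofReal_ne_top
    filter_upwards [ae_eventually_notMem hsum] with θ hθ h0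
    obtain ⟨N, hN⟩ := eventually_atTop.1 hθ
    refine ⟨N + 1, fun Q hQ => ?_⟩
    by_contra hcon
    have h1 := hN (Q - 1) (by omega)
    have e : Q - 1 + 1 = Q := by omega
    rw [e] at h1
    exact h1 ⟨h0, hcon⟩
  -- the null sets
  have hnull : ∀ Q₀ : ℕ, μH[1] {p : ℂ | ∃ θ : ℝ, (∀ Q, Q₀ ≤ Q → θ ∈ WQ φ C c Q) ∧ Lim φ θ p} = 0 := by
    intro Q₀
    have hlim0 : Tendsto (fun Q : ℕ => ENNReal.ofReal (2 * (C * Real.exp (-((Q : ℝ) / 2))))) atTop
        (𝓝 0) := by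
      rw [← ENNReal.ofReal_zero]
      apply ENNReal.tendsto_ofReal
      have h1 : Tendsto (fun Q : ℕ => Real.exp (-((Q : ℝ) / 2))) atTop (𝓝 0) := by
        apply Real.tendsto_exp_neg_atTop_nhds_zero.comp
        exact tendsto_natCast_atTop_atTop.atTop_div_const (by norm_num)
      have h2 := (h1.const_mul C).const_mul 2
      simpa using h2
    have hball : ∀ (Q : ℕ) (z : ℕ × ℕ), ediam (if Sel φ Q z then
        closedBall (c Q z) (C * Real.exp (-((Q : ℝ) / 2)) / 2 ^ z.1) else ∅) ≤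
        ENNReal.ofReal (2 * (C * Real.exp (-((Q : ℝ) / 2)))) *
          (if Sel φ Q z then ENNReal.ofReal (1 / 2 ^ z.1) else 0) := by
      intro Q z
      split_ifs with h
      · rw [← ENNReal.ofReal_mul (by positivity)]
        have hR : 0 ≤ C * Real.exp (-((Q : ℝ) / 2)) / 2 ^ z.1 := by positivity
        rw [← Metric.closedEBall_ofReal hR]
        refine (Metric.ediam_closedEBall_le).trans (le_of_eq ?_)
        rw [show (2:ℝ) * (C * Real.exp (-((Q : ℝ) / 2))) * (1 / 2 ^ z.1) =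
          2 * (C * Real.exp (-((Q : ℝ) / 2)) / 2 ^ z.1) by ring, ENNReal.ofReal_mul (by norm_num),
          ENNReal.ofReal_ofNat]
      · simp
    have key := Measure.hausdorffMeasure_le_liminf_tsum (1 : ℝ)
      {p : ℂ | ∃ θ : ℝ, (∀ Q, Q₀ ≤ Q → θ ∈ WQ φ C c Q) ∧ Lim φ θ p} (l := atTop)
      (fun Q : ℕ => ENNReal.ofReal (2 * (C * Real.exp (-((Q : ℝ) / 2))))) hlim0
      (fun (Q : ℕ) (z : ℕ × ℕ) => if Sel φ Q z then
        closedBall (c Q z) (C * Real.exp (-((Q : ℝ) / 2)) / 2 ^ z.1) else ∅)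
      (Eventually.of_forall fun Q z => ?_) ?_
    · refine le_antisymm (key.trans ?_) zero_le
      refine (liminf_le_liminf (v := fun Q : ℕ =>
        ENNReal.ofReal (2 * (C * Real.exp (-((Q : ℝ) / 2))))) (Eventually.of_forall fun Q => ?_)).trans
        (le_of_eq hlim0.liminf_eq)
      simp only [ENNReal.rpow_one]
      refine (ENNReal.tsum_le_tsum fun z => hball Q z).trans ?_
      rw [ENNReal.tsum_mul_left]
      calc _ ≤ ENNReal.ofReal (2 * (C * Real.exp (-((Q : ℝ) / 2)))) * 1 :=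
            mul_le_mul_right (sel_sum φ Q) _
        _ = _ := mul_one _
    · refine (hball Q z).trans ?_
      have h1 : (if Sel φ Q z then ENNReal.ofReal (1 / 2 ^ z.1) else 0) ≤ 1 := by
        split_ifs
        · rw [← ENNReal.ofReal_one]
          apply ENNReal.ofReal_le_ofReal
          rw [div_le_one (by positivity)]
          exact one_le_pow₀ (by norm_num)
        · exact zero_le
      calc _ ≤ ENNReal.ofReal (2 * (C * Real.exp (-((Q : ℝ) / 2)))) * 1 :=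
            mul_le_mul_right h1 _
        _ = _ := mul_one _
    · filter_upwards [eventually_ge_atTop Q₀] with Q hQ
      rintro p ⟨θ, hθ, hp⟩
      obtain ⟨z, hz, -, p', hp', hpc⟩ := hθ Q hQ
      rw [Lim_uniq hp hp']
      refine mem_iUnion.2 ⟨z, ?_⟩
      rw [if_pos hz, mem_closedBall_iff_norm]
      exact hpc
  -- the set Z
  refine ⟨{θ | ∃ n : ℤ, ∃ Q₀ : ℕ, ∀ Q, Q₀ ≤ Q → θ + n * (2 * Real.pi) ∈ WQ φ C c Q}, ?_, ?_⟩
  · have h1 : ∀ n : ℤ, ∀ᵐ θ : ℝ, θ + n * (2 * Real.pi) ∈ Ico 0 (2 * Real.pi) →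
        ∃ Q₀ : ℕ, ∀ Q, Q₀ ≤ Q → θ + n * (2 * Real.pi) ∈ WQ φ C c Q := fun n =>
      (measurePreserving_add_right volume ((n : ℝ) * (2 * Real.pi))).quasiMeasurePreserving.ae hBC
    filter_upwards [ae_all_iff.2 h1] with θ hθ
    obtain ⟨n, hn, -⟩ := existsUnique_add_zsmul_mem_Ico hpi θ 0
    refine ⟨n, ?_⟩
    rw [zsmul_eq_mul, zero_add] at hn
    exact hθ n hn
  · have hsub : {p : ℂ | ∃ θ ∈ {θ : ℝ | ∃ n : ℤ, ∃ Q₀ : ℕ, ∀ Q, Q₀ ≤ Q →
        θ + n * (2 * Real.pi) ∈ WQ φ C c Q}, Lim φ θ p} ⊆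
        ⋃ Q₀ : ℕ, {p : ℂ | ∃ θ : ℝ, (∀ Q, Q₀ ≤ Q → θ ∈ WQ φ C c Q) ∧ Lim φ θ p} := by
      rintro p ⟨θ, ⟨n, Q₀, h⟩, hp⟩
      refine mem_iUnion.2 ⟨Q₀, θ + n * (2 * Real.pi), h, ?_⟩
      have h2 : Lim φ (θ + n * (2 * Real.pi)) p := by
        unfold Lim at hp ⊢
        simpa only [pt_add] using hp
      exact h2
    exact measure_mono_null hsub (measure_iUnion_null hnull)

end

end Pool.Agent.N673.TW.MakS
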