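import Pool.Agent.N673.TW.Stm
import Pool.Agent.Y287.TY.Arc

set_option autoImplicit false

/-!
# TW/MEAN: the dyadic martingale of a Bloch function (helper572)
-/

open Complex Filter Topology Metric Set MeasureTheory

namespace Pool.Agent.N673.TW.Mean

/-- the mean over the dyadic arc -/
noncomputable def mn (H : ℂ → ℂ) (n j i : ℕ) : ℂ :=
  (((2 * Real.pi / 2 ^ j : ℝ)) : ℂ)⁻¹ *
    ∫ t in (2 * Real.pi * i / 2 ^ j)..(2 * Real.pi * i / 2 ^ j + 2 * Real.pi / 2 ^ j), H (pt (rj n) t)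

theorem rj_nonneg (j : ℕ) : 0 ≤ rj j := by
  unfold rj
  have h1 : (1 : ℝ) ≤ 2 ^ j := one_le_pow₀ (by norm_num)
  have : 1 / (2 : ℝ) ^ j ≤ 1 := by rw [div_le_one (by positivity)]; exact h1
  linarith

theorem rj_lt (j : ℕ) : rj j < 1 := by
  unfold rj
  have : 0 < 1 / (2 : ℝ) ^ j := by positivity
  linarith

theorem rj_mono {i j : ℕ} (h : i ≤ j) : rj i ≤ rj j := by
  unfold rj
  have : 1 / (2 : ℝ) ^ j ≤ 1 / 2 ^ i := by
    apply one_div_le_one_div_of_le (by positivity)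
    exact pow_le_pow_right₀ (by norm_num) h
  linarith

theorem cont {H : ℂ → ℂ} (hB : Bl H) (n : ℕ) : Continuous fun t : ℝ => H (pt (rj n) t) := by
  refine continuous_iff_continuousAt.2 fun t => ?_
  have h3 : ContinuousAt H (pt (rj n) t) := (hB.1.differentiableAt (isOpen_ball.mem_nhds (by
    rw [mem_ball_zero_iff]
    unfold pt
    rw [norm_circleMap_zero, abs_of_nonneg (rj_nonneg n)]
    exact rj_lt n))).continuousAt
  exact ContinuousAt.comp (f := fun t : ℝ => pt (rj n) t) h3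
    (continuous_circleMap 0 (rj n)).continuousAt

theorem mn_add {H : ℂ → ℂ} (hB : Bl H) (n j i : ℕ) :
    mn H n j i = (mn H n (j + 1) (2 * i) + mn H n (j + 1) (2 * i + 1)) / 2 := by
  have hc := cont hB n
  have hpi := Real.pi_pos
  have e1 : 2 * Real.pi * ((2 * i : ℕ) : ℝ) / 2 ^ (j + 1) = 2 * Real.pi * i / 2 ^ j := by
    rw [pow_succ]; push_cast; field_simp
  have e2 : 2 * Real.pi * ((2 * i : ℕ) : ℝ) / 2 ^ (j + 1) + 2 * Real.pi / 2 ^ (j + 1) =
      2 * Real.pi * ((2 * i + 1 : ℕ) : ℝ) / 2 ^ (j + 1) := by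
    push_cast; ring
  have e3 : 2 * Real.pi * ((2 * i + 1 : ℕ) : ℝ) / 2 ^ (j + 1) + 2 * Real.pi / 2 ^ (j + 1) =
      2 * Real.pi * i / 2 ^ j + 2 * Real.pi / 2 ^ j := by
    rw [pow_succ]; push_cast; field_simp; ring
  unfold mn
  rw [e2, e3, e1, ← mul_add, intervalIntegral.integral_add_adjacent_intervals
    (hc.intervalIntegrable _ _) (hc.intervalIntegrable _ _)]
  have e4 : (((2 * Real.pi / 2 ^ (j + 1) : ℝ)) : ℂ)⁻¹ =
      2 * (((2 * Real.pi / 2 ^ j : ℝ)) : ℂ)⁻¹ := by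
    rw [← ofReal_inv, ← ofReal_inv]
    have : (2 * Real.pi / 2 ^ (j + 1))⁻¹ = 2 * (2 * Real.pi / 2 ^ j)⁻¹ := by
      rw [pow_succ]; field_simp
    rw [this]
    push_cast
    ring
  rw [e4]
  ring

/-- MEAN -/
theorem t : Pool.Agent.N673.TW.S_MEAN := by
  obtain ⟨C, hC, hArc⟩ := Pool.Agent.Y287.TY.Arc.t
  have hpi := Real.pi_pos
  have hpi3 := Real.pi_gt_three
  have hpi4 := Real.pi_lt_four
  refine ⟨C, hC, ?_⟩
  intro H hB
  have hmean : ∀ j i n : ℕ, i < 2 ^ j → j ≤ n → ∀ θ ∈ arc j i,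
      |(mn H n j i).re - (H (pt (rj j) θ)).re| ≤ C := by
    intro j i n hi hn θ hθ
    have hj : 0 < 1 / (2 : ℝ) ^ j := by positivity
    have h1 : 1 - rj j ≤ 2 * Real.pi / 2 ^ j := by
      unfold rj
      have : 2 * Real.pi / 2 ^ j = 2 * Real.pi * (1 / 2 ^ j) := by ring
      rw [this]
      nlinarith
    have h2 : 2 * Real.pi / 2 ^ j ≤ 16 * (1 - rj j) := by
      unfold rj
      have : 2 * Real.pi / 2 ^ j = 2 * Real.pi * (1 / 2 ^ j) := by ring
      rw [this]
      nlinarith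
    have h3 : θ ∈ Set.Icc (2 * Real.pi * i / 2 ^ j)
        (2 * Real.pi * i / 2 ^ j + 2 * Real.pi / 2 ^ j) := by
      refine ⟨hθ.1, hθ.2.le.trans (le_of_eq ?_)⟩
      ring
    have h4 := hArc H hB.1 hB.2 (rj j) (rj n) (2 * Real.pi * i / 2 ^ j) (2 * Real.pi / 2 ^ j) θ
      (rj_nonneg j) (rj_mono hn) (rj_lt n) h1 h2 h3
    refine le_trans ?_ h4
    refine le_trans (le_of_eq ?_) (abs_re_le_norm _)
    rw [sub_re]
    rfl
  set U := (hyperfilter ℕ) with hU
  have hUtop : (U : Filter ℕ) ≤ atTop := by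
    rw [← Nat.cofinite_eq_atTop]
    exact hyperfilter_le_cofinite
  have hlim : ∀ j i : ℕ, i < 2 ^ j → ∃ x : ℝ, Tendsto (fun n => (mn H n j i).re) U (𝓝 x) := by
    intro j i hi
    have hpt : 2 * Real.pi * i / 2 ^ j ∈ arc j i := by
      refine ⟨le_rfl, ?_⟩
      gcongr
      linarith
    set y := (H (pt (rj j) (2 * Real.pi * i / 2 ^ j))).re with hy
    have hev : ∀ᶠ n in (U : Filter ℕ), (mn H n j i).re ∈ Set.Icc (y - C) (y + C) := by
      filter_upwards [hUtop (eventually_ge_atTop j)] with n hn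
      have := abs_le.mp (hmean j i n hi hn _ hpt)
      exact ⟨by linarith [this.1], by linarith [this.2]⟩
    obtain ⟨x, _, hx⟩ := (isCompact_Icc (a := y - C) (b := y + C)).ultrafilter_le_nhds
      (U.map fun n => (mn H n j i).re) (le_principal_iff.mpr hev)
    exact ⟨x, hx⟩
  choose x hx using hlim
  refine ⟨fun j i => if h : i < 2 ^ j then x j i h else 0, ?_, ?_⟩
  · intro j i
    beta_reduce
    have hp : 2 ^ (j + 1) = 2 * 2 ^ j := by rw [pow_succ]; ring
    by_cases hi : i < 2 ^ j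
    · have h1 : 2 * i < 2 ^ (j + 1) := by omega
      have h2 : 2 * i + 1 < 2 ^ (j + 1) := by omega
      rw [dif_pos hi, dif_pos h1, dif_pos h2]
      have h3 := ((hx (j + 1) (2 * i) h1).add (hx (j + 1) (2 * i + 1) h2)).div_const 2
      refine tendsto_nhds_unique (hx j i hi) (h3.congr fun n => ?_)
      rw [mn_add hB n j i]
      have : ((mn H n (j + 1) (2 * i) + mn H n (j + 1) (2 * i + 1)) / 2).re =
          ((mn H n (j + 1) (2 * i)).re + (mn H n (j + 1) (2 * i + 1)).re) / 2 := by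
        have h5 : ((mn H n (j + 1) (2 * i) + mn H n (j + 1) (2 * i + 1)) / 2) =
          ((1 / 2 : ℝ) : ℂ) * (mn H n (j + 1) (2 * i) + mn H n (j + 1) (2 * i + 1)) := by
          push_cast; ring
        rw [h5, re_ofReal_mul, add_re]
        ring
      rw [this]
    · have h1 : ¬ 2 * i < 2 ^ (j + 1) := by omega
      have h2 : ¬ 2 * i + 1 < 2 ^ (j + 1) := by omega
      rw [dif_neg hi, dif_neg h1, dif_neg h2]
      norm_num
  · intro j i hi θ hθ
    beta_reduce
    rw [dif_pos hi]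
    have h1 : Tendsto (fun n => |(mn H n j i).re - (H (pt (rj j) θ)).re|) U
        (𝓝 |x j i hi - (H (pt (rj j) θ)).re|) := ((hx j i hi).sub_const _).abs
    refine le_of_tendsto h1 ?_
    filter_upwards [hUtop (eventually_ge_atTop j)] with n hn
    exact hmean j i n hi hn θ hθ

end Pool.Agent.N673.TW.Mean
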