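import Pool.Agent.N673.TW.Stm

set_option autoImplicit false

/-!
# Project TW (helper673), part NT (helper56): radial lower bounds are nontangential a.e.
-/

open Complex Filter Topology Metric Set MeasureTheory

namespace Pool.Agent.N673.TW.NT

theorem norm_pt' {r : ℝ} (hr : 0 ≤ r) (t : ℝ) : ‖pt r t‖ = r := by
  unfold pt
  rw [norm_circleMap_zero, abs_of_nonneg hr]

theorem pt_mem {r : ℝ} (hr : 0 ≤ r) (hr1 : r < 1) (t : ℝ) : pt r t ∈ ball (0 : ℂ) 1 := by
  rw [mem_ball_zero_iff, norm_pt' hr]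
  exact hr1

/-- the angles with a radial lower bound `q` beyond `1 - 1/(k+1)` -/
def A (H : ℂ → ℂ) (q : ℚ) (k : ℕ) : Set ℝ :=
  {t | ∀ r : ℝ, 1 - 1 / ((k : ℝ) + 1) ≤ r → r < 1 → (q : ℝ) ≤ (H (pt r t)).re}

theorem k_nonneg (k : ℕ) : (0 : ℝ) ≤ 1 - 1 / ((k : ℝ) + 1) := by
  have : (0 : ℝ) < (k : ℝ) + 1 := by positivity
  rw [sub_nonneg, div_le_one this]
  have : (0 : ℝ) ≤ k := by positivity
  linarith

theorem isClosed_A {H : ℂ → ℂ} (hH : Bl H) (q : ℚ) (k : ℕ) : IsClosed (A H q k) := by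
  have h : A H q k = ⋂ (r : ℝ) (_ : 1 - 1 / ((k : ℝ) + 1) ≤ r) (_ : r < 1),
      {t : ℝ | (q : ℝ) ≤ (H (pt r t)).re} := by
    ext t
    simp [A]
  rw [h]
  refine isClosed_iInter fun r => isClosed_iInter fun h1 => isClosed_iInter fun h2 => ?_
  have hr0 : 0 ≤ r := (k_nonneg k).trans h1
  have hc : Continuous fun t : ℝ => H (pt r t) := by
    apply hH.1.continuousOn.comp_continuous
    · exact continuous_circleMap 0 r
    · intro t
      exact pt_mem hr0 h2 t
  exact isClosed_le continuous_const (Complex.continuous_re.comp hc)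

theorem lip {H : ℂ → ℂ} (hH : Bl H) {r : ℝ} (hr : 0 ≤ r) (hr1 : r < 1) (t t' : ℝ) :
    ‖H (pt r t) - H (pt r t')‖ ≤ 6 / (1 - r) * |t - t'| := by
  have h1 : ‖H (pt r t) - H (pt r t')‖ ≤ 6 / (1 - r) * ‖pt r t - pt r t'‖ := by
    apply Convex.norm_image_sub_le_of_norm_deriv_le (s := closedBall (0 : ℂ) r) (𝕜 := ℂ)
    · intro w hw
      have hw1 : w ∈ ball (0 : ℂ) 1 := by
        rw [mem_closedBall_zero_iff] at hw
        rw [mem_ball_zero_iff]
        linarith
      exact (hH.1 w hw1).differentiableAt (isOpen_ball.mem_nhds hw1)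
    · intro w hw
      rw [mem_closedBall_zero_iff] at hw
      have hw1 : w ∈ ball (0 : ℂ) 1 := by
        rw [mem_ball_zero_iff]
        linarith
      have h2 := hH.2 w hw1
      rw [le_div_iff₀ (by linarith)]
      refine le_trans ?_ h2
      exact mul_le_mul_of_nonneg_left (by linarith) (norm_nonneg _)
    · exact convex_closedBall _ _
    · rw [mem_closedBall_zero_iff, norm_pt' hr]
    · rw [mem_closedBall_zero_iff, norm_pt' hr]
  have h2 : ‖pt r t - pt r t'‖ ≤ |t - t'| := by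
    have h3 := (lipschitzWith_circleMap (0 : ℂ) r).dist_le_mul t t'
    rw [dist_eq_norm, Real.dist_eq] at h3
    have h4 : ((Real.nnabs r : NNReal) : ℝ) = r := by
      rw [Real.coe_nnabs, abs_of_nonneg hr]
    rw [h4] at h3
    unfold pt
    refine h3.trans ?_
    calc r * |t - t'| ≤ 1 * |t - t'| := mul_le_mul_of_nonneg_right hr1.le (abs_nonneg _)
      _ = |t - t'| := one_mul _
  exact h1.trans (mul_le_mul_of_nonneg_left h2 (div_nonneg (by norm_num) (by linarith)))

/-- at a density point of `S` every point of the ball of radius `Rρ` is `ηρ`-close to `S` -/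
theorem dens {S : Set ℝ} {θ : ℝ}
    (h : Tendsto (fun r => volume (S ∩ closedBall θ r) / volume (closedBall θ r)) (𝓝[>] 0) (𝓝 1))
    {R η : ℝ} (hR : 0 < R) (hη : 0 < η) (hηR : η ≤ R) :
    ∀ᶠ ρ : ℝ in 𝓝[>] 0, ∀ t : ℝ, |t - θ| ≤ R * ρ → ∃ t' ∈ S, |t - t'| ≤ η * ρ := by
  have hlim : Tendsto (fun ρ : ℝ => 2 * R * ρ) (𝓝[>] 0) (𝓝[>] 0) := by
    apply tendsto_nhdsWithin_of_tendsto_nhds_of_eventually_within
    · have : Tendsto (fun ρ : ℝ => 2 * R * ρ) (𝓝 0) (𝓝 (2 * R * 0)) :=
        (continuous_const.mul continuous_id).tendsto 0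
      rw [mul_zero] at this
      exact this.mono_left nhdsWithin_le_nhds
    · filter_upwards [self_mem_nhdsWithin] with ρ hρ
      rw [mem_Ioi] at hρ ⊢
      positivity
  have h1 := h.comp hlim
  have hlt : ENNReal.ofReal (1 - η / (2 * R)) < 1 := by
    rw [ENNReal.ofReal_lt_one]
    have : 0 < η / (2 * R) := by positivity
    linarith
  have h2 : ∀ᶠ ρ : ℝ in 𝓝[>] 0, ENNReal.ofReal (1 - η / (2 * R)) <
      volume (S ∩ closedBall θ (2 * R * ρ)) / volume (closedBall θ (2 * R * ρ)) :=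
    h1.eventually (lt_mem_nhds hlt)
  filter_upwards [h2, self_mem_nhdsWithin] with ρ hρ hρ0 t ht
  rw [mem_Ioi] at hρ0
  by_contra hcon
  push Not at hcon
  have hsub : closedBall t (η * ρ) ⊆ closedBall θ (2 * R * ρ) := by
    intro x hx
    rw [mem_closedBall, Real.dist_eq] at hx ⊢
    have : |x - θ| ≤ |x - t| + |t - θ| := abs_sub_le _ _ _
    nlinarith
  have hsub2 : S ∩ closedBall θ (2 * R * ρ) ⊆ closedBall θ (2 * R * ρ) \ closedBall t (η * ρ) := by
    rintro x ⟨hx1, hx2⟩
    refine ⟨hx2, fun hx3 => ?_⟩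
    rw [mem_closedBall, Real.dist_eq] at hx3
    have := hcon x hx1
    rw [abs_sub_comm] at this
    linarith
  have hvol : volume (S ∩ closedBall θ (2 * R * ρ)) ≤
      ENNReal.ofReal (4 * R * ρ - 2 * η * ρ) := by
    refine (measure_mono hsub2).trans ?_
    rw [measure_sdiff hsub measurableSet_closedBall.nullMeasurableSet
      (measure_closedBall_lt_top.ne), Real.volume_closedBall, Real.volume_closedBall,
      ← ENNReal.ofReal_sub _ (by positivity)]
    apply ENNReal.ofReal_le_ofReal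
    linarith
  have h4 : ENNReal.ofReal (1 - η / (2 * R)) < ENNReal.ofReal (1 - η / (2 * R)) := by
    refine hρ.trans_le ?_
    refine (ENNReal.div_le_div_right hvol _).trans ?_
    rw [Real.volume_closedBall, ← ENNReal.ofReal_div_of_pos (by positivity)]
    apply ENNReal.ofReal_le_ofReal
    apply le_of_eq
    field_simp
    ring
  exact lt_irrefl _ h4

theorem t : Pool.Agent.N673.TW.S_NT := by
  intro H hH
  have hae : ∀ᵐ θ : ℝ, ∀ (q : ℚ) (k : ℕ), θ ∈ A H q k →
      Tendsto (fun r => volume (A H q k ∩ closedBall θ r) / volume (closedBall θ r))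
        (𝓝[>] 0) (𝓝 1) := by
    rw [ae_all_iff]
    intro q
    rw [ae_all_iff]
    intro k
    have h1 := Besicovitch.ae_tendsto_measure_inter_div (volume : Measure ℝ) (A H q k)
    rwa [ae_restrict_iff' (isClosed_A hH q k).measurableSet] at h1
  filter_upwards [hae] with θ hθ q hq R ε hR hε
  obtain ⟨r₀, hr0, hr01, hr⟩ := hq
  obtain ⟨q', hq1, hq2⟩ := exists_rat_btwn (show q - ε / 2 < q by linarith)
  obtain ⟨k, hk⟩ := exists_nat_gt (1 / (1 - r₀))
  have hk' : r₀ ≤ 1 - 1 / ((k : ℝ) + 1) := by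
    have h1 : 0 < 1 - r₀ := by linarith
    have h2 : 1 / ((k : ℝ) + 1) ≤ 1 - r₀ := by
      rw [div_le_iff₀ (by positivity)]
      rw [div_lt_iff₀ h1] at hk
      nlinarith
    linarith
  have hmem : θ ∈ A H q' k := by
    intro r h1 h2
    exact hq2.le.trans (hr r (hk'.trans h1) h2)
  have hR0 : 0 < R := by linarith
  set η := min R (ε / (24 * R)) with hη
  have hη0 : 0 < η := lt_min hR0 (by positivity)
  have hd := dens (hθ q' k hmem) hR0 hη0 (min_le_left _ _)
  have hsm : ∀ᶠ ρ : ℝ in 𝓝[>] 0, ρ < min (1 / R) (1 / (((k : ℝ) + 1) * R)) := by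
    apply nhdsWithin_le_nhds
    apply Iio_mem_nhds
    exact lt_min (by positivity) (by positivity)
  filter_upwards [hd, hsm, self_mem_nhdsWithin] with ρ hρ hρ1 hρ0 u hu hu1
  rw [mem_Ioi] at hρ0
  have hρR : ρ * R < 1 := by
    have := hρ1.trans_le (min_le_left _ _)
    rwa [lt_div_iff₀ hR0] at this
  have hρk : ρ * R < 1 / ((k : ℝ) + 1) := by
    have := hρ1.trans_le (min_le_right _ _)
    rw [lt_div_iff₀ (by positivity)] at this
    rw [lt_div_iff₀ (by positivity)]
    nlinarith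
  set r := Real.exp (-(ρ * u.re)) with hrdef
  set t := θ - ρ * u.im with htdef
  have hpt : exp (θ * I - ρ * u) = pt r t := by
    unfold pt circleMap
    rw [zero_add, hrdef, htdef, Complex.ofReal_exp, ← Complex.exp_add]
    congr 1
    apply Complex.ext
    · simp
    · simp
  have hure : 0 < u.re := lt_of_lt_of_le (by positivity) hu1
  have hureR : u.re ≤ R := (Complex.re_le_norm u).trans hu
  have huimR : |u.im| ≤ R := (Complex.abs_im_le_norm u).trans hu
  have hr1 : r < 1 := by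
    rw [hrdef, Real.exp_lt_one_iff]
    have : 0 < ρ * u.re := by positivity
    linarith
  have hrpos : 0 < r := Real.exp_pos _
  have hrk : 1 - 1 / ((k : ℝ) + 1) ≤ r := by
    have h1 : 1 - ρ * u.re ≤ r := by
      have := Real.add_one_le_exp (-(ρ * u.re))
      rw [← hrdef] at this
      linarith
    have h2 : ρ * u.re ≤ ρ * R := mul_le_mul_of_nonneg_left hureR hρ0.le
    linarith
  have h1r : ρ / (2 * R) ≤ 1 - r := by
    have hx : ρ / R ≤ ρ * u.re := by
      calc ρ / R = ρ * (1 / R) := by ring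
        _ ≤ ρ * u.re := mul_le_mul_of_nonneg_left hu1 hρ0.le
    have hx0 : 0 < ρ * u.re := by positivity
    have hx1 : ρ * u.re ≤ 1 := (mul_le_mul_of_nonneg_left hureR hρ0.le).trans hρR.le
    have h2 : Real.exp (ρ * u.re) ≥ 1 + ρ * u.re := by
      have := Real.add_one_le_exp (ρ * u.re); linarith
    have h3 : r * Real.exp (ρ * u.re) = 1 := by
      rw [hrdef, ← Real.exp_add]; simp
    have h4 : r * (1 + ρ * u.re) ≤ 1 := by
      calc r * (1 + ρ * u.re) ≤ r * Real.exp (ρ * u.re) := mul_le_mul_of_nonneg_left h2 hrpos.le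
        _ = 1 := h3
    have h5 : ρ / (2 * R) = (ρ / R) / 2 := by ring
    rw [h5]
    nlinarith
  have htθ : |t - θ| ≤ R * ρ := by
    have : t - θ = -(ρ * u.im) := by rw [htdef]; ring
    rw [this, abs_neg, abs_mul, abs_of_pos hρ0, mul_comm]
    exact mul_le_mul_of_nonneg_right huimR hρ0.le
  obtain ⟨t', ht', htt'⟩ := hρ t htθ
  have hlow := ht' r hrk hr1
  have hl := lip hH hrpos.le hr1 t t'
  have hbound : ‖H (pt r t) - H (pt r t')‖ ≤ ε / 2 := by
    refine hl.trans ?_
    have hρR2 : 0 < ρ / (2 * R) := by positivity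
    calc 6 / (1 - r) * |t - t'| ≤ 6 / (ρ / (2 * R)) * (η * ρ) := by
          apply mul_le_mul _ htt' (abs_nonneg _) (by positivity)
          exact div_le_div_of_nonneg_left (by norm_num) hρR2 h1r
      _ = 12 * R * η := by field_simp; ring
      _ ≤ 12 * R * (ε / (24 * R)) := mul_le_mul_of_nonneg_left (min_le_right _ _) (by positivity)
      _ = ε / 2 := by field_simp; ring
  rw [hpt]
  have hre : (H (pt r t')).re - (H (pt r t)).re ≤ ε / 2 := by
    have h1 := Complex.abs_re_le_norm (H (pt r t) - H (pt r t'))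
    rw [Complex.sub_re] at h1
    have h2 := (abs_le.1 (h1.trans hbound)).1
    linarith
  linarith

end Pool.Agent.N673.TW.NT
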