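import Pool.Agent.N673.TW.Stm
import Pool.Agent.Helper202.Geom

/-!
# Project TW: the packing estimate (S_PK)

Proof by areas: over the angles in question the function maps the polar rectangle
`1 - R < r < 1` into a disc of radius comparable with `R`, and its derivative is bounded below there.
-/

set_option autoImplicit false

open Complex Filter Topology Metric Set MeasureTheory

namespace Pool.Agent.N673.TW.PK

open Pool.Agent.N673.TW

lemma det_mul_real (a : ℂ) :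
    ((ContinuousLinearMap.toSpanSingleton ℂ a).restrictScalars ℝ : ℂ →L[ℝ] ℂ).det = ‖a‖ ^ 2 := by
  rw [ContinuousLinearMap.det, ← LinearMap.det_toMatrix Complex.basisOneI, Matrix.det_fin_two]
  simp [LinearMap.toMatrix_apply, Complex.basisOneI, Complex.sq_norm, Complex.normSq_apply]

lemma pt_eq (r θ : ℝ) : pt r θ = r * exp (θ * I) := by
  unfold pt circleMap
  rw [zero_add]

lemma norm_pt {r : ℝ} (θ : ℝ) (hr : 0 ≤ r) : ‖pt r θ‖ = r := by
  rw [pt_eq, norm_mul, norm_exp_ofReal_mul_I, mul_one, norm_real, Real.norm_of_nonneg hr]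

lemma pt_mem {r : ℝ} (θ : ℝ) (hr : 0 ≤ r) (h1 : r < 1) : pt r θ ∈ ball (0 : ℂ) 1 := by
  rw [mem_ball_zero_iff, norm_pt θ hr]
  exact h1

lemma continuous_pt (r : ℝ) : Continuous (pt r) := continuous_circleMap 0 r

lemma exp_pt (s θ : ℝ) : pt (Real.exp (-s)) θ = exp (-(s : ℂ) + θ * I) := by
  rw [pt_eq, exp_add]
  push_cast
  rfl

section

variable {φ : ℂ → ℂ} (hφ : Univ φ)

include hφ

lemma bounds {K : ℝ} {θ : ℝ} (h : ∀ r : ℝ, 0 ≤ r → r < 1 → |Real.log ‖deriv φ (pt r θ)‖| ≤ K)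
    {r : ℝ} (h0 : 0 ≤ r) (h1 : r < 1) :
    Real.exp (-K) ≤ ‖deriv φ (pt r θ)‖ ∧ ‖deriv φ (pt r θ)‖ ≤ Real.exp K := by
  have hne : deriv φ (pt r θ) ≠ 0 :=
    Pool.Agent.Helper202.Geom.deriv_ne_zero_of_injOn isOpen_ball hφ.1 hφ.2 (pt_mem θ h0 h1)
  have hp : 0 < ‖deriv φ (pt r θ)‖ := norm_pos_iff.2 hne
  have h2 := abs_le.1 (h r h0 h1)
  constructor
  · rw [← Real.exp_log hp]
    exact Real.exp_le_exp.2 h2.1
  · rw [← Real.exp_log hp]
    exact Real.exp_le_exp.2 h2.2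

lemma step {M : ℝ} {θ : ℝ} (h : ∀ r : ℝ, 0 ≤ r → r < 1 → ‖deriv φ (pt r θ)‖ ≤ M)
    {a b : ℝ} (ha : 0 ≤ a) (hab : a ≤ b) (hb : b < 1) :
    ‖φ (pt b θ) - φ (pt a θ)‖ ≤ M * (b - a) := by
  have hd : ∀ r ∈ Icc a b, HasDerivWithinAt (fun r : ℝ => φ (pt r θ))
      (deriv φ (pt r θ) * exp (θ * I)) (Icc a b) r := by
    intro r hr
    have h1 : HasDerivAt φ (deriv φ (pt r θ)) (pt r θ) :=
      (hφ.1.differentiableAt (isOpen_ball.mem_nhds
        (pt_mem θ (ha.trans hr.1) (hr.2.trans_lt hb)))).hasDerivAt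
    have h2 : HasDerivAt (fun r : ℝ => pt r θ) (exp (θ * I)) r := by
      have h3 : HasDerivAt (fun r : ℝ => (r : ℂ) * exp (θ * I)) (1 * exp (θ * I)) r :=
        (Complex.ofRealCLM.hasDerivAt (x := r)).mul_const _
      rw [one_mul] at h3
      refine h3.congr_of_eventuallyEq (Eventually.of_forall fun r => pt_eq r θ)
    exact (h1.comp_of_eq r h2 rfl).hasDerivWithinAt
  have h5 := (convex_Icc a b).norm_image_sub_le_of_norm_hasDerivWithin_le hd (C := M)
    (by
      intro r hr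
      rw [norm_mul, norm_exp_ofReal_mul_I, mul_one]
      exact h r (ha.trans hr.1) (hr.2.trans_lt hb)) (left_mem_Icc.2 hab) (right_mem_Icc.2 hab)
  rwa [Real.norm_of_nonneg (sub_nonneg.2 hab)] at h5

lemma dist_lim {M : ℝ} {θ : ℝ} (h : ∀ r : ℝ, 0 ≤ r → r < 1 → ‖deriv φ (pt r θ)‖ ≤ M) {p : ℂ}
    (hp : Lim φ θ p) {a : ℝ} (ha : 0 ≤ a) (h1 : a < 1) : ‖p - φ (pt a θ)‖ ≤ M * (1 - a) := by
  have hM : 0 ≤ M := (norm_nonneg _).trans (h 0 le_rfl one_pos)
  have h2 : Tendsto (fun r : ℝ => ‖φ (pt r θ) - φ (pt a θ)‖) (𝓝[<] 1) (𝓝 ‖p - φ (pt a θ)‖) :=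
    (hp.sub_const _).norm
  refine le_of_tendsto h2 ?_
  have h3 : Ioo a 1 ∈ 𝓝[<] (1 : ℝ) := Ioo_mem_nhdsLT h1
  filter_upwards [h3] with r hr
  refine (step hφ h ha hr.1.le hr.2).trans ?_
  exact mul_le_mul_of_nonneg_left (by linarith [hr.2]) hM

/-- the closed conditions -/
def EE (φ : ℂ → ℂ) (K : ℝ) (c : ℂ) (M R : ℝ) : Set ℝ :=
  {θ : ℝ | θ ∈ Ico 0 (2 * Real.pi) ∧ ∀ s ∈ Ioo (0 : ℝ) R,
    Real.exp (-K) ≤ ‖deriv φ (pt (Real.exp (-s)) θ)‖ ∧ ‖φ (pt (Real.exp (-s)) θ) - c‖ ≤ M}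

lemma meas_EE (K : ℝ) (c : ℂ) (M R : ℝ) : MeasurableSet (EE φ K c M R) := by
  have e : EE φ K c M R = Ico 0 (2 * Real.pi) ∩ ⋂ s ∈ Ioo (0 : ℝ) R,
      {θ : ℝ | Real.exp (-K) ≤ ‖deriv φ (pt (Real.exp (-s)) θ)‖ ∧
        ‖φ (pt (Real.exp (-s)) θ) - c‖ ≤ M} := by
    ext θ
    simp only [EE, mem_inter_iff, mem_iInter, mem_ofPred_eq]
  rw [e]
  refine measurableSet_Ico.inter (IsClosed.measurableSet ?_)
  refine isClosed_biInter fun s hs => ?_
  have hm : ∀ θ : ℝ, pt (Real.exp (-s)) θ ∈ ball (0 : ℂ) 1 := fun θ =>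
    pt_mem θ (Real.exp_pos _).le (Real.exp_lt_one_iff.2 (by linarith [hs.1]))
  have hc1 : Continuous fun θ : ℝ => ‖deriv φ (pt (Real.exp (-s)) θ)‖ :=
    ((hφ.1.deriv isOpen_ball).continuousOn.comp_continuous (continuous_pt _) hm).norm
  have hc2 : Continuous fun θ : ℝ => ‖φ (pt (Real.exp (-s)) θ) - c‖ :=
    ((hφ.1.continuousOn.comp_continuous (continuous_pt _) hm).sub continuous_const).norm
  exact (isClosed_le continuous_const hc1).inter (isClosed_le hc2 continuous_const)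

lemma area {K : ℝ} {c : ℂ} {M R : ℝ} (hM : 0 ≤ M) (hR : 0 < R) (hR1 : R ≤ 1) :
    volume (EE φ K c M R) ≤
      ENNReal.ofReal (Real.pi * M ^ 2 * Real.exp (2 * K + 2) / R) := by
  obtain ⟨S, hS⟩ : ∃ S : Set ℂ, S = measurableEquivRealProd ⁻¹' (Ioo (-R) 0 ×ˢ EE φ K c M R) :=
    ⟨_, rfl⟩
  have hmE := meas_EE hφ K c M R
  have hmS : MeasurableSet S := by
    rw [hS]
    exact (measurableSet_Ioo.prod hmE).preimage measurableEquivRealProd.measurable
  have hvS : volume S = ENNReal.ofReal R * volume (EE φ K c M R) := by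
    rw [hS, volume_preserving_equiv_real_prod.measure_preimage
      (measurableSet_Ioo.prod hmE).nullMeasurableSet, Measure.volume_eq_prod, Measure.prod_prod,
      Real.volume_Ioo]
    congr 2
    ring
  have hmem : ∀ w ∈ S, (-R < w.re ∧ w.re < 0) ∧ w.im ∈ EE φ K c M R := by
    intro w hw
    rw [hS] at hw
    exact hw
  have hpt : ∀ w : ℂ, exp w = pt (Real.exp (-(-w.re))) w.im := by
    intro w
    rw [exp_pt]
    congr 1
    push_cast
    rw [neg_neg, re_add_im]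
  have hball : ∀ w ∈ S, exp w ∈ ball (0 : ℂ) 1 := by
    intro w hw
    rw [hpt]
    exact pt_mem _ (Real.exp_pos _).le (Real.exp_lt_one_iff.2 (by linarith [(hmem w hw).1.2]))
  obtain ⟨F, hF⟩ : ∃ F : ℂ → ℂ, F = fun w => φ (exp w) := ⟨_, rfl⟩
  have hder : ∀ w ∈ S, HasDerivAt F (deriv φ (exp w) * exp w) w := by
    intro w hw
    rw [hF]
    have h1 : HasDerivAt φ (deriv φ (exp w)) (exp w) :=
      (hφ.1.differentiableAt (isOpen_ball.mem_nhds (hball w hw))).hasDerivAt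
    exact h1.comp w (hasDerivAt_exp w)
  have hinj : InjOn F S := by
    intro w hw w' hw' e
    rw [hF] at e
    have h1 := hφ.2 (hball w hw) (hball w' hw') e
    obtain ⟨n, hn⟩ := exp_eq_exp_iff_exists_int.1 h1
    have h2 := congrArg Complex.im hn
    have e1 : (w' + (n : ℂ) * (2 * Real.pi * I)).im = w'.im + n * (2 * Real.pi) := by
      simp
    rw [e1] at h2
    have h3 := (hmem w hw).2.1
    have h4 := (hmem w' hw').2.1
    have hpi := Real.pi_pos
    have hn0 : n = 0 := by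
      by_contra hne
      rcases lt_or_gt_of_ne hne with h5 | h5
      · have h6 : (n : ℝ) ≤ -1 := by exact_mod_cast (by omega : n ≤ -1)
        have := h3.1
        have := h4.2
        nlinarith
      · have h6 : (1 : ℝ) ≤ n := by exact_mod_cast (by omega : 1 ≤ n)
        have := h3.2
        have := h4.1
        nlinarith
    rw [hn, hn0]
    simp
  have harea := lintegral_abs_det_fderiv_eq_addHaar_image volume hmS
    (f := F) (f' := fun w => (ContinuousLinearMap.toSpanSingleton ℂ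
      (deriv φ (exp w) * exp w)).restrictScalars ℝ)
    (fun w hw => ((hder w hw).hasFDerivAt.restrictScalars ℝ).hasFDerivWithinAt) hinj
  have hlow : ENNReal.ofReal (Real.exp (-(2 * K + 2))) * volume S ≤
      ∫⁻ w in S, ENNReal.ofReal |((ContinuousLinearMap.toSpanSingleton ℂ
        (deriv φ (exp w) * exp w)).restrictScalars ℝ : ℂ →L[ℝ] ℂ).det| := by
    rw [← setLIntegral_const]
    refine setLIntegral_mono' hmS fun w hw => ?_
    apply ENNReal.ofReal_le_ofReal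
    rw [det_mul_real, abs_of_nonneg (sq_nonneg _), norm_mul]
    have h1 := ((hmem w hw).2.2 (-w.re) ⟨by linarith [(hmem w hw).1.2],
      by linarith [(hmem w hw).1.1]⟩).1
    rw [← hpt] at h1
    have h2 : Real.exp (-1) ≤ ‖exp w‖ := by
      rw [norm_exp]
      exact Real.exp_le_exp.2 (by linarith [(hmem w hw).1.1])
    have e : Real.exp (-(2 * K + 2)) = (Real.exp (-K) * Real.exp (-1)) ^ 2 := by
      rw [← Real.exp_add, ← Real.exp_nat_mul]
      congr 1
      push_cast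
      ring
    rw [e]
    refine pow_le_pow_left₀ (by positivity) ?_ 2
    exact mul_le_mul h1 h2 (Real.exp_pos _).le (norm_nonneg _)
  have himg : F '' S ⊆ closedBall c M := by
    rintro _ ⟨w, hw, rfl⟩
    rw [mem_closedBall_iff_norm, hF]
    have h1 := ((hmem w hw).2.2 (-w.re) ⟨by linarith [(hmem w hw).1.2],
      by linarith [(hmem w hw).1.1]⟩).2
    rw [← hpt] at h1
    exact h1
  have hup : volume (F '' S) ≤ ENNReal.ofReal (Real.pi * M ^ 2) := by
    refine (measure_mono himg).trans ?_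
    rw [Complex.volume_closedBall, mul_comm Real.pi, ENNReal.ofReal_mul (by positivity),
      ENNReal.ofReal_pow hM]
    apply le_of_eq
    congr 1
    rw [← NNReal.coe_real_pi, ENNReal.ofReal_coe_nnreal]
  rw [harea] at hlow
  have h1 := hlow.trans hup
  rw [hvS, ← mul_assoc, ← ENNReal.ofReal_mul (Real.exp_pos _).le] at h1
  have hpos : 0 < Real.exp (-(2 * K + 2)) * R := by positivity
  have hfin : volume (EE φ K c M R) ≠ ⊤ := by
    refine ne_top_of_le_ne_top (b := volume (Ico (0 : ℝ) (2 * Real.pi))) ?_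
      (measure_mono fun θ hθ => hθ.1)
    rw [Real.volume_Ico]
    exact ENNReal.ofReal_ne_top
  rw [← ENNReal.ofReal_toReal hfin, ← ENNReal.ofReal_mul hpos.le,
    ENNReal.ofReal_le_ofReal_iff (by positivity)] at h1
  rw [← ENNReal.ofReal_toReal hfin]
  apply ENNReal.ofReal_le_ofReal
  rw [le_div_iff₀ hR]
  have h2 : Real.exp (2 * K + 2) * Real.exp (-(2 * K + 2)) = 1 := by
    rw [← Real.exp_add]
    simp
  have h3 := mul_le_mul_of_nonneg_left h1 (Real.exp_pos (2 * K + 2)).le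
  calc (volume (EE φ K c M R)).toReal * R
      = (Real.exp (2 * K + 2) * Real.exp (-(2 * K + 2))) *
          ((volume (EE φ K c M R)).toReal * R) := by rw [h2, one_mul]
    _ = Real.exp (2 * K + 2) * (Real.exp (-(2 * K + 2)) * R *
          (volume (EE φ K c M R)).toReal) := by ring
    _ ≤ Real.exp (2 * K + 2) * (Real.pi * M ^ 2) := h3
    _ = Real.pi * M ^ 2 * Real.exp (2 * K + 2) := by ring

end

/-- **TW/PK** -/
theorem t : Pool.Agent.N673.TW.S_PK := by
  intro K hK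
  have hpi := Real.pi_pos
  refine ⟨2 * Real.pi + Real.pi * (1 + Real.exp K) ^ 2 * Real.exp (2 * K + 2), by positivity, ?_⟩
  intro φ hφ c R hR
  rcases lt_or_ge 1 R with h1 | h1
  · have h2 : {θ : ℝ | θ ∈ Ico 0 (2 * Real.pi) ∧
        (∀ r : ℝ, 0 ≤ r → r < 1 → |Real.log ‖deriv φ (pt r θ)‖| ≤ K) ∧
        ∃ p : ℂ, ‖p - c‖ ≤ R ∧ Lim φ θ p} ⊆ Ico 0 (2 * Real.pi) := fun θ hθ => hθ.1
    refine (measure_mono h2).trans ?_
    rw [Real.volume_Ico]
    apply ENNReal.ofReal_le_ofReal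
    have h3 : 0 < Real.pi * (1 + Real.exp K) ^ 2 * Real.exp (2 * K + 2) := by positivity
    nlinarith
  · have h2 : {θ : ℝ | θ ∈ Ico 0 (2 * Real.pi) ∧
        (∀ r : ℝ, 0 ≤ r → r < 1 → |Real.log ‖deriv φ (pt r θ)‖| ≤ K) ∧
        ∃ p : ℂ, ‖p - c‖ ≤ R ∧ Lim φ θ p} ⊆ EE φ K c ((1 + Real.exp K) * R) R := by
      rintro θ ⟨hθ, hlog, p, hp, hlim⟩
      refine ⟨hθ, ?_⟩
      intro s hs
      have hs0 : (0 : ℝ) ≤ Real.exp (-s) := (Real.exp_pos _).le
      have hs1 : Real.exp (-s) < 1 := Real.exp_lt_one_iff.2 (by linarith [hs.1])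
      refine ⟨(bounds hφ hlog hs0 hs1).1, ?_⟩
      have h3 := dist_lim hφ (fun r h0 h1 => (bounds hφ hlog h0 h1).2) hlim hs0 hs1
      have h4 : 1 - Real.exp (-s) ≤ R := by
        have := Real.add_one_le_exp (-s)
        linarith [hs.2]
      have h5 : φ (pt (Real.exp (-s)) θ) - c = (p - c) - (p - φ (pt (Real.exp (-s)) θ)) := by ring
      rw [h5]
      refine (norm_sub_le _ _).trans ?_
      have h6 : Real.exp K * (1 - Real.exp (-s)) ≤ Real.exp K * R :=
        mul_le_mul_of_nonneg_left h4 (Real.exp_pos K).le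
      linarith
    refine (measure_mono h2).trans ((area hφ (by positivity) hR h1).trans ?_)
    apply ENNReal.ofReal_le_ofReal
    have e : Real.pi * ((1 + Real.exp K) * R) ^ 2 * Real.exp (2 * K + 2) / R =
        Real.pi * (1 + Real.exp K) ^ 2 * Real.exp (2 * K + 2) * R := by
      field_simp
    rw [e]
    nlinarith

end Pool.Agent.N673.TW.PK
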