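import Pool.Agent.N673.TW.Stm
import Pool.Agent.N673.QC.MakC
import Pool.Agent.Helper265.BrK
import Pool.Agent.Y272.TY.LilB

set_option autoImplicit false

/-! # Project TW: distance of the image from a radial limit (`S_UP`) -/

open Complex Filter Topology Metric Set MeasureTheory

namespace Pool.Agent.N673.TW.Up

variable {φ : ℂ → ℂ}

lemma norm_pt (r θ : ℝ) (hr : 0 ≤ r) : ‖pt r θ‖ = r := Pool.Agent.W677.Mar.norm_pt r θ hr

lemma pt_mem {r θ : ℝ} (hr : 0 ≤ r) (h1 : r < 1) : pt r θ ∈ ball (0 : ℂ) 1 := by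
  rw [mem_ball_zero_iff, norm_pt r θ hr]; exact h1

lemma norm_pt_sub (r s θ : ℝ) : ‖pt r θ - pt s θ‖ = |r - s| := Pool.Agent.W677.Mar.norm_pt_sub r s θ

lemma lim_unique {θ : ℝ} {p q : ℂ} (h1 : Lim φ θ p) (h2 : Lim φ θ q) : p = q :=
  tendsto_nhds_unique h1 h2

lemma lim_period {θ : ℝ} (n : ℤ) {p : ℂ} (h : Lim φ (θ + n * (2 * Real.pi)) p) : Lim φ θ p := by
  unfold Lim at h ⊢
  refine h.congr fun r => ?_
  have : pt r (θ + n * (2 * Real.pi)) = pt r θ := Pool.Agent.Y272.TY.LilB.pt_add_int r θ n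
  rw [this]

/-- the radial estimate -/
lemma radial (hφ : Univ φ) {θ K : ℝ}
    (hK : ∀ r : ℝ, 0 ≤ r → r < 1 → |Real.log ‖deriv φ (pt r θ)‖| ≤ K) {p : ℂ} (hp : Lim φ θ p)
    (r : ℝ) (h0 : 0 ≤ r) (h1 : r < 1) : ‖φ (pt r θ) - p‖ ≤ Real.exp K * (1 - r) := by
  obtain ⟨g, hg, hg0, hB, hne, hexp⟩ := Pool.Agent.N673.Mak.exists_log hφ.1 hφ.2
  have hd : ∀ s : ℝ, 0 ≤ s → s < 1 → ‖deriv φ (pt s θ)‖ ≤ Real.exp K := by
    intro s hs0 hs1
    have hpos : 0 < ‖deriv φ (pt s θ)‖ := by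
      rw [hexp _ (pt_mem hs0 hs1), norm_mul]
      exact mul_pos (norm_pos_iff.2 hne) (norm_pos_iff.2 (exp_ne_zero _))
    rw [← Real.exp_log hpos]
    exact Real.exp_le_exp.2 (abs_le.1 (hK s hs0 hs1)).2
  have key : ∀ s : ℝ, r ≤ s → s < 1 → ‖φ (pt r θ) - φ (pt s θ)‖ ≤ Real.exp K * (1 - r) := by
    intro s hs hs1
    have h2 := (convex_Icc r s).norm_image_sub_le_of_norm_hasDerivWithin_le
      (f := fun x : ℝ => φ (pt x θ)) (f' := fun x => deriv φ (pt x θ) * exp (θ * I))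
      (C := Real.exp K) (x := s) (y := r) (fun x hx =>
        (Pool.Agent.N673.Mak.hasDerivAt_rad hφ.1 (h0.trans hx.1) (by linarith [hx.2]) θ).hasDerivWithinAt)
      (fun x hx => by
        rw [norm_mul, norm_exp_ofReal_mul_I, mul_one]
        exact hd x (h0.trans hx.1) (by linarith [hx.2])) ⟨hs, le_rfl⟩ ⟨le_rfl, hs⟩
    refine h2.trans ?_
    apply mul_le_mul_of_nonneg_left _ (Real.exp_pos _).le
    rw [Real.norm_eq_abs, abs_of_nonpos (by linarith)]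
    linarith
  refine le_of_tendsto (tendsto_const_nhds.sub hp).norm ?_
  filter_upwards [Ico_mem_nhdsLT h1] with s hs
  exact key s hs.1 hs.2

/-- a radial limit is not in the image -/
lemma lim_notMem (hφ : Univ φ) {θ : ℝ} {p : ℂ} (hp : Lim φ θ p) : p ∉ φ '' ball 0 1 := by
  intro hmem
  have hc := Pool.Agent.Helper265.Br.continuousAt_inv isOpen_ball hφ.1 hφ.2 hmem
  obtain ⟨z0, hz0, rfl⟩ := hmem
  have h1 : Tendsto (fun r : ℝ => Function.invFunOn φ (ball 0 1) (φ (pt r θ))) (𝓝[<] 1)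
      (𝓝 (Function.invFunOn φ (ball 0 1) (φ z0))) := hc.tendsto.comp hp
  rw [Pool.Agent.Helper265.Br.invFunOn_left hφ.2 hz0] at h1
  have h2 : Tendsto (fun r : ℝ => ‖pt r θ‖) (𝓝[<] 1) (𝓝 ‖z0‖) := by
    refine (h1.congr' ?_).norm
    filter_upwards [Ico_mem_nhdsLT (show (0 : ℝ) < 1 by norm_num)] with r hr
    exact Pool.Agent.Helper265.Br.invFunOn_left hφ.2 (pt_mem hr.1 hr.2)
  have h3 : Tendsto (fun r : ℝ => ‖pt r θ‖) (𝓝[<] 1) (𝓝 1) := by
    have h4 : Tendsto (fun r : ℝ => r) (𝓝[<] (1 : ℝ)) (𝓝 1) :=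
      tendsto_id.mono_left nhdsWithin_le_nhds
    refine h4.congr' ?_
    filter_upwards [Ico_mem_nhdsLT (show (0 : ℝ) < 1 by norm_num)] with r hr
    exact (norm_pt r θ hr.1).symm
  have h5 := tendsto_nhds_unique h2 h3
  rw [mem_ball_zero_iff] at hz0
  linarith

/-- every point of the disc in polar coordinates -/
lemma exists_angle (x : ℂ) : ∃ θ ∈ Ico (0 : ℝ) (2 * Real.pi), x = pt ‖x‖ θ := by
  have hpi := Real.pi_pos
  obtain ⟨k, hk, _⟩ := existsUnique_add_zsmul_mem_Ico (by positivity : 0 < 2 * Real.pi) (arg x) 0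
  rw [zero_add] at hk
  refine ⟨arg x + k • (2 * Real.pi), hk, ?_⟩
  have h1 : pt ‖x‖ (arg x + k • (2 * Real.pi)) = pt ‖x‖ (arg x) := by
    rw [zsmul_eq_mul]
    exact Pool.Agent.Y272.TY.LilB.pt_add_int _ _ k
  rw [h1]
  unfold pt circleMap
  rw [zero_add]
  exact (norm_mul_exp_arg_mul_I x).symm

/-- dyadic arcs -/
lemma exists_arc (j : ℕ) {θ : ℝ} (hθ : θ ∈ Ico (0 : ℝ) (2 * Real.pi)) :
    ∃ i : ℕ, i < 2 ^ j ∧ θ ∈ arc j i := by
  have hpi := Real.pi_pos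
  have h2 : (0 : ℝ) < 2 ^ j := by positivity
  have hx0 : 0 ≤ θ * 2 ^ j / (2 * Real.pi) := by
    have := hθ.1
    positivity
  refine ⟨⌊θ * 2 ^ j / (2 * Real.pi)⌋₊, ?_, ?_, ?_⟩
  · rw [Nat.floor_lt hx0, div_lt_iff₀ (by positivity)]
    push_cast
    have := hθ.2
    nlinarith
  · have h3 := Nat.floor_le hx0
    rw [le_div_iff₀ (by positivity)] at h3
    rw [div_le_iff₀ h2]
    linarith
  · have h3 := Nat.lt_floor_add_one (θ * 2 ^ j / (2 * Real.pi))
    rw [div_lt_iff₀ (by positivity)] at h3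
    rw [lt_div_iff₀ h2]
    linarith

lemma arc_sub {j i : ℕ} (hi : i < 2 ^ j) : arc j i ⊆ Ico (0 : ℝ) (2 * Real.pi) := by
  have hpi := Real.pi_pos
  have h2 : (0 : ℝ) < 2 ^ j := by positivity
  have hi' : ((i : ℝ) + 1) ≤ 2 ^ j := by exact_mod_cast hi
  rintro θ ⟨h3, h4⟩
  constructor
  · refine le_trans ?_ h3
    positivity
  · refine lt_of_lt_of_le h4 ?_
    rw [div_le_iff₀ h2]
    nlinarith

/-- the dyadic scale of a number in `(0, 1]` -/
lemma exists_scale {t : ℝ} (h0 : 0 < t) (h1 : t ≤ 1) :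
    ∃ j : ℕ, 1 / 2 ^ j ≤ t ∧ t ≤ 2 * (1 / 2 ^ j) := by
  have hex : ∃ n : ℕ, 1 / 2 ^ n ≤ t := by
    obtain ⟨n, hn⟩ := exists_pow_lt_of_lt_one h0 (by norm_num : (1 / 2 : ℝ) < 1)
    refine ⟨n, ?_⟩
    rw [one_div_pow] at hn
    exact hn.le
  classical
  refine ⟨Nat.find hex, Nat.find_spec hex, ?_⟩
  rcases Nat.eq_zero_or_pos (Nat.find hex) with h | h
  · rw [h]; norm_num; linarith
  · have h3 := Nat.find_min hex (m := Nat.find hex - 1) (by omega)
    rw [not_le] at h3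
    have h4 : (2 : ℝ) ^ (Nat.find hex) = 2 ^ (Nat.find hex - 1) * 2 := by
      rw [← pow_succ]; congr 1; omega
    rw [h4]
    have h5 : (0 : ℝ) < 2 ^ (Nat.find hex - 1) := by positivity
    have h6 : ∀ y : ℝ, 0 < y → 2 * (1 / (y * 2)) = 1 / y := fun y hy => by field_simp
    rw [h6 _ h5]
    exact h3.le

/-- comparison of the derivative along a short radial segment -/
lemma compare (hφ : Univ φ) {s t θ : ℝ} (h0 : 0 ≤ s) (hst : s ≤ t) (ht : t < 1)
    (hc : t - s ≤ 1 - t) :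
    ‖deriv φ (pt t θ)‖ ≤ Real.exp 4 * ‖deriv φ (pt s θ)‖ ∧
    ‖φ (pt t θ) - φ (pt s θ)‖ ≤ Real.exp 4 * ‖deriv φ (pt s θ)‖ * (t - s) := by
  obtain ⟨g, hg, hg0, hB, hne, hexp⟩ := Pool.Agent.N673.Mak.exists_log hφ.1 hφ.2
  have hg1 : ∀ x : ℝ, s ≤ x → x ≤ t → ‖g (pt x θ) - g (pt s θ)‖ ≤ 4 := by
    intro x hx1 hx2
    have hmv := (convex_closedBall (0 : ℂ) t).norm_image_sub_le_of_norm_deriv_le
      (f := g) (C := 4 / (1 - t)) (x := pt s θ) (y := pt x θ) ?_ ?_ ?_ ?_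
    · refine hmv.trans ?_
      rw [norm_pt_sub, abs_of_nonneg (by linarith), div_mul_eq_mul_div, div_le_iff₀ (by linarith)]
      linarith
    · intro y hy
      rw [mem_closedBall_zero_iff] at hy
      exact hg.differentiableAt (isOpen_ball.mem_nhds (by rw [mem_ball_zero_iff]; linarith))
    · intro y hy
      rw [mem_closedBall_zero_iff] at hy
      have h3 := hB y (by rw [mem_ball_zero_iff]; linarith)
      rw [le_div_iff₀ (by linarith)]
      exact le_trans (mul_le_mul_of_nonneg_left (by linarith) (norm_nonneg _)) h3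
    · rw [mem_closedBall_zero_iff, norm_pt s θ h0]; linarith
    · rw [mem_closedBall_zero_iff, norm_pt x θ (h0.trans hx1)]; exact hx2
  have hd : ∀ x : ℝ, s ≤ x → x ≤ t → ‖deriv φ (pt x θ)‖ ≤ Real.exp 4 * ‖deriv φ (pt s θ)‖ := by
    intro x hx1 hx2
    rw [hexp _ (pt_mem (h0.trans hx1) (by linarith)), hexp _ (pt_mem h0 (by linarith)),
      norm_mul, norm_mul, norm_exp, norm_exp]
    have h1 := (abs_le.1 (abs_re_le_norm (g (pt x θ) - g (pt s θ)))).2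
    rw [sub_re] at h1
    have h2 := hg1 x hx1 hx2
    have h3 : Real.exp (g (pt x θ)).re ≤ Real.exp 4 * Real.exp (g (pt s θ)).re := by
      rw [← Real.exp_add]
      apply Real.exp_le_exp.2
      linarith
    have h4 := mul_le_mul_of_nonneg_left h3 (norm_nonneg (deriv φ 0))
    linarith
  refine ⟨hd t hst le_rfl, ?_⟩
  have h2 := (convex_Icc s t).norm_image_sub_le_of_norm_hasDerivWithin_le
    (f := fun x : ℝ => φ (pt x θ)) (f' := fun x => deriv φ (pt x θ) * exp (θ * I))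
    (C := Real.exp 4 * ‖deriv φ (pt s θ)‖) (x := s) (y := t) (fun x hx =>
      (Pool.Agent.N673.Mak.hasDerivAt_rad hφ.1 (h0.trans hx.1)
        (by linarith [hx.2]) θ).hasDerivWithinAt)
    (fun x hx => by
      rw [norm_mul, norm_exp_ofReal_mul_I, mul_one]
      exact hd x hx.1 hx.2) ⟨le_rfl, hst⟩ ⟨hst, le_rfl⟩
  refine h2.trans ?_
  rw [Real.norm_eq_abs, abs_of_nonneg (by linarith)]

/-- the deterministic part -/
lemma keep (hL : S_L1) : ∃ C4 : ℝ, 0 < C4 ∧ ∀ φ : ℂ → ℂ, Univ φ → ∀ p : ℂ, p ∉ φ '' ball 0 1 →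
    ∀ x ∈ ball (0 : ℂ) 1,
      ENNReal.ofReal (5 / 2 * (1 - ‖x‖)) ≤
        volume {θ : ℝ | θ ∈ Ico (0 : ℝ) (2 * Real.pi) ∧
          ∃ p' : ℂ, Lim φ θ p' ∧ ‖p' - p‖ ≤ C4 * ‖φ x - p‖} := by
  obtain ⟨C, l, hC, hl, h⟩ := hL
  obtain ⟨κ, hκ, hko⟩ := Pool.Agent.Helper265.Br.koebe_omit
  have hpi := Real.pi_gt_three
  -- the constant `K1`
  obtain ⟨K1, hK10, hK1⟩ : ∃ K1 : ℝ, 0 ≤ K1 ∧ C * Real.exp (-(l * K1)) ≤ 1 := by
    refine ⟨C / l, by positivity, ?_⟩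
    have h1 : l * (C / l) = C := by field_simp
    rw [h1, Real.exp_neg]
    have h2 := Real.add_one_le_exp C
    rw [← div_eq_mul_inv, div_le_one (Real.exp_pos _)]
    linarith
  refine ⟨C * Real.exp K1 * Real.exp 4 / κ + Real.exp 4 / κ + 1, by positivity, ?_⟩
  intro φ hφ p hp x hx
  rw [mem_ball_zero_iff] at hx
  obtain ⟨t, ht⟩ : ∃ t : ℝ, t = 1 - ‖x‖ := ⟨_, rfl⟩
  have hxn := norm_nonneg x
  obtain ⟨θ₀, hθ₀, hxθ⟩ := exists_angle x
  obtain ⟨j, hj1, hj2⟩ := exists_scale (t := t) (by linarith) (by linarith)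
  obtain ⟨i, hi, hiθ⟩ := exists_arc j hθ₀
  have hjp : (0 : ℝ) < 1 / 2 ^ j := by positivity
  have hjle : (1 : ℝ) / 2 ^ j ≤ 1 := by
    rw [div_le_one (by positivity)]; exact one_le_pow₀ (by norm_num)
  have hcmp := compare hφ (s := ‖x‖) (t := rj j) (θ := θ₀) hxn (by unfold rj; linarith)
    (by unfold rj; linarith) (by unfold rj; linarith)
  rw [← hxθ] at hcmp
  have hkx : κ * t * ‖deriv φ x‖ ≤ ‖φ x - p‖ := by
    have hsub : ball x t ⊆ ball 0 1 := by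
      intro y hy
      rw [mem_ball_zero_iff]
      rw [mem_ball_iff_norm] at hy
      calc ‖y‖ = ‖(y - x) + x‖ := by rw [sub_add_cancel]
        _ ≤ ‖y - x‖ + ‖x‖ := norm_add_le _ _
        _ < 1 := by linarith
    exact hko φ x t (by linarith) (hφ.1.mono hsub) (hφ.2.mono hsub) p
      (fun hmem => hp (image_mono hsub hmem))
  have hbad := h φ hφ j i hi θ₀ hiθ K1 hK10
  have hbad' : ENNReal.ofReal (C * Real.exp (-(l * K1)) / 2 ^ j) ≤ ENNReal.ofReal (1 / 2 ^ j) := by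
    apply ENNReal.ofReal_le_ofReal
    apply div_le_div_of_nonneg_right hK1 (by positivity)
  have hcover : arc j i ⊆ {θ : ℝ | θ ∈ arc j i ∧ ¬ ∃ p : ℂ, Lim φ θ p ∧
      ‖p - φ (pt (rj j) θ₀)‖ ≤ C * Real.exp K1 * ‖deriv φ (pt (rj j) θ₀)‖ / 2 ^ j} ∪
      {θ : ℝ | θ ∈ Ico (0 : ℝ) (2 * Real.pi) ∧
          ∃ p' : ℂ, Lim φ θ p' ∧ ‖p' - p‖ ≤
            (C * Real.exp K1 * Real.exp 4 / κ + Real.exp 4 / κ + 1) * ‖φ x - p‖} := by
    intro θ hθ
    by_cases hq : ∃ p : ℂ, Lim φ θ p ∧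
      ‖p - φ (pt (rj j) θ₀)‖ ≤ C * Real.exp K1 * ‖deriv φ (pt (rj j) θ₀)‖ / 2 ^ j
    · right
      obtain ⟨p', hp', hn⟩ := hq
      refine ⟨arc_sub hi hθ, p', hp', ?_⟩
      have h1 : ‖p' - p‖ ≤ ‖p' - φ (pt (rj j) θ₀)‖ + ‖φ (pt (rj j) θ₀) - φ x‖ + ‖φ x - p‖ := by
        calc ‖p' - p‖ = ‖(p' - φ (pt (rj j) θ₀)) + (φ (pt (rj j) θ₀) - φ x) + (φ x - p)‖ := by
              congr 1; ring
          _ ≤ _ := norm_add₃_le
      have hD := norm_nonneg (deriv φ x)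
      have hE := Real.exp_pos 4
      have hE1 := Real.exp_pos K1
      have h2 : C * Real.exp K1 * ‖deriv φ (pt (rj j) θ₀)‖ / 2 ^ j ≤
          C * Real.exp K1 * Real.exp 4 / κ * ‖φ x - p‖ := by
        have h3 : C * Real.exp K1 * ‖deriv φ (pt (rj j) θ₀)‖ / 2 ^ j =
            C * Real.exp K1 * (‖deriv φ (pt (rj j) θ₀)‖ * (1 / 2 ^ j)) := by ring
        have h4 : C * Real.exp K1 * Real.exp 4 / κ * ‖φ x - p‖ =
            C * Real.exp K1 * (Real.exp 4 * (‖φ x - p‖ / κ)) := by ring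
        rw [h3, h4]
        apply mul_le_mul_of_nonneg_left _ (by positivity)
        have h5 : ‖deriv φ x‖ * t ≤ ‖φ x - p‖ / κ := by
          rw [le_div_iff₀ hκ]; linarith
        calc ‖deriv φ (pt (rj j) θ₀)‖ * (1 / 2 ^ j) ≤ (Real.exp 4 * ‖deriv φ x‖) * t := by
              apply mul_le_mul hcmp.1 hj1 hjp.le (by positivity)
          _ = Real.exp 4 * (‖deriv φ x‖ * t) := by ring
          _ ≤ _ := mul_le_mul_of_nonneg_left h5 hE.le
      have h6 : ‖φ (pt (rj j) θ₀) - φ x‖ ≤ Real.exp 4 / κ * ‖φ x - p‖ := by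
        have h5 : ‖deriv φ x‖ * t ≤ ‖φ x - p‖ / κ := by
          rw [le_div_iff₀ hκ]; linarith
        calc ‖φ (pt (rj j) θ₀) - φ x‖ ≤ Real.exp 4 * ‖deriv φ x‖ * (rj j - ‖x‖) := hcmp.2
          _ ≤ Real.exp 4 * ‖deriv φ x‖ * t := by
              apply mul_le_mul_of_nonneg_left _ (by positivity)
              unfold rj; linarith
          _ = Real.exp 4 * (‖deriv φ x‖ * t) := by ring
          _ ≤ Real.exp 4 * (‖φ x - p‖ / κ) := mul_le_mul_of_nonneg_left h5 hE.le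
          _ = _ := by ring
      have h7 : (C * Real.exp K1 * Real.exp 4 / κ + Real.exp 4 / κ + 1) * ‖φ x - p‖ =
          C * Real.exp K1 * Real.exp 4 / κ * ‖φ x - p‖ + Real.exp 4 / κ * ‖φ x - p‖ +
            ‖φ x - p‖ := by ring
      rw [h7]
      linarith
    · left
      exact ⟨hθ, hq⟩
  have hvol : volume (arc j i) = ENNReal.ofReal (2 * Real.pi / 2 ^ j) := by
    unfold arc
    rw [Real.volume_Ico]
    congr 1
    field_simp
    ring
  have h1 := (measure_mono (μ := volume) hcover).trans (measure_union_le _ _)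
  rw [hvol] at h1
  have h2 := h1.trans (add_le_add_left (hbad.trans hbad') _)
  have h3 : ENNReal.ofReal (2 * Real.pi / 2 ^ j) =
      ENNReal.ofReal (1 / 2 ^ j) + ENNReal.ofReal ((2 * Real.pi - 1) / 2 ^ j) := by
    rw [← ENNReal.ofReal_add hjp.le (div_nonneg (by linarith) (by positivity))]
    congr 1
    ring
  rw [h3] at h2
  have h4 := (ENNReal.add_le_add_iff_left ENNReal.ofReal_ne_top).1 h2
  refine le_trans ?_ h4
  apply ENNReal.ofReal_le_ofReal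
  rw [← ht]
  have h5 : (2 * Real.pi - 1) / 2 ^ j = (2 * Real.pi - 1) * (1 / 2 ^ j) := by ring
  rw [h5]
  nlinarith

/-- the exceptional sets -/
def EK (φ : ℂ → ℂ) (K : ℝ) : Set ℝ :=
  {θ | θ ∈ Ico (0 : ℝ) (2 * Real.pi) ∧
    ∀ r : ℝ, 0 ≤ r → r < 1 → |Real.log ‖deriv φ (pt r θ)‖| ≤ K}

lemma deriv_ne (hφ : Univ φ) {w : ℂ} (hw : w ∈ ball (0 : ℂ) 1) : deriv φ w ≠ 0 := by
  obtain ⟨g, hg, hg0, hB, hne, hexp⟩ := Pool.Agent.N673.Mak.exists_log hφ.1 hφ.2
  rw [hexp w hw]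
  exact mul_ne_zero hne (exp_ne_zero _)

lemma meas_EK (hφ : Univ φ) (K : ℝ) : MeasurableSet (EK φ K) := by
  have h1 : IsClosed {θ : ℝ | ∀ r : ℝ, 0 ≤ r → r < 1 → |Real.log ‖deriv φ (pt r θ)‖| ≤ K} := by
    have h2 : {θ : ℝ | ∀ r : ℝ, 0 ≤ r → r < 1 → |Real.log ‖deriv φ (pt r θ)‖| ≤ K} =
      ⋂ r ∈ Ico (0 : ℝ) 1, {θ : ℝ | |Real.log ‖deriv φ (pt r θ)‖| ≤ K} := by
      ext θ; simp
    rw [h2]
    refine isClosed_biInter fun r hr => ?_
    have hc := (Pool.Agent.N673.Mak.cont_pt (hφ.1.deriv isOpen_ball) (r := r) hr.1 hr.2).norm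
    have hc2 : Continuous fun θ : ℝ => Real.log ‖deriv φ (pt r θ)‖ :=
      hc.log fun θ => norm_ne_zero_iff.2 (deriv_ne hφ (pt_mem hr.1 hr.2))
    exact isClosed_le hc2.abs continuous_const
  exact measurableSet_Ico.inter h1.measurableSet

open Classical in
/-- the radial limit, as a function -/
noncomputable def ph (φ : ℂ → ℂ) (θ : ℝ) : ℂ := if h : ∃ p, Lim φ θ p then h.choose else 0

lemma ph_eq {θ : ℝ} {p : ℂ} (h : Lim φ θ p) : ph φ θ = p := by
  unfold ph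
  have hex : ∃ p, Lim φ θ p := ⟨p, h⟩
  rw [dif_pos hex]
  exact lim_unique hex.choose_spec h

lemma ae_lim (hφ : Univ φ) : ∀ᵐ θ : ℝ, Lim φ θ (ph φ θ) := by
  have h := Pool.Agent.N673.Mak.makarov hφ.1 hφ.2 (E := ∅) (by simp)
  filter_upwards [h] with θ hθ
  obtain ⟨p, _, hp⟩ := hθ
  have hp' : Lim φ θ p := hp
  rw [ph_eq hp']
  exact hp'

lemma aem_ph (hφ : Univ φ) : AEMeasurable (ph φ) volume := by
  refine aemeasurable_of_tendsto_metrizable_ae atTop (f := fun (j : ℕ) θ => φ (pt (rj j) θ)) ?_ ?_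
  · intro j
    refine (Pool.Agent.N673.Mak.cont_pt hφ.1 (r := rj j) ?_ ?_).measurable.aemeasurable
    · exact Pool.Agent.Y430.TY.rj_nonneg j
    · exact Pool.Agent.Y430.TY.rj_lt j
  · filter_upwards [ae_lim hφ] with θ hθ
    have h1 : Tendsto rj atTop (𝓝[<] 1) := by
      rw [tendsto_nhdsWithin_iff]
      refine ⟨?_, Eventually.of_forall fun j => Pool.Agent.Y430.TY.rj_lt j⟩
      have h2 : Tendsto (fun j : ℕ => (1 : ℝ) - (1 / 2) ^ j) atTop (𝓝 (1 - 0)) :=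
        tendsto_const_nhds.sub (tendsto_pow_atTop_nhds_zero_of_lt_one (by norm_num) (by norm_num))
      rw [sub_zero] at h2
      refine h2.congr fun j => ?_
      unfold rj
      rw [one_div_pow]
    exact hθ.comp h1

theorem t (hPK : S_PK) (hL : S_L1) (hV : S_VIT) : S_UP := by
  intro φ hφ
  obtain ⟨C4, hC4, hkeep⟩ := keep hL
  have haem := aem_ph hφ
  -- the statement at the angles of `EK`
  have hmain : ∀ K : ℕ, ∀ᵐ θ : ℝ, θ ∈ EK φ K → ∃ (p : ℂ) (C : ℝ), 0 < C ∧ Lim φ θ p ∧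
      (∀ r : ℝ, 0 ≤ r → r < 1 → ‖φ (pt r θ) - p‖ ≤ C * (1 - r)) ∧
      ∀ x ∈ ball (0 : ℂ) 1, 1 - ‖x‖ ≤ C * ‖φ x - p‖ := by
    intro K
    obtain ⟨A, hA, hPKA⟩ := hPK K (Nat.cast_nonneg K)
    set μ0 : Measure ℝ := volume.restrict (EK φ K) with hμ0
    set ω0 : Measure ℝ := volume.restrict (Ico (0 : ℝ) (2 * Real.pi)) with hω0
    have : IsFiniteMeasure μ0 := by
      refine ⟨?_⟩
      rw [hμ0, Measure.restrict_apply_univ]
      refine lt_of_le_of_lt (measure_mono (show EK φ K ⊆ Ico (0 : ℝ) (2 * Real.pi) from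
        fun θ hθ => hθ.1)) ?_
      rw [Real.volume_Ico]
      exact ENNReal.ofReal_lt_top
    have hμm : AEMeasurable (ph φ) μ0 := haem.mono_measure Measure.restrict_le_self
    have hωm : AEMeasurable (ph φ) ω0 := haem.mono_measure Measure.restrict_le_self
    have h1 : ∀ (c : ℂ) (R : ℝ), 0 < R →
        (μ0.map (ph φ)) (closedBall c R) ≤ ENNReal.ofReal (A * R) := by
      intro c R hR
      rw [Measure.map_apply_of_aemeasurable hμm measurableSet_closedBall, hμ0,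
        Measure.restrict_apply' (meas_EK hφ K)]
      refine le_trans ?_ (hPKA φ hφ c R hR)
      apply measure_mono_ae
      filter_upwards [ae_lim hφ] with θ hθ hmem
      obtain ⟨h2, h3⟩ := hmem
      refine ⟨h3.1, h3.2, ph φ θ, ?_, hθ⟩
      have h4 : ph φ θ ∈ closedBall c R := h2
      rwa [mem_closedBall, dist_eq_norm] at h4
    have h2 := ae_of_ae_map hμm (hV (μ0.map (ph φ)) (ω0.map (ph φ)) A hA.le h1)
    rw [hμ0, ae_restrict_iff' (meas_EK hφ K)] at h2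
    filter_upwards [h2, ae_lim hφ] with θ h3 hlim hθ
    obtain ⟨N, r₀, hr₀, hN⟩ := h3 hθ
    set p := ph φ θ with hp
    have hpn := lim_notMem hφ hlim
    refine ⟨p, Real.exp K + |N| * C4 + C4 / r₀, by positivity, hlim, ?_, ?_⟩
    · intro r hr0 hr1
      refine (radial hφ hθ.2 hlim r hr0 hr1).trans ?_
      apply mul_le_mul_of_nonneg_right _ (by linarith)
      have : 0 ≤ |N| * C4 + C4 / r₀ := by positivity
      linarith
    · intro x hx
      have hρ : 0 < ‖φ x - p‖ := by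
        rw [norm_pos_iff, sub_ne_zero]
        intro h
        exact hpn ⟨x, hx, h⟩
      have hxn := norm_nonneg x
      have hx1 : ‖x‖ < 1 := mem_ball_zero_iff.1 hx
      have hEx := Real.exp_pos (K : ℝ)
      by_cases hc : C4 * ‖φ x - p‖ < r₀
      · have h4 := hN (C4 * ‖φ x - p‖) (by positivity) hc
        rw [Measure.map_apply_of_aemeasurable hωm measurableSet_closedBall, hω0,
          Measure.restrict_apply' measurableSet_Ico] at h4
        have h5 : volume {θ : ℝ | θ ∈ Ico (0 : ℝ) (2 * Real.pi) ∧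
          ∃ p' : ℂ, Lim φ θ p' ∧ ‖p' - p‖ ≤ C4 * ‖φ x - p‖} ≤
            ENNReal.ofReal (N * (C4 * ‖φ x - p‖)) := by
          refine le_trans (measure_mono ?_) h4
          rintro θ' ⟨h6, p', h7, h8⟩
          refine ⟨?_, h6⟩
          show ph φ θ' ∈ closedBall p (C4 * ‖φ x - p‖)
          rw [ph_eq h7, mem_closedBall, dist_eq_norm]
          exact h8
        have h6 := (hkeep φ hφ p hpn x hx).trans h5
        rw [ENNReal.ofReal_le_ofReal_iff'] at h6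
        rcases h6 with h6 | h6
        · have h7 : N * (C4 * ‖φ x - p‖) ≤ |N| * C4 * ‖φ x - p‖ := by
            rw [mul_assoc]
            exact mul_le_mul_of_nonneg_right (le_abs_self N) (by positivity)
          have h8 : 0 ≤ (Real.exp K + C4 / r₀) * ‖φ x - p‖ := by positivity
          have h9 : (Real.exp K + |N| * C4 + C4 / r₀) * ‖φ x - p‖ =
            (Real.exp K + C4 / r₀) * ‖φ x - p‖ + |N| * C4 * ‖φ x - p‖ := by ring
          rw [h9]
          linarith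
        · linarith
      · rw [not_lt] at hc
        have h7 : 1 ≤ C4 / r₀ * ‖φ x - p‖ := by
          rw [div_mul_eq_mul_div, le_div_iff₀ hr₀]
          linarith
        have h8 : 0 ≤ (Real.exp K + |N| * C4) * ‖φ x - p‖ := by positivity
        have h9 : (Real.exp K + |N| * C4 + C4 / r₀) * ‖φ x - p‖ =
            (Real.exp K + |N| * C4) * ‖φ x - p‖ + C4 / r₀ * ‖φ x - p‖ := by ring
        rw [h9]
        linarith
  refine Pool.Agent.Y272.TY.LilB.ae_of_period ?_ ?_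
  · rintro θ n h ⟨K, hK⟩
    have hpt : ∀ r : ℝ, pt r (θ + n * (2 * Real.pi)) = pt r θ := fun r =>
      Pool.Agent.Y272.TY.LilB.pt_add_int r θ n
    simp only [hpt] at h
    obtain ⟨p, C, hC, hlim, h1, h2⟩ := h ⟨K, hK⟩
    exact ⟨p, C, hC, lim_period n hlim, h1, h2⟩
  · filter_upwards [ae_all_iff.2 hmain] with θ hθ hθI ⟨K, hK⟩
    obtain ⟨k, hk⟩ := exists_nat_ge K
    exact hθ k ⟨hθI, fun r h0 h1 => (hK r h0 h1).trans hk⟩

end Pool.Agent.N673.TW.Up
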