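import Pool.Agent.N673.TW.Stm

set_option autoImplicit false

/-!
# Project TW (helper673), part VIT (helper56): weak type inequality via the 5r covering lemma
-/

open Complex Filter Topology Metric Set MeasureTheory

namespace Pool.Agent.N673.TW.Vit

/-- points at which the density of `ω` exceeds `N` at some radius below `1` -/
def E (ω : Measure ℂ) (N : ℕ) : Set ℂ :=
  {c | ∃ r : ℝ, 0 < r ∧ r < 1 ∧ ENNReal.ofReal (N * r) < ω (closedBall c r)}

theorem bound (μ ω : Measure ℂ) [IsFiniteMeasure μ] [IsFiniteMeasure ω] (A : ℝ) (hA : 0 ≤ A)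
    (h : ∀ (c : ℂ) (R : ℝ), 0 < R → μ (closedBall c R) ≤ ENNReal.ofReal (A * R)) (N : ℕ) :
    (N : ENNReal) * μ (E ω N) ≤ ENNReal.ofReal (5 * A) * ω univ := by
  classical
  have hch : ∀ c : ℂ, ∃ r : ℝ, c ∈ E ω N →
      0 < r ∧ r < 1 ∧ ENNReal.ofReal (N * r) < ω (closedBall c r) := by
    intro c
    by_cases hc : c ∈ E ω N
    · obtain ⟨r, h1, h2, h3⟩ := hc
      exact ⟨r, fun _ => ⟨h1, h2, h3⟩⟩
    · exact ⟨0, fun h' => absurd h' hc⟩
  choose r hr using hch
  obtain ⟨u, hu, hdis, hcov⟩ := Vitali.exists_disjoint_subfamily_covering_enlargement_closedBall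
    (E ω N) (fun c : ℂ => c) r 1 (fun a ha => (hr a ha).2.1.le) 5 (by norm_num)
  have hcount : u.Countable := by
    apply hdis.countable_of_nonempty_interior
    intro a ha
    exact ⟨a, (ball_subset_interior_closedBall) (mem_ball_self (hr a (hu ha)).1)⟩
  have hsub : E ω N ⊆ ⋃ c ∈ u, closedBall c (5 * r c) := by
    intro a ha
    obtain ⟨b, hb, hab⟩ := hcov a ha
    exact mem_biUnion hb (hab (mem_closedBall_self (hr a ha).1.le))
  have h1 : μ (E ω N) ≤ ∑' c : u, μ (closedBall (c : ℂ) (5 * r c)) :=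
    (measure_mono hsub).trans (measure_biUnion_le μ hcount _)
  have h2 : ∑' c : u, ω (closedBall (c : ℂ) (r c)) ≤ ω univ := by
    rw [← measure_biUnion hcount hdis (fun c _ => measurableSet_closedBall)]
    exact measure_mono (subset_univ _)
  calc (N : ENNReal) * μ (E ω N)
      ≤ (N : ENNReal) * ∑' c : u, μ (closedBall (c : ℂ) (5 * r c)) := by gcongr
    _ = ∑' c : u, (N : ENNReal) * μ (closedBall (c : ℂ) (5 * r c)) := ENNReal.tsum_mul_left.symm
    _ ≤ ∑' c : u, ENNReal.ofReal (5 * A) * ω (closedBall (c : ℂ) (r c)) := by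
        refine ENNReal.tsum_le_tsum fun c => ?_
        have hc := hr c (hu c.2)
        have e1 : μ (closedBall (c : ℂ) (5 * r c)) ≤ ENNReal.ofReal (A * (5 * r c)) :=
          h _ _ (by linarith [hc.1])
        calc (N : ENNReal) * μ (closedBall (c : ℂ) (5 * r c))
            ≤ (N : ENNReal) * ENNReal.ofReal (A * (5 * r c)) := by gcongr
          _ = ENNReal.ofReal (5 * A) * ENNReal.ofReal (N * r c) := by
              rw [← ENNReal.ofReal_natCast, ← ENNReal.ofReal_mul (by positivity),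
                ← ENNReal.ofReal_mul (by positivity)]
              congr 1
              ring
          _ ≤ ENNReal.ofReal (5 * A) * ω (closedBall (c : ℂ) (r c)) := by
              gcongr
              exact hc.2.2.le
    _ = ENNReal.ofReal (5 * A) * ∑' c : u, ω (closedBall (c : ℂ) (r c)) := ENNReal.tsum_mul_left
    _ ≤ ENNReal.ofReal (5 * A) * ω univ := by gcongr

theorem t : Pool.Agent.N673.TW.S_VIT := by
  intro μ ω _ _ A hA h
  rw [ae_iff]
  set B := {a : ℂ | ¬ ∃ N r₀ : ℝ, 0 < r₀ ∧ ∀ r : ℝ, 0 < r → r < r₀ →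
    ω (closedBall a r) ≤ ENNReal.ofReal (N * r)} with hB
  have hsub : ∀ N : ℕ, B ⊆ E ω N := by
    intro N c hc
    by_contra hcon
    apply hc
    refine ⟨N, 1, one_pos, fun r hr hr1 => ?_⟩
    by_contra h3
    exact hcon ⟨r, hr, hr1, not_le.1 h3⟩
  have hM : ENNReal.ofReal (5 * A) * ω univ ≠ ⊤ :=
    ENNReal.mul_ne_top ENNReal.ofReal_ne_top (measure_ne_top ω _)
  have hall : ∀ N : ℕ, (N : ENNReal) * μ B ≤ ENNReal.ofReal (5 * A) * ω univ := fun N =>
    (mul_le_mul_right (measure_mono (hsub N)) _).trans (bound μ ω A hA h N)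
  by_contra hne
  have htop : (⊤ : ENNReal) ≤ ENNReal.ofReal (5 * A) * ω univ := by
    have hlim : Tendsto (fun N : ℕ => (N : ENNReal) * μ B) atTop (𝓝 (⊤ * μ B)) :=
      ENNReal.Tendsto.mul_const ENNReal.tendsto_nat_nhds_top (Or.inl ENNReal.top_ne_zero)
    rw [ENNReal.top_mul hne] at hlim
    exact le_of_tendsto' hlim hall
  exact hM (top_le_iff.1 htop)

end Pool.Agent.N673.TW.Vit
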