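import Pool.Agent.N673.TW.BL6
import Pool.Agent.N673.TW.Dich
import Pool.Agent.N673.TW.Dev
import Pool.Agent.N673.TW.Mean
import Pool.Agent.N673.TW.Tree
import Pool.Agent.N673.TW.NT
import Pool.Agent.N673.TW.Rig
import Pool.Agent.N673.TW.PK
import Pool.Agent.N673.TW.L1
import Pool.Agent.N673.TW.Vit
import Pool.Agent.N673.TW.Up
import Pool.Agent.N673.TW.MakS
import Pool.Agent.Y272.TY.Fin5

set_option autoImplicit false

/-!
# The harmonic measure of the Multibrot sets is singular to length: assembly in the disc coordinate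
-/

open Complex Filter Topology Metric Set MeasureTheory N62a1eb23

namespace Pool.Agent.N673.TW.Fin

open Pool.Agent.H712R2 Pool.Agent.H713R2 Pool.Agent.Y272.TY Pool.Agent.W677.Mar
open Pool.Agent.N673.TW.BL

variable {d : ℕ} {β H : ℂ → ℂ}

theorem l1 : S_L1 := Pool.Agent.N673.TW.L1.t (Pool.Agent.N673.TW.Dev.t
  Pool.Agent.N673.TW.Mean.t Pool.Agent.N673.TW.Tree.t)

theorem up : S_UP := Pool.Agent.N673.TW.Up.t Pool.Agent.N673.TW.PK.t l1 Pool.Agent.N673.TW.Vit.t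

theorem dich : S_DICH := Pool.Agent.N673.TW.Dich.t Pool.Agent.N673.TW.Mean.t
  Pool.Agent.N673.TW.Tree.t

theorem bl_neg (S : Sg β H) : Bl (fun w => -H w) := by
  refine ⟨S.dH.neg, fun w hw => ?_⟩
  have h1 : deriv (fun w => -H w) w = -deriv H w := deriv.fun_neg
  rw [h1, norm_neg]
  exact H_bloch S hw

/-- almost everywhere the logarithm of the derivative is radially neither bounded above nor below -/
theorem osc (hd : 2 ≤ d) (hβ : IsBeta d β) (S : Sg β H) : ∀ᵐ θ : ℝ,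
    ¬ BddBelow (range fun j : ℕ => (H (pt (rj j) θ)).re) ∧
      ¬ BddAbove (range fun j : ℕ => (H (pt (rj j) θ)).re) := by
  have hBl : Bl H := ⟨S.dH, fun w hw => H_bloch S hw⟩
  filter_upwards [bl Pool.Agent.N673.TW.NT.t up Pool.Agent.N673.TW.Rig.t hd hβ S,
    dich H hBl, dich _ (bl_neg S)] with θ h1 h2 h3
  constructor
  · intro h
    exact h1 ⟨h, h2 h⟩
  · intro h
    refine h1 ⟨?_, h⟩
    obtain ⟨b, hb⟩ := h
    obtain ⟨a, ha⟩ := h3 ⟨-b, by
      rintro _ ⟨j, rfl⟩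
      simp only [neg_re]
      linarith [hb (mem_range_self j)]⟩
    refine ⟨-a, ?_⟩
    rintro _ ⟨j, rfl⟩
    have := ha (mem_range_self j)
    simp only [neg_re] at this
    linarith

/-- Makarov's theorem for the reciprocal -/
theorem sing (hd : 2 ≤ d) (hβ : IsBeta d β) (S : Sg β H) :
    ∃ Z : Set ℝ, (∀ᵐ θ : ℝ, θ ∈ Z) ∧ μH[1] {p : ℂ | ∃ θ ∈ Z, Lim (Ff β) θ p} = 0 := by
  apply Pool.Agent.N673.TW.MakS.t l1 (Ff β) (Ff_univ hd hβ)
  filter_upwards [osc hd hβ S] with θ h1 h2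
  refine h1.1 ?_
  obtain ⟨a, ha⟩ := h2
  refine ⟨a - 4, ?_⟩
  rintro _ ⟨j, rfl⟩
  have h3 := ha (mem_range_self j)
  have h4 : pt (rj j) θ ∈ ball (0 : ℂ) 1 := by
    rw [mem_ball_zero_iff]
    exact (norm_pt (rj j) θ (Pool.Agent.Y430.TY.rj_nonneg j)).trans_lt
      (Pool.Agent.Y430.TY.rj_lt j)
  have h5 := (abs_le.1 (Ff_log_sub hd hβ S h4)).2
  linarith

end Pool.Agent.N673.TW.Fin
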