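import Pool.Agent.N673.TW.BM6
import Pool.Agent.N673.TW.Fin1
import Pool.Agent.Y272.TY.All
import Pool.Agent.Y298.CA.Typ
import Pool.Agent.N253.SM.Fin
import Pool.Agent.N253.SM.Bnd
import Pool.Agent.N253.SM.Free
import Pool.Agent.N253.SM.Exp

set_option autoImplicit false

/-!
# Two-sided law of the iterated logarithm for the Multibrot sets: almost every angle
-/

open Complex Filter Topology Metric Set MeasureTheory N62a1eb23

namespace Pool.Agent.N673.TW.Fin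

open Pool.Agent.H712R2 Pool.Agent.H713R2 Pool.Agent.Y272.TY Pool.Agent.W677.Mar
open Pool.Agent.N673.TW.BL Pool.Agent.N673.TW.BM

variable {d : ℕ} {β H : ℂ → ℂ}

/-- parameters with a Lyapunov exponent: the filled Julia set has no interior -/
theorem int_empty (hd : 2 ≤ d) {χ : ℝ} {c0 : ℂ} (h : Pool.Agent.Y298.CA.Lyap d χ c0) :
    interior {z : ℂ | ∃ B : ℝ, ∀ k, ‖(fun z : ℂ => z ^ d + c0)^[k] z‖ ≤ B} = ∅ := by
  have hE : N253.SM.S_EXP := N253.SM.t_EXP N253.SM.t_FREE N253.SM.t_BND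
  have h1 := N253.SM.interior_KK hE hd h
  refine Set.eq_empty_of_subset_empty ?_
  rw [← h1]
  apply interior_mono
  rintro z ⟨B, hB⟩
  show ¬ Tendsto (fun n : ℕ => (fc d c0)^[n] z) atTop (Bornology.cobounded ℂ)
  intro ht
  rw [← tendsto_norm_atTop_iff_cobounded] at ht
  obtain ⟨k, hk⟩ := (ht.eventually (eventually_gt_atTop B)).exists
  exact absurd (hB k) (not_le.mpr hk)

/-- almost every angle: landing, and a positive lower density of levels without flatness -/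
theorem nf_ae (hd : 2 ≤ d) (hβ : IsBeta d β) (S : Sg β H) : ∀ᵐ θ : ℝ, ∃ c0 : ℂ,
    Tendsto (fun r : ℝ => cc β (pt r θ)) (𝓝[<] 1) (𝓝 c0) ∧
    c0 ∈ frontier (multibrotSet d) ∧
    ∃ ε δ : ℝ, 0 < ε ∧ 0 < δ ∧ ∀ᶠ N : ℕ in atTop, δ * N ≤ cnt {j | NF ε H θ j} N := by
  have hBl : Bl H := ⟨S.dH, fun w hw => H_bloch S hw⟩
  have hU := Ff_univ hd hβ
  filter_upwards [Pool.Agent.N673.TW.Upl.t H hBl, Pool.Agent.Y272.TY.typical_all hd hβ,
    Pool.Agent.N673.Mak.makarov hU.1 hU.2 (E := EE d) (by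
      rw [(EE_countable hd).dimH_zero]; exact one_pos)] with θ h1 h2 h3
  obtain ⟨c0, A, R, hT⟩ := h2
  have hc : Tendsto (fun r : ℝ => cc β (pt r θ)) (𝓝[<] 1) (𝓝 c0) := hT.land
  have hM := (mem_multibrot_iff hd c0).1 (hT.mem hd hβ)
  refine ⟨c0, hc, hT.frontier hd hβ, ?_⟩
  obtain ⟨p, hpE, hp⟩ := h3
  obtain ⟨hb3, -⟩ := lim_bounds hd hβ hp
  have hp0 : p ≠ 0 := by intro h; rw [h, norm_zero] at hb3; norm_num at hb3
  have hcp : c0 = p⁻¹ := by
    have h4 : Tendsto (fun r : ℝ => (Ff β (pt r θ))⁻¹) (𝓝[<] 1) (𝓝 p⁻¹) := hp.inv₀ hp0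
    refine tendsto_nhds_unique hc (h4.congr fun r => ?_)
    rw [Ff_eq, inv_inv]
  apply nf_density_at hd hβ S hM (int_empty hd (Pool.Agent.Y298.CA.lyap_of_typ hd hβ hT)) _ hc
    (Lm_tendsto h1)
  intro m n hmn h
  rw [hcp] at h
  exact hpE ⟨m, n, hmn, h⟩

end Pool.Agent.N673.TW.Fin
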