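import Pool.Agent.N673.TW.Stm2

set_option autoImplicit false

/-!
# TW/LLIL: the lower law of the iterated logarithm in the clock (helper455)
-/

open Filter Topology Set MeasureTheory

namespace Pool.Agent.N673.TW.Llil

/-! ### Indices -/

theorem idx_meas (n : ℕ) : Measurable (idx n) := by
  unfold idx
  exact Nat.measurable_floor.comp (by fun_prop)

theorem X_meas (X : ℕ → ℕ → ℝ) (n : ℕ) : Measurable (fun θ : ℝ => X n (idx n θ)) :=
  (measurable_of_countable (X n)).comp (idx_meas n)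

theorem VV_meas (X : ℕ → ℕ → ℝ) (n : ℕ) : Measurable (VV X n) := by
  unfold VV
  exact Finset.measurable_sum _ fun j _ => ((X_meas X (j + 1)).sub (X_meas X j)).pow_const 2

theorem mem_arc {n : ℕ} {θ : ℝ} (h : θ ∈ Ico 0 (2 * Real.pi)) : θ ∈ arc n (idx n θ) := by
  have hpi : 0 < 2 * Real.pi := by positivity
  have h0 : 0 ≤ θ * 2 ^ n / (2 * Real.pi) := by have := h.1; positivity
  have h1 : ((idx n θ : ℕ) : ℝ) ≤ θ * 2 ^ n / (2 * Real.pi) := Nat.floor_le h0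
  have h2 : θ * 2 ^ n / (2 * Real.pi) < (idx n θ : ℕ) + 1 := Nat.lt_floor_add_one _
  rw [le_div_iff₀ hpi] at h1
  rw [div_lt_iff₀ hpi] at h2
  constructor
  · rw [div_le_iff₀ (by positivity)]
    linarith
  · rw [lt_div_iff₀ (by positivity)]
    linarith

theorem idx_lt {n : ℕ} {θ : ℝ} (h : θ ∈ Ico 0 (2 * Real.pi)) : idx n θ < 2 ^ n := by
  have hpi : 0 < 2 * Real.pi := by positivity
  have h0 : 0 ≤ θ * 2 ^ n / (2 * Real.pi) := by have := h.1; positivity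
  unfold idx
  rw [Nat.floor_lt h0, div_lt_iff₀ hpi]
  push_cast
  have h2 : (0 : ℝ) < 2 ^ n := by positivity
  nlinarith [h.2]

theorem idx_eq {n i : ℕ} {θ : ℝ} (h : θ ∈ arc n i) : idx n θ = i := by
  have hpi : 0 < 2 * Real.pi := by positivity
  obtain ⟨h1, h2⟩ := h
  rw [div_le_iff₀ (by positivity)] at h1
  rw [lt_div_iff₀ (by positivity)] at h2
  have h0 : 0 ≤ θ * 2 ^ n / (2 * Real.pi) := by
    have : 0 ≤ 2 * Real.pi * i := by positivity
    have h3 : 0 ≤ θ * 2 ^ n := by linarith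
    positivity
  unfold idx
  rw [Nat.floor_eq_iff h0]
  constructor
  · rw [le_div_iff₀ hpi]
    linarith
  · rw [div_lt_iff₀ hpi]
    linarith

theorem arc_sub {n i : ℕ} (hi : i < 2 ^ n) {θ : ℝ} (h : θ ∈ arc n i) : θ ∈ Ico 0 (2 * Real.pi) := by
  have hpi : 0 < 2 * Real.pi := by positivity
  obtain ⟨h1, h2⟩ := h
  constructor
  · exact le_trans (by positivity) h1
  · refine lt_of_lt_of_le h2 ?_
    rw [div_le_iff₀ (by positivity)]
    have h3 : ((i : ℝ) + 1) ≤ 2 ^ n := by exact_mod_cast hi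
    nlinarith

theorem idx_anc {m n : ℕ} (hmn : m ≤ n) (θ : ℝ) : idx m θ = idx n θ / 2 ^ (n - m) := by
  unfold idx
  have h1 : θ * 2 ^ m / (2 * Real.pi) = θ * 2 ^ n / (2 * Real.pi) / ((2 ^ (n - m) : ℕ) : ℝ) := by
    have h2 : (2 : ℝ) ^ n = 2 ^ m * 2 ^ (n - m) := by
      rw [← pow_add]
      congr 1
      omega
    push_cast
    rw [h2]
    field_simp
  rw [h1, Nat.floor_div_natCast]

theorem idx_det {m n : ℕ} (hmn : m ≤ n) {θ θ' : ℝ} (h : idx n θ = idx n θ') :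
    idx m θ = idx m θ' := by
  rw [idx_anc hmn, idx_anc hmn, h]

theorem VV_det (X : ℕ → ℕ → ℝ) {m n : ℕ} (hmn : m ≤ n) {θ θ' : ℝ} (h : idx n θ = idx n θ') :
    VV X m θ = VV X m θ' := by
  unfold VV
  refine Finset.sum_congr rfl fun j hj => ?_
  rw [Finset.mem_range] at hj
  rw [idx_det (by omega : j + 1 ≤ n) h, idx_det (by omega : j ≤ n) h]

theorem VV_mono (X : ℕ → ℕ → ℝ) (θ : ℝ) : Monotone fun n => VV X n θ := by
  refine monotone_nat_of_le_succ fun n => ?_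
  unfold VV
  rw [Finset.sum_range_succ]
  exact le_add_of_nonneg_right (sq_nonneg _)

theorem VV_zero (X : ℕ → ℕ → ℝ) (θ : ℝ) : VV X 0 θ = 0 := by
  unfold VV
  simp

theorem VV_step {B : ℝ} {X : ℕ → ℕ → ℝ} (hX : DM B X) (n : ℕ) {θ : ℝ}
    (h : θ ∈ Ico 0 (2 * Real.pi)) : VV X (n + 1) θ ≤ VV X n θ + B ^ 2 := by
  unfold VV
  rw [Finset.sum_range_succ]
  have h1 : idx n θ = idx (n + 1) θ / 2 := by
    have := idx_anc (Nat.le_succ n) θ
    simpa using this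
  have h2 := hX.2 n (idx n θ) (idx_lt h)
  have h3 := hX.1 n (idx n θ)
  have h4 : |X (n + 1) (idx (n + 1) θ) - X n (idx n θ)| ≤ B := by
    have h5 : idx (n + 1) θ = 2 * idx n θ ∨ idx (n + 1) θ = 2 * idx n θ + 1 := by omega
    rcases h5 with h5 | h5
    · rw [h5]
      exact h2
    · rw [h5]
      have h6 : X (n + 1) (2 * idx n θ + 1) - X n (idx n θ) =
        -(X (n + 1) (2 * idx n θ) - X n (idx n θ)) := by linarith
      rw [h6, abs_neg]
      exact h2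
  have h5 : (X (n + 1) (idx (n + 1) θ) - X n (idx n θ)) ^ 2 ≤ B ^ 2 := by
    rw [← sq_abs]
    exact pow_le_pow_left₀ (abs_nonneg _) h4 2
  linarith

theorem arc_meas (n i : ℕ) : MeasurableSet (arc n i) := measurableSet_Ico

theorem arc_vol (n i : ℕ) : volume (arc n i) = ENNReal.ofReal (2 * Real.pi / 2 ^ n) := by
  unfold arc
  rw [Real.volume_Ico]
  congr 1
  ring

theorem arc_zero : arc 0 0 = Ico 0 (2 * Real.pi) := by
  unfold arc
  simp

/-! ### Stopping arcs -/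

open Classical in
theorem cover {j i : ℕ} (hi : i < 2 ^ j) (P : ℕ → ℝ → Prop)
    (hdet : ∀ (n : ℕ) (θ θ' : ℝ), j ≤ n → θ ∈ arc j i → θ' ∈ arc j i → idx n θ = idx n θ' →
      P n θ → P n θ')
    (E : Set ℝ) (δ : ENNReal)
    (hE : ∀ (n : ℕ) (θ : ℝ), j ≤ n → θ ∈ arc j i → P n θ → (∀ m, j ≤ m → m < n → ¬ P m θ) →
      volume (arc n (idx n θ) ∩ E) ≤ δ * volume (arc n (idx n θ))) :
    volume ({θ : ℝ | θ ∈ arc j i ∧ ∃ n, j ≤ n ∧ P n θ} ∩ E) ≤
      δ * volume {θ : ℝ | θ ∈ arc j i ∧ ∃ n, j ≤ n ∧ P n θ} := by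
  obtain ⟨T, hT⟩ : ∃ T : ℕ → Set ℝ, T = fun n => {θ : ℝ | j ≤ n ∧ θ ∈ arc j i ∧ P n θ ∧
    ∀ m, j ≤ m → m < n → ¬ P m θ} := ⟨_, rfl⟩
  have hTm : ∀ n θ, θ ∈ T n ↔ (j ≤ n ∧ θ ∈ arc j i ∧ P n θ ∧ ∀ m, j ≤ m → m < n → ¬ P m θ) := by
    intro n θ
    rw [hT]
    rfl
  have hU : {θ : ℝ | θ ∈ arc j i ∧ ∃ n, j ≤ n ∧ P n θ} = ⋃ n, T n := by
    ext θ
    rw [Set.mem_iUnion]
    constructor
    · rintro ⟨h1, h2⟩
      refine ⟨Nat.find h2, ?_⟩
      rw [hTm]
      refine ⟨(Nat.find_spec h2).1, h1, (Nat.find_spec h2).2, fun m hm1 hm2 hm3 => ?_⟩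
      exact Nat.find_min h2 hm2 ⟨hm1, hm3⟩
    · rintro ⟨n, hn⟩
      rw [hTm] at hn
      exact ⟨hn.2.1, n, hn.1, hn.2.2.1⟩
  have hdisj : Pairwise (Function.onFun Disjoint T) := by
    intro a b hab
    rw [Function.onFun, Set.disjoint_left]
    intro θ ha hb
    rw [hTm] at ha hb
    rcases lt_or_gt_of_ne hab with h | h
    · exact hb.2.2.2 a ha.1 h ha.2.2.1
    · exact ha.2.2.2 b hb.1 h hb.2.2.1
  -- the arcs
  have hK : ∀ n, ∃ K : Finset ℕ, T n = ⋃ k ∈ K, arc n k ∧ ∀ k ∈ K, ∃ θ ∈ T n, idx n θ = k := by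
    intro n
    refine ⟨(Finset.range (2 ^ n)).filter (fun k => ∃ θ ∈ T n, idx n θ = k), ?_, ?_⟩
    · ext θ
      rw [Set.mem_iUnion₂]
      constructor
      · intro h
        have h1 := arc_sub hi ((hTm n θ).1 h).2.1
        refine ⟨idx n θ, ?_, mem_arc h1⟩
        rw [Finset.mem_filter, Finset.mem_range]
        exact ⟨idx_lt h1, θ, h, rfl⟩
      · rintro ⟨k, hk, h⟩
        rw [Finset.mem_filter, Finset.mem_range] at hk
        obtain ⟨hk1, θ', hθ', hk2⟩ := hk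
        have h1 := arc_sub hk1 h
        rw [hTm] at hθ' ⊢
        obtain ⟨g1, g2, g3, g4⟩ := hθ'
        have h2 : idx n θ = idx n θ' := by rw [idx_eq h, hk2]
        have h3 : θ ∈ arc j i := by
          have h4 := mem_arc (n := j) h1
          rw [idx_det g1 h2, idx_eq g2] at h4
          exact h4
        refine ⟨g1, h3, hdet n θ' θ g1 g2 h3 h2.symm g3, fun m hm1 hm2 hm3 => ?_⟩
        exact g4 m hm1 hm2 (hdet m θ θ' hm1 h3 g2 (idx_det hm2.le h2) hm3)
    · intro k hk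
      rw [Finset.mem_filter] at hk
      exact hk.2
  choose K hK1 hK2 using hK
  have hTmeas : ∀ n, MeasurableSet (T n) := by
    intro n
    rw [hK1 n]
    exact Finset.measurableSet_biUnion _ fun k _ => arc_meas n k
  have hstep : ∀ n, volume (T n ∩ E) ≤ δ * volume (T n) := by
    intro n
    have h1 : volume (T n) = ∑ k ∈ K n, volume (arc n k) := by
      conv_lhs => rw [hK1 n]
      refine measure_biUnion_finset ?_ fun k _ => arc_meas n k
      intro a _ b _ hab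
      rw [Function.onFun, Set.disjoint_left]
      intro θ ha hb
      exact hab ((idx_eq ha).symm.trans (idx_eq hb))
    have h2 : T n ∩ E ⊆ ⋃ k ∈ K n, (arc n k ∩ E) := by
      rintro θ ⟨h, h'⟩
      rw [hK1 n, Set.mem_iUnion₂] at h
      obtain ⟨k, hk, h⟩ := h
      rw [Set.mem_iUnion₂]
      exact ⟨k, hk, h, h'⟩
    calc volume (T n ∩ E) ≤ volume (⋃ k ∈ K n, (arc n k ∩ E)) := measure_mono h2
      _ ≤ ∑ k ∈ K n, volume (arc n k ∩ E) := measure_biUnion_finset_le _ _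
      _ ≤ ∑ k ∈ K n, δ * volume (arc n k) := by
          refine Finset.sum_le_sum fun k hk => ?_
          obtain ⟨θ, hθ, hk'⟩ := hK2 n k hk
          rw [hTm] at hθ
          rw [← hk']
          exact hE n θ hθ.1 hθ.2.1 hθ.2.2.1 hθ.2.2.2
      _ = δ * volume (T n) := by rw [h1, Finset.mul_sum]
  rw [hU, Set.iUnion_inter]
  calc volume (⋃ n, T n ∩ E) ≤ ∑' n, volume (T n ∩ E) := measure_iUnion_le _
    _ ≤ ∑' n, δ * volume (T n) := ENNReal.tsum_le_tsum hstep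
    _ = δ * ∑' n, volume (T n) := ENNReal.tsum_mul_left
    _ = _ := by rw [measure_iUnion hdisj hTmeas]

/-! ### Blocks -/

theorem arc_real (n i : ℕ) : volume.real (arc n i) = 2 * Real.pi / 2 ^ n := by
  rw [Measure.real, arc_vol, ENNReal.toReal_ofReal (by positivity)]

/-- success within `s` blocks -/
def S (X : ℕ → ℕ → ℝ) (K r : ℝ) (s j i : ℕ) : Set ℝ :=
  {θ | θ ∈ arc j i ∧ ((∀ n, j ≤ n → VV X n θ - VV X j θ < s * K) ∨
    ∃ n, j ≤ n ∧ VV X n θ - VV X j θ ≤ s * K ∧ s * r ≤ X n (idx n θ) - X j i)}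

/-- the set of `S_BLK` -/
def Gs (X : ℕ → ℕ → ℝ) (L r : ℝ) (j i : ℕ) : Set ℝ :=
  {θ : ℝ | θ ∈ arc j i ∧
      ((∀ n : ℕ, j ≤ n → VV X n θ - VV X j θ < L) ∨
        ∃ n : ℕ, j ≤ n ∧ L ≤ VV X n θ - VV X j θ ∧
          (∀ m : ℕ, j ≤ m → m < n → VV X m θ - VV X j θ < L) ∧
          r ≤ X n (idx n θ) - X j i)}

theorem Gs_meas (X : ℕ → ℕ → ℝ) (L r : ℝ) (j i : ℕ) : MeasurableSet (Gs X L r j i) := by
  have h1 : ∀ n, MeasurableSet {θ : ℝ | VV X n θ - VV X j θ < L} := fun n =>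
    measurableSet_lt ((VV_meas X n).sub (VV_meas X j)) measurable_const
  have h2 : ∀ n, MeasurableSet {θ : ℝ | L ≤ VV X n θ - VV X j θ} := fun n =>
    measurableSet_le measurable_const ((VV_meas X n).sub (VV_meas X j))
  have h3 : ∀ n, MeasurableSet {θ : ℝ | r ≤ X n (idx n θ) - X j i} := fun n =>
    measurableSet_le measurable_const ((X_meas X n).sub measurable_const)
  unfold Gs
  refine (arc_meas j i).inter (MeasurableSet.union ?_ ?_)
  · have : {θ : ℝ | ∀ n : ℕ, j ≤ n → VV X n θ - VV X j θ < L} =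
        ⋂ n, ⋂ (_ : j ≤ n), {θ : ℝ | VV X n θ - VV X j θ < L} := by
      ext θ
      simp only [Set.mem_ofPred_eq, Set.mem_iInter]
    change MeasurableSet {θ : ℝ | ∀ n : ℕ, j ≤ n → VV X n θ - VV X j θ < L}
    rw [this]
    exact MeasurableSet.iInter fun n => MeasurableSet.iInter fun _ => h1 n
  · have : {θ : ℝ | ∃ n : ℕ, j ≤ n ∧ L ≤ VV X n θ - VV X j θ ∧
          (∀ m : ℕ, j ≤ m → m < n → VV X m θ - VV X j θ < L) ∧
          r ≤ X n (idx n θ) - X j i} =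
        ⋃ n, ⋃ (_ : j ≤ n), ({θ : ℝ | L ≤ VV X n θ - VV X j θ} ∩
          ((⋂ m, ⋂ (_ : j ≤ m), ⋂ (_ : m < n), {θ : ℝ | VV X m θ - VV X j θ < L}) ∩
          {θ : ℝ | r ≤ X n (idx n θ) - X j i})) := by
      ext θ
      simp only [Set.mem_ofPred_eq, Set.mem_iUnion, Set.mem_inter_iff, Set.mem_iInter, exists_prop]
    change MeasurableSet {θ : ℝ | ∃ n : ℕ, j ≤ n ∧ L ≤ VV X n θ - VV X j θ ∧
          (∀ m : ℕ, j ≤ m → m < n → VV X m θ - VV X j θ < L) ∧
          r ≤ X n (idx n θ) - X j i}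
    rw [this]
    refine MeasurableSet.iUnion fun n => MeasurableSet.iUnion fun _ => (h2 n).inter
      (MeasurableSet.inter ?_ (h3 n))
    exact MeasurableSet.iInter fun m => MeasurableSet.iInter fun _ => MeasurableSet.iInter fun _ => h1 m

theorem chain {B L r p : ℝ} {X : ℕ → ℕ → ℝ} (hX : DM B X) (hL : 0 < L) (hp0 : 0 ≤ p) (hp1 : p ≤ 1)
    (hB : ∀ j i : ℕ, i < 2 ^ j → ENNReal.ofReal (p * (2 * Real.pi / 2 ^ j)) ≤
      volume (Gs X L r j i)) (s : ℕ) : ∀ j i : ℕ, i < 2 ^ j →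
    volume (arc j i ∩ (S X (L + B ^ 2) r s j i)ᶜ) ≤ ENNReal.ofReal (1 - p ^ s) * volume (arc j i) := by
  induction s with
  | zero =>
    intro j i hi
    have h1 : arc j i ∩ (S X (L + B ^ 2) r 0 j i)ᶜ = ∅ := by
      rw [← Set.disjoint_iff_inter_eq_empty, Set.disjoint_compl_right_iff_subset]
      intro θ hθ
      refine ⟨hθ, Or.inr ⟨j, le_rfl, ?_, ?_⟩⟩
      · simp
      · rw [idx_eq hθ]
        simp
    rw [h1]
    simp
  | succ s ih =>
    intro j i hi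
    obtain ⟨P, hP⟩ : ∃ P : ℕ → ℝ → Prop, P = fun n θ => L ≤ VV X n θ - VV X j θ ∧
          (∀ m : ℕ, j ≤ m → m < n → VV X m θ - VV X j θ < L) ∧
          r ≤ X n (idx n θ) - X j i := ⟨_, rfl⟩
    obtain ⟨R, hR⟩ : ∃ R : Set ℝ, R = {θ : ℝ | θ ∈ arc j i ∧ ∃ n, j ≤ n ∧ P n θ} := ⟨_, rfl⟩
    have hB2 : 0 ≤ B ^ 2 := sq_nonneg B
    have hs0 : (0 : ℝ) ≤ s := by positivity
    have hps : 0 ≤ 1 - p ^ s := by
      have := pow_le_one₀ hp0 hp1 (n := s)
      linarith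
    have hRG : R ⊆ Gs X L r j i := by
      rw [hR, hP]
      rintro θ ⟨h1, n, h2, h3⟩
      exact ⟨h1, Or.inr ⟨n, h2, h3⟩⟩
    have hcov : volume (R ∩ (S X (L + B ^ 2) r (s + 1) j i)ᶜ) ≤
        ENNReal.ofReal (1 - p ^ s) * volume R := by
      rw [hR]
      refine cover hi P ?_ _ _ ?_
      · intro n θ θ' hn hθ hθ' hidx h
        rw [hP] at h ⊢
        obtain ⟨h1, h2, h3⟩ := h
        refine ⟨?_, fun m hm1 hm2 => ?_, ?_⟩
        · rw [← VV_det X le_rfl hidx, ← VV_det X hn hidx]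
          exact h1
        · rw [← VV_det X hm2.le hidx, ← VV_det X hn hidx]
          exact h2 m hm1 hm2
        · rw [← hidx]
          exact h3
      · intro n θ hn hθ h _
        have hθ0 := arc_sub hi hθ
        rw [hP] at h
        obtain ⟨h1, h2, h3⟩ := h
        refine le_trans (measure_mono ?_) (ih n (idx n θ) (idx_lt hθ0))
        refine Set.inter_subset_inter_right _ (Set.compl_subset_compl.2 ?_)
        rintro θ' ⟨g1, g2⟩
        have g0 := arc_sub (idx_lt hθ0) g1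
        have gi : idx n θ' = idx n θ := idx_eq g1
        have gj : θ' ∈ arc j i := by
          have h4 := mem_arc (n := j) g0
          rw [idx_det hn gi, idx_eq hθ] at h4
          exact h4
        have e1 : VV X n θ' = VV X n θ := VV_det X le_rfl gi
        have e2 : VV X j θ' = VV X j θ := VV_det X hn gi
        -- the overshoot
        have e3 : VV X n θ' - VV X j θ' ≤ L + B ^ 2 := by
          have h5 : j < n := by
            by_contra hcon
            have : n = j := by omega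
            rw [this, sub_self] at h1
            linarith
          obtain ⟨n', rfl⟩ : ∃ n', n = n' + 1 := ⟨n - 1, by omega⟩
          have h6 := h2 n' (by omega) (by omega)
          have h7 := VV_step hX n' hθ0
          rw [e1, e2]
          linarith
        refine ⟨gj, ?_⟩
        push_cast
        rcases g2 with g2 | ⟨m, hm1, hm2, hm3⟩
        · left
          intro m hm
          rcases le_total n m with h5 | h5
          · have h6 := g2 m h5
            linarith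
          · have h6 := VV_mono X θ' h5
            have h7 := g2 n le_rfl
            rw [sub_self] at h7
            simp only at h6
            linarith
        · right
          refine ⟨m, by omega, by linarith, ?_⟩
          have h5 : r ≤ X n (idx n θ) - X j i := h3
          linarith
    have hDS : Gs X L r j i ∩ (S X (L + B ^ 2) r (s + 1) j i)ᶜ ⊆
        R ∩ (S X (L + B ^ 2) r (s + 1) j i)ᶜ := by
      rintro θ ⟨⟨h1, h2⟩, h3⟩
      refine ⟨?_, h3⟩
      rcases h2 with h2 | ⟨n, hn⟩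
      · exfalso
        apply h3
        refine ⟨h1, Or.inl fun n hn => ?_⟩
        have h4 := h2 n hn
        push_cast
        nlinarith
      · rw [hR, hP]
        exact ⟨h1, n, hn⟩
    have hsub : arc j i ∩ (S X (L + B ^ 2) r (s + 1) j i)ᶜ ⊆ (arc j i \ Gs X L r j i) ∪
        (Gs X L r j i ∩ (S X (L + B ^ 2) r (s + 1) j i)ᶜ) := by
      rintro θ ⟨h1, h2⟩
      by_cases h3 : θ ∈ Gs X L r j i
      · exact Or.inr ⟨h3, h2⟩
      · exact Or.inl ⟨h1, h3⟩
    have hGarc : Gs X L r j i ⊆ arc j i := fun θ h => h.1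
    have hfin : volume (arc j i) ≠ ⊤ := by
      rw [arc_vol]
      exact ENNReal.ofReal_ne_top
    have hGfin : volume (Gs X L r j i) ≠ ⊤ := ne_top_of_le_ne_top hfin (measure_mono hGarc)
    have hb := hB j i hi
    obtain ⟨a, ha⟩ : ∃ a : ℝ, a = 2 * Real.pi / 2 ^ j := ⟨_, rfl⟩
    have ha0 : 0 ≤ a := by rw [ha]; positivity
    obtain ⟨γ, hγ⟩ : ∃ γ : ℝ, γ = volume.real (Gs X L r j i) := ⟨_, rfl⟩
    have hγ0 : 0 ≤ γ := by rw [hγ]; exact measureReal_nonneg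
    have hγe : volume (Gs X L r j i) = ENNReal.ofReal γ := by
      rw [hγ, Measure.real, ENNReal.ofReal_toReal hGfin]
    have hpγ : p * a ≤ γ := by
      rw [hγe, ← ha] at hb
      exact (ENNReal.ofReal_le_ofReal_iff hγ0).1 hb
    calc volume (arc j i ∩ (S X (L + B ^ 2) r (s + 1) j i)ᶜ)
        ≤ volume (arc j i \ Gs X L r j i) + volume (Gs X L r j i ∩ (S X (L + B ^ 2) r (s + 1) j i)ᶜ) :=
          (measure_mono hsub).trans (measure_union_le _ _)
      _ ≤ (volume (arc j i) - volume (Gs X L r j i)) + ENNReal.ofReal (1 - p ^ s) * volume R := by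
          refine add_le_add ?_ ((measure_mono hDS).trans hcov)
          rw [measure_sdiff hGarc (Gs_meas X L r j i).nullMeasurableSet hGfin]
      _ ≤ (ENNReal.ofReal a - ENNReal.ofReal γ) + ENNReal.ofReal (1 - p ^ s) * ENNReal.ofReal γ := by
          refine add_le_add (le_of_eq ?_) (mul_le_mul_right ?_ _)
          · rw [hγe, arc_vol, ha]
          · rw [← hγe]
            exact measure_mono hRG
      _ = ENNReal.ofReal ((a - γ) + (1 - p ^ s) * γ) := by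
          have hγa : γ ≤ a := by
            have h1 := measure_mono (μ := volume) hGarc
            rw [hγe, arc_vol, ← ha] at h1
            exact (ENNReal.ofReal_le_ofReal_iff ha0).1 h1
          rw [← ENNReal.ofReal_sub _ hγ0, ← ENNReal.ofReal_mul hps,
            ← ENNReal.ofReal_add (by linarith) (by positivity)]
      _ ≤ ENNReal.ofReal ((1 - p ^ (s + 1)) * a) := by
          apply ENNReal.ofReal_le_ofReal
          have h1 : 0 ≤ p ^ s := by positivity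
          have h2 := mul_le_mul_of_nonneg_left hpγ h1
          rw [pow_succ]
          nlinarith
      _ = _ := by
          rw [ENNReal.ofReal_mul (by have := pow_le_one₀ hp0 hp1 (n := s + 1); linarith), arc_vol, ha]

/-! ### Windows -/

/-- first time at which the clock reaches `v` -/
def FT (X : ℕ → ℕ → ℝ) (v : ℝ) (n : ℕ) (θ : ℝ) : Prop :=
  v ≤ VV X n θ ∧ ∀ m, m < n → VV X m θ < v

/-- a rise by `ρ` between the times of `v` and `v'`, seen until the time `n` -/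
def Sc (X : ℕ → ℕ → ℝ) (v v' ρ : ℝ) (n : ℕ) (θ : ℝ) : Prop :=
  ∃ a m, a ≤ m ∧ m ≤ n ∧ FT X v a θ ∧ VV X m θ < v' ∧ ρ ≤ X m (idx m θ) - X a (idx a θ)

/-- alive at the time `n` -/
def Al (X : ℕ → ℕ → ℝ) (q : ℝ) (ρ : ℕ → ℝ) (k0 k n : ℕ) (θ : ℝ) : Prop :=
  FT X (q ^ k) n θ ∧ ∀ k', k0 ≤ k' → k' < k → ¬ Sc X (q ^ k') (q ^ (k' + 1)) (ρ k') n θ

/-- alive -/
def As (X : ℕ → ℕ → ℝ) (q : ℝ) (ρ : ℕ → ℝ) (k0 k : ℕ) : Set ℝ :=
  {θ | θ ∈ arc 0 0 ∧ ∃ n, 0 ≤ n ∧ Al X q ρ k0 k n θ}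

theorem FT_det {X : ℕ → ℕ → ℝ} {v : ℝ} {m n : ℕ} (hmn : m ≤ n) {θ θ' : ℝ} (h : idx n θ = idx n θ')
    (H : FT X v m θ) : FT X v m θ' := by
  refine ⟨?_, fun a ha => ?_⟩
  · rw [← VV_det X hmn h]
    exact H.1
  · rw [← VV_det X (by omega : a ≤ n) h]
    exact H.2 a ha

theorem Sc_det {X : ℕ → ℕ → ℝ} {v v' ρ : ℝ} {n : ℕ} {θ θ' : ℝ} (h : idx n θ = idx n θ')
    (H : Sc X v v' ρ n θ) : Sc X v v' ρ n θ' := by
  obtain ⟨a, m, h1, h2, h3, h4, h5⟩ := H
  refine ⟨a, m, h1, h2, FT_det (by omega) h h3, ?_, ?_⟩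
  · rw [← VV_det X h2 h]
    exact h4
  · rw [← idx_det h2 h, ← idx_det (by omega : a ≤ n) h]
    exact h5

theorem Al_det {X : ℕ → ℕ → ℝ} {q : ℝ} {ρ : ℕ → ℝ} {k0 k n : ℕ} {θ θ' : ℝ} (h : idx n θ = idx n θ')
    (H : Al X q ρ k0 k n θ) : Al X q ρ k0 k n θ' :=
  ⟨FT_det le_rfl h H.1, fun k' h1 h2 h3 => H.2 k' h1 h2 (Sc_det h.symm h3)⟩

theorem exists_FT {X : ℕ → ℕ → ℝ} {v : ℝ} {n : ℕ} {θ : ℝ} (h : v ≤ VV X n θ) :
    ∃ m, m ≤ n ∧ FT X v m θ := by
  classical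
  have h1 : ∃ m, v ≤ VV X m θ := ⟨n, h⟩
  refine ⟨Nat.find h1, Nat.find_min' h1 h, Nat.find_spec h1, fun m hm => ?_⟩
  exact not_le.1 (Nat.find_min h1 hm)

theorem window {B L r p q : ℝ} {X : ℕ → ℕ → ℝ} (hX : DM B X) (hL : 0 < L) (hp0 : 0 ≤ p) (hp1 : p ≤ 1)
    (hB : ∀ j i : ℕ, i < 2 ^ j → ENNReal.ofReal (p * (2 * Real.pi / 2 ^ j)) ≤
      volume (Gs X L r j i)) (ρ : ℕ → ℝ) (s k0 k : ℕ) (hk : k0 ≤ k) (hq : 1 ≤ q)
    (h1 : q ^ k + B ^ 2 + s * (L + B ^ 2) ≤ q ^ (k + 1)) (h2 : ρ k ≤ s * r) :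
    volume (As X q ρ k0 (k + 1)) ≤ ENNReal.ofReal (1 - p ^ s) * volume (As X q ρ k0 k) := by
  have hqk : 0 < q ^ k := by positivity
  have hqk1 : q ^ k ≤ q ^ (k + 1) := pow_le_pow_right₀ hq (Nat.le_succ k)
  have hsub : As X q ρ k0 (k + 1) ⊆ As X q ρ k0 k := by
    rintro θ ⟨g1, n, -, g2, g3⟩
    obtain ⟨m, hm1, hm2⟩ := exists_FT (hqk1.trans g2.1)
    refine ⟨g1, m, Nat.zero_le _, hm2, fun k' hk1 hk2 hk3 => g3 k' hk1 (by omega) ?_⟩
    obtain ⟨a, b, e1, e2, e3⟩ := hk3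
    exact ⟨a, b, e1, e2.trans hm1, e3⟩
  have hcov : volume (As X q ρ k0 k ∩ As X q ρ k0 (k + 1)) ≤
      ENNReal.ofReal (1 - p ^ s) * volume (As X q ρ k0 k) := by
    refine cover (by norm_num : 0 < 2 ^ 0) (Al X q ρ k0 k) (fun n θ θ' _ _ _ h H => Al_det h H) _ _ ?_
    intro n θ _ hθ hA _
    have hθ0 := arc_sub (by norm_num) hθ
    refine le_trans (measure_mono ?_) (chain hX hL hp0 hp1 hB s n (idx n θ) (idx_lt hθ0))
    rintro θ' ⟨g1, g2⟩
    refine ⟨g1, fun g3 => ?_⟩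
    have gi : idx n θ' = idx n θ := idx_eq g1
    have gθ := arc_sub (idx_lt hθ0) g1
    obtain ⟨-, n1, -, g4, g5⟩ := g2
    have hA' : Al X q ρ k0 k n θ' := Al_det gi.symm hA
    -- the clock at the time `n`
    have hVn : VV X n θ' < q ^ k + B ^ 2 := by
      have hn : n ≠ 0 := by
        rintro rfl
        have := hA'.1.1
        rw [VV_zero] at this
        linarith
      obtain ⟨n', rfl⟩ : ∃ n', n = n' + 1 := ⟨n - 1, by omega⟩
      have h3 := VV_step hX n' gθ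
      have h4 := hA'.1.2 n' (by omega)
      linarith
    have hnn1 : n ≤ n1 := by
      by_contra hcon
      have h3 := hA'.1.2 n1 (by omega)
      have h4 := g4.1
      linarith
    rcases g3.2 with g6 | ⟨m, g6, g7, g8⟩
    · have h3 := g6 n1 hnn1
      have h4 := g4.1
      linarith
    · have h3 : VV X m θ' < q ^ (k + 1) := by linarith
      have h4 : m ≤ n1 := by
        by_contra hcon
        have h5 := VV_mono X θ' (by omega : n1 ≤ m)
        simp only at h5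
        have h6 := g4.1
        linarith
      apply g5 k hk (Nat.lt_succ_self k)
      refine ⟨n, m, g6, h4, hA'.1, h3, ?_⟩
      rw [gi]
      linarith
  rwa [Set.inter_eq_self_of_subset_right hsub] at hcov

theorem small {X : ℕ → ℕ → ℝ} {q : ℝ} {ρ : ℕ → ℝ} {k0 : ℕ} (hk0 : 1 ≤ k0)
    (h : ∀ k, k0 ≤ k → volume (As X q ρ k0 (k + 1)) ≤
      ENNReal.ofReal (1 - 1 / (k + 1)) * volume (As X q ρ k0 k)) :
    volume {θ : ℝ | ∀ k, k0 ≤ k → θ ∈ As X q ρ k0 k} = 0 := by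
  have h1 : ∀ k, k0 ≤ k → volume (As X q ρ k0 k) ≤ ENNReal.ofReal (2 * Real.pi * k0 / k) := by
    intro k hk
    induction k, hk using Nat.le_induction with
    | base =>
      have hk0' : (k0 : ℝ) ≠ 0 := by
        have : k0 ≠ 0 := by omega
        exact_mod_cast this
      rw [mul_div_assoc, div_self hk0', mul_one]
      refine (measure_mono (fun θ hθ => hθ.1 : As X q ρ k0 k0 ⊆ arc 0 0)).trans ?_
      rw [arc_vol]
      simp
    | succ k hk ih =>
      refine (h k hk).trans ?_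
      have hk1 : (0 : ℝ) < k := by exact_mod_cast (by omega : 0 < k)
      have h2 : (0 : ℝ) ≤ 1 - 1 / (k + 1) := by
        rw [sub_nonneg, div_le_one (by positivity)]
        linarith
      calc _ ≤ ENNReal.ofReal (1 - 1 / (k + 1)) * ENNReal.ofReal (2 * Real.pi * k0 / k) :=
            mul_le_mul_right ih _
        _ = _ := by
            rw [← ENNReal.ofReal_mul h2]
            congr 1
            push_cast
            field_simp
            ring
  have h2 : Tendsto (fun k : ℕ => ENNReal.ofReal (2 * Real.pi * k0 / k)) atTop (𝓝 0) := by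
    rw [← ENNReal.ofReal_zero]
    apply ENNReal.tendsto_ofReal
    exact tendsto_const_div_atTop_nhds_zero_nat _
  refine le_antisymm (ge_of_tendsto h2 ?_) zero_le
  filter_upwards [eventually_ge_atTop k0] with k hk
  have hsub : {θ : ℝ | ∀ k, k0 ≤ k → θ ∈ As X q ρ k0 k} ⊆ As X q ρ k0 k := fun θ hθ => hθ k hk
  exact (measure_mono hsub).trans (h1 k hk)

/-! ### The theorem -/

/-- the parameters of the window `k` -/
theorem params {q lp c1 c2 B : ℝ} (hq : 4 ≤ q) (hlp : 0 < lp) (hc1 : 0 < c1) (hc2 : 0 ≤ c2)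
    (hc : c2 ^ 2 = c1 ^ 2 / (8 * lp)) : ∃ K0 : ℕ, 1 ≤ K0 ∧ ∀ k, K0 ≤ k → ∃ (s : ℕ) (L : ℝ),
      0 < L ∧ B ^ 2 ≤ L ∧ Real.exp (-(lp * s)) ≥ 1 / (k + 1) ∧
      q ^ k + B ^ 2 + s * (L + B ^ 2) ≤ q ^ (k + 1) ∧
      c2 * √(q ^ (k + 1) * Real.log (k + 1)) ≤ s * (c1 * √L) ∧
      B ^ 2 ≤ q ^ k ∧ Real.log ((k + 1) * Real.log q) ≤ 2 * Real.log (k + 1) := by
  have e1 : ∀ᶠ k : ℕ in atTop, 2 * lp ≤ Real.log (k + 1) := by
    have h1 : Tendsto (fun k : ℕ => Real.log ((k : ℝ) + 1)) atTop atTop :=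
      Real.tendsto_log_atTop.comp (tendsto_atTop_add_const_right _ _ tendsto_natCast_atTop_atTop)
    exact h1.eventually_ge_atTop _
  have e2 : ∀ᶠ k : ℕ in atTop, (4 * B ^ 2 / lp) * (k + 1) ≤ q ^ (k + 1) := by
    have h1 := tendsto_pow_const_div_const_pow_of_one_lt 1 (r := q) (by linarith)
    have h2 := (tendsto_add_atTop_iff_nat (f := fun n : ℕ => (n : ℝ) ^ 1 / q ^ n) 1).2 h1
    have h3 : 0 < 1 / (4 * B ^ 2 / lp + 1) := by positivity
    filter_upwards [h2.eventually (gt_mem_nhds h3)] with k hk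
    have h4 : (0 : ℝ) < q ^ (k + 1) := by positivity
    have h5 : 0 < 4 * B ^ 2 / lp + 1 := by positivity
    rw [pow_one, div_lt_div_iff₀ h4 h5] at hk
    push_cast at hk
    have h6 : (0 : ℝ) ≤ k := by positivity
    nlinarith
  have e3 : ∀ᶠ k : ℕ in atTop, B ^ 2 ≤ q ^ k :=
    (tendsto_pow_atTop_atTop_of_one_lt (by linarith : 1 < q)).eventually_ge_atTop _
  have e4 : ∀ᶠ k : ℕ in atTop, Real.log q ≤ k + 1 := by
    have h1 : Tendsto (fun k : ℕ => (k : ℝ) + 1) atTop atTop :=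
      tendsto_atTop_add_const_right _ _ tendsto_natCast_atTop_atTop
    exact h1.eventually_ge_atTop _
  obtain ⟨K0, hK0⟩ := eventually_atTop.1 (e1.and (e2.and (e3.and (e4.and (eventually_ge_atTop 1)))))
  refine ⟨K0, (hK0 K0 le_rfl).2.2.2.2, fun k hk => ?_⟩
  obtain ⟨h1, h2, h3, h4, h5⟩ := hK0 k hk
  have hk1 : (1 : ℝ) ≤ k := by exact_mod_cast h5
  have hkp : (0 : ℝ) < (k : ℝ) + 1 := by linarith
  obtain ⟨Λ, hΛ⟩ : ∃ Λ : ℝ, Λ = Real.log (k + 1) := ⟨_, rfl⟩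
  rw [← hΛ] at h1 ⊢
  have hΛ0 : 0 < Λ := by linarith
  have hΛk : Λ ≤ k + 1 := by
    rw [hΛ]
    have := Real.log_le_sub_one_of_pos hkp
    linarith
  obtain ⟨s, hs⟩ : ∃ s : ℕ, s = ⌊Λ / lp⌋₊ := ⟨_, rfl⟩
  have hs1 : (s : ℝ) ≤ Λ / lp := by
    rw [hs]
    exact Nat.floor_le (by positivity)
  have hs2 : Λ / lp - 1 ≤ s := by
    rw [hs]
    have := Nat.lt_floor_add_one (Λ / lp)
    linarith
  have hs3 : 2 ≤ Λ / lp := by
    rw [le_div_iff₀ hlp]
    exact h1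
  have hs4 : (1 : ℝ) ≤ s := by linarith
  have hs5 : Λ / (2 * lp) ≤ s := by
    have : Λ / (2 * lp) = Λ / lp / 2 := by field_simp
    rw [this]
    linarith
  have hs0 : (0 : ℝ) < s := by linarith
  have hQ : 0 < q ^ (k + 1) := by positivity
  have hsB : 4 * s * B ^ 2 ≤ q ^ (k + 1) := by
    refine le_trans ?_ h2
    have h6 : (s : ℝ) ≤ (k + 1) / lp := hs1.trans (by gcongr)
    have h7 : 0 ≤ B ^ 2 := sq_nonneg B
    calc 4 * s * B ^ 2 ≤ 4 * ((k + 1) / lp) * B ^ 2 := by gcongr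
      _ = _ := by ring
  refine ⟨s, q ^ (k + 1) / (4 * s), by positivity, ?_, ?_, ?_, ?_, h3, ?_⟩
  · rw [le_div_iff₀ (by positivity)]
    linarith
  · have h6 : 1 / ((k : ℝ) + 1) = Real.exp (-Λ) := by
      rw [Real.exp_neg, hΛ, Real.exp_log hkp, one_div]
    rw [ge_iff_le, h6]
    apply Real.exp_le_exp.2
    rw [le_div_iff₀ hlp] at hs1
    linarith
  · have h6 : (s : ℝ) * (q ^ (k + 1) / (4 * s) + B ^ 2) = q ^ (k + 1) / 4 + s * B ^ 2 := by
      field_simp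
    rw [h6]
    have h7 : q ^ (k + 1) = q * q ^ k := by ring
    have h8 : 0 < q ^ k := by positivity
    have h9 : B ^ 2 ≤ s * B ^ 2 := by
      have := sq_nonneg B
      nlinarith
    have h10 : 4 * q ^ k ≤ q ^ (k + 1) := by
      rw [h7]
      nlinarith
    linarith
  · have h6 : 0 ≤ (s : ℝ) * (c1 * √(q ^ (k + 1) / (4 * s))) := by positivity
    refine (pow_le_pow_iff_left₀ (by positivity) h6 two_ne_zero).1 ?_
    rw [mul_pow, mul_pow, mul_pow, Real.sq_sqrt (by positivity), Real.sq_sqrt (by positivity), hc]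
    have h7 : (s : ℝ) ^ 2 * (c1 ^ 2 * (q ^ (k + 1) / (4 * s))) = c1 ^ 2 * q ^ (k + 1) * s / 4 := by
      field_simp
    have h8 : c1 ^ 2 / (8 * lp) * (q ^ (k + 1) * Λ) = c1 ^ 2 * q ^ (k + 1) * (Λ / (2 * lp)) / 4 := by
      field_simp
      ring
    rw [h7, h8]
    gcongr
  · have hlq : 0 < Real.log q := Real.log_pos (by linarith)
    rw [Real.log_mul hkp.ne' hlq.ne', ← hΛ]
    have h6 : Real.log (Real.log q) ≤ Λ := by
      rw [hΛ]
      exact Real.log_le_log hlq h4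
    linarith

theorem sqrt4 (y : ℝ) : √(2 ^ 2 * y) = 2 * √y := by
  rw [Real.sqrt_mul (by norm_num), Real.sqrt_sq (by norm_num)]

theorem t (hU : S_CLU) (hB : S_BLK) : S_LLIL := by
  obtain ⟨C, hC, hU⟩ := hU
  obtain ⟨c1, p0, hc1, hp0, hB⟩ := hB
  obtain ⟨p, hp⟩ : ∃ p : ℝ, p = min p0 (1 / 2) := ⟨_, rfl⟩
  have hp1 : 0 < p := by rw [hp]; exact lt_min hp0 (by norm_num)
  have hp2 : p ≤ 1 / 2 := by rw [hp]; exact min_le_right _ _
  have hp3 : p ≤ p0 := by rw [hp]; exact min_le_left _ _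
  obtain ⟨lp, hlp⟩ : ∃ lp : ℝ, lp = -Real.log p := ⟨_, rfl⟩
  have hlp0 : 0 < lp := by
    rw [hlp]
    have := Real.log_neg hp1 (by linarith)
    linarith
  have hplp : ∀ s : ℕ, p ^ s = Real.exp (-(lp * s)) := by
    intro s
    rw [hlp, ← Real.rpow_natCast, Real.rpow_def_of_pos hp1]
    congr 1
    ring
  obtain ⟨c2, hc2⟩ : ∃ c2 : ℝ, c2 = √(c1 ^ 2 / (8 * lp)) := ⟨_, rfl⟩
  have hc20 : 0 < c2 := by rw [hc2]; exact Real.sqrt_pos.2 (by positivity)
  have hc2s : c2 ^ 2 = c1 ^ 2 / (8 * lp) := by rw [hc2, Real.sq_sqrt (by positivity)]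
  obtain ⟨q, hq⟩ : ∃ q : ℝ, q = max 4 ((4 * C / c2) ^ 2) := ⟨_, rfl⟩
  have hq4 : 4 ≤ q := by rw [hq]; exact le_max_left _ _
  have hq0 : 0 < q := by linarith
  have hqC : 4 * C ≤ c2 * √q := by
    have h1 : 4 * C / c2 ≤ √q := by
      apply Real.le_sqrt_of_sq_le
      rw [hq]
      exact le_max_right _ _
    rw [div_le_iff₀ hc20] at h1
    linarith
  refine ⟨c2 / 4, by positivity, fun B X hX => ?_⟩
  obtain ⟨K0, hK01, hK0⟩ := params (B := B) hq4 hlp0 hc1 hc20.le hc2s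
  obtain ⟨ρ, hρ⟩ : ∃ ρ : ℕ → ℝ, ρ = fun k : ℕ => c2 * √(q ^ (k + 1) * Real.log (k + 1)) := ⟨_, rfl⟩
  -- the exceptional sets
  have hnull : ∀ k0, K0 ≤ k0 → ∀ᵐ θ : ℝ ∂(volume.restrict (Ico 0 (2 * Real.pi))),
      ¬ ∀ k, k0 ≤ k → θ ∈ As X q ρ k0 k := by
    intro k0 hk0
    apply ae_restrict_of_ae
    have h1 := small (X := X) (q := q) (ρ := ρ) (k0 := k0) (by omega) (by
      intro k hk
      obtain ⟨s, L, g1, g2, g3, g4, g5, -, -⟩ := hK0 k (by omega)
      have hb : ∀ j i : ℕ, i < 2 ^ j → ENNReal.ofReal (p * (2 * Real.pi / 2 ^ j)) ≤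
          volume (Gs X L (c1 * √L) j i) := by
        intro j i hi
        refine le_trans ?_ (hB B X hX L g1 g2 j i hi)
        apply ENNReal.ofReal_le_ofReal
        gcongr
      have h2 := window hX g1 hp1.le (by linarith) hb ρ s k0 k hk (by linarith) g4
        (by rw [hρ]; exact g5)
      refine h2.trans (mul_le_mul_left ?_ _)
      apply ENNReal.ofReal_le_ofReal
      rw [hplp s]
      linarith)
    rw [← compl_mem_ae_iff] at h1
    exact h1
  have hnull' : ∀ᵐ θ : ℝ ∂(volume.restrict (Ico 0 (2 * Real.pi))), ∀ k0, K0 ≤ k0 →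
      ¬ ∀ k, k0 ≤ k → θ ∈ As X q ρ k0 k := by
    rw [ae_all_iff]
    intro k0
    by_cases h : K0 ≤ k0
    · filter_upwards [hnull k0 h] with θ hθ _
      exact hθ
    · exact Eventually.of_forall fun θ h' => absurd h' h
  filter_upwards [hU B X hX, hnull', ae_restrict_mem measurableSet_Ico] with θ h1 h2 h3 hV
  by_contra hcon
  rw [not_frequently] at hcon
  obtain ⟨n0, hn0⟩ := eventually_atTop.1 ((h1 hV).and hcon)
  -- the starting window
  obtain ⟨k0, hk0a, hk0b⟩ : ∃ k0, K0 ≤ k0 ∧ VV X n0 θ < q ^ k0 := by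
    have e1 : ∀ᶠ k : ℕ in atTop, VV X n0 θ < q ^ k :=
      (tendsto_pow_atTop_atTop_of_one_lt (by linarith : 1 < q)).eventually_gt_atTop _
    obtain ⟨k0, hk⟩ := (e1.and (eventually_ge_atTop K0)).exists
    exact ⟨k0, hk.2, hk.1⟩
  refine h2 k0 hk0a fun k hk => ?_
  obtain ⟨n, hn⟩ := (hV.eventually_ge_atTop (q ^ k)).exists
  obtain ⟨m, -, hm⟩ := exists_FT hn
  refine ⟨by rw [arc_zero]; exact h3, m, Nat.zero_le _, hm, ?_⟩
  rintro k' hk1 hk2 ⟨a, b, e1, e2, e3, e4, e5⟩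
  obtain ⟨s, L, -, -, -, -, -, g6, g7⟩ := hK0 k' (by omega)
  have hk'1 : (1 : ℝ) ≤ k' := by exact_mod_cast (by omega : 1 ≤ k')
  have hqk0 : q ^ k0 ≤ q ^ k' := pow_le_pow_right₀ (by linarith) hk1
  have hqk' : 0 < q ^ k' := by positivity
  have hq1 : q ^ (k' + 1) = q * q ^ k' := by ring
  have han : n0 ≤ a := by
    by_contra hcon2
    have h5 := VV_mono X θ (by omega : a ≤ n0)
    simp only at h5
    have h6 := e3.1
    linarith
  have hqk4 : 4 ≤ q ^ k' := by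
    calc (4 : ℝ) ≤ q := hq4
      _ = q ^ 1 := (pow_one q).symm
      _ ≤ q ^ k' := pow_le_pow_right₀ (by linarith) (by omega)
  obtain ⟨Λ, hΛ⟩ : ∃ Λ : ℝ, Λ = Real.log ((k' : ℝ) + 1) := ⟨_, rfl⟩
  have hΛ0 : 0 < Λ := by
    rw [hΛ]
    exact Real.log_pos (by linarith)
  rw [← hΛ] at g7
  -- iterated logarithms
  have hll : ∀ v : ℝ, q ^ k' ≤ v → v ≤ q ^ (k' + 1) → v * Real.log (Real.log v) ≤ v * (2 * Λ) := by
    intro v hv1 hv2
    have hv0 : 0 < v := by linarith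
    apply mul_le_mul_of_nonneg_left _ hv0.le
    refine le_trans ?_ g7
    have h5 : 0 < Real.log v := Real.log_pos (by linarith)
    apply Real.log_le_log h5
    calc Real.log v ≤ Real.log (q ^ (k' + 1)) := Real.log_le_log hv0 hv2
      _ = (k' + 1) * Real.log q := by
        rw [Real.log_pow]
        push_cast
        ring
  obtain ⟨D, hD⟩ : ∃ D : ℝ, D = √(q ^ k' * Λ) := ⟨_, rfl⟩
  have hD0 : 0 ≤ D := by rw [hD]; exact Real.sqrt_nonneg _
  have hsq : √(q ^ (k' + 1) * Λ) = √q * D := by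
    rw [hD, hq1, mul_assoc, Real.sqrt_mul hq0.le]
  have hVab : VV X a θ ≤ VV X b θ := VV_mono X θ e1
  -- at the end
  have hb1 := (hn0 b (by omega)).2
  rw [not_le] at hb1
  have hb2 : √(VV X b θ * Real.log (Real.log (VV X b θ))) ≤ 2 * (√q * D) := by
    have h5 := hll (VV X b θ) (e3.1.trans hVab) e4.le
    have h6 : √(VV X b θ * Real.log (Real.log (VV X b θ))) ≤ √(2 ^ 2 * (q ^ (k' + 1) * Λ)) := by
      apply Real.sqrt_le_sqrt
      refine h5.trans ?_
      have h7 := mul_le_mul_of_nonneg_right e4.le (by positivity : (0 : ℝ) ≤ 2 * Λ)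
      have h8 : 0 < q ^ (k' + 1) * Λ := by positivity
      linarith
    rw [sqrt4, hsq] at h6
    exact h6
  -- at the beginning
  have ha1 := (hn0 a han).1
  have ha2 : √(VV X a θ * Real.log (Real.log (VV X a θ))) ≤ 2 * D := by
    have h4 : VV X a θ ≤ 2 * q ^ k' := by
      rcases Nat.eq_zero_or_pos a with h5 | h5
      · rw [h5, VV_zero]
        positivity
      · obtain ⟨a', rfl⟩ : ∃ a', a = a' + 1 := ⟨a - 1, by omega⟩
        have h6 := VV_step hX a' h3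
        have h7 := e3.2 a' (by omega)
        linarith
    have h5 := hll (VV X a θ) e3.1 (h4.trans (by rw [hq1]; nlinarith))
    have h6 : √(VV X a θ * Real.log (Real.log (VV X a θ))) ≤ √(2 ^ 2 * (q ^ k' * Λ)) := by
      apply Real.sqrt_le_sqrt
      refine h5.trans ?_
      have h7 := mul_le_mul_of_nonneg_right h4 (by positivity : (0 : ℝ) ≤ 2 * Λ)
      linarith
    rw [sqrt4, ← hD] at h6
    exact h6
  have ha3 : -(C * (2 * D)) ≤ X a (idx a θ) := by
    have h5 := (abs_le.1 ha1).1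
    have h6 := mul_le_mul_of_nonneg_left ha2 hC.le
    linarith
  have hb3 : X b (idx b θ) < c2 / 4 * (2 * (√q * D)) :=
    lt_of_lt_of_le hb1 (mul_le_mul_of_nonneg_left hb2 (by positivity))
  have hρk : ρ k' = c2 * (√q * D) := by
    rw [hρ]
    simp only
    rw [← hΛ, hsq]
  rw [hρk] at e5
  have h9 := mul_le_mul_of_nonneg_right hqC hD0
  linarith

end Pool.Agent.N673.TW.Llil
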