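import Pool.Agent.N673.TW.Stm2

set_option autoImplicit false

/-!
# TW/LOW: lower law of the iterated logarithm for Bloch functions from non flatness (helper835)
-/

open Complex Filter Topology Metric Set MeasureTheory

namespace Pool.Agent.N673.TW.Low

/-! ### geometry of Bloch functions -/

theorem rj_nonneg (j : ℕ) : 0 ≤ rj j := by
  unfold rj
  have h1 : (1 : ℝ) ≤ 2 ^ j := one_le_pow₀ (by norm_num)
  have : 1 / (2 : ℝ) ^ j ≤ 1 := by rw [div_le_one (by positivity)]; exact h1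
  linarith

theorem rj_lt (j : ℕ) : rj j < 1 := by
  unfold rj
  have : 0 < 1 / (2 : ℝ) ^ j := by positivity
  linarith

theorem norm_pt {r : ℝ} (hr : 0 ≤ r) (θ : ℝ) : ‖pt r θ‖ = r := by
  unfold pt
  rw [norm_circleMap_zero, abs_of_nonneg hr]

theorem lip {H : ℂ → ℂ} (hB : Bl H) {r : ℝ} (hr : r < 1) {x y : ℂ} (hx : ‖x‖ ≤ r) (hy : ‖y‖ ≤ r) :
    ‖H y - H x‖ ≤ 6 / (1 - r) * ‖y - x‖ := by
  have h1 : 0 < 1 - r := by linarith
  have hsub : closedBall (0 : ℂ) r ⊆ ball 0 1 := closedBall_subset_ball hr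
  refine Convex.norm_image_sub_le_of_norm_deriv_le (s := closedBall (0 : ℂ) r)
    (fun z hz => hB.1.differentiableAt (isOpen_ball.mem_nhds (hsub hz))) ?_
    (convex_closedBall _ _) (by simpa using hx) (by simpa using hy)
  intro z hz
  rw [le_div_iff₀ h1]
  have h2 := hB.2 z (hsub hz)
  rw [mem_closedBall_zero_iff] at hz
  exact le_trans (mul_le_mul_of_nonneg_left (by linarith) (norm_nonneg _)) h2

theorem pt_sub (r θ a : ℝ) (hr : 0 ≤ r) : ‖pt r θ - pt r a‖ ≤ r * |θ - a| := by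
  have e : pt r θ - pt r a = r * exp (a * I) * (exp (I * ((θ - a : ℝ) : ℂ)) - 1) := by
    unfold pt circleMap
    have : exp (θ * I) = exp (a * I) * exp (I * ((θ - a : ℝ) : ℂ)) := by
      rw [← Complex.exp_add]
      congr 1
      push_cast
      ring
    rw [this]
    ring
  rw [e, norm_mul, norm_mul, Complex.norm_real, Real.norm_of_nonneg hr, norm_exp_ofReal_mul_I,
    mul_one]
  exact mul_le_mul_of_nonneg_left (Real.norm_exp_I_mul_ofReal_sub_one_le) hr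

theorem radial {H : ℂ → ℂ} (hB : Bl H) (j : ℕ) (θ : ℝ) :
    ‖H (pt (rj (j + 1)) θ) - H (pt (rj j) θ)‖ ≤ 6 := by
  have h0 := rj_nonneg j
  have h0' := rj_nonneg (j + 1)
  have hle : rj j ≤ rj (j + 1) := by
    unfold rj
    have : 1 / (2 : ℝ) ^ (j + 1) ≤ 1 / 2 ^ j :=
      one_div_le_one_div_of_le (by positivity) (pow_le_pow_right₀ (by norm_num) (by omega))
    linarith
  have h1 := lip hB (rj_lt (j + 1)) (x := pt (rj j) θ) (y := pt (rj (j + 1)) θ)
    (by rw [norm_pt h0]; exact hle) (by rw [norm_pt h0'])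
  refine h1.trans ?_
  have e : pt (rj (j + 1)) θ - pt (rj j) θ = ((rj (j + 1) - rj j : ℝ) : ℂ) * exp (θ * I) := by
    unfold pt circleMap
    push_cast
    ring
  rw [e, norm_mul, norm_exp_ofReal_mul_I, mul_one, Complex.norm_real,
    Real.norm_of_nonneg (by linarith)]
  unfold rj
  rw [pow_succ]
  have h2 : (0 : ℝ) < 2 ^ j := by positivity
  refine le_of_eq ?_
  field_simp
  ring

theorem angular {H : ℂ → ℂ} (hB : Bl H) (j : ℕ) {θ a : ℝ} (h : |θ - a| ≤ 2 * Real.pi / 2 ^ j) :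
    ‖H (pt (rj j) θ) - H (pt (rj j) a)‖ ≤ 48 := by
  have h0 := rj_nonneg j
  have h1 := lip hB (rj_lt j) (x := pt (rj j) a) (y := pt (rj j) θ)
    (by rw [norm_pt h0]) (by rw [norm_pt h0])
  have h2 := pt_sub (rj j) θ a h0
  have h3 : rj j * |θ - a| ≤ 2 * Real.pi / 2 ^ j := by
    have := mul_le_mul_of_nonneg_right (rj_lt j).le (abs_nonneg (θ - a))
    linarith
  have h4 : 0 < 1 - rj j := by linarith [rj_lt j]
  have h5 : 6 / (1 - rj j) * ‖pt (rj j) θ - pt (rj j) a‖ ≤ 6 / (1 - rj j) * (2 * Real.pi / 2 ^ j) :=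
    mul_le_mul_of_nonneg_left (h2.trans h3) (by positivity)
  refine (h1.trans h5).trans ?_
  have e : 6 / (1 - rj j) * (2 * Real.pi / 2 ^ j) = 12 * Real.pi := by
    unfold rj
    have h2 : (0 : ℝ) < 2 ^ j := by positivity
    field_simp
    ring
  rw [e]
  have := Real.pi_lt_four
  linarith

/-! ### rotations -/

theorem Bl.rot {H : ℂ → ℂ} (hB : Bl H) (α : ℝ) : Bl fun w => exp (α * I) * H w := by
  refine ⟨hB.1.const_mul _, fun w hw => ?_⟩
  have hd : DifferentiableAt ℂ H w := hB.1.differentiableAt (isOpen_ball.mem_nhds hw)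
  rw [deriv_const_mul _ hd, norm_mul, norm_exp_ofReal_mul_I, one_mul]
  exact hB.2 w hw

theorem Prim.rot {C : ℝ} {H : ℂ → ℂ} {A : ℝ → ℂ} (hA : Prim C H A) (α : ℝ) :
    Prim C (fun w => exp (α * I) * H w) (fun t => exp (α * I) * A t) := by
  refine ⟨fun r h1 h2 a b h3 h4 => ?_, fun a b h1 h2 => ?_⟩
  · rw [intervalIntegral.integral_const_mul, ← mul_sub, ← mul_sub, norm_mul,
      norm_exp_ofReal_mul_I, one_mul]
    exact hA.1 r h1 h2 a b h3 h4
  · have e : exp (α * I) * A b - exp (α * I) * A a -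
        ((b - a : ℝ) : ℂ) * (exp (α * I) * H (pt (1 - (b - a) / (2 * Real.pi)) a)) =
        exp (α * I) * (A b - A a - ((b - a : ℝ) : ℂ) * H (pt (1 - (b - a) / (2 * Real.pi)) a)) := by
      ring
    change ‖exp (α * I) * A b - exp (α * I) * A a -
        ((b - a : ℝ) : ℂ) * (exp (α * I) * H (pt (1 - (b - a) / (2 * Real.pi)) a))‖ ≤ _
    rw [e, norm_mul, norm_exp_ofReal_mul_I, one_mul]
    exact hA.2 a b h1 h2

theorem NF.rot {ε : ℝ} {H : ℂ → ℂ} (hB : Bl H) {θ : ℝ} {j : ℕ} (α : ℝ) (h : NF ε H θ j) :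
    NF ε (fun w => exp (α * I) * H w) θ j := by
  obtain ⟨r, h1, h2, h3⟩ := h
  refine ⟨r, h1, h2, ?_⟩
  have hr0 : 0 ≤ r := (rj_nonneg j).trans h1
  have hd : DifferentiableAt ℂ H (pt r θ) := hB.1.differentiableAt (isOpen_ball.mem_nhds (by
    rw [mem_ball_zero_iff, norm_pt hr0]
    exact lt_of_le_of_lt h2 (rj_lt _)))
  rw [deriv_const_mul _ hd, norm_mul, norm_exp_ofReal_mul_I, one_mul]
  exact h3

/-! ### the martingale -/

theorem XX_near {C : ℝ} {H : ℂ → ℂ} {A : ℝ → ℂ} (hA : Prim C H A) (j i : ℕ) :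
    |XX A j i - (H (pt (rj j) (2 * Real.pi * i / 2 ^ j))).re| ≤ C := by
  have hpi := Real.pi_pos
  have h2 : (0 : ℝ) < 2 ^ j := by positivity
  have hba : 2 * Real.pi * (i + 1) / 2 ^ j - 2 * Real.pi * i / 2 ^ j = 2 * Real.pi / 2 ^ j := by
    ring
  have hle : 2 * Real.pi / 2 ^ j ≤ 2 * Real.pi := by
    refine div_le_self (by positivity) ?_
    exact one_le_pow₀ (by norm_num)
  have hpos : 0 < 2 * Real.pi / 2 ^ j := by positivity
  have h := hA.2 (2 * Real.pi * i / 2 ^ j) (2 * Real.pi * (i + 1) / 2 ^ j) (by linarith)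
    (by linarith)
  have er : 1 - (2 * Real.pi * (i + 1) / 2 ^ j - 2 * Real.pi * i / 2 ^ j) / (2 * Real.pi) =
      rj j := by
    rw [hba]
    unfold rj
    field_simp
  rw [er, hba] at h
  have h3 := (abs_re_le_norm _).trans h
  rw [sub_re, re_ofReal_mul] at h3
  have e : XX A j i - (H (pt (rj j) (2 * Real.pi * i / 2 ^ j))).re =
      ((A (2 * Real.pi * (i + 1) / 2 ^ j) - A (2 * Real.pi * i / 2 ^ j)).re -
        2 * Real.pi / 2 ^ j * (H (pt (rj j) (2 * Real.pi * i / 2 ^ j))).re) /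
          (2 * Real.pi / 2 ^ j) := by
    unfold XX
    field_simp
  rw [e, abs_div, abs_of_pos hpos, div_le_iff₀ hpos]
  exact h3

theorem XX_mart (A : ℝ → ℂ) (j i : ℕ) :
    XX A j i = (XX A (j + 1) (2 * i) + XX A (j + 1) (2 * i + 1)) / 2 := by
  have h2 : (0 : ℝ) < 2 ^ j := by positivity
  have e1 : 2 * Real.pi * ((2 * i : ℕ) : ℝ) / 2 ^ (j + 1) = 2 * Real.pi * i / 2 ^ j := by
    rw [pow_succ]; push_cast; field_simp
  have e3 : 2 * Real.pi * (((2 * i + 1 : ℕ) : ℝ) + 1) / 2 ^ (j + 1) =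
      2 * Real.pi * (i + 1) / 2 ^ j := by
    rw [pow_succ]; push_cast; field_simp; ring
  have e2 : 2 * Real.pi * (((2 * i : ℕ) : ℝ) + 1) / 2 ^ (j + 1) =
      2 * Real.pi * ((2 * i + 1 : ℕ) : ℝ) / 2 ^ (j + 1) := by
    push_cast; ring
  unfold XX
  rw [e1, e2, e3, pow_succ, sub_re, sub_re, sub_re]
  have hpi := Real.pi_pos
  field_simp
  ring

theorem XX_incr {C : ℝ} {H : ℂ → ℂ} {A : ℝ → ℂ} (hB : Bl H) (hA : Prim C H A) (j i : ℕ) :
    |XX A (j + 1) (2 * i) - XX A j i| ≤ 2 * C + 6 := by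
  have h1 := XX_near hA j i
  have h2 := XX_near hA (j + 1) (2 * i)
  have e1 : 2 * Real.pi * ((2 * i : ℕ) : ℝ) / 2 ^ (j + 1) = 2 * Real.pi * i / 2 ^ j := by
    rw [pow_succ]; push_cast; field_simp
  rw [e1] at h2
  have h3 := (abs_re_le_norm _).trans (radial hB j (2 * Real.pi * i / 2 ^ j))
  rw [sub_re] at h3
  rw [abs_le] at h1 h2 h3 ⊢
  constructor <;> linarith [h1.1, h1.2, h2.1, h2.2, h3.1, h3.2]

/-! ### indices -/

theorem idx_div (m t : ℕ) (θ : ℝ) : idx (m + t) θ / 2 ^ t = idx m θ := by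
  unfold idx
  rw [← Nat.floor_div_natCast]
  congr 1
  push_cast
  rw [pow_add]
  have h2 : (0 : ℝ) < 2 ^ t := by positivity
  have hpi := Real.pi_pos
  field_simp

theorem idx_half (m : ℕ) (θ : ℝ) : idx (m + 1) θ / 2 = idx m θ := by
  have := idx_div m 1 θ
  rwa [pow_one] at this

theorem idx_le {n : ℕ} {θ : ℝ} (h0 : 0 ≤ θ) : 2 * Real.pi * idx n θ / 2 ^ n ≤ θ := by
  have hpi := Real.pi_pos
  have h2 : (0 : ℝ) < 2 ^ n := by positivity
  have h : (idx n θ : ℝ) ≤ θ * 2 ^ n / (2 * Real.pi) := Nat.floor_le (by positivity)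
  rw [le_div_iff₀ (by positivity)] at h
  rw [div_le_iff₀ h2]
  linarith

theorem lt_idx {n : ℕ} {θ : ℝ} : θ < 2 * Real.pi * (idx n θ + 1) / 2 ^ n := by
  have hpi := Real.pi_pos
  have h2 : (0 : ℝ) < 2 ^ n := by positivity
  have h : θ * 2 ^ n / (2 * Real.pi) < (idx n θ : ℝ) + 1 := Nat.lt_floor_add_one _
  rw [div_lt_iff₀ (by positivity)] at h
  rw [lt_div_iff₀ h2]
  linarith

theorem idx_lt {n : ℕ} {θ : ℝ} (h0 : 0 ≤ θ) (h1 : θ < 2 * Real.pi) : idx n θ < 2 ^ n := by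
  have hpi := Real.pi_pos
  have h2 : (0 : ℝ) < 2 ^ n := by positivity
  have h := idx_le (n := n) h0
  have h3 : 2 * Real.pi * idx n θ / 2 ^ n < 2 * Real.pi := lt_of_le_of_lt h h1
  rw [div_lt_iff₀ h2] at h3
  have h4 : (idx n θ : ℝ) < 2 ^ n := by
    by_contra hcon
    push Not at hcon
    have := mul_le_mul_of_nonneg_left hcon (by positivity : (0 : ℝ) ≤ 2 * Real.pi)
    linarith
  exact_mod_cast h4

theorem XX_idx {C : ℝ} {H : ℂ → ℂ} {A : ℝ → ℂ} (hB : Bl H) (hA : Prim C H A) (n : ℕ) {θ : ℝ}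
    (h0 : 0 ≤ θ) : |XX A n (idx n θ) - (H (pt (rj n) θ)).re| ≤ C + 48 := by
  have h1 := XX_near hA n (idx n θ)
  have h2 : |θ - 2 * Real.pi * idx n θ / 2 ^ n| ≤ 2 * Real.pi / 2 ^ n := by
    have h3 := idx_le (n := n) h0
    have h4 := lt_idx (n := n) (θ := θ)
    rw [abs_of_nonneg (by linarith)]
    have e : 2 * Real.pi * (idx n θ + 1) / 2 ^ n =
      2 * Real.pi * idx n θ / 2 ^ n + 2 * Real.pi / 2 ^ n := by ring
    linarith
  have h3 := (abs_re_le_norm _).trans (angular hB n h2)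
  rw [sub_re] at h3
  rw [abs_le] at h1 h3 ⊢
  constructor <;> linarith [h1.1, h1.2, h3.1, h3.2]

/-! ### orthogonality of the increments -/

/-- the variance accumulated between the levels `m` and `m + l` above the arc `j` of level `m + l` -/
noncomputable def W (X : ℕ → ℕ → ℝ) (m : ℕ) : ℕ → ℕ → ℝ
  | 0, _ => 0
  | (l + 1), j => W X m l (j / 2) + (X (m + l + 1) j - X (m + l) (j / 2)) ^ 2

theorem VV_mono (X : ℕ → ℕ → ℝ) (θ : ℝ) : Monotone fun n => VV X n θ := by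
  refine monotone_nat_of_le_succ fun n => ?_
  unfold VV
  rw [Finset.sum_range_succ]
  linarith [sq_nonneg (X (n + 1) (idx (n + 1) θ) - X n (idx n θ))]

theorem VV_nonneg (X : ℕ → ℕ → ℝ) (n : ℕ) (θ : ℝ) : 0 ≤ VV X n θ :=
  Finset.sum_nonneg fun _ _ => sq_nonneg _

theorem W_idx (X : ℕ → ℕ → ℝ) (m l : ℕ) (θ : ℝ) :
    W X m l (idx (m + l) θ) = VV X (m + l) θ - VV X m θ := by
  induction l with
  | zero => simp [W]
  | succ l ih =>
    have e : idx (m + (l + 1)) θ / 2 = idx (m + l) θ := idx_half (m + l) θ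
    change W X m l (idx (m + (l + 1)) θ / 2) +
      (X (m + l + 1) (idx (m + (l + 1)) θ) - X (m + l) (idx (m + (l + 1)) θ / 2)) ^ 2 = _
    rw [e, ih]
    have e2 : VV X (m + (l + 1)) θ = VV X (m + l) θ +
        (X (m + l + 1) (idx (m + (l + 1)) θ) - X (m + l) (idx (m + l) θ)) ^ 2 := by
      unfold VV
      rw [show m + (l + 1) = m + l + 1 from rfl, Finset.sum_range_succ]
    rw [e2]
    ring

theorem sum_pairs (g : ℕ → ℝ) (n : ℕ) :
    ∑ s ∈ Finset.range (2 * n), g s = ∑ s ∈ Finset.range n, (g (2 * s) + g (2 * s + 1)) := by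
  induction n with
  | zero => simp
  | succ n ih =>
    rw [show 2 * (n + 1) = 2 * n + 1 + 1 by ring, Finset.sum_range_succ, Finset.sum_range_succ, ih,
      Finset.sum_range_succ]
    ring

theorem incr_bound {X : ℕ → ℕ → ℝ} {B : ℝ}
    (h1 : ∀ j i : ℕ, X j i = (X (j + 1) (2 * i) + X (j + 1) (2 * i + 1)) / 2)
    (h2 : ∀ j i : ℕ, |X (j + 1) (2 * i) - X j i| ≤ B) (j s : ℕ) :
    (X (j + 1) s - X j (s / 2)) ^ 2 ≤ B ^ 2 := by
  have h3 := h1 j (s / 2)
  have h4 := h2 j (s / 2)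
  rcases Nat.even_or_odd' s with ⟨t, rfl | rfl⟩
  · rw [Nat.mul_div_cancel_left _ (by norm_num : 0 < 2)] at h4 ⊢
    exact sq_le_sq' (by linarith [(abs_le.1 h4).1]) (abs_le.1 h4).2
  · have e : (2 * t + 1) / 2 = t := by omega
    rw [e] at h3 h4 ⊢
    have h5 := abs_le.1 h4
    refine sq_le_sq' ?_ ?_ <;> linarith [h5.1, h5.2]

theorem W_nonneg (X : ℕ → ℕ → ℝ) (m l j : ℕ) : 0 ≤ W X m l j := by
  induction l generalizing j with
  | zero => simp [W]
  | succ l ih =>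
    change 0 ≤ W X m l (j / 2) + (X (m + l + 1) j - X (m + l) (j / 2)) ^ 2
    linarith [ih (j / 2), sq_nonneg (X (m + l + 1) j - X (m + l) (j / 2))]

theorem W_le {X : ℕ → ℕ → ℝ} {B : ℝ}
    (h1 : ∀ j i : ℕ, X j i = (X (j + 1) (2 * i) + X (j + 1) (2 * i + 1)) / 2)
    (h2 : ∀ j i : ℕ, |X (j + 1) (2 * i) - X j i| ≤ B) (m l j : ℕ) :
    W X m l j ≤ l * B ^ 2 := by
  induction l generalizing j with
  | zero => simp [W]
  | succ l ih =>
    change W X m l (j / 2) + (X (m + l + 1) j - X (m + l) (j / 2)) ^ 2 ≤ _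
    have h3 := ih (j / 2)
    have h4 := incr_bound h1 h2 (m + l) j
    push_cast
    linarith

theorem orth {X : ℕ → ℕ → ℝ}
    (h1 : ∀ j i : ℕ, X j i = (X (j + 1) (2 * i) + X (j + 1) (2 * i + 1)) / 2) (m l i : ℕ) :
    ∑ s ∈ Finset.range (2 ^ l), (X (m + l) (2 ^ l * i + s) - X m i) ^ 2 =
      ∑ s ∈ Finset.range (2 ^ l), W X m l (2 ^ l * i + s) := by
  induction l with
  | zero => simp [W]
  | succ l ih =>
    rw [pow_succ, mul_comm (2 ^ l) 2, sum_pairs, sum_pairs]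
    have e1 : ∀ s : ℕ, 2 * 2 ^ l * i + 2 * s = 2 * (2 ^ l * i + s) := fun s => by ring
    have e2 : ∀ s : ℕ, 2 * 2 ^ l * i + (2 * s + 1) = 2 * (2 ^ l * i + s) + 1 := fun s => by ring
    have hL : ∀ s ∈ Finset.range (2 ^ l),
        (X (m + (l + 1)) (2 * 2 ^ l * i + 2 * s) - X m i) ^ 2 +
          (X (m + (l + 1)) (2 * 2 ^ l * i + (2 * s + 1)) - X m i) ^ 2 =
        2 * (X (m + l) (2 ^ l * i + s) - X m i) ^ 2 +
          2 * (X (m + l + 1) (2 * (2 ^ l * i + s)) - X (m + l) (2 ^ l * i + s)) ^ 2 := by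
      intro s _
      rw [e1, e2, show m + (l + 1) = m + l + 1 from rfl]
      have h3 := h1 (m + l) (2 ^ l * i + s)
      have h4 : X (m + l + 1) (2 * (2 ^ l * i + s) + 1) =
        2 * X (m + l) (2 ^ l * i + s) - X (m + l + 1) (2 * (2 ^ l * i + s)) := by linarith
      rw [h4]
      ring
    have hR : ∀ s ∈ Finset.range (2 ^ l),
        W X m (l + 1) (2 * 2 ^ l * i + 2 * s) + W X m (l + 1) (2 * 2 ^ l * i + (2 * s + 1)) =
        2 * W X m l (2 ^ l * i + s) +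
          2 * (X (m + l + 1) (2 * (2 ^ l * i + s)) - X (m + l) (2 ^ l * i + s)) ^ 2 := by
      intro s _
      rw [e1, e2]
      have e3 : 2 * (2 ^ l * i + s) / 2 = 2 ^ l * i + s := by omega
      have e4 : (2 * (2 ^ l * i + s) + 1) / 2 = 2 ^ l * i + s := by omega
      change W X m l (2 * (2 ^ l * i + s) / 2) +
          (X (m + l + 1) (2 * (2 ^ l * i + s)) - X (m + l) (2 * (2 ^ l * i + s) / 2)) ^ 2 +
        (W X m l ((2 * (2 ^ l * i + s) + 1) / 2) +
          (X (m + l + 1) (2 * (2 ^ l * i + s) + 1) - X (m + l) ((2 * (2 ^ l * i + s) + 1) / 2)) ^ 2) = _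
      rw [e3, e4]
      have h3 := h1 (m + l) (2 ^ l * i + s)
      have h4 : X (m + l + 1) (2 * (2 ^ l * i + s) + 1) =
        2 * X (m + l) (2 ^ l * i + s) - X (m + l + 1) (2 * (2 ^ l * i + s)) := by linarith
      rw [h4]
      ring
    rw [Finset.sum_congr rfl hL, Finset.sum_congr rfl hR, Finset.sum_add_distrib,
      Finset.sum_add_distrib, ← Finset.mul_sum, ← Finset.mul_sum, ih, ← Finset.mul_sum]

theorem tele {V : ℕ → ℝ} (hV : Monotone V) (h0 : ∀ n, 0 ≤ V n) (N l : ℕ) :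
    ∑ m ∈ Finset.range N, (V (m + l) - V m) ≤ l * V (N + l) := by
  have h1 := Finset.sum_range_add V N l
  have h2 := Finset.sum_range_add V l N
  rw [Nat.add_comm l N] at h2
  have h3 : ∑ x ∈ Finset.range l, V (N + x) ≤ l * V (N + l) := by
    refine (Finset.sum_le_card_nsmul _ _ (V (N + l)) fun x hx => hV ?_).trans (le_of_eq ?_)
    · have := Finset.mem_range.1 hx; omega
    · rw [Finset.card_range, nsmul_eq_mul]
  have h4 : 0 ≤ ∑ x ∈ Finset.range l, V x := Finset.sum_nonneg fun x _ => h0 x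
  rw [Finset.sum_sub_distrib]
  have h5 : ∑ x ∈ Finset.range N, V (x + l) = ∑ x ∈ Finset.range N, V (l + x) :=
    Finset.sum_congr rfl fun x _ => by rw [Nat.add_comm]
  rw [h5]
  linarith

/-! ### linear growth of the variance -/

/-- the indicator function of the first and of the last descendant -/
noncomputable def Y1 (q _m s : ℕ) : ℝ :=
  if s % 2 ^ q = 0 ∨ s % 2 ^ q = 2 ^ q - 1 then 1 else 0

theorem Y1_nonneg (q m s : ℕ) : 0 ≤ Y1 q m s := by
  unfold Y1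
  split_ifs <;> norm_num

theorem Y1_le (q m s : ℕ) : Y1 q m s ≤ 1 := by
  unfold Y1
  split_ifs <;> norm_num

theorem Y1_avg (q m i : ℕ) :
    (∑ s ∈ Finset.range (2 ^ q), Y1 q m (2 ^ q * i + s)) / 2 ^ q ≤ 2 / 2 ^ q := by
  refine div_le_div_of_nonneg_right ?_ (by positivity)
  have h1 : ∀ s ∈ Finset.range (2 ^ q), Y1 q m (2 ^ q * i + s) ≤
      (if s = 0 then (1 : ℝ) else 0) + (if s = 2 ^ q - 1 then (1 : ℝ) else 0) := by
    intro s hs
    unfold Y1
    rw [Nat.mul_add_mod, Nat.mod_eq_of_lt (Finset.mem_range.1 hs)]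
    by_cases h1 : s = 0 <;> by_cases h2 : s = 2 ^ q - 1 <;> simp [h1, h2]
    all_goals split_ifs <;> norm_num
  refine (Finset.sum_le_sum h1).trans ?_
  rw [Finset.sum_add_distrib, Finset.sum_ite_eq', Finset.sum_ite_eq']
  split_ifs <;> norm_num

open Classical in
theorem cnt_eq (S : Set ℕ) (N : ℕ) :
    (cnt S N : ℝ) = ∑ m ∈ Finset.range N, (if m ∈ S then (1 : ℝ) else 0) := by
  have h : S ∩ Iio N = (((Finset.range N).filter (· ∈ S) : Finset ℕ) : Set ℕ) := by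
    ext m
    simp only [mem_inter_iff, mem_Iio, Finset.mem_coe, Finset.mem_filter, Finset.mem_range]
    tauto
  unfold cnt
  rw [h, Set.ncard_coe_finset, Finset.sum_boole]

theorem vlin {X : ℕ → ℕ → ℝ} {B : ℝ}
    (h1 : ∀ j i : ℕ, X j i = (X (j + 1) (2 * i) + X (j + 1) (2 * i + 1)) / 2)
    {θ : ℝ} {S : Set ℕ} {δ c : ℝ} (hδ : 0 < δ) (hc : 0 < c) {q k l : ℕ} (hq : 2 / 2 ^ q ≤ δ / 8)
    (hS : ∀ᶠ N : ℕ in atTop, δ * N ≤ cnt S N)
    (hm : ∀ m, Y1 q m (idx (m + q) θ) = 0 → m + k ∈ S →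
      c ≤ (∑ s ∈ Finset.range (2 ^ l), (X (m + l) (2 ^ l * idx m θ + s) - X m (idx m θ)) ^ 2) / 2 ^ l)
    (hs1 : ∀ η : ℝ, 0 < η → ∀ᶠ N : ℕ in atTop,
      |∑ m ∈ Finset.range N, (Y1 q m (idx (m + q) θ) -
        (∑ s ∈ Finset.range (2 ^ q), Y1 q m (2 ^ q * idx m θ + s)) / 2 ^ q)| ≤ η * N)
    (hs2 : ∀ η : ℝ, 0 < η → ∀ᶠ N : ℕ in atTop,
      |∑ m ∈ Finset.range N, (W X m l (idx (m + l) θ) / (l * B ^ 2 + 1) -
        (∑ s ∈ Finset.range (2 ^ l), W X m l (2 ^ l * idx m θ + s) / (l * B ^ 2 + 1)) / 2 ^ l)| ≤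
          η * N) :
    ∀ᶠ n : ℕ in atTop, c * δ / (4 * (l + 1)) * n ≤ VV X n θ := by
  classical
  set D : ℝ := l * B ^ 2 + 1 with hD
  have hD0 : 0 < D := by positivity
  set b : ℕ → ℝ := fun m =>
    (∑ s ∈ Finset.range (2 ^ l), (X (m + l) (2 ^ l * idx m θ + s) - X m (idx m θ)) ^ 2) / 2 ^ l with hb
  have hb0 : ∀ m, 0 ≤ b m := fun m =>
    div_nonneg (Finset.sum_nonneg fun _ _ => sq_nonneg _) (by positivity)
  have e1 := hs1 (δ / 8) (by positivity)
  have e2 := hs2 (c * δ / (6 * D)) (by positivity)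
  have e3 : ∀ᶠ N : ℕ in atTop, δ * ((N + k : ℕ) : ℝ) ≤ cnt S (N + k) :=
    (tendsto_add_atTop_nat k).eventually hS
  have e4 : ∀ᶠ N : ℕ in atTop, (4 * k / δ : ℝ) ≤ N := tendsto_natCast_atTop_atTop.eventually_ge_atTop _
  have e5 : ∀ᶠ N : ℕ in atTop, 3 * l ≤ N := eventually_ge_atTop _
  have main : ∀ᶠ N : ℕ in atTop, c * δ / (4 * (l + 1)) * ((N + l : ℕ) : ℝ) ≤ VV X (N + l) θ := by
    filter_upwards [e1, e2, e3, e4, e5] with N n1 n2 n3 n4 n5
    have hk : (k : ℝ) ≤ δ * N / 4 := by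
      rw [div_le_iff₀ hδ] at n4
      linarith
    -- the extreme arcs
    have a1 : ∑ m ∈ Finset.range N, Y1 q m (idx (m + q) θ) ≤ δ / 4 * N := by
      have h3 := (abs_le.1 n1).2
      rw [Finset.sum_sub_distrib] at h3
      have h4 : ∑ m ∈ Finset.range N,
          (∑ s ∈ Finset.range (2 ^ q), Y1 q m (2 ^ q * idx m θ + s)) / 2 ^ q ≤ N * (δ / 8) := by
        refine (Finset.sum_le_card_nsmul _ _ (δ / 8) fun m _ => (Y1_avg q m _).trans hq).trans ?_
        rw [Finset.card_range, nsmul_eq_mul]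
      linarith
    -- the good levels
    have a2 : δ * ((N + k : ℕ) : ℝ) - k ≤
        ∑ m ∈ Finset.range N, (if k + m ∈ S then (1 : ℝ) else 0) := by
      rw [cnt_eq, Nat.add_comm N k, Finset.sum_range_add] at n3
      have h4 : ∑ m ∈ Finset.range k, (if m ∈ S then (1 : ℝ) else 0) ≤ k := by
        refine (Finset.sum_le_card_nsmul _ _ (1 : ℝ) fun m _ => ?_).trans ?_
        · split_ifs <;> norm_num
        · rw [Finset.card_range, nsmul_eq_mul, mul_one]
      rw [Nat.add_comm N k]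
      linarith
    have a3 : ∑ m ∈ Finset.range N, c * ((if k + m ∈ S then (1 : ℝ) else 0) -
        Y1 q m (idx (m + q) θ)) ≤ ∑ m ∈ Finset.range N, b m := by
      refine Finset.sum_le_sum fun m _ => ?_
      have h5 : Y1 q m (idx (m + q) θ) = 0 ∨ Y1 q m (idx (m + q) θ) = 1 := by
        unfold Y1
        split_ifs
        · exact Or.inr rfl
        · exact Or.inl rfl
      by_cases h6 : k + m ∈ S
      · rw [if_pos h6]
        rcases h5 with h5 | h5
        · rw [h5, sub_zero, mul_one]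
          exact hm m h5 (by rwa [Nat.add_comm])
        · rw [h5, sub_self, mul_zero]
          exact hb0 m
      · rw [if_neg h6]
        have h7 := Y1_nonneg q m (idx (m + q) θ)
        have h8 := hb0 m
        nlinarith
    rw [← Finset.mul_sum, Finset.sum_sub_distrib] at a3
    have a4 : c * (δ / 2 * N) ≤ ∑ m ∈ Finset.range N, b m := by
      refine le_trans (mul_le_mul_of_nonneg_left ?_ hc.le) a3
      push_cast at a2
      have : 0 ≤ δ * k := by positivity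
      linarith
    -- the strong law
    have a5 := (abs_le.1 n2).1
    have a6 : ∑ m ∈ Finset.range N, (W X m l (idx (m + l) θ) / D -
        (∑ s ∈ Finset.range (2 ^ l), W X m l (2 ^ l * idx m θ + s) / D) / 2 ^ l) =
        (∑ m ∈ Finset.range N, (VV X (m + l) θ - VV X m θ) - ∑ m ∈ Finset.range N, b m) / D := by
      rw [← Finset.sum_sub_distrib, Finset.sum_div]
      refine Finset.sum_congr rfl fun m _ => ?_
      rw [W_idx, ← Finset.sum_div, ← orth h1]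
      simp only [hb]
      ring
    rw [a6, le_div_iff₀ hD0] at a5
    have a7 : -(c * δ / (6 * D) * N) * D = -(c * δ * N / 6) := by
      field_simp
    rw [a7] at a5
    have a8 := tele (VV_mono X θ) (fun n => VV_nonneg X n θ) N l
    have a9 := VV_nonneg X (N + l) θ
    have a10 : c * δ * N / 3 ≤ (l + 1) * VV X (N + l) θ := by linarith
    have hl : (0 : ℝ) < l + 1 := by positivity
    have n5' : 3 * (l : ℝ) ≤ N := by exact_mod_cast n5
    rw [div_mul_eq_mul_div, div_le_iff₀ (by positivity)]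
    push_cast
    have a11 : c * δ * ((N : ℝ) + l) ≤ c * δ * (4 * N / 3) :=
      mul_le_mul_of_nonneg_left (by linarith) (by positivity)
    linarith
  obtain ⟨N0, hN0⟩ := eventually_atTop.1 main
  refine eventually_atTop.2 ⟨N0 + l, fun n hn => ?_⟩
  have h := hN0 (n - l) (by omega)
  rwa [Nat.sub_add_cancel (by omega)] at h

/-! ### iterated logarithms -/

theorem loglog_cmp {κ : ℝ} (hκ : 0 < κ) : ∀ᶠ n : ℕ in atTop,
    1 / 2 * Real.log (Real.log n) ≤ Real.log (Real.log (κ * n)) ∧ 1 ≤ Real.log (Real.log n) ∧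
      1 ≤ κ * n := by
  have h1 : Tendsto (fun n : ℕ => Real.log (n : ℝ)) atTop atTop :=
    Real.tendsto_log_atTop.comp tendsto_natCast_atTop_atTop
  have h2 : Tendsto (fun n : ℕ => Real.log (Real.log (n : ℝ))) atTop atTop :=
    Real.tendsto_log_atTop.comp h1
  filter_upwards [h1.eventually_ge_atTop (max 4 (-(2 * Real.log κ))), h2.eventually_ge_atTop 1,
    eventually_gt_atTop 0, tendsto_natCast_atTop_atTop.eventually_ge_atTop (1 / κ)] with n n1 n2 n3 n4
  have hn : (0 : ℝ) < n := by exact_mod_cast n3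
  have n5 : 4 ≤ Real.log n := (le_max_left _ _).trans n1
  have n6 : -(2 * Real.log κ) ≤ Real.log n := (le_max_right _ _).trans n1
  refine ⟨?_, n2, ?_⟩
  · rw [Real.log_mul hκ.ne' hn.ne']
    have h3 : √(Real.log n) ≤ Real.log κ + Real.log n := by
      have h4 : √(Real.log n) ≤ Real.log n / 2 := by
        rw [Real.sqrt_le_left (by linarith)]
        nlinarith
      linarith
    have h5 : 0 < √(Real.log n) := Real.sqrt_pos.2 (by linarith)
    have h6 := Real.log_le_log h5 h3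
    rw [Real.log_sqrt (by linarith)] at h6
    linarith
  · rw [div_le_iff₀ hκ] at n4
    linarith

theorem tendsto_sqrt : Tendsto (fun n : ℕ => √(n * Real.log (Real.log n))) atTop atTop := by
  have h1 : Tendsto (fun n : ℕ => √(n : ℝ)) atTop atTop :=
    Real.tendsto_sqrt_atTop.comp tendsto_natCast_atTop_atTop
  refine tendsto_atTop_mono' atTop ?_ h1
  filter_upwards [loglog_cmp one_pos] with n hn
  refine Real.sqrt_le_sqrt ?_
  exact le_mul_of_one_le_right (Nat.cast_nonneg n) hn.2.1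

/-- from the clock to the levels -/
theorem clock {κ c0 C' : ℝ} (hκ : 0 < κ) (hc0 : 0 < c0) {V x R : ℕ → ℝ}
    (hV : ∀ᶠ n : ℕ in atTop, κ * n ≤ V n)
    (hx : ∃ᶠ n : ℕ in atTop, c0 * √(V n * Real.log (Real.log (V n))) ≤ x n)
    (hR : ∀ n, |x n - R n| ≤ C') :
    ∃ᶠ n : ℕ in atTop, c0 * √(κ / 2) / 2 * √(n * Real.log (Real.log n)) ≤ R n := by
  have hs : 0 < c0 * √(κ / 2) := mul_pos hc0 (Real.sqrt_pos.2 (by positivity))
  have h1 := tendsto_sqrt.eventually_ge_atTop (C' / (c0 * √(κ / 2) / 2))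
  have h3 : ∀ᶠ n : ℕ in atTop, (Real.exp 1 : ℝ) ≤ κ * n :=
    (tendsto_natCast_atTop_atTop.const_mul_atTop hκ).eventually_ge_atTop _
  refine (hx.and_eventually (((hV.and (loglog_cmp hκ)).and h1).and h3)).mono ?_
  rintro n ⟨n1, ⟨⟨n2, n3, n4, n5⟩, n6⟩, n7⟩
  have h2 := (abs_le.1 (hR n)).2
  rw [div_le_iff₀ (by positivity)] at n6
  have hn0 : (0 : ℝ) ≤ n := Nat.cast_nonneg n
  have hl : 1 ≤ Real.log (κ * n) := by
    rw [Real.le_log_iff_exp_le (by linarith)]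
    exact n7
  have h4 : Real.log (Real.log (κ * n)) ≤ Real.log (Real.log (V n)) :=
    Real.log_le_log (by linarith) (Real.log_le_log (by linarith) n2)
  have h5 : κ / 2 * (n * Real.log (Real.log n)) ≤ V n * Real.log (Real.log (V n)) := by
    calc κ / 2 * (n * Real.log (Real.log n)) = κ * n * (1 / 2 * Real.log (Real.log n)) := by ring
      _ ≤ V n * Real.log (Real.log (V n)) :=
        mul_le_mul n2 (n3.trans h4) (by linarith) (by linarith)
  have h6 := Real.sqrt_le_sqrt h5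
  rw [Real.sqrt_mul (by positivity)] at h6
  have h7 := mul_le_mul_of_nonneg_left h6 hc0.le
  have e : c0 * (√(κ / 2) * √(n * Real.log (Real.log n))) =
    c0 * √(κ / 2) / 2 * √(n * Real.log (Real.log n)) +
      √(n * Real.log (Real.log n)) * (c0 * √(κ / 2) / 2) := by ring
  rw [e] at h7
  linarith

/-! ### the theorem -/

theorem ae_of_period {p : ℝ → Prop} (hp : ∀ (θ : ℝ) (n : ℤ), p (θ + n * (2 * Real.pi)) → p θ)
    (h : ∀ᵐ θ : ℝ ∂(volume.restrict (Ico 0 (2 * Real.pi))), p θ) : ∀ᵐ θ : ℝ, p θ := by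
  have hpi := Real.pi_pos
  rw [ae_restrict_iff' measurableSet_Ico] at h
  have h1 : ∀ᵐ θ : ℝ, ∀ n : ℤ, (θ + n * (2 * Real.pi) ∈ Ico 0 (2 * Real.pi) →
      p (θ + n * (2 * Real.pi))) := by
    rw [ae_all_iff]
    intro n
    exact (measurePreserving_add_right volume ((n : ℝ) * (2 * Real.pi))).quasiMeasurePreserving.ae h
  filter_upwards [h1] with θ hθ
  set m : ℤ := ⌊θ / (2 * Real.pi)⌋ with hm
  have h2 : (m : ℝ) ≤ θ / (2 * Real.pi) := Int.floor_le _
  have h3 : θ / (2 * Real.pi) < m + 1 := Int.lt_floor_add_one _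
  rw [le_div_iff₀ (by positivity)] at h2
  rw [div_lt_iff₀ (by positivity)] at h3
  refine hp θ (-m) (hθ (-m) ⟨?_, ?_⟩)
  · push_cast; linarith
  · push_cast; linarith

theorem pt_add_int (r θ : ℝ) (n : ℤ) : pt r (θ + n * (2 * Real.pi)) = pt r θ :=
  (periodic_circleMap 0 r).int_mul n θ

theorem mid {q m : ℕ} {θ : ℝ} (h0 : 0 ≤ θ) (h : Y1 q m (idx (m + q) θ) = 0) :
    2 * Real.pi * idx m θ / 2 ^ m + 2 * Real.pi / 2 ^ (m + q) ≤ θ ∧
      θ ≤ 2 * Real.pi * (idx m θ + 1) / 2 ^ m - 2 * Real.pi / 2 ^ (m + q) := by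
  have hpi := Real.pi_pos
  have h1 : ¬ (idx (m + q) θ % 2 ^ q = 0 ∨ idx (m + q) θ % 2 ^ q = 2 ^ q - 1) := by
    intro hcon
    unfold Y1 at h
    rw [if_pos hcon] at h
    exact one_ne_zero h
  push Not at h1
  have hq : 0 < 2 ^ q := by positivity
  have h2 := Nat.mod_lt (idx (m + q) θ) hq
  have h3 := Nat.div_add_mod (idx (m + q) θ) (2 ^ q)
  rw [idx_div] at h3
  set s := idx (m + q) θ % 2 ^ q with hs
  have hs1 : 1 ≤ s := by omega
  have hs2 : s + 2 ≤ 2 ^ q := by omega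
  have h4 := idx_le (n := m + q) h0
  have h5 := lt_idx (n := m + q) (θ := θ)
  rw [← h3] at h4 h5
  push_cast at h4 h5
  have hm2 : (0 : ℝ) < 2 ^ m := by positivity
  have hq2 : (0 : ℝ) < 2 ^ q := by positivity
  have hs1' : (1 : ℝ) ≤ s := by exact_mod_cast hs1
  have hs2' : (s : ℝ) + 2 ≤ 2 ^ q := by exact_mod_cast hs2
  constructor
  · refine le_trans ?_ h4
    have e1 : 2 * Real.pi * (idx m θ : ℝ) / 2 ^ m + 2 * Real.pi / 2 ^ (m + q) =
        2 * Real.pi * (2 ^ q * (idx m θ : ℝ) + 1) / 2 ^ (m + q) := by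
      rw [pow_add]; field_simp
    rw [e1]
    gcongr
  · refine h5.le.trans ?_
    have e1 : 2 * Real.pi * ((idx m θ : ℝ) + 1) / 2 ^ m - 2 * Real.pi / 2 ^ (m + q) =
        2 * Real.pi * (2 ^ q * (idx m θ : ℝ) + 2 ^ q - 1) / 2 ^ (m + q) := by
      rw [pow_add]; field_simp
    rw [e1]
    gcongr
    linarith

/-- the theorem for fixed `ε`, `δ` on one period -/
theorem one_period (hV : S_VAR) (hS : S_SLLN) (hL : S_LLIL) (hU : S_UPL) {C : ℝ} (hC : 0 ≤ C)
    {H : ℂ → ℂ} (hB : Bl H) {A : ℝ → ℂ} (hA : Prim C H A) {ε δ : ℝ} (hε : 0 < ε) (hδ : 0 < δ) :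
    ∀ᵐ θ : ℝ ∂(volume.restrict (Ico 0 (2 * Real.pi))),
      (∀ᶠ N : ℕ in atTop, δ * N ≤ cnt {j | NF ε H θ j} N) →
      ∃ c : ℝ, 0 < c ∧ ∀ α : ℝ, ∃ᶠ j : ℕ in atTop,
        c * √(j * Real.log (Real.log j)) ≤ (exp (α * I) * H (pt (rj j) θ)).re := by
  obtain ⟨c0, hc0, hLL⟩ := hL
  obtain ⟨q, hq⟩ : ∃ q : ℕ, 2 / (2 : ℝ) ^ q ≤ δ / 8 := by
    obtain ⟨q, hq⟩ := exists_pow_lt_of_lt_one (show 0 < δ / 16 by positivity)
      (show (1 / 2 : ℝ) < 1 by norm_num)
    refine ⟨q, ?_⟩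
    have e : 2 / (2 : ℝ) ^ q = 2 * (1 / 2) ^ q := by rw [one_div, inv_pow]; rfl
    rw [e]
    linarith
  obtain ⟨k, l, c, hc, hVAR⟩ := hV C ε q hC hε
  set B : ℝ := 2 * C + 6 with hBdef
  set X : ℝ → ℕ → ℕ → ℝ := fun α => XX fun t => exp (α * I) * A t with hX
  have hX1 : ∀ α : ℝ, ∀ j i : ℕ, X α j i = (X α (j + 1) (2 * i) + X α (j + 1) (2 * i + 1)) / 2 :=
    fun α j i => XX_mart _ j i
  have hX2 : ∀ α : ℝ, ∀ j i : ℕ, |X α (j + 1) (2 * i) - X α j i| ≤ B := fun α j i =>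
    XX_incr (Bl.rot hB α) (Prim.rot hA α) j i
  -- the laws of large numbers
  have a1 := hS q (Y1 q) (fun m s => by
    rw [abs_of_nonneg (Y1_nonneg q m s)]; exact Y1_le q m s)
  have a2 : ∀ᵐ θ : ℝ ∂(volume.restrict (Ico 0 (2 * Real.pi))), ∀ a : ℚ, ∀ η : ℝ, 0 < η →
      ∀ᶠ N : ℕ in atTop, |∑ m ∈ Finset.range N, (W (X a) m l (idx (m + l) θ) / (l * B ^ 2 + 1) -
        (∑ s ∈ Finset.range (2 ^ l), W (X a) m l (2 ^ l * idx m θ + s) / (l * B ^ 2 + 1)) / 2 ^ l)| ≤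
          η * N := by
    rw [ae_all_iff]
    intro a
    refine hS l (fun m s => W (X a) m l s / (l * B ^ 2 + 1)) fun m s => ?_
    have h3 := W_nonneg (X a) m l s
    have h4 := W_le (hX1 a) (hX2 a) m l s
    have h5 : (0 : ℝ) < l * B ^ 2 + 1 := by positivity
    rw [abs_of_nonneg (div_nonneg h3 h5.le), div_le_one h5]
    linarith
  have a3 : ∀ᵐ θ : ℝ ∂(volume.restrict (Ico 0 (2 * Real.pi))), ∀ a : ℚ,
      Tendsto (fun n => VV (X a) n θ) atTop atTop →
      ∃ᶠ n : ℕ in atTop, c0 * √(VV (X a) n θ * Real.log (Real.log (VV (X a) n θ))) ≤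
        X a n (idx n θ) := by
    rw [ae_all_iff]
    intro a
    exact hLL B (X a) ⟨hX1 a, fun j i _ => hX2 a j i⟩
  have a4 := ae_restrict_of_ae (s := Ico 0 (2 * Real.pi)) (hU H hB)
  have a5 := ae_restrict_mem (μ := (volume : Measure ℝ)) (measurableSet_Ico (a := 0)
    (b := 2 * Real.pi))
  filter_upwards [a1, a2, a3, a4, a5] with θ b1 b2 b3 b4 b5 hcnt
  set κ : ℝ := c * δ / (4 * (l + 1)) with hκ
  have hκ0 : 0 < κ := by positivity
  set c'' : ℝ := c0 * √(κ / 2) / 2 with hc''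
  have hc''0 : 0 < c'' := by
    have : 0 < √(κ / 2) := Real.sqrt_pos.2 (by positivity)
    positivity
  -- rational directions
  have hrat : ∀ a : ℚ, ∃ᶠ n : ℕ in atTop,
      c'' * √(n * Real.log (Real.log n)) ≤ (exp (((a : ℝ) : ℂ) * I) * H (pt (rj n) θ)).re := by
    intro a
    have hlin := vlin (X := X a) (B := B) (hX1 a) (θ := θ) (S := {j | NF ε H θ j}) hδ hc
      (q := q) (k := k) (l := l) hq hcnt (by
        intro m hm0 hmS
        obtain ⟨m1, m2⟩ := mid b5.1 hm0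
        exact hVAR _ _ (Bl.rot hB a) (Prim.rot hA a) m (idx m θ) (idx_lt b5.1 b5.2) θ m1 m2
          (NF.rot hB a hmS)) b1 (b2 a)
    have htend : Tendsto (fun n => VV (X a) n θ) atTop atTop := by
      refine tendsto_atTop_mono' atTop hlin ?_
      exact tendsto_natCast_atTop_atTop.const_mul_atTop hκ0
    exact clock hκ0 hc0 hlin (b3 a htend) (C' := C + 48) fun n =>
      XX_idx (Bl.rot hB a) (Prim.rot hA a) n b5.1
  refine ⟨c'' / 2, by positivity, fun α => ?_⟩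
  obtain ⟨a, ha1, ha2⟩ := exists_rat_btwn (show α - c'' / 40 < α by linarith)
  refine ((hrat a).and_eventually b4).mono ?_
  rintro n ⟨n1, n2⟩
  have e : (exp (α * I) * H (pt (rj n) θ)).re = (exp (((a : ℝ) : ℂ) * I) * H (pt (rj n) θ)).re +
      (((exp (α * I) - exp (((a : ℝ) : ℂ) * I)) * H (pt (rj n) θ))).re := by
    rw [← add_re]
    congr 1
    ring
  have h3 : ‖exp (α * I) - exp (((a : ℝ) : ℂ) * I)‖ ≤ c'' / 40 := by
    have h4 := pt_sub 1 α a zero_le_one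
    unfold pt circleMap at h4
    simp only [zero_add, ofReal_one, one_mul] at h4
    refine h4.trans ?_
    rw [abs_of_nonneg (by linarith)]
    linarith
  have h5 : ‖(exp (α * I) - exp (((a : ℝ) : ℂ) * I)) * H (pt (rj n) θ)‖ ≤
      c'' / 40 * (20 * √(n * Real.log (Real.log n))) := by
    rw [norm_mul]
    exact mul_le_mul h3 n2 (norm_nonneg _) (by positivity)
  have h6 := (abs_le.1 ((abs_re_le_norm _).trans h5)).1
  rw [e]
  linarith

/-- LOW -/
theorem t (hP : S_PRIM) (hV : S_VAR) (hS : S_SLLN) (hL : S_LLIL) (hU : S_UPL) :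
    Pool.Agent.N673.TW.S_LOW := by
  intro H hB
  obtain ⟨C, hC, hPr⟩ := hP
  obtain ⟨A, hA⟩ := hPr H hB
  have h1 : ∀ᵐ θ : ℝ ∂(volume.restrict (Ico 0 (2 * Real.pi))), ∀ n : ℕ,
      (∀ᶠ N : ℕ in atTop, 1 / ((n : ℝ) + 1) * N ≤ cnt {j | NF (1 / ((n : ℝ) + 1)) H θ j} N) →
      ∃ c : ℝ, 0 < c ∧ ∀ α : ℝ, ∃ᶠ j : ℕ in atTop,
        c * √(j * Real.log (Real.log j)) ≤ (exp (α * I) * H (pt (rj j) θ)).re := by
    rw [ae_all_iff]
    intro n
    exact one_period hV hS hL hU hC hB hA (by positivity) (by positivity)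
  refine ae_of_period ?_ ?_
  · intro θ n h
    rintro ⟨ε, δ, hε, hδ, hcnt⟩
    have e : ∀ r : ℝ, pt r (θ + n * (2 * Real.pi)) = pt r θ := fun r => pt_add_int r θ n
    obtain ⟨c, hc, hfr⟩ := h ⟨ε, δ, hε, hδ, by
      have e2 : {j | NF ε H (θ + n * (2 * Real.pi)) j} = {j | NF ε H θ j} := by
        ext j
        change NF ε H (θ + n * (2 * Real.pi)) j ↔ NF ε H θ j
        unfold NF
        simp only [e]
      rw [e2]
      exact hcnt⟩
    refine ⟨c, hc, fun α => ?_⟩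
    have := hfr α
    simp only [e] at this
    exact this
  · filter_upwards [h1] with θ hθ
    rintro ⟨ε, δ, hε, hδ, hcnt⟩
    obtain ⟨n, hn⟩ := exists_nat_one_div_lt (lt_min hε hδ)
    have hn1 := hn.trans_le (min_le_left _ _)
    have hn2 := hn.trans_le (min_le_right _ _)
    refine hθ n ?_
    filter_upwards [hcnt] with N hN
    have h3 : (cnt {j | NF ε H θ j} N : ℝ) ≤ cnt {j | NF (1 / ((n : ℝ) + 1)) H θ j} N := by
      have : cnt {j | NF ε H θ j} N ≤ cnt {j | NF (1 / ((n : ℝ) + 1)) H θ j} N := by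
        refine Set.ncard_le_ncard ?_ ((Set.finite_Iio N).inter_of_right _)
        rintro j ⟨hj1, hj2⟩
        refine ⟨?_, hj2⟩
        obtain ⟨r, r1, r2, r3⟩ := hj1
        exact ⟨r, r1, r2, hn1.le.trans r3⟩
      exact_mod_cast this
    have h4 : 1 / ((n : ℝ) + 1) * N ≤ δ * N :=
      mul_le_mul_of_nonneg_right hn2.le (Nat.cast_nonneg N)
    linarith

end Pool.Agent.N673.TW.Low
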