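import Pool.Agent.N673.TW.Stm2

set_option autoImplicit false

/-!
# The boundary primitive of a Bloch function (S_PRIM), by helper262

`K` is a primitive of `(H z - H 0) / (i z)` on the disc, so `K (r e^(ib)) - K (r e^(ia))` is the
integral of `H (r e^(it)) - H 0` over `[a, b]`; `K` extends to the circle, with a Hölder estimate.
-/

open Complex Filter Topology Metric Set MeasureTheory

namespace Pool.Agent.N673.TW.Prim

theorem cmp {f f' : ℝ → ℂ} {B B' : ℝ → ℝ} {a b : ℝ} (hab : a ≤ b)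
    (hf : ∀ s ∈ Icc a b, HasDerivAt f (f' s) s) (hB : ∀ s ∈ Icc a b, HasDerivAt B (B' s) s)
    (h : ∀ s ∈ Icc a b, ‖f' s‖ ≤ B' s) : ‖f b - f a‖ ≤ B b - B a := by
  have h1 := image_norm_le_of_norm_deriv_right_le_deriv_boundary' (f := fun s => f s - f a)
    (f' := f') (B := fun s => B s - B a) (B' := B') (a := a) (b := b)
    (fun s hs => ((hf s hs).sub_const (f a)).continuousAt.continuousWithinAt)
    (fun s hs => ((hf s ⟨hs.1, hs.2.le⟩).sub_const (f a)).hasDerivWithinAt)
    (by simp)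
    (fun s hs => ((hB s hs).sub_const (B a)).continuousAt.continuousWithinAt)
    (fun s hs => ((hB s ⟨hs.1, hs.2.le⟩).sub_const (B a)).hasDerivWithinAt)
    (fun s hs => h s ⟨hs.1, hs.2.le⟩) (right_mem_Icc.mpr hab)
  exact h1

theorem pt_eq (r t : ℝ) : pt r t = r * exp (t * I) := by
  unfold pt circleMap; simp

theorem norm_pt {r : ℝ} (hr : 0 ≤ r) (t : ℝ) : ‖pt r t‖ = r := by
  rw [pt_eq, norm_mul, Complex.norm_exp_ofReal_mul_I, mul_one, Complex.norm_real,
    Real.norm_of_nonneg hr]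

theorem pt_mem {r : ℝ} (hr : 0 ≤ r) (h1 : r < 1) (t : ℝ) : pt r t ∈ ball (0 : ℂ) 1 := by
  rw [mem_ball_zero_iff, norm_pt hr]; exact h1

theorem pt_deriv_r (r t : ℝ) : HasDerivAt (fun s : ℝ => pt s t) (exp (t * I)) r := by
  have h1 : HasDerivAt (fun s : ℝ => (s : ℂ) * exp (t * I)) (1 * exp (t * I)) r :=
    (Complex.ofRealCLM.hasDerivAt (x := r)).mul_const _
  rw [one_mul] at h1
  have : (fun s : ℝ => pt s t) = fun s : ℝ => (s : ℂ) * exp (t * I) := by
    funext s; exact pt_eq s t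
  rw [this]; exact h1

theorem pt_deriv_t (r t : ℝ) : HasDerivAt (fun s : ℝ => pt r s) (pt r t * I) t := by
  have h1 := hasDerivAt_circleMap 0 r t
  exact h1

section

variable {H : ℂ → ℂ}

theorem rad (hH : Bl H) {r r' : ℝ} (h0 : 0 ≤ r) (h1 : r ≤ r') (h2 : r' < 1) (t : ℝ) :
    ‖H (pt r' t) - H (pt r t)‖ ≤ 12 * √(1 - r) / √(1 - r') := by
  have hr : 0 < 1 - r := by linarith
  have hc := cmp (f := fun s : ℝ => H (pt s t)) (f' := fun s => deriv H (pt s t) * exp (t * I))
    (B := fun s => 12 * √(1 - r) / √(1 - s))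
    (B' := fun s => 6 * √(1 - r) / (√(1 - s) * (1 - s))) h1 ?_ ?_ ?_
  · refine hc.trans ?_
    have : 0 ≤ 12 * √(1 - r) / √(1 - r) := by positivity
    linarith
  · intro s hs
    have hs1 : s < 1 := lt_of_le_of_lt hs.2 h2
    have hs0 : 0 ≤ s := h0.trans hs.1
    have h3 : HasDerivAt H (deriv H (pt s t)) (pt s t) :=
      (hH.1.differentiableAt (isOpen_ball.mem_nhds (pt_mem hs0 hs1 t))).hasDerivAt
    exact h3.comp_of_eq s (pt_deriv_r s t) rfl
  · intro s hs
    have hs1 : s < 1 := lt_of_le_of_lt hs.2 h2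
    have h3 : 0 < 1 - s := by linarith
    have h4 : HasDerivAt (fun s : ℝ => √(1 - s)) (-1 / (2 * √(1 - s))) s :=
      (((hasDerivAt_id s).const_sub 1)).sqrt h3.ne'
    have h5 : √(1 - s) ≠ 0 := (Real.sqrt_pos.mpr h3).ne'
    have h6 := ((hasDerivAt_const s (12 * √(1 - r))).div h4 h5)
    refine h6.congr_deriv ?_
    have h7 : √(1 - s) ^ 2 = 1 - s := Real.sq_sqrt h3.le
    rw [h7]
    have h8 : (1 - s) ≠ 0 := h3.ne'
    field_simp
    ring
  · intro s hs
    have hs1 : s < 1 := lt_of_le_of_lt hs.2 h2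
    have hs0 : 0 ≤ s := h0.trans hs.1
    have h3 : 0 < 1 - s := by linarith
    rw [norm_mul, Complex.norm_exp_ofReal_mul_I, mul_one]
    have h4 := hH.2 (pt s t) (pt_mem hs0 hs1 t)
    rw [norm_pt hs0] at h4
    have h5 : √(1 - s) ≤ √(1 - r) := Real.sqrt_le_sqrt (by linarith [hs.1])
    have h6 : 0 < √(1 - s) := Real.sqrt_pos.mpr h3
    rw [le_div_iff₀ (by positivity)]
    calc ‖deriv H (pt s t)‖ * (√(1 - s) * (1 - s))
        = √(1 - s) * (‖deriv H (pt s t)‖ * (1 - s)) := by ring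
      _ ≤ √(1 - r) * 6 := by gcongr
      _ = _ := by ring

theorem ang (hH : Bl H) {r : ℝ} (h0 : 0 ≤ r) (h1 : r < 1) {a b : ℝ} (hab : a ≤ b) :
    ‖H (pt r b) - H (pt r a)‖ ≤ 6 * (b - a) / (1 - r) := by
  have hr : 0 < 1 - r := by linarith
  have hc := cmp (f := fun s : ℝ => H (pt r s)) (f' := fun s => deriv H (pt r s) * (pt r s * I))
    (B := fun s => 6 / (1 - r) * s) (B' := fun _ => 6 / (1 - r)) hab ?_ ?_ ?_
  · refine hc.trans (le_of_eq ?_)
    ring
  · intro s _
    have h3 : HasDerivAt H (deriv H (pt r s)) (pt r s) :=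
      (hH.1.differentiableAt (isOpen_ball.mem_nhds (pt_mem h0 h1 s))).hasDerivAt
    exact h3.comp_of_eq s (pt_deriv_t r s) rfl
  · intro s _
    simpa using (hasDerivAt_id s).const_mul (6 / (1 - r))
  · intro s _
    rw [norm_mul, norm_mul, Complex.norm_I, mul_one, norm_pt h0]
    have h4 := hH.2 (pt r s) (pt_mem h0 h1 s)
    rw [norm_pt h0] at h4
    rw [le_div_iff₀ hr]
    have h5 : 0 ≤ ‖deriv H (pt r s)‖ := norm_nonneg _
    nlinarith [mul_nonneg h5 hr.le, mul_nonneg (mul_nonneg h5 hr.le) hr.le]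

theorem center (hH : Bl H) {r : ℝ} (h0 : 0 ≤ r) (h1 : r < 1) (t : ℝ) :
    ‖H (pt r t) - H 0‖ ≤ 12 / √(1 - r) := by
  have h := rad hH le_rfl h0 h1 t
  have h2 : pt 0 t = 0 := by rw [pt_eq]; simp
  rw [h2, sub_zero, Real.sqrt_one, mul_one] at h
  exact h

/-- the primitive -/
theorem exists_K (hH : Bl H) : ∃ K : ℂ → ℂ, ∀ z ∈ ball (0 : ℂ) 1, z ≠ 0 →
    HasDerivAt K ((H z - H 0) / (I * z)) z := by
  have h1 : DifferentiableOn ℂ (dslope H 0) (ball 0 1) :=
    (Complex.differentiableOn_dslope (ball_mem_nhds 0 one_pos)).mpr hH.1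
  obtain ⟨G, hG⟩ := h1.isExactOn_ball
  refine ⟨fun z => G z / I, fun z hz hz0 => ?_⟩
  have h2 := (hG z hz).div_const I
  refine h2.congr_deriv ?_
  rw [dslope_of_ne _ hz0, slope_def_field, sub_zero]
  rw [div_div, mul_comm z I]

variable {K : ℂ → ℂ} (hK : ∀ z ∈ ball (0 : ℂ) 1, z ≠ 0 → HasDerivAt K ((H z - H 0) / (I * z)) z)

include hK

theorem K_rad (hH : Bl H) {r r' : ℝ} (h0 : 1 / 2 ≤ r) (h1 : r ≤ r') (h2 : r' < 1) (t : ℝ) :
    ‖K (pt r' t) - K (pt r t)‖ ≤ 48 * √(1 - r) := by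
  have hr : 0 < 1 - r := by linarith
  have hc := cmp (f := fun s : ℝ => K (pt s t))
    (f' := fun s => (H (pt s t) - H 0) / (I * pt s t) * exp (t * I))
    (B := fun s => -(48 * √(1 - s))) (B' := fun s => 24 / √(1 - s)) h1 ?_ ?_ ?_
  · refine hc.trans ?_
    have : 0 ≤ √(1 - r') := Real.sqrt_nonneg _
    linarith
  · intro s hs
    have hs1 : s < 1 := lt_of_le_of_lt hs.2 h2
    have hs0 : 0 < s := by linarith [hs.1]
    have hne : pt s t ≠ 0 := by
      rw [← norm_pos_iff, norm_pt hs0.le]; exact hs0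
    exact (hK _ (pt_mem hs0.le hs1 t) hne).comp_of_eq s (pt_deriv_r s t) rfl
  · intro s hs
    have hs1 : s < 1 := lt_of_le_of_lt hs.2 h2
    have h3 : 0 < 1 - s := by linarith
    have h4 : HasDerivAt (fun s : ℝ => √(1 - s)) (-1 / (2 * √(1 - s))) s :=
      (((hasDerivAt_id s).const_sub 1)).sqrt h3.ne'
    have h5 := (h4.const_mul 48).neg
    refine h5.congr_deriv ?_
    have h6 : √(1 - s) ≠ 0 := (Real.sqrt_pos.mpr h3).ne'
    field_simp
    ring
  · intro s hs
    have hs1 : s < 1 := lt_of_le_of_lt hs.2 h2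
    have hs0 : 0 < s := by linarith [hs.1]
    have hsh : 1 / 2 ≤ s := h0.trans hs.1
    have h3 : 0 < 1 - s := by linarith
    have h6 : 0 < √(1 - s) := Real.sqrt_pos.mpr h3
    rw [norm_mul, Complex.norm_exp_ofReal_mul_I, mul_one, norm_div, norm_mul, Complex.norm_I,
      one_mul, norm_pt hs0.le]
    have h4 := center hH hs0.le hs1 t
    rw [div_le_iff₀ hs0]
    refine h4.trans ?_
    rw [div_mul_eq_mul_div]
    gcongr
    linarith

theorem K_int (hH : Bl H) {r : ℝ} (h0 : 0 < r) (h1 : r < 1) (a b : ℝ) :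
    (∫ t in a..b, H (pt r t)) = K (pt r b) - K (pt r a) + ((b - a : ℝ) : ℂ) * H 0 := by
  have hcont : Continuous fun t : ℝ => H (pt r t) := by
    rw [continuous_iff_continuousAt]
    intro t
    have h3 : HasDerivAt H (deriv H (pt r t)) (pt r t) :=
      (hH.1.differentiableAt (isOpen_ball.mem_nhds (pt_mem h0.le h1 t))).hasDerivAt
    exact (h3.comp_of_eq t (pt_deriv_t r t) rfl).continuousAt
  have hd : ∀ t ∈ uIcc a b, HasDerivAt (fun t : ℝ => K (pt r t) + (t : ℂ) * H 0) (H (pt r t)) t := by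
    intro t _
    have hne : pt r t ≠ 0 := by
      rw [← norm_pos_iff, norm_pt h0.le]; exact h0
    have h3 := (hK _ (pt_mem h0.le h1 t) hne).comp_of_eq t (pt_deriv_t r t) rfl
    have h4 : HasDerivAt (fun s : ℝ => (s : ℂ) * H 0) (1 * H 0) t :=
      (Complex.ofRealCLM.hasDerivAt (x := t)).mul_const _
    have h5 := h3.fun_add h4
    refine h5.congr_deriv ?_
    have hI : I ≠ 0 := Complex.I_ne_zero
    field_simp
    ring
  rw [intervalIntegral.integral_eq_sub_of_hasDerivAt hd (hcont.intervalIntegrable a b)]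
  push_cast
  ring

/-- the difference of the values of `K` at two radii -/
theorem K_quad (hH : Bl H) {r r' : ℝ} (h0 : 1 / 2 ≤ r) (h1 : r ≤ r') (h2 : r' < 1) {a b : ℝ}
    (hab : a ≤ b) (hb : b - a ≤ 4 * Real.pi * (1 - r)) :
    ‖(K (pt r' b) - K (pt r' a)) - (K (pt r b) - K (pt r a))‖ ≤ 500 * (1 - r) := by
  have hr : 0 < 1 - r := by linarith
  have hpi := Real.pi_pos
  have hpi4 := Real.pi_le_four
  have hc := cmp (f := fun s : ℝ => K (pt s b) - K (pt s a))
    (f' := fun s => (H (pt s b) - H 0) / (I * pt s b) * exp (b * I) -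
      (H (pt s a) - H 0) / (I * pt s a) * exp (a * I))
    (B := fun s => -(500 * √(1 - r) * √(1 - s))) (B' := fun s => 250 * √(1 - r) / √(1 - s)) h1
    ?_ ?_ ?_
  · refine hc.trans ?_
    have h3 : 0 ≤ 500 * √(1 - r) * √(1 - r') := by positivity
    have h4 : √(1 - r) * √(1 - r) = 1 - r := Real.mul_self_sqrt hr.le
    have h5 : 500 * √(1 - r) * √(1 - r) = 500 * (1 - r) := by rw [mul_assoc, h4]
    linarith
  · intro s hs
    have hs1 : s < 1 := lt_of_le_of_lt hs.2 h2
    have hs0 : 0 < s := by linarith [hs.1]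
    have hne : ∀ t, pt s t ≠ 0 := by
      intro t
      rw [← norm_pos_iff, norm_pt hs0.le]; exact hs0
    exact ((hK _ (pt_mem hs0.le hs1 b) (hne b)).comp_of_eq s (pt_deriv_r s b) rfl).fun_sub
      ((hK _ (pt_mem hs0.le hs1 a) (hne a)).comp_of_eq s (pt_deriv_r s a) rfl)
  · intro s hs
    have hs1 : s < 1 := lt_of_le_of_lt hs.2 h2
    have h3 : 0 < 1 - s := by linarith
    have h4 : HasDerivAt (fun s : ℝ => √(1 - s)) (-1 / (2 * √(1 - s))) s :=
      (((hasDerivAt_id s).const_sub 1)).sqrt h3.ne'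
    have h5 := (h4.const_mul (500 * √(1 - r))).neg
    refine h5.congr_deriv ?_
    have h6 : √(1 - s) ≠ 0 := (Real.sqrt_pos.mpr h3).ne'
    field_simp
    ring
  · intro s hs
    have hs1 : s < 1 := lt_of_le_of_lt hs.2 h2
    have hs0 : 0 < s := by linarith [hs.1]
    have hsh : 1 / 2 ≤ s := h0.trans hs.1
    have h3 : 0 < 1 - s := by linarith
    have h6 : 0 < √(1 - s) := Real.sqrt_pos.mpr h3
    have e : ∀ t : ℝ, (H (pt s t) - H 0) / (I * pt s t) * exp (t * I) =
        (H (pt s t) - H 0) / (I * s) := by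
      intro t
      rw [pt_eq]
      have h7 : exp (t * I) ≠ 0 := Complex.exp_ne_zero _
      have h8 : (s : ℂ) ≠ 0 := by exact_mod_cast hs0.ne'
      field_simp
    rw [e b, e a, ← sub_div, norm_div, norm_mul, Complex.norm_I, one_mul, Complex.norm_real,
      Real.norm_of_nonneg hs0.le, div_le_iff₀ hs0]
    have h9 : H (pt s b) - H 0 - (H (pt s a) - H 0) =
        (H (pt s b) - H (pt r b)) + (H (pt r b) - H (pt r a)) - (H (pt s a) - H (pt r a)) := by
      ring
    rw [h9]
    have hr0 : 0 ≤ r := by linarith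
    have t1 := rad hH hr0 hs.1 hs1 b
    have t2 := ang hH hr0 (by linarith) hab
    have t3 := rad hH hr0 hs.1 hs1 a
    have t4 : 6 * (b - a) / (1 - r) ≤ 101 := by
      rw [div_le_iff₀ hr]
      have := Real.pi_lt_d2
      nlinarith
    have t5 : 1 ≤ √(1 - r) / √(1 - s) := by
      rw [le_div_iff₀ h6, one_mul]
      exact Real.sqrt_le_sqrt (by linarith [hs.1])
    have t6 : 12 * √(1 - r) / √(1 - s) = 12 * (√(1 - r) / √(1 - s)) := by ring
    have t7 : 250 * √(1 - r) / √(1 - s) = 250 * (√(1 - r) / √(1 - s)) := by ring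
    rw [t6] at t1 t3
    rw [t7]
    have t8 := norm_sub_le ((H (pt s b) - H (pt r b)) + (H (pt r b) - H (pt r a)))
      (H (pt s a) - H (pt r a))
    have t9 := norm_add_le (H (pt s b) - H (pt r b)) (H (pt r b) - H (pt r a))
    nlinarith

end

theorem t : S_PRIM := by
  refine ⟨2000, by norm_num, fun H hH => ?_⟩
  obtain ⟨K, hK⟩ := exists_K hH
  have hpi := Real.pi_pos
  have hpi2 := Real.pi_lt_d2
  have hpi3 := Real.pi_gt_three
  -- the radial limits of `K`
  have hlim : ∀ t : ℝ, ∃ L : ℂ, Tendsto (fun r : ℝ => K (pt r t)) (𝓝[<] 1) (𝓝 L) := by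
    intro t
    have hc : Cauchy (map (fun r : ℝ => K (pt r t)) (𝓝[<] 1)) := by
      rw [Metric.cauchy_iff]
      refine ⟨inferInstance, fun ε hε => ?_⟩
      have h1 : Tendsto (fun r : ℝ => 96 * √(1 - r)) (𝓝[<] 1) (𝓝 0) := by
        have : Tendsto (fun r : ℝ => 96 * √(1 - r)) (𝓝 1) (𝓝 (96 * √(1 - 1))) :=
          Continuous.tendsto (by fun_prop) 1
        simp only [sub_self, Real.sqrt_zero, mul_zero] at this
        exact this.mono_left nhdsWithin_le_nhds
      have h2 : ∀ᶠ r : ℝ in 𝓝[<] 1, 96 * √(1 - r) < ε ∧ 1 / 2 ≤ r ∧ r < 1 := by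
        filter_upwards [h1.eventually_lt_const hε,
          mem_nhdsWithin_of_mem_nhds (Ici_mem_nhds (show (1 / 2 : ℝ) < 1 by norm_num)),
          self_mem_nhdsWithin] with r hr1 hr2 hr3
        exact ⟨hr1, hr2, hr3⟩
      obtain ⟨r0, hr0⟩ := h2.exists
      refine ⟨(fun r : ℝ => K (pt r t)) '' Ico r0 1, ?_, ?_⟩
      · apply image_mem_map
        exact Ico_mem_nhdsLT hr0.2.2
      · rintro _ ⟨r, hr, rfl⟩ _ ⟨r', hr', rfl⟩
        have b1 := K_rad hK hH hr0.2.1 hr.1 hr.2 t
        have b2 := K_rad hK hH hr0.2.1 hr'.1 hr'.2 t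
        rw [dist_eq_norm]
        have e : K (pt r t) - K (pt r' t) = (K (pt r t) - K (pt r0 t)) -
          (K (pt r' t) - K (pt r0 t)) := by ring
        rw [e]
        refine (norm_sub_le _ _).trans_lt ?_
        linarith [hr0.1]
    obtain ⟨L, hL⟩ := cauchy_map_iff_exists_tendsto.mp hc
    exact ⟨L, hL⟩
  choose L hL using hlim
  have hLK : ∀ (r t : ℝ), 1 / 2 ≤ r → r < 1 → ‖L t - K (pt r t)‖ ≤ 48 * √(1 - r) := by
    intro r t h0 h1
    have h2 : Tendsto (fun r' : ℝ => ‖K (pt r' t) - K (pt r t)‖) (𝓝[<] 1)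
        (𝓝 ‖L t - K (pt r t)‖) := ((hL t).sub_const _).norm
    refine le_of_tendsto h2 ?_
    filter_upwards [Ico_mem_nhdsLT h1] with r' hr'
    exact K_rad hK hH h0 hr'.1 hr'.2 t
  refine ⟨fun t => L t + (t : ℂ) * H 0, ?_, ?_⟩
  · intro r h0 h1 a b hab _
    rw [K_int hK hH (by linarith) h1 a b]
    have e : K (pt r b) - K (pt r a) + ((b - a : ℝ) : ℂ) * H 0 -
        (L b + (b : ℂ) * H 0 - (L a + (a : ℂ) * H 0)) =
        (L a - K (pt r a)) - (L b - K (pt r b)) := by push_cast; ring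
    rw [e]
    refine (norm_sub_le _ _).trans ?_
    have := hLK r a h0 h1
    have := hLK r b h0 h1
    have : 0 ≤ √(1 - r) := Real.sqrt_nonneg _
    linarith
  · intro a b hab hb
    -- the radius
    set r : ℝ := max (1 / 2) (1 - (b - a) / (2 * Real.pi)) with hr
    set r0 : ℝ := 1 - (b - a) / (2 * Real.pi) with hr0
    have hba : 0 < b - a := by linarith
    have hr00 : 0 ≤ r0 := by
      rw [hr0, sub_nonneg, div_le_one (by positivity)]
      linarith
    have hr01 : r0 < 1 := by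
      rw [hr0]
      have : 0 < (b - a) / (2 * Real.pi) := by positivity
      linarith
    have h0 : 1 / 2 ≤ r := le_max_left _ _
    have h1 : r < 1 := max_lt (by norm_num) hr01
    have hrr : r0 ≤ r := le_max_right _ _
    have hlen : b - a = 2 * Real.pi * (1 - r0) := by
      rw [hr0]; field_simp; ring
    have hcmp : 1 - r0 ≤ 2 * (1 - r) := by
      rw [hr]
      rcases le_total (1 / 2 : ℝ) (1 - (b - a) / (2 * Real.pi)) with h | h
      · rw [max_eq_right h]; linarith
      · rw [max_eq_left h]; linarith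
    have hb4 : b - a ≤ 4 * Real.pi * (1 - r) := by
      rw [hlen]
      nlinarith
    -- the boundary values
    have q1 : ‖(L b - L a) - (K (pt r b) - K (pt r a))‖ ≤ 500 * (1 - r) := by
      have h2 : Tendsto (fun r' : ℝ => ‖(K (pt r' b) - K (pt r' a)) -
          (K (pt r b) - K (pt r a))‖) (𝓝[<] 1)
          (𝓝 ‖(L b - L a) - (K (pt r b) - K (pt r a))‖) :=
        (((hL b).sub (hL a)).sub_const _).norm
      refine le_of_tendsto h2 ?_
      filter_upwards [Ico_mem_nhdsLT h1] with r' hr'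
      exact K_quad hK hH h0 hr'.1 hr'.2 hab.le hb4
    -- the arc of radius `r`
    have q2 : ‖(∫ t in a..b, H (pt r t)) - ((b - a : ℝ) : ℂ) * H (pt r a)‖ ≤ 101 * (b - a) := by
      have hcont : Continuous fun t : ℝ => H (pt r t) := by
        rw [continuous_iff_continuousAt]
        intro t
        have h3 : HasDerivAt H (deriv H (pt r t)) (pt r t) :=
          (hH.1.differentiableAt (isOpen_ball.mem_nhds (pt_mem (by linarith) h1 t))).hasDerivAt
        exact (h3.comp_of_eq t (pt_deriv_t r t) rfl).continuousAt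
      have e : (∫ t in a..b, H (pt r t)) - ((b - a : ℝ) : ℂ) * H (pt r a) =
          ∫ t in a..b, (H (pt r t) - H (pt r a)) := by
        rw [intervalIntegral.integral_sub (hcont.intervalIntegrable a b)
          (continuous_const.intervalIntegrable a b), intervalIntegral.integral_const,
          Complex.real_smul]
      rw [e]
      have h2 := intervalIntegral.norm_integral_le_of_norm_le_const (a := a) (b := b)
        (f := fun t => H (pt r t) - H (pt r a)) (C := 101) (by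
          intro t ht
          rw [uIoc_of_le hab.le] at ht
          refine (ang hH (by linarith) h1 ht.1.le).trans ?_
          rw [div_le_iff₀ (by linarith)]
          have : t - a ≤ b - a := by linarith [ht.2]
          nlinarith)
      rw [abs_of_pos hba] at h2
      exact h2
    have q3 : ‖H (pt r a) - H (pt r0 a)‖ ≤ 24 := by
      have h2 := rad hH hr00 hrr h1 a
      refine h2.trans ?_
      rw [div_le_iff₀ (Real.sqrt_pos.mpr (by linarith))]
      have h3 : √(1 - r0) ≤ √(4 * (1 - r)) := Real.sqrt_le_sqrt (by linarith)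
      have h4 : √(4 * (1 - r)) = 2 * √(1 - r) := by
        rw [Real.sqrt_mul (by norm_num), show (4 : ℝ) = 2 ^ 2 by norm_num,
          Real.sqrt_sq (by norm_num)]
      rw [h4] at h3
      linarith
    rw [K_int hK hH (by linarith) h1 a b] at q2
    have e : L b + (b : ℂ) * H 0 - (L a + (a : ℂ) * H 0) - ((b - a : ℝ) : ℂ) * H (pt r0 a) =
        ((L b - L a) - (K (pt r b) - K (pt r a))) +
        (K (pt r b) - K (pt r a) + ((b - a : ℝ) : ℂ) * H 0 - ((b - a : ℝ) : ℂ) * H (pt r a)) +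
        ((b - a : ℝ) : ℂ) * (H (pt r a) - H (pt r0 a)) := by push_cast; ring
    show ‖L b + (b : ℂ) * H 0 - (L a + (a : ℂ) * H 0) - ((b - a : ℝ) : ℂ) * H (pt r0 a)‖ ≤ _
    rw [e]
    refine (norm_add₃_le).trans ?_
    rw [norm_mul, Complex.norm_real, Real.norm_of_nonneg hba.le]
    have q4 : 500 * (1 - r) ≤ 500 * (b - a) := by
      have : 1 - r ≤ 1 - r0 := by linarith
      rw [hlen]
      nlinarith
    nlinarith

end Pool.Agent.N673.TW.Prim
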