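import Pool.Agent.N673.TW.Stm2

/-!
# TW/SLLN: strong law of large numbers on the dyadic tree (helper170 for helper673)
-/

set_option autoImplicit false

open MeasureTheory Set Filter Topology
open scoped ENNReal

namespace Pool.Agent.N673.TW.Slln

open Pool.Agent.N673.TW

/-- the difference at the level `m`, as a function of the index `i` at the level `M` -/
noncomputable def z (q : ℕ) (Y : ℕ → ℕ → ℝ) (M m i : ℕ) : ℝ :=
  Y m (i / 2 ^ (M - (m + q))) -
    (∑ s ∈ Finset.range (2 ^ q), Y m (2 ^ q * (i / 2 ^ (M - m)) + s)) / 2 ^ q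

lemma avg_bd {q : ℕ} {Y : ℕ → ℕ → ℝ} (hY : ∀ m s : ℕ, |Y m s| ≤ 1) (m j : ℕ) :
    |(∑ s ∈ Finset.range (2 ^ q), Y m (j + s)) / 2 ^ q| ≤ 1 := by
  rw [abs_div, abs_of_pos (by positivity : (0 : ℝ) < 2 ^ q), div_le_one (by positivity)]
  refine (Finset.abs_sum_le_sum_abs _ _).trans ?_
  refine (Finset.sum_le_sum fun s _ => hY m (j + s)).trans ?_
  simp

lemma z_bd {q : ℕ} {Y : ℕ → ℕ → ℝ} (hY : ∀ m s : ℕ, |Y m s| ≤ 1) (M m i : ℕ) :
    |z q Y M m i| ≤ 2 := by
  unfold z
  refine (abs_sub _ _).trans ?_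
  have h1 := hY m (i / 2 ^ (M - (m + q)))
  have h2 := avg_bd (q := q) hY m (2 ^ q * (i / 2 ^ (M - m)))
  linarith

lemma sum_mul (f : ℕ → ℝ) (a b : ℕ) :
    ∑ i ∈ Finset.range (a * b), f i =
      ∑ x ∈ Finset.range a, ∑ y ∈ Finset.range b, f (b * x + y) := by
  induction a with
  | zero => simp
  | succ a ih =>
    rw [Nat.succ_mul, Finset.sum_range_add, ih, Finset.sum_range_succ, mul_comm a b]

lemma block_zero (q : ℕ) (Y : ℕ → ℕ → ℝ) {M m : ℕ} (h : m + q ≤ M) (a : ℕ) :
    ∑ y ∈ Finset.range (2 ^ (M - m)), z q Y M m (2 ^ (M - m) * a + y) = 0 := by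
  set r : ℕ := 2 ^ (M - (m + q)) with hr
  have hr0 : 0 < r := by positivity
  have e0 : 2 ^ (M - m) = 2 ^ q * r := by
    rw [hr, ← pow_add]
    congr 1
    omega
  rw [e0, sum_mul]
  have key : ∀ s ∈ Finset.range (2 ^ q), ∀ c ∈ Finset.range r,
      z q Y M m (2 ^ q * r * a + (r * s + c)) = Y m (2 ^ q * a + s) -
        (∑ s' ∈ Finset.range (2 ^ q), Y m (2 ^ q * a + s')) / 2 ^ q := by
    intro s hs c hc
    rw [Finset.mem_range] at hs hc
    unfold z
    rw [e0, ← hr]
    have h1 : (2 ^ q * r * a + (r * s + c)) / r = 2 ^ q * a + s := by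
      rw [show 2 ^ q * r * a + (r * s + c) = c + r * (2 ^ q * a + s) by ring,
        Nat.add_mul_div_left _ _ hr0, Nat.div_eq_of_lt hc, zero_add]
    have h2 : (2 ^ q * r * a + (r * s + c)) / (2 ^ q * r) = a := by
      have h3 : r * s + c < 2 ^ q * r := by
        calc r * s + c < r * s + r := by omega
          _ = r * (s + 1) := by ring
          _ ≤ r * 2 ^ q := by gcongr; omega
          _ = 2 ^ q * r := by ring
      rw [add_comm, Nat.add_mul_div_left _ _ (by positivity), Nat.div_eq_of_lt h3, zero_add]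
    rw [h1, h2]
  rw [Finset.sum_congr rfl fun s hs => Finset.sum_congr rfl fun c hc => key s hs c hc]
  simp only [Finset.sum_const, Finset.card_range, nsmul_eq_mul]
  rw [← Finset.mul_sum, Finset.sum_sub_distrib, Finset.sum_const, Finset.card_range,
    nsmul_eq_mul]
  push_cast
  rw [mul_div_cancel₀ _ (by positivity : (2 : ℝ) ^ q ≠ 0)]
  ring

lemma ortho (q : ℕ) (Y : ℕ → ℕ → ℝ) {M m m' : ℕ} (h : m + q ≤ m') (h' : m' + q ≤ M) :
    ∑ i ∈ Finset.range (2 ^ M), z q Y M m i * z q Y M m' i = 0 := by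
  have e0 : 2 ^ M = 2 ^ m' * 2 ^ (M - m') := by
    rw [← pow_add]
    congr 1
    omega
  rw [e0, sum_mul]
  refine Finset.sum_eq_zero fun a _ => ?_
  have key : ∀ y ∈ Finset.range (2 ^ (M - m')), z q Y M m (2 ^ (M - m') * a + y) =
      z q Y M m (2 ^ (M - m') * a) := by
    intro y hy
    rw [Finset.mem_range] at hy
    have hdiv : ∀ k : ℕ, M - m' ≤ k → (2 ^ (M - m') * a + y) / 2 ^ k =
        (2 ^ (M - m') * a) / 2 ^ k := by
      intro k hk
      have e1 : 2 ^ k = 2 ^ (M - m') * 2 ^ (k - (M - m')) := by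
        rw [← pow_add]
        congr 1
        omega
      rw [e1, ← Nat.div_div_eq_div_mul, ← Nat.div_div_eq_div_mul,
        Nat.mul_div_cancel_left _ (by positivity), add_comm,
        Nat.add_mul_div_left _ _ (by positivity), Nat.div_eq_of_lt hy, zero_add]
    unfold z
    rw [hdiv _ (by omega), hdiv _ (by omega)]
  rw [Finset.sum_congr rfl fun y hy => by rw [key y hy], ← Finset.mul_sum,
    block_zero q Y h', mul_zero]

lemma sumsq {q : ℕ} {Y : ℕ → ℕ → ℝ} (hY : ∀ m s : ℕ, |Y m s| ≤ 1) {N M : ℕ} (h : N + q ≤ M) :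
    ∑ i ∈ Finset.range (2 ^ M), (∑ m ∈ Finset.range N, z q Y M m i) ^ 2 ≤
      2 ^ M * (8 * q * N) := by
  have e1 : ∑ i ∈ Finset.range (2 ^ M), (∑ m ∈ Finset.range N, z q Y M m i) ^ 2 =
      ∑ m ∈ Finset.range N, ∑ m' ∈ Finset.range N, ∑ i ∈ Finset.range (2 ^ M),
        z q Y M m i * z q Y M m' i := by
    simp_rw [sq, Finset.sum_mul_sum]
    rw [Finset.sum_comm]
    refine Finset.sum_congr rfl fun m _ => ?_
    rw [Finset.sum_comm]
  have e2 : ∀ m ∈ Finset.range N, ∀ m' ∈ Finset.range N, ∑ i ∈ Finset.range (2 ^ M),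
      z q Y M m i * z q Y M m' i ≤ if m' ∈ Finset.Ico (m + 1 - q) (m + q) then 4 * 2 ^ M else 0 := by
    intro m hm m' hm'
    rw [Finset.mem_range] at hm hm'
    split_ifs with hc
    · calc ∑ i ∈ Finset.range (2 ^ M), z q Y M m i * z q Y M m' i
          ≤ ∑ i ∈ Finset.range (2 ^ M), (4 : ℝ) := by
            refine Finset.sum_le_sum fun i _ => ?_
            have h1 := z_bd (q := q) hY M m i
            have h2 := z_bd (q := q) hY M m' i
            calc z q Y M m i * z q Y M m' i ≤ |z q Y M m i * z q Y M m' i| := le_abs_self _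
              _ = |z q Y M m i| * |z q Y M m' i| := abs_mul _ _
              _ ≤ 2 * 2 := mul_le_mul h1 h2 (abs_nonneg _) zero_le_two
              _ = 4 := by norm_num
        _ = 4 * 2 ^ M := by simp [mul_comm]
    · rw [Finset.mem_Ico, not_and_or, not_le, not_lt] at hc
      rcases hc with hc | hc
      · have : ∑ i ∈ Finset.range (2 ^ M), z q Y M m i * z q Y M m' i = 0 := by
          rw [Finset.sum_congr rfl fun i _ => mul_comm _ _]
          exact ortho q Y (by omega) (by omega)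
        exact this.le
      · exact (ortho q Y hc (by omega)).le
  rw [e1]
  calc _ ≤ ∑ m ∈ Finset.range N, ∑ m' ∈ Finset.range N,
        (if m' ∈ Finset.Ico (m + 1 - q) (m + q) then (4 * 2 ^ M : ℝ) else 0) :=
        Finset.sum_le_sum fun m hm => Finset.sum_le_sum fun m' hm' => e2 m hm m' hm'
    _ ≤ ∑ m ∈ Finset.range N, (2 * q * (4 * 2 ^ M : ℝ)) := by
        refine Finset.sum_le_sum fun m _ => ?_
        rw [← Finset.sum_filter, Finset.sum_const, nsmul_eq_mul]
        have hc : ((Finset.range N).filter fun m' => m' ∈ Finset.Ico (m + 1 - q) (m + q)).card ≤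
            2 * q := by
          refine (Finset.card_le_card (t := Finset.Ico (m + 1 - q) (m + q)) ?_).trans ?_
          · intro x hx
            exact (Finset.mem_filter.1 hx).2
          · rw [Nat.card_Ico]
            omega
        have hc' : (((Finset.range N).filter fun m' => m' ∈ Finset.Ico (m + 1 - q) (m + q)).card : ℝ)
            ≤ 2 * q := by exact_mod_cast hc
        gcongr
    _ = _ := by
        rw [Finset.sum_const, Finset.card_range, nsmul_eq_mul]
        ring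

/-! ### the indices -/

lemma idx_div {n M : ℕ} (h : n ≤ M) (θ : ℝ) : idx n θ = idx M θ / 2 ^ (M - n) := by
  unfold idx
  have e1 : θ * 2 ^ n / (2 * Real.pi) = θ * 2 ^ M / (2 * Real.pi) / ((2 ^ (M - n) : ℕ) : ℝ) := by
    have : (2 : ℝ) ^ M = 2 ^ n * 2 ^ (M - n) := by
      rw [← pow_add]
      congr 1
      omega
    rw [this]
    push_cast
    have hpi := Real.pi_pos
    field_simp
  rw [e1, Nat.floor_div_natCast]

lemma idx_meas (n : ℕ) : Measurable (idx n) := by
  unfold idx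
  exact Nat.measurable_floor.comp (by fun_prop)

lemma mem_arc (M : ℕ) {θ : ℝ} (h : 0 ≤ θ) : θ ∈ arc M (idx M θ) := by
  have hpi := Real.pi_pos
  unfold arc idx
  have h0 : 0 ≤ θ * 2 ^ M / (2 * Real.pi) := by positivity
  have h1 := Nat.floor_le h0
  have h2 := Nat.lt_floor_add_one (θ * 2 ^ M / (2 * Real.pi))
  rw [le_div_iff₀ (by positivity)] at h1
  rw [div_lt_iff₀ (by positivity)] at h2
  constructor
  · rw [div_le_iff₀ (by positivity)]
    linarith
  · rw [lt_div_iff₀ (by positivity)]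
    linarith

lemma idx_lt (M : ℕ) {θ : ℝ} (h : θ ∈ Ico (0 : ℝ) (2 * Real.pi)) : idx M θ < 2 ^ M := by
  have hpi := Real.pi_pos
  unfold idx
  rw [Nat.floor_lt (by have := h.1; positivity), div_lt_iff₀ (by positivity)]
  push_cast
  have := h.2
  have h2 : (0 : ℝ) < 2 ^ M := by positivity
  nlinarith

lemma lint_le (M : ℕ) (G : ℕ → ℝ≥0∞) :
    ∫⁻ θ in Ico (0 : ℝ) (2 * Real.pi), G (idx M θ) ≤
      ∑ i ∈ Finset.range (2 ^ M), G i * ENNReal.ofReal (2 * Real.pi / 2 ^ M) := by
  calc ∫⁻ θ in Ico (0 : ℝ) (2 * Real.pi), G (idx M θ)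
      ≤ ∫⁻ θ in Ico (0 : ℝ) (2 * Real.pi), ∑ i ∈ Finset.range (2 ^ M),
        (arc M i).indicator (fun _ => G i) θ := by
        refine setLIntegral_mono' measurableSet_Ico fun θ hθ => ?_
        have h1 : (arc M (idx M θ)).indicator (fun _ => G (idx M θ)) θ = G (idx M θ) :=
          indicator_of_mem (mem_arc M hθ.1) _
        have h2 := Finset.single_le_sum (f := fun i => (arc M i).indicator (fun _ => G i) θ)
          (s := Finset.range (2 ^ M)) (fun i _ => bot_le) (Finset.mem_range.2 (idx_lt M hθ))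
        rw [← h1]
        exact h2
    _ ≤ ∫⁻ θ, ∑ i ∈ Finset.range (2 ^ M), (arc M i).indicator (fun _ => G i) θ :=
        setLIntegral_le_lintegral _ _
    _ = ∑ i ∈ Finset.range (2 ^ M), G i * ENNReal.ofReal (2 * Real.pi / 2 ^ M) := by
        rw [lintegral_finsetSum _ fun i _ => ?_]
        · refine Finset.sum_congr rfl fun i _ => ?_
          rw [lintegral_indicator (by unfold arc; exact measurableSet_Ico), setLIntegral_const]
          congr 1
          unfold arc
          rw [Real.volume_Ico]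
          congr 1
          ring
        · exact measurable_const.indicator (by unfold arc; exact measurableSet_Ico)

/-- the sum in the statement -/
noncomputable def SS (q : ℕ) (Y : ℕ → ℕ → ℝ) (N : ℕ) (θ : ℝ) : ℝ :=
  ∑ m ∈ Finset.range N, (Y m (idx (m + q) θ) -
      (∑ s ∈ Finset.range (2 ^ q), Y m (2 ^ q * idx m θ + s)) / 2 ^ q)

lemma SS_eq (q : ℕ) (Y : ℕ → ℕ → ℝ) (N : ℕ) (θ : ℝ) :
    SS q Y N θ = ∑ m ∈ Finset.range N, z q Y (N + q) m (idx (N + q) θ) := by
  unfold SS z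
  refine Finset.sum_congr rfl fun m hm => ?_
  rw [Finset.mem_range] at hm
  rw [idx_div (show m + q ≤ N + q by omega) θ, idx_div (show m ≤ N + q by omega) θ]

lemma SS_meas (q : ℕ) (Y : ℕ → ℕ → ℝ) (N : ℕ) : Measurable (SS q Y N) := by
  have : SS q Y N = (fun i => ∑ m ∈ Finset.range N, z q Y (N + q) m i) ∘ idx (N + q) := by
    funext θ
    exact SS_eq q Y N θ
  rw [this]
  exact measurable_from_nat.comp (idx_meas _)

lemma SS_lint {q : ℕ} {Y : ℕ → ℕ → ℝ} (hY : ∀ m s : ℕ, |Y m s| ≤ 1) (N : ℕ) :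
    ∫⁻ θ in Ico (0 : ℝ) (2 * Real.pi), ENNReal.ofReal (SS q Y N θ ^ 2) ≤
      ENNReal.ofReal (16 * Real.pi * q * N) := by
  have hpi := Real.pi_pos
  simp_rw [SS_eq]
  refine (lint_le (N + q) fun i => ENNReal.ofReal
    ((∑ m ∈ Finset.range N, z q Y (N + q) m i) ^ 2)).trans ?_
  rw [← Finset.sum_mul, ← ENNReal.ofReal_sum_of_nonneg fun i _ => sq_nonneg _,
    ← ENNReal.ofReal_mul (Finset.sum_nonneg fun i _ => sq_nonneg _)]
  refine ENNReal.ofReal_le_ofReal ?_
  have := sumsq hY (le_refl (N + q))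
  calc _ ≤ 2 ^ (N + q) * (8 * q * N) * (2 * Real.pi / 2 ^ (N + q)) := by gcongr
    _ = 16 * Real.pi * q * N := by field_simp; ring

lemma SS_step {q : ℕ} {Y : ℕ → ℕ → ℝ} (hY : ∀ m s : ℕ, |Y m s| ≤ 1) (θ : ℝ) {a b : ℕ}
    (h : a ≤ b) : |SS q Y b θ - SS q Y a θ| ≤ 2 * (b - a) := by
  unfold SS
  rw [← Finset.sum_Ico_eq_sub _ h]
  refine (Finset.abs_sum_le_sum_abs _ _).trans ?_
  calc _ ≤ ∑ m ∈ Finset.Ico a b, (2 : ℝ) := by
        refine Finset.sum_le_sum fun m _ => ?_
        refine (abs_sub _ _).trans ?_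
        have h1 := hY m (idx (m + q) θ)
        have h2 := avg_bd (q := q) hY m (2 ^ q * idx m θ)
        linarith
    _ = 2 * (b - a) := by
        rw [Finset.sum_const, Nat.card_Ico, nsmul_eq_mul, Nat.cast_sub h]
        ring

theorem t : S_SLLN := by
  intro q Y hY
  have hpi := Real.pi_pos
  -- the series of the squares along the squares
  have hfin : ∫⁻ θ in Ico (0 : ℝ) (2 * Real.pi), ∑' k : ℕ,
      ENNReal.ofReal ((SS q Y ((k + 1) ^ 2) θ / (k + 1) ^ 2) ^ 2) ≠ ∞ := by
    rw [lintegral_tsum fun k => ?_]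
    · have hb : ∀ k : ℕ, ∫⁻ θ in Ico (0 : ℝ) (2 * Real.pi),
          ENNReal.ofReal ((SS q Y ((k + 1) ^ 2) θ / (k + 1) ^ 2) ^ 2) ≤
          ENNReal.ofReal (16 * Real.pi * q * (1 / ((k : ℝ) + 1) ^ 2)) := by
        intro k
        have e : ∀ θ, ENNReal.ofReal ((SS q Y ((k + 1) ^ 2) θ / (k + 1) ^ 2) ^ 2) =
            ENNReal.ofReal (1 / ((k : ℝ) + 1) ^ 4) *
              ENNReal.ofReal (SS q Y ((k + 1) ^ 2) θ ^ 2) := by
          intro θ
          rw [← ENNReal.ofReal_mul (by positivity)]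
          congr 1
          field_simp
        simp_rw [e]
        rw [lintegral_const_mul _ ((SS_meas q Y _).pow_const 2).ennreal_ofReal]
        calc _ ≤ ENNReal.ofReal (1 / ((k : ℝ) + 1) ^ 4) *
              ENNReal.ofReal (16 * Real.pi * q * ((k + 1) ^ 2 : ℕ)) := by
              gcongr
              exact SS_lint hY _
          _ = ENNReal.ofReal (16 * Real.pi * q * (1 / ((k : ℝ) + 1) ^ 2)) := by
              rw [← ENNReal.ofReal_mul (by positivity)]
              congr 1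
              push_cast
              field_simp
      refine ne_of_lt (lt_of_le_of_lt (ENNReal.tsum_le_tsum hb) ?_)
      have hs : Summable fun k : ℕ => 16 * Real.pi * q * (1 / ((k : ℝ) + 1) ^ 2) := by
        refine Summable.mul_left _ ?_
        have h1 : Summable fun k : ℕ => 1 / (k : ℝ) ^ 2 := Real.summable_one_div_nat_pow.2 one_lt_two
        have h2 := (summable_nat_add_iff 1).2 h1
        simpa using h2
      rw [← ENNReal.ofReal_tsum_of_nonneg (fun k => by positivity) hs]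
      exact ENNReal.ofReal_lt_top
    · exact (((SS_meas q Y _).div_const _).pow_const 2).ennreal_ofReal.aemeasurable
  have hae := ae_lt_top' (by
    refine AEMeasurable.tsum fun k => ?_
    exact (((SS_meas q Y _).div_const _).pow_const 2).ennreal_ofReal.aemeasurable) hfin
  filter_upwards [hae] with θ hθ η hη
  have h0 := ENNReal.tendsto_atTop_zero_of_tsum_ne_top hθ.ne
  have h1 : ∀ᶠ k : ℕ in atTop, ENNReal.ofReal ((SS q Y ((k + 1) ^ 2) θ / (k + 1) ^ 2) ^ 2) <
      ENNReal.ofReal ((η / 2) ^ 2) :=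
    h0.eventually (gt_mem_nhds (ENNReal.ofReal_pos.2 (by positivity)))
  obtain ⟨k0, hk0⟩ := eventually_atTop.1 h1
  obtain ⟨k1, hk1⟩ := exists_nat_ge (8 / η)
  filter_upwards [eventually_ge_atTop ((max k0 k1 + 1) ^ 2)] with N hN
  -- the square root of `N`
  set k := Nat.sqrt N with hk
  have hkN : max k0 k1 + 1 ≤ k := by
    rw [hk, Nat.le_sqrt']
    exact hN
  have hsq : k ^ 2 ≤ N := Nat.sqrt_le' N
  have hsq2 : N < (k + 1) ^ 2 := Nat.lt_succ_sqrt' N
  have hle : N ≤ k ^ 2 + 2 * k := by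
    have : (k + 1) ^ 2 = k ^ 2 + 2 * k + 1 := by ring
    omega
  obtain ⟨j, hj⟩ : ∃ j, k = j + 1 := ⟨k - 1, by omega⟩
  have hj0 : k0 ≤ j := by
    have := le_max_left k0 k1
    omega
  have h2 := hk0 j hj0
  rw [ENNReal.ofReal_lt_ofReal_iff (by positivity)] at h2
  have hkR : (k : ℝ) = j + 1 := by rw [hj]; push_cast; ring
  have hkpos : (0 : ℝ) < k := by rw [hkR]; positivity
  have h3 : |SS q Y (k ^ 2) θ| ≤ η / 2 * (k : ℝ) ^ 2 := by
    have h5 : |SS q Y ((j + 1) ^ 2) θ / ((j : ℝ) + 1) ^ 2| ≤ η / 2 :=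
      abs_le_of_sq_le_sq h2.le (by positivity)
    rw [abs_div, div_le_iff₀ (by positivity), abs_of_pos (by positivity :
      (0 : ℝ) < ((j : ℝ) + 1) ^ 2)] at h5
    rw [hj]
    push_cast
    exact h5
  have h6 := SS_step (q := q) hY θ hsq
  have h7 : (N : ℝ) - ((k ^ 2 : ℕ) : ℝ) ≤ 2 * k := by
    have : (N : ℝ) ≤ k ^ 2 + 2 * k := by exact_mod_cast hle
    push_cast
    linarith
  have h8 : 8 ≤ η * k := by
    have : (k1 : ℝ) ≤ k := by
      have := le_max_right k0 k1
      exact_mod_cast (by omega : k1 ≤ k)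
    have h9 : 8 / η ≤ k := hk1.trans this
    rw [div_le_iff₀ hη] at h9
    linarith
  have h10 : |SS q Y N θ| ≤ |SS q Y (k ^ 2) θ| + |SS q Y N θ - SS q Y (k ^ 2) θ| := by
    have := abs_add_le (SS q Y (k ^ 2) θ) (SS q Y N θ - SS q Y (k ^ 2) θ)
    rwa [add_sub_cancel] at this
  have h11 : (k : ℝ) ^ 2 ≤ N := by exact_mod_cast hsq
  change |SS q Y N θ| ≤ η * N
  nlinarith

end Pool.Agent.N673.TW.Slln
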