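import Pool.Agent.N673.TW.Stm2

set_option autoImplicit false

/-!
# TW/VAR, part C (helper128): the derivative from the real parts on a circle
-/

open Complex Filter Topology Metric Set MeasureTheory

namespace Pool.Agent.N673.TW.Var

/-- the kernel -/
noncomputable def K (ρ : ℝ) (z : ℂ) (t : ℝ) : ℂ := circleMap 0 ρ t / (circleMap 0 ρ t - z) ^ 2

/-- the derivative of the kernel -/
noncomputable def K' (ρ : ℝ) (z : ℂ) (t : ℝ) : ℂ :=
  -(I * circleMap 0 ρ t * (circleMap 0 ρ t + z)) / (circleMap 0 ρ t - z) ^ 3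

variable {ρ : ℝ} {z : ℂ}

theorem ne_z (hz : ‖z‖ < ρ) (t : ℝ) : circleMap 0 ρ t - z ≠ 0 := by
  intro h
  have h1 : circleMap 0 ρ t = z := sub_eq_zero.1 h
  have h2 : ‖circleMap 0 ρ t‖ = |ρ| := norm_circleMap_zero ρ t
  have h3 : 0 ≤ ‖z‖ := norm_nonneg z
  rw [h1, abs_of_nonneg (by linarith)] at h2
  linarith

theorem hasDeriv_K (hz : ‖z‖ < ρ) (t : ℝ) : HasDerivAt (K ρ z) (K' ρ z t) t := by
  have h0 := ne_z hz t
  have h1 := hasDerivAt_circleMap 0 ρ t
  have h2 := h1.div ((h1.sub_const z).pow 2) (pow_ne_zero 2 h0)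
  refine h2.congr_deriv ?_
  unfold K'
  simp only [Pi.pow_apply]
  field_simp
  ring

theorem cont_K (hz : ‖z‖ < ρ) : Continuous (K ρ z) :=
  continuous_iff_continuousAt.2 fun t => (hasDeriv_K hz t).continuousAt

theorem cont_K' (hz : ‖z‖ < ρ) : Continuous (K' ρ z) := by
  unfold K'
  have hc := continuous_circleMap 0 ρ
  exact ((continuous_const.mul hc).mul (hc.add continuous_const)).neg.div
    ((hc.sub continuous_const).pow 3) fun t => pow_ne_zero 3 (ne_z hz t)

theorem cont_F {F : ℂ → ℂ} (hF : DifferentiableOn ℂ F (ball 0 1)) (hρ : 0 < ρ) (hρ1 : ρ < 1) :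
    Continuous fun t : ℝ => F (circleMap 0 ρ t) := by
  apply hF.continuousOn.comp_continuous (continuous_circleMap 0 ρ)
  intro t
  rw [mem_ball_zero_iff, norm_circleMap_zero, abs_of_pos hρ]
  exact hρ1

theorem rep1 {F : ℂ → ℂ} (hF : DifferentiableOn ℂ F (ball 0 1)) (hρ : 0 < ρ) (hρ1 : ρ < 1)
    (hz : ‖z‖ < ρ) :
    ∫ t in (0 : ℝ)..2 * Real.pi, K ρ z t * F (circleMap 0 ρ t) = 2 * Real.pi * deriv F z := by
  have hz1 : z ∈ ball (0 : ℂ) 1 := by rw [mem_ball_zero_iff]; linarith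
  have hzρ : z ∈ ball (0 : ℂ) ρ := by rw [mem_ball_zero_iff]; exact hz
  have hd : DifferentiableOn ℂ (dslope F z) (ball 0 1) :=
    (Complex.differentiableOn_dslope (isOpen_ball.mem_nhds hz1)).2 hF
  have hsub : closedBall (0 : ℂ) ρ ⊆ ball 0 1 := closedBall_subset_ball hρ1
  have h1 : (∮ w in C(0, ρ), (w - z)⁻¹ • dslope F z w) = (2 * Real.pi * I : ℂ) • dslope F z z := by
    apply DiffContOnCl.circleIntegral_sub_inv_smul _ hzρ
    exact (hd.mono hsub).diffContOnCl_ball Subset.rfl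
  have h2 : (∮ w in C(0, ρ), (w - z) ^ (-2 : ℤ)) = 0 :=
    circleIntegral.integral_sub_zpow_of_ne (by norm_num) 0 z ρ
  have hI : ∀ f : ℝ → ℂ, Continuous f → IntervalIntegrable f volume 0 (2 * Real.pi) :=
    fun f hf => hf.intervalIntegrable _ _
  have hc := continuous_circleMap 0 ρ
  have hcd : Continuous fun t : ℝ => dslope F z (circleMap 0 ρ t) := cont_F hd hρ hρ1
  rw [circleIntegral_def_Icc] at h1 h2
  have e1 : (∫ t in Set.Icc (0 : ℝ) (2 * Real.pi), deriv (circleMap 0 ρ) t •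
      (circleMap 0 ρ t - z)⁻¹ • dslope F z (circleMap 0 ρ t)) =
      ∫ t in (0 : ℝ)..2 * Real.pi, I * (circleMap 0 ρ t * ((circleMap 0 ρ t - z)⁻¹ *
        dslope F z (circleMap 0 ρ t))) := by
    rw [intervalIntegral.integral_of_le (by positivity), integral_Icc_eq_integral_Ioc]
    congr 1
    ext t
    simp only [deriv_circleMap, smul_eq_mul]
    ring
  have e2 : (∫ t in Set.Icc (0 : ℝ) (2 * Real.pi), deriv (circleMap 0 ρ) t •
      (circleMap 0 ρ t - z) ^ (-2 : ℤ)) =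
      ∫ t in (0 : ℝ)..2 * Real.pi, I * (circleMap 0 ρ t * ((circleMap 0 ρ t - z) ^ 2)⁻¹) := by
    rw [intervalIntegral.integral_of_le (by positivity), integral_Icc_eq_integral_Ioc]
    congr 1
    ext t
    simp only [deriv_circleMap, smul_eq_mul]
    rw [zpow_neg]
    norm_cast
    ring
  rw [e1, intervalIntegral.integral_const_mul] at h1
  rw [e2, intervalIntegral.integral_const_mul] at h2
  have h3 : ∫ t in (0 : ℝ)..2 * Real.pi, circleMap 0 ρ t * ((circleMap 0 ρ t - z)⁻¹ *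
        dslope F z (circleMap 0 ρ t)) = 2 * Real.pi * deriv F z := by
    rw [dslope_same, smul_eq_mul] at h1
    apply mul_left_cancel₀ I_ne_zero
    rw [h1]
    ring
  have h4 : ∫ t in (0 : ℝ)..2 * Real.pi, circleMap 0 ρ t * ((circleMap 0 ρ t - z) ^ 2)⁻¹ = 0 := by
    rcases mul_eq_zero.1 h2 with h | h
    · exact absurd h I_ne_zero
    · exact h
  have h5 : ∀ t : ℝ, K ρ z t * F (circleMap 0 ρ t) =
      circleMap 0 ρ t * ((circleMap 0 ρ t - z)⁻¹ * dslope F z (circleMap 0 ρ t)) +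
      (circleMap 0 ρ t * ((circleMap 0 ρ t - z) ^ 2)⁻¹) * F z := by
    intro t
    have h0 := ne_z hz t
    have h6 : circleMap 0 ρ t ≠ z := sub_ne_zero.1 h0
    rw [dslope_of_ne _ h6, slope_def_field]
    unfold K
    field_simp
    ring
  simp_rw [h5]
  have hcz : Continuous fun t : ℝ => circleMap 0 ρ t * ((circleMap 0 ρ t - z)⁻¹ *
        dslope F z (circleMap 0 ρ t)) :=
    hc.mul (((hc.sub continuous_const).inv₀ (ne_z hz)).mul hcd)
  have hcz2 : Continuous fun t : ℝ => circleMap 0 ρ t * ((circleMap 0 ρ t - z) ^ 2)⁻¹ :=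
    hc.mul (((hc.sub continuous_const).pow 2).inv₀ fun t => pow_ne_zero 2 (ne_z hz t))
  have hcz3 : Continuous fun t : ℝ => circleMap 0 ρ t * ((circleMap 0 ρ t - z) ^ 2)⁻¹ * F z :=
    hcz2.mul continuous_const
  rw [intervalIntegral.integral_add (hI _ hcz) (hI _ hcz3),
    intervalIntegral.integral_mul_const, h3, h4]
  ring

theorem rep2 {F : ℂ → ℂ} (hF : DifferentiableOn ℂ F (ball 0 1)) (hρ : 0 < ρ) (hρ1 : ρ < 1)
    (hz : ‖z‖ < ρ) :
    ∫ t in (0 : ℝ)..2 * Real.pi, K ρ z t * (starRingEnd ℂ) (F (circleMap 0 ρ t)) = 0 := by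
  have hden : ∀ w ∈ closedBall (0 : ℂ) ρ, (ρ : ℂ) ^ 2 - (starRingEnd ℂ) z * w ≠ 0 := by
    intro w hw h
    rw [mem_closedBall_zero_iff] at hw
    have h1 : (ρ : ℂ) ^ 2 = (starRingEnd ℂ) z * w := sub_eq_zero.1 h
    have h2 : ρ ^ 2 = ‖z‖ * ‖w‖ := by
      have := congrArg norm h1
      rw [norm_mul, norm_pow, Complex.norm_real, Real.norm_eq_abs, abs_of_pos hρ,
        RCLike.norm_conj] at this
      exact this
    have h3 : ‖z‖ * ‖w‖ ≤ ‖z‖ * ρ := mul_le_mul_of_nonneg_left hw (norm_nonneg _)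
    nlinarith
  have hsub : closedBall (0 : ℂ) ρ ⊆ ball 0 1 := closedBall_subset_ball hρ1
  have h1 : (∮ w in C(0, ρ), F w / ((ρ : ℂ) ^ 2 - (starRingEnd ℂ) z * w) ^ 2) = 0 := by
    have hd : ∀ w ∈ closedBall (0 : ℂ) ρ,
        DifferentiableAt ℂ (fun w => F w / ((ρ : ℂ) ^ 2 - (starRingEnd ℂ) z * w) ^ 2) w := by
      intro w hw
      have h2 : DifferentiableAt ℂ F w :=
        (hF w (hsub hw)).differentiableAt (isOpen_ball.mem_nhds (hsub hw))
      refine h2.div ?_ (pow_ne_zero 2 (hden w hw))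
      fun_prop
    apply Complex.circleIntegral_eq_zero_of_differentiable_on_off_countable hρ.le
      Set.countable_empty
    · intro w hw
      exact (hd w hw).continuousAt.continuousWithinAt
    · intro w hw
      exact hd w (ball_subset_closedBall hw.1)
  rw [circleIntegral_def_Icc] at h1
  have e1 : (∫ t in Set.Icc (0 : ℝ) (2 * Real.pi), deriv (circleMap 0 ρ) t •
      (F (circleMap 0 ρ t) / ((ρ : ℂ) ^ 2 - (starRingEnd ℂ) z * circleMap 0 ρ t) ^ 2)) =
      ∫ t in (0 : ℝ)..2 * Real.pi, (I / (ρ : ℂ) ^ 2) * (starRingEnd ℂ) (K ρ z t *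
        (starRingEnd ℂ) (F (circleMap 0 ρ t))) := by
    rw [intervalIntegral.integral_of_le (by positivity), integral_Icc_eq_integral_Ioc]
    congr 1
    ext t
    simp only [deriv_circleMap, smul_eq_mul]
    have hw0 : circleMap 0 ρ t ≠ 0 := circleMap_ne_center hρ.ne'
    have hρc : (ρ : ℂ) ≠ 0 := by exact_mod_cast hρ.ne'
    have hwm : circleMap 0 ρ t ∈ closedBall (0 : ℂ) ρ := by
      rw [mem_closedBall_zero_iff, norm_circleMap_zero, abs_of_pos hρ]
    have hd0 := hden _ hwm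
    have hconj : (starRingEnd ℂ) (circleMap 0 ρ t) = (ρ : ℂ) ^ 2 / circleMap 0 ρ t := by
      rw [eq_div_iff hw0, mul_comm, Complex.mul_conj, Complex.normSq_eq_norm_sq,
        norm_circleMap_zero]
      rw [sq_abs]
      push_cast
      rfl
    unfold K
    rw [map_mul, map_div₀, map_pow, map_sub, Complex.conj_conj, hconj]
    have h5 : (ρ : ℂ) ^ 2 / circleMap 0 ρ t - (starRingEnd ℂ) z =
      ((ρ : ℂ) ^ 2 - (starRingEnd ℂ) z * circleMap 0 ρ t) / circleMap 0 ρ t := by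
      field_simp
    rw [h5]
    field_simp
  rw [e1, intervalIntegral.integral_const_mul, intervalIntegral.intervalIntegral_conj] at h1
  have hρc : (ρ : ℂ) ≠ 0 := by exact_mod_cast hρ.ne'
  rcases mul_eq_zero.1 h1 with h | h
  · exact absurd h (div_ne_zero I_ne_zero (pow_ne_zero 2 hρc))
  · exact (map_eq_zero _).1 h

theorem K_per (t : ℝ) : K ρ z (t + 2 * Real.pi) = K ρ z t := by
  unfold K
  rw [periodic_circleMap 0 ρ t]

/-- the derivative from the real parts -/
theorem rep {F : ℂ → ℂ} (hF : DifferentiableOn ℂ F (ball 0 1)) (hρ : 0 < ρ) (hρ1 : ρ < 1)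
    (hz : ‖z‖ < ρ) (θ x : ℝ) :
    ∫ t in (θ - Real.pi)..(θ + Real.pi), K ρ z t * (((F (circleMap 0 ρ t)).re - x : ℝ) : ℂ) =
      Real.pi * deriv F z := by
  have hper : Function.Periodic (fun t : ℝ => K ρ z t * (((F (circleMap 0 ρ t)).re - x : ℝ) : ℂ))
      (2 * Real.pi) := by
    intro t
    simp only
    rw [K_per, periodic_circleMap 0 ρ t]
  have h0 := hper.intervalIntegral_add_eq (θ - Real.pi) 0
  have e0 : θ - Real.pi + 2 * Real.pi = θ + Real.pi := by ring
  rw [e0, zero_add] at h0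
  rw [h0]
  have hI : ∀ f : ℝ → ℂ, Continuous f → IntervalIntegrable f volume 0 (2 * Real.pi) :=
    fun f hf => hf.intervalIntegrable _ _
  have hK := cont_K hz
  have hcF := cont_F hF hρ hρ1
  have e : ∀ t : ℝ, K ρ z t * (((F (circleMap 0 ρ t)).re - x : ℝ) : ℂ) =
      (1 / 2 : ℂ) * (K ρ z t * F (circleMap 0 ρ t)) +
      (1 / 2 : ℂ) * (K ρ z t * (starRingEnd ℂ) (F (circleMap 0 ρ t))) +
      K ρ z t * (fun _ : ℂ => (-x : ℂ)) (circleMap 0 ρ t) := by
    intro t
    push_cast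
    rw [Complex.re_eq_add_conj]
    ring
  simp_rw [e]
  rw [intervalIntegral.integral_add, intervalIntegral.integral_add,
    intervalIntegral.integral_const_mul, intervalIntegral.integral_const_mul,
    rep1 hF hρ hρ1 hz, rep2 hF hρ hρ1 hz,
    rep1 (F := fun _ : ℂ => (-x : ℂ)) (differentiableOn_const _) hρ hρ1 hz]
  · simp
    ring
  · exact hI _ (continuous_const.mul (hK.mul hcF))
  · exact hI _ (continuous_const.mul (hK.mul (Complex.continuous_conj.comp hcF)))
  · exact hI _ ((continuous_const.mul (hK.mul hcF)).add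
      (continuous_const.mul (hK.mul (Complex.continuous_conj.comp hcF))))
  · exact hI _ (hK.mul continuous_const)

/-- the primitive on a circle -/
noncomputable def bb (F : ℂ → ℂ) (ρ θ x t : ℝ) : ℝ :=
  ∫ s in θ..t, ((F (circleMap 0 ρ s)).re - x)

theorem hasDeriv_bb {F : ℂ → ℂ} (hF : DifferentiableOn ℂ F (ball 0 1)) (hρ : 0 < ρ) (hρ1 : ρ < 1)
    (θ x t : ℝ) : HasDerivAt (bb F ρ θ x) ((F (circleMap 0 ρ t)).re - x) t := by
  have hcF := cont_F hF hρ hρ1
  have hc : Continuous fun s : ℝ => (F (circleMap 0 ρ s)).re - x :=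
    (Complex.continuous_re.comp hcF).sub continuous_const
  exact intervalIntegral.integral_hasDerivAt_right (hc.intervalIntegrable _ _)
    (hc.stronglyMeasurableAtFilter _ _) hc.continuousAt

/-- integration by parts -/
theorem parts {F : ℂ → ℂ} (hF : DifferentiableOn ℂ F (ball 0 1)) (hρ : 0 < ρ) (hρ1 : ρ < 1)
    (hz : ‖z‖ < ρ) (θ x : ℝ) :
    Real.pi * ‖deriv F z‖ ≤ ‖K ρ z (θ + Real.pi)‖ * |bb F ρ θ x (θ + Real.pi)| +
      ‖K ρ z (θ - Real.pi)‖ * |bb F ρ θ x (θ - Real.pi)| +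
      ∫ t in (θ - Real.pi)..(θ + Real.pi), ‖K' ρ z t‖ * |bb F ρ θ x t| := by
  have hpi := Real.pi_pos
  have hcF := cont_F hF hρ hρ1
  have hc : Continuous fun s : ℝ => (((F (circleMap 0 ρ s)).re - x : ℝ) : ℂ) :=
    Complex.continuous_ofReal.comp ((Complex.continuous_re.comp hcF).sub continuous_const)
  have h1 := intervalIntegral.integral_mul_deriv_eq_deriv_mul (a := θ - Real.pi) (b := θ + Real.pi)
    (u := K ρ z) (u' := K' ρ z) (v := fun t => ((bb F ρ θ x t : ℝ) : ℂ))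
    (v' := fun t => (((F (circleMap 0 ρ t)).re - x : ℝ) : ℂ))
    (fun t _ => hasDeriv_K hz t) (fun t _ => (hasDeriv_bb hF hρ hρ1 θ x t).ofReal_comp)
    ((cont_K' hz).intervalIntegrable _ _) (hc.intervalIntegrable _ _)
  rw [rep hF hρ hρ1 hz θ x] at h1
  have h2 : Real.pi * ‖deriv F z‖ = ‖(Real.pi : ℂ) * deriv F z‖ := by
    rw [norm_mul, Complex.norm_real, Real.norm_eq_abs, abs_of_pos hpi]
  rw [h2, h1]
  refine (norm_sub_le _ _).trans (add_le_add ((norm_sub_le _ _).trans (le_of_eq ?_)) ?_)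
  · rw [norm_mul, norm_mul, Complex.norm_real, Complex.norm_real]
    rfl
  · refine (intervalIntegral.norm_integral_le_integral_norm (by linarith)).trans (le_of_eq ?_)
    congr 1
    ext t
    rw [norm_mul, Complex.norm_real]
    rfl

end Pool.Agent.N673.TW.Var
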