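import Pool.Agent.N673.TW.Var_B
import Pool.Agent.N673.TW.Var_C

set_option autoImplicit false

/-!
# TW/VAR (helper128): non flatness of a Bloch function gives variance of its dyadic martingale
-/

open Complex Filter Topology Metric Set MeasureTheory

namespace Pool.Agent.N673.TW.Var

theorem dist_lb {ρ r h θ t : ℝ} (hr : 1 / 2 ≤ r) (hρ : r + h / 2 ≤ ρ) (hh : 0 < h)
    (ht : |t - θ| ≤ Real.pi) : (h + |t - θ|) / 5 ≤ ‖circleMap 0 ρ t - pt r θ‖ := by
  have hpi := Real.pi_pos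
  have hpi2 : Real.pi ^ 2 ≤ 10 := by
    have := Real.pi_lt_d2
    nlinarith
  have h1 : ‖circleMap 0 ρ t - pt r θ‖ ^ 2 =
      (ρ - r) ^ 2 + 2 * (ρ * r) * (1 - Real.cos (t - θ)) := by
    rw [← Complex.normSq_eq_norm_sq, Complex.normSq_apply]
    have e1 : (circleMap 0 ρ t - pt r θ).re = ρ * Real.cos t - r * Real.cos θ := by
      simp [pt, circleMap, Complex.exp_re]
    have e2 : (circleMap 0 ρ t - pt r θ).im = ρ * Real.sin t - r * Real.sin θ := by
      simp [pt, circleMap, Complex.exp_im]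
    rw [e1, e2, Real.cos_sub]
    have h2 := Real.sin_sq_add_cos_sq t
    have h3 := Real.sin_sq_add_cos_sq θ
    linear_combination ρ ^ 2 * h2 + r ^ 2 * h3
  have h2 := Real.cos_le_one_sub_mul_cos_sq ht
  set u : ℝ := t - θ with hu
  have h3 : 1 / 4 ≤ ρ * r := by nlinarith
  have h4 : h ^ 2 / 4 ≤ (ρ - r) ^ 2 := by nlinarith
  have h5 : u ^ 2 / 10 ≤ 2 * (ρ * r) * (1 - Real.cos u) := by
    have h6 : 2 / Real.pi ^ 2 * u ^ 2 ≤ 1 - Real.cos u := by linarith
    have h7 : u ^ 2 / 5 ≤ 2 / Real.pi ^ 2 * u ^ 2 := by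
      have h8 : 1 / 5 ≤ 2 / Real.pi ^ 2 := by
        rw [div_le_div_iff₀ (by norm_num) (by positivity)]
        linarith
      have := mul_le_mul_of_nonneg_right h8 (sq_nonneg u)
      linarith
    have h9 : 0 ≤ 1 - Real.cos u := by linarith [Real.cos_le_one u]
    have h10 : u ^ 2 / 5 ≤ 1 - Real.cos u := h7.trans h6
    nlinarith
  apply le_of_sq_le_sq _ (norm_nonneg _)
  rw [h1]
  have h6 : |u| ^ 2 = u ^ 2 := sq_abs u
  nlinarith [sq_nonneg (h - |u|), abs_nonneg u]

theorem cmaj {A B h a θ : ℝ} (hh : 0 < h) (ha : 0 < a) : Continuous fun t : ℝ =>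
    A / (h + |t - θ|) ^ 2 + B / ((|t - θ| + a) * √(|t - θ| + a)) := by
  have hc : Continuous fun t : ℝ => |t - θ| := (continuous_id.sub continuous_const).abs
  have hc2 : Continuous fun t : ℝ => (|t - θ| + a) * √(|t - θ| + a) :=
    (hc.add continuous_const).mul (Real.continuous_sqrt.comp (hc.add continuous_const))
  have hc3 : Continuous fun t : ℝ => (h + |t - θ|) ^ 2 := (continuous_const.add hc).pow 2
  refine (continuous_const.div hc3 ?_).add (continuous_const.div hc2 ?_)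
  · intro t
    have := abs_nonneg (t - θ)
    positivity
  · intro t
    have := abs_nonneg (t - θ)
    positivity

theorem al1 {h u Y : ℝ} (hh : 0 < h) (hu : 0 ≤ u) (hY : 0 ≤ Y) :
    250 / (h + u) ^ 3 * (3 * Y) ≤ (750 * Y / h) / (h + u) ^ 2 := by
  have h6 : 250 / (h + u) ^ 3 * (3 * Y) = (750 * Y / (h + u)) / (h + u) ^ 2 := by
    have : h + u ≠ 0 := by positivity
    field_simp
    ring
  rw [h6]
  gcongr
  linarith

theorem al2 {h u a C3 : ℝ} (hh : 0 < h) (ha : 0 < a) (hau : a ≤ u) (hC : 0 ≤ C3) :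
    250 / (h + u) ^ 3 * (C3 * (u * √(u / a))) ≤ (750 * C3 / √a) / ((u + a) * √(u + a)) := by
  have hup : 0 < u := by linarith
  have hsa : 0 < √a := Real.sqrt_pos.2 ha
  have hsu : 0 < √u := Real.sqrt_pos.2 hup
  have h6 : 250 / (h + u) ^ 3 * (C3 * (u * √(u / a))) ≤
      250 / u ^ 3 * (C3 * (u * √(u / a))) := by
    gcongr
    linarith
  have h7 : 250 / u ^ 3 * (C3 * (u * √(u / a))) = 250 * C3 / √a / (u * √u) := by
    rw [Real.sqrt_div hup.le]
    have h8 : √u ^ 2 = u := Real.sq_sqrt hup.le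
    have h9 : 250 / u ^ 3 * (C3 * (u * (√u / √a))) = 250 * C3 * √u ^ 2 / (u ^ 2 * √u * √a) := by
      field_simp
    rw [h9, h8]
    field_simp
  have h8 : (u + a) * √(u + a) ≤ 3 * (u * √u) := by
    have h9 : √(u + a) ≤ 3 / 2 * √u := by
      apply Real.sqrt_le_iff.2
      refine ⟨by positivity, ?_⟩
      rw [mul_pow, Real.sq_sqrt hup.le]
      linarith
    calc (u + a) * √(u + a) ≤ (2 * u) * (3 / 2 * √u) := by
          apply mul_le_mul (by linarith) h9 (Real.sqrt_nonneg _) (by positivity)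
      _ = 3 * (u * √u) := by ring
  refine h6.trans (h7.le.trans ?_)
  rw [div_le_div_iff₀ (by positivity) (by positivity)]
  calc 250 * C3 / √a * ((u + a) * √(u + a)) ≤ 250 * C3 / √a * (3 * (u * √u)) := by gcongr
    _ = 750 * C3 / √a * (u * √u) := by ring

theorem al3 {D h T a C3 η : ℝ} (hh : 0 < h) (ha : 0 < a) (haπ : a ≤ Real.pi) (hC3 : 0 ≤ C3)
    (hE : Real.pi * D ≤ 6 * C3 * (Real.pi * √(Real.pi / a)) +
      (1500 * T * η / h ^ 2 + 3000 * C3 / a)) :
    (Real.pi * D) * h ≤ 6 * C3 * (Real.pi * Real.pi) * (h / a) + 1500 * η * (T / h) +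
      3000 * C3 * (h / a) := by
  have hpi := Real.pi_pos
  have hsq : √(Real.pi / a) ≤ Real.pi / a := by
    have h2 : 1 ≤ Real.pi / a := by rw [le_div_iff₀ ha]; linarith
    apply Real.sqrt_le_iff.2
    exact ⟨by positivity, by nlinarith⟩
  refine (mul_le_mul_of_nonneg_right hE hh.le).trans ?_
  calc (6 * C3 * (Real.pi * √(Real.pi / a)) + (1500 * T * η / h ^ 2 + 3000 * C3 / a)) * h
      ≤ (6 * C3 * (Real.pi * (Real.pi / a)) + (1500 * T * η / h ^ 2 + 3000 * C3 / a)) * h := by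
        gcongr
    _ = _ := by field_simp; ring

theorem pw1 (m k q : ℕ) : (1 : ℝ) / 2 ^ (m + k) =
    2 ^ q / 2 ^ k / (2 * Real.pi) * (2 * Real.pi / 2 ^ (m + q)) := by
  have hpi := Real.pi_pos
  rw [pow_add, pow_add]
  field_simp

theorem pw2 (m k : ℕ) : 2 * Real.pi / 2 ^ m = 4 * Real.pi * 2 ^ k * (1 / 2 ^ (m + k + 1)) := by
  rw [pow_succ, pow_add]
  field_simp
  norm_num

theorem al4 {y C3 X : ℝ} (hC3 : 0 < C3) (hy : 0 < y) (hX : X ≤ y / (2 * Real.pi)) :
    6 * C3 * (Real.pi * Real.pi) * X + 3000 * C3 * X ≤ Real.pi * (170 * C3 * y) := by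
  have hpi := Real.pi_pos
  have hpi3 := Real.pi_gt_three
  have h1 : 6 * C3 * (Real.pi * Real.pi) * X ≤ 6 * C3 * (Real.pi * Real.pi) *
      (y / (2 * Real.pi)) := mul_le_mul_of_nonneg_left hX (by positivity)
  have h2 : 3000 * C3 * X ≤ 3000 * C3 * (y / (2 * Real.pi)) :=
    mul_le_mul_of_nonneg_left hX (by positivity)
  have h3 : 6 * C3 * (Real.pi * Real.pi) * (y / (2 * Real.pi)) = Real.pi * (3 * (C3 * y)) := by
    field_simp
    norm_num
  have h4 : 3000 * C3 * (y / (2 * Real.pi)) = 1500 * (C3 * y) / Real.pi := by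
    field_simp
    norm_num
  have h5 : 1500 * (C3 * y) / Real.pi ≤ Real.pi * (167 * (C3 * y)) := by
    rw [div_le_iff₀ hpi]
    have h6 : 0 < C3 * y := by positivity
    have h7 : 9 ≤ Real.pi * Real.pi := by nlinarith
    nlinarith
  linarith

theorem GI {A B h a θ : ℝ} (hA : 0 ≤ A) (hB : 0 ≤ B) (hh : 0 < h) (ha : 0 < a) :
    (∫ t in (θ - Real.pi)..(θ + Real.pi),
      (A / (h + |t - θ|) ^ 2 + B / ((|t - θ| + a) * √(|t - θ| + a)))) ≤
      2 * (A / h + 2 * B / √a) := by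
  have hpi := Real.pi_pos
  set g : ℝ → ℝ := fun u => A / (h + u) ^ 2 + B / ((u + a) * √(u + a)) with hg
  set Γ : ℝ → ℝ := fun u => -(A / (h + u)) - 2 * B / √(u + a) with hΓ
  have hd : ∀ u : ℝ, 0 ≤ u → HasDerivAt Γ (g u) u := by
    intro u hu
    have h1 : HasDerivAt (fun u : ℝ => h + u) 1 u := by simpa using (hasDerivAt_id u).const_add h
    have h2 : HasDerivAt (fun u : ℝ => u + a) 1 u := by simpa using (hasDerivAt_id u).add_const a
    have hne : h + u ≠ 0 := by linarith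
    have hne2 : u + a ≠ 0 := by linarith
    have hpos : 0 < √(u + a) := Real.sqrt_pos.2 (by linarith)
    have h3 := ((hasDerivAt_const u A).div h1 hne).neg
    have h4 := (hasDerivAt_const u (2 * B)).div (h2.sqrt hne2) hpos.ne'
    have h5 := h3.sub h4
    refine h5.congr_deriv ?_
    simp only [hg]
    have h6 : √(u + a) ^ 2 = u + a := Real.sq_sqrt (by linarith)
    rw [h6]
    field_simp
    ring
  have hcont : Continuous fun t : ℝ => g |t - θ| := cmaj hh ha
  have hI : ∀ x y : ℝ, IntervalIntegrable (fun t : ℝ => g |t - θ|) volume x y :=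
    fun x y => hcont.intervalIntegrable _ _
  have h1 : (∫ t in θ..(θ + Real.pi), g |t - θ|) = Γ Real.pi - Γ 0 := by
    have h2 := intervalIntegral.integral_eq_sub_of_hasDerivAt (a := θ) (b := θ + Real.pi)
      (f := fun t => Γ (t - θ)) (f' := fun t => g |t - θ|) (fun t ht => by
        rw [uIcc_of_le (by linarith)] at ht
        have h3 : 0 ≤ t - θ := by linarith [ht.1]
        have h4 : HasDerivAt (fun t : ℝ => t - θ) 1 t := by
          simpa using (hasDerivAt_id t).sub_const θ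
        have h5 := (hd (t - θ) h3).comp t h4
        rw [mul_one] at h5
        simp only [abs_of_nonneg h3]
        exact h5) (hI _ _)
    rw [h2]
    simp only [add_sub_cancel_left, sub_self]
  have h2 : (∫ t in (θ - Real.pi)..θ, g |t - θ|) = Γ Real.pi - Γ 0 := by
    have h2 := intervalIntegral.integral_eq_sub_of_hasDerivAt (a := θ - Real.pi) (b := θ)
      (f := fun t => -Γ (θ - t)) (f' := fun t => g |t - θ|) (fun t ht => by
        rw [uIcc_of_le (by linarith)] at ht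
        have h3 : 0 ≤ θ - t := by linarith [ht.2]
        have h4 : HasDerivAt (fun t : ℝ => θ - t) (-1) t := by
          simpa using (hasDerivAt_id t).const_sub θ
        have h5 := ((hd (θ - t) h3).comp t h4).neg
        have h6 : -(g (θ - t) * -1) = g (θ - t) := by ring
        rw [h6] at h5
        have h7 : |t - θ| = θ - t := by rw [abs_sub_comm, abs_of_nonneg h3]
        simp only [h7]
        exact h5) (hI _ _)
    rw [h2]
    simp only [sub_sub_cancel, sub_self]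
    ring
  have h3 : (∫ t in (θ - Real.pi)..(θ + Real.pi), g |t - θ|) = 2 * (Γ Real.pi - Γ 0) := by
    rw [← intervalIntegral.integral_add_adjacent_intervals (hI (θ - Real.pi) θ) (hI θ _), h1, h2]
    ring
  have h4 : Γ Real.pi - Γ 0 ≤ A / h + 2 * B / √a := by
    simp only [hΓ]
    rw [add_zero, zero_add]
    have h5 : 0 ≤ A / (h + Real.pi) := by positivity
    have h6 : 0 ≤ 2 * B / √(Real.pi + a) := by positivity
    linarith
  calc _ = 2 * (Γ Real.pi - Γ 0) := h3
    _ ≤ _ := by linarith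

variable {H : ℂ → ℂ} {A : ℝ → ℂ} {C : ℝ}

theorem bbapp (hH : Bl H) (hA : Prim C H A) {ρ : ℝ} (hρ : 1 / 2 ≤ ρ) (hρ1 : ρ < 1) (θ x : ℝ)
    {t : ℝ} (ht : |t - θ| ≤ 2 * Real.pi) :
    |bb H ρ θ x t - ((A t - A θ).re - x * (t - θ))| ≤ C * √(1 - ρ) := by
  have hcF := cont_F hH.1 (ρ := ρ) (by linarith) hρ1
  have hcR : Continuous fun s : ℝ => (H (circleMap 0 ρ s)).re := Complex.continuous_re.comp hcF
  have h1 : bb H ρ θ x t = (∫ s in θ..t, H (circleMap 0 ρ s)).re - x * (t - θ) := by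
    unfold bb
    rw [intervalIntegral.integral_sub (hcR.intervalIntegrable _ _)
      (continuous_const.intervalIntegrable _ _), intervalIntegral.integral_const]
    have h2 := intervalIntegral.intervalIntegral_re (𝕜 := ℂ) (μ := volume)
      (hcF.intervalIntegrable θ t)
    have h3 : (∫ s in θ..t, (H (circleMap 0 ρ s)).re) = (∫ s in θ..t, H (circleMap 0 ρ s)).re := h2
    rw [h3, smul_eq_mul]
    ring
  have h2 : bb H ρ θ x t - ((A t - A θ).re - x * (t - θ)) =
      ((∫ s in θ..t, H (circleMap 0 ρ s)) - (A t - A θ)).re := by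
    rw [h1]
    simp only [sub_re]
    ring
  rw [h2]
  refine (abs_re_le_norm _).trans ?_
  rcases le_total θ t with h | h
  · rw [abs_of_nonneg (by linarith)] at ht
    exact hA.1 ρ hρ hρ1 θ t h (by linarith)
  · rw [abs_of_nonpos (by linarith)] at ht
    have h3 := hA.1 ρ hρ hρ1 t θ h (by linarith)
    rw [intervalIntegral.integral_symm, ← norm_neg]
    have h4 : -(-(∫ s in t..θ, H (circleMap 0 ρ s)) - (A t - A θ)) =
      (∫ s in t..θ, H (pt ρ s)) - (A θ - A t) := by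
      unfold pt
      ring
    rw [h4]
    exact h3

theorem est (hH : Bl H) (hA : Prim C H A) (hC : 0 ≤ C) (m i q : ℕ) {θ r η : ℝ}
    (h0 : 2 * Real.pi * i / 2 ^ m + 2 * Real.pi / 2 ^ (m + q) ≤ θ)
    (h1 : θ ≤ 2 * Real.pi * (i + 1) / 2 ^ m - 2 * Real.pi / 2 ^ (m + q))
    (hr : 1 / 2 ≤ r) (hr1 : r < 1) (hη : 0 < η)
    (hin : ∀ t : ℝ, 2 * Real.pi * i / 2 ^ m ≤ t → t ≤ 2 * Real.pi * i / 2 ^ m + 2 * Real.pi / 2 ^ m →
      |(A t - A (2 * Real.pi * i / 2 ^ m)).re - XX A m i * (t - 2 * Real.pi * i / 2 ^ m)| ≤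
        2 * Real.pi / 2 ^ m * η) :
    Real.pi * ‖deriv H (pt r θ)‖ ≤
      6 * (2 * C + 24 * Real.pi + 6 * q + 13) * (Real.pi * √(Real.pi / (2 * Real.pi / 2 ^ (m + q)))) +
      (1500 * (2 * Real.pi / 2 ^ m) * η / (1 - r) ^ 2 +
        3000 * (2 * C + 24 * Real.pi + 6 * q + 13) / (2 * Real.pi / 2 ^ (m + q))) := by
  have hpi := Real.pi_pos
  have hpi3 := Real.pi_gt_three
  set T : ℝ := 2 * Real.pi / 2 ^ m with hT
  have hT0 : 0 < T := by positivity
  have hT1 : T ≤ 2 * Real.pi := div_le_self (by positivity) (one_le_pow₀ (by norm_num))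
  set α : ℝ := 2 * Real.pi * i / 2 ^ m with hα
  have hβ : 2 * Real.pi * (i + 1) / 2 ^ m = α + T := by rw [hα, hT]; ring
  rw [hβ] at h1
  set a : ℝ := 2 * Real.pi / 2 ^ (m + q) with ha
  have ha0 : 0 < a := by positivity
  have haπ : a ≤ Real.pi := by linarith
  set h : ℝ := 1 - r with hh
  have hh0 : 0 < h := by linarith
  set C3 : ℝ := 2 * C + 24 * Real.pi + 6 * q + 13 with hC3
  have hq0 : (0 : ℝ) ≤ q := by positivity
  have hC3p : 0 < C3 := by positivity
  set x : ℝ := XX A m i with hx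
  set μ : ℝ := min (T * η) a with hμ
  have hμ0 : 0 < μ := lt_min (by positivity) ha0
  set κ : ℝ := min (h / 2) ((μ / (C + 1)) ^ 2) with hκ
  have hκ0 : 0 < κ := lt_min (by linarith) (by positivity)
  set ρ : ℝ := 1 - κ with hρd
  have hκ1 : κ ≤ h / 2 := min_le_left _ _
  have hρr : r + h / 2 ≤ ρ := by rw [hρd, hh] at *; linarith
  have hρ1 : ρ < 1 := by linarith
  have hρh : 1 / 2 ≤ ρ := by linarith
  have hρ0 : 0 < ρ := by linarith
  have hCκ : C * √(1 - ρ) ≤ μ := by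
    have e : 1 - ρ = κ := by rw [hρd]; ring
    rw [e]
    have h2 : √κ ≤ μ / (C + 1) := by
      apply Real.sqrt_le_iff.2
      exact ⟨by positivity, min_le_right _ _⟩
    calc C * √κ ≤ C * (μ / (C + 1)) := mul_le_mul_of_nonneg_left h2 hC
      _ = (C / (C + 1)) * μ := by ring
      _ ≤ 1 * μ := by
          apply mul_le_mul_of_nonneg_right _ hμ0.le
          rw [div_le_one (by linarith)]
          linarith
      _ = μ := one_mul _
  have hz : ‖pt r θ‖ < ρ := by rw [norm_pt' (by linarith)]; linarith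
  -- bounds for the primitive
  have hbout : ∀ t : ℝ, a ≤ |t - θ| → |t - θ| ≤ Real.pi →
      |bb H ρ θ x t| ≤ C3 * (|t - θ| * √(|t - θ| / a)) := by
    intro t ht1 ht2
    have h2 := outs hH hA hC m i q (θ := θ) (t := t) (by linarith) (by linarith) ht1 (by linarith)
    have h3 := bbapp hH hA hρh hρ1 θ x (t := t) (by linarith)
    rw [← hx, ← ha] at h2
    have h4 : 1 ≤ √(|t - θ| / a) := by
      rw [Real.one_le_sqrt, le_div_iff₀ ha0]; linarith
    have h5 : μ ≤ |t - θ| * √(|t - θ| / a) := by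
      calc μ ≤ a := min_le_right _ _
        _ ≤ |t - θ| * 1 := by linarith
        _ ≤ |t - θ| * √(|t - θ| / a) := by gcongr
    have e : bb H ρ θ x t = (bb H ρ θ x t - ((A t - A θ).re - x * (t - θ))) +
      ((A t - A θ).re - x * (t - θ)) := by ring
    rw [e]
    refine (abs_add_le _ _).trans ?_
    have e2 : C3 * (|t - θ| * √(|t - θ| / a)) = (|t - θ| * √(|t - θ| / a)) +
      (2 * C + 24 * Real.pi + 6 * q + 12) * (|t - θ| * √(|t - θ| / a)) := by rw [hC3]; ring
    rw [e2]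
    linarith
  have hbin : ∀ t : ℝ, α ≤ t → t ≤ α + T → |t - θ| ≤ Real.pi → |bb H ρ θ x t| ≤ 3 * (T * η) := by
    intro t ht1 ht2 ht3
    have h2 := hin t ht1 ht2
    have h3 := hin θ (by linarith) (by linarith)
    have h4 := bbapp hH hA hρh hρ1 θ x (t := t) (by linarith)
    have h5 : μ ≤ T * η := min_le_left _ _
    have e : bb H ρ θ x t = (bb H ρ θ x t - ((A t - A θ).re - x * (t - θ))) +
      ((A t - A α).re - x * (t - α)) - ((A θ - A α).re - x * (θ - α)) := by
      simp only [sub_re]; ring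
    rw [e, sub_eq_add_neg]
    refine (abs_add_three _ _ _).trans ?_
    rw [abs_neg]
    linarith
  have hKb : ∀ t : ℝ, |t - θ| ≤ Real.pi → ‖K ρ (pt r θ) t‖ ≤ 25 / (h + |t - θ|) ^ 2 := by
    intro t ht
    have h2 := dist_lb hr hρr hh0 ht
    have h3 : 0 < (h + |t - θ|) / 5 := by have := abs_nonneg (t - θ); positivity
    unfold K
    rw [norm_div, norm_pow, norm_circleMap_zero, abs_of_pos hρ0]
    calc ρ / ‖circleMap 0 ρ t - pt r θ‖ ^ 2 ≤ 1 / ((h + |t - θ|) / 5) ^ 2 := by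
          gcongr
      _ = 25 / (h + |t - θ|) ^ 2 := by field_simp; norm_num
  have hK'b : ∀ t : ℝ, |t - θ| ≤ Real.pi → ‖K' ρ (pt r θ) t‖ ≤ 250 / (h + |t - θ|) ^ 3 := by
    intro t ht
    have h2 := dist_lb hr hρr hh0 ht
    have h3 : 0 < (h + |t - θ|) / 5 := by have := abs_nonneg (t - θ); positivity
    unfold K'
    rw [norm_div, norm_pow, norm_neg, norm_mul, norm_mul, norm_I, norm_circleMap_zero,
      abs_of_pos hρ0, one_mul]
    have h4 : ‖circleMap 0 ρ t + pt r θ‖ ≤ 2 := by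
      refine (norm_add_le _ _).trans ?_
      rw [norm_circleMap_zero, abs_of_pos hρ0, norm_pt' (by linarith)]
      linarith
    calc ρ * ‖circleMap 0 ρ t + pt r θ‖ / ‖circleMap 0 ρ t - pt r θ‖ ^ 3
        ≤ 1 * 2 / ((h + |t - θ|) / 5) ^ 3 := by
          gcongr
      _ = 250 / (h + |t - θ|) ^ 3 := by field_simp; norm_num
  have hbd : ∀ t : ℝ, |t - θ| = Real.pi →
      ‖K ρ (pt r θ) t‖ * |bb H ρ θ x t| ≤ 3 * (C3 * (Real.pi * √(Real.pi / a))) := by
    intro t ht
    have h2 := hKb t (by rw [ht])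
    have h3 := hbout t (by rw [ht]; exact haπ) (by rw [ht])
    rw [ht] at h2 h3
    have h4 : 25 / (h + Real.pi) ^ 2 ≤ 3 := by
      rw [div_le_iff₀ (by positivity)]
      nlinarith
    exact mul_le_mul (h2.trans h4) h3 (abs_nonneg _) (by norm_num)
  have hmain := parts hH.1 hρ0 hρ1 hz θ x
  have hb1 := hbd (θ + Real.pi) (by rw [add_sub_cancel_left, abs_of_pos hpi])
  have hb2 := hbd (θ - Real.pi) (by rw [sub_sub_cancel_left, abs_neg, abs_of_pos hpi])
  -- the integral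
  have hint : (∫ t in (θ - Real.pi)..(θ + Real.pi), ‖K' ρ (pt r θ) t‖ * |bb H ρ θ x t|) ≤
      2 * ((750 * (T * η) / h) / h + 2 * (750 * C3 / √a) / √a) := by
    refine le_trans ?_ (GI (A := 750 * (T * η) / h) (B := 750 * C3 / √a) (h := h) (a := a) (θ := θ)
      (by positivity) (by positivity) hh0 ha0)
    have hcbb : Continuous (bb H ρ θ x) :=
      continuous_iff_continuousAt.2 fun t => (hasDeriv_bb hH.1 hρ0 hρ1 θ x t).continuousAt
    have hc1 : Continuous fun t : ℝ => ‖K' ρ (pt r θ) t‖ * |bb H ρ θ x t| :=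
      (cont_K' hz).norm.mul hcbb.abs
    have hc2 : Continuous fun t : ℝ => (750 * (T * η) / h) / (h + |t - θ|) ^ 2 +
        (750 * C3 / √a) / ((|t - θ| + a) * √(|t - θ| + a)) := cmaj hh0 ha0
    apply intervalIntegral.integral_mono_on (by linarith) (hc1.intervalIntegrable _ _)
      (hc2.intervalIntegrable _ _)
    intro t ht
    have htπ : |t - θ| ≤ Real.pi := by
      rw [abs_le]; constructor <;> linarith [ht.1, ht.2]
    have hK := hK'b t htπ
    set u : ℝ := |t - θ| with hu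
    have hu0 : 0 ≤ u := abs_nonneg _
    by_cases hmem : α ≤ t ∧ t ≤ α + T
    · have h2 := hbin t hmem.1 hmem.2 htπ
      have h3 : 0 ≤ (750 * C3 / √a) / ((u + a) * √(u + a)) := by positivity
      have h4 : ‖K' ρ (pt r θ) t‖ * |bb H ρ θ x t| ≤ 250 / (h + u) ^ 3 * (3 * (T * η)) :=
        mul_le_mul hK h2 (abs_nonneg _) (by positivity)
      have h5 := al1 (Y := T * η) hh0 hu0 (by positivity)
      linarith
    · have hau : a ≤ u := by
        by_contra hcon
        push Not at hcon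
        have h2 := abs_lt.1 hcon
        exact hmem ⟨by linarith [h2.1], by linarith [h2.2]⟩
      have h2 := hbout t hau htπ
      rw [← hu] at h2
      have hup : 0 < u := by linarith
      have h3 : 0 ≤ (750 * (T * η) / h) / (h + u) ^ 2 := by positivity
      have h4 : ‖K' ρ (pt r θ) t‖ * |bb H ρ θ x t| ≤ 250 / (h + u) ^ 3 * (C3 * (u * √(u / a))) :=
        mul_le_mul hK h2 (abs_nonneg _) (by positivity)
      have h5 := al2 (C3 := C3) hh0 ha0 hau hC3p.le
      linarith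
  have e1 : 2 * ((750 * (T * η) / h) / h + 2 * (750 * C3 / √a) / √a) =
      1500 * T * η / h ^ 2 + 3000 * C3 / a := by
    have h8 : √a * √a = a := Real.mul_self_sqrt ha0.le
    have h9 : 2 * (750 * C3 / √a) / √a = 1500 * C3 / (√a * √a) := by
      have hsa : 0 < √a := Real.sqrt_pos.2 ha0
      field_simp
      ring
    rw [h9, h8]
    field_simp
    ring
  rw [e1] at hint
  have e2 : 6 * C3 * (Real.pi * √(Real.pi / a)) = 3 * (C3 * (Real.pi * √(Real.pi / a))) +
    3 * (C3 * (Real.pi * √(Real.pi / a))) := by ring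
  rw [e2]
  linarith

/-- VAR -/
theorem t : Pool.Agent.N673.TW.S_VAR := by
  intro C ε q hC hε
  have hpi := Real.pi_pos
  have hpi3 := Real.pi_gt_three
  have hq0 : (0 : ℝ) ≤ q := by positivity
  set C3 : ℝ := 2 * C + 24 * Real.pi + 6 * q + 13 with hC3
  have hC3p : 0 < C3 := by positivity
  obtain ⟨k0, hk0⟩ := pow_unbounded_of_one_lt (400 * C3 * 2 ^ q / ε) (one_lt_two : (1 : ℝ) < 2)
  set k : ℕ := k0 + 1 with hk
  have hk1 : 400 * C3 * 2 ^ q / ε < (2 : ℝ) ^ k := by
    refine hk0.trans_le ?_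
    rw [hk]
    exact pow_le_pow_right₀ (by norm_num) (Nat.le_succ _)
  set η₀ : ℝ := ε / (24000 * 2 ^ k) with hη₀
  have hη₀p : 0 < η₀ := by positivity
  set C2 : ℝ := 2 * C + 24 * Real.pi + 12 with hC2
  have hC2p : 0 < C2 := by positivity
  obtain ⟨l, hl⟩ := exists_pow_lt_of_lt_one (show 0 < (η₀ / C2) ^ 2 by positivity)
    (show (1 / 2 : ℝ) < 1 by norm_num)
  refine ⟨k, l, η₀ ^ 2, by positivity, ?_⟩
  intro H A hH hA m i hi θ h0 h1 hNF
  by_contra hcon
  push Not at hcon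
  set v : ℝ := (∑ s ∈ Finset.range (2 ^ l), (XX A (m + l) (2 ^ l * i + s) - XX A m i) ^ 2) / 2 ^ l
    with hv
  have hv0 : 0 ≤ v := by
    rw [hv]
    exact div_nonneg (Finset.sum_nonneg fun _ _ => sq_nonneg _) (by positivity)
  set η : ℝ := √v + C2 * √(1 / 2 ^ l) with hη
  have hl0 : 0 < √(1 / (2 : ℝ) ^ l) := Real.sqrt_pos.2 (by positivity)
  have hη0 : 0 < η := by
    have := Real.sqrt_nonneg v
    positivity
  have hη1 : η < 2 * η₀ := by
    have h2 : √v < η₀ := (Real.sqrt_lt' hη₀p).2 hcon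
    have h3 : √(1 / (2 : ℝ) ^ l) ≤ η₀ / C2 := by
      apply Real.sqrt_le_iff.2
      refine ⟨by positivity, ?_⟩
      have : 1 / (2 : ℝ) ^ l = (1 / 2) ^ l := by rw [one_div_pow]
      rw [this]
      exact hl.le
    have h4 : C2 * √(1 / 2 ^ l) ≤ η₀ := by
      calc C2 * √(1 / 2 ^ l) ≤ C2 * (η₀ / C2) := mul_le_mul_of_nonneg_left h3 hC2p.le
        _ = η₀ := by field_simp
    linarith
  obtain ⟨r, hr1, hr2, hr3⟩ := hNF
  have hr1' : 1 - 1 / 2 ^ (m + k) ≤ r := hr1
  have hr2' : r ≤ 1 - 1 / 2 ^ (m + k + 1) := hr2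
  set h : ℝ := 1 - r with hh
  have hh1 : h ≤ 1 / 2 ^ (m + k) := by linarith
  have hh2 : 1 / 2 ^ (m + k + 1) ≤ h := by linarith
  have hh0 : 0 < h := lt_of_lt_of_le (by positivity) hh2
  have hhalf : 1 / (2 : ℝ) ^ (m + k) ≤ 1 / 2 := by
    apply one_div_le_one_div_of_le (by norm_num)
    calc (2 : ℝ) = 2 ^ 1 := by norm_num
      _ ≤ 2 ^ (m + k) := pow_le_pow_right₀ (by norm_num) (by omega)
  have hE := est hH hA hC m i q (θ := θ) (r := r) (η := η) h0 h1 (by linarith) (by linarith) hη0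
    (fun t ht1 ht2 => ins hH hA hC m i l ht1 ht2)
  rw [← hC3, ← hh] at hE
  set T : ℝ := 2 * Real.pi / 2 ^ m with hT
  have hT0 : 0 < T := by positivity
  set a : ℝ := 2 * Real.pi / 2 ^ (m + q) with ha
  have ha0 : 0 < a := by positivity
  have hT1 : T ≤ 2 * Real.pi := div_le_self (by positivity) (one_le_pow₀ (by norm_num))
  have hβ : 2 * Real.pi * (i + 1) / 2 ^ m = 2 * Real.pi * i / 2 ^ m + T := by rw [hT]; ring
  have haπ : a ≤ Real.pi := by rw [hβ] at h1; linarith
  have hha : h / a ≤ 2 ^ q / 2 ^ k / (2 * Real.pi) := by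
    rw [div_le_iff₀ ha0]
    exact hh1.trans (pw1 m k q).le
  have hTh : T / h ≤ 4 * Real.pi * 2 ^ k := by
    rw [div_le_iff₀ hh0]
    calc T = 4 * Real.pi * 2 ^ k * (1 / 2 ^ (m + k + 1)) := pw2 m k
      _ ≤ 4 * Real.pi * 2 ^ k * h := mul_le_mul_of_nonneg_left hh2 (by positivity)
  have hE2 := al3 hh0 ha0 haπ hC3p.le hE
  have hE3 : Real.pi * ε ≤ (Real.pi * ‖deriv H (pt r θ)‖) * h := by
    calc Real.pi * ε ≤ Real.pi * (‖deriv H (pt r θ)‖ * h) :=
          mul_le_mul_of_nonneg_left hr3 hpi.le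
      _ = (Real.pi * ‖deriv H (pt r θ)‖) * h := by ring
  have hy0 : (0 : ℝ) < 2 ^ q / 2 ^ k := by positivity
  have hyC : 400 * C3 * (2 ^ q / 2 ^ k) < ε := by
    rw [div_lt_iff₀ hε] at hk1
    rw [← mul_div_assoc, div_lt_iff₀ (by positivity)]
    linarith
  have h2 := al4 hC3p hy0 hha
  have h4 : 1500 * η * (T / h) ≤ Real.pi * (ε / 2) := by
    have h5 : 1500 * η * (T / h) ≤ 1500 * (2 * η₀) * (4 * Real.pi * 2 ^ k) := by
      apply mul_le_mul (by linarith) hTh (by positivity) (by positivity)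
    have h6 : 1500 * (2 * η₀) * (4 * Real.pi * 2 ^ k) = Real.pi * (ε / 2) := by
      rw [hη₀]
      field_simp
      norm_num
    exact h5.trans h6.le
  have h5 : Real.pi * ε ≤ Real.pi * (170 * C3 * (2 ^ q / 2 ^ k) + ε / 2) := by
    rw [mul_add]
    linarith
  have h6 := le_of_mul_le_mul_left h5 hpi
  have h7 : 0 < C3 * (2 ^ q / 2 ^ k) := by positivity
  linarith

end Pool.Agent.N673.TW.Var
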