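import Pool.Agent.N673.TW.Fin2
import Pool.Agent.N673.TW.Low
import Pool.Agent.N673.TW.Var
import Pool.Agent.N673.TW.Prim
import Pool.Agent.N673.TW.Slln
import Pool.Agent.N673.TW.Llil
import Pool.Agent.N673.TW.Clu
import Pool.Agent.N673.TW.Blk
import Pool.Agent.N673.TW.Upl

set_option autoImplicit false

/-!
# Two-sided law of the iterated logarithm for the Multibrot sets: the gauge function
-/

open Complex Filter Topology Metric Set MeasureTheory N62a1eb23

namespace Pool.Agent.N673.TW.Fin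

open Pool.Agent.H712R2 Pool.Agent.H713R2 Pool.Agent.Y272.TY Pool.Agent.W677.Mar
open Pool.Agent.N673.TW.BL Pool.Agent.N673.TW.BM

variable {d : ℕ} {β H : ℂ → ℂ}

theorem low : S_LOW := Pool.Agent.N673.TW.Low.t Pool.Agent.N673.TW.Prim.t Pool.Agent.N673.TW.Var.t
  Pool.Agent.N673.TW.Slln.t
  (Pool.Agent.N673.TW.Llil.t Pool.Agent.N673.TW.Clu.t Pool.Agent.N673.TW.Blk.t)
  Pool.Agent.N673.TW.Upl.t

/-- the gauge of the law of the iterated logarithm -/
noncomputable def gg (r : ℝ) : ℝ :=
  √(Real.log (1 / (r - 1)) * Real.log (Real.log (Real.log (1 / (r - 1)))))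

theorem inv_rj {j : ℕ} (hj : 1 ≤ j) : (rj j)⁻¹ - 1 = 1 / (2 ^ j - 1) := by
  have h1 : (2 : ℝ) ≤ 2 ^ j := by
    calc (2 : ℝ) = 2 ^ 1 := by norm_num
      _ ≤ 2 ^ j := pow_le_pow_right₀ (by norm_num) hj
  have h2 : rj j = (2 ^ j - 1) / 2 ^ j := by unfold rj; field_simp
  have h3 : (2 : ℝ) ^ j - 1 ≠ 0 := by linarith
  rw [h2, inv_div]
  field_simp
  ring

theorem exp_one_lt_three : Real.exp 1 < 3 := by
  have := Real.exp_one_lt_d9
  linarith

/-- comparison of the gauge at the dyadic radii -/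
theorem gg_low : ∀ᶠ j : ℕ in atTop, gg ((rj j)⁻¹) ≤ √((j : ℝ) * Real.log (Real.log j)) := by
  filter_upwards [eventually_ge_atTop 30] with j hj
  have hj0 : (30 : ℝ) ≤ j := by exact_mod_cast hj
  unfold gg
  rw [inv_rj (by omega), one_div_one_div]
  have h2 : (8 : ℝ) ≤ 2 ^ j := by
    calc (8 : ℝ) = 2 ^ 3 := by norm_num
      _ ≤ 2 ^ j := pow_le_pow_right₀ (by norm_num) (by omega)
  obtain ⟨y, hy⟩ : ∃ y : ℝ, y = Real.log (2 ^ j - 1) := ⟨_, rfl⟩
  rw [← hy]
  have h3 : y ≤ j := by
    have h4 : y ≤ Real.log (2 ^ j) := by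
      rw [hy]; exact Real.log_le_log (by linarith) (by linarith)
    rw [Real.log_pow] at h4
    have := Real.log_two_lt_d9
    nlinarith
  have h5 : 9 < y := by
    have h6 : Real.log (2 ^ 20) ≤ y := by
      rw [hy]
      apply Real.log_le_log (by norm_num)
      have : (2 : ℝ) ^ 21 ≤ 2 ^ j := pow_le_pow_right₀ (by norm_num) (by omega)
      norm_num at this ⊢
      linarith
    rw [Real.log_pow] at h6
    have := Real.log_two_gt_d9
    push_cast at h6
    linarith
  have h6 : 1 ≤ Real.log y := by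
    rw [Real.le_log_iff_exp_le (by linarith)]
    linarith [exp_one_lt_three]
  have h7 : Real.log y ≤ Real.log j := Real.log_le_log (by linarith) h3
  have h8 : Real.log (Real.log y) ≤ Real.log (Real.log j) := Real.log_le_log (by linarith) h7
  have h9 : 0 ≤ Real.log (Real.log y) := Real.log_nonneg h6
  apply Real.sqrt_le_sqrt
  gcongr

theorem tendsto_inv_rj : Tendsto (fun j : ℕ => (rj j)⁻¹) atTop (𝓝[>] 1) := by
  rw [tendsto_nhdsWithin_iff]
  constructor
  · have h3 : Tendsto (fun n : ℕ => rj n) atTop (𝓝 1) := by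
      unfold rj
      have h4 : Tendsto (fun n : ℕ => 1 / (2 : ℝ) ^ n) atTop (𝓝 0) := by
        have := tendsto_pow_atTop_nhds_zero_of_lt_one (r := (1 / 2 : ℝ)) (by norm_num) (by norm_num)
        refine this.congr fun n => ?_
        rw [one_div_pow]
      have := h4.const_sub 1
      rwa [sub_zero] at this
    have := h3.inv₀ one_ne_zero
    rwa [inv_one] at this
  · filter_upwards [eventually_ge_atTop 1] with j hj
    have h1 := rj_pos hj
    have h2 := rj_lt1 j
    exact (one_lt_inv₀ (by linarith)).2 h2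

theorem loglog_tendsto : Tendsto (fun j : ℕ => Real.log (Real.log (j : ℝ))) atTop atTop :=
  Real.tendsto_log_atTop.comp (Real.tendsto_log_atTop.comp tendsto_natCast_atTop_atTop)

/-- the gauge dominates the dyadic gauge -/
theorem gg_up : ∃ J : ℕ, 1 ≤ J ∧ ∀ j : ℕ, J ≤ j → ∀ r : ℝ, 1 < r → rj j ≤ r⁻¹ →
    20 * √(((j : ℝ) + 1) * Real.log (Real.log ((j : ℝ) + 1))) + 12 ≤ 40 * gg r := by
  have hL : Tendsto (fun j : ℕ => Real.log (Real.log ((j : ℝ) + 1))) atTop atTop :=
    Real.tendsto_log_atTop.comp (Real.tendsto_log_atTop.comp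
      (tendsto_atTop_add_const_right atTop (1 : ℝ) tendsto_natCast_atTop_atTop))
  obtain ⟨J, hJ⟩ := eventually_atTop.1 (hL.eventually_ge_atTop 100)
  refine ⟨max J 1000, (by norm_num : 1 ≤ 1000).trans (le_max_right _ _), fun j hj r hr hjr => ?_⟩
  have h1 := hJ j ((le_max_left _ _).trans hj)
  have h2 : (1000 : ℝ) ≤ j := by exact_mod_cast (le_max_right _ _).trans hj
  have hr0 : 0 < r := by linarith
  -- the size of `1 / (r - 1)`
  have h3 : (2 : ℝ) ^ j - 1 ≤ 1 / (r - 1) := by
    have h4 : r ≤ (rj j)⁻¹ := by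
      rw [le_inv_comm₀ hr0 (by linarith [rj_pos (show 1 ≤ j by
        have : (1 : ℝ) ≤ j := by linarith
        exact_mod_cast this)])]
      exact hjr
    have h5 := inv_rj (show 1 ≤ j by
        have : (1 : ℝ) ≤ j := by linarith
        exact_mod_cast this)
    have h6 : (0 : ℝ) < 2 ^ j - 1 := by
      have : (1 : ℝ) < 2 ^ j := one_lt_pow₀ (by norm_num) (by
        intro h; rw [h] at h2; norm_num at h2)
      linarith
    rw [le_div_iff₀ (by linarith)]
    have h7 : r - 1 ≤ 1 / (2 ^ j - 1) := by linarith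
    rw [le_div_iff₀ h6] at h7
    linarith
  have h4 : (2 : ℝ) ^ (j - 1) ≤ 1 / (r - 1) := by
    refine le_trans ?_ h3
    obtain ⟨k, rfl⟩ : ∃ k, j = k + 1 := ⟨j - 1, by
      have : (1 : ℝ) ≤ j := by linarith
      have : 1 ≤ j := by exact_mod_cast this
      omega⟩
    rw [Nat.add_sub_cancel, pow_succ]
    have : (1 : ℝ) ≤ 2 ^ k := one_le_pow₀ (by norm_num)
    linarith
  obtain ⟨y, hy⟩ : ∃ y : ℝ, y = Real.log (1 / (r - 1)) := ⟨_, rfl⟩
  have h5 : ((j : ℝ) - 1) * Real.log 2 ≤ y := by
    have h6 := Real.log_le_log (by positivity) h4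
    rw [Real.log_pow, ← hy, Nat.cast_sub (by
      have : (1 : ℝ) ≤ j := by linarith
      exact_mod_cast this), Nat.cast_one] at h6
    exact h6
  have hl2 := Real.log_two_gt_d9
  have h6 : (68 / 100 : ℝ) * ((j : ℝ) + 1) ≤ y := by nlinarith
  obtain ⟨x, hx⟩ : ∃ x : ℝ, x = (j : ℝ) + 1 := ⟨_, rfl⟩
  have hx0 : 1001 ≤ x := by linarith
  rw [← hx] at h1 h6 ⊢
  -- logarithms
  have hlx : 1 < Real.log x := by
    have : Real.log (Real.log x) > 0 := by linarith
    by_contra hcon
    push Not at hcon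
    have h7 : 0 ≤ Real.log x := Real.log_nonneg (by linarith)
    have := Real.log_nonpos h7 hcon
    linarith
  have h7 : Real.log x - 1 ≤ Real.log y := by
    have h8 : Real.log (68 / 100 * x) ≤ Real.log y := Real.log_le_log (by positivity) h6
    rw [Real.log_mul (by norm_num) (by positivity)] at h8
    have h9 : -1 ≤ Real.log (68 / 100) := by
      have := Real.one_sub_inv_le_log_of_pos (show (0 : ℝ) < 68 / 100 by norm_num)
      norm_num at this
      linarith
    linarith
  have hlx2 : 2 ≤ Real.log x := by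
    -- `log log x ≥ 100`
    have h8 := Real.log_le_sub_one_of_pos (show 0 < Real.log x by linarith)
    linarith
  have h8 : Real.log x / 2 ≤ Real.log y := by linarith
  have h9 : Real.log (Real.log x) - 1 ≤ Real.log (Real.log y) := by
    have h10 := Real.log_le_log (by linarith) h8
    rw [Real.log_div (by linarith) (by norm_num)] at h10
    have := Real.log_two_lt_d9
    linarith
  have h10 : (99 / 100) * Real.log (Real.log x) ≤ Real.log (Real.log y) := by linarith
  have hy0 : 0 ≤ y := by nlinarith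
  have h11 : (4 / 5) ^ 2 * (x * Real.log (Real.log x)) ≤ y * Real.log (Real.log y) := by
    have h12 : 68 / 100 * x * ((99 / 100) * Real.log (Real.log x)) ≤
        y * Real.log (Real.log y) := by
      apply mul_le_mul h6 h10 (by linarith) hy0
    nlinarith [mul_pos (show 0 < x by linarith) (show 0 < Real.log (Real.log x) by linarith)]
  have h12 : 4 / 5 * √(x * Real.log (Real.log x)) ≤ gg r := by
    unfold gg
    rw [← hy]
    have h13 : 4 / 5 * √(x * Real.log (Real.log x)) =
        √((4 / 5) ^ 2 * (x * Real.log (Real.log x))) := by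
      rw [Real.sqrt_mul (show (0 : ℝ) ≤ (4 / 5) ^ 2 by norm_num) (x * Real.log (Real.log x)),
        Real.sqrt_sq (show (0 : ℝ) ≤ 4 / 5 by norm_num)]
    rw [h13]
    exact Real.sqrt_le_sqrt h11
  have h13 : 1 ≤ √(x * Real.log (Real.log x)) := by
    rw [Real.one_le_sqrt]
    nlinarith
  linarith

end Pool.Agent.N673.TW.Fin
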