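import Pool.Agent.N673.TW.Stm2

set_option autoImplicit false

/-!
# Project TW (helper673), third part: gauge functions
-/

open Complex Filter Topology Metric Set MeasureTheory

namespace Pool.Agent.N673.TW

/-- the gauge function `t exp (a √(log (1/t) logloglog (1/t)))` -/
noncomputable def hg (a t : ℝ) : ℝ :=
  t * Real.exp (a * √(Real.log (1 / t) * Real.log (Real.log (Real.log (1 / t)))))

/-- sets of zero Hausdorff measure for the gauge function `h` -/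
def GaugeNull (h : ℝ → ℝ) (E : Set ℂ) : Prop :=
  ∀ ε : ℝ, 0 < ε → ∃ (c : ℕ → ℂ) (r : ℕ → ℝ), (∀ n, 0 < r n ∧ r n < ε) ∧
    E ⊆ (⋃ n, closedBall (c n) (r n)) ∧ Summable (fun n => h (r n)) ∧ ∑' n, h (r n) < ε

/-- MAKG: Makarov's theorem with a gauge function -/
def S_MAKG : Prop := ∀ φ : ℂ → ℂ, Univ φ → ∀ (a : ℝ) (Y : Set ℝ), 0 < a →
  (∀ θ ∈ Y, ∃ᶠ j : ℕ in atTop,
    Real.log ‖deriv φ (pt (rj j) θ)‖ ≤ -(a * √(j * Real.log (Real.log j)))) →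
  ∃ Z : Set ℝ, Z ⊆ Y ∧ volume (Y \ Z) = 0 ∧ GaugeNull (hg (a / 4)) {p : ℂ | ∃ θ ∈ Z, Lim φ θ p}

/-- GTR: the inversion preserves the null sets away from `0` -/
def S_GTR : Prop := ∀ (a : ℝ) (E : Set ℂ), 0 < a → (∀ p ∈ E, 1 / 2 ≤ ‖p‖) →
  GaugeNull (hg a) E → GaugeNull (hg a) ((fun p : ℂ => p⁻¹) '' E)

end Pool.Agent.N673.TW
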