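import Pool.Agent.N673.TW.Fin3
import Pool.Agent.N673.TW.Stm3

set_option autoImplicit false

/-!
# Two-sided law of the iterated logarithm for the Multibrot sets: in terms of the exterior map
-/

open Complex Filter Topology Metric Set MeasureTheory N62a1eb23

namespace Pool.Agent.N673.TW.Fin

open Pool.Agent.H712R2 Pool.Agent.H713R2 Pool.Agent.Y272.TY Pool.Agent.W677.Mar
open Pool.Agent.N673.TW.BL Pool.Agent.N673.TW.BM

variable {d : ℕ} {β H ψ : ℂ → ℂ}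

theorem inv_pt {r : ℝ} (θ : ℝ) : ((r : ℂ) * Complex.exp (θ * I))⁻¹ = pt r⁻¹ (-θ) := by
  unfold pt circleMap
  rw [mul_inv, ← Complex.exp_neg, zero_add]
  push_cast
  congr 2
  ring

/-- the logarithm of the derivative of the exterior map -/
theorem exp_L (hβ : IsBeta d β) (S : Sg β H) (hψ : IsExteriorMap (multibrotSet d) ψ) {z : ℂ}
    (hz : 1 < ‖z‖) : exp (H z⁻¹) = deriv ψ z := by
  obtain ⟨h1, h2⟩ := inv_mem_ball hz
  have hz0 : z ≠ 0 := fun h => h2 (by rw [h, inv_zero])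
  have hopen : IsOpen {z : ℂ | 1 < ‖z‖} := isOpen_lt continuous_const continuous_norm
  have h3 : ψ =ᶠ[𝓝 z] fun z => z * β z⁻¹ := by
    filter_upwards [hopen.mem_nhds hz] with w hw
    exact exteriorMap_unique hβ hψ hw
  have h4 : HasDerivAt β (deriv β z⁻¹) z⁻¹ :=
    (hβ.diff.differentiableAt (isOpen_ball.mem_nhds h1)).hasDerivAt
  have h5 : HasDerivAt (fun z => z * β z⁻¹) (1 * β z⁻¹ + z * (deriv β z⁻¹ * (-(z ^ 2)⁻¹))) z :=
    (hasDerivAt_id z).mul (h4.comp z (hasDerivAt_inv hz0))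
  rw [h3.deriv_eq, h5.deriv, S.eq _ h1]
  field_simp
  ring

theorem L_diff (S : Sg β H) : DifferentiableOn ℂ (fun z => H z⁻¹) {z | 1 < ‖z‖} := by
  intro z hz
  obtain ⟨h1, h2⟩ := inv_mem_ball hz
  have hz0 : z ≠ 0 := fun h => h2 (by rw [h, inv_zero])
  exact ((S.dH.differentiableAt (isOpen_ball.mem_nhds h1)).comp z
    (differentiableAt_inv_iff.mpr hz0)).differentiableWithinAt

theorem L_inf (S : Sg β H) : Tendsto (fun z => H z⁻¹) (Bornology.cobounded ℂ) (𝓝 0) := by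
  have h1 : ContinuousAt H 0 :=
    (S.dH.differentiableAt (ball_mem_nhds 0 one_pos)).continuousAt
  have h2 : Tendsto H (𝓝 0) (𝓝 0) := by
    have := h1.tendsto
    rwa [S.H0] at this
  exact h2.comp (tendsto_inv_cob.mono_right nhdsWithin_le_nhds)

theorem near_norm (S : Sg β H) (θ : ℝ) (j : ℕ) {r : ℝ} (h1 : rj j ≤ r) (h2 : r ≤ rj (j + 1)) :
    ‖H (pt r θ)‖ ≤ ‖H (pt (rj j) θ)‖ + 12 := by
  have h3 := Pool.Agent.Y430.TY.near S.dH (fun w hw => H_bloch S hw) (ρ := rj j) (r := r) (θ := θ)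
    (rj_nn j) h1 (h2.trans_lt (rj_lt1 _))
  have h4 : (1 - rj j) / (1 - r) ≤ 2 := by
    have h5 : 1 / 2 ^ (j + 1) ≤ 1 - r := by rw [← one_sub_rj (j + 1)]; linarith
    have h6 : (0 : ℝ) < 1 / 2 ^ (j + 1) := by positivity
    rw [div_le_iff₀ (by linarith), one_sub_rj]
    have h7 : (1 : ℝ) / 2 ^ j = 2 * (1 / 2 ^ (j + 1)) := by rw [pow_succ]; field_simp
    linarith
  have h5 : ‖H (pt (rj j) θ) - H (pt r θ)‖ ≤ 12 := h3.trans (by linarith)
  calc ‖H (pt r θ)‖ = ‖H (pt (rj j) θ) - (H (pt (rj j) θ) - H (pt r θ))‖ := by congr 1; ring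
    _ ≤ ‖H (pt (rj j) θ)‖ + ‖H (pt (rj j) θ) - H (pt r θ)‖ := norm_sub_le _ _
    _ ≤ _ := by gcongr

/-- the upper half for all radii -/
theorem upper (S : Sg β H) {θ : ℝ} (h : ∀ᶠ j : ℕ in atTop,
    ‖H (pt (rj j) (-θ))‖ ≤ 20 * √(j * Real.log (Real.log j))) :
    ∀ᶠ r : ℝ in 𝓝[>] 1, ‖H ((r : ℂ) * Complex.exp (θ * I))⁻¹‖ ≤ 40 * gg r := by
  obtain ⟨J₁, hJ₁⟩ := eventually_atTop.1 h
  obtain ⟨J₂, hJ₂, h2⟩ := gg_up
  obtain ⟨J, hJ⟩ : ∃ J : ℕ, J = max (max J₁ J₂) 3 := ⟨_, rfl⟩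
  have hJ1 : J₁ ≤ J := by rw [hJ]; exact (le_max_left _ _).trans (le_max_left _ _)
  have hJ2 : J₂ ≤ J := by rw [hJ]; exact (le_max_right _ _).trans (le_max_left _ _)
  have hJ3 : 3 ≤ J := by rw [hJ]; exact le_max_right _ _
  have hJr := rj_pos (show 1 ≤ J by omega)
  have hlt : (1 : ℝ) < (rj J)⁻¹ := (one_lt_inv₀ (by linarith)).2 (rj_lt1 J)
  filter_upwards [Ioo_mem_nhdsGT hlt] with r hr
  have hr0 : 0 < r := by linarith [hr.1]
  have hs1 : r⁻¹ < 1 := inv_lt_one_of_one_lt₀ hr.1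
  have hs0 : 0 < r⁻¹ := inv_pos.2 hr0
  have hsJ : rj J ≤ r⁻¹ := by
    rw [le_inv_comm₀ (by linarith) hr0]
    exact hr.2.le
  have hu : 0 < 1 - r⁻¹ := by linarith
  obtain ⟨j, hj1, hj2⟩ := exists_nat_pow_near (x := (1 - r⁻¹)⁻¹) (y := (2 : ℝ))
    (by rw [one_le_inv₀ hu]; linarith) (by norm_num)
  have hj3 : rj j ≤ r⁻¹ := by
    rw [le_inv_comm₀ (by positivity) hu] at hj1
    have := one_sub_rj j
    rw [one_div] at this
    linarith
  have hj4 : r⁻¹ ≤ rj (j + 1) := by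
    rw [inv_lt_comm₀ hu (by positivity)] at hj2
    have := one_sub_rj (j + 1)
    rw [one_div] at this
    linarith
  have hjJ : J ≤ j := by
    by_contra hcon
    push Not at hcon
    have h5 : (2 : ℝ) ^ (j + 1) ≤ 2 ^ J := pow_le_pow_right₀ (by norm_num) (by omega)
    have h6 : (2 : ℝ) ^ J ≤ (1 - r⁻¹)⁻¹ := by
      rw [le_inv_comm₀ (by positivity) hu]
      have := one_sub_rj J
      rw [one_div] at this
      linarith
    linarith
  have h3 := near_norm S (-θ) j hj3 hj4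
  have h4 := hJ₁ j (hJ1.trans hjJ)
  have h5 := h2 j (hJ2.trans hjJ) r hr.1 hj3
  have h6 : √((j : ℝ) * Real.log (Real.log j)) ≤
      √(((j : ℝ) + 1) * Real.log (Real.log ((j : ℝ) + 1))) := by
    have hj5 : (3 : ℝ) ≤ j := by exact_mod_cast hJ3.trans hjJ
    have h7 : 1 ≤ Real.log j := by
      rw [Real.le_log_iff_exp_le (by linarith)]
      linarith [exp_one_lt_three]
    have h8 : Real.log j ≤ Real.log ((j : ℝ) + 1) := Real.log_le_log (by linarith) (by linarith)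
    have h9 : Real.log (Real.log j) ≤ Real.log (Real.log ((j : ℝ) + 1)) :=
      Real.log_le_log (by linarith) h8
    have h10 : 0 ≤ Real.log (Real.log j) := Real.log_nonneg h7
    apply Real.sqrt_le_sqrt
    apply mul_le_mul (by linarith) h9 h10 (by linarith)
  rw [inv_pt]
  linarith

/-- the lower half -/
theorem lower {θ c α : ℝ} (hc : 0 < c) (h : ∃ᶠ j : ℕ in atTop,
    c * √(j * Real.log (Real.log j)) ≤ (exp (α * I) * H (pt (rj j) (-θ))).re) :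
    ∃ᶠ r : ℝ in 𝓝[>] 1, c * gg r ≤ (exp (α * I) * H ((r : ℂ) * Complex.exp (θ * I))⁻¹).re := by
  refine tendsto_inv_rj.frequently ?_
  refine (h.and_eventually gg_low).mono fun j hj => ?_
  rw [inv_pt, inv_inv]
  exact (mul_le_mul_of_nonneg_left hj.2 hc.le).trans hj.1

theorem GaugeNull.mono {h : ℝ → ℝ} {E F : Set ℂ} (hF : GaugeNull h F) (hEF : E ⊆ F) :
    GaugeNull h E := by
  intro ε hε
  obtain ⟨c, r, h1, h2, h3, h4⟩ := hF ε hε
  exact ⟨c, r, h1, hEF.trans h2, h3, h4⟩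

/-- landing of the exterior map in the disc coordinate -/
theorem landing (hd : 2 ≤ d) (hβ : IsBeta d β) (hψ : IsExteriorMap (multibrotSet d) ψ) {θ : ℝ}
    {c₀ : ℂ} (h : Tendsto (fun r : ℝ => ψ (r * Complex.exp (θ * I))) (𝓝[>] 1) (𝓝 c₀)) :
    Lim (Ff β) (-θ) c₀⁻¹ := by
  have h1 : Tendsto (fun r : ℝ => r⁻¹) (𝓝[<] 1) (𝓝[>] 1) := by
    rw [tendsto_nhdsWithin_iff]
    constructor
    · have : Tendsto (fun r : ℝ => r⁻¹) (𝓝 1) (𝓝 (1 : ℝ)⁻¹) :=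
        (continuousAt_inv₀ one_ne_zero).tendsto
      rw [inv_one] at this
      exact this.mono_left nhdsWithin_le_nhds
    · have h4 : ∀ᶠ ρ : ℝ in 𝓝[<] 1, 0 < ρ :=
        mem_nhdsWithin_of_mem_nhds (lt_mem_nhds (by norm_num : (0 : ℝ) < 1))
      filter_upwards [self_mem_nhdsWithin, h4] with r hr h0
      have hr' : r < (1 : ℝ) := hr
      exact (one_lt_inv₀ h0).2 hr'
  have h4 : ∀ᶠ ρ : ℝ in 𝓝[<] 1, 0 < ρ ∧ ρ < 1 := by
    have h4 : ∀ᶠ ρ : ℝ in 𝓝[<] 1, 0 < ρ :=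
      mem_nhdsWithin_of_mem_nhds (lt_mem_nhds (by norm_num : (0 : ℝ) < 1))
    filter_upwards [self_mem_nhdsWithin, h4] with r hr h0 using ⟨h0, hr⟩
  have h2 : Tendsto (fun s : ℝ => cc β (pt s (-θ))) (𝓝[<] 1) (𝓝 c₀) := by
    refine (h.comp h1).congr' ?_
    filter_upwards [h4] with s hs
    simp only [Function.comp]
    have := psi_eq hβ hψ (r := s⁻¹) ((one_lt_inv₀ hs.1).2 hs.2) θ
    rw [this, inv_inv]
    rfl
  have h3 : (1 / 4 : ℝ) ≤ ‖c₀‖ := by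
    refine ge_of_tendsto h2.norm ?_
    filter_upwards [h4] with s hs
    refine cc_low hd hβ (ptm _ hs.1.le hs.2) ?_
    intro h0
    have h5 : ‖pt s (-θ)‖ = s := norm_pt s (-θ) hs.1.le
    rw [h0, norm_zero] at h5
    linarith [hs.1]
  have hc0 : c₀ ≠ 0 := by intro h0; rw [h0, norm_zero] at h3; norm_num at h3
  refine (h2.inv₀ hc0).congr fun s => ?_
  rw [Ff_eq]

theorem fin (hG : S_MAKG) (hT : S_GTR) (hd : 2 ≤ d) (hψ : IsExteriorMap (multibrotSet d) ψ) :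
    ∃ L : ℂ → ℂ, DifferentiableOn ℂ L {z | 1 < ‖z‖} ∧ (∀ z : ℂ, 1 < ‖z‖ → exp (L z) = deriv ψ z) ∧
      Tendsto L (Bornology.cobounded ℂ) (𝓝 0) ∧
      (∀ᵐ θ : ℝ,
        (∃ c₀ ∈ frontier (multibrotSet d),
          Tendsto (fun r : ℝ => ψ (r * Complex.exp (θ * I))) (𝓝[>] 1) (𝓝 c₀)) ∧
        (∀ᶠ r : ℝ in 𝓝[>] 1, ‖L (r * Complex.exp (θ * I))‖ ≤ 40 * gg r) ∧
        ∃ c : ℝ, 0 < c ∧ ∀ α : ℝ, ∃ᶠ r : ℝ in 𝓝[>] 1,
          c * gg r ≤ (exp (α * I) * L (r * Complex.exp (θ * I))).re) ∧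
      ∃ Z : ℕ → Set ℝ, (∀ᵐ θ : ℝ, ∃ k, θ ∈ Z k) ∧ ∀ k : ℕ, GaugeNull (hg (1 / ((k : ℝ) + 1)))
        {c₀ : ℂ | ∃ θ ∈ Z k, Tendsto (fun r : ℝ => ψ (r * Complex.exp (θ * I))) (𝓝[>] 1) (𝓝 c₀)} := by
  obtain ⟨β, hβ⟩ := exists_beta hd
  obtain ⟨H, S⟩ := Pool.Agent.Y430.TY.exists_sg hβ
  have hBl : Bl H := ⟨S.dH, fun w hw => H_bloch S hw⟩
  have hU := Ff_univ hd hβ
  -- the lower half in the disc coordinate
  have hlow : ∀ᵐ θ : ℝ, ∃ c : ℝ, 0 < c ∧ ∀ α : ℝ, ∃ᶠ j : ℕ in atTop,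
      c * √(j * Real.log (Real.log j)) ≤ (exp (α * I) * H (pt (rj j) θ)).re := by
    filter_upwards [nf_ae hd hβ S, low H hBl] with θ h1 h2
    obtain ⟨c0, -, -, h3⟩ := h1
    exact h2 h3
  refine ⟨fun z => H z⁻¹, L_diff S, fun z hz => exp_L hβ S hψ hz, L_inf S, ?_, ?_⟩
  · filter_upwards [ae_neg' hlow, ae_neg' (nf_ae hd hβ S), ae_neg' (Pool.Agent.N673.TW.Upl.t H hBl)]
      with θ h1 h2 h3
    refine ⟨?_, upper S h3, ?_⟩
    · obtain ⟨c0, hc0, hfr, -⟩ := h2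
      refine ⟨c0, hfr, ?_⟩
      have h4 : Tendsto (fun r : ℝ => r⁻¹) (𝓝[>] 1) (𝓝[<] 1) := by
        rw [tendsto_nhdsWithin_iff]
        constructor
        · have : Tendsto (fun r : ℝ => r⁻¹) (𝓝 1) (𝓝 (1 : ℝ)⁻¹) :=
            (continuousAt_inv₀ one_ne_zero).tendsto
          rw [inv_one] at this
          exact this.mono_left nhdsWithin_le_nhds
        · filter_upwards [self_mem_nhdsWithin] with r hr
          have hr' : (1 : ℝ) < r := hr
          exact inv_lt_one_of_one_lt₀ hr'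
      refine (hc0.comp h4).congr' ?_
      filter_upwards [self_mem_nhdsWithin] with r hr
      exact (psi_eq hβ hψ hr θ).symm
    · obtain ⟨c, hc, h4⟩ := h1
      exact ⟨c, hc, fun α => lower hc (h4 α)⟩
  · -- the gauge
    have h1 : ∀ k : ℕ, ∃ Z : Set ℝ, Z ⊆ {θ : ℝ | ∃ᶠ j : ℕ in atTop,
        Real.log ‖deriv (Ff β) (pt (rj j) θ)‖ ≤
          -(4 / ((k : ℝ) + 1) * √(j * Real.log (Real.log j)))} ∧
        volume ({θ : ℝ | ∃ᶠ j : ℕ in atTop, Real.log ‖deriv (Ff β) (pt (rj j) θ)‖ ≤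
          -(4 / ((k : ℝ) + 1) * √(j * Real.log (Real.log j)))} \ Z) = 0 ∧
        GaugeNull (hg (4 / ((k : ℝ) + 1) / 4)) {p : ℂ | ∃ θ ∈ Z, Lim (Ff β) θ p} := fun k =>
      hG (Ff β) hU (4 / ((k : ℝ) + 1)) _ (by positivity) fun θ hθ => hθ
    choose Z hZ1 hZ2 hZ3 using h1
    refine ⟨fun k => {θ | -θ ∈ Z k}, ?_, ?_⟩
    · have h2 : ∀ᵐ θ : ℝ, ∃ k, θ ∈ Z k := by
        have h3 : ∀ᵐ θ : ℝ, ∀ k : ℕ, ¬ (θ ∈ {θ : ℝ | ∃ᶠ j : ℕ in atTop,
            Real.log ‖deriv (Ff β) (pt (rj j) θ)‖ ≤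
              -(4 / ((k : ℝ) + 1) * √(j * Real.log (Real.log j)))} \ Z k) :=
          ae_all_iff.2 fun k => by
            rw [ae_iff]
            simp only [not_not]
            exact hZ2 k
        filter_upwards [h3, hlow] with θ h3 h4
        obtain ⟨c, hc, h5⟩ := h4
        obtain ⟨k, hk⟩ := exists_nat_gt (8 / c)
        refine ⟨k, ?_⟩
        by_contra hcon
        refine h3 k ⟨?_, hcon⟩
        have h6 := h5 Real.pi
        have h7 : ∀ᶠ j : ℕ in atTop, 8 / c ≤ √((j : ℝ) * Real.log (Real.log j)) := by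
          have h8 : Tendsto (fun j : ℕ => √((j : ℝ) * Real.log (Real.log j))) atTop atTop :=
            Real.tendsto_sqrt_atTop.comp
              (tendsto_natCast_atTop_atTop.atTop_mul_atTop₀ loglog_tendsto)
          exact h8.eventually_ge_atTop _
        refine (h6.and_eventually h7).mono fun j hj => ?_
        obtain ⟨h8, h9⟩ := hj
        rw [Complex.exp_pi_mul_I, neg_one_mul, neg_re] at h8
        have h10 := (abs_le.1 (Ff_log_sub hd hβ S (ptm θ (rj_nn j) (rj_lt1 j)))).2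
        have h11 : 4 / ((k : ℝ) + 1) ≤ c / 2 := by
          rw [div_lt_iff₀ hc] at hk
          rw [div_le_iff₀ (by positivity)]
          nlinarith
        have h12 : 4 ≤ c / 2 * √((j : ℝ) * Real.log (Real.log j)) := by
          rw [div_le_iff₀ hc] at h9
          linarith
        have h13 : 4 / ((k : ℝ) + 1) * √((j : ℝ) * Real.log (Real.log j)) ≤
            c / 2 * √((j : ℝ) * Real.log (Real.log j)) := by gcongr
        linarith
      filter_upwards [ae_neg' h2] with θ hθ using hθ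
    · intro k
      have h2 : (4 / ((k : ℝ) + 1) / 4) = 1 / ((k : ℝ) + 1) := by
        field_simp
      have h3 := hT (1 / ((k : ℝ) + 1)) {p : ℂ | ∃ θ ∈ Z k, Lim (Ff β) θ p} (by positivity)
        (by
          rintro p ⟨θ, -, hp⟩
          exact (lim_bounds hd hβ hp).1) (by rw [← h2]; exact hZ3 k)
      refine GaugeNull.mono h3 ?_
      rintro c₀ ⟨θ, hθ, hc₀⟩
      exact ⟨c₀⁻¹, ⟨-θ, hθ, landing hd hβ hψ hc₀⟩, inv_inv c₀⟩

end Pool.Agent.N673.TW.Fin
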