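import Pool.Agent.N673.TW.Har3

set_option autoImplicit false

/-!
# Project TW, part 4: the rate of landing is sharp
-/

open Complex Filter Topology Metric Set MeasureTheory

namespace Pool.Agent.N673.TW.Har

open Pool.Agent.H712R2 Pool.Agent.H713R2 Pool.Agent.Y272.TY Pool.Agent.W677.Mar
open Pool.Agent.N673.TW.BL Pool.Agent.N673.TW.BM

variable {d : ℕ} {β H ψ : ℂ → ℂ} {θ A : ℝ} {c0 R' : ℂ} {M : Set ℂ} {N : ℝ → ℕ} {R₀ B D C : ℝ}

/-- small values of the rate of landing -/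
theorem rad_lo (hCor : S_COR) (T : Typ d β θ c0 A R') (S : Sg β H)
    (h : Hy M ψ c0 d N R₀ B D C) {c : ℝ} (hc : 0 < c)
    (h4 : ∃ᶠ R in 𝓝[>] (0 : ℝ), c * sq (N R) ≤ -1 * la d H θ (N R)) {ζ : ℂ} (hζ : ‖ζ‖ = 1)
    (hland : Tendsto (fun t : ℝ => ψ (Real.exp t * ζ)) (𝓝[>] 0) (𝓝 c0)) :
    ∃ c' : ℝ, 0 < c' ∧ ∃ᶠ x in 𝓝[>] (0 : ℝ),
      ‖ψ (((1 + x : ℝ) : ℂ) * ζ) - c0‖ ≤ x * Real.exp (-(c' * lg x)) := by
  have hdR : (2 : ℝ) ≤ d := by exact_mod_cast h.d2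
  have hlogd : 0 < Real.log d := Real.log_pos (by linarith)
  obtain ⟨K, R₁, hK1, hR₁, hR₁', hCo⟩ := hCor M ψ c0 d N R₀ B D C h
  obtain ⟨C₁, hC₁, h1⟩ := rel T S h
  have hB := h.B0
  obtain ⟨K₂, hK₂, h2⟩ := cmp (a := Real.log d) (b := Real.log d + B + 1) hlogd (by linarith)
  have hNt := N_tendsto h
  refine ⟨c / (4 * K₂), by positivity, ?_⟩
  apply freq_of
  intro ε hε
  obtain ⟨n₀, hn₀⟩ : ∃ n₀ : ℕ, 1 / ε < (2 : ℝ) ^ n₀ := pow_unbounded_of_one_lt _ (by norm_num)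
  obtain ⟨R, g0, g1, g2, g3, g4⟩ := (h4.and_eventually ((hNt.eventually h2).and
    ((hNt.eventually (lsq (2 * (|Real.log K| + 1 + B + C₁) / c))).and
    ((hNt.eventually_ge_atTop (max n₀ 5)).and (Ioo_mem_nhdsGT hR₁))))).exists
  obtain ⟨n, hn⟩ : ∃ n : ℕ, n = N R := ⟨_, rfl⟩
  have hR : 0 < R := g4.1
  have g5 := h1 R hR (g4.2.le.trans hR₁')
  have hlog1 := log_ge_one h hR (g4.2.le.trans hR₁')
  have hco := hCo ζ hζ hland R hR g4.2.le
  rw [← hn] at g0 g1 g2 g3 g5 hco hlog1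
  have hn5 : 5 ≤ n := (le_max_right _ _).trans g3
  have hnR : (5 : ℝ) ≤ n := by exact_mod_cast hn5
  have hdn : (0 : ℝ) < (d : ℝ) ^ n := by positivity
  have hnB : (1 : ℝ) ≤ ((n : ℝ) + 2) ^ B := Real.one_le_rpow (by linarith) hB
  obtain ⟨δ, hδ⟩ : ∃ δ : ℝ, δ = 1 / (2 * ((d : ℝ) ^ n * ((n : ℝ) + 2) ^ B)) := ⟨_, rfl⟩
  have hδ0 : 0 < δ := by rw [hδ]; positivity
  have h2n : (2 : ℝ) ^ n ≤ (d : ℝ) ^ n := pow_le_pow_left₀ (by norm_num) hdR n
  have hδ1 : δ ≤ 1 / (2 * 2 ^ n) := by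
    rw [hδ]
    apply one_div_le_one_div_of_le (by positivity)
    nlinarith
  have hδε : δ < ε := by
    have e1 : (2 : ℝ) ^ n₀ ≤ 2 ^ n := pow_le_pow_right₀ (by norm_num) ((le_max_left _ _).trans g3)
    have e2 : 1 / ε < 2 ^ n := hn₀.trans_le e1
    rw [div_lt_iff₀ hε] at e2
    refine hδ1.trans_lt ?_
    rw [div_lt_iff₀ (by positivity)]
    nlinarith [pow_pos (show (0 : ℝ) < 2 by norm_num) n]
  have hδ8 : δ ≤ 1 / 8 := by
    have e1 : (2 : ℝ) ^ 5 ≤ 2 ^ n := pow_le_pow_right₀ (by norm_num) hn5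
    refine hδ1.trans ?_
    apply one_div_le_one_div_of_le (by norm_num)
    linarith
  have hwn : ‖((1 + δ : ℝ) : ℂ) * ζ‖ = 1 + δ := by
    rw [norm_mul, hζ, mul_one, Complex.norm_real, Real.norm_of_nonneg (by linarith)]
  have hwz : ‖((1 + δ : ℝ) : ℂ) * ζ - ζ‖ = δ := by
    have : ((1 + δ : ℝ) : ℂ) * ζ - ζ = (δ : ℂ) * ζ := by push_cast; ring
    rw [this, norm_mul, hζ, mul_one, Complex.norm_real, Real.norm_of_nonneg hδ0.le]
  have g6 := hco (((1 + δ : ℝ) : ℂ) * ζ) (by rw [hwn]; linarith) (by rw [hwz]; exact hδ8)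
    (by
      rw [hwz, hδ]
      rw [one_div, mul_inv, mul_assoc, inv_mul_cancel₀ (by positivity)]
      norm_num)
  refine ⟨δ, hδ0, hδε, g6.trans ?_⟩
  have hlogδ : Real.log δ = -(Real.log 2 + n * Real.log d + B * Real.log ((n : ℝ) + 2)) := by
    rw [hδ, one_div, Real.log_inv, Real.log_mul (by norm_num) (by positivity),
      Real.log_mul hdn.ne' (by positivity), Real.log_pow, Real.log_rpow (by linarith)]
    ring
  have hlog2 : 0 < Real.log 2 := Real.log_pos (by norm_num)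
  have hlog2' : Real.log 2 < 1 := by linarith [Real.log_two_lt_d9]
  have hlogn : Real.log ((n : ℝ) + 2) ≤ n := by
    have h7 : Real.log ((n : ℝ) + 2) = Real.log 2 + Real.log (((n : ℝ) + 2) / 2) := by
      rw [← Real.log_mul (by norm_num) (by positivity)]
      congr 1
      ring
    have h8 := Real.log_le_sub_one_of_pos (show 0 < ((n : ℝ) + 2) / 2 by positivity)
    linarith
  obtain ⟨g7, -⟩ := g1 (Real.log (1 / δ)) (by
      rw [one_div, Real.log_inv, hlogδ]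
      have : 0 ≤ B * Real.log ((n : ℝ) + 2) := by positivity
      linarith) (by
      rw [one_div, Real.log_inv, hlogδ]
      have : B * Real.log ((n : ℝ) + 2) ≤ B * n := by gcongr
      linarith)
  have g8 : lg δ ≤ K₂ * sq n := g7
  have g9 : c / (4 * K₂) * lg δ ≤ c / 4 * sq n := by
    calc c / (4 * K₂) * lg δ ≤ c / (4 * K₂) * (K₂ * sq n) := by gcongr
      _ = _ := by field_simp
  have g10 : (|Real.log K| + 1 + B + C₁) * Real.log ((n : ℝ) + 2) ^ 2 ≤ c / 2 * sq n := by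
    have e : 2 * (|Real.log K| + 1 + B + C₁) / c * Real.log ((n : ℝ) + 2) ^ 2 =
      (|Real.log K| + 1 + B + C₁) * Real.log ((n : ℝ) + 2) ^ 2 * 2 / c := by ring
    rw [e, div_le_iff₀ hc] at g2
    linarith
  have hsq : 0 ≤ sq n := Real.sqrt_nonneg _
  have hcs : 0 ≤ c * sq n := mul_nonneg hc.le hsq
  have hl1 : Real.log ((n : ℝ) + 2) ≤ Real.log ((n : ℝ) + 2) ^ 2 := by
    rw [pow_two]; exact le_mul_of_one_le_left (by linarith) hlog1
  have hl2 : (1 : ℝ) ≤ Real.log ((n : ℝ) + 2) ^ 2 := one_le_pow₀ hlog1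
  have g11 : Real.log K + Real.log 2 + B * Real.log ((n : ℝ) + 2) +
      C₁ * Real.log ((n : ℝ) + 2) ^ 2 ≤ c / 2 * sq n := by
    refine le_trans ?_ g10
    have e1 : |Real.log K| * 1 ≤ |Real.log K| * Real.log ((n : ℝ) + 2) ^ 2 := by gcongr
    have e2 : B * Real.log ((n : ℝ) + 2) ≤ B * Real.log ((n : ℝ) + 2) ^ 2 := by gcongr
    have e3 := le_abs_self (Real.log K)
    rw [add_mul, add_mul, add_mul]
    linarith
  have g12 := (abs_le.1 g5).2
  have hKR : 0 < K * R := by positivity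
  rw [← Real.log_le_log_iff hKR (by positivity), Real.log_mul (by positivity) hR.ne',
    Real.log_mul hδ0.ne' (Real.exp_pos _).ne', Real.log_exp, hlogδ]
  linarith

theorem lg_tendsto : Tendsto lg (𝓝[>] 0) atTop := by
  have h1 : Tendsto (fun x : ℝ => Real.log (1 / x)) (𝓝[>] 0) atTop := by
    simp_rw [one_div]
    exact Real.tendsto_log_atTop.comp tendsto_inv_nhdsGT_zero
  have h2 : Tendsto (fun x : ℝ => Real.log (Real.log x)) atTop atTop :=
    Real.tendsto_log_atTop.comp Real.tendsto_log_atTop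
  have h3 : Tendsto (fun x : ℝ => x * Real.log (Real.log x)) atTop atTop :=
    tendsto_id.atTop_mul_atTop₀ h2
  exact Real.tendsto_sqrt_atTop.comp (h3.comp h1)

/-- Koebe -/
theorem koe (hψ : IsExteriorMap M ψ) (hc0 : c0 ∈ M) : ∃ k : ℝ, 0 < k ∧ ∀ z : ℂ, 1 < ‖z‖ →
    k * (‖z‖ - 1) * ‖deriv ψ z‖ ≤ ‖ψ z - c0‖ := by
  obtain ⟨C0, k, hK⟩ := Pool.Agent.W746.LD.exists_KC
  refine ⟨k, hK.pos, fun z hz => ?_⟩
  have hsub : ball z (‖z‖ - 1) ⊆ {w : ℂ | 1 < ‖w‖} := by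
    intro w hw
    rw [mem_ball, dist_eq_norm] at hw
    have := norm_sub_norm_le z w
    rw [norm_sub_rev] at this
    show 1 < ‖w‖
    linarith
  refine hK.komit ψ z (‖z‖ - 1) (by linarith) ⟨hψ.diff.mono hsub, hψ.inj.mono hsub⟩ c0 ?_
  intro w hw hh
  have h1 : ψ w ∈ Mᶜ := by
    rw [← hψ.image]
    exact mem_image_of_mem ψ (hsub hw)
  rw [hh] at h1
  exact h1 hc0

/-- large values of the rate of landing -/
theorem rad_up (hψ : IsExteriorMap M ψ) (hc0 : c0 ∈ M) {L : ℂ → ℂ}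
    (hL : ∀ z : ℂ, 1 < ‖z‖ → exp (L z) = deriv ψ z) {ζ : ℂ} (hζ : ‖ζ‖ = 1) {c : ℝ} (hc : 0 < c)
    (h : ∃ᶠ r : ℝ in 𝓝[>] 1, c * lg (r - 1) ≤ (L (r * ζ)).re) :
    ∃ᶠ r : ℝ in 𝓝[>] 1, (r - 1) * Real.exp (c / 2 * lg (r - 1)) ≤ ‖ψ (r * ζ) - c0‖ := by
  obtain ⟨k, hk, h1⟩ := koe hψ hc0
  have ht : Tendsto (fun r : ℝ => r - 1) (𝓝[>] 1) (𝓝[>] 0) := by
    rw [tendsto_nhdsWithin_iff]
    constructor
    · have : Tendsto (fun r : ℝ => r - 1) (𝓝 1) (𝓝 (1 - 1)) :=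
        (continuous_id.sub continuous_const).tendsto 1
      rw [sub_self] at this
      exact this.mono_left nhdsWithin_le_nhds
    · filter_upwards [self_mem_nhdsWithin] with r hr
      have hr : (1 : ℝ) < r := hr
      exact sub_pos.2 hr
  have h2 := (lg_tendsto.comp ht).eventually_ge_atTop (2 / c * |Real.log k|)
  refine (h.and_eventually (h2.and self_mem_nhdsWithin)).mono fun r hr => ?_
  obtain ⟨h3, h4, h5⟩ := hr
  have h5 : 1 < r := h5
  have h6 : ‖(r : ℂ) * ζ‖ = r := by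
    rw [norm_mul, hζ, mul_one, Complex.norm_real, Real.norm_of_nonneg (by linarith)]
  have h7 := h1 (r * ζ) (by rw [h6]; exact h5)
  rw [h6, ← hL _ (by rw [h6]; exact h5), Complex.norm_exp] at h7
  refine le_trans ?_ h7
  have h8 : 2 / c * |Real.log k| ≤ lg (r - 1) := h4
  have h9 : |Real.log k| ≤ c / 2 * lg (r - 1) := by
    have : |Real.log k| = c / 2 * (2 / c * |Real.log k|) := by field_simp
    rw [this]
    gcongr
  have h10 : 1 ≤ k * Real.exp (c / 2 * lg (r - 1)) := by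
    rw [← Real.log_nonneg_iff (by positivity), Real.log_mul hk.ne' (Real.exp_pos _).ne',
      Real.log_exp]
    linarith [neg_abs_le (Real.log k)]
  have h11 : Real.exp (c * lg (r - 1)) ≤ Real.exp (L (r * ζ)).re := Real.exp_le_exp.2 h3
  calc (r - 1) * Real.exp (c / 2 * lg (r - 1)) =
        1 * ((r - 1) * Real.exp (c / 2 * lg (r - 1))) := by ring
    _ ≤ (k * Real.exp (c / 2 * lg (r - 1))) * ((r - 1) * Real.exp (c / 2 * lg (r - 1))) := by
        have : 0 ≤ (r - 1) * Real.exp (c / 2 * lg (r - 1)) :=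
          mul_nonneg (by linarith) (Real.exp_pos _).le
        gcongr
    _ = k * (r - 1) * Real.exp (c * lg (r - 1)) := by
        rw [show c * lg (r - 1) = c / 2 * lg (r - 1) + c / 2 * lg (r - 1) by ring, Real.exp_add]
        ring
    _ ≤ _ := by
        have : 0 ≤ k * (r - 1) := mul_nonneg hk.le (by linarith)
        gcongr

end Pool.Agent.N673.TW.Har
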