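import Pool.Agent.N673.TW.Fin4
import Pool.Agent.N673.TW.Har4

set_option autoImplicit false

/-!
# Fine structure of the Multibrot sets at almost every boundary point
-/

open Complex Filter Topology Metric Set MeasureTheory N62a1eb23

namespace Pool.Agent.N673.TW.Fin

open Pool.Agent.H712R2 Pool.Agent.H713R2 Pool.Agent.Y272.TY Pool.Agent.W677.Mar
open Pool.Agent.N673.TW.BL Pool.Agent.N673.TW.BM Pool.Agent.N673.TW.Har

variable {d : ℕ} {β H ψ : ℂ → ℂ}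

/-- the properties at the landing point `c₀` of the ray of angle `θ` -/
def Pt (d : ℕ) (ψ L : ℂ → ℂ) (θ : ℝ) (c₀ : ℂ) : Prop :=
  ∃ C c : ℝ, 0 < C ∧ 0 < c ∧
    -- local connectivity
    (∀ᶠ r : ℝ in 𝓝[>] 0, ∀ x ∈ multibrotSet d, ‖x - c₀‖ ≤ r → ∃ S : Set ℂ,
      S ⊆ multibrotSet d ∧ IsCompact S ∧ IsConnected S ∧ x ∈ S ∧ c₀ ∈ S ∧
      S ⊆ closedBall c₀ (r * Real.log (1 / r) ^ C)) ∧
    -- continuity of the exterior map
    (∀ᶠ w in 𝓝[{w : ℂ | 1 < ‖w‖}] exp (θ * I),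
      ‖ψ w - c₀‖ ≤ ‖w - exp (θ * I)‖ * Real.exp (C * lg ‖w - exp (θ * I)‖)) ∧
    (∃ᶠ r : ℝ in 𝓝[>] 1, (r - 1) * Real.exp (c * lg (r - 1)) ≤ ‖ψ (r * exp (θ * I)) - c₀‖) ∧
    (∃ᶠ r : ℝ in 𝓝[>] 1, ‖ψ (r * exp (θ * I)) - c₀‖ ≤ (r - 1) * Real.exp (-(c * lg (r - 1)))) ∧
    -- harmonic measure
    (∀ᶠ r : ℝ in 𝓝[>] 0, r * Real.exp (-(C * lg r)) ≤ harm ψ c₀ r ∧
      harm ψ c₀ r ≤ r * Real.exp (C * lg r)) ∧
    (∃ᶠ r : ℝ in 𝓝[>] 0, r * Real.exp (c * lg r) ≤ harm ψ c₀ r) ∧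
    (∃ᶠ r : ℝ in 𝓝[>] 0, harm ψ c₀ r ≤ r * Real.exp (-(c * lg r))) ∧
    -- the logarithm of the derivative
    (∀ᶠ r : ℝ in 𝓝[>] 1, ‖L (r * exp (θ * I))‖ ≤ 40 * lg (r - 1)) ∧
    ∀ α : ℝ, ∃ᶠ r : ℝ in 𝓝[>] 1, c * lg (r - 1) ≤ (exp (α * I) * L (r * exp (θ * I))).re

theorem lg_nonneg (x : ℝ) : 0 ≤ lg x := Real.sqrt_nonneg _

theorem fin5 (hSHD : S_SHD) (hNN : S_NN) (hCOR : S_COR) (hUNR : S_UNR) (hLCM : S_LCM)
    (hHR : S_HR1) (hG : S_MAKG) (hT : S_GTR) (hd : 2 ≤ d)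
    (hψ : IsExteriorMap (multibrotSet d) ψ) :
    ∃ L : ℂ → ℂ, DifferentiableOn ℂ L {z | 1 < ‖z‖} ∧ (∀ z : ℂ, 1 < ‖z‖ → exp (L z) = deriv ψ z) ∧
      Tendsto L (Bornology.cobounded ℂ) (𝓝 0) ∧
      (∀ᵐ θ : ℝ, ∃ c₀ ∈ frontier (multibrotSet d),
        Tendsto (fun r : ℝ => ψ (r * Complex.exp (θ * I))) (𝓝[>] 1) (𝓝 c₀) ∧ Pt d ψ L θ c₀) ∧
      ∃ Z : ℕ → Set ℝ, (∀ᵐ θ : ℝ, ∃ k, θ ∈ Z k) ∧ ∀ k : ℕ, GaugeNull (hg (1 / ((k : ℝ) + 1)))
        {c₀ : ℂ | ∃ θ ∈ Z k, Tendsto (fun r : ℝ => ψ (r * Complex.exp (θ * I))) (𝓝[>] 1) (𝓝 c₀)} := by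
  obtain ⟨L, hL1, hL2, hL3, hL4, hZ⟩ := fin hG hT hd hψ
  refine ⟨L, hL1, hL2, hL3, ?_, hZ⟩
  obtain ⟨β, hβ⟩ := exists_beta hd
  obtain ⟨H, S⟩ := Pool.Agent.Y430.TY.exists_sg hβ
  have hBl : Bl H := ⟨S.dH, fun w hw => H_bloch S hw⟩
  have hlow : ∀ᵐ θ : ℝ, ∃ c : ℝ, 0 < c ∧ ∀ α : ℝ, ∃ᶠ j : ℕ in atTop,
      c * √(j * Real.log (Real.log j)) ≤ (exp (α * I) * H (pt (rj j) θ)).re := by
    filter_upwards [nf_ae hd hβ S, low H hBl] with θ h1 h2
    obtain ⟨c0, -, -, h3⟩ := h1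
    exact h2 h3
  have hex : ∀ᵐ θ : ℝ, ∃ c : ℂ,
      Tendsto (fun s : ℝ => ψ (s * Complex.exp (θ * Complex.I))) (𝓝[>] 1) (𝓝 c) := by
    filter_upwards [hL4] with θ h
    obtain ⟨⟨c₀, -, h1⟩, -⟩ := h
    exact ⟨c₀, h1⟩
  filter_upwards [hL4, ae_neg' hlow, ae_neg' (Pool.Agent.Y272.TY.typical_all hd hβ)]
    with θ h1 h2 h3
  obtain ⟨⟨c₀, hc₀, hland⟩, hup, c₁, hc₁, hlo⟩ := h1
  obtain ⟨c0, A, R', T⟩ := h3
  have hcc : c0 = c₀ := by
    have h4 : Tendsto (fun r : ℝ => r⁻¹) (𝓝[>] 1) (𝓝[<] 1) := by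
      rw [tendsto_nhdsWithin_iff]
      constructor
      · have : Tendsto (fun r : ℝ => r⁻¹) (𝓝 1) (𝓝 (1 : ℝ)⁻¹) :=
          (continuousAt_inv₀ one_ne_zero).tendsto
        rw [inv_one] at this
        exact this.mono_left nhdsWithin_le_nhds
      · filter_upwards [self_mem_nhdsWithin] with r hr
        have hr' : (1 : ℝ) < r := hr
        exact inv_lt_one_of_one_lt₀ hr'
    have h5 : Tendsto (fun r : ℝ => cc β (pt r⁻¹ (-θ))) (𝓝[>] 1) (𝓝 c0) := T.land.comp h4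
    refine tendsto_nhds_unique (h5.congr' ?_) hland
    filter_upwards [self_mem_nhdsWithin] with r hr
    exact (psi_eq hβ hψ hr θ).symm
  subst hcc
  refine ⟨c0, hc₀, hland, ?_⟩
  have hLy := Pool.Agent.Y298.CA.lyap_of_typ hd hβ T
  obtain ⟨B, κ, η, n₀, hS⟩ := hSHD d β (-θ) c0 A R' hd hβ T
  obtain ⟨N, R₀, B', D, C, hy⟩ := hNN d β (-θ) c0 A R' B κ η n₀ ψ hd hβ T hLy hS hψ
  have hζ : ‖exp (θ * I)‖ = 1 := Complex.norm_exp_ofReal_mul_I θ
  have hlandt : Tendsto (fun t : ℝ => ψ (Real.exp t * exp (θ * I))) (𝓝[>] 0) (𝓝 c0) := by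
    have h4 : Tendsto Real.exp (𝓝[>] 0) (𝓝[>] 1) := by
      rw [tendsto_nhdsWithin_iff]
      constructor
      · have := Real.continuous_exp.tendsto 0
        rw [Real.exp_zero] at this
        exact this.mono_left nhdsWithin_le_nhds
      · filter_upwards [self_mem_nhdsWithin] with t ht
        exact Real.one_lt_exp_iff.2 ht
    exact hland.comp h4
  obtain ⟨C1, r1, hC1, hr1, hr1', hlc⟩ := hLCM _ ψ c0 d N R₀ B' D C hy
  obtain ⟨C2, hC2, hun⟩ := hUNR _ ψ c0 d N R₀ B' D C hy _ hζ hlandt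
  have hhr := hHR _ ψ c0 d N R₀ B' D C θ hy hland hex
  obtain ⟨c₂, hc₂, hlo2⟩ := h2
  have hfr : ∀ σ : ℝ, (σ = 1 ∨ σ = -1) →
      ∃ᶠ R in 𝓝[>] (0 : ℝ), c₂ / 8 * Har.sq (N R) ≤ σ * la d H (-θ) (N R) := by
    intro σ hσ
    have e : c₂ / 8 = c₂ / 2 / 4 := by ring
    rw [e]
    rcases hσ with rfl | rfl
    · refine frq S hy (by positivity) (by simp) ?_
      exact frq_l hd S (α := 0) hc₂ (by simp) (by simp) (hlo2 0)
    · refine frq S hy (by positivity) (by simp) ?_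
      exact frq_l hd S (α := Real.pi) hc₂ (by rw [Complex.exp_pi_mul_I]; simp) (by simp)
        (hlo2 Real.pi)
  obtain ⟨⟨K₁, hK₁, hm1⟩, c₃, hc₃, hm2, hm3⟩ := hm T S hy hhr (la_up hd T S)
    ⟨c₂ / 8, by positivity, hfr⟩
  obtain ⟨c₄, hc₄, hrl⟩ := rad_lo hCOR T S hy (by positivity) (hfr (-1) (Or.inr rfl)) hζ hlandt
  have hru := rad_up hψ hLy.2.1 hL2 hζ hc₁ ((hlo 0).mono fun r hr => by
    have h5 : c₁ * gg r ≤ (L (r * exp (θ * I))).re := by simpa using hr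
    exact h5)
  -- the constants
  obtain ⟨K, hK⟩ : ∃ K : ℝ, K = max (max C1 C2) (max K₁ 40) := ⟨_, rfl⟩
  have hKa : C1 ≤ K := by rw [hK]; exact (le_max_left _ _).trans (le_max_left _ _)
  have hKb : C2 ≤ K := by rw [hK]; exact (le_max_right _ _).trans (le_max_left _ _)
  have hKc : K₁ ≤ K := by rw [hK]; exact (le_max_left _ _).trans (le_max_right _ _)
  have hKd : 40 ≤ K := by rw [hK]; exact (le_max_right _ _).trans (le_max_right _ _)
  obtain ⟨k, hk⟩ : ∃ k : ℝ, k = min (min c₁ c₃) (min c₄ (c₁ / 2)) := ⟨_, rfl⟩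
  have hk0 : 0 < k := by rw [hk]; positivity
  have hka : k ≤ c₁ := by rw [hk]; exact (min_le_left _ _).trans (min_le_left _ _)
  have hkb : k ≤ c₃ := by rw [hk]; exact (min_le_left _ _).trans (min_le_right _ _)
  have hkc : k ≤ c₄ := by rw [hk]; exact (min_le_right _ _).trans (min_le_left _ _)
  have hkd : k ≤ c₁ / 2 := by rw [hk]; exact (min_le_right _ _).trans (min_le_right _ _)
  have hgt : ∀ᶠ r : ℝ in 𝓝[>] 1, 1 < r := self_mem_nhdsWithin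
  have hpos : ∀ᶠ r : ℝ in 𝓝[>] 0, 0 < r := self_mem_nhdsWithin
  refine ⟨K, k, by linarith, hk0, ?_, ?_, ?_, ?_, ?_, ?_, ?_, ?_, ?_⟩
  · filter_upwards [Ioo_mem_nhdsGT (show (0 : ℝ) < min r1 (Real.exp (-1)) by positivity)]
      with r hr x hx hxr
    have h5 : r ≤ r1 := hr.2.le.trans (min_le_left _ _)
    have h6 : r ≤ Real.exp (-1) := hr.2.le.trans (min_le_right _ _)
    obtain ⟨E, g1, g2, g3, g4, g5, g6⟩ := hlc r hr.1 h5 x hx hxr
    refine ⟨E, g1, g2, g3, g4, g5, g6.trans (closedBall_subset_closedBall ?_)⟩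
    have h7 : 1 ≤ Real.log (1 / r) := by
      rw [one_div, Real.log_inv]
      have := Real.log_le_log hr.1 h6
      rw [Real.log_exp] at this
      linarith
    have hr0 := hr.1
    gcongr
  · filter_upwards [hun] with w hw
    refine hw.trans ?_
    have := lg_nonneg ‖w - exp (θ * I)‖
    gcongr
  · refine (hru.and_eventually hgt).mono fun r hr => le_trans ?_ hr.1
    have := lg_nonneg (r - 1)
    have := hr.2
    gcongr
  · have ht : Tendsto (fun x : ℝ => 1 + x) (𝓝[>] 0) (𝓝[>] 1) := by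
      rw [tendsto_nhdsWithin_iff]
      constructor
      · have : Tendsto (fun x : ℝ => 1 + x) (𝓝 0) (𝓝 (1 + 0)) :=
          (continuous_const.add continuous_id).tendsto 0
        rw [add_zero] at this
        exact this.mono_left nhdsWithin_le_nhds
      · filter_upwards [self_mem_nhdsWithin] with x hx
        have hx : (0 : ℝ) < x := hx
        show 1 < 1 + x
        linarith
    refine ht.frequently ((hrl.and_eventually hpos).mono fun x hx => ?_)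
    have h5 : 1 + x - 1 = x := by ring
    rw [h5]
    refine hx.1.trans ?_
    have := lg_nonneg x
    have := hx.2
    gcongr
  · filter_upwards [hm1, hpos] with r hr hr0
    have := lg_nonneg r
    constructor
    · refine le_trans ?_ hr.1
      gcongr
    · refine hr.2.trans ?_
      gcongr
  · refine (hm2.and_eventually hpos).mono fun r hr => le_trans ?_ hr.1
    have := lg_nonneg r
    have := hr.2
    gcongr
  · refine (hm3.and_eventually hpos).mono fun r hr => hr.1.trans ?_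
    have := lg_nonneg r
    have := hr.2
    gcongr
  · filter_upwards [hup] with r hr
    exact hr
  · intro α
    refine (hlo α).mono fun r hr => le_trans ?_ hr
    exact mul_le_mul_of_nonneg_right hka (lg_nonneg (r - 1))

end Pool.Agent.N673.TW.Fin
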