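import Pool.Agent.N673.TW.Stm3

set_option autoImplicit false

/-!
# Project TW, part GTR: the inversion preserves the gauge null sets away from `0`
-/

open Complex Filter Topology Metric Set MeasureTheory

namespace Pool.Agent.N673.TW.Gtr

lemma hg_nonneg (a t : ℝ) (ht : 0 < t) : 0 ≤ hg a t := by
  unfold hg
  positivity

lemma hg_eight (a t : ℝ) (ha : 0 < a) (ht : 0 < t) (ht' : t < Real.exp (-20)) :
    hg a (8 * t) ≤ 8 * hg a t := by
  unfold hg
  rw [mul_assoc 8 t]
  refine mul_le_mul_of_nonneg_left ?_ (by norm_num)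
  refine mul_le_mul_of_nonneg_left ?_ ht.le
  refine Real.exp_le_exp.mpr ?_
  refine mul_le_mul_of_nonneg_left ?_ ha.le
  refine Real.sqrt_le_sqrt ?_
  have h8 : Real.log 8 ≤ 3 := by
    have h1 : Real.log 8 = 3 * Real.log 2 := by
      rw [show (8 : ℝ) = 2 ^ 3 by norm_num, Real.log_pow]; norm_num
    have := Real.log_two_lt_d9
    rw [h1]; linarith
  have h8' : 0 ≤ Real.log 8 := Real.log_nonneg (by norm_num)
  have hx : 20 < Real.log (1 / t) := by
    rw [one_div, Real.log_inv]
    have h1 : Real.log t < Real.log (Real.exp (-20)) := Real.log_lt_log ht ht'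
    rw [Real.log_exp] at h1
    linarith
  have hy : Real.log (1 / (8 * t)) = Real.log (1 / t) - Real.log 8 := by
    rw [one_div, one_div, Real.log_inv, Real.log_inv, Real.log_mul (by norm_num) ht.ne']
    ring
  rw [hy]
  set x := Real.log (1 / t) with hxdef
  set y := x - Real.log 8 with hydef
  have hyx : y ≤ x := by linarith
  have hy17 : 17 < y := by linarith
  have he : Real.exp 1 < y := by
    have := Real.exp_one_lt_d9
    linarith
  have hly : 1 < Real.log y := by
    have := Real.log_lt_log (Real.exp_pos 1) he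
    rwa [Real.log_exp] at this
  have hlyx : Real.log y ≤ Real.log x := Real.log_le_log (by linarith) hyx
  have hll : Real.log (Real.log y) ≤ Real.log (Real.log x) :=
    Real.log_le_log (by linarith) hlyx
  have hllx : 0 ≤ Real.log (Real.log x) := Real.log_nonneg (by linarith)
  calc y * Real.log (Real.log y) ≤ y * Real.log (Real.log x) :=
        mul_le_mul_of_nonneg_left hll (by linarith)
    _ ≤ x * Real.log (Real.log x) := mul_le_mul_of_nonneg_right hyx hllx

/-- **GTR**. -/
theorem t : S_GTR := by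
  classical
  intro a E ha hE hN ε hε
  obtain ⟨c, r, hr, hcov, hsum, hlt⟩ := hN (min (ε / 8) (Real.exp (-20)))
    (lt_min (by linarith) (Real.exp_pos _))
  have hr0 : ∀ n, 0 < r n := fun n => (hr n).1
  have hr1 : ∀ n, r n < ε / 8 := fun n => (hr n).2.trans_le (min_le_left _ _)
  have hr2 : ∀ n, r n < Real.exp (-20) := fun n => (hr n).2.trans_le (min_le_right _ _)
  have hsel : ∀ n, ∃ d : ℂ, ∀ q ∈ closedBall (c n) (r n), 1 / 2 ≤ ‖q‖ →
      q⁻¹ ∈ closedBall d (8 * r n) := by
    intro n
    by_cases h : ∃ p ∈ closedBall (c n) (r n), 1 / 2 ≤ ‖p‖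
    · obtain ⟨p, hp, hp2⟩ := h
      refine ⟨p⁻¹, fun q hq hq2 => ?_⟩
      rw [mem_closedBall, dist_eq_norm]
      have hp0 : p ≠ 0 := by
        intro h0; rw [h0, norm_zero] at hp2; norm_num at hp2
      have hq0 : q ≠ 0 := by
        intro h0; rw [h0, norm_zero] at hq2; norm_num at hq2
      rw [inv_sub_inv hq0 hp0, norm_div, norm_mul]
      have hd : ‖p - q‖ ≤ 2 * r n := by
        rw [← dist_eq_norm]
        have h1 := dist_triangle_right p q (c n)
        rw [mem_closedBall] at hp hq
        linarith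
      have hqp : 1 / 4 ≤ ‖q‖ * ‖p‖ := by
        have := mul_le_mul hq2 hp2 (by norm_num) (norm_nonneg q)
        linarith
      rw [div_le_iff₀ (by linarith)]
      have := mul_le_mul_of_nonneg_left hqp (show 0 ≤ 8 * r n by linarith [hr0 n])
      linarith
    · refine ⟨0, fun q hq hq2 => ?_⟩
      exact absurd ⟨q, hq, hq2⟩ h
  choose d hd using hsel
  have hle : ∀ n, hg a (8 * r n) ≤ 8 * hg a (r n) := fun n => hg_eight a (r n) ha (hr0 n) (hr2 n)
  have h0 : ∀ n, 0 ≤ hg a (8 * r n) := fun n => hg_nonneg a _ (by linarith [hr0 n])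
  have hs8 : Summable (fun n => 8 * hg a (r n)) := hsum.mul_left 8
  have hs : Summable (fun n => hg a (8 * r n)) := Summable.of_nonneg_of_le h0 hle hs8
  refine ⟨d, fun n => 8 * r n, fun n => ⟨by linarith [hr0 n], by linarith [hr1 n]⟩, ?_, hs, ?_⟩
  · rintro _ ⟨q, hq, rfl⟩
    obtain ⟨n, hn⟩ := mem_iUnion.mp (hcov hq)
    exact mem_iUnion.mpr ⟨n, hd n q hn (hE q hq)⟩
  · have h1 : ∑' n, hg a (8 * r n) ≤ ∑' n, 8 * hg a (r n) := hs.tsum_le_tsum hle hs8
    rw [tsum_mul_left] at h1
    have h2 : ∑' n, hg a (r n) < ε / 8 := hlt.trans_le (min_le_left _ _)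
    linarith

end Pool.Agent.N673.TW.Gtr
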