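import Pool.Agent.N673.TW.Stm4
import Pool.Agent.N673.TW.Fin3
import Pool.Agent.Y266.TY.RLim

set_option autoImplicit false

/-!
# Project TW, part 4: the scale of the level function and the derivative of the exterior map
-/

open Complex Filter Topology Metric Set MeasureTheory

namespace Pool.Agent.N673.TW.Har

open Pool.Agent.H712R2 Pool.Agent.H713R2 Pool.Agent.Y272.TY Pool.Agent.W677.Mar
open Pool.Agent.N673.TW.BL Pool.Agent.N673.TW.BM

variable {d : ℕ} {β H ψ : ℂ → ℂ} {θ A : ℝ} {c0 R' : ℂ} {M : Set ℂ} {N : ℝ → ℕ} {R₀ B D C : ℝ}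

/-- the logarithm of the derivative at the level `l` -/
noncomputable def la (d : ℕ) (H : ℂ → ℂ) (θ : ℝ) (l : ℕ) : ℝ := (H (pt (rl d l) θ)).re

theorem N_tendsto (h : Hy M ψ c0 d N R₀ B D C) : Tendsto N (𝓝[>] 0) atTop := by
  rw [Filter.tendsto_atTop]
  intro n
  have hD : 0 < D := by linarith [h.D1]
  have hpos : 0 < R₀ / D ^ (n + 1) := div_pos h.R0 (pow_pos hD _)
  filter_upwards [Ioo_mem_nhdsGT hpos] with R hR
  by_contra hcon
  push Not at hcon
  have h1 : R ≤ R₀ := by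
    refine hR.2.le.trans (div_le_self h.R0.le ?_)
    exact one_le_pow₀ (by linarith [h.D1])
  have h2 := h.step R R₀ hR.1 h1 le_rfl
  have h3 : D ^ (N R + 1 - N R₀) ≤ D ^ (n + 1) := pow_le_pow_right₀ (by linarith [h.D1]) (by omega)
  have h4 : R * D ^ (n + 1) < R₀ := (lt_div_iff₀ (pow_pos hD _)).1 hR.2
  have h5 : R * D ^ (N R + 1 - N R₀) ≤ R * D ^ (n + 1) := by
    have := hR.1
    gcongr
  linarith

theorem log_ge_one (h : Hy M ψ c0 d N R₀ B D C) {R : ℝ} (hR : 0 < R) (hR' : R ≤ R₀) :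
    1 ≤ Real.log ((N R : ℝ) + 2) := by
  have h1 := h.five R hR hR'
  have h2 : (5 : ℝ) ≤ N R := by exact_mod_cast h1
  rw [Real.le_log_iff_exp_le (by linarith)]
  linarith [Pool.Agent.N673.TW.Fin.exp_one_lt_three]

/-- the radius in terms of the derivative -/
theorem rel (T : Typ d β θ c0 A R') (S : Sg β H) (h : Hy M ψ c0 d N R₀ B D C) :
    ∃ C₁ : ℝ, 0 ≤ C₁ ∧ ∀ R : ℝ, 0 < R → R ≤ R₀ →
      |Real.log R + N R * Real.log d - la d H θ (N R)| ≤ C₁ * Real.log ((N R : ℝ) + 2) ^ 2 := by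
  refine ⟨C + A + 2, by linarith [h.C0, T.A0], fun R hR hR' => ?_⟩
  have h1 := log_ge_one h hR hR'
  have h2 := h.mmc R hR hR'
  have h3 := T.simi (N R)
  rw [Pool.Agent.Y266.TY.RLim.norm_MM] at h3
  have h5 := h.five R hR hR'
  have h6 : 1 / 2 ≤ rl d (N R) := rl_ge_half h.d2 (by omega)
  have h7 : rl d (N R) < 1 := by
    unfold rl
    rw [Real.exp_lt_one_iff, neg_lt_zero]
    have : (0 : ℝ) < d := by exact_mod_cast (by have := h.d2; omega : 0 < d)
    positivity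
  have h8 : ‖pt (rl d (N R)) θ‖ = rl d (N R) := norm_pt _ _ (by linarith)
  have h9 : pt (rl d (N R)) θ ∈ ball (0 : ℂ) 1 := by
    rw [mem_ball_zero_iff, h8]; exact h7
  have h10 : pt (rl d (N R)) θ ≠ 0 := by
    intro hh
    rw [hh, norm_zero] at h8
    linarith
  have h11 := Pool.Agent.Y430.TY.log_deriv S h9 h10
  rw [h8] at h11
  have h12 : |Real.log (rl d (N R))| ≤ 1 := by
    rw [abs_of_nonpos (Real.log_nonpos (by linarith) h7.le)]
    have h13 : Real.log (1 / 2) ≤ Real.log (rl d (N R)) := Real.log_le_log (by norm_num) h6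
    rw [one_div, Real.log_inv] at h13
    linarith [Real.log_two_lt_d9]
  have h14 : Real.log ‖deriv (cc β) (Pool.Agent.W677.Mar.pt (rl d (N R)) θ)‖ =
      la d H θ (N R) - 2 * Real.log (rl d (N R)) := h11
  rw [h14] at h3
  have hC := h.C0
  have hA := T.A0
  have e1 : Real.log R + N R * Real.log d - la d H θ (N R) =
      (Real.log R + Real.log (mm d c0 (N R + 1))) -
      (Real.log (mm d c0 (N R + 1)) - N R * Real.log d +
        (la d H θ (N R) - 2 * Real.log (rl d (N R)))) - 2 * Real.log (rl d (N R)) := by ring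
  rw [e1]
  have e2 : Real.log ((N R : ℝ) + 2) ≤ Real.log ((N R : ℝ) + 2) ^ 2 := by nlinarith
  have e3 : (1 : ℝ) ≤ Real.log ((N R : ℝ) + 2) ^ 2 := by nlinarith
  have e4 := abs_le.1 h2
  have e5 := abs_le.1 h3
  have e6 := abs_le.1 h12
  have e7 : C * Real.log ((N R : ℝ) + 2) ≤ C * Real.log ((N R : ℝ) + 2) ^ 2 := by gcongr
  rw [abs_le]
  constructor <;> nlinarith

theorem one_sub_rl_le (l : ℕ) : 1 - rl d l ≤ 4 / (d : ℝ) ^ l := by
  unfold rl
  have := Real.add_one_le_exp (-(4 / (d : ℝ) ^ l))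
  linarith

theorem one_sub_rl_ge (hd : 2 ≤ d) {l : ℕ} (hl : 2 ≤ l) : 2 / (d : ℝ) ^ l ≤ 1 - rl d l := by
  have hdR : (2 : ℝ) ≤ d := by exact_mod_cast hd
  have h1 : (4 : ℝ) ≤ (d : ℝ) ^ l := by
    calc (4 : ℝ) = 2 ^ 2 := by norm_num
      _ ≤ (d : ℝ) ^ 2 := by gcongr
      _ ≤ (d : ℝ) ^ l := pow_le_pow_right₀ (by linarith) hl
  have h2 : 0 < 4 / (d : ℝ) ^ l := by positivity
  have h3 : 4 / (d : ℝ) ^ l ≤ 1 := by rw [div_le_one (by linarith)]; exact h1
  unfold rl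
  obtain ⟨x, hx⟩ : ∃ x : ℝ, x = 4 / (d : ℝ) ^ l := ⟨_, rfl⟩
  have h6 : 2 / (d : ℝ) ^ l = x / 2 := by rw [hx]; ring
  rw [h6, ← hx]
  rw [← hx] at h2 h3
  have h7 : Real.exp (-x) ≤ 1 - x / 2 := by
    rw [Real.exp_neg, inv_le_comm₀ (Real.exp_pos x) (by linarith)]
    refine le_trans ?_ (Real.add_one_le_exp x)
    rw [inv_le_comm₀ (by linarith) (by linarith), inv_eq_one_div, div_le_iff₀ (by linarith)]
    nlinarith
  linarith

theorem rl_lt (hd : 2 ≤ d) (l : ℕ) : rl d l < 1 := by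
  unfold rl
  rw [Real.exp_lt_one_iff, neg_lt_zero]
  have : (0 : ℝ) < d := by exact_mod_cast (by omega : 0 < d)
  positivity

theorem rl_pos (l : ℕ) : 0 < rl d l := Real.exp_pos _

/-- one step -/
theorem la_step (hd : 2 ≤ d) (S : Sg β H) {l : ℕ} (hl : 2 ≤ l) :
    |la d H θ (l + 1) - la d H θ l| ≤ 12 * d := by
  have hdR : (2 : ℝ) ≤ d := by exact_mod_cast hd
  have h1 : rl d l ≤ rl d (l + 1) := by
    unfold rl
    rw [Real.exp_le_exp, neg_le_neg_iff]
    gcongr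
    · linarith
    · omega
  have h2 := Pool.Agent.Y430.TY.near S.dH (fun w hw => H_bloch S hw) (θ := θ) (rl_pos l).le h1
    (rl_lt hd (l + 1))
  have h3 : (1 - rl d l) / (1 - rl d (l + 1)) ≤ 2 * d := by
    have h4 := one_sub_rl_le (d := d) l
    have h5 := one_sub_rl_ge hd (l := l + 1) (by omega)
    have h6 : (0 : ℝ) < (d : ℝ) ^ l := by positivity
    rw [div_le_iff₀ (by linarith [rl_lt hd (l + 1)])]
    calc 1 - rl d l ≤ 4 / (d : ℝ) ^ l := h4
      _ = 2 * d * (2 / (d : ℝ) ^ (l + 1)) := by rw [pow_succ]; field_simp; ring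
      _ ≤ _ := by gcongr
  have h4 : |(H (pt (rl d l) θ) - H (pt (rl d (l + 1)) θ)).re| ≤ 6 * (2 * d) :=
    (abs_re_le_norm _).trans (h2.trans (by gcongr))
  rw [sub_re, abs_sub_comm] at h4
  unfold la
  linarith

theorem la_steps (hd : 2 ≤ d) (S : Sg β H) {l : ℕ} (hl : 2 ≤ l) (k : ℕ) :
    |la d H θ (l + k) - la d H θ l| ≤ 12 * d * k := by
  induction k with
  | zero => simp
  | succ k ih =>
    have h1 := la_step (θ := θ) hd S (l := l + k) (by omega)
    have h2 := abs_sub_le (la d H θ (l + k + 1)) (la d H θ (l + k)) (la d H θ l)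
    push_cast
    rw [← add_assoc]
    linarith

end Pool.Agent.N673.TW.Har
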