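import Pool.Agent.N673.TW.Har1

set_option autoImplicit false

/-!
# Project TW, part 4: large oscillations at the levels
-/

open Complex Filter Topology Metric Set MeasureTheory

namespace Pool.Agent.N673.TW.Har

open Pool.Agent.H712R2 Pool.Agent.H713R2 Pool.Agent.Y272.TY Pool.Agent.W677.Mar
open Pool.Agent.N673.TW.BL Pool.Agent.N673.TW.BM

variable {d : ℕ} {β H ψ : ℂ → ℂ} {θ A : ℝ} {c0 R' : ℂ} {M : Set ℂ} {N : ℝ → ℕ} {R₀ B D C : ℝ}

/-- the scale in terms of the level -/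
noncomputable def sq (n : ℕ) : ℝ := √((n : ℝ) * Real.log (Real.log n))

/-- every level is almost attained -/
theorem lvl (h : Hy M ψ c0 d N R₀ B D C) : ∀ᶠ l : ℕ in atTop, ∃ R : ℝ, 0 < R ∧ R ≤ R₀ ∧
    l ≤ N R ∧ (N R : ℝ) ≤ l + 2 * C * (1 + Real.log ((N R : ℝ) + 2)) := by
  filter_upwards [eventually_gt_atTop (N (R₀ / 4))] with l hl
  obtain ⟨E, hE⟩ : ∃ E : Set ℝ, E = {R : ℝ | 0 < R ∧ R ≤ R₀ ∧ l ≤ N R} := ⟨_, rfl⟩
  have hR0 := h.R0
  have hne : E.Nonempty := by
    obtain ⟨R, h1, h2⟩ := (((N_tendsto h).eventually (eventually_ge_atTop l)).and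
      (Ioo_mem_nhdsGT hR0)).exists
    refine ⟨R, ?_⟩
    rw [hE]
    exact ⟨h2.1, h2.2.le, h1⟩
  have hbdd : BddAbove E := ⟨R₀, by
    intro R hR
    rw [hE] at hR
    exact hR.2.1⟩
  have hpos : 0 < sSup E := by
    obtain ⟨R, hR⟩ := hne
    have h1 := le_csSup hbdd hR
    rw [hE] at hR
    exact lt_of_lt_of_le hR.1 h1
  obtain ⟨R, hR, hR2⟩ := exists_lt_of_lt_csSup hne (show sSup E / 2 < sSup E by linarith)
  have hR3 := hR
  rw [hE] at hR3
  obtain ⟨h1, h2, h3⟩ := hR3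
  have h4 : R ≤ R₀ / 4 := by
    by_contra hcon
    push Not at hcon
    have := h.anti (R₀ / 4) R (by linarith) hcon.le h2
    omega
  have h5 : 4 * R ∉ E := by
    intro hh
    have := le_csSup hbdd hh
    linarith
  have h6 : N (4 * R) < l := by
    by_contra hcon
    push Not at hcon
    apply h5
    rw [hE]
    exact ⟨by linarith, by linarith, hcon⟩
  have h7 := h.lip R (4 * R) h1 (by linarith) (by linarith)
  have h8 : Real.log (4 * R / R) ≤ 2 := by
    rw [mul_div_assoc, div_self h1.ne', mul_one, Real.log_le_iff_le_exp (by norm_num)]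
    have h5 : Real.exp 2 = Real.exp 1 * Real.exp 1 := by rw [← Real.exp_add]; norm_num
    nlinarith [Real.exp_one_gt_d9]
  have h9 : (N (4 * R) : ℝ) ≤ l := by exact_mod_cast h6.le
  have h10 := log_ge_one h h1 h2
  refine ⟨R, h1, h2, h3, ?_⟩
  have h11 : C * (Real.log (4 * R / R) + Real.log ((N R : ℝ) + 2)) ≤
      C * (2 + 2 * Real.log ((N R : ℝ) + 2)) := by
    have := h.C0
    gcongr
    linarith
  linarith

theorem lsq (K : ℝ) : ∀ᶠ n : ℕ in atTop, K * Real.log ((n : ℝ) + 2) ^ 2 ≤ sq n := by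
  have h1 := (isLittleO_log_rpow_rpow_atTop (2 : ℝ) (show (0 : ℝ) < 1 / 2 by norm_num)).bound
    (show 0 < 1 / (2 * (|K| + 1)) by positivity)
  have h2 : Tendsto (fun n : ℕ => (n : ℝ) + 2) atTop atTop :=
    tendsto_atTop_add_const_right _ _ tendsto_natCast_atTop_atTop
  filter_upwards [h2.eventually h1, eventually_ge_atTop 16] with n hn hn16
  have hn0 : (16 : ℝ) ≤ n := by exact_mod_cast hn16
  have hlog : 0 ≤ Real.log ((n : ℝ) + 2) := Real.log_nonneg (by linarith)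
  rw [Real.norm_of_nonneg (by positivity), Real.norm_of_nonneg (by positivity),
    ← Real.sqrt_eq_rpow] at hn
  have hn' : Real.log ((n : ℝ) + 2) ^ 2 ≤ 1 / (2 * (|K| + 1)) * √((n : ℝ) + 2) := by
    have : Real.log ((n : ℝ) + 2) ^ (2 : ℝ) = Real.log ((n : ℝ) + 2) ^ 2 := by
      rw [← Real.rpow_natCast]; norm_num
    rwa [this] at hn
  have h3 : 1 ≤ Real.log (Real.log n) := by
    have h4 : Real.exp 1 ≤ Real.log n := by
      rw [Real.le_log_iff_exp_le (by linarith)]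
      have h5 : Real.exp (Real.exp 1) ≤ Real.exp 2.7182818286 :=
        Real.exp_le_exp.mpr Real.exp_one_lt_d9.le
      have h6 : Real.exp 2.7182818286 ≤ 16 := by
        have h7 : Real.log 16 = 4 * Real.log 2 := by
          rw [show (16 : ℝ) = 2 ^ 4 by norm_num, Real.log_pow]; norm_num
        rw [← Real.le_log_iff_exp_le (by norm_num), h7]
        linarith [Real.log_two_gt_d9]
      linarith
    rw [Real.le_log_iff_exp_le (by linarith [Real.exp_pos 1])]
    exact h4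
  have h4 : √((n : ℝ) + 2) ≤ 2 * √n := by
    rw [show (2 : ℝ) = √4 by rw [show (4 : ℝ) = 2 ^ 2 by norm_num]; simp, ← Real.sqrt_mul (by norm_num)]
    apply Real.sqrt_le_sqrt
    rw [show √4 = (2 : ℝ) by rw [show (4 : ℝ) = 2 ^ 2 by norm_num]; simp]
    linarith
  have h5 : √(n : ℝ) ≤ sq n := by
    unfold sq
    apply Real.sqrt_le_sqrt
    nlinarith
  calc K * Real.log ((n : ℝ) + 2) ^ 2 ≤ (|K| + 1) * Real.log ((n : ℝ) + 2) ^ 2 := by
        have := le_abs_self K
        gcongr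
        linarith
    _ ≤ (|K| + 1) * (1 / (2 * (|K| + 1)) * √((n : ℝ) + 2)) := by gcongr
    _ = √((n : ℝ) + 2) / 2 := by field_simp
    _ ≤ √n := by linarith
    _ ≤ sq n := h5

theorem loglog_half : ∀ᶠ n : ℕ in atTop, ∀ l : ℕ, l ≤ n → (n : ℝ) ≤ 4 / 3 * l →
    sq l ≤ sq n ∧ sq n ≤ 2 * sq l := by
  filter_upwards [Pool.Agent.N673.TW.Fin.loglog_tendsto.eventually_ge_atTop 10,
    eventually_ge_atTop 100] with n hn h100 l hl1 hl2
  have hn0 : (100 : ℝ) ≤ n := by exact_mod_cast h100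
  have hl0 : (75 : ℝ) ≤ l := by linarith
  have hl3 : (l : ℝ) ≤ n := by exact_mod_cast hl1
  have h1 : 1 < Real.log l := by
    rw [Real.lt_log_iff_exp_lt (by linarith)]
    linarith [Pool.Agent.N673.TW.Fin.exp_one_lt_three]
  have h2 : Real.log l ≤ Real.log n := Real.log_le_log (by linarith) hl3
  have h3 : 0 ≤ Real.log (Real.log l) := Real.log_nonneg h1.le
  have h4 : Real.log (Real.log l) ≤ Real.log (Real.log n) := Real.log_le_log (by linarith) h2
  constructor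
  · unfold sq
    apply Real.sqrt_le_sqrt
    gcongr
  · have h5 : Real.log n ≤ 2 * Real.log l := by
      have h6 : Real.log n ≤ Real.log ((l : ℝ) ^ 2) := by
        apply Real.log_le_log (by linarith)
        nlinarith
      rwa [Real.log_pow] at h6
    have h6 : Real.log (Real.log n) ≤ Real.log 2 + Real.log (Real.log l) := by
      rw [← Real.log_mul (by norm_num) (by linarith)]
      exact Real.log_le_log (by linarith) h5
    have h7 : Real.log (Real.log n) ≤ 2 * Real.log (Real.log l) := by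
      linarith [Real.log_two_lt_d9]
    unfold sq
    rw [show (2 : ℝ) = √4 by rw [show (4 : ℝ) = 2 ^ 2 by norm_num]; simp, ← Real.sqrt_mul (by norm_num)]
    apply Real.sqrt_le_sqrt
    calc (n : ℝ) * Real.log (Real.log n) ≤ (4 / 3 * l) * (2 * Real.log (Real.log l)) := by
          gcongr
      _ ≤ 4 * (l * Real.log (Real.log l)) := by
          have : 0 ≤ (l : ℝ) * Real.log (Real.log l) := by positivity
          linarith

theorem freq_of {p : ℝ → Prop} (hp : ∀ ε : ℝ, 0 < ε → ∃ R : ℝ, 0 < R ∧ R < ε ∧ p R) :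
    ∃ᶠ R in 𝓝[>] (0 : ℝ), p R := by
  intro hcon
  obtain ⟨ε, hε, h1⟩ := mem_nhdsGT_iff_exists_Ioo_subset.1 hcon
  have hε : (0 : ℝ) < ε := hε
  obtain ⟨R, h2, h3, h4⟩ := hp ε hε
  exact h1 ⟨h2, h3⟩ h4

/-- large values at the levels -/
theorem frq_l (hd : 2 ≤ d) (S : Sg β H) {c α σ : ℝ} (hc : 0 < c)
    (hσ : exp (α * I) = (σ : ℂ)) (hσ1 : |σ| = 1)
    (hlow : ∃ᶠ j : ℕ in atTop, c * √(j * Real.log (Real.log j)) ≤
      (exp (α * I) * H (pt (rj j) θ)).re) :
    ∃ᶠ l : ℕ in atTop, c / 2 * sq l ≤ σ * la d H θ l := by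
  have hdR : (2 : ℝ) ≤ d := by exact_mod_cast hd
  have ht : Tendsto (fun j : ℕ => Nat.log d (2 ^ j)) atTop atTop := by
    rw [Filter.tendsto_atTop]
    intro k
    filter_upwards [eventually_ge_atTop (d * k)] with j hj
    apply Nat.le_log_of_pow_le (by omega)
    calc d ^ k ≤ (2 ^ d) ^ k := Nat.pow_le_pow_left (Nat.lt_two_pow_self).le k
      _ = 2 ^ (d * k) := by rw [← pow_mul]
      _ ≤ 2 ^ j := Nat.pow_le_pow_right (by norm_num) hj
  refine ht.frequently ?_
  have h1 := ht.eventually ((lsq (24 * d * 2 / c)).and (eventually_ge_atTop 100))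
  refine (hlow.and_eventually (h1.and (eventually_ge_atTop 100))).mono fun j hj => ?_
  obtain ⟨h2, ⟨h3, h4⟩, h5⟩ := hj
  obtain ⟨l, hl⟩ : ∃ l : ℕ, l = Nat.log d (2 ^ j) := ⟨_, rfl⟩
  rw [← hl] at h3 h4 ⊢
  have h6 : d ^ l ≤ 2 ^ j := by rw [hl]; exact Nat.pow_log_le_self d (by positivity)
  have h7 : 2 ^ j < d ^ (l + 1) := by rw [hl]; exact Nat.lt_pow_succ_log_self (by omega) _
  have h6' : (d : ℝ) ^ l ≤ 2 ^ j := by exact_mod_cast h6
  have h7' : (2 : ℝ) ^ j < (d : ℝ) ^ (l + 1) := by exact_mod_cast h7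
  have hlj : l ≤ j := by
    by_contra hcon
    push Not at hcon
    have : 2 ^ j < d ^ l := by
      calc 2 ^ j < 2 ^ l := Nat.pow_lt_pow_right (by norm_num) hcon
        _ ≤ d ^ l := Nat.pow_le_pow_left hd l
    omega
  have hdl : (0 : ℝ) < (d : ℝ) ^ l := by positivity
  have h2j : (0 : ℝ) < (2 : ℝ) ^ j := by positivity
  have e1 := one_sub_rl_ge hd (l := l) (by omega)
  have e2 := one_sub_rl_le (d := d) l
  have e3 : 1 - rj j = 1 / 2 ^ j := by unfold rj; ring
  have e4 : 1 / (2 : ℝ) ^ j ≤ 1 / (d : ℝ) ^ l := by gcongr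
  have e5 : rl d l ≤ rj j := by
    have : 1 / (d : ℝ) ^ l ≤ 2 / (d : ℝ) ^ l := by gcongr; norm_num
    linarith
  have e6 : rj j < 1 := by
    have : 0 < 1 / (2 : ℝ) ^ j := by positivity
    linarith
  have e7 := Pool.Agent.Y430.TY.near S.dH (fun w hw => H_bloch S hw) (θ := θ) (rl_pos l).le e5 e6
  have e8 : (1 - rl d l) / (1 - rj j) ≤ 4 * d := by
    rw [e3, div_le_iff₀ (by positivity)]
    calc 1 - rl d l ≤ 4 / (d : ℝ) ^ l := e2
      _ = 4 * d * (1 / (d : ℝ) ^ (l + 1)) := by rw [pow_succ]; field_simp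
      _ ≤ _ := by gcongr
  have e9 : |(H (pt (rl d l) θ) - H (pt (rj j) θ)).re| ≤ 6 * (4 * d) :=
    (abs_re_le_norm _).trans (e7.trans (by gcongr))
  rw [hσ, re_ofReal_mul] at h2
  have e10 : |σ * (H (pt (rl d l) θ) - H (pt (rj j) θ)).re| ≤ 6 * (4 * d) := by
    rw [abs_mul, hσ1, one_mul]; exact e9
  have e11 := (abs_le.1 e10).1
  rw [sub_re, mul_sub] at e11
  have e12 : sq l ≤ √(j * Real.log (Real.log j)) := by
    unfold sq
    apply Real.sqrt_le_sqrt
    have f1 : (100 : ℝ) ≤ l := by exact_mod_cast h4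
    have f2 : (l : ℝ) ≤ j := by exact_mod_cast hlj
    have f3 : 1 < Real.log l := by
      rw [Real.lt_log_iff_exp_lt (by linarith)]
      linarith [Pool.Agent.N673.TW.Fin.exp_one_lt_three]
    have f4 : Real.log l ≤ Real.log j := Real.log_le_log (by linarith) f2
    have f5 : 0 ≤ Real.log (Real.log l) := Real.log_nonneg f3.le
    have f6 : Real.log (Real.log l) ≤ Real.log (Real.log j) := Real.log_le_log (by linarith) f4
    gcongr
  have e13 : 24 * d ≤ c / 2 * sq l := by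
    have f1 : (100 : ℝ) ≤ l := by exact_mod_cast h4
    have f2 : 1 ≤ Real.log ((l : ℝ) + 2) := by
      rw [Real.le_log_iff_exp_le (by linarith)]
      linarith [Pool.Agent.N673.TW.Fin.exp_one_lt_three]
    have f3 : 24 * d * 2 / c * 1 ≤ 24 * d * 2 / c * Real.log ((l : ℝ) + 2) ^ 2 := by
      have : 0 ≤ 24 * (d : ℝ) * 2 / c := by positivity
      gcongr
      nlinarith
    have f4 := f3.trans h3
    rw [mul_one, div_le_iff₀ hc] at f4
    linarith
  unfold la
  have e14 := mul_le_mul_of_nonneg_left e12 hc.le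
  linarith

/-- large values at the levels of the radii -/
theorem frq (S : Sg β H) (h : Hy M ψ c0 d N R₀ B D C) {c σ : ℝ} (hc : 0 < c) (hσ1 : |σ| = 1)
    (hl : ∃ᶠ l : ℕ in atTop, c * sq l ≤ σ * la d H θ l) :
    ∃ᶠ R in 𝓝[>] (0 : ℝ), c / 4 * sq (N R) ≤ σ * la d H θ (N R) := by
  have hd := h.d2
  have hdR : (2 : ℝ) ≤ d := by exact_mod_cast hd
  have hC := h.C0
  have hlin : ∀ᶠ n : ℕ in atTop, 2 * C * (1 + Real.log ((n : ℝ) + 2)) ≤ n / 4 := by
    have h1 : Tendsto (fun n : ℕ => Real.log ((n : ℝ) + 2) / ((n : ℝ) + 2)) atTop (𝓝 0) := by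
      have h2 : Tendsto (fun n : ℕ => (n : ℝ) + 2) atTop atTop :=
        tendsto_atTop_add_const_right _ _ tendsto_natCast_atTop_atTop
      exact (Real.isLittleO_log_id_atTop.tendsto_div_nhds_zero).comp h2
    have h3 := h1.eventually_le_const (show (0 : ℝ) < 1 / (32 * (C + 1)) by positivity)
    filter_upwards [h3, eventually_ge_atTop (⌈32 * (C + 1)⌉₊ + 2)] with n h4 h5
    have h6 : 32 * (C + 1) + 2 ≤ n := by
      have := Nat.le_ceil (32 * (C + 1))
      have h7 : ((⌈32 * (C + 1)⌉₊ + 2 : ℕ) : ℝ) ≤ n := by exact_mod_cast h5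
      push_cast at h7
      linarith
    rw [div_le_iff₀ (by linarith)] at h4
    have h8 : 1 / (32 * (C + 1)) * ((n : ℝ) + 2) * (2 * C) ≤ ((n : ℝ) + 2) / 16 := by
      have : 1 / (32 * (C + 1)) * ((n : ℝ) + 2) * (2 * C) =
        ((n : ℝ) + 2) / 16 * (C / (C + 1)) := by field_simp; ring
      rw [this]
      have h9 : C / (C + 1) ≤ 1 := by rw [div_le_one (by linarith)]; linarith
      have h10 : 0 ≤ ((n : ℝ) + 2) / 16 := by positivity
      nlinarith
    nlinarith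
  apply freq_of
  intro ε hε
  obtain ⟨ε', hε'⟩ : ∃ ε' : ℝ, ε' = min ε R₀ := ⟨_, rfl⟩
  have hε'0 : 0 < ε' := by rw [hε']; exact lt_min hε h.R0
  have hε'R : ε' ≤ R₀ := by rw [hε']; exact min_le_right _ _
  obtain ⟨n₀, hn₀⟩ := eventually_atTop.1 (hlin.and (loglog_half.and
    (lsq (12 * d * (4 * C) * 4 / c))))
  obtain ⟨l, h1, h2, h3, h4⟩ := (hl.and_eventually ((lvl h).and
    ((eventually_gt_atTop (N ε')).and (eventually_ge_atTop (max n₀ 2))))).exists
  obtain ⟨R, hR, hR', hR2, hR3⟩ := h2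
  have hRε : R < ε' := by
    by_contra hcon
    push Not at hcon
    have := h.anti ε' R hε'0 hcon hR'
    omega
  refine ⟨R, hR, hRε.trans_le (by rw [hε']; exact min_le_left _ _), ?_⟩
  have hl2 : 2 ≤ l := (le_max_right _ _).trans h4
  obtain ⟨n, hn⟩ : ∃ n : ℕ, n = N R := ⟨_, rfl⟩
  have hlog := log_ge_one h hR hR'
  rw [← hn] at hR2 hR3 hlog ⊢
  obtain ⟨g1, g2, g3⟩ := hn₀ n (((le_max_left _ _).trans h4).trans hR2)
  have hln : (l : ℝ) ≤ n := by exact_mod_cast hR2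
  have g4 := g2 l hR2 (by linarith)
  obtain ⟨k, hk⟩ : ∃ k, n = l + k := ⟨n - l, by omega⟩
  have g5 := la_steps (θ := θ) hd S hl2 k
  rw [← hk] at g5
  have hkR : (k : ℝ) ≤ 4 * C * Real.log ((n : ℝ) + 2) ^ 2 := by
    have e1 : (n : ℝ) = l + k := by rw [hk]; push_cast; ring
    have e2 : (k : ℝ) ≤ 2 * C * (1 + Real.log ((n : ℝ) + 2)) := by linarith
    refine e2.trans ?_
    have e3 : 1 + Real.log ((n : ℝ) + 2) ≤ 2 * Real.log ((n : ℝ) + 2) ^ 2 := by nlinarith
    calc 2 * C * (1 + Real.log ((n : ℝ) + 2)) ≤ 2 * C * (2 * Real.log ((n : ℝ) + 2) ^ 2) := by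
          gcongr
      _ = _ := by ring
  have g6 : |σ * (la d H θ n - la d H θ l)| ≤ 12 * d * (4 * C * Real.log ((n : ℝ) + 2) ^ 2) := by
    rw [abs_mul, hσ1, one_mul]
    refine g5.trans ?_
    gcongr
  have g7 := (abs_le.1 g6).1
  rw [mul_sub] at g7
  have g8 : 12 * d * (4 * C * Real.log ((n : ℝ) + 2) ^ 2) ≤ c / 4 * sq n := by
    have e1 : 12 * d * (4 * C) * 4 / c * Real.log ((n : ℝ) + 2) ^ 2 =
      (12 * d * (4 * C * Real.log ((n : ℝ) + 2) ^ 2)) * 4 / c := by ring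
    rw [e1, div_le_iff₀ hc] at g3
    linarith
  have g9 : c * (sq n / 2) ≤ c * sq l := by
    have := g4.2
    gcongr
    linarith
  linarith

end Pool.Agent.N673.TW.Har
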