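import Pool.Agent.N673.TW.Har2
import Pool.Agent.W746.LD.Koebe

set_option autoImplicit false

/-!
# Project TW, part 4: the law of the iterated logarithm for the harmonic measure of discs
-/

open Complex Filter Topology Metric Set MeasureTheory

namespace Pool.Agent.N673.TW.Har

open Pool.Agent.H712R2 Pool.Agent.H713R2 Pool.Agent.Y272.TY Pool.Agent.W677.Mar
open Pool.Agent.N673.TW.BL Pool.Agent.N673.TW.BM

variable {d : ℕ} {β H ψ : ℂ → ℂ} {θ A : ℝ} {c0 R' : ℂ} {M : Set ℂ} {N : ℝ → ℕ} {R₀ B D C : ℝ}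

/-- comparison of the scales -/
theorem cmp {a b : ℝ} (ha : 0 < a) (hab : a ≤ b) : ∃ K : ℝ, 1 ≤ K ∧ ∀ᶠ n : ℕ in atTop, ∀ x : ℝ,
    a * n ≤ x → x ≤ b * n → √(x * Real.log (Real.log x)) ≤ K * sq n ∧
      sq n ≤ K * √(x * Real.log (Real.log x)) := by
  have hb : 0 < b := by linarith
  have hlog : Tendsto (fun n : ℕ => Real.log (n : ℝ)) atTop atTop :=
    Real.tendsto_log_atTop.comp tendsto_natCast_atTop_atTop
  have hK1 : (1 : ℝ) ≤ 1 + 2 * b + 2 / a := by
    have : 0 < 2 / a := by positivity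
    linarith
  refine ⟨1 + 2 * b + 2 / a, hK1, ?_⟩
  filter_upwards [hlog.eventually_ge_atTop (2 * |Real.log a| + 2 * |Real.log b| + 4),
    Pool.Agent.N673.TW.Fin.loglog_tendsto.eventually_ge_atTop 2, eventually_ge_atTop 1]
    with n h1 h2 h3 x hx1 hx2
  have hn : (1 : ℝ) ≤ n := by exact_mod_cast h3
  have hn0 : (0 : ℝ) < n := by linarith
  have hx : 0 < x := lt_of_lt_of_le (by positivity) hx1
  have e1 := abs_nonneg (Real.log a)
  have e2 := abs_nonneg (Real.log b)
  have g1 : Real.log x ≤ 2 * Real.log n := by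
    have := Real.log_le_log hx hx2
    rw [Real.log_mul hb.ne' hn0.ne'] at this
    linarith [le_abs_self (Real.log b)]
  have g2 : Real.log n / 2 ≤ Real.log x := by
    have := Real.log_le_log (by positivity) hx1
    rw [Real.log_mul ha.ne' hn0.ne'] at this
    linarith [neg_abs_le (Real.log a)]
  have g3 : 0 < Real.log x := by linarith
  have g4 : Real.log (Real.log x) ≤ 2 * Real.log (Real.log n) := by
    have := Real.log_le_log g3 g1
    rw [Real.log_mul (by norm_num) (by linarith)] at this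
    linarith [Real.log_two_lt_d9]
  have g5 : Real.log (Real.log n) / 2 ≤ Real.log (Real.log x) := by
    have := Real.log_le_log (by linarith) g2
    rw [Real.log_div (by linarith) (by norm_num)] at this
    linarith [Real.log_two_lt_d9]
  have g6 : 0 ≤ Real.log (Real.log x) := by linarith
  have hKK : 1 + 2 * b + 2 / a ≤ (1 + 2 * b + 2 / a) ^ 2 := by nlinarith
  have h2a : 0 < 2 / a := by positivity
  constructor
  · unfold sq
    rw [← Real.sqrt_sq (by linarith : 0 ≤ 1 + 2 * b + 2 / a), ← Real.sqrt_mul (by positivity)]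
    apply Real.sqrt_le_sqrt
    calc x * Real.log (Real.log x) ≤ (b * n) * (2 * Real.log (Real.log n)) := by gcongr
      _ = (2 * b) * (n * Real.log (Real.log n)) := by ring
      _ ≤ (1 + 2 * b + 2 / a) ^ 2 * (n * Real.log (Real.log n)) := by
          have : 0 ≤ (n : ℝ) * Real.log (Real.log n) := by positivity
          gcongr
          linarith
  · unfold sq
    rw [← Real.sqrt_sq (by linarith : 0 ≤ 1 + 2 * b + 2 / a), ← Real.sqrt_mul (by positivity)]
    apply Real.sqrt_le_sqrt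
    calc (n : ℝ) * Real.log (Real.log n) = (2 / a) * ((a * n) * (Real.log (Real.log n) / 2)) := by
          field_simp
      _ ≤ (2 / a) * (x * Real.log (Real.log x)) := by gcongr
      _ ≤ (1 + 2 * b + 2 / a) ^ 2 * (x * Real.log (Real.log x)) := by
          have : 0 ≤ x * Real.log (Real.log x) := by positivity
          gcongr
          linarith

theorem sq_small (K : ℝ) : ∀ᶠ n : ℕ in atTop, K * sq n ≤ n := by
  have h1 := loglog_small.eventually_le_const (show (0 : ℝ) < 1 / (|K| + 1) by positivity)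
  filter_upwards [h1, eventually_ge_atTop 1] with n h2 h3
  have hn : (1 : ℝ) ≤ n := by exact_mod_cast h3
  rw [div_le_iff₀ (by linarith)] at h2
  have h4 : (|K| + 1) * sq n ≤ n := by
    have h5 : (|K| + 1) * √((n : ℝ) * Real.log (Real.log n)) ≤ (|K| + 1) * (1 / (|K| + 1) * n) := by
      gcongr
    unfold sq
    refine h5.trans (le_of_eq ?_)
    field_simp
  have h5 : K * sq n ≤ (|K| + 1) * sq n := by
    have : 0 ≤ sq n := Real.sqrt_nonneg _
    have := le_abs_self K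
    gcongr
    linarith
  linarith

/-- the size of the level -/
theorem xb (h : Hy M ψ c0 d N R₀ B D C) : ∃ a b : ℝ, 0 < a ∧ a ≤ b ∧ ∀ᶠ R in 𝓝[>] (0 : ℝ),
    a * N R ≤ Real.log (1 / R) ∧ Real.log (1 / R) ≤ b * N R := by
  have hdR : (2 : ℝ) ≤ d := by exact_mod_cast h.d2
  have hlogd : 0 < Real.log d := Real.log_pos (by linarith)
  have hD := h.D1
  have hlogD : 0 < Real.log D := Real.log_pos (by linarith)
  have hR0 := h.R0
  have hlR : 0 ≤ Real.log (1 / R₀) := Real.log_nonneg (by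
    rw [le_div_iff₀ hR0]; linarith [h.R1])
  refine ⟨Real.log d / 2, max (Real.log d / 2) (2 * Real.log D + Real.log (1 / R₀)),
    by positivity, le_max_left _ _, ?_⟩
  filter_upwards [(N_tendsto h).eventually (sq_small (2 * C / Real.log d)),
    Ioo_mem_nhdsGT hR0] with R h1 h2
  have hR : 0 < R := h2.1
  have h3 : R ≤ R₀ := h2.2.le
  have h4 := h.lil R hR h3
  have hdN : (0 : ℝ) < (d : ℝ) ^ N R := by positivity
  have h5 := Real.log_le_log (by positivity) h4
  rw [Real.log_exp, Real.log_mul hR.ne' hdN.ne', Real.log_pow] at h5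
  have h6 : C * sq (N R) ≤ Real.log d / 2 * N R := by
    have e1 : 2 * C / Real.log d * sq (N R) = C * sq (N R) * 2 / Real.log d := by ring
    rw [e1, div_le_iff₀ hlogd] at h1
    linarith
  unfold sq at h6
  have hN := h.five R hR h3
  have hN' : (5 : ℝ) ≤ N R := by exact_mod_cast hN
  rw [one_div, Real.log_inv]
  constructor
  · linarith
  · have h7 := h.step R R₀ hR h3 le_rfl
    have h8 : D ^ (N R + 1 - N R₀) ≤ D ^ (N R + 1) := pow_le_pow_right₀ (by linarith) (by omega)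
    have h9 : R₀ ≤ R * D ^ (N R + 1) := h7.trans (by gcongr)
    have h10 := Real.log_le_log hR0 h9
    rw [Real.log_mul hR.ne' (by positivity), Real.log_pow] at h10
    push_cast at h10
    have h11 : (2 * Real.log D + Real.log (1 / R₀)) * N R ≤
        max (Real.log d / 2) (2 * Real.log D + Real.log (1 / R₀)) * N R := by
      gcongr
      exact le_max_right _ _
    refine le_trans ?_ h11
    rw [one_div, Real.log_inv] at hlR ⊢
    nlinarith

/-- the scale of the radius and the scale of the level -/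
theorem scl (h : Hy M ψ c0 d N R₀ B D C) : ∃ K : ℝ, 1 ≤ K ∧ ∀ᶠ R in 𝓝[>] (0 : ℝ),
    lg R ≤ K * sq (N R) ∧ sq (N R) ≤ K * lg R := by
  obtain ⟨a, b, ha, hab, h1⟩ := xb h
  obtain ⟨K, hK, h2⟩ := cmp ha hab
  refine ⟨K, hK, ?_⟩
  filter_upwards [h1, (N_tendsto h).eventually h2] with R h3 h4
  exact h4 _ h3.1 h3.2

/-- the logarithm of the ratio of the harmonic measure and of the radius -/
theorem ratio (T : Typ d β θ c0 A R') (S : Sg β H) (h : Hy M ψ c0 d N R₀ B D C)
    (hHR : ∃ C' r₁ : ℝ, 0 < C' ∧ 0 < r₁ ∧ r₁ ≤ R₀ ∧ ∀ r : ℝ, 0 < r → r ≤ r₁ →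
      0 < harm ψ c0 r ∧
      |Real.log (harm ψ c0 r) + N r * Real.log d| ≤ C' * Real.log ((N r : ℝ) + 2)) :
    ∃ C₂ : ℝ, 0 < C₂ ∧ ∀ᶠ R in 𝓝[>] (0 : ℝ), 0 < harm ψ c0 R ∧
      |Real.log (harm ψ c0 R) - Real.log R + la d H θ (N R)| ≤
        C₂ * Real.log ((N R : ℝ) + 2) ^ 2 := by
  obtain ⟨C₁, hC₁, h1⟩ := rel T S h
  obtain ⟨C', r₁, hC', hr₁, hr₁', h2⟩ := hHR
  refine ⟨C₁ + C', by linarith, ?_⟩
  filter_upwards [Ioo_mem_nhdsGT hr₁] with R hR
  obtain ⟨h3, h4⟩ := h2 R hR.1 hR.2.le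
  have h5 := h1 R hR.1 (hR.2.le.trans hr₁')
  refine ⟨h3, ?_⟩
  have h6 := log_ge_one h hR.1 (hR.2.le.trans hr₁')
  have h7 : Real.log ((N R : ℝ) + 2) ≤ Real.log ((N R : ℝ) + 2) ^ 2 := by nlinarith
  have h8 := abs_le.1 h4
  have h9 := abs_le.1 h5
  have h10 : C' * Real.log ((N R : ℝ) + 2) ≤ C' * Real.log ((N R : ℝ) + 2) ^ 2 := by gcongr
  rw [abs_le]
  constructor <;> linarith

/-- the law of the iterated logarithm for the harmonic measure of discs -/
theorem hm (T : Typ d β θ c0 A R') (S : Sg β H) (h : Hy M ψ c0 d N R₀ B D C)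
    (hHR : ∃ C' r₁ : ℝ, 0 < C' ∧ 0 < r₁ ∧ r₁ ≤ R₀ ∧ ∀ r : ℝ, 0 < r → r ≤ r₁ →
      0 < harm ψ c0 r ∧
      |Real.log (harm ψ c0 r) + N r * Real.log d| ≤ C' * Real.log ((N r : ℝ) + 2))
    (hup : ∃ C₅ : ℝ, ∀ᶠ l : ℕ in atTop, |la d H θ l| ≤ C₅ * sq l)
    (hlo : ∃ c : ℝ, 0 < c ∧ ∀ σ : ℝ, (σ = 1 ∨ σ = -1) →
      ∃ᶠ R in 𝓝[>] (0 : ℝ), c * sq (N R) ≤ σ * la d H θ (N R)) :
    (∃ K : ℝ, 0 < K ∧ ∀ᶠ R in 𝓝[>] (0 : ℝ), R * Real.exp (-(K * lg R)) ≤ harm ψ c0 R ∧
      harm ψ c0 R ≤ R * Real.exp (K * lg R)) ∧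
    ∃ c : ℝ, 0 < c ∧ (∃ᶠ R in 𝓝[>] (0 : ℝ), R * Real.exp (c * lg R) ≤ harm ψ c0 R) ∧
      ∃ᶠ R in 𝓝[>] (0 : ℝ), harm ψ c0 R ≤ R * Real.exp (-(c * lg R)) := by
  obtain ⟨C₂, hC₂, h1⟩ := ratio T S h hHR
  obtain ⟨K, hK, h2⟩ := scl h
  obtain ⟨C₅, h3⟩ := hup
  obtain ⟨c, hc, h4⟩ := hlo
  have hNt := N_tendsto h
  have hpos : ∀ᶠ R in 𝓝[>] (0 : ℝ), 0 < R := self_mem_nhdsWithin
  constructor
  · refine ⟨(|C₅| + 1) * K, by positivity, ?_⟩
    filter_upwards [h1, h2, hNt.eventually h3, hNt.eventually (lsq C₂), hpos]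
      with R g1 g2 g3 g4 g5
    obtain ⟨g1a, g1b⟩ := g1
    have hs : 0 ≤ sq (N R) := Real.sqrt_nonneg _
    have e1 : |la d H θ (N R)| ≤ |C₅| * sq (N R) :=
      g3.trans (mul_le_mul_of_nonneg_right (le_abs_self _) hs)
    have e2 := abs_le.1 g1b
    have e3 := abs_le.1 e1
    have e4 : (|C₅| + 1) * sq (N R) ≤ (|C₅| + 1) * K * lg R := by
      rw [mul_assoc]
      exact mul_le_mul_of_nonneg_left g2.2 (by positivity)
    constructor
    · rw [← Real.log_le_log_iff (by positivity) g1a, Real.log_mul g5.ne' (Real.exp_pos _).ne',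
        Real.log_exp]
      linarith
    · rw [← Real.log_le_log_iff g1a (by positivity), Real.log_mul g5.ne' (Real.exp_pos _).ne',
        Real.log_exp]
      linarith
  · refine ⟨c / (2 * K), by positivity, ?_, ?_⟩
    · refine ((h4 (-1) (Or.inr rfl)).and_eventually (h1.and (h2.and ((hNt.eventually
        (lsq (2 * C₂ / c))).and hpos)))).mono fun R hR => ?_
      obtain ⟨g0, ⟨g1a, g1b⟩, g2, g4, g5⟩ := hR
      have e2 := abs_le.1 g1b
      have e3 : C₂ * Real.log ((N R : ℝ) + 2) ^ 2 ≤ c / 2 * sq (N R) := by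
        have e : 2 * C₂ / c * Real.log ((N R : ℝ) + 2) ^ 2 =
          C₂ * Real.log ((N R : ℝ) + 2) ^ 2 * 2 / c := by ring
        rw [e, div_le_iff₀ hc] at g4
        linarith
      have e4 : c / (2 * K) * lg R ≤ c / 2 * sq (N R) := by
        calc c / (2 * K) * lg R ≤ c / (2 * K) * (K * sq (N R)) := by
              have := g2.1
              gcongr
          _ = _ := by field_simp
      rw [← Real.log_le_log_iff (by positivity) g1a, Real.log_mul g5.ne' (Real.exp_pos _).ne',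
        Real.log_exp]
      linarith
    · refine ((h4 1 (Or.inl rfl)).and_eventually (h1.and (h2.and ((hNt.eventually
        (lsq (2 * C₂ / c))).and hpos)))).mono fun R hR => ?_
      obtain ⟨g0, ⟨g1a, g1b⟩, g2, g4, g5⟩ := hR
      have e2 := abs_le.1 g1b
      have e3 : C₂ * Real.log ((N R : ℝ) + 2) ^ 2 ≤ c / 2 * sq (N R) := by
        have e : 2 * C₂ / c * Real.log ((N R : ℝ) + 2) ^ 2 =
          C₂ * Real.log ((N R : ℝ) + 2) ^ 2 * 2 / c := by ring
        rw [e, div_le_iff₀ hc] at g4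
        linarith
      have e4 : c / (2 * K) * lg R ≤ c / 2 * sq (N R) := by
        calc c / (2 * K) * lg R ≤ c / (2 * K) * (K * sq (N R)) := by
              have := g2.1
              gcongr
          _ = _ := by field_simp
      rw [← Real.log_le_log_iff g1a (by positivity), Real.log_mul g5.ne' (Real.exp_pos _).ne',
        Real.log_exp]
      linarith

/-- the upper bound at the levels -/
theorem la_up (hd : 2 ≤ d) (T : Typ d β θ c0 A R') (S : Sg β H) :
    ∃ C₅ : ℝ, ∀ᶠ l : ℕ in atTop, |la d H θ l| ≤ C₅ * sq l := by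
  have hdR : (2 : ℝ) ≤ d := by exact_mod_cast hd
  have hlogd : 0 < Real.log d := Real.log_pos (by linarith)
  refine ⟨30 * √(Real.log d) + 1, ?_⟩
  filter_upwards [T.lil, lsq 2, eventually_ge_atTop 5] with l h1 h2 h3
  have h5 : (5 : ℝ) ≤ l := by exact_mod_cast h3
  have h6 : 1 / 2 ≤ rl d l := rl_ge_half hd (by omega)
  have h7 : rl d l < 1 := rl_lt hd l
  have h8 : ‖pt (rl d l) θ‖ = rl d l := norm_pt _ _ (by linarith)
  have h9 : pt (rl d l) θ ∈ ball (0 : ℂ) 1 := by
    rw [mem_ball_zero_iff, h8]; exact h7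
  have h10 : pt (rl d l) θ ≠ 0 := by
    intro hh
    rw [hh, norm_zero] at h8
    linarith
  have h11 := Pool.Agent.Y430.TY.log_deriv S h9 h10
  rw [h8] at h11
  have h12 : |Real.log (rl d l)| ≤ 1 := by
    rw [abs_of_nonpos (Real.log_nonpos (by linarith) h7.le)]
    have h13 : Real.log (1 / 2) ≤ Real.log (rl d l) := Real.log_le_log (by norm_num) h6
    rw [one_div, Real.log_inv] at h13
    linarith [Real.log_two_lt_d9]
  have h14 : Real.log ‖deriv (cc β) (Pool.Agent.W677.Mar.pt (rl d l) θ)‖ =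
      la d H θ l - 2 * Real.log (rl d l) := h11
  rw [h14] at h1
  have h15 : √((l : ℝ) * Real.log d * Real.log (Real.log l)) = √(Real.log d) * sq l := by
    unfold sq
    rw [← Real.sqrt_mul hlogd.le]
    congr 1
    ring
  rw [h15] at h1
  have h16 : 1 ≤ Real.log ((l : ℝ) + 2) := by
    rw [Real.le_log_iff_exp_le (by linarith)]
    linarith [Pool.Agent.N673.TW.Fin.exp_one_lt_three]
  have e1 := abs_le.1 h1
  have e2 := abs_le.1 h12
  have e3 : 2 ≤ sq l := by nlinarith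
  rw [abs_le]
  constructor <;> nlinarith

end Pool.Agent.N673.TW.Har
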