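import Pool.Agent.N673.TW.Stm4
import Pool.Agent.N253.LC.Fin

/-!
# Project TW, part 4: the harmonic measure of discs (HR1)
-/

set_option autoImplicit false

open Filter Topology Metric Set MeasureTheory

namespace Pool.Agent.N673.TW.Hr1

open Pool.Agent.N253.LC (polar nexp nexp_gt)
open Pool.Agent.H713R2 (IsExteriorMap)

theorem exp_tendsto_one : Tendsto Real.exp (𝓝[>] 0) (𝓝[>] 1) := by
  rw [tendsto_nhdsWithin_iff]
  constructor
  · have := Real.continuous_exp.tendsto 0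
    rw [Real.exp_zero] at this
    exact this.mono_left nhdsWithin_le_nhds
  · filter_upwards [self_mem_nhdsWithin] with t ht
    exact Real.one_lt_exp_iff.mpr ht

variable {M : Set ℂ} {ψ : ℂ → ℂ} {c0 : ℂ} {d : ℕ} {N : ℝ → ℕ} {R₀ B D C : ℝ}

theorem upper (hH : Pool.Agent.N253.LC.S_HARM) (h : Hy M ψ c0 d N R₀ B D C) {r : ℝ}
    (hr : 0 < r) (hr2 : 2 * r ≤ R₀) :
    volume {θ : ℝ | θ ∈ Ioc (-Real.pi) Real.pi ∧ ∃ c ∈ ball c0 r,
      Tendsto (fun s : ℝ => ψ (s * Complex.exp (θ * Complex.I))) (𝓝[>] 1) (𝓝 c)} ≤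
    ENNReal.ofReal (4 * Real.pi * (2 / (d : ℝ) ^ N (2 * r))) := by
  have hd : (0 : ℝ) < d := by
    have := h.d2
    have : 0 < d := by omega
    exact_mod_cast this
  refine hH ψ h.ext.diff h.ext.inj c0 r _ hr (by positivity) ?_
  intro w hw1 hw2
  obtain ⟨b, u, hb, hu, hb', hu', hwu⟩ := polar hw1
  have h1 := h.lev (2 * r) (by positivity) hr2 u hu b hb (by rwa [hwu] at hw2)
  rw [hwu, nexp b hu]
  apply Real.exp_le_exp.mpr
  rw [le_div_iff₀ (by positivity)]
  exact h1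

theorem low {ζ : ℂ} (hζ : ‖ζ‖ = 1) {r s : ℝ} (hr : 0 < r) (hs0 : 0 < s) (hsπ : s < Real.pi)
    (H : ∀ w : ℂ, 1 < ‖w‖ → ‖w - ζ‖ < s → ‖ψ w - c0‖ ≤ r / 2)
    (hae : ∀ᵐ θ : ℝ, ∃ c : ℂ,
      Tendsto (fun s : ℝ => ψ (s * Complex.exp (θ * Complex.I))) (𝓝[>] 1) (𝓝 c)) :
    ENNReal.ofReal s ≤ volume {θ : ℝ | θ ∈ Ioc (-Real.pi) Real.pi ∧ ∃ c ∈ ball c0 r,
      Tendsto (fun s : ℝ => ψ (s * Complex.exp (θ * Complex.I))) (𝓝[>] 1) (𝓝 c)} := by
  obtain ⟨A, hA⟩ : ∃ A : Set ℝ, A = {θ : ℝ | θ ∈ Ioc (-Real.pi) Real.pi ∧ ∃ c ∈ ball c0 r,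
      Tendsto (fun s : ℝ => ψ (s * Complex.exp (θ * Complex.I))) (𝓝[>] 1) (𝓝 c)} := ⟨_, rfl⟩
  rw [← hA]
  obtain ⟨θ₀, hθ₀1, hθ₀2, hθ₀3⟩ : ∃ θ₀ : ℝ, -Real.pi < θ₀ ∧ θ₀ ≤ Real.pi ∧
      ζ = Complex.exp (θ₀ * Complex.I) := by
    refine ⟨Complex.arg ζ, Complex.neg_pi_lt_arg ζ, Complex.arg_le_pi ζ, ?_⟩
    have := Complex.norm_mul_exp_arg_mul_I ζ
    rw [hζ] at this
    simpa using this.symm
  obtain ⟨a, ha1, ha2⟩ : ∃ a : ℝ, Ioo a (a + s) ⊆ Ioc (-Real.pi) Real.pi ∧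
      (∀ θ ∈ Ioo a (a + s), |θ - θ₀| < s) := by
    rcases le_total θ₀ 0 with h0 | h0
    · refine ⟨θ₀, ?_, ?_⟩
      · intro θ hθ
        exact ⟨by linarith [hθ.1], by linarith [hθ.2]⟩
      · intro θ hθ
        rw [abs_lt]
        exact ⟨by linarith [hθ.1], by linarith [hθ.2]⟩
    · refine ⟨θ₀ - s, ?_, ?_⟩
      · intro θ hθ
        exact ⟨by linarith [hθ.1], by linarith [hθ.2]⟩
      · intro θ hθ
        rw [abs_lt]
        exact ⟨by linarith [hθ.1], by linarith [hθ.2]⟩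
  have hsub : ∀ᵐ θ : ℝ, θ ∈ Ioo a (a + s) → θ ∈ A := by
    filter_upwards [hae] with θ hθ hθI
    obtain ⟨c, hcθ⟩ := hθ
    rw [hA]
    refine ⟨ha1 hθI, c, ?_, hcθ⟩
    have hd : ‖Complex.exp (θ * Complex.I) - ζ‖ < s := by
      rw [hθ₀3]
      exact (Pool.Agent.N253.LC.Hyp.cis_sub_le _ _).trans_lt (ha2 θ hθI)
    have hcont : Tendsto (fun x : ℝ => ‖(x : ℂ) * Complex.exp (θ * Complex.I) - ζ‖) (𝓝[>] 1)
        (𝓝 ‖Complex.exp (θ * Complex.I) - ζ‖) := by
      have : Continuous (fun x : ℝ => ‖(x : ℂ) * Complex.exp (θ * Complex.I) - ζ‖) := by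
        fun_prop
      have h7 := this.tendsto 1
      simp only [Complex.ofReal_one, one_mul] at h7
      exact h7.mono_left nhdsWithin_le_nhds
    have hle : ‖c - c0‖ ≤ r / 2 := by
      refine le_of_tendsto (hcθ.sub_const c0).norm ?_
      filter_upwards [hcont.eventually (gt_mem_nhds hd), self_mem_nhdsWithin] with x hx1 hx2
      have hx2 : 1 < x := hx2
      have hn : 1 < ‖(x : ℂ) * Complex.exp (θ * Complex.I)‖ := by
        rw [norm_mul, Complex.norm_exp_ofReal_mul_I, mul_one, Complex.norm_real,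
          Real.norm_of_nonneg (by linarith)]
        exact hx2
      exact H _ hn hx1
    rw [mem_ball, dist_eq_norm]
    linarith
  have h9 : volume (Ioo a (a + s)) = ENNReal.ofReal s := by
    rw [Real.volume_Ioo]; congr 1; ring
  rw [← h9]
  exact measure_mono_ae hsub

/-- the comparison of the levels -/
theorem loglem {C E n m : ℝ} (hC : 0 ≤ C) (hE : 0 ≤ E) (hn : 0 ≤ n) (hm : 0 ≤ m)
    (h : n ≤ m + (E + C * Real.log (n + 2))) :
    Real.log (n + 2) ≤ Real.log (2 + (E + C * Real.log (2 * (C + 1)))) + Real.log (m + 2) := by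
  have h0 : 0 ≤ C * Real.log (2 * (C + 1)) := by
    have := Real.log_nonneg (by linarith : 1 ≤ 2 * (C + 1))
    positivity
  have h1 : Real.log (n + 2) ≤ (n + 2) / (2 * (C + 1)) + Real.log (2 * (C + 1)) := by
    have h2 : Real.log (n + 2) = Real.log ((n + 2) / (2 * (C + 1))) + Real.log (2 * (C + 1)) := by
      rw [Real.log_div (by positivity) (by positivity)]
      ring
    rw [h2]
    have := Real.log_le_sub_one_of_pos (by positivity : 0 < (n + 2) / (2 * (C + 1)))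
    linarith
  have h3 : C * Real.log (n + 2) ≤ (n + 2) / 2 + C * Real.log (2 * (C + 1)) := by
    have h4 : C * ((n + 2) / (2 * (C + 1))) ≤ (n + 2) / 2 := by
      rw [mul_div_assoc', div_le_div_iff₀ (by positivity) (by norm_num)]
      nlinarith
    nlinarith [mul_le_mul_of_nonneg_left h1 hC]
  obtain ⟨F, hF⟩ : ∃ F : ℝ, F = E + C * Real.log (2 * (C + 1)) := ⟨_, rfl⟩
  have hF0 : 0 ≤ F := by rw [hF]; positivity
  rw [← hF]
  have h5 : n + 2 ≤ (2 + F) * (m + 2) := by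
    nlinarith [mul_nonneg hF0 hm]
  rw [← Real.log_mul (by positivity) (by positivity)]
  exact Real.log_le_log (by positivity) h5

theorem t (hC : S_COR) (hH : Pool.Agent.N253.LC.S_HARM) : S_HR1 := by
  intro M ψ c0 d N R₀ B D C θ h hθ hae
  obtain ⟨K, R₁, hK1, hR₁0, hR₁R₀, HC⟩ := hC M ψ c0 d N R₀ B D C h
  have hR₀ := h.R0
  have hB := h.B0
  have hC0 := h.C0
  have hd2 : (2 : ℝ) ≤ d := by exact_mod_cast h.d2
  have hd0 : (0 : ℝ) < d := by linarith
  have hlogd : 0 ≤ Real.log d := Real.log_nonneg (by linarith)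
  obtain ⟨ζ, hζe⟩ : ∃ ζ : ℂ, ζ = Complex.exp (θ * Complex.I) := ⟨_, rfl⟩
  have hζ : ‖ζ‖ = 1 := by rw [hζe, Complex.norm_exp_ofReal_mul_I]
  have hray : Tendsto (fun t : ℝ => ψ (Real.exp t * ζ)) (𝓝[>] 0) (𝓝 c0) := by
    have h1 := hθ.comp exp_tendsto_one
    rw [hζe]
    exact h1
  have H1 := HC ζ hζ hray
  -- constants
  obtain ⟨E, hE⟩ : ∃ E : ℝ, E = C * Real.log (2 * K) := ⟨_, rfl⟩
  have hE0 : 0 ≤ E := by
    rw [hE]
    have := Real.log_nonneg (by linarith : 1 ≤ 2 * K)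
    positivity
  obtain ⟨G, hG⟩ : ∃ G : ℝ, G = Real.log (2 + (E + C * Real.log (2 * (C + 1)))) + 1 := ⟨_, rfl⟩
  have hG0 : 0 ≤ G := by
    rw [hG]
    have h0 : 0 ≤ C * Real.log (2 * (C + 1)) := by
      have := Real.log_nonneg (by linarith : 1 ≤ 2 * (C + 1))
      positivity
    have := Real.log_nonneg (by linarith : 1 ≤ 2 + (E + C * Real.log (2 * (C + 1))))
    linarith
  obtain ⟨C1, hC1⟩ : ∃ C1 : ℝ, C1 = Real.log (8 * Real.pi) + 2 * C * Real.log d := ⟨_, rfl⟩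
  have hlog8 : 0 < Real.log (8 * Real.pi) := Real.log_pos (by nlinarith [Real.pi_gt_three])
  have hC10 : 0 < C1 := by rw [hC1]; positivity
  obtain ⟨C2, hC2⟩ : ∃ C2 : ℝ, C2 = Real.log 2 + Real.log d * (E + C * G) + B * G := ⟨_, rfl⟩
  have hlog2 : 0 < Real.log 2 := Real.log_pos (by norm_num)
  have hC20 : 0 < C2 := by rw [hC2]; positivity
  refine ⟨max C1 C2, min (R₀ / 2) R₁, lt_max_of_lt_left hC10, by positivity,
    (min_le_left _ _).trans (by linarith), ?_⟩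
  intro r hr hrr
  have hr2 : 2 * r ≤ R₀ := by
    have := hrr.trans (min_le_left _ _)
    linarith
  have hrR₁ : r ≤ R₁ := hrr.trans (min_le_right _ _)
  have hNr := h.five r hr (by linarith)
  have hNr' : (5 : ℝ) ≤ N r := by exact_mod_cast hNr
  obtain ⟨L, hL⟩ : ∃ L : ℝ, L = Real.log ((N r : ℝ) + 2) := ⟨_, rfl⟩
  have hL1 : 1 ≤ L := by
    rw [hL, Real.le_log_iff_exp_le (by positivity)]
    have := Real.exp_one_lt_d9
    linarith
  rw [← hL]
  -- the set
  obtain ⟨A, hA⟩ : ∃ A : Set ℝ, A = {θ : ℝ | θ ∈ Ioc (-Real.pi) Real.pi ∧ ∃ c ∈ ball c0 r,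
      Tendsto (fun s : ℝ => ψ (s * Complex.exp (θ * Complex.I))) (𝓝[>] 1) (𝓝 c)} := ⟨_, rfl⟩
  have hharm : harm ψ c0 r = (volume A).toReal := by rw [hA]; rfl
  have hup := upper hH h hr hr2
  rw [← hA] at hup
  have hAfin : volume A ≠ ⊤ := ne_top_of_le_ne_top ENNReal.ofReal_ne_top hup
  have hup' : harm ψ c0 r ≤ 8 * Real.pi / (d : ℝ) ^ N (2 * r) := by
    have h1 := ENNReal.toReal_mono ENNReal.ofReal_ne_top hup
    rw [ENNReal.toReal_ofReal (by positivity), ← hharm] at h1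
    calc harm ψ c0 r ≤ 4 * Real.pi * (2 / (d : ℝ) ^ N (2 * r)) := h1
      _ = _ := by ring
  -- lower bound
  obtain ⟨R, hR⟩ : ∃ R : ℝ, R = r / (2 * K) := ⟨_, rfl⟩
  have hK0 : 0 < K := by linarith
  have hR0 : 0 < R := by rw [hR]; positivity
  have hRr : R ≤ r := by
    rw [hR, div_le_iff₀ (by positivity)]
    nlinarith
  have hKR : K * R = r / 2 := by rw [hR]; field_simp
  have hn5 := h.five R hR0 (by linarith)
  obtain ⟨n, hn⟩ : ∃ n : ℕ, n = N R := ⟨_, rfl⟩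
  rw [← hn] at hn5
  have hn5' : (5 : ℝ) ≤ n := by exact_mod_cast hn5
  have hdn : (32 : ℝ) ≤ (d : ℝ) ^ n := by
    calc (32 : ℝ) = 2 ^ 5 := by norm_num
      _ ≤ (d : ℝ) ^ 5 := by gcongr
      _ ≤ (d : ℝ) ^ n := pow_le_pow_right₀ (by linarith) hn5
  have hnB : (1 : ℝ) ≤ ((n : ℝ) + 2) ^ B := Real.one_le_rpow (by linarith) hB
  obtain ⟨Q, hQ⟩ : ∃ Q : ℝ, Q = (d : ℝ) ^ n * ((n : ℝ) + 2) ^ B := ⟨_, rfl⟩
  have hQ32 : 32 ≤ Q := by rw [hQ]; nlinarith
  obtain ⟨s, hs⟩ : ∃ s : ℝ, s = 1 / (2 * Q) := ⟨_, rfl⟩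
  have hs0 : 0 < s := by rw [hs]; positivity
  have hsQ : s * Q = 1 / 2 := by rw [hs]; field_simp
  have hs8 : s ≤ 1 / 8 := by nlinarith
  have hlow := low (ψ := ψ) (c0 := c0) hζ hr hs0 (by linarith [Real.pi_gt_three]) (by
    intro w hw1 hw2
    have h1 := H1 R hR0 (by linarith) w hw1 (by linarith) (by
      rw [← hn, ← hQ]
      nlinarith)
    rwa [hKR] at h1) hae
  rw [← hA, ENNReal.ofReal_le_iff_le_toReal hAfin, ← hharm] at hlow
  have hpos : 0 < harm ψ c0 r := hs0.trans_le hlow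
  refine ⟨hpos, ?_⟩
  -- logarithms
  have e1 : Real.log (harm ψ c0 r) ≤ Real.log (8 * Real.pi) - N (2 * r) * Real.log d := by
    have h1 := Real.log_le_log hpos hup'
    rwa [Real.log_div (by positivity) (by positivity), Real.log_pow] at h1
  have e2 : -(Real.log 2 + (n * Real.log d + B * Real.log ((n : ℝ) + 2))) ≤
      Real.log (harm ψ c0 r) := by
    have h1 := Real.log_le_log hs0 hlow
    rw [hs, one_div, Real.log_inv, Real.log_mul (by norm_num) (by positivity), hQ,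
      Real.log_mul (by positivity) (by positivity), Real.log_pow,
      Real.log_rpow (by positivity)] at h1
    exact h1
  have e3 := h.lip r (2 * r) hr (by linarith) hr2
  have e3' : Real.log (2 * r / r) = Real.log 2 := by
    congr 1; field_simp
  rw [e3', ← hL] at e3
  have e4 := h.lip R r hR0 hRr (by linarith)
  have e4' : r / R = 2 * K := by rw [hR]; field_simp
  rw [e4', ← hn] at e4
  have e5 : Real.log ((n : ℝ) + 2) ≤ G * L := by
    have h1 := loglem hC0 hE0 (by positivity : (0 : ℝ) ≤ n) (by positivity : (0 : ℝ) ≤ N r) (by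
      rw [hE]; linarith)
    rw [← hL] at h1
    have h2 : Real.log (2 + (E + C * Real.log (2 * (C + 1)))) = G - 1 := by rw [hG]; ring
    rw [h2] at h1
    have hG1 : 0 ≤ G - 1 := by
      rw [← h2]
      apply Real.log_nonneg
      have h0 : 0 ≤ C * Real.log (2 * (C + 1)) := by
        have := Real.log_nonneg (by linarith : 1 ≤ 2 * (C + 1))
        positivity
      linarith
    nlinarith
  have hlog2' : Real.log 2 ≤ 1 := by
    have := Real.log_two_lt_d9
    linarith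
  rw [abs_le]
  constructor
  · have h1 : C2 * L ≤ max C1 C2 * L := by
      gcongr
      exact le_max_right _ _
    have h2 : ((n : ℝ) - N r) * Real.log d ≤ Real.log d * (E + C * G) * L := by
      have h3 : (n : ℝ) - N r ≤ (E + C * G) * L := by
        have h4 : C * Real.log ((n : ℝ) + 2) ≤ C * (G * L) := mul_le_mul_of_nonneg_left e5 hC0
        have h5 : E ≤ E * L := by nlinarith
        have h6 : C * (Real.log (2 * K) + Real.log ((n : ℝ) + 2)) = E + C * Real.log ((n : ℝ) + 2) := by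
          rw [hE]; ring
        rw [h6] at e4
        linarith [e4, h4, h5]
      have := mul_le_mul_of_nonneg_right h3 hlogd
      linarith
    have h7 : B * Real.log ((n : ℝ) + 2) ≤ B * G * L := by
      have := mul_le_mul_of_nonneg_left e5 hB
      linarith
    have h8 : Real.log 2 ≤ Real.log 2 * L := by nlinarith
    have h9 : C2 * L = Real.log 2 * L + Real.log d * (E + C * G) * L + B * G * L := by
      rw [hC2]; ring
    linarith
  · have h1 : C1 * L ≤ max C1 C2 * L := by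
      gcongr
      exact le_max_left _ _
    have h2 : ((N r : ℝ) - N (2 * r)) * Real.log d ≤ 2 * C * Real.log d * L := by
      have h3 : (N r : ℝ) - N (2 * r) ≤ 2 * C * L := by
        have : C * (Real.log 2 + L) ≤ C * (L + L) := by
          apply mul_le_mul_of_nonneg_left _ hC0
          linarith
        linarith
      have := mul_le_mul_of_nonneg_right h3 hlogd
      linarith
    have h3 : Real.log (8 * Real.pi) ≤ Real.log (8 * Real.pi) * L := by nlinarith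
    have h4 : C1 * L = Real.log (8 * Real.pi) * L + 2 * C * Real.log d * L := by
      rw [hC1]; ring
    linarith

end Pool.Agent.N673.TW.Hr1
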