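import Pool.Agent.N673.TW.Stm4
import Pool.Agent.N253.LC.Two

/-!
# Project TW, IN2: from finite level to the exterior map (helper407)
-/

set_option autoImplicit false

open Set Filter Metric Topology

namespace Pool.Agent.N673.TW.In2

open Pool.Agent.TH279.MD Pool.Agent.Y298.SH Pool.Agent.Y298.SH.CD Pool.Agent.Y298.CA
open Pool.Agent.H713R2 (IsExteriorMap IsGm)
open Pool.Agent.H712R2 (P P_lt_of_gt)
open Pool.Agent.N253.LC (norm_exp_mul gm_point)

theorem RR_pos {d : ℕ} {c0 : ℂ} {B κ η : ℝ} {n₀ : ℕ} (h : Shd d c0 B κ η n₀) (n : ℕ) :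
    0 < RR d c0 B n := by
  unfold RR
  have h1 : (0 : ℝ) < (n : ℝ) + 2 := by positivity
  exact div_pos (Real.rpow_pos_of_pos h1 _) (h.pos n)

theorem t (hT : S_TW2) (hL : Pool.Agent.N253.LC.S_LIM) : S_IN2 := by
  intro d c₀ B κ η n₀ Q hd hLy h hQ
  have hdR : (2 : ℝ) ≤ d := by exact_mod_cast hd
  have hd0 : (0 : ℝ) < d := by linarith
  obtain ⟨B', n₁, hB', HT⟩ := hT d c₀ B κ η n₀ Q hd hLy h hQ
  obtain ⟨g, hg, hlim⟩ := hL d hd
  refine ⟨B', max n₁ n₀, hB', ?_⟩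
  intro ψ hψ n hn R hRl hRu u hu
  have hn1 : n₁ ≤ n := (le_max_left _ _).trans hn
  have hn0 : n₀ ≤ n := (le_max_right _ _).trans hn
  have hRR := RR_pos h n
  have hR : 0 < R := lt_of_lt_of_le (div_pos hRR (by linarith)) hRl
  have hpow : Tendsto (fun m : ℕ => (d : ℝ) ^ m) (hyperfilter ℕ : Filter ℕ) atTop :=
    (tendsto_pow_atTop_atTop_of_one_lt (by linarith)).mono_left Nat.hyperfilter_le_atTop
  have hge : ∀ m₀ : ℕ, ∀ᶠ m in (hyperfilter ℕ : Filter ℕ), m₀ ≤ m := fun m₀ =>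
    Nat.hyperfilter_le_atTop (eventually_ge_atTop m₀)
  have hfour : ∀ t : ℝ, 0 < t → ∀ᶠ m in (hyperfilter ℕ : Filter ℕ),
      4 ≤ Real.exp ((d : ℝ) ^ m * t) := by
    intro t ht
    have h1 : Tendsto (fun m : ℕ => Real.exp ((d : ℝ) ^ m * t)) (hyperfilter ℕ : Filter ℕ) atTop :=
      Real.tendsto_exp_atTop.comp (hpow.atTop_mul_const ht)
    exact h1.eventually_ge_atTop 4
  have hgt : ∀ t : ℝ, 0 < t → 1 < ‖(Real.exp t : ℂ) * u‖ := by
    intro t ht
    rw [norm_exp_mul t hu]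
    exact Real.one_lt_exp_iff.mpr ht
  constructor
  · intro t ht hψt
    have h1 := hlim ψ hψ _ (hgt t ht)
    have h2 : ∀ᶠ m in (hyperfilter ℕ : Filter ℕ),
        ‖(Real.exp t : ℂ) * u * g m ((Real.exp t : ℂ) * u)⁻¹ - c₀‖ < 2 * R := by
      have h3 := (h1.sub_const c₀).norm
      exact h3.eventually_lt_const (by linarith)
    obtain ⟨m, hm⟩ := (h2.and ((hge n).and (hfour t ht))).exists
    obtain ⟨hm1, hm2, hm3⟩ := hm
    obtain ⟨c, hc⟩ : ∃ c : ℂ, c = (Real.exp t : ℂ) * u * g m ((Real.exp t : ℂ) * u)⁻¹ := ⟨_, rfl⟩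
    rw [← hc] at hm1
    have h4 : ∀ j ≤ n, ‖P d (j + 1) c‖ ≤ 3 := h.orb n hn0 c (by linarith)
    have h5 : ‖P d (n + 1) c‖ ≤ 3 := h4 n le_rfl
    have h6 : ‖c‖ ≤ 3 := by
      have h7 := h4 0 (Nat.zero_le _)
      rw [P_succ_eq hd] at h7
      exact h7
    have h7 := Pool.Agent.H713R2.up_growth hd (by norm_num : (2 : ℝ) ≤ 3) h6 h5 (m - n)
    rw [show n + 1 + (m - n) = m + 1 by omega] at h7
    have h8 := (gm_point hd (hg m) hu hm3).2
    rw [← hc] at h8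
    rw [h8, norm_pow, norm_exp_mul t hu, ← Real.exp_nat_mul] at h7
    have h9 : Real.exp (((d ^ m : ℕ) : ℝ) * t) ≤ Real.exp (((d ^ (m - n) : ℕ) : ℝ) * 2) := by
      refine h7.trans ((sub_le_self _ zero_le_one).trans ?_)
      rw [Real.exp_nat_mul]
      have h10 : (3 : ℝ) + 1 ≤ Real.exp 2 := by
        have h5 : Real.exp 2 = Real.exp 1 * Real.exp 1 := by rw [← Real.exp_add]; norm_num
        nlinarith [Real.exp_one_gt_d9]
      exact pow_le_pow_left₀ (by norm_num) h10 _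
    rw [Real.exp_le_exp] at h9
    push_cast at h9
    have hdm : (d : ℝ) ^ m = (d : ℝ) ^ (m - n) * (d : ℝ) ^ n := by
      rw [← pow_add]; congr 1; omega
    have hpos : (0 : ℝ) < (d : ℝ) ^ (m - n) := by positivity
    have h11 : (d : ℝ) ^ n * t ≤ 2 := by
      rw [hdm, mul_assoc] at h9
      exact le_of_mul_le_mul_left h9 hpos
    rwa [mul_comm] at h11
  · intro t₁ t₂ ht₁ ht₂ h1 h2 h12
    obtain ⟨m₀, HT'⟩ := HT n hn1 (3 / 2 * R) (by linarith) (by linarith)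
    have l1 := hlim ψ hψ _ (hgt t₁ ht₁)
    have l2 := hlim ψ hψ _ (hgt t₂ ht₂)
    have e1 := (l1.sub_const c₀).norm.eventually_lt_const (u := 3 / 2 * R) (by linarith)
    have e2 := (l2.sub_const c₀).norm.eventually_lt_const (u := 3 / 2 * R) (by linarith)
    have e3 := (l1.sub l2).norm.eventually_const_lt (u := 3 / 2 * R / 8) (by linarith)
    obtain ⟨m, hm⟩ := (e1.and (e2.and (e3.and ((hge m₀).and
      ((hfour t₁ ht₁).and (hfour t₂ ht₂)))))).exists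
    obtain ⟨hm1, hm2, hm3, hm4, hm5, hm6⟩ := hm
    exact HT' m hm4 (g m) u (hg m) hu t₁ t₂ hm5 hm6 hm1.le hm2.le hm3.le

end Pool.Agent.N673.TW.In2
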