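import Pool.Agent.N673.TW.Stm4

/-!
# Project TW, LCM: the modulus of local connectivity at a typical parameter (helper407)
-/

set_option autoImplicit false

open Set Filter Metric Topology

namespace Pool.Agent.N673.TW.Lcm

open Pool.Agent.H713R2 (IsExteriorMap)

/-- the scale of the iterated logarithm is sublinear -/
theorem sqr {C a : ℝ} (hC : 0 ≤ C) (ha : 0 < a) : ∃ K : ℝ, 0 ≤ K ∧ ∀ x : ℝ, 3 ≤ x →
    C * √(x * Real.log (Real.log x)) ≤ a * x + K := by
  obtain ⟨q, hq⟩ : ∃ q : ℝ, q = C ^ 2 / (2 * a) := ⟨_, rfl⟩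
  have hq0 : 0 ≤ q := by rw [hq]; positivity
  obtain ⟨ε, hε⟩ : ∃ ε : ℝ, ε = a / (2 * (q + 1)) := ⟨_, rfl⟩
  have hε0 : 0 < ε := by rw [hε]; positivity
  refine ⟨q * |Real.log ε|, by positivity, ?_⟩
  intro x hx
  have hx0 : 0 < x := by linarith
  have hlog1 : 1 ≤ Real.log x := by
    rw [Real.le_log_iff_exp_le hx0]
    linarith [Real.exp_one_lt_d9]
  have hll : 0 ≤ Real.log (Real.log x) := Real.log_nonneg hlog1
  have hll2 : Real.log (Real.log x) ≤ Real.log x := by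
    have := Real.log_le_sub_one_of_pos (by linarith : 0 < Real.log x)
    linarith
  have hlx : Real.log x ≤ ε * x + |Real.log ε| := by
    have h1 : Real.log (ε * x) = Real.log ε + Real.log x := Real.log_mul hε0.ne' hx0.ne'
    have h2 := Real.log_le_sub_one_of_pos (mul_pos hε0 hx0)
    have h3 := neg_abs_le (Real.log ε)
    linarith
  -- `C √(x y) ≤ a / 2 x + q y`
  obtain ⟨y, hy⟩ : ∃ y : ℝ, y = Real.log (Real.log x) := ⟨_, rfl⟩
  rw [← hy] at hll hll2 ⊢
  have h1 : C * √(x * y) ≤ a / 2 * x + q * y := by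
    have h2 : 0 ≤ a / 2 * x + q * y := by positivity
    have h3 : C * √(x * y) = √(C ^ 2 * (x * y)) := by
      rw [Real.sqrt_mul (sq_nonneg C) (x * y), Real.sqrt_sq hC]
    rw [h3]
    apply Real.sqrt_le_iff.mpr
    refine ⟨h2, ?_⟩
    have h4 : C ^ 2 = q * (2 * a) := by rw [hq]; field_simp
    rw [h4]
    nlinarith [sq_nonneg (a / 2 * x - q * y)]
  have h5 : q * ε ≤ a / 2 := by
    rw [hε]
    rw [mul_div_assoc', div_le_div_iff₀ (by positivity) (by norm_num)]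
    nlinarith
  have h6 : q * y ≤ q * (ε * x + |Real.log ε|) := by
    apply mul_le_mul_of_nonneg_left (by linarith) hq0
  nlinarith

theorem nexp (t : ℝ) {u : ℂ} (hu : ‖u‖ = 1) : ‖(Real.exp t : ℂ) * u‖ = Real.exp t := by
  rw [norm_mul, hu, mul_one, Complex.norm_real, Real.norm_of_nonneg (Real.exp_pos _).le]

theorem nexp_gt {t : ℝ} (ht : 0 < t) {u : ℂ} (hu : ‖u‖ = 1) : 1 < ‖(Real.exp t : ℂ) * u‖ := by
  rw [nexp t hu]; exact Real.one_lt_exp_iff.mpr ht

theorem polar {w : ℂ} (hw : 1 < ‖w‖) : ∃ (b : ℝ) (u : ℂ), 0 < b ∧ ‖u‖ = 1 ∧ b = Real.log ‖w‖ ∧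
    u = w / ‖w‖ ∧ w = (Real.exp b : ℂ) * u := by
  have h0 : (‖w‖ : ℂ) ≠ 0 := by
    have : ‖w‖ ≠ 0 := by linarith
    exact_mod_cast this
  refine ⟨Real.log ‖w‖, w / ‖w‖, Real.log_pos hw, ?_, rfl, rfl, ?_⟩
  · rw [norm_div, Complex.norm_real, norm_norm, div_self (by linarith)]
  · rw [Real.exp_log (by linarith)]
    field_simp

variable {M : Set ℂ} {ψ : ℂ → ℂ} {c₀ : ℂ} {d : ℕ} {N : ℝ → ℕ} {R₀ B D C : ℝ}

theorem cont (h : IsExteriorMap M ψ) {u : ℂ} (hu : ‖u‖ = 1) {a b : ℝ} (ha : 0 < a) :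
    ContinuousOn (fun t : ℝ => ‖ψ (Real.exp t * u) - c₀‖) (Icc a b) := by
  have h1 : ContinuousOn (fun t : ℝ => ψ (Real.exp t * u)) (Icc a b) := by
    refine h.diff.continuousOn.comp (by fun_prop) ?_
    intro t ht
    exact nexp_gt (lt_of_lt_of_le ha ht.1) hu
  exact (h1.sub continuousOn_const).norm

/-- A point of the ray where the distance from `c₀` is `R`. -/
theorem ivt (h : IsExteriorMap M ψ) {u : ℂ} (hu : ‖u‖ = 1) {a b R : ℝ} (ha : 0 < a) (hab : a ≤ b)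
    (h1 : ‖ψ (Real.exp b * u) - c₀‖ ≤ R) (h2 : R ≤ ‖ψ (Real.exp a * u) - c₀‖) :
    ∃ t, a ≤ t ∧ t ≤ b ∧ ‖ψ (Real.exp t * u) - c₀‖ = R := by
  have h3 := intermediate_value_Icc' hab (cont (c₀ := c₀) h hu (b := b) ha)
  obtain ⟨t, ht, h4⟩ := h3 ⟨h1, h2⟩
  exact ⟨t, ht.1, ht.2, h4⟩

theorem small {p : ℝ → Prop} (h : ∀ᶠ r in 𝓝[>] (0 : ℝ), p r) :
    ∃ r₁ : ℝ, 0 < r₁ ∧ r₁ < 1 ∧ ∀ r : ℝ, 0 < r → r ≤ r₁ → p r := by
  rw [eventually_nhdsWithin_iff, Metric.eventually_nhds_iff] at h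
  obtain ⟨ε, hε, h⟩ := h
  refine ⟨min (ε / 2) (1 / 2), by positivity, ?_, ?_⟩
  · exact lt_of_le_of_lt (min_le_right _ _) (by norm_num)
  · intro r hr hrr
    apply h _ hr
    rw [Real.dist_eq, sub_zero, abs_of_pos hr]
    have := hrr.trans (min_le_left _ _)
    linarith

theorem log_top : Tendsto (fun r : ℝ => Real.log (1 / r)) (𝓝[>] 0) atTop := by
  have h1 : Tendsto (fun r : ℝ => 1 / r) (𝓝[>] 0) atTop := by
    simpa using tendsto_inv_nhdsGT_zero (𝕜 := ℝ)
  exact Real.tendsto_log_atTop.comp h1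

theorem mul_small (C' : ℝ) :
    Tendsto (fun r : ℝ => r * Real.log (1 / r) ^ C') (𝓝[>] 0) (𝓝 0) := by
  have h1 := (tendsto_rpow_mul_exp_neg_mul_atTop_nhds_zero C' 1 one_pos).comp log_top
  refine h1.congr' ?_
  filter_upwards [self_mem_nhdsWithin] with r hr
  have hr : 0 < r := hr
  simp only [Function.comp]
  rw [one_div, Real.log_inv, neg_mul, one_mul, neg_neg, Real.exp_log hr]
  ring

/-- the level is at most linear in the logarithm -/
theorem lin (h : Hy M ψ c₀ d N R₀ B D C) : ∃ C4 : ℝ, 1 ≤ C4 ∧ ∀ r : ℝ, 0 < r → r ≤ R₀ →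
    1 ≤ Real.log (1 / r) → (N r : ℝ) ≤ C4 * Real.log (1 / r) := by
  have hdR : (2 : ℝ) ≤ d := by exact_mod_cast h.d2
  have hd0 : (0 : ℝ) < d := by linarith
  have hlogd : 0 < Real.log d := Real.log_pos (by linarith)
  obtain ⟨K, hK, H⟩ := sqr h.C0 (a := Real.log d / 2) (by positivity)
  refine ⟨max 1 (2 / Real.log d * (1 + K)), le_max_left _ _, ?_⟩
  intro r hr hrr hL
  have h5 : (5 : ℝ) ≤ N r := by exact_mod_cast h.five r hr hrr
  have h1 := h.lil r hr hrr
  have h2 := H (N r) (by linarith)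
  have h3 : 0 < r * (d : ℝ) ^ N r := by positivity
  have h4 := Real.log_le_log h3 h1
  rw [Real.log_exp, Real.log_mul hr.ne' (by positivity), Real.log_pow] at h4
  have h6 : Real.log (1 / r) = - Real.log r := by rw [one_div, Real.log_inv]
  obtain ⟨L, hL'⟩ : ∃ L : ℝ, L = Real.log (1 / r) := ⟨_, rfl⟩
  rw [← hL'] at h6 hL ⊢
  have h7 : Real.log d / 2 * N r ≤ L + K := by linarith
  have h8 : (N r : ℝ) ≤ 2 / Real.log d * (L + K) := by
    rw [div_mul_eq_mul_div, le_div_iff₀ hlogd]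
    linarith
  refine h8.trans ?_
  calc 2 / Real.log d * (L + K) ≤ 2 / Real.log d * ((1 + K) * L) := by
        refine mul_le_mul_of_nonneg_left ?_ (by positivity)
        nlinarith
    _ = 2 / Real.log d * (1 + K) * L := by ring
    _ ≤ max 1 (2 / Real.log d * (1 + K)) * L := by
        refine mul_le_mul_of_nonneg_right (le_max_right _ _) (by linarith)

/-- A ray which comes near `c₀` stays near `c₀`. -/
theorem stay (h : Hy M ψ c₀ d N R₀ B D C) :
    ∃ C' r₁ : ℝ, 0 < C' ∧ 0 < r₁ ∧ r₁ < 1 ∧ ∀ r : ℝ, 0 < r → r ≤ r₁ →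
      r ≤ r * Real.log (1 / r) ^ C' ∧ ∀ u : ℂ, ‖u‖ = 1 → ∀ b : ℝ, 0 < b →
      ‖ψ (Real.exp b * u) - c₀‖ ≤ r → ∀ t : ℝ, 0 < t → t ≤ b →
      ‖ψ (Real.exp t * u) - c₀‖ ≤ r * Real.log (1 / r) ^ C' := by
  have hdR : (2 : ℝ) ≤ d := by exact_mod_cast h.d2
  have hd0 : (0 : ℝ) < d := by linarith
  have hlogd : 0 < Real.log d := Real.log_pos (by linarith)
  have hlogD : 0 < Real.log D := Real.log_pos (by linarith [h.D1])
  have hD0 : 0 < D := by linarith [h.D1]
  have hB := h.B0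
  obtain ⟨C4, hC4, H4⟩ := lin h
  obtain ⟨C', hC'⟩ : ∃ x : ℝ, x = (2 * B + 1) * Real.log D / Real.log d + 1 := ⟨_, rfl⟩
  have hC'1 : 1 ≤ C' := by
    rw [hC']
    have : 0 ≤ (2 * B + 1) * Real.log D / Real.log d := by positivity
    linarith
  have hR0 := h.R0
  obtain ⟨r₁, hr₁, hr₁1, H⟩ := small ((log_top.eventually_ge_atTop (C4 + 2)).and
    ((log_top.eventually_ge_atTop (2 * d + 1)).and
    (((mul_small C').eventually_le_const hR0).and
      (nhdsWithin_le_nhds (Iic_mem_nhds hR0) : ∀ᶠ t in 𝓝[>] (0 : ℝ), t ≤ R₀))))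
  refine ⟨C', r₁, by linarith, hr₁, hr₁1, ?_⟩
  intro r hr hrr
  obtain ⟨h1, h2, h3, h4⟩ := H r hr hrr
  have h5 := H4 r hr h4 (by linarith)
  obtain ⟨L, hL⟩ : ∃ L : ℝ, L = Real.log (1 / r) := ⟨_, rfl⟩
  rw [← hL] at h1 h2 h3 h5 ⊢
  have hL0 : 0 < L := by linarith
  have hL2 : 2 ≤ L := by linarith
  have hLp : 2 ≤ L ^ C' := by
    calc (2 : ℝ) ≤ L := hL2
      _ = L ^ (1 : ℝ) := (Real.rpow_one L).symm
      _ ≤ L ^ C' := Real.rpow_le_rpow_of_exponent_le (by linarith) hC'1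
  obtain ⟨R, hR⟩ : ∃ R : ℝ, R = r * L ^ C' := ⟨_, rfl⟩
  have hrR : 2 * r ≤ R := by rw [hR]; nlinarith
  rw [← hR] at h3 ⊢
  have hR0' : 0 < R := by linarith
  refine ⟨by linarith, ?_⟩
  intro u hu b hb hrb t ht htb
  by_contra hcon
  push Not at hcon
  obtain ⟨s, hs1, hs2, hs3⟩ := ivt h.ext hu ht htb (hrb.trans (by linarith : r ≤ R)) hcon.le
  have hs0 : 0 < s := lt_of_lt_of_le ht hs1
  have e1 := h.lev r hr h4 u hu b hb hrb
  have e2 := h.two R hR0' h3 u hu s b hs0 hb hs3.le (hrb.trans (by linarith)) (by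
    have h3 : ‖ψ (Real.exp s * u) - c₀‖ ≤ ‖ψ (Real.exp s * u) - ψ (Real.exp b * u)‖ +
        ‖ψ (Real.exp b * u) - c₀‖ := by
      have := norm_add_le (ψ (Real.exp s * u) - ψ (Real.exp b * u)) (ψ (Real.exp b * u) - c₀)
      rwa [sub_add_sub_cancel] at this
    linarith)
  rw [max_eq_right hs2] at e2
  have hanti := h.anti r R hr (by linarith) h3
  obtain ⟨k, hk⟩ : ∃ k : ℕ, N r = N R + k := ⟨N r - N R, by omega⟩
  have e3 := h.step r R hr (by linarith) h3
  rw [show N r + 1 - N R = k + 1 by omega] at e3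
  have e4 : L ^ C' ≤ D ^ (k + 1) := by
    have e5 : r * L ^ C' ≤ r * D ^ (k + 1) := by rw [← hR]; exact e3
    exact le_of_mul_le_mul_left e5 hr
  have e5 := Real.log_le_log (by positivity) e4
  rw [Real.log_rpow hL0, Real.log_pow] at e5
  push_cast at e5
  -- the number of steps
  have e6 : Real.log (2 * ((N R : ℝ) + 2) ^ B) < k * Real.log d := by
    rw [Real.log_mul (by norm_num) (by positivity), Real.log_rpow (by positivity)]
    have e7 : (N R : ℝ) + 2 ≤ L ^ 2 := by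
      have e8 : (N R : ℝ) ≤ N r := by exact_mod_cast hanti
      nlinarith
    have e8 : Real.log ((N R : ℝ) + 2) ≤ 2 * Real.log L := by
      have := Real.log_le_log (by positivity) e7
      rw [Real.log_pow] at this
      exact_mod_cast this
    have e9 : Real.log 2 + Real.log d < Real.log L := by
      rw [← Real.log_mul (by norm_num) hd0.ne']
      exact Real.log_lt_log (by positivity) (by linarith)
    have e10 : 0 ≤ Real.log L := Real.log_nonneg (by linarith)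
    have e11 : ((2 * B + 1) * Real.log L - Real.log d) ≤ k * Real.log d := by
      have f1 : C' * Real.log d = (2 * B + 1) * Real.log D + Real.log d := by
        rw [hC']; field_simp
      have f2 : C' * Real.log L * Real.log d ≤ ((k : ℝ) + 1) * Real.log D * Real.log d :=
        mul_le_mul_of_nonneg_right e5 hlogd.le
      have f3 : (2 * B + 1) * Real.log D * Real.log L ≤ ((k : ℝ) + 1) * Real.log D * Real.log d := by
        have : C' * Real.log L * Real.log d = (C' * Real.log d) * Real.log L := by ring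
        rw [this, f1] at f2
        nlinarith [mul_nonneg hlogd.le e10]
      have f4 : (2 * B + 1) * Real.log L ≤ ((k : ℝ) + 1) * Real.log d := by
        refine le_of_mul_le_mul_left ?_ hlogD
        linarith
      linarith
    nlinarith [mul_le_mul_of_nonneg_left e8 hB]
  have e7 : 2 * ((N R : ℝ) + 2) ^ B < (d : ℝ) ^ k := by
    rw [← Real.log_lt_log_iff (by positivity) (by positivity), Real.log_pow]
    exact e6
  rw [hk, pow_add] at e1
  have e8 : b * (d : ℝ) ^ N R * (2 * ((N R : ℝ) + 2) ^ B) < b * (d : ℝ) ^ N R * (d : ℝ) ^ k :=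
    mul_lt_mul_of_pos_left e7 (by positivity)
  have e9 : 2 ≤ b * (d : ℝ) ^ N R * (2 * ((N R : ℝ) + 2) ^ B) := by linarith
  linarith

theorem t (hC : Pool.Agent.N253.LC.S_CON) : S_LCM := by
  intro M ψ c₀ d N R₀ B D C h
  obtain ⟨C', r₁, hC', hr₁, hr₁1, H⟩ := stay h
  refine ⟨C', r₁, hC', hr₁, hr₁1, fun r hr hrr c hc hcr => ?_⟩
  obtain ⟨hle, H⟩ := H r hr hrr
  refine hC M ψ c c₀ _ h.comp h.ext hc h.mem (hcr.trans hle) ?_
  intro w hw hseg t ht htw
  obtain ⟨b, u, hb, hu, hb', hu', hwu⟩ := polar hw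
  have h1 : ‖ψ w - c₀‖ ≤ r := by
    have h2 : segment ℝ c c₀ ⊆ closedBall c₀ r := by
      apply (convex_closedBall c₀ r).segment_subset
      · rwa [mem_closedBall, dist_eq_norm]
      · exact mem_closedBall_self hr.le
    have h3 := h2 hseg
    rwa [mem_closedBall, dist_eq_norm] at h3
  rw [hwu] at h1
  have h2 := H u hu b hb h1 (Real.log t) (Real.log_pos ht) (by
    rw [hb']
    exact Real.log_le_log (by linarith) htw)
  rw [Real.exp_log (by linarith)] at h2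
  rw [← hu']
  exact h2

end Pool.Agent.N673.TW.Lcm
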