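import Pool.Agent.N673.TW.Stm3
import Pool.Agent.N673.TW.MakS

set_option autoImplicit false

/-!
# Project TW: Makarov's theorem with a gauge function (helper277, adapted from MakS by helper814)
-/

open Complex Filter Topology Metric Set MeasureTheory
open scoped ENNReal

namespace Pool.Agent.N673.TW.MakG

open Pool.Agent.N673.TW.MakS (bj mem_arc nest exists_arc lt_of_mem arc_sub vol_arc pt_add Lim_add Lim_uniq)

noncomputable section

/-- maximal arcs of level at least `Q` with the property `F` -/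
def Sel (F : ℕ → ℕ → Prop) (Q : ℕ) (z : ℕ × ℕ) : Prop :=
  z.2 < 2 ^ z.1 ∧ Q ≤ z.1 ∧ F z.1 z.2 ∧
    ∀ m k, Q ≤ m → m < z.1 → arc z.1 z.2 ⊆ arc m k → ¬ F m k

/-- different maximal arcs are disjoint -/
lemma sel_disj {F : ℕ → ℕ → Prop} {Q : ℕ} {z z' : ℕ × ℕ} (h : Sel F Q z) (h' : Sel F Q z') (hne : z ≠ z') :
    Disjoint (arc z.1 z.2) (arc z'.1 z'.2) := by
  rw [Set.disjoint_left]
  intro θ h1 h2
  rcases lt_trichotomy z.1 z'.1 with hlt | heq | hlt
  · exact h'.2.2.2 z.1 z.2 h.2.1 hlt (nest hlt.le h1 h2) h.2.2.1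
  · apply hne
    rw [← heq] at h2
    rw [mem_arc] at h1 h2
    have a1 : (z.2 : ℝ) < (z'.2 : ℝ) + 1 := lt_of_le_of_lt h1.1 h2.2
    have a2 : (z'.2 : ℝ) < (z.2 : ℝ) + 1 := lt_of_le_of_lt h2.1 h1.2
    have b1 : z.2 < z'.2 + 1 := by exact_mod_cast a1
    have b2 : z'.2 < z.2 + 1 := by exact_mod_cast a2
    exact Prod.ext heq (by omega)
  · exact h.2.2.2 z'.1 z'.2 h'.2.1 hlt (nest hlt.le h2 h1) h'.2.2.1

/-- maximal arcs cover -/
lemma sel_cover {F : ℕ → ℕ → Prop} {Q : ℕ} {θ : ℝ} (h0 : θ ∈ Ico 0 (2 * Real.pi))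
    (hex : ∃ j, Q ≤ j ∧ ∃ i, θ ∈ arc j i ∧ F j i) : ∃ z, Sel F Q z ∧ θ ∈ arc z.1 z.2 := by
  classical
  obtain ⟨hQ, i, hi, hF⟩ := Nat.find_spec hex
  refine ⟨(Nat.find hex, i), ⟨lt_of_mem h0.2 hi, hQ, hF, ?_⟩, hi⟩
  intro m k hm hlt hsub hFm
  exact Nat.find_min hex hlt ⟨hm, k, hsub hi, hFm⟩

open Classical in
/-- the total length of the maximal arcs -/
lemma sel_sum (F : ℕ → ℕ → Prop) (Q : ℕ) :
    ∑' z : ℕ × ℕ, (if Sel F Q z then ENNReal.ofReal (1 / 2 ^ z.1) else 0) ≤ 1 := by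
  have hpi : (0:ℝ) < 2 * Real.pi := by positivity
  let A : ℕ × ℕ → Set ℝ := fun z => if Sel F Q z then arc z.1 z.2 else ∅
  have hA : ∀ z, A z = if Sel F Q z then arc z.1 z.2 else ∅ := fun z => rfl
  have hm : ∀ z, MeasurableSet (A z) := by
    intro z
    rw [hA]
    split_ifs
    · exact measurableSet_Ico
    · exact MeasurableSet.empty
  have hd : Pairwise (Function.onFun Disjoint A) := by
    intro z z' hne
    show Disjoint (A z) (A z')
    rw [hA, hA]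
    split_ifs with h h'
    · exact sel_disj h h' hne
    · exact disjoint_bot_right
    · exact disjoint_bot_left
    · exact disjoint_bot_left
  have h1 := measure_iUnion (μ := volume) hd hm
  have h2 : volume (⋃ z, A z) ≤ ENNReal.ofReal (2 * Real.pi) := by
    have h3 : (⋃ z, A z) ⊆ Ico 0 (2 * Real.pi) := by
      refine iUnion_subset fun z => ?_
      rw [hA]
      split_ifs with h
      · exact arc_sub h.1
      · exact empty_subset _
    refine (measure_mono h3).trans ?_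
    rw [Real.volume_Ico, sub_zero]
  have h4 : ∀ z, volume (A z) = ENNReal.ofReal (2 * Real.pi) *
      (if Sel F Q z then ENNReal.ofReal (1 / 2 ^ z.1) else 0) := by
    intro z
    rw [hA]
    split_ifs with h
    · exact vol_arc _ _
    · rw [measure_empty, mul_zero]
  rw [h1] at h2
  simp only [h4] at h2
  rw [ENNReal.tsum_mul_left] at h2
  have hne : ENNReal.ofReal (2 * Real.pi) ≠ 0 := by simpa using hpi
  by_contra hcon
  rw [not_le] at hcon
  have h5 : ENNReal.ofReal (2 * Real.pi) * 1 < ENNReal.ofReal (2 * Real.pi) *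
      ∑' z : ℕ × ℕ, (if Sel F Q z then ENNReal.ofReal (1 / 2 ^ z.1) else 0) :=
    (ENNReal.mul_lt_mul_iff_right hne ENNReal.ofReal_ne_top).2 hcon
  rw [mul_one] at h5
  exact absurd h2 (not_le.2 h5)

/-- `g(j) = √(j log log j)` -/
def gg (j : ℕ) : ℝ := √((j : ℝ) * Real.log (Real.log j))

lemma gg_nonneg (j : ℕ) : 0 ≤ gg j := Real.sqrt_nonneg _

lemma tendsto_gg : Tendsto gg atTop atTop := by
  have h1 : Tendsto (fun j : ℕ => (j : ℝ)) atTop atTop := tendsto_natCast_atTop_atTop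
  have h2 : Tendsto (fun j : ℕ => Real.log (Real.log (j : ℝ))) atTop atTop :=
    Real.tendsto_log_atTop.comp (Real.tendsto_log_atTop.comp h1)
  exact Real.tendsto_sqrt_atTop.comp (h1.atTop_mul_atTop₀ h2)

/-- `√(j log log j)` is small compared with `j` -/
lemma gg_small {b : ℝ} (hb : 0 < b) : ∀ᶠ j : ℕ in atTop, gg j ≤ b * j := by
  have h1 : Tendsto (fun j : ℕ => (j : ℝ)) atTop atTop := tendsto_natCast_atTop_atTop
  have h2 := (Real.isLittleO_log_id_atTop.bound (show (0:ℝ) < b ^ 2 by positivity))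
  filter_upwards [h1.eventually h2, h1.eventually_ge_atTop 3] with j hj h3
  rw [id, Real.norm_eq_abs, Real.norm_eq_abs, abs_of_pos (show (0:ℝ) < j by linarith)] at hj
  have h4 : Real.log (Real.log j) ≤ b ^ 2 * j := by
    have h5 : 1 ≤ Real.log j := by
      rw [← Real.log_exp 1]
      apply Real.log_le_log (Real.exp_pos _)
      have := Real.exp_one_lt_d9
      linarith
    have h6 : Real.log (Real.log j) ≤ Real.log j := by
      have := Real.log_le_sub_one_of_pos (show 0 < Real.log (j : ℝ) by linarith)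
      linarith
    exact h6.trans ((le_abs_self _).trans hj)
  unfold gg
  apply Real.sqrt_le_iff.2
  refine ⟨by positivity, ?_⟩
  nlinarith

/-- the radii -/
def rho (C a : ℝ) (j : ℕ) : ℝ := C * Real.exp (-(3 * a / 4 * gg j)) / 2 ^ j

lemma rho_spec (C a : ℝ) (hC : 1 ≤ C) (ha : 0 < a) (δ : ℝ) (hδ : 0 < δ) : ∀ᶠ j : ℕ in atTop,
    0 < rho C a j ∧ rho C a j < δ ∧ hg (a / 4) (rho C a j) ≤ δ * (1 / 2 ^ j) := by
  have h1 : Tendsto (fun j : ℕ => (j : ℝ)) atTop atTop := tendsto_natCast_atTop_atTop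
  have hC0 : 0 < C := by linarith
  have e1 : Tendsto (fun j : ℕ => C * Real.exp (-(3 * a / 4 * gg j))) atTop (𝓝 0) := by
    have := (Real.tendsto_exp_neg_atTop_nhds_zero.comp
      (tendsto_gg.const_mul_atTop (show (0:ℝ) < 3 * a / 4 by positivity))).const_mul C
    simpa using this
  have e2 : Tendsto (fun j : ℕ => C * Real.exp (-(a / 2 * gg j))) atTop (𝓝 0) := by
    have := (Real.tendsto_exp_neg_atTop_nhds_zero.comp
      (tendsto_gg.const_mul_atTop (show (0:ℝ) < a / 2 by positivity))).const_mul C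
    simpa using this
  have e3 := gg_small (show (0:ℝ) < 1 / (3 * a) by positivity)
  filter_upwards [e1.eventually_lt_const hδ, e2.eventually_lt_const hδ, e3,
    h1.eventually_ge_atTop (2 * (3 + Real.log C))] with j f1 f2 f3 f4
  have hlC : 0 ≤ Real.log C := Real.log_nonneg hC
  have h2 : (1 : ℝ) ≤ 2 ^ j := one_le_pow₀ (by norm_num)
  have h20 : (0 : ℝ) < 2 ^ j := by linarith
  have hr0 : 0 < rho C a j := by
    unfold rho
    positivity
  refine ⟨hr0, ?_, ?_⟩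
  · unfold rho
    exact lt_of_le_of_lt (div_le_self (by positivity) h2) f1
  · have hl2 := Real.log_two_lt_d9
    have hl2' := Real.log_two_gt_d9
    have hx : Real.log (1 / rho C a j) = j * Real.log 2 - Real.log C + 3 * a / 4 * gg j := by
      rw [one_div, Real.log_inv]
      unfold rho
      rw [Real.log_div (by positivity) (by positivity), Real.log_mul (by positivity) (by positivity),
        Real.log_exp, Real.log_pow]
      ring
    set x := Real.log (1 / rho C a j) with hxd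
    have hj0 : (0:ℝ) ≤ j := Nat.cast_nonneg j
    have hgg0 := gg_nonneg j
    have hga : 3 * a / 4 * gg j ≤ 1 / 4 * j := by
      calc 3 * a / 4 * gg j ≤ 3 * a / 4 * (1 / (3 * a) * j) := by gcongr
        _ = 1 / 4 * j := by
            field_simp
    have hga0 : 0 ≤ 3 * a / 4 * gg j := by positivity
    have hx3 : 3 ≤ x := by
      rw [hx]
      nlinarith
    have hxj : x ≤ j := by
      rw [hx]
      nlinarith
    have hlx : 1 ≤ Real.log x := by
      rw [← Real.log_exp 1]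
      apply Real.log_le_log (Real.exp_pos _)
      have := Real.exp_one_lt_d9
      linarith
    have hllx : 0 ≤ Real.log (Real.log x) := Real.log_nonneg hlx
    have hlxj : Real.log (Real.log x) ≤ Real.log (Real.log j) := by
      apply Real.log_le_log (by linarith)
      exact Real.log_le_log (by linarith) hxj
    have hsq : √(x * Real.log (Real.log x)) ≤ gg j := by
      unfold gg
      apply Real.sqrt_le_sqrt
      exact mul_le_mul hxj hlxj hllx hj0
    unfold hg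
    rw [← hxd]
    calc rho C a j * Real.exp (a / 4 * √(x * Real.log (Real.log x)))
        ≤ rho C a j * Real.exp (a / 4 * gg j) := by
          apply mul_le_mul_of_nonneg_left _ hr0.le
          apply Real.exp_le_exp.2
          exact mul_le_mul_of_nonneg_left hsq (by positivity)
      _ = C * Real.exp (-(a / 2 * gg j)) * (1 / 2 ^ j) := by
          unfold rho
          rw [show -(a / 2 * gg j) = -(3 * a / 4 * gg j) + a / 4 * gg j by ring, Real.exp_add]
          ring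
      _ ≤ δ * (1 / 2 ^ j) := by
          apply mul_le_mul_of_nonneg_right f2.le (by positivity)

lemma hg_nonneg {a t : ℝ} (ht : 0 < t) : 0 ≤ hg a t := by
  unfold hg
  positivity

/-- tiny radii -/
lemma exists_tiny {a : ℝ} (ha : 0 < a) {δ : ℝ} (hδ : 0 < δ) : ∃ t : ℝ, 0 < t ∧ t < δ ∧ hg (a / 4) t ≤ δ := by
  obtain ⟨j, h1, h2, h3⟩ := (rho_spec 1 a le_rfl ha δ hδ).exists
  refine ⟨rho 1 a j, h1, h2, h3.trans ?_⟩
  apply mul_le_of_le_one_right hδ.le
  rw [div_le_one (by positivity)]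
  exact one_le_pow₀ (by norm_num)

/-- from a sum of extended nonnegative numbers over a countable type to the definition -/
lemma gaugeNull_of {h : ℝ → ℝ} {E : Set ℂ} (hh : ∀ t, 0 < t → 0 ≤ h t) {ι : Type} [Denumerable ι]
    (H : ∀ ε : ℝ, 0 < ε → ∃ (c : ι → ℂ) (r : ι → ℝ), (∀ n, 0 < r n ∧ r n < ε) ∧
      E ⊆ (⋃ n, closedBall (c n) (r n)) ∧ ∑' n, ENNReal.ofReal (h (r n)) ≤ ENNReal.ofReal (ε / 2)) :
    GaugeNull h E := by
  intro ε hε
  obtain ⟨c, r, h1, h2, h3⟩ := H ε hε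
  obtain ⟨e, he⟩ : ∃ e : ℕ ≃ ι, e = (Denumerable.eqv ι).symm := ⟨_, rfl⟩
  have h4 : ∑' n : ℕ, ENNReal.ofReal (h (r (e n))) ≤ ENNReal.ofReal (ε / 2) := by
    rw [Equiv.tsum_eq e (fun i => ENNReal.ofReal (h (r i)))]
    exact h3
  have h5 : Summable fun n : ℕ => h (r (e n)) := by
    have := ENNReal.summable_toReal (ne_top_of_le_ne_top ENNReal.ofReal_ne_top h4)
    refine this.congr fun n => ?_
    exact ENNReal.toReal_ofReal (hh _ (h1 _).1)
  refine ⟨fun n => c (e n), fun n => r (e n), fun n => h1 (e n), ?_, h5, ?_⟩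
  · refine h2.trans ?_
    intro p hp
    obtain ⟨i, hi⟩ := mem_iUnion.1 hp
    refine mem_iUnion.2 ⟨e.symm i, ?_⟩
    simpa using hi
  · rw [← ENNReal.ofReal_tsum_of_nonneg (fun n => hh _ (h1 _).1) h5] at h4
    have := (ENNReal.ofReal_le_ofReal_iff (by positivity)).1 h4
    linarith

/-- the good angles -/
def WQ (φ : ℂ → ℂ) (F : ℕ → ℕ → Prop) (ρ : ℕ → ℝ) (Q : ℕ) (c : ℕ × ℕ → ℂ) : Set ℝ :=
  {θ | ∃ z, Sel F Q z ∧ θ ∈ arc z.1 z.2 ∧ ∃ p, Lim φ θ p ∧ ‖p - c z‖ ≤ ρ z.1}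

theorem t (hL : S_L1) : S_MAKG := by
  classical
  obtain ⟨C₀, l, hC₀, hl, hL⟩ := hL
  intro φ hφ a Y ha hY
  have hpi : (0:ℝ) < 2 * Real.pi := by positivity
  obtain ⟨C, hCdef⟩ : ∃ C, C = max C₀ 1 := ⟨_, rfl⟩
  have hC1 : 1 ≤ C := hCdef ▸ le_max_right _ _
  have hCC : C₀ ≤ C := hCdef ▸ le_max_left _ _
  have hC0 : 0 < C := by linarith
  obtain ⟨F, hF⟩ : ∃ F : ℕ → ℕ → Prop, F = fun j i => ∃ θ₀ ∈ arc j i, bj φ j θ₀ ≤ -(a * gg j) := ⟨_, rfl⟩
  -- the levels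
  have hQ : ∀ k : ℕ, ∃ Q : ℕ, ∀ j : ℕ, Q ≤ j → (0 < rho C a j ∧ rho C a j < 1 / 2 ^ k ∧
      hg (a / 4) (rho C a j) ≤ 1 / 2 ^ k * (1 / 2 ^ j)) ∧
      C₀ * Real.exp (-(l * (a / 4 * gg j))) ≤ 1 / 2 ^ k := by
    intro k
    have e1 := rho_spec C a hC1 ha (1 / 2 ^ k) (by positivity)
    have e2 : Tendsto (fun j : ℕ => C₀ * Real.exp (-(l * (a / 4 * gg j)))) atTop (𝓝 0) := by
      have e3 : Tendsto (fun j : ℕ => l * (a / 4 * gg j)) atTop atTop :=
        (tendsto_gg.const_mul_atTop (show (0:ℝ) < a / 4 by positivity)).const_mul_atTop hl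
      have := (Real.tendsto_exp_neg_atTop_nhds_zero.comp e3).const_mul C₀
      simpa using this
    have e4 := e1.and (e2.eventually_lt_const (show (0:ℝ) < 1 / 2 ^ k by positivity))
    obtain ⟨Q, hQ⟩ := eventually_atTop.1 e4
    exact ⟨Q, fun j hj => ⟨(hQ j hj).1, (hQ j hj).2.le⟩⟩
  choose Q hQ using hQ
  -- centres
  have hc : ∀ (k : ℕ) (z : ℕ × ℕ), ∃ θ₀ : ℝ, Sel F (Q k) z → θ₀ ∈ arc z.1 z.2 ∧
      bj φ z.1 θ₀ ≤ -(a * gg z.1) := by
    intro k z
    by_cases h : Sel F (Q k) z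
    · have h' := h.2.2.1
      rw [hF] at h'
      obtain ⟨θ₀, h1, h2⟩ := h'
      exact ⟨θ₀, fun _ => ⟨h1, h2⟩⟩
    · exact ⟨0, fun h' => absurd h' h⟩
  choose t₀ ht₀ using hc
  obtain ⟨c, hcdef⟩ : ∃ c : ℕ → ℕ × ℕ → ℂ, c = fun k z => φ (pt (rj z.1) (t₀ k z)) := ⟨_, rfl⟩
  -- bound of the derivative
  have hder : ∀ (k : ℕ) (z : ℕ × ℕ), Sel F (Q k) z →
      ‖deriv φ (pt (rj z.1) (t₀ k z))‖ ≤ Real.exp (-(a * gg z.1)) := by
    intro k z h
    have h1 := (ht₀ k z h).2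
    unfold bj at h1
    rcases (norm_nonneg (deriv φ (pt (rj z.1) (t₀ k z)))).eq_or_lt with h2 | h2
    · rw [← h2]
      exact (Real.exp_pos _).le
    · rw [← Real.exp_log h2]
      exact Real.exp_le_exp.2 h1
  obtain ⟨Y', hY'⟩ : ∃ Y' : Set ℝ, Y' = {θ | ∃ᶠ j : ℕ in atTop, bj φ j θ ≤ -(a * gg j)} := ⟨_, rfl⟩
  obtain ⟨W, hW⟩ : ∃ W : ℕ → Set ℝ, W = fun k => WQ φ F (rho C a) (Q k) (c k) := ⟨_, rfl⟩
  -- the measure of the bad angles
  have hbad : ∀ k : ℕ, volume ((Y' ∩ Ico 0 (2 * Real.pi)) \ W k) ≤ ENNReal.ofReal (1 / 2 ^ k) := by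
    intro k
    obtain ⟨B, hB⟩ : ∃ B : ℕ × ℕ → Set ℝ, B = fun z => {θ : ℝ | θ ∈ arc z.1 z.2 ∧ ¬ ∃ p : ℂ,
      Lim φ θ p ∧ ‖p - φ (pt (rj z.1) (t₀ k z))‖ ≤ C₀ * Real.exp (a / 4 * gg z.1) *
        ‖deriv φ (pt (rj z.1) (t₀ k z))‖ / 2 ^ z.1} := ⟨_, rfl⟩
    have h1 : (Y' ∩ Ico 0 (2 * Real.pi)) \ W k ⊆ ⋃ z, if Sel F (Q k) z then B z else ∅ := by
      rintro θ ⟨⟨hθY, hθ⟩, hWθ⟩
      have hex : ∃ j, Q k ≤ j ∧ ∃ i, θ ∈ arc j i ∧ F j i := by
        rw [hY'] at hθY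
        obtain ⟨j, hj, hj'⟩ := (frequently_atTop.1 hθY) (Q k)
        obtain ⟨i, hi⟩ := exists_arc j hθ.1
        refine ⟨j, hj, i, hi, ?_⟩
        rw [hF]
        exact ⟨θ, hi, hj'⟩
      obtain ⟨z, hz, hθz⟩ := sel_cover hθ hex
      refine mem_iUnion.2 ⟨z, ?_⟩
      rw [if_pos hz, hB]
      refine ⟨hθz, ?_⟩
      rintro ⟨p, hp, hpc⟩
      apply hWθ
      rw [hW]
      refine ⟨z, hz, hθz, p, hp, ?_⟩
      rw [hcdef]
      refine hpc.trans ?_
      unfold rho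
      refine div_le_div_of_nonneg_right ?_ (by positivity)
      calc C₀ * Real.exp (a / 4 * gg z.1) * ‖deriv φ (pt (rj z.1) (t₀ k z))‖
          ≤ C * Real.exp (a / 4 * gg z.1) * Real.exp (-(a * gg z.1)) := by
            have := hder k z hz
            gcongr
        _ = C * Real.exp (-(3 * a / 4 * gg z.1)) := by
            rw [mul_assoc, ← Real.exp_add]
            congr 2
            ring
    calc volume ((Y' ∩ Ico 0 (2 * Real.pi)) \ W k)
        ≤ volume (⋃ z, if Sel F (Q k) z then B z else ∅) := measure_mono h1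
      _ ≤ ∑' z, volume (if Sel F (Q k) z then B z else ∅) := measure_iUnion_le _
      _ ≤ ∑' z : ℕ × ℕ, ENNReal.ofReal (1 / 2 ^ k) *
            (if Sel F (Q k) z then ENNReal.ofReal (1 / 2 ^ z.1) else 0) := by
          refine ENNReal.tsum_le_tsum fun z => ?_
          split_ifs with h
          · rw [hB, ← ENNReal.ofReal_mul (by positivity)]
            refine (hL φ hφ z.1 z.2 h.1 (t₀ k z) (ht₀ k z h).1 (a / 4 * gg z.1)
              (mul_nonneg (by positivity) (gg_nonneg _))).trans ?_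
            apply ENNReal.ofReal_le_ofReal
            rw [div_eq_mul_one_div]
            exact mul_le_mul_of_nonneg_right (hQ k z.1 h.2.1).2 (by positivity)
          · rw [measure_empty]
            exact zero_le
      _ = ENNReal.ofReal (1 / 2 ^ k) *
            ∑' z : ℕ × ℕ, (if Sel F (Q k) z then ENNReal.ofReal (1 / 2 ^ z.1) else 0) :=
          ENNReal.tsum_mul_left
      _ ≤ ENNReal.ofReal (1 / 2 ^ k) * 1 := mul_le_mul_right (sel_sum F (Q k)) _
      _ = _ := mul_one _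
  -- Borel-Cantelli
  have hBC : ∀ᵐ θ : ℝ, θ ∈ Y' ∩ Ico 0 (2 * Real.pi) → ∃ k₀ : ℕ, ∀ k, k₀ ≤ k → θ ∈ W k := by
    have hsum : ∑' k : ℕ, volume ((Y' ∩ Ico 0 (2 * Real.pi)) \ W k) ≠ ∞ := by
      have hs : Summable fun k : ℕ => (1 : ℝ) / 2 ^ k := by
        have := summable_geometric_two
        refine this.congr fun k => ?_
        rw [div_pow, one_pow]
      refine ne_top_of_le_ne_top ?_ (ENNReal.tsum_le_tsum fun k => hbad k)
      rw [← ENNReal.ofReal_tsum_of_nonneg (fun k => by positivity) hs]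
      exact ENNReal.ofReal_ne_top
    filter_upwards [ae_eventually_notMem hsum] with θ hθ h0
    obtain ⟨N, hN⟩ := eventually_atTop.1 hθ
    refine ⟨N, fun k hk => ?_⟩
    by_contra hcon
    exact hN k hk ⟨h0, hcon⟩
  have hbjp : ∀ (n : ℤ) (θ : ℝ) (j : ℕ), bj φ j (θ + n * (2 * Real.pi)) = bj φ j θ := by
    intro n θ j
    unfold bj
    rw [pt_add]
  -- the set Z
  refine ⟨{θ | θ ∈ Y ∧ ∃ n : ℤ, ∃ k₀ : ℕ, ∀ k, k₀ ≤ k → θ + n * (2 * Real.pi) ∈ W k}, fun θ hθ => hθ.1, ?_, ?_⟩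
  · have h1 : ∀ n : ℤ, ∀ᵐ θ : ℝ, θ + n * (2 * Real.pi) ∈ Y' ∩ Ico 0 (2 * Real.pi) →
        ∃ k₀ : ℕ, ∀ k, k₀ ≤ k → θ + n * (2 * Real.pi) ∈ W k := fun n =>
      (measurePreserving_add_right volume ((n : ℝ) * (2 * Real.pi))).quasiMeasurePreserving.ae hBC
    have h2 := ae_all_iff.2 h1
    rw [ae_iff] at h2
    refine measure_mono_null ?_ h2
    rintro θ ⟨hθY, hθZ⟩ hall
    apply hθZ
    refine ⟨hθY, ?_⟩
    obtain ⟨n, hn, -⟩ := existsUnique_add_zsmul_mem_Ico hpi θ 0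
    refine ⟨n, ?_⟩
    rw [zsmul_eq_mul, zero_add] at hn
    refine hall n ⟨?_, hn⟩
    rw [hY']
    have h3 := hY θ hθY
    refine h3.mono fun j hj => ?_
    rw [hbjp]
    exact hj
  · apply gaugeNull_of (ι := ℕ × (ℕ × ℕ)) (fun t ht => hg_nonneg ht)
    intro ε hε
    have hE0 : ENNReal.ofReal (ε / 4) ≠ 0 := by
      rw [ne_eq, ENNReal.ofReal_eq_zero, not_le]
      positivity
    obtain ⟨e1, he1, he1s⟩ := ENNReal.exists_pos_sum_of_countable hE0 ℕ
    obtain ⟨e2, he2, he2s⟩ := ENNReal.exists_pos_sum_of_countable hE0 (ℕ × (ℕ × ℕ))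
    have hκ : ∀ k₀ : ℕ, ∃ κ : ℕ, k₀ ≤ κ ∧ (1 : ℝ) / 2 ^ κ ≤ e1 k₀ ∧ (1 : ℝ) / 2 ^ κ < ε := by
      intro k₀
      obtain ⟨n, hn⟩ := exists_pow_lt_of_lt_one (show (0:ℝ) < min ((e1 k₀ : NNReal) : ℝ) ε from
        lt_min (by exact_mod_cast he1 k₀) hε) (show (1/2 : ℝ) < 1 by norm_num)
      refine ⟨max k₀ n, le_max_left _ _, ?_⟩
      have h1 : (1 : ℝ) / 2 ^ (max k₀ n) < min (e1 k₀ : ℝ) ε := by
        refine lt_of_le_of_lt ?_ hn
        rw [div_pow, one_pow]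
        apply one_div_le_one_div_of_le (by positivity)
        exact pow_le_pow_right₀ (by norm_num) (le_max_right _ _)
      exact ⟨(h1.trans_le (min_le_left _ _)).le, h1.trans_le (min_le_right _ _)⟩
    choose κ hκ1 hκ2 hκ3 using hκ
    have htiny : ∀ i : ℕ × (ℕ × ℕ), ∃ t : ℝ, 0 < t ∧ t < ε ∧ hg (a / 4) t ≤ e2 i := by
      intro i
      obtain ⟨t, h1, h2, h3⟩ := exists_tiny ha (show (0:ℝ) < min ((e2 i : NNReal) : ℝ) ε from
        lt_min (by exact_mod_cast he2 i) hε)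
      exact ⟨t, h1, h2.trans_le (min_le_right _ _), h3.trans (min_le_left _ _)⟩
    choose τ hτ1 hτ2 hτ3 using htiny
    refine ⟨fun i => c (κ i.1) i.2, fun i => if Sel F (Q (κ i.1)) i.2 then rho C a i.2.1 else τ i, ?_, ?_, ?_⟩
    · intro i
      beta_reduce
      split_ifs with h
      · obtain ⟨h1, -⟩ := hQ (κ i.1) i.2.1 h.2.1
        exact ⟨h1.1, h1.2.1.trans (hκ3 i.1)⟩
      · exact ⟨hτ1 i, hτ2 i⟩
    · rintro p ⟨θ, ⟨-, n, k₀, hk₀⟩, hp⟩
      have h1 := hk₀ (κ k₀) (hκ1 k₀)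
      rw [hW] at h1
      obtain ⟨z, hz, -, p', hp', hpc⟩ := h1
      refine mem_iUnion.2 ⟨(k₀, z), ?_⟩
      simp only
      rw [if_pos hz, mem_closedBall_iff_norm, Lim_uniq hp (Lim_add n hp')]
      exact hpc
    · have h1 : ∀ i : ℕ × (ℕ × ℕ), ENNReal.ofReal (hg (a / 4)
          (if Sel F (Q (κ i.1)) i.2 then rho C a i.2.1 else τ i)) ≤
          ENNReal.ofReal (1 / 2 ^ (κ i.1)) *
            (if Sel F (Q (κ i.1)) i.2 then ENNReal.ofReal (1 / 2 ^ i.2.1) else 0) + (e2 i : ℝ≥0∞) := by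
        intro i
        split_ifs with h
        · obtain ⟨h1, -⟩ := hQ (κ i.1) i.2.1 h.2.1
          rw [← ENNReal.ofReal_mul (by positivity)]
          exact (ENNReal.ofReal_le_ofReal h1.2.2).trans le_self_add
        · rw [mul_zero, zero_add]
          refine (ENNReal.ofReal_le_ofReal (hτ3 i)).trans (le_of_eq ?_)
          exact ENNReal.ofReal_coe_nnreal
      refine (ENNReal.tsum_le_tsum h1).trans ?_
      rw [ENNReal.tsum_add]
      have h4 := ENNReal.tsum_prod (f := fun (k₀ : ℕ) (z : ℕ × ℕ) => ENNReal.ofReal (1 / 2 ^ (κ k₀)) *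
            (if Sel F (Q (κ k₀)) z then ENNReal.ofReal (1 / 2 ^ z.1) else 0))
      refine (add_le_add (le_of_eq h4) le_rfl).trans ?_
      have h2 : ∀ k₀ : ℕ, ∑' z : ℕ × ℕ, (ENNReal.ofReal (1 / 2 ^ (κ k₀)) *
            (if Sel F (Q (κ k₀)) z then ENNReal.ofReal (1 / 2 ^ z.1) else 0)) ≤ (e1 k₀ : ℝ≥0∞) := by
        intro k₀
        rw [ENNReal.tsum_mul_left]
        calc _ ≤ ENNReal.ofReal (1 / 2 ^ (κ k₀)) * 1 := mul_le_mul_right (sel_sum F _) _
          _ = ENNReal.ofReal (1 / 2 ^ (κ k₀)) := mul_one _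
          _ ≤ ENNReal.ofReal (e1 k₀ : ℝ) := ENNReal.ofReal_le_ofReal (hκ2 k₀)
          _ = (e1 k₀ : ℝ≥0∞) := ENNReal.ofReal_coe_nnreal
      have h3 : ENNReal.ofReal (ε / 2) = ENNReal.ofReal (ε / 4) + ENNReal.ofReal (ε / 4) := by
        rw [← ENNReal.ofReal_add (by positivity) (by positivity)]
        congr 1
        ring
      rw [h3]
      exact add_le_add ((ENNReal.tsum_le_tsum h2).trans he1s.le) he2s.le

end

end Pool.Agent.N673.TW.MakG
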