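import Pool.Agent.N673.TW.Stm3
import Pool.Agent.N253.LC.Stm
import Pool.Agent.N253.LC.Stm2
import Pool.Agent.Y272.TY.Fin3

set_option autoImplicit false

/-!
# Project TW (helper673), fourth part: sharp moduli at the typical parameters
-/

open Complex Filter Topology Metric Set MeasureTheory

namespace Pool.Agent.N673.TW

open Pool.Agent.Y272.TY Pool.Agent.H712R2 Pool.Agent.H713R2 Pool.Agent.Y298.CA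

/-- the radius of the level `n` at `c0` -/
noncomputable def RR (d : ℕ) (c0 : ℂ) (B : ℝ) (n : ℕ) : ℝ :=
  ((n : ℝ) + 2) ^ (-B) / mm d c0 (n + 1)

/-- the `n`-th iterate expands the disc of radius `RR n` in the plane of parameters -/
structure Shd (d : ℕ) (c0 : ℂ) (B κ η : ℝ) (n₀ : ℕ) : Prop where
  B0 : 0 ≤ B
  κ0 : 0 < κ
  η0 : 0 < η
  pos : ∀ n : ℕ, 0 < mm d c0 (n + 1)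
  two : ∀ n : ℕ, ‖P d (n + 1) c0‖ ≤ 2
  grow : ∀ k n : ℕ, n₀ ≤ n → k ≤ n →
    mm d c0 (k + 1) * Real.exp (η * ((n : ℝ) - k)) ≤ ((n : ℝ) + 2) ^ B * mm d c0 (n + 1)
  orb : ∀ n : ℕ, n₀ ≤ n → ∀ c : ℂ, ‖c - c0‖ ≤ RR d c0 B n → ∀ j ≤ n, ‖P d (j + 1) c‖ ≤ 3
  exp : ∀ n : ℕ, n₀ ≤ n → ∀ c c' : ℂ, ‖c - c0‖ ≤ RR d c0 B n → ‖c' - c0‖ ≤ RR d c0 B n →
    κ * mm d c0 (n + 1) * ‖c - c'‖ ≤ ‖P d (n + 1) c - P d (n + 1) c'‖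

/-- SHD -/
def S_SHD : Prop := ∀ (d : ℕ) (β : ℂ → ℂ) (θ : ℝ) (c0 : ℂ) (A : ℝ) (R : ℂ), 2 ≤ d → IsBeta d β →
  Typ d β θ c0 A R → ∃ (B κ η : ℝ) (n₀ : ℕ), Shd d c0 B κ η n₀

/-- TW2: two points of a parameter ray of finite level -/
def S_TW2 : Prop := ∀ (d : ℕ) (c0 : ℂ) (B κ η : ℝ) (n₀ : ℕ) (Q : ℝ), 2 ≤ d →
  Lyap d (Real.log d) c0 → Shd d c0 B κ η n₀ → 1 ≤ Q →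
  ∃ (B' : ℝ) (n₁ : ℕ), 0 ≤ B' ∧ ∀ n : ℕ, n₁ ≤ n → ∀ R : ℝ, RR d c0 B n / Q ≤ R →
  R ≤ RR d c0 B n → ∃ m₀ : ℕ, ∀ m : ℕ, m₀ ≤ m → ∀ (g : ℂ → ℂ) (u : ℂ), IsGm d m g → ‖u‖ = 1 →
  ∀ t₁ t₂ : ℝ, 4 ≤ Real.exp ((d : ℝ) ^ m * t₁) → 4 ≤ Real.exp ((d : ℝ) ^ m * t₂) →
  ‖Real.exp t₁ * u * g (Real.exp t₁ * u)⁻¹ - c0‖ ≤ R →
  ‖Real.exp t₂ * u * g (Real.exp t₂ * u)⁻¹ - c0‖ ≤ R →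
  R / 8 ≤ ‖Real.exp t₁ * u * g (Real.exp t₁ * u)⁻¹ - Real.exp t₂ * u * g (Real.exp t₂ * u)⁻¹‖ →
  1 ≤ max t₁ t₂ * ((d : ℝ) ^ n * ((n : ℝ) + 2) ^ B')

/-- IN2: two points of an external ray of the Multibrot set, and the level near `c0` -/
def S_IN2 : Prop := ∀ (d : ℕ) (c0 : ℂ) (B κ η : ℝ) (n₀ : ℕ) (Q : ℝ), 2 ≤ d →
  Lyap d (Real.log d) c0 → Shd d c0 B κ η n₀ → 1 ≤ Q →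
  ∃ (B' : ℝ) (n₁ : ℕ), 0 ≤ B' ∧ ∀ ψ : ℂ → ℂ, IsExteriorMap (N62a1eb23.multibrotSet d) ψ →
  ∀ n : ℕ, n₁ ≤ n → ∀ R : ℝ, RR d c0 B n / Q ≤ R → R ≤ RR d c0 B n / 2 → ∀ u : ℂ, ‖u‖ = 1 →
  (∀ t : ℝ, 0 < t → ‖ψ (Real.exp t * u) - c0‖ ≤ R → t * (d : ℝ) ^ n ≤ 2) ∧
  ∀ t₁ t₂ : ℝ, 0 < t₁ → 0 < t₂ → ‖ψ (Real.exp t₁ * u) - c0‖ ≤ R →
    ‖ψ (Real.exp t₂ * u) - c0‖ ≤ R → R / 4 ≤ ‖ψ (Real.exp t₁ * u) - ψ (Real.exp t₂ * u)‖ →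
    1 ≤ max t₁ t₂ * ((d : ℝ) ^ n * ((n : ℝ) + 2) ^ B')

/-- The results of the analysis near `c0`: `N R` is the level of the discs of radius `R`. -/
structure Hy (M : Set ℂ) (ψ : ℂ → ℂ) (c0 : ℂ) (d : ℕ) (N : ℝ → ℕ) (R₀ B D C : ℝ) : Prop where
  ext : IsExteriorMap M ψ
  comp : IsCompact M
  mem : c0 ∈ M
  d2 : 2 ≤ d
  R0 : 0 < R₀
  R1 : R₀ < 1
  B0 : 0 ≤ B
  D1 : 2 ≤ D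
  C0 : 0 ≤ C
  five : ∀ R : ℝ, 0 < R → R ≤ R₀ → 5 ≤ N R
  anti : ∀ R R' : ℝ, 0 < R → R ≤ R' → R' ≤ R₀ → N R' ≤ N R
  lev : ∀ R : ℝ, 0 < R → R ≤ R₀ → ∀ u : ℂ, ‖u‖ = 1 → ∀ t : ℝ, 0 < t →
    ‖ψ (Real.exp t * u) - c0‖ ≤ R → t * (d : ℝ) ^ N R ≤ 2
  two : ∀ R : ℝ, 0 < R → R ≤ R₀ → ∀ u : ℂ, ‖u‖ = 1 → ∀ t₁ t₂ : ℝ, 0 < t₁ → 0 < t₂ →
    ‖ψ (Real.exp t₁ * u) - c0‖ ≤ R → ‖ψ (Real.exp t₂ * u) - c0‖ ≤ R →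
    R / 4 ≤ ‖ψ (Real.exp t₁ * u) - ψ (Real.exp t₂ * u)‖ →
    1 ≤ max t₁ t₂ * ((d : ℝ) ^ N R * ((N R : ℝ) + 2) ^ B)
  step : ∀ R R' : ℝ, 0 < R → R ≤ R' → R' ≤ R₀ → R' ≤ R * D ^ (N R + 1 - N R')
  lip : ∀ R R' : ℝ, 0 < R → R ≤ R' → R' ≤ R₀ →
    (N R : ℝ) - N R' ≤ C * (Real.log (R' / R) + Real.log ((N R : ℝ) + 2))
  lil : ∀ R : ℝ, 0 < R → R ≤ R₀ →
    R * (d : ℝ) ^ N R ≤ Real.exp (C * √((N R : ℝ) * Real.log (Real.log (N R))))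
  mmc : ∀ R : ℝ, 0 < R → R ≤ R₀ →
    |Real.log R + Real.log (mm d c0 (N R + 1))| ≤ C * Real.log ((N R : ℝ) + 2)

/-- NN -/
def S_NN : Prop := ∀ (d : ℕ) (β : ℂ → ℂ) (θ : ℝ) (c0 : ℂ) (A : ℝ) (R : ℂ) (B κ η : ℝ) (n₀ : ℕ)
  (ψ : ℂ → ℂ), 2 ≤ d → IsBeta d β → Typ d β θ c0 A R → Lyap d (Real.log d) c0 →
  Shd d c0 B κ η n₀ → IsExteriorMap (N62a1eb23.multibrotSet d) ψ →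
  ∃ (N : ℝ → ℕ) (R₀ B' D C : ℝ), Hy (N62a1eb23.multibrotSet d) ψ c0 d N R₀ B' D C

/-- COR: near a ray which lands at `c0` -/
def S_COR : Prop := ∀ (M : Set ℂ) (ψ : ℂ → ℂ) (c0 : ℂ) (d : ℕ) (N : ℝ → ℕ) (R₀ B D C : ℝ),
  Hy M ψ c0 d N R₀ B D C → ∃ K R₁ : ℝ, 1 ≤ K ∧ 0 < R₁ ∧ R₁ ≤ R₀ ∧ ∀ ζ : ℂ, ‖ζ‖ = 1 →
  Tendsto (fun t : ℝ => ψ (Real.exp t * ζ)) (𝓝[>] 0) (𝓝 c0) →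
  ∀ R : ℝ, 0 < R → R ≤ R₁ → ∀ w : ℂ, 1 < ‖w‖ → ‖w - ζ‖ ≤ 1 / 8 →
  ‖w - ζ‖ * ((d : ℝ) ^ N R * ((N R : ℝ) + 2) ^ B) < 1 → ‖ψ w - c0‖ ≤ K * R

/-- the scale of the law of the iterated logarithm -/
noncomputable def lg (x : ℝ) : ℝ :=
  √(Real.log (1 / x) * Real.log (Real.log (Real.log (1 / x))))

/-- UNR: the modulus of continuity of `ψ` at `ζ` -/
def S_UNR : Prop := ∀ (M : Set ℂ) (ψ : ℂ → ℂ) (c0 : ℂ) (d : ℕ) (N : ℝ → ℕ) (R₀ B D C : ℝ),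
  Hy M ψ c0 d N R₀ B D C → ∀ ζ : ℂ, ‖ζ‖ = 1 →
  Tendsto (fun t : ℝ => ψ (Real.exp t * ζ)) (𝓝[>] 0) (𝓝 c0) →
  ∃ C' : ℝ, 0 < C' ∧ ∀ᶠ w in 𝓝[{w : ℂ | 1 < ‖w‖}] ζ,
    ‖ψ w - c0‖ ≤ ‖w - ζ‖ * Real.exp (C' * lg ‖w - ζ‖)

/-- LCM: the modulus of local connectivity at `c0` -/
def S_LCM : Prop := ∀ (M : Set ℂ) (ψ : ℂ → ℂ) (c0 : ℂ) (d : ℕ) (N : ℝ → ℕ) (R₀ B D C : ℝ),
  Hy M ψ c0 d N R₀ B D C → ∃ C' r₁ : ℝ, 0 < C' ∧ 0 < r₁ ∧ r₁ < 1 ∧ ∀ r : ℝ, 0 < r → r ≤ r₁ →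
  ∀ c ∈ M, ‖c - c0‖ ≤ r → ∃ S : Set ℂ, S ⊆ M ∧ IsCompact S ∧ IsConnected S ∧ c ∈ S ∧ c0 ∈ S ∧
    S ⊆ closedBall c0 (r * Real.log (1 / r) ^ C')

/-- the harmonic measure, up to the factor `2π` -/
noncomputable def harm (ψ : ℂ → ℂ) (c0 : ℂ) (r : ℝ) : ℝ :=
  (volume {θ : ℝ | θ ∈ Ioc (-Real.pi) Real.pi ∧ ∃ c ∈ ball c0 r,
    Tendsto (fun s : ℝ => ψ (s * Complex.exp (θ * Complex.I))) (𝓝[>] 1) (𝓝 c)}).toReal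

/-- HR1: the harmonic measure of the disc of radius `r` is `d ^ (- N r)`, up to a power of `N r` -/
def S_HR1 : Prop := ∀ (M : Set ℂ) (ψ : ℂ → ℂ) (c0 : ℂ) (d : ℕ) (N : ℝ → ℕ) (R₀ B D C θ : ℝ),
  Hy M ψ c0 d N R₀ B D C →
  Tendsto (fun s : ℝ => ψ (s * Complex.exp (θ * Complex.I))) (𝓝[>] 1) (𝓝 c0) →
  (∀ᵐ θ' : ℝ, ∃ c : ℂ,
    Tendsto (fun s : ℝ => ψ (s * Complex.exp (θ' * Complex.I))) (𝓝[>] 1) (𝓝 c)) →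
  ∃ C' r₁ : ℝ, 0 < C' ∧ 0 < r₁ ∧ r₁ ≤ R₀ ∧ ∀ r : ℝ, 0 < r → r ≤ r₁ →
    0 < harm ψ c0 r ∧ |Real.log (harm ψ c0 r) + N r * Real.log d| ≤ C' * Real.log ((N r : ℝ) + 2)

end Pool.Agent.N673.TW
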