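import Mathlib
import Pool.Agent.N673.TW.Stm4

set_option autoImplicit false

/-!
# Project TW, lemma NN: the level function near a typical parameter
-/

namespace Pool.Agent.N673.TW.Nn

open Filter Topology

/-- the radii -/
noncomputable def rh (m : ℕ → ℝ) (B : ℝ) (n : ℕ) : ℝ := ((n : ℝ) + 2) ^ (-B) / m n / 2

section

variable {m : ℕ → ℝ} {B η D0 D : ℝ} {n0 : ℕ}

lemma rh_pos (hm : ∀ n, 0 < m n) (n : ℕ) : 0 < rh m B n := by
  unfold rh
  have := hm n
  positivity

lemma rh_step (hB : 0 ≤ B) (hm : ∀ n, 0 < m n) (hD0 : 0 < D0) (hstep : ∀ n, m (n + 1) ≤ D0 * m n)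
    (hD : D = 2 ^ B * D0) (n : ℕ) : rh m B n ≤ D * rh m B (n + 1) := by
  have hmn := hm n
  have hmn1 := hm (n + 1)
  have h2 : (0 : ℝ) < (n : ℝ) + 2 := by positivity
  have h3 : (0 : ℝ) < (n : ℝ) + 3 := by positivity
  have h1 : ((n : ℝ) + 2) ^ (-B) ≤ 2 ^ B * ((n : ℝ) + 3) ^ (-B) := by
    rw [Real.rpow_neg h2.le, Real.rpow_neg h3.le, ← div_eq_mul_inv, le_div_iff₀ (by positivity),
      inv_mul_le_iff₀ (by positivity), ← Real.mul_rpow h2.le (by norm_num)]
    exact Real.rpow_le_rpow h3.le (by linarith [(Nat.cast_nonneg n : (0 : ℝ) ≤ n)]) hB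
  have h4 : rh m B n = ((n : ℝ) + 2) ^ (-B) / (2 * m n) := by
    unfold rh
    rw [div_div, mul_comm]
  have h5 : rh m B (n + 1) = ((n : ℝ) + 3) ^ (-B) / (2 * m (n + 1)) := by
    unfold rh
    push_cast
    rw [div_div, mul_comm, show (n : ℝ) + 1 + 2 = n + 3 by ring]
  rw [h4, h5, hD]
  calc ((n : ℝ) + 2) ^ (-B) / (2 * m n) ≤ 2 ^ B * ((n : ℝ) + 3) ^ (-B) / (2 * m n) :=
        div_le_div_of_nonneg_right h1 (by positivity)
    _ = 2 ^ B * D0 * ((n : ℝ) + 3) ^ (-B) / (2 * (D0 * m n)) := by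
        field_simp
    _ ≤ 2 ^ B * D0 * ((n : ℝ) + 3) ^ (-B) / (2 * m (n + 1)) := by
        apply div_le_div_of_nonneg_left (by positivity) (by positivity)
        linarith [hstep n]
    _ = _ := by ring

lemma rh_pow (hD0 : 0 < D) (hs : ∀ n, rh m B n ≤ D * rh m B (n + 1)) {k n : ℕ} (hk : k ≤ n) :
    rh m B k ≤ D ^ (n - k) * rh m B n := by
  induction n, hk using Nat.le_induction with
  | base => simp
  | succ n hk ih =>
    refine ih.trans ?_
    rw [Nat.succ_sub hk, pow_succ, mul_assoc]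
    exact mul_le_mul_of_nonneg_left (hs n) (by positivity)

lemma rh_exp (hm : ∀ n, 0 < m n) (h0 : m 0 = 1)
    (hgrow : ∀ k n : ℕ, n0 ≤ n → k ≤ n →
      m k * Real.exp (η * ((n : ℝ) - k)) ≤ ((n : ℝ) + 2) ^ B * m n) {n : ℕ} (hn : n0 ≤ n) :
    rh m B n ≤ Real.exp (-(η * n)) := by
  have h1 := hgrow 0 n hn (Nat.zero_le _)
  rw [h0, one_mul, Nat.cast_zero, sub_zero] at h1
  have hmn := hm n
  have h2 : (0 : ℝ) < (n : ℝ) + 2 := by positivity
  unfold rh
  rw [div_div, div_le_iff₀ (by positivity), Real.rpow_neg h2.le, Real.exp_neg,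
    inv_mul_eq_div, le_div_iff₀ (Real.exp_pos _), inv_mul_le_iff₀ (by positivity)]
  have h3 : 0 ≤ ((n : ℝ) + 2) ^ B * m n := by positivity
  linarith

/-- the level function -/
theorem level {K dd : ℝ} (hB : 0 ≤ B) (hη : 0 < η) (hm : ∀ n, 0 < m n) (h0 : m 0 = 1)
    (hD0 : 1 ≤ D0) (hstep : ∀ n, m (n + 1) ≤ D0 * m n) (hD : D = 2 ^ B * D0)
    (hgrow : ∀ k n : ℕ, n0 ≤ n → k ≤ n →
      m k * Real.exp (η * ((n : ℝ) - k)) ≤ ((n : ℝ) + 2) ^ B * m n) (hK : 0 ≤ K) (hdd : 0 < dd)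
    (hlil : ∀ᶠ l : ℕ in atTop,
      l * Real.log dd - K * √((l : ℝ) * Real.log (Real.log l)) ≤ Real.log (m l)) (n1 : ℕ) :
    ∃ (N : ℝ → ℕ) (R₀ C : ℝ), 0 < R₀ ∧ R₀ < 1 ∧ 0 ≤ C ∧
      (∀ R, 0 < R → R ≤ R₀ → 5 ≤ N R ∧ n1 ≤ N R ∧ rh m B (N R + 1) < R ∧ R ≤ rh m B (N R)) ∧
      (∀ R R' : ℝ, 0 < R → R ≤ R' → R' ≤ R₀ → N R' ≤ N R) ∧
      (∀ R R' : ℝ, 0 < R → R ≤ R' → R' ≤ R₀ → R' ≤ R * D ^ (N R + 1 - N R')) ∧
      (∀ R R' : ℝ, 0 < R → R ≤ R' → R' ≤ R₀ →
        (N R : ℝ) - N R' ≤ C * (Real.log (R' / R) + Real.log ((N R : ℝ) + 2))) ∧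
      (∀ R : ℝ, 0 < R → R ≤ R₀ →
        R * dd ^ N R ≤ Real.exp (C * √((N R : ℝ) * Real.log (Real.log (N R))))) ∧
      (∀ R : ℝ, 0 < R → R ≤ R₀ →
        |Real.log R + Real.log (m (N R))| ≤ C * Real.log ((N R : ℝ) + 2)) := by
  have h2B : (1 : ℝ) ≤ 2 ^ B := Real.one_le_rpow (by norm_num) hB
  have hD1 : 1 ≤ D := by rw [hD]; nlinarith
  have hDp : 0 < D := by linarith
  have hrp : ∀ n, 0 < rh m B n := rh_pos hm
  have hrs := rh_step (D := D) hB hm (by linarith) hstep hD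
  obtain ⟨n3, hn3⟩ := eventually_atTop.1 hlil
  set n2 := max (max n0 n1) (max 5 n3) with hn2
  -- the set of levels is bounded
  have hbdd : ∀ R : ℝ, 0 < R → BddAbove {n : ℕ | R ≤ rh m B n} := by
    intro R hR
    have h1 : Tendsto (fun n : ℕ => Real.exp (-(η * (n : ℝ)))) atTop (𝓝 0) := by
      apply Real.tendsto_exp_atBot.comp
      apply tendsto_neg_atTop_atBot.comp
      exact tendsto_natCast_atTop_atTop.const_mul_atTop hη
    obtain ⟨n4, hn4⟩ := eventually_atTop.1 (h1.eventually (gt_mem_nhds hR))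
    refine ⟨max n4 n0, ?_⟩
    intro n hn
    by_contra hcon
    push Not at hcon
    have h2 := rh_exp hm h0 hgrow (n := n) (le_of_lt (lt_of_le_of_lt (le_max_right _ _) hcon))
    have h3 := hn4 n (le_of_lt (lt_of_le_of_lt (le_max_left _ _) hcon))
    have h4 : R ≤ rh m B n := hn
    linarith
  let N : ℝ → ℕ := fun R => sSup {n : ℕ | R ≤ rh m B n}
  have hle : ∀ R : ℝ, 0 < R → ∀ n : ℕ, R ≤ rh m B n → n ≤ N R := fun R hR n hn =>
    le_csSup (hbdd R hR) hn
  set R₀ := min (1 / 2) (rh m B n2) with hR0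
  have hR0p : 0 < R₀ := lt_min (by norm_num) (hrp n2)
  have hR01 : R₀ < 1 := lt_of_le_of_lt (min_le_left _ _) (by norm_num)
  have hN2 : ∀ R, 0 < R → R ≤ R₀ → n2 ≤ N R := fun R hR hRR =>
    hle R hR n2 (hRR.trans (min_le_right _ _))
  have hNm : ∀ R, 0 < R → R ≤ R₀ → R ≤ rh m B (N R) := by
    intro R hR hRR
    have h1 : N R ∈ {n : ℕ | R ≤ rh m B n} :=
      Nat.sSup_mem ⟨n2, hRR.trans (min_le_right _ _)⟩ (hbdd R hR)
    exact h1
  have hNs : ∀ R, 0 < R → ∀ n, N R < n → rh m B n < R := by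
    intro R hR n hn
    by_contra hcon
    push Not at hcon
    exact absurd (hle R hR n hcon) (not_le.2 hn)
  have hanti : ∀ R R' : ℝ, 0 < R → R ≤ R' → R' ≤ R₀ → N R' ≤ N R := fun R R' hR hRR hR' =>
    hle R hR _ (hRR.trans (hNm R' (hR.trans_le hRR) hR'))
  have hlog1 : ∀ R, 0 < R → R ≤ R₀ → 1 ≤ Real.log ((N R : ℝ) + 2) := by
    intro R hR hRR
    have h1 : (5 : ℝ) ≤ N R := by
      have : 5 ≤ N R := le_trans (le_trans (le_max_left _ _) (le_max_right _ _)) (hN2 R hR hRR)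
      exact_mod_cast this
    rw [Real.le_log_iff_exp_le (by linarith)]
    have := Real.exp_one_lt_d9
    linarith
  have hN0 : ∀ R, 0 < R → R ≤ R₀ → n0 ≤ N R := fun R hR hRR =>
    le_trans (le_trans (le_max_left _ _) (le_max_left _ _)) (hN2 R hR hRR)
  have hlog2 : 0 ≤ Real.log 2 := Real.log_nonneg (by norm_num)
  have hlogD : 0 ≤ Real.log D := Real.log_nonneg hD1
  refine ⟨N, R₀, 1 / η + 1 + 2 * B / η + K + (B + Real.log 2 + Real.log D), hR0p, hR01,
    by positivity, ?_, hanti, ?_, ?_, ?_, ?_⟩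
  · intro R hR hRR
    have h1 := hN2 R hR hRR
    exact ⟨le_trans (le_trans (le_max_left _ _) (le_max_right _ _)) h1,
      le_trans (le_trans (le_max_right _ _) (le_max_left _ _)) h1,
      hNs R hR _ (Nat.lt_succ_self _), hNm R hR hRR⟩
  · intro R R' hR hRR hR'
    have hRp' : 0 < R' := hR.trans_le hRR
    have h1 := hNm R' hRp' hR'
    have h2 := rh_pow (m := m) (B := B) hDp hrs
      (show N R' ≤ N R + 1 from (hanti R R' hR hRR hR').trans (Nat.le_succ _))
    have h3 := hNs R hR (N R + 1) (Nat.lt_succ_self _)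
    calc R' ≤ rh m B (N R') := h1
      _ ≤ D ^ (N R + 1 - N R') * rh m B (N R + 1) := h2
      _ ≤ D ^ (N R + 1 - N R') * R := mul_le_mul_of_nonneg_left h3.le (by positivity)
      _ = _ := mul_comm _ _
  · intro R R' hR hRR hR'
    have hRp' : 0 < R' := hR.trans_le hRR
    have hR00 : R ≤ R₀ := hRR.trans hR'
    have hl1 := hlog1 R hR hR00
    have hlr : 0 ≤ Real.log (R' / R) := Real.log_nonneg (by rw [le_div_iff₀ hR]; linarith)
    have hC1 : 0 ≤ 1 / η := by positivity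
    have hC2 : 0 ≤ 2 * B / η := by positivity
    have hX : 0 ≤ Real.log (R' / R) + Real.log ((N R : ℝ) + 2) := by linarith
    have hCs : (1 / η) * Real.log (R' / R) + (1 + 2 * B / η) * Real.log ((N R : ℝ) + 2) ≤
        (1 / η + 1 + 2 * B / η + K + (B + Real.log 2 + Real.log D)) *
          (Real.log (R' / R) + Real.log ((N R : ℝ) + 2)) := by
      have a1 : (1 / η + 1 + 2 * B / η) * (Real.log (R' / R) + Real.log ((N R : ℝ) + 2)) ≤
          (1 / η + 1 + 2 * B / η + K + (B + Real.log 2 + Real.log D)) *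
          (Real.log (R' / R) + Real.log ((N R : ℝ) + 2)) :=
        mul_le_mul_of_nonneg_right (by linarith) hX
      refine le_trans ?_ a1
      have a2 : 0 ≤ (1 + 2 * B / η) * Real.log (R' / R) := by positivity
      have a3 : 0 ≤ (1 / η) * Real.log ((N R : ℝ) + 2) := by positivity
      linarith
    refine le_trans ?_ hCs
    rcases Nat.eq_or_lt_of_le (hanti R R' hR hRR hR') with heq | hlt
    · rw [heq, sub_self]
      positivity
    · have hn0 := hN0 R hR hR00
      have hg := hgrow (N R' + 1) (N R) hn0 hlt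
      have hmn := hm (N R)
      have hmk := hm (N R' + 1)
      have hr1 := hNm R hR hR00
      have hr2 := hNs R' hRp' (N R' + 1) (Nat.lt_succ_self _)
      have hp2 : (0 : ℝ) < (N R : ℝ) + 2 := by positivity
      have hp3 : (0 : ℝ) < ((N R' + 1 : ℕ) : ℝ) + 2 := by positivity
      have hcast : ((N R' + 1 : ℕ) : ℝ) + 2 ≤ (N R : ℝ) + 2 := by
        have : ((N R' + 1 : ℕ) : ℝ) ≤ N R := by exact_mod_cast hlt
        linarith
      -- logarithms
      have l1 : Real.log R ≤ -(Real.log 2 + Real.log (m (N R))) := by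
        have a1 : R ≤ 1 / (2 * m (N R)) := by
          refine hr1.trans ?_
          unfold rh
          rw [div_div, mul_comm (m (N R))]
          apply div_le_div_of_nonneg_right _ (by positivity)
          exact Real.rpow_le_one_of_one_le_of_nonpos (by linarith [(Nat.cast_nonneg (N R) : (0 : ℝ) ≤ N R)])
            (by linarith)
        have a2 := Real.log_le_log hR a1
        rwa [one_div, Real.log_inv, Real.log_mul (by norm_num) hmn.ne'] at a2
      have l2 : -(B * Real.log ((N R : ℝ) + 2) + Real.log 2 + Real.log (m (N R' + 1))) ≤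
          Real.log R' := by
        have a2 := Real.log_le_log (hrp _) hr2.le
        unfold rh at a2
        rw [Real.log_div (by positivity) (by norm_num), Real.log_div (by positivity) hmk.ne',
          Real.log_rpow hp3] at a2
        have a3 := Real.log_le_log hp3 hcast
        have a4 := mul_le_mul_of_nonneg_left a3 hB
        linarith
      have l3 : Real.log (m (N R' + 1)) + η * ((N R : ℝ) - ((N R' + 1 : ℕ) : ℝ)) ≤
          B * Real.log ((N R : ℝ) + 2) + Real.log (m (N R)) := by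
        have a1 := Real.log_le_log (by positivity) hg
        rwa [Real.log_mul hmk.ne' (Real.exp_pos _).ne', Real.log_exp,
          Real.log_mul (by positivity) hmn.ne', Real.log_rpow hp2] at a1
      have l4 : Real.log (R' / R) = Real.log R' - Real.log R := Real.log_div hRp'.ne' hR.ne'
      have l5 : η * ((N R : ℝ) - N R' - 1) ≤
          Real.log (R' / R) + 2 * B * Real.log ((N R : ℝ) + 2) := by
        rw [l4]
        push_cast at l3
        linarith
      have l6 : (N R : ℝ) - N R' - 1 ≤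
          (Real.log (R' / R) + 2 * B * Real.log ((N R : ℝ) + 2)) / η := by
        rw [le_div_iff₀ hη]
        linarith
      have l7 : (Real.log (R' / R) + 2 * B * Real.log ((N R : ℝ) + 2)) / η =
          (1 / η) * Real.log (R' / R) + 2 * B / η * Real.log ((N R : ℝ) + 2) := by
        field_simp
      rw [l7] at l6
      linarith
  · intro R hR hRR
    have hn3' : n3 ≤ N R := le_trans (le_trans (le_max_right _ _) (le_max_right _ _)) (hN2 R hR hRR)
    have h1 := hn3 (N R) hn3'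
    have hmn := hm (N R)
    have hr1 := hNm R hR hRR
    have a1 : R ≤ 1 / m (N R) := by
      refine hr1.trans ?_
      unfold rh
      rw [div_div]
      have b1 : ((N R : ℝ) + 2) ^ (-B) ≤ 1 :=
        Real.rpow_le_one_of_one_le_of_nonpos (by linarith [(Nat.cast_nonneg (N R) : (0 : ℝ) ≤ N R)])
          (by linarith)
      rw [div_le_div_iff₀ (by positivity) hmn]
      nlinarith
    have a2 : Real.log R ≤ -Real.log (m (N R)) := by
      have := Real.log_le_log hR a1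
      rwa [one_div, Real.log_inv] at this
    have a3 : Real.log (R * dd ^ N R) ≤ K * √((N R : ℝ) * Real.log (Real.log (N R))) := by
      rw [Real.log_mul hR.ne' (by positivity), Real.log_pow]
      linarith
    have hS : 0 ≤ √((N R : ℝ) * Real.log (Real.log (N R))) := Real.sqrt_nonneg _
    have hC1 : 0 ≤ 1 / η := by positivity
    have hC2 : 0 ≤ 2 * B / η := by positivity
    rw [← Real.exp_log (show 0 < R * dd ^ N R by positivity)]
    apply Real.exp_le_exp.2
    refine a3.trans (mul_le_mul_of_nonneg_right (by linarith) hS)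
  · intro R hR hRR
    have hmn := hm (N R)
    have hr1 := hNm R hR hRR
    have hr2 := hNs R hR (N R + 1) (Nat.lt_succ_self _)
    have hr3 := hrs (N R)
    have hl1 := hlog1 R hR hRR
    have hp2 : (0 : ℝ) < (N R : ℝ) + 2 := by positivity
    have hlr : Real.log (rh m B (N R)) = -(B * Real.log ((N R : ℝ) + 2)) - Real.log (m (N R)) -
        Real.log 2 := by
      unfold rh
      rw [Real.log_div (by positivity) (by norm_num), Real.log_div (by positivity) hmn.ne',
        Real.log_rpow hp2]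
      ring
    have a1 := Real.log_le_log hR hr1
    have a2 : Real.log (rh m B (N R)) ≤ Real.log D + Real.log R := by
      rw [← Real.log_mul hDp.ne' hR.ne']
      apply Real.log_le_log (hrp _)
      exact hr3.trans (mul_le_mul_of_nonneg_left hr2.le hDp.le)
    rw [hlr] at a1 a2
    have hC1 : 0 ≤ 1 / η := by positivity
    have hC2 : 0 ≤ 2 * B / η := by positivity
    have hB' : 0 ≤ B * Real.log ((N R : ℝ) + 2) := by positivity
    have hbig : B * Real.log ((N R : ℝ) + 2) + Real.log 2 + Real.log D ≤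
        (1 / η + 1 + 2 * B / η + K + (B + Real.log 2 + Real.log D)) *
          Real.log ((N R : ℝ) + 2) := by
      have b1 : (B + Real.log 2 + Real.log D) * Real.log ((N R : ℝ) + 2) ≤
          (1 / η + 1 + 2 * B / η + K + (B + Real.log 2 + Real.log D)) *
          Real.log ((N R : ℝ) + 2) := mul_le_mul_of_nonneg_right (by linarith) (by linarith)
      have b2 : Real.log 2 * 1 ≤ Real.log 2 * Real.log ((N R : ℝ) + 2) :=
        mul_le_mul_of_nonneg_left hl1 hlog2
      have b3 : Real.log D * 1 ≤ Real.log D * Real.log ((N R : ℝ) + 2) :=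
        mul_le_mul_of_nonneg_left hl1 hlogD
      linarith
    rw [abs_le]
    constructor <;> linarith

end

open Pool.Agent.Y272.TY Pool.Agent.H712R2 Pool.Agent.H713R2 Pool.Agent.Y298.CA Pool.Agent.N673.TW

lemma mm_zero (d : ℕ) (c : ℂ) : mm d c (0 + 1) = 1 := by
  unfold mm
  simp

lemma mm_succ (d : ℕ) (c : ℂ) (n : ℕ) :
    mm d c (n + 1 + 1) = mm d c (n + 1) * (d * ‖P d (n + 1) c‖ ^ (d - 1)) := by
  unfold mm
  rw [Finset.prod_Ico_succ_top (by omega)]

lemma norm_MM (d : ℕ) (c : ℂ) (k : ℕ) : ‖Pool.Agent.Y272.TY.MM d c k‖ = mm d c k := by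
  unfold Pool.Agent.Y272.TY.MM mm
  rw [norm_prod]
  refine Finset.prod_congr rfl fun i _ => ?_
  rw [norm_mul, norm_pow, Complex.norm_natCast]

lemma rh_eq (d : ℕ) (c0 : ℂ) (B : ℝ) (n : ℕ) :
    rh (fun n => mm d c0 (n + 1)) B n = RR d c0 B n / 2 := rfl

/-- the law of the iterated logarithm for `mm` -/
lemma lil_aux {d : ℕ} (hd : 2 ≤ d) {β : ℂ → ℂ} {θ : ℝ} {c0 : ℂ} {A : ℝ} {R : ℂ}
    (ty : Typ d β θ c0 A R) :
    ∀ᶠ l : ℕ in atTop, (l : ℝ) * Real.log (d : ℝ) -
      (30 * √(Real.log d) + A) * √((l : ℝ) * Real.log (Real.log l)) ≤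
        Real.log (mm d c0 (l + 1)) := by
  have hd2 : (2 : ℝ) ≤ d := by exact_mod_cast hd
  have hld : 0 ≤ Real.log (d : ℝ) := Real.log_nonneg (by linarith)
  have h1 : Tendsto (fun l : ℕ => Real.log (Real.log (l : ℝ))) atTop atTop :=
    Real.tendsto_log_atTop.comp (Real.tendsto_log_atTop.comp tendsto_natCast_atTop_atTop)
  have h2 : Tendsto (fun l : ℕ => Real.log ((l : ℝ) + 2) ^ 4 / ((l : ℝ) + 2)) atTop (𝓝 0) := by
    have := Real.tendsto_pow_log_div_mul_add_atTop 1 0 4 one_ne_zero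
    have h3 : Tendsto (fun l : ℕ => (l : ℝ) + 2) atTop atTop :=
      tendsto_atTop_add_const_right _ _ tendsto_natCast_atTop_atTop
    have h4 := this.comp h3
    refine h4.congr fun l => ?_
    simp
  filter_upwards [ty.lil, h1.eventually_ge_atTop 1,
    h2.eventually (gt_mem_nhds (show (0 : ℝ) < 1 / 2 by norm_num)), eventually_ge_atTop 2]
    with l hl hl1 hl2 hl3
  have hs := ty.simi l
  rw [norm_MM] at hs
  have hl0 : (2 : ℝ) ≤ l := by exact_mod_cast hl3
  have hlg : Real.log ((l : ℝ) + 2) ^ 2 ≤ √((l : ℝ) * Real.log (Real.log l)) := by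
    apply Real.le_sqrt_of_sq_le
    rw [div_lt_iff₀ (by linarith)] at hl2
    have : (Real.log ((l : ℝ) + 2) ^ 2) ^ 2 = Real.log ((l : ℝ) + 2) ^ 4 := by ring
    rw [this]
    nlinarith
  have hsq : √((l : ℝ) * Real.log d * Real.log (Real.log l)) =
      √(Real.log d) * √((l : ℝ) * Real.log (Real.log l)) := by
    rw [← Real.sqrt_mul hld]
    congr 1
    ring
  rw [hsq] at hl
  have a1 := (abs_le.1 hs).1
  have a2 := (abs_le.1 hl).2
  have a3 := mul_le_mul_of_nonneg_left hlg ty.A0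
  nlinarith

theorem t (hI : S_IN2) : S_NN := by
  intro d β θ c0 A R B κ η n₀ ψ hd _ ty hL hS hψ
  have hd2 : (2 : ℝ) ≤ d := by exact_mod_cast hd
  have hD0 : (1 : ℝ) ≤ d * 2 ^ (d - 1) := by
    have : (1 : ℝ) ≤ 2 ^ (d - 1) := one_le_pow₀ (by norm_num)
    nlinarith
  have hD02 : (2 : ℝ) ≤ d * 2 ^ (d - 1) := by
    have : (1 : ℝ) ≤ 2 ^ (d - 1) := one_le_pow₀ (by norm_num)
    nlinarith
  have h2B : (1 : ℝ) ≤ 2 ^ B := Real.one_le_rpow (by norm_num) hS.B0
  obtain ⟨D, hD⟩ : ∃ D : ℝ, D = 2 ^ B * (d * 2 ^ (d - 1)) := ⟨_, rfl⟩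
  have hD2 : 2 ≤ D := by rw [hD]; nlinarith
  have hstep : ∀ n : ℕ, (fun n : ℕ => mm d c0 (n + 1)) (n + 1) ≤
      (d * 2 ^ (d - 1)) * (fun n : ℕ => mm d c0 (n + 1)) n := by
    intro n
    have h1 : mm d c0 (n + 1 + 1) = mm d c0 (n + 1) * (d * ‖P d (n + 1) c0‖ ^ (d - 1)) :=
      mm_succ d c0 n
    have h2 := hS.two n
    have h3 := hS.pos n
    show mm d c0 (n + 1 + 1) ≤ (d * 2 ^ (d - 1)) * mm d c0 (n + 1)
    rw [h1, mul_comm]
    gcongr
  obtain ⟨B', n1, hB', hI2⟩ := hI d c0 B κ η n₀ (2 * D) hd hL hS (by linarith)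
  have hK : 0 ≤ 30 * √(Real.log d) + A := by
    have := ty.A0
    positivity
  obtain ⟨N, R₀, C, hR0, hR01, hC, hlev, hanti, hst, hlip, hlil, hmmc⟩ :=
    level (m := fun n : ℕ => mm d c0 (n + 1)) (B := B) (η := η) (D0 := d * 2 ^ (d - 1)) (D := D)
      (n0 := n₀) (K := 30 * √(Real.log d) + A) (dd := d) hS.B0 hS.η0 hS.pos (mm_zero d c0) hD0
      hstep hD hS.grow hK (by linarith) (lil_aux hd ty) n1
  have hrs := rh_step (m := fun n : ℕ => mm d c0 (n + 1)) (D := D) hS.B0 hS.pos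
    (by linarith) hstep hD
  have key : ∀ R, 0 < R → R ≤ R₀ → n1 ≤ N R ∧ RR d c0 B (N R) / (2 * D) ≤ R ∧
      R ≤ RR d c0 B (N R) / 2 := by
    intro R hR hRR
    obtain ⟨_, h2, h3, h4⟩ := hlev R hR hRR
    refine ⟨h2, ?_, h4⟩
    have h5 := hrs (N R)
    have h6 : rh (fun n : ℕ => mm d c0 (n + 1)) B (N R) ≤ D * R :=
      h5.trans (mul_le_mul_of_nonneg_left h3.le (by linarith))
    rw [rh_eq] at h6
    rw [div_le_iff₀ (by linarith)]
    linarith
  refine ⟨N, R₀, B', D, C, ⟨hψ, isCompact_multibrot hd, hL.2.1, hd, hR0, hR01, hB', hD2, hC,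
    fun R hR hRR => (hlev R hR hRR).1, hanti, ?_, ?_, hst, hlip, hlil, hmmc⟩⟩
  · intro R hR hRR u hu t ht h
    obtain ⟨h1, h2, h3⟩ := key R hR hRR
    exact (hI2 ψ hψ (N R) h1 R h2 h3 u hu).1 t ht h
  · intro R hR hRR u hu t₁ t₂ ht₁ ht₂ h h' h''
    obtain ⟨h1, h2, h3⟩ := key R hR hRR
    exact (hI2 ψ hψ (N R) h1 R h2 h3 u hu).2 t₁ t₂ ht₁ ht₂ h h' h''

end Pool.Agent.N673.TW.Nn
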