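import Pool.Agent.N673.TW.Stm4
import Pool.Agent.Y298.CA.Typ
import Pool.Agent.Y405.TY.Dist

set_option autoImplicit false

/-!
# Project TW: expansion of the parameter disc of the level `n` at a typical parameter
-/

open Complex Filter Topology Metric Set MeasureTheory

namespace Pool.Agent.N673.TW.Shd

open Pool.Agent.TH279.MD Pool.Agent.Y298.SH Pool.Agent.Y298.SH.CD Pool.Agent.Y298.CA
open Pool.Agent.Y272.TY
open Pool.Agent.H713R2 (IsBeta differentiable_P)
open Pool.Agent.H712R2 (P)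

theorem ev_exp (s b M : ℝ) (hb : 0 < b) (hM : 0 < M) :
    ∀ᶠ n : ℕ in atTop, ((n : ℝ) + 2) ^ s * Real.exp (-(b * n)) ≤ M := by
  have h1 := tendsto_rpow_mul_exp_neg_mul_atTop_nhds_zero s b hb
  have h2 : Tendsto (fun n : ℕ => (n : ℝ) + 2) atTop atTop :=
    tendsto_atTop_add_const_right _ _ tendsto_natCast_atTop_atTop
  have h3 := (h1.comp h2).const_mul (Real.exp (2 * b))
  rw [mul_zero] at h3
  filter_upwards [h3.eventually (gt_mem_nhds hM)] with n hn
  have h4 : ((n : ℝ) + 2) ^ s * Real.exp (-(b * n)) =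
      Real.exp (2 * b) * (((n : ℝ) + 2) ^ s * Real.exp (-b * ((n : ℝ) + 2))) := by
    have : Real.exp (-(b * n)) = Real.exp (2 * b) * Real.exp (-b * ((n : ℝ) + 2)) := by
      rw [← Real.exp_add]; congr 1; ring
    rw [this]; ring
  rw [h4]
  exact le_of_lt hn

theorem split {d : ℕ} (hd : 2 ≤ d) (c : ℂ) {k n : ℕ} (hkn : k ≤ n) :
    mm d c (n + 1) = mm d c (k + 1) * ‖deriv ((f d c)^[n - k]) (P d (k + 1) c)‖ := by
  have h1 : ∀ m, deriv ((f d c)^[m]) c = MM d c (m + 1) :=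
    fun m => (Pool.Agent.Y272.TY.deriv_iter hd c m).deriv
  have h2 := deriv_iter_add d c (n - k) k c
  rw [Nat.sub_add_cancel hkn, h1, h1] at h2
  rw [mm_eq, mm_eq, h2, norm_mul, mul_comm, P_succ_eq hd]

/-- the growth of the derivative -/
theorem growth {d : ℕ} {β : ℂ → ℂ} {θ : ℝ} {c0 : ℂ} {A : ℝ} {R : ℂ} (hd : 2 ≤ d)
    (hβ : IsBeta d β) (h : Typ d β θ c0 A R) (hE : Pool.Agent.N253.LC.S_EXQ) :
    ∃ B η : ℝ, ∃ n₀ : ℕ, 0 ≤ B ∧ 0 < η ∧ ∀ k n : ℕ, n₀ ≤ n → k ≤ n →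
    mm d c0 (k + 1) * Real.exp (η * ((n : ℝ) - k)) ≤ ((n : ℝ) + 2) ^ B * mm d c0 (n + 1) := by
  obtain ⟨κ, η, a₁, A1, r₀, hκ, hκ1, hη, -, -, hA1, hr₀, HE⟩ :=
    hE d (Real.log d) c0 hd (lyap_of_typ hd hβ h)
  have hA := h.A0
  obtain ⟨N, hN⟩ := exists_nat_ge (1 / κ)
  refine ⟨A * A1 + 1, η, N, by positivity, hη, ?_⟩
  intro k n hn hkn
  have hx : (0 : ℝ) < (n : ℝ) + 2 := by positivity
  obtain ⟨t, ht⟩ : ∃ t : ℝ, t = ((n : ℝ) + 2) ^ (-A) := ⟨_, rfl⟩
  have ht0 : 0 < t := by rw [ht]; exact Real.rpow_pos_of_pos hx _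
  have ht1 : t ≤ 1 := by
    rw [ht]
    apply Real.rpow_le_one_of_one_le_of_nonpos
    · have := (Nat.cast_nonneg n : (0 : ℝ) ≤ n)
      linarith
    · linarith
  have hmm : ∀ m, 0 < mm d c0 (m + 1) := by
    intro m
    rw [mm_eq, norm_pos_iff]
    exact MM_ne_zero hd c0 m fun j _ => h.P_ne j
  have horb : ∀ j, (f d c0)^[j] (P d (k + 1) c0) = P d (j + k + 1) c0 := by
    intro j
    have h1 : P d (k + 1) c0 = (f d c0)^[k] c0 := by rw [P_succ_eq hd]
    have h2 : P d (j + k + 1) c0 = (f d c0)^[j + k] c0 := by rw [P_succ_eq hd]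
    rw [h1, h2, Function.iterate_add_apply]
  have h1 := (HE c0 (min r₀ (t ^ d)) (P d (k + 1) c0) (n - k) (by positivity) (min_le_left _ _)
    (by rw [sub_self, norm_zero]; positivity)).2.2 t ht0 ht1 (min_le_right _ _)
    (by
      intro j _
      rw [horb]
      linarith [h.P_le hd hβ (j + k + 1)])
    (by
      intro j hj
      rw [horb]
      refine le_trans ?_ (h.rec' (j + k))
      rw [ht, Real.rpow_def_of_pos hx, Real.exp_le_exp]
      have h2 : Real.log ((j + k : ℕ) + 2 : ℝ) ≤ Real.log ((n : ℝ) + 2) := by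
        apply Real.log_le_log (by positivity)
        have : ((j + k : ℕ) : ℝ) ≤ n := by exact_mod_cast (by omega : j + k ≤ n)
        linarith
      nlinarith)
  rw [split hd c0 hkn]
  have hcast : ((n - k : ℕ) : ℝ) = (n : ℝ) - k := Nat.cast_sub hkn
  rw [hcast] at h1
  have h3 : Real.exp (η * ((n : ℝ) - k)) ≤ ((n : ℝ) + 2) ^ (A * A1 + 1) *
      ‖deriv ((f d c0)^[n - k]) (P d (k + 1) c0)‖ := by
    have h4 : ((n : ℝ) + 2) ^ (A * A1) * t ^ A1 = 1 := by
      rw [ht, ← Real.rpow_mul hx.le, ← Real.rpow_add hx]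
      have : A * A1 + -A * A1 = 0 := by ring
      rw [this, Real.rpow_zero]
    have h5 : 1 ≤ κ * ((n : ℝ) + 2) := by
      have : (N : ℝ) ≤ n := by exact_mod_cast hn
      have h6 : 1 / κ ≤ (n : ℝ) + 2 := by linarith
      rw [div_le_iff₀ hκ] at h6
      linarith
    have h7 : 0 < ((n : ℝ) + 2) ^ (A * A1) := Real.rpow_pos_of_pos hx _
    have h8 : 0 < Real.exp (η * ((n : ℝ) - k)) := Real.exp_pos _
    rw [Real.rpow_add hx, Real.rpow_one]
    calc Real.exp (η * ((n : ℝ) - k)) = 1 * Real.exp (η * ((n : ℝ) - k)) := (one_mul _).symm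
      _ ≤ (κ * ((n : ℝ) + 2)) * Real.exp (η * ((n : ℝ) - k)) := by gcongr
      _ = (κ * ((n : ℝ) + 2)) * Real.exp (η * ((n : ℝ) - k)) *
          (((n : ℝ) + 2) ^ (A * A1) * t ^ A1) := by rw [h4, mul_one]
      _ = ((n : ℝ) + 2) ^ (A * A1) * ((n : ℝ) + 2) *
          (κ * t ^ A1 * Real.exp (η * ((n : ℝ) - k))) := by ring
      _ ≤ _ := by gcongr
  calc mm d c0 (k + 1) * Real.exp (η * ((n : ℝ) - k)) ≤ mm d c0 (k + 1) *
        (((n : ℝ) + 2) ^ (A * A1 + 1) * ‖deriv ((f d c0)^[n - k]) (P d (k + 1) c0)‖) := by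
          have := hmm k
          gcongr
    _ = _ := by ring

/-- the sum of the inverses -/
theorem sums {d : ℕ} {c0 : ℂ} {B η : ℝ} {n₀ : ℕ} (hη : 0 < η) (hmm : ∀ m, 0 < mm d c0 (m + 1))
    (hg : ∀ k n : ℕ, n₀ ≤ n → k ≤ n →
    mm d c0 (k + 1) * Real.exp (η * ((n : ℝ) - k)) ≤ ((n : ℝ) + 2) ^ B * mm d c0 (n + 1)) :
    ∃ S : ℝ, 1 ≤ S ∧ ∀ j : ℕ, ∑ i ∈ Finset.Icc 1 j, 1 / mm d c0 i ≤ S := by
  have hsum : Summable fun n : ℕ => 1 / mm d c0 (n + 1) := by
    have hgeo : Summable fun n : ℕ => Real.exp (-(η / 2)) ^ n :=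
      summable_geometric_of_lt_one (Real.exp_pos _).le (by
        rw [Real.exp_lt_one_iff]; linarith)
    refine Summable.of_norm_bounded_eventually_nat hgeo ?_
    filter_upwards [ev_exp B (η / 2) 1 (by positivity) one_pos, eventually_ge_atTop n₀]
      with n h1 h2
    have h3 := hg 0 n h2 (Nat.zero_le _)
    have h4 : mm d c0 1 = 1 := by simp [mm]
    rw [zero_add, h4, one_mul, Nat.cast_zero, sub_zero] at h3
    have h5 := hmm n
    rw [Real.norm_of_nonneg (by positivity), ← Real.exp_nat_mul, div_le_iff₀ h5]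
    have e1 : Real.exp ((n : ℝ) * -(η / 2)) = Real.exp (-(η * n)) * Real.exp (η / 2 * n) := by
      rw [← Real.exp_add]; congr 1; ring
    have e2 : Real.exp (-(η * n)) * Real.exp (η * n) = 1 := by rw [← Real.exp_add]; simp
    have e3 : Real.exp (-(η / 2 * n)) * Real.exp (η / 2 * n) = 1 := by rw [← Real.exp_add]; simp
    have hx : (0 : ℝ) < (n : ℝ) + 2 := by positivity
    have h6 : (0 : ℝ) < ((n : ℝ) + 2) ^ B := Real.rpow_pos_of_pos hx _
    have h7 : ((n : ℝ) + 2) ^ B ≤ Real.exp (η / 2 * n) := by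
      calc ((n : ℝ) + 2) ^ B = (((n : ℝ) + 2) ^ B * Real.exp (-(η / 2 * n))) *
            Real.exp (η / 2 * n) := by rw [mul_assoc, e3, mul_one]
        _ ≤ 1 * Real.exp (η / 2 * n) := by
            have := Real.exp_pos (η / 2 * n)
            gcongr
        _ = _ := one_mul _
    calc (1 : ℝ) = Real.exp (-(η * n)) * Real.exp (η * n) := e2.symm
      _ ≤ Real.exp (-(η * n)) * (((n : ℝ) + 2) ^ B * mm d c0 (n + 1)) := by gcongr
      _ ≤ Real.exp (-(η * n)) * (Real.exp (η / 2 * n) * mm d c0 (n + 1)) := by gcongr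
      _ = Real.exp ((n : ℝ) * -(η / 2)) * mm d c0 (n + 1) := by rw [e1]; ring
  refine ⟨max 1 (∑' n : ℕ, 1 / mm d c0 (n + 1)), le_max_left _ _, fun j => ?_⟩
  refine le_trans ?_ (le_max_right _ _)
  have h1 : ∑ i ∈ Finset.Icc 1 j, 1 / mm d c0 i = ∑ i ∈ Finset.range j, 1 / mm d c0 (i + 1) := by
    rw [Finset.range_eq_Ico, Finset.sum_Ico_add' (fun i => 1 / mm d c0 i) 0 j 1]
    rfl
  rw [h1]
  exact hsum.sum_le_tsum _ fun i _ => by have := hmm i; positivity

theorem t (hE : Pool.Agent.N253.LC.S_EXQ) : S_SHD := by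
  intro d β θ c0 A R hd hβ h
  have hdR : (2 : ℝ) ≤ d := by exact_mod_cast hd
  obtain ⟨B1, η, N₁, hB1, hη, hg⟩ := growth hd hβ h hE
  have hmm : ∀ m, 0 < mm d c0 (m + 1) := by
    intro m
    rw [mm_eq, norm_pos_iff]
    exact MM_ne_zero hd c0 m fun j _ => h.P_ne j
  obtain ⟨S, hS1, hS⟩ := sums hη hmm hg
  have hA := h.A0
  have hR0 : 0 < ‖R‖ := norm_pos_iff.mpr h.R0
  have hlim : ∀ᶠ n : ℕ in atTop, ‖R‖ / 2 < ‖deriv (P d (n + 1)) c0 / MM d c0 (n + 1)‖ :=
    h.lim.norm.eventually (lt_mem_nhds (by linarith))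
  obtain ⟨N₂, hN₂⟩ := eventually_atTop.mp hlim
  obtain ⟨N₃, hN₃⟩ := exists_nat_ge (3 * S * d)
  obtain ⟨N₄, hN₄⟩ := exists_nat_ge (144 * S / ‖R‖)
  obtain ⟨B2, hB2⟩ : ∃ B2 : ℝ, B2 = B1 + A + 3 := ⟨_, rfl⟩
  obtain ⟨B, hB⟩ : ∃ B : ℝ, B = B2 + 1 := ⟨_, rfl⟩
  obtain ⟨N, hN⟩ : ∃ N : ℕ, N = N₁ + N₂ + N₃ + N₄ + 1 := ⟨_, rfl⟩
  -- the disc of radius `ρ`
  obtain ⟨ρ, hρ⟩ : ∃ ρ : ℕ → ℝ, ρ = fun n : ℕ => ((n : ℝ) + 2) ^ (-B2) / mm d c0 (n + 1) :=
    ⟨_, rfl⟩
  have hρ0 : ∀ n, 0 < ρ n := by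
    intro n
    have := hmm n
    rw [hρ]
    positivity
  have hRRρ : ∀ n : ℕ, RR d c0 B n = ρ n / ((n : ℝ) + 2) := by
    intro n
    have hx : (0 : ℝ) < (n : ℝ) + 2 := by positivity
    rw [hρ]
    unfold RR
    have : -B = -B2 - 1 := by rw [hB]; ring
    rw [this, Real.rpow_sub hx, Real.rpow_one]
    ring
  have key : ∀ n : ℕ, N ≤ n → ∀ c : ℂ, ‖c - c0‖ ≤ ρ n → ∀ j ∈ Finset.Icc 1 (n + 1),
      ‖P d j c - P d j c0‖ ≤ 3 * mm d c0 j * S * ‖c - c0‖ ∧ ‖P d j c - P d j c0‖ ≤ 1 := by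
    intro n hn c hc
    have hx : (0 : ℝ) < (n : ℝ) + 2 := by positivity
    have hmmn := hmm n
    have hpos : ∀ j ∈ Finset.Icc 1 (n + 1), 0 < mm d c0 j := by
      intro j hj
      rw [Finset.mem_Icc] at hj
      have := hmm (j - 1)
      rwa [Nat.sub_add_cancel hj.1] at this
    have hb : ∀ j ∈ Finset.Icc 1 (n + 1),
        3 * mm d c0 j * (∑ i ∈ Finset.Icc 1 j, 1 / mm d c0 i) * ‖c - c0‖ ≤
        ‖P d j c0‖ / (d * ((j : ℝ) + 1) ^ 2) := by
      intro j hj
      have hpj := hpos j hj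
      rw [Finset.mem_Icc] at hj
      obtain ⟨k, rfl⟩ : ∃ k, j = k + 1 := ⟨j - 1, by omega⟩
      have h1 := hg k n (by omega) (by omega)
      have h2 : (k : ℝ) ≤ n := by exact_mod_cast (by omega : k ≤ n)
      have h3 : mm d c0 (k + 1) ≤ ((n : ℝ) + 2) ^ B1 * mm d c0 (n + 1) := by
        refine le_trans ?_ h1
        have h4 : 1 ≤ Real.exp (η * ((n : ℝ) - k)) := by
          rw [Real.one_le_exp_iff]
          have : 0 ≤ (n : ℝ) - k := by linarith
          positivity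
        nlinarith
      have h5 : mm d c0 (k + 1) * ρ n ≤ ((n : ℝ) + 2) ^ (-(A + 3)) := by
        have e1 : ((n : ℝ) + 2) ^ (-(A + 3)) = ((n : ℝ) + 2) ^ B1 * ((n : ℝ) + 2) ^ (-B2) := by
          rw [← Real.rpow_add hx]; congr 1; rw [hB2]; ring
        rw [e1]
        calc mm d c0 (k + 1) * ρ n ≤ (((n : ℝ) + 2) ^ B1 * mm d c0 (n + 1)) * ρ n := by
              have := (hρ0 n).le
              gcongr
          _ = ((n : ℝ) + 2) ^ B1 * ((n : ℝ) + 2) ^ (-B2) := by
              rw [hρ]; field_simp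
      have h6 : ((n : ℝ) + 2) ^ (-A) ≤ ‖P d (k + 1) c0‖ := by
        refine le_trans ?_ (h.rec' k)
        rw [Real.rpow_def_of_pos hx, Real.exp_le_exp]
        have h7 : Real.log ((k : ℝ) + 2) ≤ Real.log ((n : ℝ) + 2) :=
          Real.log_le_log (by positivity) (by linarith)
        nlinarith
      have h8 : 3 * S * d ≤ (n : ℝ) + 2 := by
        have : (N₃ : ℝ) ≤ n := by exact_mod_cast (by omega : N₃ ≤ n)
        linarith
      have hSj := hS (k + 1)
      have hSj0 : 0 ≤ ∑ i ∈ Finset.Icc 1 (k + 1), 1 / mm d c0 i := by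
        refine Finset.sum_nonneg fun i hi => ?_
        rw [Finset.mem_Icc] at hi
        have := hmm (i - 1)
        rw [Nat.sub_add_cancel hi.1] at this
        positivity
      have e2 : ((n : ℝ) + 2) ^ (-(A + 3)) = ((n : ℝ) + 2) ^ (-A) / ((n : ℝ) + 2) ^ 3 := by
        rw [neg_add, ← sub_eq_add_neg, Real.rpow_sub hx]
        norm_num
      rw [le_div_iff₀ (by positivity)]
      push_cast
      calc 3 * mm d c0 (k + 1) * (∑ i ∈ Finset.Icc 1 (k + 1), 1 / mm d c0 i) * ‖c - c0‖ *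
            (d * ((k : ℝ) + 1 + 1) ^ 2) ≤
            3 * mm d c0 (k + 1) * S * ρ n * (d * ((n : ℝ) + 2) ^ 2) := by
            have : (k : ℝ) + 1 + 1 ≤ (n : ℝ) + 2 := by linarith
            have := (hρ0 n).le
            gcongr
        _ = (3 * S * d) * (mm d c0 (k + 1) * ρ n) * ((n : ℝ) + 2) ^ 2 := by ring
        _ ≤ ((n : ℝ) + 2) * (((n : ℝ) + 2) ^ (-(A + 3))) * ((n : ℝ) + 2) ^ 2 := by
            have := (hρ0 n).le
            gcongr
        _ = ((n : ℝ) + 2) ^ (-A) := by rw [e2]; field_simp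
        _ ≤ ‖P d (k + 1) c0‖ := h6
    have hD := Pool.Agent.Y405.TY.t d c0 c (n + 1) hd hpos hb
    intro j hj
    have hpj := hpos j hj
    refine ⟨(hD j hj).trans ?_, (hD j hj).trans ((hb j hj).trans ?_)⟩
    · have := hS j
      gcongr
    · rw [div_le_one (by positivity)]
      have h1 := h.P_le hd hβ j
      have h2 : (0 : ℝ) ≤ j := Nat.cast_nonneg j
      nlinarith
  have hbig : ∀ n : ℕ, N ≤ n → RR d c0 B n ≤ ρ n ∧ RR d c0 B n < ρ n / 2 := by
    intro n hn
    have h1 : (1 : ℝ) ≤ n := by exact_mod_cast (by omega : 1 ≤ n)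
    have h2 := hρ0 n
    rw [hRRρ]
    constructor
    · exact div_le_self h2.le (by linarith)
    · exact div_lt_div_of_pos_left h2 (by norm_num) (by linarith)
  refine ⟨B, ‖R‖ / 4, η, N, by rw [hB, hB2]; positivity, by positivity, hη, hmm,
    fun n => h.P_le hd hβ (n + 1), ?_, ?_, ?_⟩
  · intro k n hn hkn
    refine (hg k n (by omega) hkn).trans ?_
    have := hmm n
    have hn2 : (1 : ℝ) ≤ (n : ℝ) + 2 := by linarith [(Nat.cast_nonneg n : (0 : ℝ) ≤ n)]
    have : ((n : ℝ) + 2) ^ B1 ≤ ((n : ℝ) + 2) ^ B :=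
      Real.rpow_le_rpow_of_exponent_le hn2 (by rw [hB, hB2]; linarith)
    gcongr
  · intro n hn c hc j hj
    have h1 := (key n hn c (hc.trans (hbig n hn).1) (j + 1) (by
      rw [Finset.mem_Icc]; omega)).2
    have h2 := h.P_le hd hβ (j + 1)
    have h3 := norm_add_le (P d (j + 1) c - P d (j + 1) c0) (P d (j + 1) c0)
    rw [sub_add_cancel] at h3
    linarith
  · intro n hn c c' hc hc'
    obtain ⟨F, hF⟩ : ∃ F : ℂ → ℂ, F = P d (n + 1) := ⟨_, rfl⟩
    rw [← hF]
    have hFd : Differentiable ℂ F := by rw [hF]; exact differentiable_P d (n + 1)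
    have hmmn := hmm n
    have hρn := hρ0 n
    -- the bound for the derivative
    have hF1 : ∀ z ∈ ball c0 (ρ n / 2), ‖deriv F z‖ ≤ 6 * S * mm d c0 (n + 1) := by
      intro z hz
      rw [mem_ball, dist_eq_norm] at hz
      have h1 : ‖deriv (fun y => F y - F c0) z‖ ≤ (3 * mm d c0 (n + 1) * S * ρ n) / (ρ n / 2) := by
        refine Complex.norm_deriv_le_of_forall_mem_sphere_norm_le (by positivity)
          ((hFd.sub_const _).diffContOnCl) ?_
        intro y hy
        rw [mem_sphere, dist_eq_norm] at hy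
        have h2 : ‖y - c0‖ ≤ ρ n := by
          have := norm_add_le (y - z) (z - c0)
          rw [sub_add_sub_cancel] at this
          linarith
        have h3 := (key n hn y h2 (n + 1) (by rw [Finset.mem_Icc]; omega)).1
        rw [← hF] at h3
        refine h3.trans ?_
        gcongr
      rw [deriv_sub_const] at h1
      refine h1.trans (le_of_eq ?_)
      field_simp
      ring
    have hc0m : c0 ∈ ball c0 (ρ n / 2) := mem_ball_self (by positivity)
    have hF2 : ∀ z ∈ ball c0 (ρ n / 2), ‖deriv F z - deriv F c0‖ ≤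
        36 * S * mm d c0 (n + 1) / ρ n * ‖z - c0‖ := by
      intro z hz
      have hdF : Differentiable ℂ (deriv F) := by
        intro y
        have h1 : AnalyticAt ℂ F y := hFd.analyticAt y
        exact h1.deriv.differentiableAt
      have h1 := Complex.dist_le_div_mul_dist_of_mapsTo_ball (f := deriv F) (c := c0)
        (R₁ := ρ n / 2) (R₂ := 18 * S * mm d c0 (n + 1)) hdF.differentiableOn (by
          intro y hy
          rw [mem_closedBall, dist_eq_norm]
          have h2 := norm_sub_le (deriv F y) (deriv F c0)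
          have h3 := hF1 y hy
          have h4 := hF1 c0 hc0m
          have h5 : 0 < S * mm d c0 (n + 1) := by positivity
          nlinarith) hz
      rw [dist_eq_norm, dist_eq_norm] at h1
      refine h1.trans (le_of_eq ?_)
      field_simp
      ring
    have hsub : closedBall c0 (RR d c0 B n) ⊆ ball c0 (ρ n / 2) :=
      closedBall_subset_ball (hbig n hn).2
    have hF3 : ∀ z ∈ closedBall c0 (RR d c0 B n), ‖deriv F z - deriv F c0‖ ≤
        ‖R‖ / 4 * mm d c0 (n + 1) := by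
      intro z hz
      refine (hF2 z (hsub hz)).trans ?_
      rw [mem_closedBall, dist_eq_norm, hRRρ] at hz
      have h1 : 144 * S / ‖R‖ ≤ (n : ℝ) + 2 := by
        have : (N₄ : ℝ) ≤ n := by exact_mod_cast (by omega : N₄ ≤ n)
        linarith
      rw [div_le_iff₀ hR0] at h1
      have hx : (0 : ℝ) < (n : ℝ) + 2 := by positivity
      calc 36 * S * mm d c0 (n + 1) / ρ n * ‖z - c0‖ ≤
            36 * S * mm d c0 (n + 1) / ρ n * (ρ n / ((n : ℝ) + 2)) := by gcongr
        _ = (144 * S) / ((n : ℝ) + 2) / 4 * mm d c0 (n + 1) := by field_simp; ring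
        _ ≤ ‖R‖ / 4 * mm d c0 (n + 1) := by
            have h2 : (144 * S) / ((n : ℝ) + 2) ≤ ‖R‖ := by
              rw [div_le_iff₀ hx]; linarith
            gcongr
    have hlow : ‖R‖ / 2 * mm d c0 (n + 1) ≤ ‖deriv F c0‖ := by
      have h1 := hN₂ n (by omega)
      rw [norm_div, ← mm_eq, lt_div_iff₀ hmmn, ← hF] at h1
      exact h1.le
    -- the difference with the linear map
    have hLip : ‖(F c - deriv F c0 * c) - (F c' - deriv F c0 * c')‖ ≤
        ‖R‖ / 4 * mm d c0 (n + 1) * ‖c - c'‖ := by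
      have hder : ∀ z, HasDerivAt (fun z => F z - deriv F c0 * z) (deriv F z - deriv F c0) z := by
        intro z
        have h1 := (hFd z).hasDerivAt
        have h2 := (hasDerivAt_id z).const_mul (deriv F c0)
        have h3 := h1.sub h2
        rw [mul_one] at h3
        exact h3
      refine Convex.norm_image_sub_le_of_norm_deriv_le (f := fun z => F z - deriv F c0 * z)
        (s := closedBall c0 (RR d c0 B n)) (fun z _ => (hder z).differentiableAt) ?_
        (convex_closedBall _ _) ?_ ?_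
      · intro z hz
        rw [(hder z).deriv]
        exact hF3 z hz
      · rw [mem_closedBall, dist_eq_norm]; exact hc'
      · rw [mem_closedBall, dist_eq_norm]; exact hc
    have h1 : deriv F c0 * (c - c') = (F c - F c') -
        ((F c - deriv F c0 * c) - (F c' - deriv F c0 * c')) := by ring
    have h2 : ‖deriv F c0‖ * ‖c - c'‖ ≤ ‖F c - F c'‖ +
        ‖(F c - deriv F c0 * c) - (F c' - deriv F c0 * c')‖ := by
      rw [← norm_mul, h1]
      exact norm_sub_le _ _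
    have h3 : ‖R‖ / 2 * mm d c0 (n + 1) * ‖c - c'‖ ≤ ‖deriv F c0‖ * ‖c - c'‖ := by gcongr
    linarith

end Pool.Agent.N673.TW.Shd
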