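import Pool.Agent.N673.TW.Stm4
import Pool.Agent.N253.LC.Two

set_option autoImplicit false

/-!
# Project TW: two points of a parameter ray of finite level, at the sharp scale
-/

open Complex Filter Topology Metric Set MeasureTheory

namespace Pool.Agent.N673.TW.Tw2

open Pool.Agent.TH279.MD Pool.Agent.Y298.SH Pool.Agent.Y298.SH.CD Pool.Agent.Y298.CA
open Pool.Agent.H713R2 (IsExteriorMap IsGm)
open Pool.Agent.H712R2 (P P_lt_of_gt)
open Pool.Agent.Y272.TY (mm)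
open Pool.Agent.N253.LC (S_DISP S_CMP S_COORD Ray Disp coord_iter exp_pow norm_exp_mul gm_point)

theorem ev_exp (s b M : ℝ) (hb : 0 < b) (hM : 0 < M) :
    ∀ᶠ n : ℕ in atTop, ((n : ℝ) + 2) ^ s * Real.exp (-(b * n)) ≤ M := by
  have h1 := tendsto_rpow_mul_exp_neg_mul_atTop_nhds_zero s b hb
  have h2 : Tendsto (fun n : ℕ => (n : ℝ) + 2) atTop atTop :=
    tendsto_atTop_add_const_right _ _ tendsto_natCast_atTop_atTop
  have h3 := (h1.comp h2).const_mul (Real.exp (2 * b))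
  rw [mul_zero] at h3
  filter_upwards [h3.eventually (gt_mem_nhds hM)] with n hn
  have h4 : ((n : ℝ) + 2) ^ s * Real.exp (-(b * n)) =
      Real.exp (2 * b) * (((n : ℝ) + 2) ^ s * Real.exp (-b * ((n : ℝ) + 2))) := by
    have : Real.exp (-(b * n)) = Real.exp (2 * b) * Real.exp (-b * ((n : ℝ) + 2)) := by
      rw [← Real.exp_add]; congr 1; ring
    rw [this]; ring
  rw [h4]
  exact le_of_lt hn

theorem ev_pow (s M : ℝ) (hs : 0 < s) (hM : 0 < M) :
    ∀ᶠ n : ℕ in atTop, ((n : ℝ) + 2) ^ (-s) ≤ M := by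
  have h1 := tendsto_rpow_neg_atTop hs
  have h2 : Tendsto (fun n : ℕ => (n : ℝ) + 2) atTop atTop :=
    tendsto_atTop_add_const_right _ _ tendsto_natCast_atTop_atTop
  filter_upwards [(h1.comp h2).eventually (gt_mem_nhds hM)] with n hn
  exact le_of_lt hn

theorem mm_one (d : ℕ) (c : ℂ) : mm d c 1 = 1 := by simp [mm]

theorem RR_pos {d : ℕ} {c0 : ℂ} {B κ η : ℝ} {n₀ : ℕ} (h : Shd d c0 B κ η n₀) (n : ℕ) :
    0 < RR d c0 B n := by
  have := h.pos n
  unfold RR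
  positivity

theorem RR_le {d : ℕ} {c0 : ℂ} {B κ η : ℝ} {n₀ : ℕ} (h : Shd d c0 B κ η n₀) {n : ℕ}
    (hn : n₀ ≤ n) : RR d c0 B n ≤ Real.exp (-(η * n)) := by
  have h1 := h.grow 0 n hn (Nat.zero_le _)
  have h2 := h.pos n
  rw [zero_add, mm_one, one_mul, Nat.cast_zero, sub_zero] at h1
  have hx : (0 : ℝ) < (n : ℝ) + 2 := by positivity
  have h3 : (0 : ℝ) < ((n : ℝ) + 2) ^ B := Real.rpow_pos_of_pos hx _
  unfold RR
  rw [Real.rpow_neg hx.le, Real.exp_neg, inv_eq_one_div, inv_eq_one_div, div_div,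
    div_le_div_iff₀ (by positivity) (Real.exp_pos _)]
  linarith

theorem t (hDisp : S_DISP) (hC : S_CMP) (hCo : S_COORD) : S_TW2 := by
  classical
  intro d c₀ B κ₀ η n₀ Q hd hL h hQ
  have hdR : (2 : ℝ) ≤ d := by exact_mod_cast hd
  have hd0 : (0 : ℝ) < d := by linarith
  have hlogd : 0 < Real.log d := Real.log_pos (by linarith)
  have hB0 := h.B0
  have hη := h.η0
  have hκ₀ := h.κ0
  have hQ0 : 0 < Q := by linarith
  obtain ⟨C, β, δ₁, T₀, r₁, hC1, hβ0, hβ1, hδ1, hδ1', hT0, hT0', hr₁, HD⟩ :=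
    hDisp d (Real.log d) c₀ hd hL
  obtain ⟨A, hA, HC⟩ := hC d (Real.log d) c₀ hd hL
  obtain ⟨B', hB'⟩ : ∃ B' : ℝ, B' = (B + 2) / β := ⟨_, rfl⟩
  have hB'0 : 0 < B' := by rw [hB']; positivity
  have hB'β : B' * β = B + 2 := by rw [hB']; field_simp
  have hdinv : 0 < 1 / (d : ℝ) - δ₁ := by
    have h1 : 1 / (d : ℝ) - 1 / (4 * d) = 3 / (4 * (d : ℝ)) := by field_simp; norm_num
    have h2 : 0 < 3 / (4 * (d : ℝ)) := by positivity
    linarith
  obtain ⟨η', hη'⟩ : ∃ x : ℝ, x = η * (1 / (d : ℝ) - δ₁) := ⟨_, rfl⟩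
  have hη'0 : 0 < η' := by rw [hη']; positivity
  -- smallness
  have Q1 := ev_pow B' (1 / A) hB'0 (by positivity)
  have Q2 := ev_pow B' T₀ hB'0 hT0
  have Q3 := ev_exp (B' * A) η 1 hη one_pos
  have Q4 := ev_exp 0 η r₁ hη hr₁
  have Q5 := ev_exp B' (Real.log d) (1 / 2) hlogd (by norm_num)
  have Q6 := ev_pow 2 (κ₀ / (64 * Q * C)) (by norm_num) (by positivity)
  have Q7 := ev_exp B η' (κ₀ / (64 * Q * C)) hη'0 (by positivity)
  have Q8 := ev_exp (A * B' + B) η (κ₀ / (64 * Q)) hη (by positivity)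
  obtain ⟨n₁, hn₁⟩ := eventually_atTop.mp (Q1.and (Q2.and (Q3.and (Q4.and (Q5.and (Q6.and
    (Q7.and (Q8.and (eventually_ge_atTop n₀)))))))))
  refine ⟨B', n₁, hB'0.le, ?_⟩
  intro n hn R hRlo hRhi
  obtain ⟨q1, q2, q3, q4, q5, q6, q7, q8, hnn⟩ := hn₁ n hn
  obtain ⟨x, hx⟩ : ∃ x : ℝ, x = (n : ℝ) + 2 := ⟨_, rfl⟩
  have hx2 : 2 ≤ x := by rw [hx]; linarith [(Nat.cast_nonneg n : (0 : ℝ) ≤ n)]
  have hx0 : 0 < x := by linarith
  rw [← hx] at q1 q2 q3 q4 q5 q6 q7 q8 ⊢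
  have hRR := RR_pos h n
  have hR : 0 < R := lt_of_lt_of_le (by positivity) hRlo
  have hRe : R ≤ Real.exp (-(η * n)) := hRhi.trans (RR_le h hnn)
  obtain ⟨T, hT⟩ : ∃ T : ℝ, T = x ^ (-B') := ⟨_, rfl⟩
  have hTpos : 0 < T := by rw [hT]; exact Real.rpow_pos_of_pos hx0 _
  have hTinv : T * x ^ B' = 1 := by
    rw [hT, ← Real.rpow_add hx0]; simp
  rw [← hT] at q1 q2
  have hR1 : R ≤ r₁ := by
    rw [Real.rpow_zero, one_mul] at q4
    exact hRe.trans q4
  have hTA : A * T ≤ 1 := by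
    rw [le_div_iff₀ (by linarith)] at q1
    linarith
  have hTT0 : T ≤ T₀ := q2
  have hRTA : R ≤ T ^ A := by
    refine hRe.trans ?_
    have h1 : T ^ A = x ^ (-(B' * A)) := by
      rw [hT, ← Real.rpow_mul hx0.le]; congr 1; ring
    rw [h1, Real.rpow_neg hx0.le, inv_eq_one_div, le_div_iff₀ (Real.rpow_pos_of_pos hx0 _)]
    linarith
  have hdnpos : (0 : ℝ) < (d : ℝ) ^ n := by positivity
  -- `T` is much larger than `d ^ (-n)`
  have hTn : Real.log 4 ≤ (d : ℝ) ^ (n + 1) * T := by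
    have h1 : Real.exp (-(Real.log d * n)) * (d : ℝ) ^ n = 1 := by
      have : (d : ℝ) ^ n = Real.exp (Real.log d * n) := by
        rw [← Real.rpow_natCast, Real.rpow_def_of_pos hd0]
      rw [this, ← Real.exp_add]; simp
    have h2 : x ^ B' ≤ 1 / 2 * (d : ℝ) ^ n := by
      calc x ^ B' = (x ^ B' * Real.exp (-(Real.log d * n))) * (d : ℝ) ^ n := by
            rw [mul_assoc, h1, mul_one]
        _ ≤ 1 / 2 * (d : ℝ) ^ n := by gcongr
    have h3 : 2 ≤ (d : ℝ) ^ n * T := by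
      have : 2 * (T * x ^ B') ≤ 2 * (T * (1 / 2 * (d : ℝ) ^ n)) := by gcongr
      rw [hTinv] at this
      linarith
    have h4 : Real.log 4 ≤ 2 := by
      rw [Real.log_le_iff_le_exp (by norm_num)]
      have := Real.add_one_le_exp (1 : ℝ)
      have h5 : Real.exp 2 = Real.exp 1 * Real.exp 1 := by rw [← Real.exp_add]; norm_num
      nlinarith [Real.exp_one_gt_d9]
    calc Real.log 4 ≤ 2 := h4
      _ ≤ (d : ℝ) ^ n * T := h3
      _ ≤ (d : ℝ) ^ (n + 1) * T := by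
          rw [pow_succ]
          have : 0 < (d : ℝ) ^ n * T := by positivity
          nlinarith
  obtain ⟨k₀, hk₀⟩ : ∃ k₀ : ℕ, 2 / T < (2 : ℝ) ^ k₀ := pow_unbounded_of_one_lt _ (by norm_num)
  refine ⟨n + k₀, ?_⟩
  intro m hm g u hg hu t₁ t₂ ht₁ ht₂ hc₁ hc₂ hdiff
  by_contra hcon
  push Not at hcon
  have hnm : n ≤ m := by omega
  obtain ⟨j, hj⟩ : ∃ j, j = m - n := ⟨_, rfl⟩
  have hjm : m = n + j := by omega
  have hjk : k₀ ≤ j := by omega
  have hTj : 2 ≤ (d : ℝ) ^ j * T := by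
    have h1 : (2 : ℝ) ^ k₀ ≤ (d : ℝ) ^ j := by
      calc (2 : ℝ) ^ k₀ ≤ (d : ℝ) ^ k₀ := pow_le_pow_left₀ (by norm_num) hdR _
        _ ≤ (d : ℝ) ^ j := pow_le_pow_right₀ (by linarith) hjk
    have h2 : 2 / T < (d : ℝ) ^ j := hk₀.trans_le h1
    rw [div_lt_iff₀ hTpos] at h2
    exact h2.le
  have hexp2 : (4 : ℝ) < Real.exp 2 := by
    have h5 : Real.exp 2 = Real.exp 1 * Real.exp 1 := by rw [← Real.exp_add]; norm_num
    nlinarith [Real.exp_one_gt_d9]
  have hTj4 : 4 < Real.exp ((d : ℝ) ^ j * T) := hexp2.trans_le (Real.exp_le_exp.mpr hTj)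
  -- the curve of parameters
  set cc : ℝ → ℂ := fun t => (Real.exp t : ℂ) * u * g ((Real.exp t : ℂ) * u)⁻¹ with hcc
  have hmin : ∀ t, min t₁ t₂ ≤ t → 4 ≤ Real.exp ((d : ℝ) ^ m * t) := by
    intro t ht
    have h1 : 4 ≤ Real.exp ((d : ℝ) ^ m * min t₁ t₂) := by
      rcases min_choice t₁ t₂ with h | h <;> rw [h] <;> assumption
    refine h1.trans ?_
    rw [Real.exp_le_exp]
    gcongr
  obtain ⟨X, hX1, hX2, hX3, hX4⟩ := hCo d hd
  obtain ⟨W, hW⟩ := hX4 m
  have hPcc : ∀ t, min t₁ t₂ ≤ t → P d (m + 1) (cc t) = ((Real.exp t : ℂ) * u) ^ (d ^ m) :=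
    fun t ht => (gm_point hd hg hu (hmin t ht)).2
  have hPn : ∀ t, min t₁ t₂ ≤ t → ‖P d (m + 1) (cc t)‖ = Real.exp ((d : ℝ) ^ m * t) := by
    intro t ht
    rw [hPcc t ht, norm_pow, norm_exp_mul t hu, ← Real.exp_nat_mul]
    push_cast
    rfl
  have hP2 : ∀ t, min t₁ t₂ ≤ t → 2 < ‖P d (m + 1) (cc t)‖ := by
    intro t ht
    rw [hPn t ht]
    linarith [hmin t ht]
  have hccc : ContinuousOn cc (Ici (min t₁ t₂)) := by
    have h1 : ContinuousOn (fun t : ℝ => ((Real.exp t : ℂ) * u)⁻¹) (Ici (min t₁ t₂)) := by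
      apply ContinuousOn.inv₀
      · fun_prop
      · intro t _ h
        have := norm_exp_mul t hu
        rw [h, norm_zero] at this
        exact (Real.exp_pos t).ne this
    have h2 : ContinuousOn (fun t : ℝ => g ((Real.exp t : ℂ) * u)⁻¹) (Ici (min t₁ t₂)) :=
      hg.diff.continuousOn.comp h1 (fun t ht => (gm_point hd hg hu (hmin t ht)).1)
    have h3 : ContinuousOn (fun t : ℝ => (Real.exp t : ℂ) * u) (Ici (min t₁ t₂)) := by fun_prop
    exact h3.mul h2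
  -- the rotation is constant
  have hNpos : 0 < d ^ m := pow_pos (by omega) _
  have hrot : ∀ t ∈ Icc (min t₁ t₂) (max t₁ t₂), ∀ t' ∈ Icc (min t₁ t₂) (max t₁ t₂),
      W (cc t) / ((Real.exp t : ℂ) * u) = W (cc t') / ((Real.exp t' : ℂ) * u) := by
    have hne : ∀ t : ℝ, (Real.exp t : ℂ) * u ≠ 0 := by
      intro t h
      have := norm_exp_mul t hu
      rw [h, norm_zero] at this
      exact (Real.exp_pos t).ne this
    have h1 : ContinuousOn (fun t : ℝ => W (cc t) / ((Real.exp t : ℂ) * u))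
        (Icc (min t₁ t₂) (max t₁ t₂)) := by
      apply ContinuousOn.div
      · intro t ht
        exact (hW (cc t) (hP2 t ht.1)).1.comp_continuousWithinAt
          ((hccc t ht.1).mono (fun s hs => hs.1))
      · fun_prop
      · exact fun t _ => hne t
    have h2 : MapsTo (fun t : ℝ => W (cc t) / ((Real.exp t : ℂ) * u))
        (Icc (min t₁ t₂) (max t₁ t₂)) {z : ℂ | z ^ (d ^ m) = 1} := by
      intro t ht
      show (W (cc t) / ((Real.exp t : ℂ) * u)) ^ (d ^ m) = 1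
      rw [div_pow, (hW (cc t) (hP2 t ht.1)).2.2.1, hPcc t ht.1]
      exact div_self (pow_ne_zero _ (hne t))
    have hfin : {z : ℂ | z ^ (d ^ m) = 1}.Finite := by
      have h3 : {z : ℂ | z ^ (d ^ m) = 1} ⊆
          ((Polynomial.nthRoots (d ^ m) (1 : ℂ)).toFinset : Set ℂ) := by
        intro z hz
        simp only [Finset.mem_coe, Multiset.mem_toFinset]
        rw [Polynomial.mem_nthRoots hNpos]
        exact hz
      exact (Finset.finite_toSet _).subset h3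
    have hdis : IsDiscrete {z : ℂ | z ^ (d ^ m) = 1} := by
      rw [isDiscrete_iff_discreteTopology]
      have := hfin.to_subtype
      infer_instance
    intro t ht t' ht'
    exact isPreconnected_Icc.constant_of_mapsTo hdis h1 h2 ht ht'
  have hm1 : t₁ ∈ Icc (min t₁ t₂) (max t₁ t₂) := ⟨min_le_left _ _, le_max_left _ _⟩
  have hm2 : t₂ ∈ Icc (min t₁ t₂) (max t₁ t₂) := ⟨min_le_right _ _, le_max_right _ _⟩
  set κ : ℂ := W (cc t₁) / ((Real.exp t₁ : ℂ) * u) with hκ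
  have hne : ∀ t : ℝ, (Real.exp t : ℂ) * u ≠ 0 := by
    intro t h
    have := norm_exp_mul t hu
    rw [h, norm_zero] at this
    exact (Real.exp_pos t).ne this
  have hWt : ∀ t ∈ Icc (min t₁ t₂) (max t₁ t₂), W (cc t) = (Real.exp t : ℂ) * (κ * u) := by
    intro t ht
    have h1 := hrot t ht t₁ hm1
    rw [← hκ, div_eq_iff (hne t)] at h1
    rw [h1]; ring
  have hκ1 : ‖κ‖ = 1 := by
    have h1 : κ ^ (d ^ m) = 1 := by
      rw [hκ, div_pow, (hW (cc t₁) (hP2 t₁ hm1.1)).2.2.1, hPcc t₁ hm1.1]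
      exact div_self (pow_ne_zero _ (hne t₁))
    have h2 : ‖κ‖ ^ (d ^ m) = 1 := by rw [← norm_pow, h1, norm_one]
    exact (pow_eq_one_iff_of_nonneg (norm_nonneg _) hNpos.ne').mp h2
  obtain ⟨v, hv⟩ : ∃ v : ℂ, v = (κ * u) ^ (d ^ n) := ⟨_, rfl⟩
  have hv1 : ‖v‖ = 1 := by rw [hv, norm_pow, norm_mul, hκ1, hu]; simp
  -- the position after `n` steps
  have hxi : ∀ t ∈ Icc (min t₁ t₂) (max t₁ t₂),
      (f d (cc t))^[n] (cc t) = X j (cc t) ((Real.exp ((d : ℝ) ^ n * t) : ℂ) * v) := by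
    intro t ht
    obtain ⟨-, h1, -, h3⟩ := hW (cc t) (hP2 t ht.1)
    have h4 := coord_iter hX3 h1 n hnm
    rw [h3, ← hj, hWt t ht, exp_pow] at h4
    rw [h4, hv]
    push_cast
    rfl
  -- the displacement
  have hdist : ∀ t ∈ Icc (min t₁ t₂) (max t₁ t₂), ‖cc t - c₀‖ ≤ R →
      ‖(f d (cc t))^[n] (cc t) - X j (cc t) ((Real.exp T : ℂ) * v)‖ ≤
        C * T ^ β + C * R ^ (1 / (d : ℝ) - δ₁) := by
    intro t ht htR
    have hle : (d : ℝ) ^ n * t ≤ T := by
      have h1 : t * ((d : ℝ) ^ n * x ^ B') ≤ 1 := by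
        refine le_trans ?_ hcon.le
        have h2 : 0 ≤ (d : ℝ) ^ n * x ^ B' := by positivity
        exact mul_le_mul_of_nonneg_right ht.2 h2
      calc (d : ℝ) ^ n * t = (t * ((d : ℝ) ^ n * x ^ B')) * T := by
            calc (d : ℝ) ^ n * t = (d : ℝ) ^ n * t * (T * x ^ B') := by rw [hTinv, mul_one]
              _ = _ := by ring
        _ ≤ 1 * T := by gcongr
        _ = T := one_mul _
    have hjn : (d : ℝ) ^ j * ((d : ℝ) ^ n * t) = (d : ℝ) ^ m * t := by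
      rw [← mul_assoc, ← pow_add, hjm, add_comm n j]
    have hcrit : ∀ i, 1 ≤ i → i ≤ j →
        ‖P d i (cc t)‖ < Real.exp ((d : ℝ) ^ j * ((d : ℝ) ^ n * t)) := by
      intro i h1 h2
      rw [hjn, ← hPn t ht.1]
      exact P_lt_of_gt hd (hP2 t ht.1) i h1 (by omega)
    have hDD : ∀ s, (d : ℝ) ^ n * t ≤ s → (cc t, (Real.exp s : ℂ) * v) ∈ Pool.Agent.N253.LC.DD d j := by
      intro s hs
      refine ⟨?_, fun i h1 h2 => ?_⟩
      · intro h
        have := norm_exp_mul s hv1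
        simp only at h
        rw [h, norm_zero] at this
        exact (Real.exp_pos s).ne this
      · show ‖P d i (cc t)‖ < ‖(Real.exp s : ℂ) * v‖ ^ (d ^ j)
        rw [norm_exp_mul s hv1, ← Real.exp_nat_mul]
        refine (hcrit i h1 h2).trans_le ?_
        rw [Real.exp_le_exp]
        push_cast
        gcongr
    have hRay : Ray d (cc t) j (v ^ (d ^ j)) (fun s => X j (cc t) ((Real.exp s : ℂ) * v))
        ((d : ℝ) ^ n * t) T := by
      refine ⟨hle, ?_, by rw [norm_pow, hv1, one_pow], ?_, ?_, hcrit⟩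
      · have h1 : ContinuousOn (fun s : ℝ => (cc t, (Real.exp s : ℂ) * v))
            (Icc ((d : ℝ) ^ n * t) T) := by fun_prop
        exact (hX1 j).comp h1 (fun s hs => hDD s hs.1)
      · intro s hs
        rw [hX2 j _ _ (hDD s hs.1), exp_pow]
        push_cast
        rfl
      · rw [hjn]; exact hmin t ht.1
    have h1 := HD R hR hR1 (cc t) htR j _ _ _ _ hRay hTT0
    rw [hxi t ht]
    exact h1
  -- comparison of the parameters
  have hball : ∀ s ∈ Icc (0 : ℝ) 1, ‖(cc t₁ + (s : ℂ) * (cc t₂ - cc t₁)) - c₀‖ ≤ R := by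
    intro s hs
    have h1 : cc t₁ + (s : ℂ) * (cc t₂ - cc t₁) - c₀ =
        ((1 - s : ℝ) : ℂ) * (cc t₁ - c₀) + (s : ℂ) * (cc t₂ - c₀) := by push_cast; ring
    rw [h1]
    refine (norm_add_le _ _).trans ?_
    rw [norm_mul, norm_mul, Complex.norm_real, Complex.norm_real, Real.norm_of_nonneg
      (by linarith [hs.2] : (0 : ℝ) ≤ 1 - s), Real.norm_of_nonneg hs.1]
    have h2 : (1 - s) * ‖cc t₁ - c₀‖ ≤ (1 - s) * R := by
      have : 0 ≤ 1 - s := by linarith [hs.2]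
      gcongr
    have h3 : s * ‖cc t₂ - c₀‖ ≤ s * R := by
      have := hs.1
      gcongr
    linarith
  have hDDT : ∀ c : ℂ, ‖c - c₀‖ ≤ R → (c, (Real.exp T : ℂ) * v) ∈ Pool.Agent.N253.LC.DD d j := by
    intro c hc
    refine ⟨?_, fun i h1 h2 => ?_⟩
    · intro h
      have := norm_exp_mul T hv1
      simp only at h
      rw [h, norm_zero] at this
      exact (Real.exp_pos T).ne this
    · show ‖P d i c‖ < ‖(Real.exp T : ℂ) * v‖ ^ (d ^ j)
      rw [norm_exp_mul T hv1, ← Real.exp_nat_mul]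
      have hpos : ∀ l ≤ n, ‖P d (l + 1) c‖ ≤ 3 := h.orb n hnn c (hc.trans hRhi)
      have hc3 : ‖c‖ ≤ 3 := by
        have := hpos 0 (Nat.zero_le _)
        rwa [zero_add, Pool.Agent.H712R2.P_one hd] at this
      by_cases hin : i ≤ n + 1
      · have h3 := hpos (i - 1) (by omega)
        rw [Nat.sub_add_cancel h1] at h3
        have h4 : (d ^ j : ℕ) * T = (d : ℝ) ^ j * T := by push_cast; rfl
        rw [h4]
        linarith
      · obtain ⟨i', hi'⟩ : ∃ i', i = n + 1 + i' := ⟨i - (n + 1), by omega⟩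
        have h3 := Pool.Agent.H713R2.up_growth hd (n := n + 1) (c := c) (R := 3) (by norm_num) hc3
          (hpos n le_rfl) i'
        rw [← hi'] at h3
        have h4 : (3 + 1 : ℝ) ^ (d ^ i') = Real.exp ((d : ℝ) ^ i' * Real.log 4) := by
          have h5 : (3 + 1 : ℝ) = Real.exp (Real.log 4) := by
            rw [Real.exp_log (by norm_num)]; norm_num
          rw [h5, ← Real.exp_nat_mul]
          push_cast
          rfl
        rw [h4] at h3
        have h6 : Real.exp ((d : ℝ) ^ i' * Real.log 4) ≤ Real.exp (((d ^ j : ℕ) : ℝ) * T) := by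
          rw [Real.exp_le_exp]
          push_cast
          calc (d : ℝ) ^ i' * Real.log 4 ≤ (d : ℝ) ^ i' * ((d : ℝ) ^ (n + 1) * T) := by gcongr
            _ = (d : ℝ) ^ i * T := by rw [← mul_assoc, ← pow_add, hi', add_comm i' (n + 1)]
            _ ≤ (d : ℝ) ^ j * T := by
                have : (d : ℝ) ^ i ≤ (d : ℝ) ^ j := pow_le_pow_right₀ (by linarith) h2
                gcongr
        linarith
  have hcmp := HC R T j (fun s => X j (cc t₁ + (s : ℂ) * (cc t₂ - cc t₁)) ((Real.exp T : ℂ) * v))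
    (fun s => cc t₁ + (s : ℂ) * (cc t₂ - cc t₁)) (((Real.exp T : ℂ) * v) ^ (d ^ j)) hR hTpos hTA
    hRTA hTj4.le (by
      rw [norm_pow, norm_exp_mul T hv1, ← Real.exp_nat_mul]
      push_cast
      rfl)
    (by
      have h1 : ContinuousOn (fun s : ℝ => (cc t₁ + (s : ℂ) * (cc t₂ - cc t₁),
          (Real.exp T : ℂ) * v)) (Icc (0 : ℝ) 1) := by fun_prop
      exact (hX1 j).comp h1 (fun s hs => hDDT _ (hball s hs)))
    (by fun_prop) hball (fun s hs => hX2 j _ _ (hDDT _ (hball s hs)))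
  simp only [Complex.ofReal_zero, zero_mul, add_zero, Complex.ofReal_one, one_mul,
    add_sub_cancel] at hcmp
  have hlow := h.exp n hnn (cc t₁) (cc t₂) (hc₁.trans hRhi) (hc₂.trans hRhi)
  rw [P_succ_eq hd] at hlow
  have hd1 := hdist t₁ hm1 hc₁
  have hd2 := hdist t₂ hm2 hc₂
  -- the numbers
  have hmm := h.pos n
  obtain ⟨y, hy⟩ : ∃ y : ℝ, y = x ^ (-B) := ⟨_, rfl⟩
  have hy0 : 0 < y := by rw [hy]; exact Real.rpow_pos_of_pos hx0 _
  have hyB : x ^ B * y = 1 := by rw [hy, ← Real.rpow_add hx0]; simp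
  have hRRy : mm d c₀ (n + 1) * RR d c₀ B n = y := by
    unfold RR
    rw [← hx, ← hy]
    field_simp
  have e1 : κ₀ * y / (8 * Q) ≤ ‖(f d (cc t₁))^[n] (cc t₁) - (f d (cc t₂))^[n] (cc t₂)‖ := by
    refine le_trans ?_ hlow
    calc κ₀ * y / (8 * Q) = κ₀ * mm d c₀ (n + 1) * (RR d c₀ B n / Q / 8) := by
          rw [← hRRy]; field_simp
      _ ≤ κ₀ * mm d c₀ (n + 1) * ‖cc t₁ - cc t₂‖ := by
          have h1 : RR d c₀ B n / Q / 8 ≤ ‖cc t₁ - cc t₂‖ :=
            le_trans (by linarith) hdiff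
          gcongr
  have e2 : C * T ^ β ≤ κ₀ * y / (64 * Q) := by
    have h1 : T ^ β = x ^ (-(2 : ℝ)) * y := by
      rw [hT, hy, ← Real.rpow_mul hx0.le, ← Real.rpow_add hx0]
      congr 1
      linarith
    rw [h1]
    calc C * (x ^ (-(2 : ℝ)) * y) ≤ C * (κ₀ / (64 * Q * C) * y) := by gcongr
      _ = κ₀ * y / (64 * Q) := by field_simp
  have e3 : C * R ^ (1 / (d : ℝ) - δ₁) ≤ κ₀ * y / (64 * Q) := by
    have h1 : R ^ (1 / (d : ℝ) - δ₁) ≤ Real.exp (-(η' * n)) := by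
      calc R ^ (1 / (d : ℝ) - δ₁) ≤ (Real.exp (-(η * n))) ^ (1 / (d : ℝ) - δ₁) :=
            Real.rpow_le_rpow hR.le hRe hdinv.le
        _ = Real.exp (-(η' * n)) := by
            rw [← Real.exp_mul, hη']; congr 1; ring
    have h2 : Real.exp (-(η' * n)) ≤ κ₀ / (64 * Q * C) * y := by
      calc Real.exp (-(η' * n)) = (x ^ B * Real.exp (-(η' * n))) * y := by
            calc Real.exp (-(η' * n)) = Real.exp (-(η' * n)) * (x ^ B * y) := by
                  rw [hyB, mul_one]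
              _ = _ := by ring
        _ ≤ κ₀ / (64 * Q * C) * y := by gcongr
    calc C * R ^ (1 / (d : ℝ) - δ₁) ≤ C * (κ₀ / (64 * Q * C) * y) := by
          gcongr
          exact h1.trans h2
      _ = κ₀ * y / (64 * Q) := by field_simp
  have e4 : R * T ^ (-A) ≤ κ₀ * y / (64 * Q) := by
    have h1 : T ^ (-A) = x ^ (A * B' + B) * y := by
      rw [hT, hy, ← Real.rpow_mul hx0.le, ← Real.rpow_add hx0]
      congr 1
      ring
    rw [h1]
    calc R * (x ^ (A * B' + B) * y) ≤ Real.exp (-(η * n)) * (x ^ (A * B' + B) * y) := by gcongr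
      _ = (x ^ (A * B' + B) * Real.exp (-(η * n))) * y := by ring
      _ ≤ κ₀ / (64 * Q) * y := by gcongr
      _ = κ₀ * y / (64 * Q) := by ring
  have e5 : ‖(f d (cc t₁))^[n] (cc t₁) - (f d (cc t₂))^[n] (cc t₂)‖ ≤
      (C * T ^ β + C * R ^ (1 / (d : ℝ) - δ₁)) + R * T ^ (-A) +
      (C * T ^ β + C * R ^ (1 / (d : ℝ) - δ₁)) := by
    set x₁ := X j (cc t₁) ((Real.exp T : ℂ) * v)
    set x₂ := X j (cc t₂) ((Real.exp T : ℂ) * v)
    have h1 : (f d (cc t₁))^[n] (cc t₁) - (f d (cc t₂))^[n] (cc t₂) =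
        ((f d (cc t₁))^[n] (cc t₁) - x₁) + (x₁ - x₂) - ((f d (cc t₂))^[n] (cc t₂) - x₂) := by ring
    rw [h1]
    refine (norm_sub_le _ _).trans (add_le_add ((norm_add_le _ _).trans (add_le_add hd1 hcmp)) hd2)
  have e6 : κ₀ * y / (8 * Q) = 8 * (κ₀ * y / (64 * Q)) := by field_simp; norm_num
  have e7 : 0 < κ₀ * y / (64 * Q) := by positivity
  linarith

end Pool.Agent.N673.TW.Tw2
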