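import Pool.Agent.N673.TW.Lcm

/-!
# Project TW, UNR: the sharp modulus of continuity of the exterior map (helper407)
-/

set_option autoImplicit false

open Set Filter Metric Topology

namespace Pool.Agent.N673.TW.Unr

open Pool.Agent.H713R2 (IsExteriorMap)
open Lcm (sqr log_top small lin)

variable {M : Set ℂ} {ψ : ℂ → ℂ} {c₀ : ℂ} {d : ℕ} {N : ℝ → ℕ} {R₀ B D C : ℝ}

/-- the function `lg` in terms of `x = log (1 / s)` -/
noncomputable def gg (x : ℝ) : ℝ := √(x * Real.log (Real.log x))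

theorem loglog_top : Tendsto (fun x : ℝ => Real.log (Real.log x)) atTop atTop :=
  Real.tendsto_log_atTop.comp Real.tendsto_log_atTop

theorem sqrt_le_gg {x : ℝ} (hx : 0 ≤ x) (h : 1 ≤ Real.log (Real.log x)) : √x ≤ gg x := by
  unfold gg
  apply Real.sqrt_le_sqrt
  nlinarith

theorem gg_top : Tendsto gg atTop atTop := by
  refine tendsto_atTop_mono' _ ?_ Real.tendsto_sqrt_atTop
  filter_upwards [eventually_ge_atTop (0 : ℝ), loglog_top.eventually_ge_atTop 1] with x h1 h2
  exact sqrt_le_gg h1 h2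

theorem log_small (A : ℝ) : ∀ᶠ x : ℝ in atTop, A * Real.log x ≤ gg x := by
  have h1 : (fun x : ℝ => A * Real.log x) =o[atTop] fun x : ℝ => x ^ (1 / 2 : ℝ) :=
    (isLittleO_log_rpow_atTop (by norm_num)).const_mul_left A
  have h2 := h1.bound one_pos
  filter_upwards [h2, eventually_ge_atTop (0 : ℝ), loglog_top.eventually_ge_atTop 1]
    with x h3 h4 h5
  rw [one_mul, Real.norm_eq_abs, Real.norm_of_nonneg (Real.rpow_nonneg h4 _),
    ← Real.sqrt_eq_rpow] at h3
  exact (le_abs_self _).trans (h3.trans (sqrt_le_gg h4 h5))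

/-- the level of the iterated logarithm -/
theorem level {C4 : ℝ} (hC4 : 1 ≤ C4) (hC : 0 ≤ C) (hB : 0 ≤ B) : ∀ᶠ x : ℝ in atTop, ∀ n : ℝ,
    5 ≤ n → n ≤ C4 * x →
    C * √(n * Real.log (Real.log n)) + B * Real.log (n + 2) ≤ (2 * C * C4 + 2) * gg x - 1 := by
  filter_upwards [eventually_ge_atTop (C4 + 2), Real.tendsto_log_atTop.eventually_ge_atTop 2,
    log_small (2 * B), gg_top.eventually_ge_atTop 1] with x h1 h2 h3 h4 n hn hnx
  have hx0 : 0 < x := by linarith
  have hn0 : 0 < n := by linarith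
  have hlogn : 1 ≤ Real.log n := by
    rw [Real.le_log_iff_exp_le hn0]
    linarith [Real.exp_one_lt_d9]
  have hlln : 0 ≤ Real.log (Real.log n) := Real.log_nonneg hlogn
  have e1 : Real.log n ≤ 2 * Real.log x := by
    have f1 : n ≤ x ^ 2 := by nlinarith
    have f2 := Real.log_le_log hn0 f1
    rw [Real.log_pow] at f2
    exact_mod_cast f2
  have e2 : Real.log (Real.log n) ≤ 2 * Real.log (Real.log x) := by
    have f1 : Real.log n ≤ Real.log x ^ 2 := by nlinarith
    have f2 := Real.log_le_log (by linarith) f1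
    rw [Real.log_pow] at f2
    exact_mod_cast f2
  have hllx : 0 ≤ Real.log (Real.log x) := by linarith
  have e3 : √(n * Real.log (Real.log n)) ≤ 2 * C4 * gg x := by
    unfold gg
    have f1 : n * Real.log (Real.log n) ≤ (2 * C4) * (x * Real.log (Real.log x)) := by
      calc n * Real.log (Real.log n) ≤ (C4 * x) * (2 * Real.log (Real.log x)) := by
            apply mul_le_mul hnx e2 hlln (by positivity)
        _ = _ := by ring
    have f2 : (2 * C4) * (x * Real.log (Real.log x)) ≤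
        (2 * C4) ^ 2 * (x * Real.log (Real.log x)) := by
      apply mul_le_mul_of_nonneg_right _ (by positivity)
      nlinarith
    have f3 := Real.sqrt_le_sqrt (f1.trans f2)
    rwa [Real.sqrt_mul (sq_nonneg (2 * C4)) (x * Real.log (Real.log x)),
      Real.sqrt_sq (by linarith)] at f3
  have e4 : Real.log (n + 2) ≤ 2 * Real.log x := by
    have f1 : n + 2 ≤ x ^ 2 := by nlinarith
    have f2 := Real.log_le_log (by linarith) f1
    rw [Real.log_pow] at f2
    exact_mod_cast f2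
  have e5 := mul_le_mul_of_nonneg_left e3 hC
  have e6 := mul_le_mul_of_nonneg_left e4 hB
  nlinarith

theorem t (hC : S_COR) : S_UNR := by
  intro M ψ c₀ d N R₀ B D C h ζ hζ hlim
  obtain ⟨K, R₁, hK, hR₁, hR₁₀, H⟩ := hC M ψ c₀ d N R₀ B D C h
  have H := H ζ hζ hlim
  have hdR : (2 : ℝ) ≤ d := by exact_mod_cast h.d2
  have hd0 : (0 : ℝ) < d := by linarith
  have hlogd : 0 < Real.log d := Real.log_pos (by linarith)
  obtain ⟨C4, hC4, H4⟩ : ∃ C4 : ℝ, 1 ≤ C4 ∧ ∀ R x : ℝ, 0 < R → R ≤ R₀ →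
      1 ≤ x → - x ≤ Real.log R → (N R : ℝ) ≤ C4 * x := by
    obtain ⟨K, hK, HK⟩ := sqr h.C0 (a := Real.log d / 2) (by positivity)
    refine ⟨max 1 (2 / Real.log d * (1 + K)), le_max_left _ _, ?_⟩
    intro r x hr hrr hx hxr
    have h5 : (5 : ℝ) ≤ N r := by exact_mod_cast h.five r hr hrr
    have h1 := h.lil r hr hrr
    have h2 := HK (N r) (by linarith)
    have h3 : 0 < r * (d : ℝ) ^ N r := by positivity
    have h4 := Real.log_le_log h3 h1
    rw [Real.log_exp, Real.log_mul hr.ne' (by positivity), Real.log_pow] at h4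
    have h7 : Real.log d / 2 * N r ≤ x + K := by linarith
    have h8 : (N r : ℝ) ≤ 2 / Real.log d * (x + K) := by
      rw [div_mul_eq_mul_div, le_div_iff₀ hlogd]
      linarith
    refine h8.trans ?_
    calc 2 / Real.log d * (x + K) ≤ 2 / Real.log d * ((1 + K) * x) := by
          refine mul_le_mul_of_nonneg_left ?_ (by positivity)
          nlinarith
      _ = 2 / Real.log d * (1 + K) * x := by ring
      _ ≤ max 1 (2 / Real.log d * (1 + K)) * x := by
          refine mul_le_mul_of_nonneg_right (le_max_right _ _) (by linarith)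
  obtain ⟨C1, hC1⟩ : ∃ x : ℝ, x = 2 * C * C4 + 2 := ⟨_, rfl⟩
  have hC0 := h.C0
  have hC10 : 0 < C1 := by rw [hC1]; positivity
  have hlev := level (C := C) (B := B) hC4 h.C0 h.B0
  rw [← hC1] at hlev
  -- `R` is small
  obtain ⟨K2, hK2, HK2⟩ := sqr hC10.le (a := 1 / 2) (by norm_num)
  have hRs : ∀ᶠ x : ℝ in atTop, Real.exp (- x) * Real.exp (C1 * gg x) ≤ R₁ := by
    have h1 : Tendsto (fun x : ℝ => Real.exp (- (x / 2) + K2)) atTop (𝓝 0) := by
      refine Real.tendsto_exp_atBot.comp ?_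
      refine tendsto_atBot_add_const_right _ _ ?_
      exact tendsto_neg_atTop_atBot.comp (tendsto_id.atTop_div_const (by norm_num))
    filter_upwards [h1.eventually_le_const hR₁, eventually_ge_atTop (3 : ℝ)] with x h2 h3
    refine le_trans ?_ h2
    rw [← Real.exp_add, Real.exp_le_exp]
    have := HK2 x h3
    unfold gg
    linarith
  have hs : Tendsto (fun w : ℂ => ‖w - ζ‖) (𝓝[{w | 1 < ‖w‖}] ζ) (𝓝[>] 0) := by
    rw [tendsto_nhdsWithin_iff]
    constructor
    · have : Tendsto (fun w : ℂ => ‖w - ζ‖) (𝓝 ζ) (𝓝 ‖ζ - ζ‖) :=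
        (continuous_id.sub continuous_const).norm.tendsto ζ
      rw [sub_self, norm_zero] at this
      exact this.mono_left nhdsWithin_le_nhds
    · filter_upwards [self_mem_nhdsWithin] with w hw
      have hw : 1 < ‖w‖ := hw
      rw [mem_Ioi, norm_pos_iff, sub_ne_zero]
      rintro rfl
      linarith
  have hx : Tendsto (fun w : ℂ => Real.log (1 / ‖w - ζ‖)) (𝓝[{w | 1 < ‖w‖}] ζ) atTop :=
    log_top.comp hs
  refine ⟨C1 + 1, by linarith, ?_⟩
  filter_upwards [hx.eventually hlev, hx.eventually hRs,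
    hx.eventually (gg_top.eventually_ge_atTop (Real.log K)), hx.eventually_ge_atTop 1,
    hs.eventually (nhdsWithin_le_nhds (Iic_mem_nhds (by norm_num : (0 : ℝ) < 1 / 8)) :
      ∀ᶠ t in 𝓝[>] (0 : ℝ), t ≤ 1 / 8),
    hs.eventually self_mem_nhdsWithin, self_mem_nhdsWithin] with w h1 h2 h3 h4 h5 h6 h7
  obtain ⟨s, hsw⟩ : ∃ s : ℝ, s = ‖w - ζ‖ := ⟨_, rfl⟩
  have HH := H
  have hlg : lg ‖w - ζ‖ = gg (Real.log (1 / s)) := by rw [hsw]; rfl
  rw [hlg]
  rw [← hsw] at h1 h2 h3 h4 h5 h6 ⊢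
  have hs0 : 0 < s := h6
  obtain ⟨x, hxs⟩ : ∃ x : ℝ, x = Real.log (1 / s) := ⟨_, rfl⟩
  rw [← hxs] at h1 h2 h3 h4 ⊢
  have hsx : Real.exp (- x) = s := by
    rw [hxs, one_div, Real.log_inv, neg_neg, Real.exp_log hs0]
  rw [hsx] at h2
  have hg0 : 0 ≤ gg x := Real.sqrt_nonneg _
  obtain ⟨R, hR⟩ : ∃ R : ℝ, R = s * Real.exp (C1 * gg x) := ⟨_, rfl⟩
  rw [← hR] at h2
  have hR0 : 0 < R := by rw [hR]; positivity
  have hlogR : Real.log R = - x + C1 * gg x := by
    rw [hR, Real.log_mul hs0.ne' (Real.exp_pos _).ne', Real.log_exp, ← hsx, Real.log_exp]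
  have hRR := h2.trans hR₁₀
  have e1 := H4 R x hR0 hRR h4 (by rw [hlogR]; nlinarith)
  have h5' : (5 : ℝ) ≤ N R := by exact_mod_cast h.five R hR0 hRR
  have e2 := h1 (N R) h5' e1
  have e3 : s * ((d : ℝ) ^ N R * ((N R : ℝ) + 2) ^ B) < 1 := by
    have f1 := h.lil R hR0 hRR
    have f2 : s = R * Real.exp (- (C1 * gg x)) := by
      rw [hR, mul_assoc, ← Real.exp_add]; simp
    have f3 : ((N R : ℝ) + 2) ^ B = Real.exp (B * Real.log ((N R : ℝ) + 2)) := by
      rw [Real.rpow_def_of_pos (by positivity), mul_comm]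
    calc s * ((d : ℝ) ^ N R * ((N R : ℝ) + 2) ^ B)
        = (R * (d : ℝ) ^ N R) * (Real.exp (- (C1 * gg x)) *
            Real.exp (B * Real.log ((N R : ℝ) + 2))) := by
          rw [← f3]
          nth_rw 1 [f2]
          ring
      _ ≤ Real.exp (C * √((N R : ℝ) * Real.log (Real.log (N R)))) * (Real.exp (- (C1 * gg x)) *
            Real.exp (B * Real.log ((N R : ℝ) + 2))) :=
          mul_le_mul_of_nonneg_right f1 (by positivity)
      _ = Real.exp (C * √((N R : ℝ) * Real.log (Real.log (N R))) +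
            (- (C1 * gg x) + B * Real.log ((N R : ℝ) + 2))) := by
          rw [Real.exp_add, Real.exp_add]
      _ < 1 := by
          rw [Real.exp_lt_one_iff]
          linarith
  have e4 := HH R hR0 h2 w h7 (by rw [← hsw]; exact h5) (by rw [← hsw]; exact e3)
  refine e4.trans ?_
  have e5 : K ≤ Real.exp (gg x) := by
    rw [← Real.log_le_iff_le_exp (by linarith)]
    exact h3
  calc K * R ≤ Real.exp (gg x) * R := mul_le_mul_of_nonneg_right e5 hR0.le
    _ = s * Real.exp ((C1 + 1) * gg x) := by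
      rw [hR, add_mul, one_mul, Real.exp_add]; ring

end Pool.Agent.N673.TW.Unr
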