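import Pool.Agent.N673.TW.Stm2

set_option autoImplicit false

/-!
# TW/VAR, part A (helper128): estimates for the boundary primitive of a Bloch function
-/

open Complex Filter Topology Metric Set MeasureTheory

namespace Pool.Agent.N673.TW.Var

theorem norm_pt' {r : ℝ} (hr : 0 ≤ r) (t : ℝ) : ‖pt r t‖ = r := by
  unfold pt
  rw [norm_circleMap_zero, abs_of_nonneg hr]

theorem pt_mem {r : ℝ} (hr : 0 ≤ r) (hr1 : r < 1) (t : ℝ) : pt r t ∈ ball (0 : ℂ) 1 := by
  rw [mem_ball_zero_iff, norm_pt' hr]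
  exact hr1

theorem lip {H : ℂ → ℂ} (hH : Bl H) {r : ℝ} (hr : 0 ≤ r) (hr1 : r < 1) (t t' : ℝ) :
    ‖H (pt r t) - H (pt r t')‖ ≤ 6 / (1 - r) * |t - t'| := by
  have h1 : ‖H (pt r t) - H (pt r t')‖ ≤ 6 / (1 - r) * ‖pt r t - pt r t'‖ := by
    apply Convex.norm_image_sub_le_of_norm_deriv_le (s := closedBall (0 : ℂ) r) (𝕜 := ℂ)
    · intro w hw
      have hw1 : w ∈ ball (0 : ℂ) 1 := by
        rw [mem_closedBall_zero_iff] at hw
        rw [mem_ball_zero_iff]
        linarith
      exact (hH.1 w hw1).differentiableAt (isOpen_ball.mem_nhds hw1)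
    · intro w hw
      rw [mem_closedBall_zero_iff] at hw
      have hw1 : w ∈ ball (0 : ℂ) 1 := by
        rw [mem_ball_zero_iff]
        linarith
      have h2 := hH.2 w hw1
      rw [le_div_iff₀ (by linarith)]
      refine le_trans ?_ h2
      exact mul_le_mul_of_nonneg_left (by linarith) (norm_nonneg _)
    · exact convex_closedBall _ _
    · rw [mem_closedBall_zero_iff, norm_pt' hr]
    · rw [mem_closedBall_zero_iff, norm_pt' hr]
  have h2 : ‖pt r t - pt r t'‖ ≤ |t - t'| := by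
    have h3 := (lipschitzWith_circleMap (0 : ℂ) r).dist_le_mul t t'
    rw [dist_eq_norm, Real.dist_eq] at h3
    have h4 : ((Real.nnabs r : NNReal) : ℝ) = r := by
      rw [Real.coe_nnabs, abs_of_nonneg hr]
    rw [h4] at h3
    unfold pt
    refine h3.trans ?_
    calc r * |t - t'| ≤ 1 * |t - t'| := mul_le_mul_of_nonneg_right hr1.le (abs_nonneg _)
      _ = |t - t'| := one_mul _
  exact h1.trans (mul_le_mul_of_nonneg_left h2 (div_nonneg (by norm_num) (by linarith)))

theorem rad_hasDeriv {H : ℂ → ℂ} (hH : Bl H) {s : ℝ} (hs0 : 0 ≤ s) (hs : s < 1) (t : ℝ) :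
    HasDerivAt (fun y : ℝ => H (pt y t)) (deriv H (pt s t) * exp (t * I)) s := by
  have h1 : HasDerivAt (fun y : ℝ => pt y t) (exp (t * I)) s := by
    have h2 : HasDerivAt (fun y : ℝ => (y : ℂ)) 1 s := Complex.ofRealCLM.hasDerivAt
    have h3 := h2.mul_const (exp (t * I))
    rw [one_mul] at h3
    refine h3.congr_of_eventuallyEq (Eventually.of_forall fun y => ?_)
    simp [pt, circleMap]
  have h4 : HasDerivAt H (deriv H (pt s t)) (pt s t) :=
    ((hH.1 _ (pt_mem hs0 hs t)).differentiableAt (isOpen_ball.mem_nhds (pt_mem hs0 hs t))).hasDerivAt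
  exact HasDerivAt.comp_of_eq s h4 h1 rfl

/-- radial variation -/
theorem rad {H : ℂ → ℂ} (hH : Bl H) {r r' : ℝ} (hr : 0 ≤ r) (hrr : r ≤ r') (hr1 : r' < 1) (t : ℝ) :
    ‖H (pt r' t) - H (pt r t)‖ ≤ 6 * (Real.log (1 - r) - Real.log (1 - r')) := by
  have key := image_norm_le_of_norm_deriv_right_le_deriv_boundary' (a := r) (b := r')
    (f := fun s : ℝ => H (pt s t) - H (pt r t)) (f' := fun s : ℝ => deriv H (pt s t) * exp (t * I))
    (B := fun s : ℝ => 6 * (Real.log (1 - r) - Real.log (1 - s))) (B' := fun s : ℝ => 6 / (1 - s))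
    ?_ ?_ ?_ ?_ ?_ ?_
  · exact key (right_mem_Icc.2 hrr)
  · intro s hs
    exact ((rad_hasDeriv hH (hr.trans hs.1) (hs.2.trans_lt hr1) t).sub_const _).continuousAt.continuousWithinAt
  · intro s hs
    exact ((rad_hasDeriv hH (hr.trans hs.1) (hs.2.trans hr1) t).sub_const _).hasDerivWithinAt
  · simp
  · intro s hs
    have hs1 : (1 - s) ≠ 0 := by linarith [hs.2]
    apply ContinuousAt.continuousWithinAt
    fun_prop (disch := assumption)
  · intro s hs
    have hs1 : (1 - s) ≠ 0 := by linarith [hs.2]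
    have h1 : HasDerivAt (fun y : ℝ => 1 - y) (-1) s := by
      simpa using (hasDerivAt_id s).const_sub 1
    have h2 := ((h1.log hs1).const_sub (Real.log (1 - r))).const_mul 6
    refine HasDerivAt.hasDerivWithinAt ?_
    have h3 : 6 * -(-1 / (1 - s)) = 6 / (1 - s) := by ring
    rw [h3] at h2
    exact h2
  · intro s hs
    have h1 := hH.2 _ (pt_mem (hr.trans hs.1) (hs.2.trans hr1) t)
    rw [norm_pt' (hr.trans hs.1)] at h1
    rw [norm_mul, norm_exp_ofReal_mul_I, mul_one, le_div_iff₀ (by linarith [hs.2])]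
    exact h1

/-- radial variation -/
theorem rad' {H : ℂ → ℂ} (hH : Bl H) {u v : ℝ} (hu : 0 < u) (hu1 : u ≤ 1) (hv : 0 < v)
    (hv1 : v ≤ 1) (t : ℝ) :
    ‖H (pt (1 - u) t) - H (pt (1 - v) t)‖ ≤ 6 * |Real.log (u / v)| := by
  rw [Real.log_div hu.ne' hv.ne']
  rcases le_total u v with h | h
  · have h1 := rad hH (r := 1 - v) (r' := 1 - u) (by linarith) (by linarith) (by linarith) t
    rw [sub_sub_cancel, sub_sub_cancel] at h1
    refine h1.trans ?_
    rw [abs_sub_comm]
    exact mul_le_mul_of_nonneg_left (le_abs_self _) (by norm_num)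
  · have h1 := rad hH (r := 1 - u) (r' := 1 - v) (by linarith) (by linarith) (by linarith) t
    rw [sub_sub_cancel, sub_sub_cancel, norm_sub_rev] at h1
    refine h1.trans ?_
    exact mul_le_mul_of_nonneg_left (le_abs_self _) (by norm_num)

variable {H : ℂ → ℂ} {A : ℝ → ℂ} {C : ℝ}

/-- the mean over a dyadic arc against the values of the function -/
theorem xx (hH : Bl H) (hA : Prim C H A) (m i : ℕ) {p u : ℝ}
    (hp0 : 2 * Real.pi * i / 2 ^ m ≤ p) (hp1 : p ≤ 2 * Real.pi * i / 2 ^ m + 2 * Real.pi / 2 ^ m)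
    (hu : 0 < u) (hu1 : u ≤ 2 * Real.pi) :
    |(H (pt (1 - u / (2 * Real.pi)) p)).re - XX A m i| ≤
      C + 12 * Real.pi + 6 * |Real.log (u / (2 * Real.pi / 2 ^ m))| := by
  have hpi := Real.pi_pos
  have h2m : (1 : ℝ) ≤ 2 ^ m := one_le_pow₀ (by norm_num)
  have h2m' : (0 : ℝ) < 2 ^ m := by positivity
  set T : ℝ := 2 * Real.pi / 2 ^ m with hT
  have hT0 : 0 < T := by positivity
  have hT1 : T ≤ 2 * Real.pi := div_le_self (by positivity) h2m
  set α : ℝ := 2 * Real.pi * i / 2 ^ m with hα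
  have hβ : 2 * Real.pi * (i + 1) / 2 ^ m = α + T := by rw [hα, hT]; ring
  have h1 := hA.2 α (α + T) (by linarith) (by linarith)
  have e1 : α + T - α = T := by ring
  rw [e1] at h1
  -- the mean
  have h2 : |(H (pt (1 - T / (2 * Real.pi)) α)).re - XX A m i| ≤ C := by
    have e2 : XX A m i = (A (α + T) - A α).re / T := by
      unfold XX
      rw [hβ, ← hα, hT]
      field_simp
    have e3 : ((A (α + T) - A α) - ((T : ℝ) : ℂ) * H (pt (1 - T / (2 * Real.pi)) α)).re =
        T * (XX A m i - (H (pt (1 - T / (2 * Real.pi)) α)).re) := by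
      rw [sub_re, re_ofReal_mul, e2]
      field_simp
    have h3 := (abs_re_le_norm _).trans h1
    rw [e3, abs_mul, abs_of_pos hT0, mul_comm C T] at h3
    have h4 := le_of_mul_le_mul_left h3 hT0
    rwa [abs_sub_comm] at h4
  have e4 : T / (2 * Real.pi) = 1 / 2 ^ m := by rw [hT]; field_simp
  have hTp : 0 < T / (2 * Real.pi) := by positivity
  have hTp1 : T / (2 * Real.pi) ≤ 1 := by rw [div_le_one (by positivity)]; exact hT1
  have h3 : |(H (pt (1 - T / (2 * Real.pi)) p)).re - (H (pt (1 - T / (2 * Real.pi)) α)).re| ≤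
      12 * Real.pi := by
    have h4 := lip hH (r := 1 - T / (2 * Real.pi)) (by linarith) (by linarith) p α
    rw [sub_sub_cancel] at h4
    have h5 : |p - α| ≤ T := by
      rw [abs_of_nonneg (by linarith)]
      linarith
    have h6 : 6 / (T / (2 * Real.pi)) * |p - α| ≤ 12 * Real.pi := by
      calc 6 / (T / (2 * Real.pi)) * |p - α| ≤ 6 / (T / (2 * Real.pi)) * T :=
            mul_le_mul_of_nonneg_left h5 (by positivity)
        _ = 12 * Real.pi := by field_simp; ring
    have h7 := (abs_re_le_norm (H (pt (1 - T / (2 * Real.pi)) p) - H (pt (1 - T / (2 * Real.pi)) α)))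
    rw [sub_re] at h7
    exact h7.trans (h4.trans h6)
  have h4 : |(H (pt (1 - u / (2 * Real.pi)) p)).re - (H (pt (1 - T / (2 * Real.pi)) p)).re| ≤
      6 * |Real.log (u / T)| := by
    have h5 := rad' hH (u := u / (2 * Real.pi)) (v := T / (2 * Real.pi)) (by positivity)
      (by rw [div_le_one (by positivity)]; exact hu1) hTp hTp1 p
    have e5 : u / (2 * Real.pi) / (T / (2 * Real.pi)) = u / T := by field_simp
    rw [e5] at h5
    have h7 := (abs_re_le_norm (H (pt (1 - u / (2 * Real.pi)) p) - H (pt (1 - T / (2 * Real.pi)) p)))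
    rw [sub_re] at h7
    exact h7.trans h5
  have h5 : (H (pt (1 - u / (2 * Real.pi)) p)).re - XX A m i =
      ((H (pt (1 - u / (2 * Real.pi)) p)).re - (H (pt (1 - T / (2 * Real.pi)) p)).re) +
      ((H (pt (1 - T / (2 * Real.pi)) p)).re - (H (pt (1 - T / (2 * Real.pi)) α)).re) +
      ((H (pt (1 - T / (2 * Real.pi)) α)).re - XX A m i) := by ring
  rw [h5]
  refine (abs_add_three _ _ _).trans ?_
  linarith

/-- the increments of the primitive -/
theorem inc (hH : Bl H) (hA : Prim C H A) (m i : ℕ) {a b : ℝ} (hab : a < b)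
    (hb : b ≤ a + 2 * Real.pi)
    (hp : (2 * Real.pi * i / 2 ^ m ≤ a ∧ a ≤ 2 * Real.pi * i / 2 ^ m + 2 * Real.pi / 2 ^ m) ∨
      (2 * Real.pi * i / 2 ^ m ≤ b ∧ b ≤ 2 * Real.pi * i / 2 ^ m + 2 * Real.pi / 2 ^ m)) :
    |(A b - A a).re - XX A m i * (b - a)| ≤
      (b - a) * (2 * C + 24 * Real.pi + 6 * |Real.log ((b - a) / (2 * Real.pi / 2 ^ m))|) := by
  have hpi := Real.pi_pos
  set u : ℝ := b - a with hu
  have hu0 : 0 < u := by linarith
  have hu1 : u ≤ 2 * Real.pi := by linarith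
  have h1 := hA.2 a b hab hb
  rw [← hu] at h1
  have h2 : |(A b - A a).re - u * (H (pt (1 - u / (2 * Real.pi)) a)).re| ≤ C * u := by
    have h3 := (abs_re_le_norm _).trans h1
    rwa [sub_re, re_ofReal_mul] at h3
  have h3 : |(H (pt (1 - u / (2 * Real.pi)) a)).re - XX A m i| ≤
      C + 24 * Real.pi + 6 * |Real.log (u / (2 * Real.pi / 2 ^ m))| := by
    rcases hp with hp | hp
    · have := xx hH hA m i hp.1 hp.2 hu0 hu1
      linarith
    · have h4 := xx hH hA m i hp.1 hp.2 hu0 hu1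
      have hup : 0 < u / (2 * Real.pi) := by positivity
      have hup1 : u / (2 * Real.pi) ≤ 1 := by rw [div_le_one (by positivity)]; exact hu1
      have h5 := lip hH (r := 1 - u / (2 * Real.pi)) (by linarith) (by linarith) a b
      rw [sub_sub_cancel, abs_sub_comm, ← hu, abs_of_pos hu0] at h5
      have h6 : 6 / (u / (2 * Real.pi)) * u = 12 * Real.pi := by field_simp; ring
      rw [h6] at h5
      have h7 := (abs_re_le_norm (H (pt (1 - u / (2 * Real.pi)) a) - H (pt (1 - u / (2 * Real.pi)) b)))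
      rw [sub_re] at h7
      have h8 : (H (pt (1 - u / (2 * Real.pi)) a)).re - XX A m i =
        ((H (pt (1 - u / (2 * Real.pi)) a)).re - (H (pt (1 - u / (2 * Real.pi)) b)).re) +
        ((H (pt (1 - u / (2 * Real.pi)) b)).re - XX A m i) := by ring
      rw [h8]
      refine (abs_add_le _ _).trans ?_
      linarith [h7.trans h5]
  have e : (A b - A a).re - XX A m i * u =
      ((A b - A a).re - u * (H (pt (1 - u / (2 * Real.pi)) a)).re) +
      u * ((H (pt (1 - u / (2 * Real.pi)) a)).re - XX A m i) := by ring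
  rw [e]
  refine (abs_add_le _ _).trans ?_
  rw [abs_mul, abs_of_pos hu0]
  have h4 := mul_le_mul_of_nonneg_left h3 hu0.le
  nlinarith

theorem log_le_sqrt {y : ℝ} (hy : 1 ≤ y) : Real.log y ≤ 2 * √y := by
  have hy0 : 0 < y := by linarith
  have h1 : Real.log y = 2 * Real.log (√y) := by
    rw [Real.log_sqrt hy0.le]; ring
  rw [h1]
  have h2 := Real.log_le_sub_one_of_pos (Real.sqrt_pos.2 hy0)
  linarith

end Pool.Agent.N673.TW.Var
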