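import Pool.Agent.N673.TW.Var_A

set_option autoImplicit false

/-!
# TW/VAR, part B (helper128): the primitive inside and outside the arc
-/

open Complex Filter Topology Metric Set MeasureTheory

namespace Pool.Agent.N673.TW.Var

variable {H : ℂ → ℂ} {A : ℝ → ℂ} {C : ℝ}

/-- inside the arc -/
theorem ins (hH : Bl H) (hA : Prim C H A) (hC : 0 ≤ C) (m i l : ℕ) {t : ℝ}
    (h0 : 2 * Real.pi * i / 2 ^ m ≤ t) (h1 : t ≤ 2 * Real.pi * i / 2 ^ m + 2 * Real.pi / 2 ^ m) :
    |(A t - A (2 * Real.pi * i / 2 ^ m)).re - XX A m i * (t - 2 * Real.pi * i / 2 ^ m)| ≤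
      2 * Real.pi / 2 ^ m *
        (√((∑ s ∈ Finset.range (2 ^ l), (XX A (m + l) (2 ^ l * i + s) - XX A m i) ^ 2) / 2 ^ l) +
          (2 * C + 24 * Real.pi + 12) * √(1 / 2 ^ l)) := by
  have hpi := Real.pi_pos
  have h2m' : (0 : ℝ) < 2 ^ m := by positivity
  have h2l' : (0 : ℝ) < 2 ^ l := by positivity
  set x : ℝ := XX A m i with hx
  set T : ℝ := 2 * Real.pi / 2 ^ m with hT
  have hT0 : 0 < T := by positivity
  set α : ℝ := 2 * Real.pi * i / 2 ^ m with hα
  set D : ℝ := T / 2 ^ l with hD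
  have hD0 : 0 < D := by positivity
  have hDT : D * 2 ^ l = T := by rw [hD]; field_simp
  set X : ℕ → ℝ := fun s => XX A (m + l) (2 ^ l * i + s) with hX
  set τ : ℕ → ℝ := fun s => α + s * D with hτ
  have hXD : ∀ s : ℕ, X s * D = (A (τ (s + 1)) - A (τ s)).re := by
    intro s
    have e1 : 2 * Real.pi * ((2 ^ l * i + s : ℕ) : ℝ) / 2 ^ (m + l) = τ s := by
      simp only [hτ, hα, hD, hT]
      rw [pow_add]
      push_cast
      field_simp
    have e2 : 2 * Real.pi * (((2 ^ l * i + s : ℕ) : ℝ) + 1) / 2 ^ (m + l) = τ (s + 1) := by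
      simp only [hτ, hα, hD, hT]
      rw [pow_add]
      push_cast
      field_simp
      ring
    simp only [hX]
    unfold XX
    rw [e1, e2, hD, hT, pow_add]
    field_simp
  have tele : ∀ s : ℕ, (A (τ s) - A α).re - x * (τ s - α) = D * ∑ j ∈ Finset.range s, (X j - x) := by
    intro s
    induction s with
    | zero => simp [hτ]
    | succ s ih =>
      rw [Finset.sum_range_succ, mul_add, ← ih]
      have h2 := hXD s
      have h3 : D * (X s - x) = (A (τ (s + 1)) - A (τ s)).re - x * D := by rw [← h2]; ring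
      rw [h3]
      simp only [hτ, sub_re]
      push_cast
      ring
  have hsum : ∀ s : ℕ, s ≤ 2 ^ l → |(A (τ s) - A α).re - x * (τ s - α)| ≤
      T * √((∑ s ∈ Finset.range (2 ^ l), (X s - x) ^ 2) / 2 ^ l) := by
    intro s hs
    rw [tele, abs_mul, abs_of_pos hD0]
    have h3 : |∑ j ∈ Finset.range s, (X j - x)| ≤ ∑ j ∈ Finset.range (2 ^ l), |X j - x| := by
      refine (Finset.abs_sum_le_sum_abs _ _).trans ?_
      exact Finset.sum_le_sum_of_subset_of_nonneg (Finset.range_mono hs) fun _ _ _ => abs_nonneg _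
    have h4 : (∑ j ∈ Finset.range (2 ^ l), |X j - x|) ^ 2 ≤
        2 ^ l * ∑ j ∈ Finset.range (2 ^ l), (X j - x) ^ 2 := by
      have := sq_sum_le_card_mul_sum_sq (s := Finset.range (2 ^ l)) (f := fun j => |X j - x|)
      simpa [sq_abs] using this
    have h5 : ∑ j ∈ Finset.range (2 ^ l), |X j - x| ≤
        2 ^ l * √((∑ s ∈ Finset.range (2 ^ l), (X s - x) ^ 2) / 2 ^ l) := by
      have h6 : (0 : ℝ) ≤ ∑ s ∈ Finset.range (2 ^ l), (X s - x) ^ 2 :=
        Finset.sum_nonneg fun _ _ => sq_nonneg _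
      apply le_of_sq_le_sq _ (by positivity)
      rw [mul_pow, Real.sq_sqrt (by positivity)]
      refine h4.trans (le_of_eq ?_)
      field_simp
    calc D * |∑ j ∈ Finset.range s, (X j - x)|
        ≤ D * (2 ^ l * √((∑ s ∈ Finset.range (2 ^ l), (X s - x) ^ 2) / 2 ^ l)) :=
          mul_le_mul_of_nonneg_left (h3.trans h5) hD0.le
      _ = T * √((∑ s ∈ Finset.range (2 ^ l), (X s - x) ^ 2) / 2 ^ l) := by
          rw [← mul_assoc, hDT]
  set s : ℕ := ⌊(t - α) / D⌋₊ with hs
  have hnn : 0 ≤ (t - α) / D := div_nonneg (by linarith) hD0.le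
  have hs1 : (s : ℝ) ≤ (t - α) / D := Nat.floor_le hnn
  have hs2 : (t - α) / D < s + 1 := Nat.lt_floor_add_one _
  have hs1' : (s : ℝ) * D ≤ t - α := by rwa [le_div_iff₀ hD0] at hs1
  have hs2' : t - α < (s + 1) * D := by rwa [div_lt_iff₀ hD0] at hs2
  have hsN : s ≤ 2 ^ l := by
    have h3 : (s : ℝ) ≤ 2 ^ l := by
      have h4 : (s : ℝ) * D ≤ 2 ^ l * D := by linarith
      exact le_of_mul_le_mul_right h4 hD0
    exact_mod_cast h3
  have hmain := hsum s hsN
  have hτs : τ s = α + s * D := rfl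
  have hu0 : 0 ≤ t - τ s := by rw [hτs]; linarith
  have huD : t - τ s ≤ D := by rw [hτs]; linarith
  have hsmall : |(A t - A (τ s)).re - x * (t - τ s)| ≤
      T * ((2 * C + 24 * Real.pi + 12) * √(1 / 2 ^ l)) := by
    rcases hu0.eq_or_lt with h2 | h2
    · have h3 : t = τ s := by linarith
      rw [h3]
      simp only [sub_self, zero_re, mul_zero, abs_zero]
      positivity
    · have hDπ : D ≤ 2 * Real.pi := by
        have h3 : D ≤ T := div_le_self hT0.le (one_le_pow₀ (by norm_num))
        have h4 : T ≤ 2 * Real.pi := div_le_self (by positivity) (one_le_pow₀ (by norm_num))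
        exact h3.trans h4
      have h3 := inc hH hA m i (a := τ s) (b := t) (by linarith) (by linarith)
        (Or.inl ⟨by rw [hτs]; have : 0 ≤ (s : ℝ) * D := by positivity
                    linarith, by linarith⟩)
      rw [← hT, ← hx] at h3
      refine h3.trans ?_
      set y : ℝ := (t - τ s) / T with hy
      have hyT : t - τ s = T * y := by rw [hy]; field_simp
      have hy0 : 0 < y := by positivity
      have hyl : y ≤ 1 / 2 ^ l := by
        rw [hy, div_le_iff₀ hT0]
        calc t - τ s ≤ D := huD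
          _ = 1 / 2 ^ l * T := by rw [hD]; ring
      have hy1 : y ≤ 1 := hyl.trans (by
        rw [div_le_one h2l']; exact one_le_pow₀ (by norm_num))
      have h4 : |Real.log y| ≤ 2 * √(1 / y) := by
        have h5 := log_le_sqrt (y := 1 / y) (by rw [le_div_iff₀ hy0]; linarith)
        rw [one_div, Real.log_inv] at h5
        rw [abs_of_nonpos (Real.log_nonpos hy0.le hy1), one_div]
        exact h5
      have h5 : y * √(1 / y) = √y := by
        rw [one_div, Real.sqrt_inv]
        have h6 : 0 < √y := Real.sqrt_pos.2 hy0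
        have h7 : √y * √y = y := Real.mul_self_sqrt hy0.le
        calc y * (√y)⁻¹ = (√y * √y) * (√y)⁻¹ := by rw [h7]
          _ = √y := by field_simp
      have h6 : y ≤ √y := by
        have h7 : √y * √y = y := Real.mul_self_sqrt hy0.le
        have h8 : √y ≤ 1 := Real.sqrt_le_one.2 hy1
        have h9 : 0 ≤ √y := Real.sqrt_nonneg _
        nlinarith
      have h7 : √y ≤ √(1 / 2 ^ l) := Real.sqrt_le_sqrt hyl
      rw [hyT, mul_assoc]
      apply mul_le_mul_of_nonneg_left _ hT0.le
      calc y * (2 * C + 24 * Real.pi + 6 * |Real.log y|)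
          ≤ y * (2 * C + 24 * Real.pi + 6 * (2 * √(1 / y))) := by gcongr
        _ = y * (2 * C + 24 * Real.pi) + 12 * (y * √(1 / y)) := by ring
        _ ≤ √y * (2 * C + 24 * Real.pi) + 12 * √y := by
            rw [h5]
            gcongr
        _ = (2 * C + 24 * Real.pi + 12) * √y := by ring
        _ ≤ (2 * C + 24 * Real.pi + 12) * √(1 / 2 ^ l) := by gcongr
  have e : (A t - A α).re - x * (t - α) = ((A (τ s) - A α).re - x * (τ s - α)) +
      ((A t - A (τ s)).re - x * (t - τ s)) := by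
    simp only [sub_re]; ring
  rw [e, mul_add]
  exact (abs_add_le _ _).trans (add_le_add hmain hsmall)

/-- outside the arc -/
theorem outs (hH : Bl H) (hA : Prim C H A) (hC : 0 ≤ C) (m i q : ℕ) {θ t : ℝ}
    (h0 : 2 * Real.pi * i / 2 ^ m ≤ θ) (h1 : θ ≤ 2 * Real.pi * i / 2 ^ m + 2 * Real.pi / 2 ^ m)
    (h2 : 2 * Real.pi / 2 ^ (m + q) ≤ |t - θ|) (h3 : |t - θ| ≤ 2 * Real.pi) :
    |(A t - A θ).re - XX A m i * (t - θ)| ≤
      (2 * C + 24 * Real.pi + 6 * q + 12) * (|t - θ| * √(|t - θ| / (2 * Real.pi / 2 ^ (m + q)))) := by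
  have hpi := Real.pi_pos
  set a : ℝ := 2 * Real.pi / 2 ^ (m + q) with ha
  have ha0 : 0 < a := by positivity
  set u : ℝ := |t - θ| with hu
  have hu0 : 0 < u := by linarith
  have h4 : |(A t - A θ).re - XX A m i * (t - θ)| ≤
      u * (2 * C + 24 * Real.pi + 6 * |Real.log (u / (2 * Real.pi / 2 ^ m))|) := by
    rcases le_total θ t with h | h
    · have hut : u = t - θ := by rw [hu, abs_of_nonneg (by linarith)]
      rw [hut]
      exact inc hH hA m i (by linarith) (by linarith) (Or.inl ⟨h0, h1⟩)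
    · have hut : u = θ - t := by rw [hu, abs_of_nonpos (by linarith)]; ring
      rw [hut]
      have := inc hH hA m i (a := t) (b := θ) (by linarith) (by linarith) (Or.inr ⟨h0, h1⟩)
      rw [← abs_neg]
      convert this using 2
      simp only [sub_re]
      ring
  refine h4.trans ?_
  have h5 : Real.log (u / (2 * Real.pi / 2 ^ m)) = Real.log (u / a) - q * Real.log 2 := by
    have e1 : u / (2 * Real.pi / 2 ^ m) = (u / a) / 2 ^ q := by
      rw [ha, pow_add]; field_simp
    rw [e1, Real.log_div (by positivity) (by positivity), Real.log_pow]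
  have h6 : 1 ≤ u / a := by rw [le_div_iff₀ ha0]; linarith
  have h7 : 0 ≤ Real.log (u / a) := Real.log_nonneg h6
  have h8 : 0 ≤ q * Real.log 2 := by positivity
  have h9 : |Real.log (u / a) - q * Real.log 2| ≤ Real.log (u / a) + q * Real.log 2 := by
    rw [abs_le]; constructor <;> linarith
  have h10 : Real.log 2 ≤ 1 := by
    have := Real.log_two_lt_d9
    linarith
  have h11 := log_le_sqrt h6
  have h12 : 1 ≤ √(u / a) := by rw [Real.one_le_sqrt]; exact h6
  have h13 : q * Real.log 2 ≤ q := by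
    have : (0 : ℝ) ≤ q := by positivity
    nlinarith
  rw [h5]
  have h14 : (0 : ℝ) ≤ q := by positivity
  calc u * (2 * C + 24 * Real.pi + 6 * |Real.log (u / a) - q * Real.log 2|)
      ≤ u * (2 * C + 24 * Real.pi + 6 * (2 * √(u / a) + q)) := by
        gcongr
        linarith
    _ = u * ((2 * C + 24 * Real.pi + 6 * q) * 1 + 12 * √(u / a)) := by ring
    _ ≤ u * ((2 * C + 24 * Real.pi + 6 * q) * √(u / a) + 12 * √(u / a)) := by gcongr
    _ = (2 * C + 24 * Real.pi + 6 * q + 12) * (u * √(u / a)) := by ring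

end Pool.Agent.N673.TW.Var
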